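import Pool.Agent.JEL.Stmts

set_option autoImplicit false
set_option linter.unusedSimpArgs false

open MeasureTheory Set Filter Topology

namespace Pool.Agent.JEL

open scoped Real

namespace Axi_

lemma two_dim (g : ℝ → ENNReal) (hg : Measurable g) :
    ∫⁻ p : ℝ × ℝ, g (p.1 ^ 2 + p.2 ^ 2) = ∫⁻ u in Ioi (0:ℝ), ENNReal.ofReal π * g u := by
  rw [← lintegral_comp_polarCoord_symm]
  have h1 : ∀ p : ℝ × ℝ, ENNReal.ofReal p.1 • g ((polarCoord.symm p).1 ^ 2 + (polarCoord.symm p).2 ^ 2)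
      = (ENNReal.ofReal p.1 * g (p.1 ^ 2)) * 1 := by
    intro p
    have h2 : (polarCoord.symm p).1 ^ 2 + (polarCoord.symm p).2 ^ 2 = p.1 ^ 2 := by
      rw [polarCoord_symm_apply]
      simp only
      have := Real.sin_sq_add_cos_sq p.2
      linear_combination p.1 ^ 2 * this
    rw [h2, smul_eq_mul, mul_one]
  have ht : polarCoord.target = Ioi (0 : ℝ) ×ˢ Ioo (-π) π := rfl
  simp_rw [h1]
  rw [ht, Measure.volume_eq_prod, ← Measure.prod_restrict]
  have hm : Measurable (fun r : ℝ => ENNReal.ofReal r * g (r ^ 2)) :=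
    (ENNReal.measurable_ofReal).mul (hg.comp (measurable_id.pow_const 2))
  rw [lintegral_prod_mul (f := fun r : ℝ => ENNReal.ofReal r * g (r ^ 2))
    (g := fun _ : ℝ => (1 : ENNReal)) hm.aemeasurable aemeasurable_const]
  have himg : (fun r : ℝ => r ^ 2) '' Ioi (0:ℝ) = Ioi (0:ℝ) := by
    ext u
    constructor
    · rintro ⟨r, hr, rfl⟩
      have hr' : (0:ℝ) < r := hr
      have h9 : (0:ℝ) < r ^ 2 := pow_pos hr' 2
      exact h9
    · intro hu
      exact ⟨Real.sqrt u, Real.sqrt_pos.2 hu, Real.sq_sqrt (le_of_lt hu)⟩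
  have hsub := lintegral_image_eq_lintegral_abs_deriv_mul (s := Ioi (0:ℝ))
    (f := fun r : ℝ => r ^ 2) (f' := fun r => 2 * r) measurableSet_Ioi
    (fun x _ => by simpa using (hasDerivAt_pow 2 x).hasDerivWithinAt)
    (by
      intro x hx y hy hxy
      have hx' : (0:ℝ) < x := hx
      have hy' : (0:ℝ) < y := hy
      exact (pow_left_inj₀ hx'.le hy'.le two_ne_zero).1 hxy) g
  rw [himg] at hsub
  rw [lintegral_const_mul' _ _ ENNReal.ofReal_ne_top, hsub]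
  have h3 : ∫⁻ x in Ioi (0:ℝ), ENNReal.ofReal |2 * x| * g (x ^ 2)
      = ENNReal.ofReal 2 * ∫⁻ x in Ioi (0:ℝ), ENNReal.ofReal x * g (x ^ 2) := by
    rw [← lintegral_const_mul' _ _ ENNReal.ofReal_ne_top]
    refine setLIntegral_congr_fun measurableSet_Ioi ?_
    intro x hx
    have hx' : (0:ℝ) < x := hx
    simp only
    rw [abs_of_pos (by positivity), ENNReal.ofReal_mul (by norm_num), mul_assoc]
  rw [h3]
  have h4 : ∫⁻ _ in Ioo (-π) π, (1 : ENNReal) = ENNReal.ofReal (2 * π) := by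
    rw [setLIntegral_const, Real.volume_Ioo, one_mul]
    congr 1; ring
  rw [h4, ENNReal.ofReal_mul (by norm_num)]
  ring

end Axi_

open Axi_

theorem Axi_proof : Stmt_Axi := by
  intro f hf
  -- pass to `Fin 3 → ℝ`
  have h1 : ∫⁻ x : E, f (x 2) (x 0 ^ 2 + x 1 ^ 2)
      = ∫⁻ v : Fin 3 → ℝ, f (v 2) (v 0 ^ 2 + v 1 ^ 2) := by
    have h2 := EuclideanSpace.volume_preserving_symm_measurableEquiv_toLp (Fin 3)
    have h3 := h2.lintegral_comp_emb (MeasurableEquiv.measurableEmbedding _)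
      (fun v : Fin 3 → ℝ => f (v 2) (v 0 ^ 2 + v 1 ^ 2))
    exact h3
  rw [h1]
  have h2 : ∫⁻ v : Fin 3 → ℝ, f (v 2) (v 0 ^ 2 + v 1 ^ 2)
      = ∫⁻ p : ℝ × (Fin 2 → ℝ), f p.1 (p.2 0 ^ 2 + p.2 1 ^ 2) := by
    have h3 := volume_preserving_piFinSuccAbove (fun _ : Fin 3 => ℝ) 2
    have h4 := h3.lintegral_comp_emb (MeasurableEquiv.measurableEmbedding _)
      (fun p : ℝ × (Fin 2 → ℝ) => f p.1 (p.2 0 ^ 2 + p.2 1 ^ 2))
    exact h4
  rw [h2]
  have hm0 : Measurable (fun p : ℝ × (Fin 2 → ℝ) => f p.1 (p.2 0 ^ 2 + p.2 1 ^ 2)) := by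
    refine hf.comp (measurable_fst.prodMk ?_)
    fun_prop
  rw [Measure.volume_eq_prod, lintegral_prod _ hm0.aemeasurable]
  refine lintegral_congr (fun z => ?_)
  simp only
  have h5 : ∫⁻ w : Fin 2 → ℝ, f z (w 0 ^ 2 + w 1 ^ 2) = ∫⁻ p : ℝ × ℝ, f z (p.1 ^ 2 + p.2 ^ 2) := by
    have h6 := (volume_preserving_finTwoArrow ℝ).lintegral_comp_emb
      (MeasurableEquiv.measurableEmbedding _) (fun p : ℝ × ℝ => f z (p.1 ^ 2 + p.2 ^ 2))
    exact h6
  rw [h5]
  exact two_dim (f z) (hf.comp (measurable_const.prodMk measurable_id))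

end Pool.Agent.JEL
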