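import Pool.Agent.JEL.Stmts

/-!
# JEL: Ball, in a ball the optimal particle number is nearly neutral
-/

open MeasureTheory Set Filter Topology

namespace Pool.Agent.JEL

open scoped Real

namespace Ball_

/-- constant density on the ball -/
noncomputable def cn (r c : ℝ) : E → ℝ := (cB 0 r).indicator (fun _ => c)

theorem meas_cB (r : ℝ) : MeasurableSet (cB (0 : E) r) := Metric.isClosed_closedBall.measurableSet

theorem cn_abs (r c : ℝ) (x : E) : |cn r c x| ≤ |c| := by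
  unfold cn
  by_cases h : x ∈ cB (0 : E) r
  · rw [indicator_of_mem h]
  · rw [indicator_of_notMem h]; simp

theorem adm_cn (r c : ℝ) : Adm (cn r c) := by
  refine ⟨measurable_const.indicator (meas_cB r), ⟨|c|, cn_abs r c⟩, ⟨r, fun x hx => ?_⟩⟩
  unfold cn
  rw [indicator_of_notMem]
  simpa [cB] using hx

theorem bm (r : ℝ) : BM (cB (0 : E) r) := ⟨meas_cB r, Metric.isBounded_closedBall⟩

theorem nt_bd {r t : ℝ} (hr : 0 < r) (ht : 0 ≤ t) : 0 ≤ nt r t ∧ nt r t ≤ 2 * π * r ^ 2 := by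
  have hp := Real.pi_pos
  unfold nt vb
  split_ifs with h
  · have h2 : t ^ 2 ≤ r ^ 2 := pow_le_pow_left₀ ht h 2
    constructor
    · nlinarith [mul_le_mul_of_nonneg_left h2 hp.le, mul_pos hp (pow_pos hr 2)]
    · nlinarith [mul_nonneg hp.le (sq_nonneg t)]
  · push Not at h
    constructor
    · positivity
    · rw [div_le_iff₀ (by linarith)]
      nlinarith [mul_pos hp (pow_pos hr 3), mul_pos (mul_pos hp (pow_pos hr 2)) (sub_pos.2 h)]

theorem pot_cn (hNewt : Stmt_Newt) {r : ℝ} (hr : 0 < r) (c : ℝ) (x : E) :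
    pot (cn r c) x = c * nt r ‖x‖ := by
  have h := hNewt.1 r 0 x hr
  rw [sub_zero] at h
  unfold pot cn
  rw [← h, ← integral_const_mul, ← integral_indicator (meas_cB r)]
  congr 1
  ext y
  by_cases hy : y ∈ cB (0 : E) r
  · rw [indicator_of_mem hy, indicator_of_mem hy]
  · rw [indicator_of_notMem hy, indicator_of_notMem hy, zero_mul]

theorem pot_abs (hNewt : Stmt_Newt) {r : ℝ} (hr : 0 < r) (c : ℝ) (x : E) :
    |pot (cn r c) x| ≤ |c| * (2 * π * r ^ 2) := by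
  rw [pot_cn hNewt hr, abs_mul]
  have h := nt_bd hr (norm_nonneg x)
  rw [abs_of_nonneg h.1]
  exact mul_le_mul_of_nonneg_left h.2 (abs_nonneg _)

theorem dfm_cn (hNewt : Stmt_Newt) (hLens : Stmt_Lens) {r : ℝ} (hr : 0 < r) (c d : ℝ) :
    Dfm (cn r c) (cn r d) ≤ |c| * |d| * (2 * π * r ^ 2) * vb r := by
  unfold Dfm
  have e : ∫ x, cn r c x * pot (cn r d) x = ∫ x in cB (0 : E) r, c * (d * nt r ‖x‖) := by
    rw [← integral_indicator (meas_cB r)]
    congr 1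
    ext x
    rw [pot_cn hNewt hr]
    unfold cn
    by_cases hy : x ∈ cB (0 : E) r
    · rw [indicator_of_mem hy, indicator_of_mem hy]
    · rw [indicator_of_notMem hy, indicator_of_notMem hy, zero_mul]
  rw [e]
  have h := norm_setIntegral_le_of_norm_le_const (μ := volume) (s := cB (0 : E) r)
    (f := fun x : E => c * (d * nt r ‖x‖)) (C := |c| * |d| * (2 * π * r ^ 2))
    measure_closedBall_lt_top (fun x _ => by
      rw [norm_mul, norm_mul, Real.norm_eq_abs, Real.norm_eq_abs, Real.norm_eq_abs, ← mul_assoc]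
      have h := nt_bd hr (norm_nonneg x)
      rw [abs_of_nonneg h.1]
      exact mul_le_mul_of_nonneg_left h.2 (by positivity))
  rw [hLens.1 0 r hr.le] at h
  exact (le_abs_self _).trans h

theorem vol_conf (hLens : Stmt_Lens) (a : ℝ) {r : ℝ} (hr : 0 < r) (n : ℕ) :
    volume (conf a (cB (0 : E) r) n) < ⊤ ∧
      volume.real (conf a (cB (0 : E) r) n) ≤ vb r ^ n := by
  have h1 : conf a (cB (0 : E) r) n ⊆ Set.pi univ (fun _ : Fin n => cB (0 : E) r) :=
    fun X hX i _ => hX.2 i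
  have h2 : volume (Set.pi univ (fun _ : Fin n => cB (0 : E) r)) =
      (volume (cB (0 : E) r)) ^ n := by
    rw [volume_pi, Measure.pi_pi]; simp
  have h3 : volume (cB (0 : E) r) < ⊤ := measure_closedBall_lt_top
  have h4 : volume (Set.pi univ (fun _ : Fin n => cB (0 : E) r)) < ⊤ := by
    rw [h2]; exact ENNReal.pow_lt_top h3
  refine ⟨(measure_mono h1).trans_lt h4, ?_⟩
  have h5 := measureReal_mono h1 h4.ne
  refine h5.trans (le_of_eq ?_)
  rw [measureReal_def, h2, ENNReal.toReal_pow, ← measureReal_def, hLens.1 0 r hr.le]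

theorem vb_pos {r : ℝ} (hr : 0 < r) : 0 < vb r := by
  unfold vb; positivity

theorem Z_le (hChg : Stmt_Chg) (hLens : Stmt_Lens) {a β ρ r : ℝ} (ha : 0 < a)
    (hβ : 0 < β) (hρ : 0 < ρ) (har : a ≤ r) (n : ℕ) :
    Z a β ρ (cB 0 r) n ≤ Real.exp (-(β * (((n : ℝ) - ρ * vb r) ^ 2 / (24 * r)))) *
      ((Real.exp (β * (C0 a ρ + 1 / (3 * a))) * vb r) ^ n / n.factorial) := by
  have hr : 0 < r := ha.trans_le har
  obtain ⟨hv1, hv2⟩ := vol_conf hLens a hr n
  set K : ℝ := Real.exp (-(β * (((n : ℝ) - ρ * vb r) ^ 2 / (24 * r)))) *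
    Real.exp (β * (C0 a ρ + 1 / (3 * a))) ^ n with hK
  have h := norm_setIntegral_le_of_norm_le_const (μ := volume)
    (s := conf a (cB (0 : E) r) n)
    (f := fun X : Fin n → E => Real.exp (-β * En (bg ρ (cB 0 r)) X)) (C := K) hv1
    (fun X hX => by
      rw [Real.norm_eq_abs, abs_of_pos (Real.exp_pos _), hK, ← Real.exp_nat_mul,
        ← Real.exp_add]
      apply Real.exp_le_exp.mpr
      have h1 := mul_le_mul_of_nonneg_left (hChg a ρ r ha hρ har 0 n X hX) hβ.le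
      nlinarith [h1])
  have h2 : ∫ X in conf a (cB (0 : E) r) n, Real.exp (-β * En (bg ρ (cB 0 r)) X) ≤
      K * vb r ^ n :=
    ((le_abs_self _).trans h).trans (mul_le_mul_of_nonneg_left hv2 (by positivity))
  unfold Z ZF
  have h3 := mul_le_mul_of_nonneg_left h2
    (inv_nonneg.mpr (Nat.cast_nonneg (α := ℝ) n.factorial))
  refine h3.trans (le_of_eq ?_)
  rw [hK, mul_pow]
  ring

theorem Z_ge (hT : Stmt_T) (hNewt : Stmt_Newt) (hLens : Stmt_Lens) {a β ρ : ℝ} (ha : 0 < a)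
    (hβ : 0 < β) (hρ : 0 < ρ) (hρ2 : ρ < Real.sqrt 2 / a ^ 3) :
    ∃ C' r₁ : ℝ, 0 ≤ C' ∧ 1 ≤ r₁ ∧ ∀ r, r₁ ≤ r →
      Real.exp (-(C' * r ^ 3)) ≤ Z a β ρ (cB 0 r) ⌊ρ * vb r⌋₊ := by
  obtain ⟨C, hC1, hC⟩ := hT a β ρ ρ ha hβ hρ hρ2 hρ.le
  have hp := Real.pi_pos
  refine ⟨C * ((2 * ρ + 1) * (4 * π / 3) + 2 + 2 * π * (1 + 4 * ρ)), max 1 ((C + 1) / ρ),
    by positivity, le_max_left _ _, ?_⟩
  intro r hr
  have hr1 : 1 ≤ r := (le_max_left _ _).trans hr
  have hr2 : (C + 1) / ρ ≤ r := (le_max_right _ _).trans hr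
  have hr0 : 0 < r := by linarith
  set V : ℝ := vb r with hV
  have hVpos : 0 < V := vb_pos hr0
  have hr23 : r ^ 2 ≤ r ^ 3 := pow_le_pow_right₀ hr1 (by norm_num)
  have hr13 : r ≤ r ^ 3 := by nlinarith [pow_pos hr0 2]
  have h13 : 1 ≤ r ^ 3 := one_le_pow₀ hr1
  have hVr : r ≤ V := by
    rw [hV]; unfold vb
    have : (1 : ℝ) ≤ 4 * π / 3 := by linarith [Real.pi_gt_three]
    nlinarith [pow_pos hr0 3]
  have hV1 : 1 ≤ V := hr1.trans hVr
  have hρV : C + 1 ≤ ρ * V := by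
    rw [div_le_iff₀ hρ] at hr2
    nlinarith
  set N : ℕ := ⌊ρ * V⌋₊ with hN
  have hN1 : (N : ℝ) ≤ ρ * V := Nat.floor_le (by positivity)
  have hN2 : ρ * V < N + 1 := Nat.lt_floor_add_one _
  have hNC : C ≤ N := by linarith
  have hN1' : (1 : ℝ) ≤ N := by linarith
  have hNpos : (0 : ℝ) < N := by linarith
  have hc1 : |(N : ℝ) / V - ρ| ≤ 1 / V := by
    have e : (N : ℝ) / V - ρ = (N - ρ * V) / V := by field_simp
    rw [e, abs_div, abs_of_pos hVpos]
    apply div_le_div_of_nonneg_right _ hVpos.le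
    rw [abs_le]
    constructor <;> linarith
  have hc2 : 0 ≤ (N : ℝ) / V := by positivity
  have hc3 : (N : ℝ) / V ≤ ρ := by
    rw [div_le_iff₀ hVpos]; exact hN1
  have hsum : (fun x => cn r ((N : ℝ) / V) x + bg ρ (cB 0 r) x) = cn r ((N : ℝ) / V - ρ) := by
    ext x
    unfold cn bg
    by_cases hy : x ∈ cB (0 : E) r
    · rw [indicator_of_mem hy, indicator_of_mem hy, indicator_of_mem hy]; ring
    · rw [indicator_of_notMem hy, indicator_of_notMem hy, indicator_of_notMem hy]; ring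
  have hbg : bg ρ (cB 0 r) = cn r (-ρ) := rfl
  have hTH : THyp ρ ρ (cB 0 r) (cn r ((N : ℝ) / V)) (bg ρ (cB 0 r)) N
      (2 * π * ρ * r ^ 2) (2 * π * ρ * r ^ 2) (2 * π * r ^ 2) := by
    refine ⟨bm r, (adm_cn _ _).meas, ?_, ?_, ?_, ?_, ?_, by positivity, ?_, ?_, ?_, ?_,
      by positivity, by positivity⟩
    · intro x
      unfold cn
      by_cases hy : x ∈ cB (0 : E) r
      · rw [indicator_of_mem hy]; exact ⟨hc2, hc3⟩
      · rw [indicator_of_notMem hy]; exact ⟨le_rfl, hρ.le⟩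
    · intro x hx
      unfold cn
      rw [indicator_of_notMem hx]
    · rw [hbg]; exact adm_cn _ _
    · intro x
      rw [hbg]
      refine (cn_abs _ _ _).trans ?_
      rw [abs_neg, abs_of_pos hρ]
    · unfold cn
      rw [integral_indicator_const _ (meas_cB r), hLens.1 0 r hr0.le, smul_eq_mul, ← hV]
      field_simp
    · intro x
      rw [hbg]
      refine (pot_abs hNewt hr0 _ x).trans (le_of_eq ?_)
      rw [abs_neg, abs_of_pos hρ]; ring
    · intro x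
      refine (pot_abs hNewt hr0 _ x).trans ?_
      rw [abs_of_nonneg hc2]
      have : (N : ℝ) / V * (2 * π * r ^ 2) ≤ ρ * (2 * π * r ^ 2) :=
        mul_le_mul_of_nonneg_right hc3 (by positivity)
      linarith
    · rw [hsum]
      refine (dfm_cn hNewt hLens hr0 _ _).trans ?_
      rw [← hV]
      have h1 : |(N : ℝ) / V - ρ| * |(N : ℝ) / V - ρ| ≤ 1 / V * (1 / V) :=
        mul_le_mul hc1 hc1 (abs_nonneg _) (by positivity)
      have h2 : |(N : ℝ) / V - ρ| * |(N : ℝ) / V - ρ| * (2 * π * r ^ 2) * V ≤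
          1 / V * (1 / V) * (2 * π * r ^ 2) * V := by gcongr
      refine h2.trans ?_
      have h3 : 1 / V * (1 / V) * (2 * π * r ^ 2) * V = (2 * π * r ^ 2) / V := by field_simp
      rw [h3]
      exact div_le_self (by positivity) hV1
    · rw [hsum, hbg]
      refine (dfm_cn hNewt hLens hr0 _ _).trans ?_
      rw [← hV, abs_neg, abs_of_pos hρ]
      have h2 : |(N : ℝ) / V - ρ| * ρ * (2 * π * r ^ 2) * V ≤
          1 / V * ρ * (2 * π * r ^ 2) * V := by gcongr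
      refine h2.trans (le_of_eq ?_)
      field_simp
  have hm1 : ∫ x, |bg ρ (cB (0 : E) r) x| ≤ ρ * V := by
    have e : (fun x => |bg ρ (cB (0 : E) r) x|) = cn r ρ := by
      ext x
      unfold cn bg
      by_cases hy : x ∈ cB (0 : E) r
      · rw [indicator_of_mem hy, indicator_of_mem hy, abs_neg, abs_of_pos hρ]
      · rw [indicator_of_notMem hy, indicator_of_notMem hy, abs_zero]
    rw [e]
    unfold cn
    rw [integral_indicator_const _ (meas_cB r), hLens.1 0 r hr0.le, smul_eq_mul]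
    rw [mul_comm]
  have hmain := hC (cB 0 r) (cn r ((N : ℝ) / V)) (bg ρ (cB 0 r)) N (2 * π * ρ * r ^ 2)
    (2 * π * ρ * r ^ 2) (2 * π * r ^ 2) (ρ * V) hTH hNC hm1
  rw [hLens.1 0 r hr0.le, ← hV] at hmain
  refine le_trans (Real.exp_le_exp.mpr ?_) hmain
  have hs1 : 1 ≤ Real.sqrt N := by
    rw [Real.one_le_sqrt]; exact hN1'
  have b1 : 2 * π * ρ * r ^ 2 / Real.sqrt N ≤ 2 * π * ρ * r ^ 2 :=
    div_le_self (by positivity) hs1
  have b2 : 2 * π * ρ * r ^ 2 * (ρ * V) / N ≤ 2 * (2 * π * ρ * r ^ 2) := by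
    rw [div_le_iff₀ hNpos]
    have : ρ * V ≤ 2 * N := by linarith
    nlinarith [mul_le_mul_of_nonneg_left this (show 0 ≤ 2 * π * ρ * r ^ 2 by positivity)]
  have b3 : Real.sqrt N * Real.log (2 + V) ≤ N + 2 + V := by
    have h2V : 0 < 2 + V := by linarith
    have hl : Real.log (2 + V) ≤ 2 * Real.sqrt (2 + V) := by
      have h5 : Real.log (2 + V) = 2 * Real.log (Real.sqrt (2 + V)) := by
        rw [Real.log_sqrt h2V.le]; ring
      rw [h5]
      have := Real.log_le_sub_one_of_pos (Real.sqrt_pos.mpr h2V)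
      linarith
    have h6 : Real.sqrt N * Real.log (2 + V) ≤ Real.sqrt N * (2 * Real.sqrt (2 + V)) :=
      mul_le_mul_of_nonneg_left hl (Real.sqrt_nonneg _)
    have h7 := Real.sq_sqrt hNpos.le
    have h8 := Real.sq_sqrt h2V.le
    nlinarith [sq_nonneg (Real.sqrt N - Real.sqrt (2 + V))]
  have hVe : V = 4 * π / 3 * r ^ 3 := rfl
  have b4 : (N : ℝ) + 2 * π * r ^ 2 + 2 * π * ρ * r ^ 2 / Real.sqrt N + 2 * π * ρ * r ^ 2 +
      2 * π * ρ * r ^ 2 * (ρ * V) / N + Real.sqrt N * Real.log (2 + V) ≤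
      ((2 * ρ + 1) * (4 * π / 3) + 2 + 2 * π * (1 + 4 * ρ)) * r ^ 3 := by
    have c1 : 2 * π * (1 + 4 * ρ) * r ^ 2 ≤ 2 * π * (1 + 4 * ρ) * r ^ 3 :=
      mul_le_mul_of_nonneg_left hr23 (by positivity)
    have c2 : (N : ℝ) ≤ ρ * (4 * π / 3) * r ^ 3 := by
      have := hN1
      rw [hVe] at this
      linarith
    have c3 : V = 4 * π / 3 * r ^ 3 := rfl
    nlinarith [b1, b2, b3, c1, c2, c3]
  have b5 := mul_le_mul_of_nonneg_left b4 (show 0 ≤ C by linarith)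
  nlinarith [b5]

theorem Xi_le {f g : ℕ → ℝ} {G : Finset ℕ} {D S T : ℝ} (hf : HasSum f S) (hg : HasSum g T)
    (hD : 0 ≤ D) (hg0 : ∀ n, 0 ≤ g n) (h : ∀ n, n ∉ G → f n ≤ D * g n) :
    S ≤ ∑ n ∈ G, f n + D * T := by
  have h1 : HasSum (fun n => if n ∈ G then f n else 0) (∑ n ∈ G, f n) := by
    have e : ∑ n ∈ G, f n = ∑ n ∈ G, (if n ∈ G then f n else 0) :=
      Finset.sum_congr rfl fun n hn => by rw [if_pos hn]
    rw [e]
    exact hasSum_sum_of_ne_finset_zero fun n hn => if_neg hn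
  refine hasSum_le (fun n => ?_) hf (h1.add (hg.mul_left D))
  by_cases hn : n ∈ G
  · rw [if_pos hn]
    have := mul_nonneg hD (hg0 n)
    linarith
  · rw [if_neg hn, zero_add]
    exact h n hn

theorem exp_sum (Y : ℝ) : HasSum (fun n : ℕ => Y ^ n / (n.factorial : ℝ)) (Real.exp Y) := by
  rw [Real.exp_eq_exp_ℝ]
  exact NormedSpace.expSeries_div_hasSum_exp Y

end Ball_

open Ball_ in
/-- Ball -/
theorem Ball_proof (hChg : Stmt_Chg) (hMeas : Stmt_Meas) (hT : Stmt_T) (hNewt : Stmt_Newt)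
    (hLens : Stmt_Lens) : Stmt_Ball := by
  intro a β ρ ha hβ hρ hρ2
  obtain ⟨C', r₁, hC', hr₁, hlow⟩ := Z_ge hT hNewt hLens ha hβ hρ hρ2
  have hp := Real.pi_pos
  set c1 : ℝ := Real.exp (β * (C0 a ρ + 1 / (3 * a))) with hc1
  have hc1p : 0 < c1 := Real.exp_pos _
  set X : ℝ := c1 * (4 * π / 3) + C' with hX
  have hX0 : 0 ≤ X := by positivity
  set K₀ : ℝ := 1 + 24 * X / β with hK₀
  have hK1 : 1 ≤ K₀ := by
    have : 0 ≤ 24 * X / β := by positivity
    linarith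
  have hK2 : X ≤ β * K₀ ^ 2 / 24 := by
    have h1 : K₀ ≤ K₀ ^ 2 := by nlinarith
    have h2 : 24 * X / β ≤ K₀ := by rw [hK₀]; linarith
    have h3 : 24 * X ≤ β * K₀ := by
      rw [div_le_iff₀ hβ] at h2
      linarith
    have h4 := mul_le_mul_of_nonneg_left h1 hβ.le
    linarith
  refine ⟨K₀, by linarith, ?_⟩
  intro ε hε
  set A : ℝ := ρ * (4 * π / 3) + K₀ + 2 with hA
  have hA0 : 0 < A := by positivity
  refine ⟨max (max r₁ a) (4 * A / ε ^ 2), ?_⟩
  intro r hr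
  have hrr₁ : r₁ ≤ r := (le_max_left _ _).trans ((le_max_left _ _).trans hr)
  have hra : a ≤ r := (le_max_right _ _).trans ((le_max_left _ _).trans hr)
  have hrε : 4 * A / ε ^ 2 ≤ r := (le_max_right _ _).trans hr
  have hr1 : 1 ≤ r := hr₁.trans hrr₁
  have hr0 : 0 < r := by linarith
  set V : ℝ := vb r with hV
  have hVpos : 0 < V := vb_pos hr0
  have hVe : V = 4 * π / 3 * r ^ 3 := rfl
  have hr2 : 1 ≤ r ^ 2 := one_le_pow₀ hr1
  have hr3 : 1 ≤ r ^ 3 := one_le_pow₀ hr1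
  have hr23 : r ^ 2 ≤ r ^ 3 := pow_le_pow_right₀ hr1 (by norm_num)
  have hr13 : r ≤ r ^ 3 := by nlinarith
  have hρV : 0 < ρ * V := by positivity
  set f : ℕ → ℝ := fun n => Z a β ρ (cB 0 r) n with hf
  have hsum := hMeas.2.2.2.2.2 a β ρ (cB 0 r) ha hβ hρ (bm r)
  have hf0 : ∀ n, 0 ≤ f n := fun n =>
    (hMeas.2.2.2.1 a β ρ (bg ρ (cB 0 r)) (cB 0 r) n ha hβ hρ.le (adm_cn r (-ρ))
      (fun x => (cn_abs r (-ρ) x).trans (by rw [abs_neg, abs_of_pos hρ])) (bm r)).1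
  have hHS : HasSum f (Xi a β ρ (cB 0 r)) := hsum.1.hasSum
  set n₀ : ℕ := ⌊ρ * V⌋₊ with hn₀
  set G : Finset ℕ := (Finset.range (⌊ρ * V + K₀ * r ^ 2⌋₊ + 1)).filter
    (fun n => |(n : ℝ) - ρ * V| ≤ K₀ * r ^ 2) with hG
  have hGmem : ∀ n : ℕ, |(n : ℝ) - ρ * V| ≤ K₀ * r ^ 2 → n ∈ G := by
    intro n hn
    rw [hG, Finset.mem_filter, Finset.mem_range]
    refine ⟨?_, hn⟩
    rw [Nat.lt_succ_iff]
    apply Nat.le_floor
    have := (abs_le.mp hn).2
    linarith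
  have hn₀G : n₀ ∈ G := by
    apply hGmem
    have h1 : (n₀ : ℝ) ≤ ρ * V := Nat.floor_le hρV.le
    have h2 : ρ * V < n₀ + 1 := Nat.lt_floor_add_one _
    have h3 : 1 ≤ K₀ * r ^ 2 := one_le_mul_of_one_le_of_one_le hK1 hr2
    rw [abs_le]
    constructor <;> linarith
  obtain ⟨n, hnG, hmax⟩ := Finset.exists_max_image G f ⟨n₀, hn₀G⟩
  have hnG' : |(n : ℝ) - ρ * V| ≤ K₀ * r ^ 2 := (Finset.mem_filter.mp hnG).2
  have hlow' : Real.exp (-(C' * r ^ 3)) ≤ f n := (hlow r hrr₁).trans (hmax n₀ hn₀G)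
  have hfpos : 0 < f n := lt_of_lt_of_le (Real.exp_pos _) hlow'
  refine ⟨n, hnG', hfpos, ?_⟩
  -- the tail
  set D : ℝ := Real.exp (-(β * K₀ ^ 2 / 24 * r ^ 3)) with hD
  have htail : ∀ k, k ∉ G → f k ≤ D * ((c1 * V) ^ k / (k.factorial : ℝ)) := by
    intro k hk
    have h1 : K₀ * r ^ 2 < |(k : ℝ) - ρ * V| := by
      by_contra hc
      push Not at hc
      exact hk (hGmem k hc)
    refine (Z_le hChg hLens ha hβ hρ hra k).trans ?_
    apply mul_le_mul_of_nonneg_right _ (by positivity)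
    apply Real.exp_le_exp.mpr
    have h2 : (K₀ * r ^ 2) ^ 2 ≤ ((k : ℝ) - ρ * V) ^ 2 := by
      rw [← sq_abs ((k : ℝ) - ρ * V)]
      exact pow_le_pow_left₀ (by positivity) h1.le 2
    have h3 : β * K₀ ^ 2 / 24 * r ^ 3 = β * ((K₀ * r ^ 2) ^ 2 / (24 * r)) := by
      field_simp
    have h4 : (K₀ * r ^ 2) ^ 2 / (24 * r) ≤ ((k : ℝ) - ρ * V) ^ 2 / (24 * r) :=
      div_le_div_of_nonneg_right h2 (by positivity)
    have h5 := mul_le_mul_of_nonneg_left h4 hβ.le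
    rw [h3]
    linarith
  have hXi := Xi_le hHS (exp_sum (c1 * V)) (Real.exp_pos _).le (fun k => by positivity) htail
  have hDY : D * Real.exp (c1 * V) ≤ f n := by
    refine le_trans ?_ hlow'
    rw [hD, ← Real.exp_add]
    apply Real.exp_le_exp.mpr
    have h1 := mul_le_mul_of_nonneg_right hK2 (show 0 ≤ r ^ 3 by positivity)
    rw [hX] at h1
    rw [hVe]
    linarith
  have hGsum : ∑ k ∈ G, f k ≤ (ρ * V + K₀ * r ^ 2 + 1) * f n := by
    have h1 : ∑ k ∈ G, f k ≤ G.card • f n := Finset.sum_le_card_nsmul G f (f n) hmax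
    refine h1.trans ?_
    rw [nsmul_eq_mul]
    apply mul_le_mul_of_nonneg_right _ hfpos.le
    have h2 : G.card ≤ ⌊ρ * V + K₀ * r ^ 2⌋₊ + 1 := by
      refine (Finset.card_filter_le _ _).trans ?_
      rw [Finset.card_range]
    have h3 : ((⌊ρ * V + K₀ * r ^ 2⌋₊ : ℕ) : ℝ) ≤ ρ * V + K₀ * r ^ 2 :=
      Nat.floor_le (by positivity)
    have h4 : (G.card : ℝ) ≤ (⌊ρ * V + K₀ * r ^ 2⌋₊ : ℝ) + 1 := by exact_mod_cast h2
    linarith
  have hXi2 : Xi a β ρ (cB 0 r) ≤ (A * r ^ 3) * f n := by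
    have h1 : ρ * V + K₀ * r ^ 2 + 2 ≤ A * r ^ 3 := by
      rw [hA, hVe]
      nlinarith [mul_le_mul_of_nonneg_left hr23 (show 0 ≤ K₀ by linarith)]
    have h2 := mul_le_mul_of_nonneg_right h1 hfpos.le
    linarith
  have hlog : Real.log (Xi a β ρ (cB 0 r)) ≤ Real.log (A * r ^ 3) + Real.log (f n) := by
    rw [← Real.log_mul (by positivity) hfpos.ne']
    exact Real.log_le_log hsum.2.1 hXi2
  have hAr : 0 < A * r ^ 3 := by positivity
  have hlog2 : Real.log (A * r ^ 3) ≤ ε * r ^ 3 := by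
    have h5 : Real.log (A * r ^ 3) = 2 * Real.log (Real.sqrt (A * r ^ 3)) := by
      rw [Real.log_sqrt hAr.le]; ring
    have h6 := Real.log_le_sub_one_of_pos (Real.sqrt_pos.mpr hAr)
    have h7 : Real.sqrt (A * r ^ 3) ≤ ε / 2 * r ^ 3 := by
      rw [Real.sqrt_le_left (by positivity)]
      have h8 : 4 * A ≤ ε ^ 2 * r ^ 3 := by
        rw [div_le_iff₀ (by positivity)] at hrε
        have : ε ^ 2 * r ≤ ε ^ 2 * r ^ 3 := mul_le_mul_of_nonneg_left hr13 (by positivity)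
        linarith
      have h9 := mul_le_mul_of_nonneg_right h8 (show 0 ≤ r ^ 3 by positivity)
      nlinarith [h9]
    rw [h5]
    linarith
  linarith

end Pool.Agent.JEL
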