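import Pool.Agent.JEL.Stmts

/-!
# JEL, module Binom: binomial splitting of symmetric integrals
-/

open MeasureTheory Set Filter Topology

namespace Pool.Agent.JEL

namespace Binom_

/-- configurations with the indices of `S` in `A` and the others in `B` -/
def ES (A B : Set E) {N : ℕ} (S : Finset (Fin N)) : Set (Fin N → E) :=
  {X | ∀ i, (i ∈ S → X i ∈ A) ∧ (i ∉ S → X i ∈ B)}

theorem measurableSet_all {ι : Type} [Fintype ι] {A : Set E} (hA : MeasurableSet A) :
    MeasurableSet {x : ι → E | ∀ i, x i ∈ A} := by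
  have : {x : ι → E | ∀ i, x i ∈ A} = ⋂ i, (fun x : ι → E => x i) ⁻¹' A := by
    ext x; simp
  rw [this]
  exact MeasurableSet.iInter fun i => measurable_pi_apply i hA

theorem measurableSet_ES {A B : Set E} (hA : MeasurableSet A) (hB : MeasurableSet B) {N : ℕ}
    (S : Finset (Fin N)) : MeasurableSet (ES A B S) := by
  have : ES A B S = ⋂ i, (fun x : Fin N → E => x i) ⁻¹' (if i ∈ S then A else B) := by
    ext x
    simp only [ES, mem_ofPred_eq, mem_iInter, mem_preimage]
    refine forall_congr' fun i => ?_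
    by_cases h : i ∈ S <;> simp [h]
  rw [this]
  refine MeasurableSet.iInter fun i => measurable_pi_apply i ?_
  split_ifs
  · exact hA
  · exact hB

theorem union_ES {A B : Set E} (N : ℕ) :
    {X : Fin N → E | ∀ i, X i ∈ A ∪ B} = ⋃ S ∈ (Finset.univ : Finset (Finset (Fin N))),
      ES A B S := by
  classical
  ext X
  simp only [mem_ofPred_eq, mem_iUnion, Finset.mem_univ, exists_true_left, ES]
  constructor
  · intro h
    refine ⟨Finset.univ.filter (fun i => X i ∈ A), fun i => ⟨fun hi => ?_, fun hi => ?_⟩⟩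
    · simpa using hi
    · have h1 : X i ∉ A := by simpa using hi
      exact (h i).resolve_left h1
  · rintro ⟨S, h⟩ i
    by_cases hi : i ∈ S
    · exact Or.inl ((h i).1 hi)
    · exact Or.inr ((h i).2 hi)

theorem disj_ES {A B : Set E} (hAB : Disjoint A B) (N : ℕ) :
    Set.PairwiseDisjoint ((Finset.univ : Finset (Finset (Fin N))) : Set (Finset (Fin N)))
      (fun S => ES A B S) := by
  intro S _ T _ hST
  rw [Function.onFun, Set.disjoint_left]
  intro X hS hT
  apply hST
  ext i
  by_cases h1 : i ∈ S <;> by_cases h2 : i ∈ T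
  · simp [h1, h2]
  · exact absurd ((hT i).2 h2) (Set.disjoint_left.mp hAB ((hS i).1 h1))
  · exact absurd ((hS i).2 h1) (Set.disjoint_left.mp hAB ((hT i).1 h2))
  · simp [h1, h2]

/-- symmetry for equal numbers of points -/
theorem symm_eq (f : ∀ n : ℕ, (Fin n → E) → ENNReal)
    (hf : ∀ n (σ : Equiv.Perm (Fin n)) (X : Fin n → E), f n (X ∘ σ) = f n X) {N N' : ℕ}
    (h : N' = N) (e : Fin N' ≃ Fin N) (X : Fin N → E) : f N' (X ∘ e) = f N X := by
  subst h
  exact hf N' e X

/-- the integral over one of the sets -/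
theorem int_ES {A B : Set E}
    (f : ∀ n : ℕ, (Fin n → E) → ENNReal) (hfm : ∀ n, Measurable (f n))
    (hf : ∀ n (σ : Equiv.Perm (Fin n)) (X : Fin n → E), f n (X ∘ σ) = f n X) {N k m : ℕ}
    (S : Finset (Fin N)) (hk : S.card = k) (hm : k + m = N) :
    ∫⁻ X in ES A B S, f N X = ∫⁻ x in {x : Fin k → E | ∀ i, x i ∈ A},
      ∫⁻ y in {y : Fin m → E | ∀ i, y i ∈ B}, f (k + m) (Fin.append x y) := by
  classical
  -- the equivalence of index sets
  have hcS : Fintype.card {i // i ∈ S} = k := by rw [Fintype.card_coe, hk]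
  have hcS' : Fintype.card {i // ¬ i ∈ S} = m := by
    rw [Fintype.card_subtype_compl, Fintype.card_fin, Fintype.card_coe, hk]
    omega
  let e1 : Fin k ≃ {i // i ∈ S} := (Fintype.equivFinOfCardEq hcS).symm
  let e2 : Fin m ≃ {i // ¬ i ∈ S} := (Fintype.equivFinOfCardEq hcS').symm
  let e : Fin k ⊕ Fin m ≃ Fin N := (Equiv.sumCongr e1 e2).trans (Equiv.sumCompl (· ∈ S))
  have he1 : ∀ i, e (Sum.inl i) ∈ S := fun i => by
    have : e (Sum.inl i) = (e1 i : Fin N) := by simp [e]
    rw [this]; exact (e1 i).2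
  have he2 : ∀ i, e (Sum.inr i) ∉ S := fun i => by
    have : e (Sum.inr i) = (e2 i : Fin N) := by simp [e]
    rw [this]; exact (e2 i).2
  -- the measure preserving equivalence
  let Φ : (Fin k ⊕ Fin m → E) ≃ᵐ (Fin N → E) := MeasurableEquiv.piCongrLeft (fun _ => E) e
  have hΦ : MeasurePreserving Φ volume volume :=
    volume_measurePreserving_piCongrLeft (fun _ => E) e
  let Ψ : (Fin k ⊕ Fin m → E) ≃ᵐ (Fin k → E) × (Fin m → E) :=
    MeasurableEquiv.sumPiEquivProdPi (fun _ => E)
  have hΨ : MeasurePreserving Ψ volume volume :=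
    volume_measurePreserving_sumPiEquivProdPi (fun _ => E)
  have hΦa : ∀ (Y : Fin k ⊕ Fin m → E) (j : Fin k ⊕ Fin m), Φ Y (e j) = Y j := fun Y j =>
    Equiv.piCongrLeft_apply_apply (fun _ => E) e Y j
  have h1 : ∫⁻ X in ES A B S, f N X = ∫⁻ Y in Φ ⁻¹' (ES A B S), f N (Φ Y) := by
    rw [hΦ.setLIntegral_comp_preimage_emb Φ.measurableEmbedding]
  have h2 : ∫⁻ Y in Φ ⁻¹' (ES A B S), f N (Φ Y) =
      ∫⁻ p in {x : Fin k → E | ∀ i, x i ∈ A} ×ˢ {y : Fin m → E | ∀ i, y i ∈ B},
        f (k + m) (Fin.append p.1 p.2) := by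
    rw [← hΨ.setLIntegral_comp_preimage_emb Ψ.measurableEmbedding]
    have e3 : Ψ ⁻¹' ({x : Fin k → E | ∀ i, x i ∈ A} ×ˢ {y : Fin m → E | ∀ i, y i ∈ B}) =
        Φ ⁻¹' (ES A B S) := by
      ext Y
      simp only [mem_preimage, mem_prod, mem_ofPred_eq, ES]
      constructor
      · rintro ⟨ha, hb⟩ i
        obtain ⟨j, rfl⟩ := e.surjective i
        rw [hΦa]
        rcases j with j | j
        · exact ⟨fun _ => ha j, fun h => absurd (he1 j) h⟩
        · exact ⟨fun h => absurd h (he2 j), fun _ => hb j⟩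
      · intro h
        refine ⟨fun j => ?_, fun j => ?_⟩
        · have := (h (e (Sum.inl j))).1 (he1 j)
          rwa [hΦa] at this
        · have := (h (e (Sum.inr j))).2 (he2 j)
          rwa [hΦa] at this
    rw [e3]
    refine lintegral_congr fun Y => ?_
    -- symmetry
    have e4 : Fin.append (Ψ Y).1 (Ψ Y).2 = Φ Y ∘ (finSumFinEquiv.symm.trans e) := by
      funext i
      rw [Function.comp_apply, Equiv.trans_apply, hΦa]
      refine Fin.addCases (fun j => ?_) (fun j => ?_) i
      · rw [Fin.append_left, finSumFinEquiv_symm_apply_castAdd]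
        rfl
      · rw [Fin.append_right, finSumFinEquiv_symm_apply_natAdd]
        rfl
    rw [e4]
    exact (symm_eq f hf hm _ _).symm
  rw [h1, h2]
  have hmeas : Measurable (fun p : (Fin k → E) × (Fin m → E) =>
      f (k + m) (Fin.append p.1 p.2)) := by
    refine (hfm _).comp (measurable_pi_lambda _ fun i => ?_)
    refine Fin.addCases (fun j => ?_) (fun j => ?_) i
    · simp only [Fin.append_left]
      exact (measurable_pi_apply j).comp measurable_fst
    · simp only [Fin.append_right]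
      exact (measurable_pi_apply j).comp measurable_snd
  have h3 : (volume : Measure ((Fin k → E) × (Fin m → E))) = volume.prod volume := rfl
  rw [h3, ← Measure.prod_restrict, lintegral_prod _ hmeas.aemeasurable]

end Binom_

open Binom_ in
theorem Binom_proof : Stmt_Binom := by
  classical
  intro A B hA hB hAB f hfm hf N
  rw [union_ES, lintegral_biUnion_finset (disj_ES hAB N) (fun S _ => measurableSet_ES hA hB S)]
  have h1 : ∀ S : Finset (Fin N), ∫⁻ X in ES A B S, f N X =
      (fun k => ∫⁻ x in {x : Fin k → E | ∀ i, x i ∈ A},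
        ∫⁻ y in {y : Fin (N - k) → E | ∀ i, y i ∈ B}, f (k + (N - k)) (Fin.append x y)) S.card := by
    intro S
    have hc : S.card ≤ N := by
      have := Finset.card_le_univ S
      rwa [Fintype.card_fin] at this
    exact int_ES f hfm hf S rfl (by omega)
  rw [Finset.sum_congr rfl (fun S _ => h1 S), ← Finset.powerset_univ,
    Finset.sum_powerset_apply_card (fun k => ∫⁻ x in {x : Fin k → E | ∀ i, x i ∈ A},
        ∫⁻ y in {y : Fin (N - k) → E | ∀ i, y i ∈ B}, f (k + (N - k)) (Fin.append x y))]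
  rw [Finset.card_univ, Fintype.card_fin]
  have h2 := Finset.Nat.sum_antidiagonal_eq_sum_range_succ
    (fun n m => (N.choose n : ENNReal) * ∫⁻ x in {x : Fin n → E | ∀ i, x i ∈ A},
      ∫⁻ y in {y : Fin m → E | ∀ i, y i ∈ B}, f (n + m) (Fin.append x y)) N
  rw [h2]
  refine Finset.sum_congr rfl fun k _ => ?_
  rw [nsmul_eq_mul]

end Pool.Agent.JEL
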