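import Pool.Agent.JEL.Stmts

/-!
# JEL: the statement in the notation of the problem, and its reduction to `Stmt_Fin`
-/

open MeasureTheory Filter Topology

namespace Pool.Agent.JEL

/-- the potential `φ(x) = ∫_Λ |x-y|⁻¹ dy` of the background -/
noncomputable def phi (Λ : Set (EuclideanSpace ℝ (Fin 3))) (x : EuclideanSpace ℝ (Fin 3)) : ℝ :=
  ∫ y in Λ, ‖x - y‖⁻¹

/-- Coulomb energy of jellium:
`U(X) = ∑_{i<j} |x_i-x_j|⁻¹ - ρ ∑_i φ(x_i) + (1/2) ρ² ∫_Λ φ(x) dx` -/
noncomputable def U (ρ : ℝ) (Λ : Set (EuclideanSpace ℝ (Fin 3))) {N : ℕ}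
    (X : Fin N → EuclideanSpace ℝ (Fin 3)) : ℝ :=
  (∑ i : Fin N, ∑ j ∈ Finset.univ.filter (fun j => i < j), ‖X i - X j‖⁻¹)
    - ρ * (∑ i : Fin N, phi Λ (X i)) + (1 / 2) * ρ ^ 2 * (∫ x in Λ, phi Λ x)

/-- configurations in `Λ^N` allowed by the hard cores of diameter `a` (where `U_a = U`; elsewhere
`U_a = +∞` and the Boltzmann factor is zero) -/
def allowed (a : ℝ) (Λ : Set (EuclideanSpace ℝ (Fin 3))) (N : ℕ) :
    Set (Fin N → EuclideanSpace ℝ (Fin 3)) :=
  {X | (∀ i, X i ∈ Λ) ∧ ∀ i j, i ≠ j → a ≤ ‖X i - X j‖}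

/-- configurational partition function `Z_a(Λ) = (1/N!) ∫_{Λ^N} exp(-β U_a(X)) dX` -/
noncomputable def partition (a β ρ : ℝ) (Λ : Set (EuclideanSpace ℝ (Fin 3))) (N : ℕ) : ℝ :=
  (N.factorial : ℝ)⁻¹ * ∫ X in allowed a Λ N, Real.exp (-β * U ρ Λ X)

/-- `g_a(Λ) = |Λ|⁻¹ ln Z_a(Λ)` -/
noncomputable def gdens (a β ρ : ℝ) (Λ : Set (EuclideanSpace ℝ (Fin 3))) (N : ℕ) : ℝ :=
  (volume.real Λ)⁻¹ * Real.log (partition a β ρ Λ N)

/-- mean Coulomb energy per unit volume in the canonical Gibbs state -/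
noncomputable def udens (a β ρ : ℝ) (Λ : Set (EuclideanSpace ℝ (Fin 3))) (N : ℕ) : ℝ :=
  (volume.real Λ)⁻¹ * ((∫ X in allowed a Λ N, U ρ Λ X * Real.exp (-β * U ρ Λ X)) /
    ∫ X in allowed a Λ N, Real.exp (-β * U ρ Λ X))

/-- regular (Van Hove) sequences of bounded measurable domains of positive volume, neutral with
`N j` particles; the ball condition of the problem is not needed -/
structure Regular (ρ : ℝ) (Λ : ℕ → Set (EuclideanSpace ℝ (Fin 3))) (N : ℕ → ℕ) : Prop where
  meas : ∀ j, MeasurableSet (Λ j)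
  bdd : ∀ j, Bornology.IsBounded (Λ j)
  pos : ∀ j, 0 < volume (Λ j)
  neutral : ∀ j, ρ * volume.real (Λ j) = N j
  vanHove : ∀ h : ℝ, 0 < h → Tendsto (fun j =>
    volume.real {x | Metric.infDist x (frontier (Λ j)) ≤ h} / volume.real (Λ j)) atTop (𝓝 0)

namespace Bridge_

theorem pairE_eq {N : ℕ} (X : Fin N → E) :
    pairE X = ∑ i : Fin N, ∑ j ∈ Finset.univ.filter (fun j => i < j), ‖X i - X j‖⁻¹ := by
  unfold pairE
  have h1 : ∀ i : Fin N, ∑ j ∈ Finset.univ.erase i, ‖X i - X j‖⁻¹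
      = (∑ j ∈ Finset.univ.filter (fun j => i < j), ‖X i - X j‖⁻¹)
        + ∑ j ∈ Finset.univ.filter (fun j => j < i), ‖X i - X j‖⁻¹ := by
    intro i
    rw [← Finset.sum_union]
    · apply Finset.sum_congr _ (fun _ _ => rfl)
      ext j
      simp only [Finset.mem_erase, Finset.mem_univ, and_true, Finset.mem_union,
        Finset.mem_filter, true_and]
      constructor
      · intro h
        rcases lt_trichotomy i j with h' | h' | h'
        · exact Or.inl h'
        · exact absurd h'.symm h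
        · exact Or.inr h'
      · rintro (h | h)
        · exact h.ne'
        · exact h.ne
    · rw [Finset.disjoint_left]
      intro j hj hj'
      simp only [Finset.mem_filter, Finset.mem_univ, true_and] at hj hj'
      exact absurd (lt_trans hj hj') (lt_irrefl _)
  have h2 : ∑ i : Fin N, ∑ j ∈ Finset.univ.filter (fun j => j < i), ‖X i - X j‖⁻¹
      = ∑ i : Fin N, ∑ j ∈ Finset.univ.filter (fun j => i < j), ‖X i - X j‖⁻¹ := by
    simp only [Finset.sum_filter]
    rw [Finset.sum_comm]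
    apply Finset.sum_congr rfl
    intro i _
    apply Finset.sum_congr rfl
    intro j _
    rw [norm_sub_rev]
  rw [Finset.sum_congr rfl (fun i _ => h1 i), Finset.sum_add_distrib, h2]
  ring

theorem pot_bg {ρ : ℝ} {Λ : Set E} (hΛ : MeasurableSet Λ) (x : E) :
    pot (bg ρ Λ) x = -ρ * phi Λ x := by
  unfold pot bg phi
  rw [← integral_const_mul, ← integral_indicator hΛ]
  apply integral_congr_ae
  filter_upwards with y
  by_cases hy : y ∈ Λ <;> simp [hy]

theorem Dfm_bg {ρ : ℝ} {Λ : Set E} (hΛ : MeasurableSet Λ) :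
    Dfm (bg ρ Λ) (bg ρ Λ) = ρ ^ 2 * ∫ x in Λ, phi Λ x := by
  unfold Dfm
  rw [← integral_const_mul, ← integral_indicator hΛ]
  apply integral_congr_ae
  filter_upwards with y
  rw [pot_bg hΛ]
  by_cases hy : y ∈ Λ
  · simp only [bg, hy, Set.indicator_of_mem]
    ring
  · simp [bg, hy]

theorem En_eq {ρ : ℝ} {Λ : Set E} (hΛ : MeasurableSet Λ) {N : ℕ} (X : Fin N → E) :
    En (bg ρ Λ) X = U ρ Λ X := by
  unfold En U
  rw [pairE_eq, Dfm_bg hΛ]
  simp only [pot_bg hΛ]
  rw [← Finset.mul_sum]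
  ring

theorem conf_eq (a : ℝ) (Λ : Set E) (N : ℕ) : conf a Λ N = allowed a Λ N := by
  ext X
  simp only [conf, allowed, HC, Set.mem_ofPred_eq]
  exact and_comm

theorem Z_eq {a β ρ : ℝ} {Λ : Set E} (hΛ : MeasurableSet Λ) (N : ℕ) :
    Z a β ρ Λ N = partition a β ρ Λ N := by
  unfold Z ZF partition
  rw [conf_eq]
  simp only [En_eq hΛ]

theorem frontier_ne {Λ : Set E} (hb : Bornology.IsBounded Λ) (hp : 0 < volume Λ) :
    (frontier Λ).Nonempty := by
  have h1 : Λ.Nonempty := nonempty_of_measure_ne_zero hp.ne'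
  have h2 : Λ ≠ Set.univ := by
    intro h
    rw [h] at hb
    exact NoncompactSpace.noncompact_univ (X := E)
      (Metric.isCompact_of_isClosed_isBounded isClosed_univ hb)
  exact nonempty_frontier_iff.mpr ⟨h1, h2⟩

theorem zone_eq {Λ : Set E} (hb : Bornology.IsBounded Λ) (hp : 0 < volume Λ) (h : ℝ)
    (hh : 0 < h) : zone h Λ = volume.real {x | Metric.infDist x (frontier Λ) ≤ h} := by
  unfold zone
  congr 1
  ext x
  rw [Metric.cthickening, Set.mem_ofPred_eq, Set.mem_ofPred_eq, Metric.infDist]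
  have hne : Metric.infEDist x (frontier Λ) ≠ ⊤ := Metric.infEDist_ne_top (frontier_ne hb hp)
  rw [ENNReal.le_ofReal_iff_toReal_le hne hh.le]

theorem vol_tendsto (hLens : Stmt_Lens) {ρ : ℝ} {Λ : ℕ → Set E} {N : ℕ → ℕ}
    (hR : Regular ρ Λ N) : Tendsto (fun j => volume.real (Λ j)) atTop atTop := by
  rw [tendsto_atTop]
  intro M
  obtain ⟨h, hh, hM⟩ : ∃ h : ℝ, 0 < h ∧ M ≤ vb h := by
    refine ⟨|M| + 1, by positivity, ?_⟩
    unfold vb
    have h1 : (1:ℝ) ≤ |M| + 1 := by linarith [abs_nonneg M]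
    have h2 : |M| + 1 ≤ (|M| + 1) ^ 3 := by nlinarith [mul_self_nonneg (|M| + 1)]
    have h3 : (1:ℝ) ≤ 4 * Real.pi / 3 := by linarith [Real.pi_gt_three]
    nlinarith [le_abs_self M]
  have h1 := (hR.vanHove h hh).eventually (gt_mem_nhds (show (0:ℝ) < 1 by norm_num))
  filter_upwards [h1] with j hj
  have hpos : 0 < volume.real (Λ j) :=
    ENNReal.toReal_pos (hR.pos j).ne' (hR.bdd j).measure_lt_top.ne
  rw [div_lt_one hpos, ← zone_eq (hR.bdd j) (hR.pos j) h hh] at hj
  obtain ⟨y, hy⟩ := frontier_ne (hR.bdd j) (hR.pos j)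
  have h2 : volume.real (cB y h) ≤ zone h (Λ j) := by
    unfold zone
    apply measureReal_mono
    · intro x hx
      exact Metric.mem_cthickening_of_dist_le x y h _ hy (Metric.mem_closedBall.mp hx)
    · have hfb : Bornology.IsBounded (frontier (Λ j)) :=
        (hR.bdd j).closure.subset frontier_subset_closure
      exact (hfb.cthickening).measure_lt_top.ne
  rw [hLens.1 y h hh.le] at h2
  linarith

end Bridge_

open Bridge_ in
/-- the main theorem in the notation of the problem -/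
theorem main_of (hFin : Stmt_Fin) (hGrif : Stmt_Grif) (hDerZ : Stmt_DerZ) (hLens : Stmt_Lens)
    (a ρ : ℝ) (ha : 0 < a) (hρ : 0 < ρ) (hρa : ρ < Real.sqrt 2 / a ^ 3) :
    ∃ g : ℝ → ℝ, ConvexOn ℝ (Set.Ioi 0) g ∧
      ∀ (Λ : ℕ → Set (EuclideanSpace ℝ (Fin 3))) (N : ℕ → ℕ), Regular ρ Λ N →
        (∀ β : ℝ, 0 < β → Tendsto (fun j => gdens a β ρ (Λ j) (N j)) atTop (𝓝 (g β))) ∧
        ∀ β d : ℝ, 0 < β → HasDerivAt g d β →
          Tendsto (fun j => udens a β ρ (Λ j) (N j)) atTop (𝓝 (-d)) := by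
  by_cases hex : ∃ (Λ : ℕ → Set E) (N : ℕ → ℕ), Regular ρ Λ N
  swap
  · exact ⟨fun _ => 0, convexOn_const 0 (convex_Ioi 0), fun Λ N h => absurd ⟨Λ, N, h⟩ hex⟩
  have hg : ∀ β : ℝ, ∃ g : ℝ, 0 < β → ∀ (Λ : ℕ → Set E) (N : ℕ → ℕ), Regular ρ Λ N →
      Tendsto (fun j => gdens a β ρ (Λ j) (N j)) atTop (𝓝 g) := by
    intro β
    by_cases hβ : 0 < β
    · obtain ⟨g, hg⟩ := hFin a β ρ ha hβ hρ hρa
      refine ⟨g, fun _ Λ N hR => ?_⟩
      have h1 := hg Λ N (fun j => ⟨hR.meas j, hR.bdd j⟩) hR.neutral (fun R hR0 => by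
        have h2 := hR.vanHove R hR0
        refine h2.congr fun j => ?_
        rw [zone_eq (hR.bdd j) (hR.pos j) R hR0]) (vol_tendsto hLens hR)
      refine h1.congr fun j => ?_
      rw [Z_eq (hR.meas j), gdens]
      ring
    · exact ⟨0, fun h => absurd h hβ⟩
  choose g hg using hg
  -- convexity and derivatives of the finite volume functions
  have hfin : ∀ (D : Set E) (n : ℕ), BM D →
      ConvexOn ℝ (Set.Ioi 0) (fun β => gdens a β ρ D n) ∧
      ∀ β : ℝ, 0 < β → HasDerivAt (fun β => gdens a β ρ D n) (-udens a β ρ D n) β := by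
    intro D n hD
    by_cases hz : ∃ β, 0 < β ∧ 0 < Z a β ρ D n
    · obtain ⟨-, h2, h3⟩ := hDerZ a ρ D n ha hρ hD hz
      have e1 : (fun β => gdens a β ρ D n)
          = fun β => (volume.real D)⁻¹ • Real.log (Z a β ρ D n) := by
        funext β
        rw [Z_eq hD.1, gdens, smul_eq_mul]
      constructor
      · rw [e1]
        exact h2.smul (by positivity)
      · intro β hβ
        have h4 := (h3 β hβ).const_mul (volume.real D)⁻¹
        have e2 : (fun β => (volume.real D)⁻¹ * Real.log (Z a β ρ D n))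
            = fun β => gdens a β ρ D n := by
          funext β
          rw [Z_eq hD.1, gdens]
        rw [e2] at h4
        have e3 : (volume.real D)⁻¹ * -((∫ X in conf a D n, En (bg ρ D) X *
            Real.exp (-β * En (bg ρ D) X)) / ∫ X in conf a D n, Real.exp (-β * En (bg ρ D) X))
            = -udens a β ρ D n := by
          rw [udens, conf_eq]
          simp only [En_eq hD.1]
          ring
        rw [e3] at h4
        exact h4
    · push Not at hz
      have hZ0 : ∀ β, 0 < β → Z a β ρ D n = 0 := by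
        intro β hβ
        refine le_antisymm (hz β hβ) ?_
        unfold Z ZF
        have : 0 ≤ ∫ X in conf a D n, Real.exp (-β * En (bg ρ D) X) :=
          integral_nonneg fun X => (Real.exp_pos _).le
        positivity
      have hg0 : ∀ β, 0 < β → gdens a β ρ D n = 0 := by
        intro β hβ
        rw [gdens, ← Z_eq hD.1, hZ0 β hβ, Real.log_zero, mul_zero]
      constructor
      · refine (convexOn_const (0:ℝ) (convex_Ioi (0:ℝ))).congr ?_
        intro β hβ
        exact (hg0 β hβ).symm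
      · intro β hβ
        have hu : udens a β ρ D n = 0 := by
          have h5 := hZ0 β hβ
          unfold Z ZF at h5
          rw [mul_eq_zero] at h5
          have h6 : ∫ X in conf a D n, Real.exp (-β * En (bg ρ D) X) = 0 := by
            rcases h5 with h5 | h5
            · exact absurd h5 (by positivity)
            · exact h5
          rw [conf_eq] at h6
          simp only [En_eq hD.1] at h6
          rw [udens, h6, div_zero, mul_zero]
        rw [hu, neg_zero]
        refine (hasDerivAt_const β (0:ℝ)).congr_of_eventuallyEq ?_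
        filter_upwards [lt_mem_nhds hβ] with b hb
        exact hg0 b hb
  obtain ⟨Λ0, N0, hR0⟩ := hex
  have hconv : ConvexOn ℝ (Set.Ioi 0) g :=
    (hGrif (fun j β => gdens a β ρ (Λ0 j) (N0 j)) g
      (fun j => (hfin (Λ0 j) (N0 j) ⟨hR0.meas j, hR0.bdd j⟩).1)
      (fun β hβ => hg β hβ Λ0 N0 hR0)).1
  refine ⟨g, hconv, fun Λ N hR => ⟨fun β hβ => hg β hβ Λ N hR, ?_⟩⟩
  intro β d hβ hd
  have h1 := (hGrif (fun j β => gdens a β ρ (Λ j) (N j)) g
      (fun j => (hfin (Λ j) (N j) ⟨hR.meas j, hR.bdd j⟩).1)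
      (fun β hβ => hg β hβ Λ N hR)).2 β d (fun j => -udens a β ρ (Λ j) (N j)) hβ
      (fun j => (hfin (Λ j) (N j) ⟨hR.meas j, hR.bdd j⟩).2 β hβ) hd
  have h2 := h1.neg
  simpa using h2

end Pool.Agent.JEL
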