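import Pool.Agent.JEL.Stmts

/-!
# JEL, module Cells: interior and boundary cells of a domain
-/

open MeasureTheory Set Filter Topology

namespace Pool.Agent.JEL

namespace Cells_

theorem mem_cell {l : ℝ} {θ : Fin 3 → ℝ} {k : Fin 3 → ℤ} {x : E} :
    x ∈ cell l θ k ↔ ∀ j, l * ((k j : ℝ) + θ j) ≤ x j ∧ x j < l * ((k j : ℝ) + θ j + 1) :=
  Iff.rfl

theorem cell_eq (l : ℝ) (θ : Fin 3 → ℝ) (k : Fin 3 → ℤ) :
    cell l θ k = (@WithLp.ofLp 2 (Fin 3 → ℝ)) ⁻¹' (Set.pi univ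
      (fun j => Ico (l * ((k j : ℝ) + θ j)) (l * ((k j : ℝ) + θ j + 1)))) := by
  ext x
  simp [cell]

theorem meas_box (l : ℝ) (θ : Fin 3 → ℝ) (k : Fin 3 → ℤ) : MeasurableSet (Set.pi univ
      (fun j => Ico (l * ((k j : ℝ) + θ j)) (l * ((k j : ℝ) + θ j + 1)))) :=
  MeasurableSet.univ_pi fun _ => measurableSet_Ico

theorem meas_cell (l : ℝ) (θ : Fin 3 → ℝ) (k : Fin 3 → ℤ) : MeasurableSet (cell l θ k) := by
  rw [cell_eq]
  exact (PiLp.volume_preserving_ofLp (Fin 3)).measurable (meas_box l θ k)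

theorem vol_cell {l : ℝ} (hl : 0 < l) (θ : Fin 3 → ℝ) (k : Fin 3 → ℤ) :
    volume (cell l θ k) = ENNReal.ofReal l ^ 3 := by
  rw [cell_eq, (PiLp.volume_preserving_ofLp (Fin 3)).measure_preimage
    (meas_box l θ k).nullMeasurableSet, Real.volume_pi_Ico]
  have : ∀ j : Fin 3, ENNReal.ofReal (l * ((k j : ℝ) + θ j + 1) - l * ((k j : ℝ) + θ j)) =
      ENNReal.ofReal l := fun j => by
    congr 1
    ring
  simp only [this, Finset.prod_const, Finset.card_univ, Fintype.card_fin]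

theorem volr_cell {l : ℝ} (hl : 0 < l) (θ : Fin 3 → ℝ) (k : Fin 3 → ℤ) :
    volume.real (cell l θ k) = l ^ 3 := by
  rw [measureReal_def, vol_cell hl, ENNReal.toReal_pow, ENNReal.toReal_ofReal hl.le]

theorem cell_disj {l : ℝ} (hl : 0 < l) (θ : Fin 3 → ℝ) {k k' : Fin 3 → ℤ} (h : k ≠ k') :
    Disjoint (cell l θ k) (cell l θ k') := by
  rw [Set.disjoint_left]
  intro x hx hx'
  apply h
  funext j
  have h1 := hx j
  have h2 := hx' j
  have h3 : l * ((k j : ℝ) + θ j) < l * ((k' j : ℝ) + θ j + 1) := h1.1.trans_lt h2.2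
  have h4 : l * ((k' j : ℝ) + θ j) < l * ((k j : ℝ) + θ j + 1) := h2.1.trans_lt h1.2
  have h5 := lt_of_mul_lt_mul_left h3 hl.le
  have h6 := lt_of_mul_lt_mul_left h4 hl.le
  have h7 : (k j : ℝ) < ((k' j + 1 : ℤ) : ℝ) := by push_cast; linarith
  have h8 : (k' j : ℝ) < ((k j + 1 : ℤ) : ℝ) := by push_cast; linarith
  have h9 : k j < k' j + 1 := by exact_mod_cast h7
  have h10 : k' j < k j + 1 := by exact_mod_cast h8
  omega

theorem cell_cover {l : ℝ} (hl : 0 < l) (θ : Fin 3 → ℝ) (x : E) :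
    ∃ k : Fin 3 → ℤ, x ∈ cell l θ k := by
  refine ⟨fun j => ⌊x j / l - θ j⌋, fun j => ⟨?_, ?_⟩⟩
  · have h := Int.floor_le (x j / l - θ j)
    have h2 : ((⌊x j / l - θ j⌋ : ℤ) : ℝ) + θ j ≤ x j / l := by linarith
    calc l * (((⌊x j / l - θ j⌋ : ℤ) : ℝ) + θ j) ≤ l * (x j / l) :=
          mul_le_mul_of_nonneg_left h2 hl.le
      _ = x j := by field_simp
  · have h := Int.lt_floor_add_one (x j / l - θ j)
    have h2 : x j / l < ((⌊x j / l - θ j⌋ : ℤ) : ℝ) + θ j + 1 := by linarith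
    calc x j = l * (x j / l) := by field_simp
      _ < _ := mul_lt_mul_of_pos_left h2 hl

theorem convex_cell (l : ℝ) (θ : Fin 3 → ℝ) (k : Fin 3 → ℤ) : Convex ℝ (cell l θ k) := by
  intro x hx y hy a b ha hb hab j
  have h1 := hx j
  have h2 := hy j
  have e : (a • x + b • y) j = a * x j + b * y j := by simp
  rw [e]
  have hb' : b = 1 - a := by linarith
  constructor
  · calc l * ((k j : ℝ) + θ j) = a * (l * ((k j : ℝ) + θ j)) + b * (l * ((k j : ℝ) + θ j)) := by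
          rw [← add_mul, hab, one_mul]
      _ ≤ _ := add_le_add (mul_le_mul_of_nonneg_left h1.1 ha) (mul_le_mul_of_nonneg_left h2.1 hb)
  · rcases ha.eq_or_lt with h0 | h0
    · rw [← h0] at hab ⊢
      have : b = 1 := by linarith
      rw [this]
      linarith [h2.2]
    · have := mul_lt_mul_of_pos_left h1.2 h0
      have h3 := mul_le_mul_of_nonneg_left h2.2.le hb
      calc a * x j + b * y j < a * (l * ((k j : ℝ) + θ j + 1)) + b * (l * ((k j : ℝ) + θ j + 1)) :=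
            add_lt_add_of_lt_of_le this h3
        _ = l * ((k j : ℝ) + θ j + 1) := by rw [← add_mul, hab, one_mul]

theorem dist_cell {l : ℝ} (hl : 0 < l) {θ : Fin 3 → ℝ} {k : Fin 3 → ℤ} {x y : E}
    (hx : x ∈ cell l θ k) (hy : y ∈ cell l θ k) : dist x y ≤ 2 * l := by
  rw [EuclideanSpace.dist_eq, Real.sqrt_le_iff]
  refine ⟨by positivity, ?_⟩
  have h : ∀ j : Fin 3, dist (x j) (y j) ^ 2 ≤ l ^ 2 := fun j => by
    have h1 := hx j
    have h2 := hy j
    rw [Real.dist_eq, sq_abs]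
    have h3 : x j - y j ≤ l := by linarith [h1.2, h2.1, mul_add l ((k j : ℝ) + θ j) 1]
    have h4 : -l ≤ x j - y j := by linarith [h2.2, h1.1, mul_add l ((k j : ℝ) + θ j) 1]
    exact sq_le_sq' h4 h3
  calc ∑ j : Fin 3, dist (x j) (y j) ^ 2 ≤ ∑ _j : Fin 3, l ^ 2 := Finset.sum_le_sum fun j _ => h j
    _ = 3 * l ^ 2 := by simp
    _ ≤ (2 * l) ^ 2 := by nlinarith [sq_nonneg l]

theorem meets_frontier {C Λ : Set E} (hC : IsPreconnected C) {p q : E} (hp : p ∈ C)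
    (hpΛ : p ∈ Λ) (hq : q ∈ C) (hqΛ : q ∉ Λ) : ∃ w ∈ C, w ∈ frontier Λ := by
  by_contra hcon
  push Not at hcon
  have hcov : C ⊆ interior Λ ∪ (closure Λ)ᶜ := by
    intro w hw
    have h1 := hcon w hw
    by_cases h2 : w ∈ closure Λ
    · left
      by_contra h3
      exact h1 ⟨h2, h3⟩
    · right
      exact h2
  have hdis : Disjoint (interior Λ) (closure Λ)ᶜ := by
    rw [Set.disjoint_left]
    intro w hw hw'
    exact hw' (subset_closure (interior_subset hw))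
  rcases hC.subset_or_subset isOpen_interior isClosed_closure.isOpen_compl hdis hcov with h | h
  · exact hqΛ (interior_subset (h hq))
  · exact h hp (subset_closure hpΛ)

theorem abs_coord_le (x : E) (j : Fin 3) : |x j| ≤ ‖x‖ := by
  have := PiLp.norm_apply_le x j
  simpa using this

theorem mem_kbox_of {l R : ℝ} {θ : Fin 3 → ℝ} {n₀ : ℕ} (hl : 0 < l) (hθ : θ ∈ cube)
    (hn : R / l + 2 ≤ n₀) {k : Fin 3 → ℤ} {x : E} (hx : x ∈ cell l θ k) (hxR : ‖x‖ ≤ R) :
    k ∈ kbox n₀ := by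
  unfold kbox
  rw [Fintype.mem_piFinset]
  intro j
  rw [Finset.mem_Icc]
  have h1 := hx j
  have h2 := abs_le.mp ((abs_coord_le x j).trans hxR)
  have h3 : 0 ≤ θ j ∧ θ j < 1 := hθ j (mem_univ j)
  have h4 : (k j : ℝ) + θ j ≤ R / l := by
    rw [le_div_iff₀ hl]
    linarith [mul_comm l ((k j : ℝ) + θ j)]
  have h5 : -(R / l) < (k j : ℝ) + θ j + 1 := by
    have : -R < l * ((k j : ℝ) + θ j + 1) := h2.1.trans_lt h1.2
    rw [← neg_div, div_lt_iff₀ hl]
    linarith [mul_comm l ((k j : ℝ) + θ j + 1)]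
  constructor
  · have : (-(n₀ : ℝ)) < (k j : ℝ) := by linarith
    have h6 : ((-(n₀ : ℤ) : ℤ) : ℝ) < ((k j : ℤ) : ℝ) := by push_cast; exact this
    exact (Int.cast_lt.mp h6).le
  · have : (k j : ℝ) < (n₀ : ℝ) := by linarith
    have h6 : ((k j : ℤ) : ℝ) < (((n₀ : ℤ)) : ℝ) := by push_cast; exact this
    exact (Int.cast_lt.mp h6).le

theorem vol_union {l : ℝ} (hl : 0 < l) (θ : Fin 3 → ℝ) (A : Finset (Fin 3 → ℤ)) :
    volume.real (⋃ k ∈ A, cell l θ k) = A.card * l ^ 3 := by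
  rw [measureReal_def, measure_biUnion_finset (fun k _ k' _ h => cell_disj hl θ h)
    (fun k _ => meas_cell l θ k)]
  simp only [vol_cell hl, Finset.sum_const, nsmul_eq_mul, ENNReal.toReal_mul, ENNReal.toReal_pow,
    ENNReal.toReal_natCast, ENNReal.toReal_ofReal hl.le]

end Cells_

open Cells_ in
theorem Cells_proof : Stmt_Cells := by
  classical
  intro l R θ Λ n₀ hl hθ hR hΛ hΛR hn
  obtain ⟨A, hA⟩ : ∃ A : Finset (Fin 3 → ℤ), A = (kbox n₀).filter (fun k => cell l θ k ⊆ Λ) :=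
    ⟨_, rfl⟩
  obtain ⟨Bd, hBd⟩ : ∃ Bd : Finset (Fin 3 → ℤ), Bd = (kbox n₀).filter
    (fun k => ¬ cell l θ k ⊆ Λ ∧ ¬ Disjoint (cell l θ k) Λ) := ⟨_, rfl⟩
  have hAk : A ⊆ kbox n₀ := by rw [hA]; exact Finset.filter_subset _ _
  have hBk : Bd ⊆ kbox n₀ := by rw [hBd]; exact Finset.filter_subset _ _
  have hAΛ : ∀ k ∈ A, cell l θ k ⊆ Λ := fun k hk => by
    rw [hA, Finset.mem_filter] at hk
    exact hk.2
  have hdis : Disjoint A Bd := by
    rw [Finset.disjoint_left]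
    intro k hk hk'
    rw [hBd, Finset.mem_filter] at hk'
    exact hk'.2.1 (hAΛ k hk)
  have hout : ∀ k, k ∉ A → k ∉ Bd → Disjoint (cell l θ k) Λ := by
    intro k hk1 hk2
    by_cases hk : k ∈ kbox n₀
    · by_contra hd
      by_cases hs : cell l θ k ⊆ Λ
      · exact hk1 (by rw [hA, Finset.mem_filter]; exact ⟨hk, hs⟩)
      · exact hk2 (by rw [hBd, Finset.mem_filter]; exact ⟨hk, hs, hd⟩)
    · rw [Set.disjoint_left]
      intro x hx hxΛ
      apply hk
      have := hΛR hxΛ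
      rw [mem_closedBall_zero_iff] at this
      exact mem_kbox_of hl hθ hn hx this
  have hbdd : Bornology.IsBounded (Metric.cthickening (2 * l) (frontier Λ)) := by
    refine Bornology.IsBounded.cthickening ?_
    exact hΛ.2.closure.subset frontier_subset_closure
  have hfin : volume (Metric.cthickening (2 * l) (frontier Λ)) ≠ ⊤ := hbdd.measure_lt_top.ne
  have hΛfin : volume Λ ≠ ⊤ := hΛ.2.measure_lt_top.ne
  have hBsub : (⋃ k ∈ Bd, cell l θ k) ⊆ Metric.cthickening (2 * l) (frontier Λ) := by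
    intro x hx
    simp only [mem_iUnion] at hx
    obtain ⟨k, hk, hxk⟩ := hx
    rw [hBd, Finset.mem_filter] at hk
    obtain ⟨_, h1, h2⟩ := hk
    obtain ⟨q, hq, hqΛ⟩ := Set.not_subset.mp h1
    obtain ⟨p, hp, hpΛ⟩ := Set.not_disjoint_iff.mp h2
    obtain ⟨w, hw, hwf⟩ := meets_frontier (convex_cell l θ k).isPreconnected hp hpΛ hq hqΛ
    exact Metric.mem_cthickening_of_dist_le x w (2 * l) _ hwf (dist_cell hl hxk hw)
  have hrest : (Λ \ ⋃ k ∈ A, cell l θ k) ⊆ ⋃ k ∈ Bd, cell l θ k := by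
    intro x hx
    obtain ⟨k, hk⟩ := cell_cover hl θ x
    have hkA : k ∉ A := fun h => hx.2 (by
      simp only [mem_iUnion]
      exact ⟨k, h, hk⟩)
    have hkB : k ∈ Bd := by
      by_contra h
      exact (Set.disjoint_left.mp (hout k hkA h)) hk hx.1
    simp only [mem_iUnion]
    exact ⟨k, hkB, hk⟩
  have hsubA : (⋃ k ∈ A, cell l θ k) ⊆ Λ := iUnion₂_subset hAΛ
  have h4 : volume.real (Λ \ ⋃ k ∈ A, cell l θ k) ≤ zone (2 * l) Λ :=
    measureReal_mono (hrest.trans hBsub) hfin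
  refine ⟨A, Bd, hAk, hBk, hdis, hAΛ, hout, ?_, ?_, ?_, h4⟩
  · rw [← vol_union hl θ A]
    exact measureReal_mono hsubA hΛfin
  · have h5 : volume.real Λ ≤ volume.real (⋃ k ∈ A, cell l θ k) +
        volume.real (Λ \ ⋃ k ∈ A, cell l θ k) := by
      have : Λ = (⋃ k ∈ A, cell l θ k) ∪ (Λ \ ⋃ k ∈ A, cell l θ k) := by
        rw [Set.union_sdiff_cancel hsubA]
      conv_lhs => rw [this]
      exact measureReal_union_le _ _
    rw [vol_union hl θ A] at h5
    linarith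
  · rw [← vol_union hl θ Bd]
    exact measureReal_mono hBsub hfin

end Pool.Agent.JEL
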