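import Pool.Agent.JEL.Stmts

/-! JEL module Ch: the averaged local Coulomb kernel of a dilated packing is a superposition of
balls with coefficients in `[0,1]`. -/

open MeasureTheory Set Filter Topology

namespace Pool.Agent.JEL

namespace Ch_

/-- weight of the ball of radius `s` -/
noncomputable def G (t s : ℝ) : ℝ := (Real.pi * s ^ 5)⁻¹ * lens s t

/-- coefficient before averaging over `l` -/
noncomputable def kk (M q s l : ℝ) : ℝ :=
  if s ≤ l * q then (M * l)⁻¹ * (1 + s ^ 3 / (8 * (l * q) ^ 3)) else 0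

/-- averaged coefficient, bulk part -/
noncomputable def AA (M q lam0 lam1 s : ℝ) : ℝ := ∫ l in Icc lam0 lam1, kk M q s l

/-- averaged coefficient, boundary part -/
noncomputable def BB (M q lam0 lam1 s : ℝ) : ℝ :=
  if lam0 * q ≤ s ∧ s ≤ lam1 * q then 3 / (8 * M) else 0

theorem measurable_lens (t : ℝ) : Measurable (fun s => lens s t) := by
  unfold lens
  refine Measurable.ite ?_ (by fun_prop) measurable_const
  exact measurableSet_le measurable_const (by fun_prop)

theorem measurable_G (t : ℝ) : Measurable (G t) := by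
  unfold G
  exact (by fun_prop : Measurable (fun s : ℝ => (Real.pi * s ^ 5)⁻¹)).mul (measurable_lens t)

theorem measurable_kk (M q : ℝ) : Measurable (fun p : ℝ × ℝ => kk M q p.1 p.2) := by
  unfold kk
  refine Measurable.ite ?_ (by fun_prop) measurable_const
  exact measurableSet_le measurable_fst (by fun_prop)

theorem measurable_AA (M q lam0 lam1 : ℝ) : Measurable (AA M q lam0 lam1) := by
  unfold AA
  exact (StronglyMeasurable.integral_prod_right (f := fun s l => kk M q s l)
    (measurable_kk M q).stronglyMeasurable).measurable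

theorem measurable_BB (M q lam0 lam1 : ℝ) : Measurable (BB M q lam0 lam1) := by
  unfold BB
  refine Measurable.ite ?_ measurable_const measurable_const
  exact (measurableSet_le measurable_const measurable_id).inter
    (measurableSet_le measurable_id measurable_const)

theorem G_bound (t : ℝ) (ht : 0 < t) (S : ℝ) : ∃ C : ℝ, 0 ≤ C ∧ ∀ s, 0 < s → s ≤ S →
    |G t s| ≤ C := by
  refine ⟨(Real.pi * (t / 2) ^ 5)⁻¹ * (4 * Real.pi / 3 * |S| ^ 3 + Real.pi * |S| ^ 2 * t +
    Real.pi * t ^ 3 / 12), by positivity, ?_⟩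
  intro s hs hS
  have hpi := Real.pi_pos
  unfold G lens
  split_ifs with h
  · have hs2 : t / 2 ≤ s := by linarith
    have hS' : s ≤ |S| := hS.trans (le_abs_self S)
    rw [abs_mul]
    apply mul_le_mul
    · rw [abs_of_pos (by positivity)]
      apply inv_anti₀ (by positivity)
      gcongr
    · have h1 : s ^ 3 ≤ |S| ^ 3 := by gcongr
      have h2 : s ^ 2 ≤ |S| ^ 2 := by gcongr
      have h3 : Real.pi * s ^ 2 * t ≤ Real.pi * |S| ^ 2 * t := by gcongr
      have h4 : 4 * Real.pi / 3 * s ^ 3 ≤ 4 * Real.pi / 3 * |S| ^ 3 := by gcongr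
      have h5 : 0 ≤ 4 * Real.pi / 3 * s ^ 3 := by positivity
      have h6 : 0 ≤ Real.pi * s ^ 2 * t := by positivity
      have h7 : 0 ≤ Real.pi * t ^ 3 / 12 := by positivity
      rw [abs_le]
      constructor <;> linarith
    · exact abs_nonneg _
    · positivity
  · rw [mul_zero, abs_zero]
    positivity

theorem kk_nonneg {M q s l : ℝ} (hM : 0 < M) (hq : 0 < q) (hs : 0 < s) (hl : 0 < l) :
    0 ≤ kk M q s l := by
  unfold kk
  split_ifs
  · positivity
  · exact le_rfl

theorem kk_bound {M q s l lam0 : ℝ} (hM : 0 < M) (hq : 0 < q) (hs : 0 < s) (h0 : 0 < lam0)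
    (hl : lam0 ≤ l) : |kk M q s l| ≤ (M * lam0)⁻¹ * (9 / 8) := by
  have hl0 : 0 < l := lt_of_lt_of_le h0 hl
  rw [abs_of_nonneg (kk_nonneg hM hq hs hl0)]
  unfold kk
  split_ifs with h
  · apply mul_le_mul
    · apply inv_anti₀ (by positivity)
      gcongr
    · have h1 : s ^ 3 / (8 * (l * q) ^ 3) ≤ 1 / 8 := by
        rw [div_le_iff₀ (by positivity)]
        have : s ^ 3 ≤ (l * q) ^ 3 := by gcongr
        linarith
      linarith
    · positivity
    · positivity
  · positivity

theorem integrable_bdd {f : ℝ → ℝ} (hm : Measurable f) (C S : ℝ)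
    (hC : ∀ s, 0 < s → s ≤ S → |f s| ≤ C) (h0 : ∀ s, S < s → f s = 0) :
    IntegrableOn f (Ioi 0) := by
  have h1 : IntegrableOn f (Ioc 0 S) := by
    apply Measure.integrableOn_of_bounded (M := C) measure_Ioc_lt_top.ne hm.aestronglyMeasurable
    rw [ae_restrict_iff' measurableSet_Ioc]
    exact ae_of_all _ fun s hs => hC s hs.1 hs.2
  have h2 : IntegrableOn f (Ioi S) := by
    apply (integrableOn_zero (μ := volume) (s := Ioi S)).congr_fun _ measurableSet_Ioi
    intro s hs
    exact (h0 s hs).symm
  apply (h1.union h2).mono_set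
  intro s hs
  by_cases h : s ≤ S
  · exact Or.inl ⟨hs, h⟩
  · exact Or.inr (not_le.1 h)

section

variable {M q lam0 lam1 t : ℝ}

theorem kk_zero (hq : 0 < q) {s l : ℝ} (hl : l ≤ lam1) (hs : lam1 * q < s) : kk M q s l = 0 := by
  unfold kk
  rw [if_neg]
  intro h
  have : l * q ≤ lam1 * q := by gcongr
  linarith

theorem AA_zero (hq : 0 < q) {s : ℝ} (hs : lam1 * q < s) : AA M q lam0 lam1 s = 0 := by
  unfold AA
  rw [setIntegral_congr_fun measurableSet_Icc (g := fun _ => (0 : ℝ))]
  · simp
  · intro l hl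
    exact kk_zero hq hl.2 hs

theorem integrableOn_kk (hM : 0 < M) (hq : 0 < q) (h0 : 0 < lam0) {s : ℝ} (hs : 0 < s) :
    IntegrableOn (kk M q s) (Icc lam0 lam1) := by
  apply Measure.integrableOn_of_bounded (M := (M * lam0)⁻¹ * (9 / 8)) measure_Icc_lt_top.ne
  · exact ((measurable_kk M q).comp (measurable_const.prodMk measurable_id)).aestronglyMeasurable
  · rw [ae_restrict_iff' measurableSet_Icc]
    exact ae_of_all _ fun l hl => kk_bound hM hq hs h0 hl.1

theorem AA_nonneg (hM : 0 < M) (hq : 0 < q) (h0 : 0 < lam0) {s : ℝ} (hs : 0 < s) :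
    0 ≤ AA M q lam0 lam1 s := by
  unfold AA
  apply setIntegral_nonneg measurableSet_Icc
  intro l hl
  exact kk_nonneg hM hq hs (lt_of_lt_of_le h0 hl.1)

theorem int_inv (h0 : 0 < lam0) (h01 : lam0 < lam1) (hM : M = Real.log (lam1 / lam0)) :
    ∫ l in Icc lam0 lam1, (M * l)⁻¹ = 1 := by
  have hMpos : 0 < M := by
    rw [hM]
    apply Real.log_pos
    rw [lt_div_iff₀ h0]
    linarith
  rw [integral_Icc_eq_integral_Ioc, ← intervalIntegral.integral_of_le h01.le]
  have h1 : (fun l : ℝ => (M * l)⁻¹) = fun l => M⁻¹ * l⁻¹ := by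
    funext l
    rw [mul_inv]
  rw [h1, intervalIntegral.integral_const_mul, integral_inv_of_pos h0 (h0.trans h01), ← hM,
    inv_mul_cancel₀ hMpos.ne']

theorem integrableOn_inv (h0 : 0 < lam0) :
    IntegrableOn (fun l : ℝ => (M * l)⁻¹) (Icc lam0 lam1) := by
  refine ContinuousOn.integrableOn_compact isCompact_Icc ?_
  by_cases hM : M = 0
  · rw [hM]
    simp only [zero_mul, inv_zero]
    exact continuousOn_const
  · apply ContinuousOn.inv₀ (by fun_prop)
    intro l hl
    have : 0 < l := lt_of_lt_of_le h0 hl.1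
    positivity

theorem AA_ge (h0 : 0 < lam0) (h01 : lam0 < lam1) (hM : M = Real.log (lam1 / lam0))
    (hMpos : 0 < M) (hq : 0 < q) {s : ℝ} (hs : 0 < s) (hs0 : s ≤ lam0 * q) :
    1 ≤ AA M q lam0 lam1 s := by
  rw [← int_inv h0 h01 hM]
  unfold AA
  apply setIntegral_mono_on (integrableOn_inv h0) (integrableOn_kk hMpos hq h0 hs)
    measurableSet_Icc
  intro l hl
  have hl0 : 0 < l := lt_of_lt_of_le h0 hl.1
  unfold kk
  rw [if_pos (hs0.trans (by gcongr; exact hl.1))]
  have h1 : 0 ≤ s ^ 3 / (8 * (l * q) ^ 3) := by positivity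
  have h2 : 0 ≤ (M * l)⁻¹ := by positivity
  nlinarith

theorem AA_le (h0 : 0 < lam0) (h01 : lam0 < lam1) (hM : M = Real.log (lam1 / lam0))
    (hMpos : 0 < M) (hq : 0 < q) {s : ℝ} (hs : 0 < s) :
    AA M q lam0 lam1 s ≤ 1 + 1 / (24 * M) := by
  set P : ℝ → ℝ := (Ioi (s / q)).indicator
    (fun l => s ^ 3 / (8 * M * q ^ 3) * l ^ (-4 : ℝ)) with hP
  have hsq : 0 < s / q := by positivity
  have hPi : Integrable P := by
    rw [hP, integrable_indicator_iff measurableSet_Ioi]
    exact (integrableOn_Ioi_rpow_of_lt (by norm_num) hsq).const_mul _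
  have hP0 : ∀ l, 0 ≤ P l := by
    intro l
    rw [hP]
    apply indicator_nonneg
    intro l hl
    have : 0 < l := hsq.trans hl
    positivity
  have hPint : ∫ l, P l = 1 / (24 * M) := by
    rw [hP, integral_indicator measurableSet_Ioi, integral_const_mul,
      integral_Ioi_rpow_of_lt (by norm_num) hsq]
    have h1 : (-4 : ℝ) + 1 = -3 := by norm_num
    rw [h1]
    have h2 : (s / q) ^ (-3 : ℝ) = (s ^ 3)⁻¹ * q ^ 3 := by
      rw [Real.rpow_neg hsq.le]
      have h3 : (s / q) ^ (3 : ℝ) = (s / q) ^ 3 := by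
        exact_mod_cast Real.rpow_natCast (s / q) 3
      rw [h3, div_pow, inv_div, div_eq_mul_inv, mul_comm]
    rw [h2]
    field_simp
    norm_num
  have hae : ∀ᵐ l ∂(volume.restrict (Icc lam0 lam1)), kk M q s l ≤ (M * l)⁻¹ + P l := by
    have hne : ∀ᵐ l ∂(volume.restrict (Icc lam0 lam1)), l ≠ s / q := by
      apply ae_restrict_of_ae
      rw [ae_iff]
      simp
    filter_upwards [hne, ae_restrict_mem measurableSet_Icc] with l hl hlI
    have hl0 : 0 < l := lt_of_lt_of_le h0 hlI.1
    unfold kk
    split_ifs with h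
    · have h1 : s / q ≤ l := by rwa [div_le_iff₀ hq]
      have h2 : l ∈ Ioi (s / q) := lt_of_le_of_ne h1 (Ne.symm hl)
      rw [hP, indicator_of_mem h2, mul_add, mul_one]
      have h3 : l ^ (-4 : ℝ) = (l ^ 4)⁻¹ := by
        rw [Real.rpow_neg hl0.le]
        congr 1
        exact_mod_cast Real.rpow_natCast l 4
      rw [h3]
      apply le_of_eq
      field_simp
    · have h1 : 0 ≤ (M * l)⁻¹ := by positivity
      have := hP0 l
      linarith
  calc AA M q lam0 lam1 s ≤ ∫ l in Icc lam0 lam1, ((M * l)⁻¹ + P l) := by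
        unfold AA
        exact integral_mono_ae (integrableOn_kk hMpos hq h0 hs)
          ((integrableOn_inv h0).add hPi.integrableOn) hae
    _ = 1 + ∫ l in Icc lam0 lam1, P l := by
        rw [integral_add (integrableOn_inv h0) hPi.integrableOn, int_inv h0 h01 hM]
    _ ≤ 1 + ∫ l, P l := by
        have := setIntegral_le_integral (s := Icc lam0 lam1) hPi (ae_of_all _ hP0)
        linarith
    _ = 1 + 1 / (24 * M) := by rw [hPint]

/-- bulk part: exchange of the integrals -/
theorem swap (h0 : 0 < lam0) (hMpos : 0 < M) (hq : 0 < q) (ht : 0 < t) :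
    ∫ s in Ioi 0, AA M q lam0 lam1 s * G t s =
      ∫ l in Icc lam0 lam1, ∫ s in Ioi 0, kk M q s l * G t s ∧
    IntegrableOn (fun l => ∫ s in Ioi 0, kk M q s l * G t s) (Icc lam0 lam1) := by
  obtain ⟨C, hC0, hC⟩ := G_bound t ht (lam1 * q)
  set F : ℝ → ℝ → ℝ := fun s l => kk M q s l * G t s with hF
  have hFm : Measurable (Function.uncurry F) :=
    (measurable_kk M q).mul ((measurable_G t).comp measurable_fst)
  have hint : IntegrableOn (Function.uncurry F) (Ioi 0 ×ˢ Icc lam0 lam1)
      ((volume : Measure ℝ).prod volume) := by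
    have h1 : IntegrableOn (Function.uncurry F) (Ioc 0 (lam1 * q) ×ˢ Icc lam0 lam1)
        ((volume : Measure ℝ).prod volume) := by
      apply Measure.integrableOn_of_bounded (M := (M * lam0)⁻¹ * (9 / 8) * C)
      · rw [Measure.prod_prod]
        exact ENNReal.mul_ne_top measure_Ioc_lt_top.ne measure_Icc_lt_top.ne
      · exact hFm.aestronglyMeasurable
      · rw [ae_restrict_iff' (measurableSet_Ioc.prod measurableSet_Icc)]
        apply ae_of_all
        rintro ⟨s, l⟩ ⟨hs, hl⟩
        simp only [hF, Function.uncurry_apply_pair, Real.norm_eq_abs, abs_mul]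
        apply mul_le_mul (kk_bound hMpos hq hs.1 h0 hl.1) (hC s hs.1 hs.2) (abs_nonneg _)
        positivity
    have h2 : IntegrableOn (Function.uncurry F) (Ioi (lam1 * q) ×ˢ Icc lam0 lam1)
        ((volume : Measure ℝ).prod volume) := by
      apply (integrableOn_zero (μ := (volume : Measure ℝ).prod volume)
        (s := Ioi (lam1 * q) ×ˢ Icc lam0 lam1)).congr_fun _
        (measurableSet_Ioi.prod measurableSet_Icc)
      rintro ⟨s, l⟩ ⟨hs, hl⟩
      simp only [hF, Function.uncurry_apply_pair]
      rw [kk_zero hq hl.2 hs, zero_mul]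
    apply (h1.union h2).mono_set
    rintro ⟨s, l⟩ ⟨hs, hl⟩
    by_cases h : s ≤ lam1 * q
    · exact Or.inl ⟨⟨hs, h⟩, hl⟩
    · exact Or.inr ⟨not_le.1 h, hl⟩
  have hint' : Integrable (Function.uncurry F) ((volume.restrict (Ioi 0)).prod
      (volume.restrict (Icc lam0 lam1))) := by
    rw [Measure.prod_restrict]
    exact hint
  constructor
  · have h1 : (fun s => AA M q lam0 lam1 s * G t s) = fun s => ∫ l in Icc lam0 lam1, F s l := by
      funext s
      unfold AA
      rw [hF, integral_mul_const]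
    rw [h1]
    exact integral_integral_swap hint'
  · exact hint'.integral_prod_right

theorem bulk (hq : 0 < q) (hMpos : 0 < M) (h0 : 0 < lam0) {l : ℝ} (hl : l ∈ Icc lam0 lam1) :
    (M * l)⁻¹ * ∫ s in Ioc 0 (l * q),
      ((Real.pi * s ^ 5)⁻¹ + (8 * Real.pi * (l * q) ^ 3 * s ^ 2)⁻¹) * lens s t =
    ∫ s in Ioi 0, kk M q s l * G t s := by
  have hl0 : 0 < l := lt_of_lt_of_le h0 hl.1
  have hpi := Real.pi_pos
  have hsub : Ioc 0 (l * q) ⊆ Ioi 0 := fun s hs => hs.1
  rw [← integral_const_mul, ← integral_indicator measurableSet_Ioc,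
    ← integral_indicator measurableSet_Ioi]
  congr 1
  funext s
  by_cases hs : s ∈ Ioc 0 (l * q)
  · rw [indicator_of_mem hs, indicator_of_mem (hsub hs)]
    unfold kk G
    rw [if_pos hs.2]
    have hs0 : 0 < s := hs.1
    field_simp
  · rw [indicator_of_notMem hs]
    by_cases hs' : s ∈ Ioi (0 : ℝ)
    · rw [indicator_of_mem hs']
      unfold kk
      rw [if_neg, zero_mul]
      intro h
      exact hs ⟨hs', h⟩
    · rw [indicator_of_notMem hs']

theorem bdry (hq : 0 < q) (hMpos : 0 < M) (h0 : 0 < lam0) (h01 : lam0 < lam1) :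
    ∫ l in Icc lam0 lam1, (M * l)⁻¹ * (3 / (8 * Real.pi * (l * q) ^ 4) * lens (l * q) t) =
    ∫ s in Ioi 0, BB M q lam0 lam1 s * G t s := by
  have hpi := Real.pi_pos
  set f : ℝ → ℝ := fun s => 3 / (8 * M) * G t s with hf
  have e1 : ∫ l in Icc lam0 lam1,
      (M * l)⁻¹ * (3 / (8 * Real.pi * (l * q) ^ 4) * lens (l * q) t) =
      ∫ l in Icc lam0 lam1, q * f (l * q) := by
    apply setIntegral_congr_fun measurableSet_Icc
    intro l hl
    have hl0 : 0 < l := lt_of_lt_of_le h0 hl.1
    simp only [hf, G]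
    field_simp
  have e2 : ∫ s in Ioi 0, BB M q lam0 lam1 s * G t s =
      ∫ s in Icc (lam0 * q) (lam1 * q), f s := by
    rw [← integral_indicator measurableSet_Icc, ← integral_indicator measurableSet_Ioi]
    congr 1
    funext s
    by_cases hs : s ∈ Icc (lam0 * q) (lam1 * q)
    · have hs0 : s ∈ Ioi (0 : ℝ) := lt_of_lt_of_le (by positivity) hs.1
      rw [indicator_of_mem hs, indicator_of_mem hs0]
      unfold BB
      rw [if_pos ⟨hs.1, hs.2⟩]
    · rw [indicator_of_notMem hs]
      by_cases hs' : s ∈ Ioi (0 : ℝ)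
      · rw [indicator_of_mem hs']
        unfold BB
        rw [if_neg (fun h => hs ⟨h.1, h.2⟩), zero_mul]
      · rw [indicator_of_notMem hs']
  rw [e1, e2, integral_Icc_eq_integral_Ioc, integral_Icc_eq_integral_Ioc,
    ← intervalIntegral.integral_of_le h01.le, ← intervalIntegral.integral_of_le (by gcongr),
    intervalIntegral.integral_const_mul, intervalIntegral.integral_comp_mul_right f hq.ne',
    smul_eq_mul, mul_inv_cancel_left₀ hq.ne']

theorem integrableOn_bdry (hq : 0 < q) (hMpos : 0 < M) (h0 : 0 < lam0) (ht : 0 < t) :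
    IntegrableOn (fun l => (M * l)⁻¹ *
      (3 / (8 * Real.pi * (l * q) ^ 4) * lens (l * q) t)) (Icc lam0 lam1) := by
  obtain ⟨C, hC0, hC⟩ := G_bound t ht (lam1 * q)
  have hpi := Real.pi_pos
  have h1 : IntegrableOn (fun l => q * (3 / (8 * M)) * G t (l * q)) (Icc lam0 lam1) := by
    apply Measure.integrableOn_of_bounded (M := q * (3 / (8 * M)) * C) measure_Icc_lt_top.ne
    · exact (((measurable_G t).comp (measurable_id.mul_const q)).const_mul
        _).aestronglyMeasurable
    · rw [ae_restrict_iff' measurableSet_Icc]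
      apply ae_of_all
      intro l hl
      have hl0 : 0 < l := lt_of_lt_of_le h0 hl.1
      rw [Real.norm_eq_abs, abs_mul, abs_of_pos (by positivity)]
      apply mul_le_mul_of_nonneg_left _ (by positivity)
      apply hC _ (by positivity)
      gcongr
      exact hl.2
  apply h1.congr_fun _ measurableSet_Icc
  intro l hl
  have hl0 : 0 < l := lt_of_lt_of_le h0 hl.1
  simp only [G]
  field_simp

end

end Ch_

open Ch_ in
theorem Ch_proof (hKer2 : Stmt_Ker2) : Stmt_Ch := by
  intro m q hq lam0 lam1 ε h0 h01 hε hfr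
  set M := Real.log (lam1 / lam0) with hM
  have hMpos : 0 < M := by
    rw [hM]
    apply Real.log_pos
    rw [lt_div_iff₀ h0]
    linarith
  have hvb : ∀ i, 0 < vb (q i) := by
    intro i
    have := hq i
    unfold vb
    positivity
  have hBB0 : ∀ i s, 0 ≤ BB M (q i) lam0 lam1 s := by
    intro i s
    unfold BB
    split_ifs <;> positivity
  have hBB1 : ∀ i s, BB M (q i) lam0 lam1 s ≤ 3 / (8 * M) := by
    intro i s
    unfold BB
    split_ifs
    · exact le_rfl
    · positivity
  refine ⟨fun s => if 0 < s then ∑ i, vb (q i) * (AA M (q i) lam0 lam1 s +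
    BB M (q i) lam0 lam1 s) else 0, ?_, ?_, ?_, ?_⟩
  · refine Measurable.ite measurableSet_Ioi ?_ measurable_const
    apply Finset.measurable_sum
    intro i _
    exact ((measurable_AA _ _ _ _).add (measurable_BB _ _ _ _)).const_mul _
  · intro s
    simp only
    split_ifs with hs
    · constructor
      · apply Finset.sum_nonneg
        intro i _
        have := AA_nonneg (lam1 := lam1) hMpos (hq i) h0 hs
        have := hBB0 i s
        have := hvb i
        positivity
      · refine le_trans ?_ hfr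
        unfold frac
        rw [Finset.sum_mul]
        apply Finset.sum_le_sum
        intro i _
        apply mul_le_mul_of_nonneg_left _ (hvb i).le
        have h1 := AA_le h0 h01 hM hMpos (hq i) hs
        have h2 := hBB1 i s
        have h3 : 1 + 5 / (12 * M) = 1 + 1 / (24 * M) + 3 / (8 * M) := by
          field_simp
          ring
        rw [h3]
        linarith
    · exact ⟨le_rfl, zero_le_one⟩
  · intro s hs hsi
    simp only
    rw [if_pos hs]
    refine hε.trans ?_
    unfold frac
    apply Finset.sum_le_sum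
    intro i _
    have h1 := AA_ge h0 h01 hM hMpos (hq i) hs (hsi i)
    have h2 := hBB0 i s
    have h3 := hvb i
    nlinarith
  · intro t ht
    have hpi := Real.pi_pos
    -- right side
    have hintA : ∀ i, IntegrableOn (fun s => AA M (q i) lam0 lam1 s * G t s) (Ioi 0) := by
      intro i
      obtain ⟨C, hC0, hC⟩ := G_bound t ht (lam1 * q i)
      apply integrable_bdd (f := fun s => AA M (q i) lam0 lam1 s * G t s)
        ((measurable_AA _ _ _ _).mul (measurable_G t)) ((1 + 1 / (24 * M)) * C) (lam1 * q i)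
      · intro s hs hsl
        rw [abs_mul]
        apply mul_le_mul _ (hC s hs hsl) (abs_nonneg _) (by positivity)
        rw [abs_of_nonneg (AA_nonneg hMpos (hq i) h0 hs)]
        exact AA_le h0 h01 hM hMpos (hq i) hs
      · intro s hs
        rw [AA_zero (hq i) hs, zero_mul]
    have hintB : ∀ i, IntegrableOn (fun s => BB M (q i) lam0 lam1 s * G t s) (Ioi 0) := by
      intro i
      obtain ⟨C, hC0, hC⟩ := G_bound t ht (lam1 * q i)
      apply integrable_bdd (f := fun s => BB M (q i) lam0 lam1 s * G t s)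
        ((measurable_BB _ _ _ _).mul (measurable_G t)) (3 / (8 * M) * C) (lam1 * q i)
      · intro s hs hsl
        rw [abs_mul]
        apply mul_le_mul _ (hC s hs hsl) (abs_nonneg _) (by positivity)
        rw [abs_of_nonneg (hBB0 i s)]
        exact hBB1 i s
      · intro s hs
        unfold BB
        rw [if_neg (fun h => absurd h.2 (not_le.2 hs)), zero_mul]
    have hR : Rk (fun s => if 0 < s then ∑ i, vb (q i) * (AA M (q i) lam0 lam1 s +
        BB M (q i) lam0 lam1 s) else 0) t =
        ∑ i, vb (q i) * ((∫ s in Ioi 0, AA M (q i) lam0 lam1 s * G t s) +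
          ∫ s in Ioi 0, BB M (q i) lam0 lam1 s * G t s) := by
      unfold Rk
      have e1 : ∀ s ∈ Ioi (0 : ℝ), (if 0 < s then ∑ i, vb (q i) * (AA M (q i) lam0 lam1 s +
          BB M (q i) lam0 lam1 s) else 0) * ((Real.pi * s ^ 5)⁻¹ * lens s t) =
          ∑ i, vb (q i) * (AA M (q i) lam0 lam1 s * G t s + BB M (q i) lam0 lam1 s * G t s) := by
        intro s hs
        rw [if_pos (show 0 < s from hs), Finset.sum_mul]
        apply Finset.sum_congr rfl
        intro i _
        unfold G
        ring
      rw [setIntegral_congr_fun measurableSet_Ioi e1, integral_finsetSum]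
      · apply Finset.sum_congr rfl
        intro i _
        rw [integral_const_mul, integral_add (hintA i) (hintB i)]
      · intro i _
        exact ((hintA i).add (hintB i)).const_mul _
    rw [hR]
    -- left side
    have e2 : ∀ l ∈ Icc lam0 lam1, (M * l)⁻¹ * ∑ i, vb (q i) * hb (l * q i) t =
        ∑ i, vb (q i) * ((∫ s in Ioi 0, kk M (q i) s l * G t s) +
          (M * l)⁻¹ * (3 / (8 * Real.pi * (l * q i) ^ 4) * lens (l * q i) t)) := by
      intro l hl
      have hl0 : 0 < l := lt_of_lt_of_le h0 hl.1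
      rw [Finset.mul_sum]
      apply Finset.sum_congr rfl
      intro i _
      have hr : 0 < l * q i := mul_pos hl0 (hq i)
      rw [(hKer2 (l * q i) t hr ht).2, ← bulk (t := t) (hq i) hMpos h0 hl]
      ring
    rw [setIntegral_congr_fun measurableSet_Icc e2, integral_finsetSum]
    · apply Finset.sum_congr rfl
      intro i _
      rw [integral_const_mul, integral_add (swap h0 hMpos (hq i) ht).2
        (integrableOn_bdry (hq i) hMpos h0 ht), (swap h0 hMpos (hq i) ht).1,
        bdry (hq i) hMpos h0 h01]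
    · intro i _
      exact ((swap h0 hMpos (hq i) ht).2.add
        (integrableOn_bdry (hq i) hMpos h0 ht)).const_mul _

end Pool.Agent.JEL
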