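import Pool.Agent.JEL.Stmts

/-!
# JEL, module Chg: charged balls have a large energy
-/

open MeasureTheory Set Filter Topology

namespace Pool.Agent.JEL

open scoped Real

noncomputable section

namespace Chg_

/-- explicit kernel of the large balls -/
def K2 (r t : ℝ) : ℝ := 2 / (3 * r) - t / (8 * r ^ 2) + t ^ 3 / (768 * r ^ 4)

theorem tail_int (A B C R : ℝ) (hR : 0 < R)
    (hnn : ∀ s, R < s → 0 ≤ A * (s ^ 2)⁻¹ - B * (s ^ 3)⁻¹ + C * (s ^ 5)⁻¹) :
    ∫ s in Ioi R, (A * (s ^ 2)⁻¹ - B * (s ^ 3)⁻¹ + C * (s ^ 5)⁻¹) =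
      A / R - B / (2 * R ^ 2) + C / (4 * R ^ 4) := by
  have hp : ∀ n : ℕ, ∀ s : ℝ, 0 < s →
      HasDerivAt (fun s : ℝ => (s ^ (n + 1))⁻¹) (-(n + 1) * (s ^ (n + 2))⁻¹) s := by
    intro n s hs
    have h := (hasDerivAt_pow (n + 1) s).fun_inv (pow_ne_zero _ hs.ne')
    refine h.congr_deriv ?_
    field_simp
    push_cast
    ring
  have hd : ∀ s ∈ Ici R, HasDerivAt (fun s : ℝ => -A * (s ^ (0 + 1))⁻¹ + B / 2 * (s ^ (1 + 1))⁻¹ -
      C / 4 * (s ^ (3 + 1))⁻¹) (A * (s ^ 2)⁻¹ - B * (s ^ 3)⁻¹ + C * (s ^ 5)⁻¹) s := by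
    intro s hs
    have hs0 : 0 < s := hR.trans_le hs
    refine ((((hp 0 s hs0).const_mul (-A)).add ((hp 1 s hs0).const_mul (B / 2))).sub
      ((hp 3 s hs0).const_mul (C / 4))).congr_deriv ?_
    push_cast
    ring
  have hz : ∀ n : ℕ, Tendsto (fun s : ℝ => (s ^ (n + 1))⁻¹) atTop (𝓝 0) := fun n =>
    (tendsto_pow_atTop (Nat.succ_ne_zero n)).inv_tendsto_atTop
  have hl : Tendsto (fun s : ℝ => -A * (s ^ (0 + 1))⁻¹ + B / 2 * (s ^ (1 + 1))⁻¹ -
      C / 4 * (s ^ (3 + 1))⁻¹) atTop (𝓝 0) := by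
    have h1 := (((hz 0).const_mul (-A)).add ((hz 1).const_mul (B / 2))).sub ((hz 3).const_mul (C / 4))
    simpa using h1
  rw [integral_Ioi_of_hasDerivAt_of_nonneg' hd (fun s hs => hnn s hs) hl]
  field_simp
  ring

/-- the coefficient of the small balls -/
def c1 (r : ℝ) : ℝ → ℝ := (Iic (2 * r)).indicator (fun _ => 1)

theorem lens_eq {r s t : ℝ} (ht : t ≤ 2 * r) (hs : r ≤ s) :
    lens s t = 4 * π / 3 * s ^ 3 - π * s ^ 2 * t + π * t ^ 3 / 12 := by
  rw [lens, if_pos (by linarith)]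

theorem lens_nonneg {s t : ℝ} (hL : Stmt_Lens) (hs : 0 < s) (ht : 0 ≤ t) : 0 ≤ lens s t := by
  have h := hL.2 0 (toE ![t, 0, 0]) s hs
  have h2 : ‖(0 : E) - toE ![t, 0, 0]‖ = t := by
    rw [zero_sub, norm_neg, toE, EuclideanSpace.norm_eq]
    simp [Fin.sum_univ_three, Real.sqrt_sq ht]
  rw [h2] at h
  rw [← h]
  exact measureReal_nonneg

theorem split (hK : Stmt_Ker1) (hL : Stmt_Lens) {r t : ℝ} (hr : 0 < r) (ht0 : 0 < t)
    (ht : t ≤ 2 * r) : t⁻¹ = Rk (c1 r) t + K2 r t := by
  obtain ⟨h1, h2⟩ := hK t ht0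
  have h2r : 0 < 2 * r := by linarith
  have h3 : Rk (fun _ => 1) t = ∫ s in Ioi 0, (π * s ^ 5)⁻¹ * lens s t := by
    simp [Rk]
  have h4 : Rk (c1 r) t = ∫ s in Ioc 0 (2 * r), (π * s ^ 5)⁻¹ * lens s t := by
    have h5 : (fun s => c1 r s * ((π * s ^ 5)⁻¹ * lens s t)) =
        (Iic (2 * r)).indicator fun s => (π * s ^ 5)⁻¹ * lens s t := by
      funext s
      by_cases hs : s ∈ Iic (2 * r)
      · rw [c1, indicator_of_mem hs, indicator_of_mem hs, one_mul]
      · rw [c1, indicator_of_notMem hs, indicator_of_notMem hs, zero_mul]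
    rw [Rk, h5, setIntegral_indicator measurableSet_Iic]
    rfl
  have h6 : ∫ s in Ioi (2 * r), (π * s ^ 5)⁻¹ * lens s t = K2 r t := by
    have h7 : ∀ s ∈ Ioi (2 * r), (π * s ^ 5)⁻¹ * lens s t =
        4 / 3 * (s ^ 2)⁻¹ - t * (s ^ 3)⁻¹ + t ^ 3 / 12 * (s ^ 5)⁻¹ := by
      intro s hs
      have hs0 : 0 < s := h2r.trans hs
      have hs' : 2 * r < s := hs
      rw [lens_eq ht (by linarith)]
      field_simp
    rw [setIntegral_congr_fun measurableSet_Ioi h7, tail_int _ _ _ _ h2r, K2]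
    · field_simp
      ring
    · intro s hs
      rw [← h7 s hs]
      have hs0 : 0 < s := h2r.trans hs
      exact mul_nonneg (by positivity) (lens_nonneg hL hs0 ht0.le)
  rw [← h2, h3, h4, ← h6, ← Ioc_union_Ioi_eq_Ioi h2r.le,
    setIntegral_union (Ioc_disjoint_Ioi le_rfl) measurableSet_Ioi (h1.mono_set Ioc_subset_Ioi_self)
      (h1.mono_set (Ioi_subset_Ioi h2r.le))]

/-! ### quadratic forms -/

/-- Fubini for products of masses of balls -/
theorem fub (μ ν : Measure E) [IsFiniteMeasure μ] [IsFiniteMeasure ν] (s : ℝ) :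
    Integrable (fun z => μ.real (cB z s) * ν.real (cB z s)) ∧
    ∫ z, μ.real (cB z s) * ν.real (cB z s) =
      ∫ x, ∫ y, (volume : Measure E).real (cB x s ∩ cB y s) ∂ν ∂μ := by
  set T : Set (E × (E × E)) := {p | ‖p.2.1 - p.1‖ ≤ s ∧ ‖p.2.2 - p.1‖ ≤ s} with hT
  have hTc : IsClosed T := by
    have e1 : Continuous (fun p : E × (E × E) => ‖p.2.1 - p.1‖) := by fun_prop
    have e2 : Continuous (fun p : E × (E × E) => ‖p.2.2 - p.1‖) := by fun_prop
    exact (isClosed_le e1 continuous_const).inter (isClosed_le e2 continuous_const)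
  have hTm : MeasurableSet T := hTc.measurableSet
  have hsec : ∀ x y : E, (fun z : E => (z, (x, y))) ⁻¹' T = cB x s ∩ cB y s := by
    intro x y
    ext z
    simp only [hT, mem_preimage, mem_ofPred_eq, mem_inter_iff, Metric.mem_closedBall, dist_eq_norm]
    rw [norm_sub_rev x z, norm_sub_rev y z]
  have hsec' : ∀ z : E, Prod.mk z ⁻¹' T = cB z s ×ˢ cB z s := by
    intro z
    ext p
    simp only [hT, mem_preimage, mem_ofPred_eq, mem_prod, Metric.mem_closedBall, dist_eq_norm]
  have hfin : ((volume : Measure E).prod (μ.prod ν)) T < ⊤ := by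
    rw [Measure.prod_apply_symm hTm]
    calc ∫⁻ y : E × E, volume ((fun x => (x, y)) ⁻¹' T) ∂(μ.prod ν)
        ≤ ∫⁻ y : E × E, volume (cB (0 : E) s) ∂(μ.prod ν) := by
          refine lintegral_mono fun y => ?_
          have h1 : (fun x => (x, y)) ⁻¹' T ⊆ cB y.1 s := by
            have := hsec y.1 y.2
            rw [Prod.mk.eta] at this
            rw [this]
            exact inter_subset_left
          refine (measure_mono h1).trans ?_
          rw [Measure.addHaar_closedBall_center]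
      _ < ⊤ := by
          rw [lintegral_const]
          exact ENNReal.mul_lt_top measure_closedBall_lt_top (measure_lt_top _ _)
  have hI : Integrable (T.indicator (fun _ => (1 : ℝ))) ((volume : Measure E).prod (μ.prod ν)) :=
    (integrable_indicator_iff hTm).2 (integrableOn_const hfin.ne)
  have h1 : ∀ z : E, ∫ p, T.indicator (fun _ => (1 : ℝ)) (z, p) ∂(μ.prod ν) =
      μ.real (cB z s) * ν.real (cB z s) := by
    intro z
    have h2 : (fun p => T.indicator (fun _ => (1 : ℝ)) (z, p)) =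
        (cB z s ×ˢ cB z s).indicator (fun _ => (1 : ℝ)) := by
      rw [← hsec' z]
      rfl
    rw [h2, integral_indicator (Metric.isClosed_closedBall.measurableSet.prod
      Metric.isClosed_closedBall.measurableSet), setIntegral_const, smul_eq_mul, mul_one,
      measureReal_prod_prod]
  have h2 : ∀ p : E × E, ∫ z, T.indicator (fun _ => (1 : ℝ)) (z, p) =
      (volume : Measure E).real (cB p.1 s ∩ cB p.2 s) := by
    intro p
    have h3 : (fun z => T.indicator (fun _ => (1 : ℝ)) (z, p)) =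
        (cB p.1 s ∩ cB p.2 s).indicator (fun _ => (1 : ℝ)) := by
      rw [← hsec p.1 p.2]
      rfl
    rw [h3, integral_indicator (Metric.isClosed_closedBall.measurableSet.inter
      Metric.isClosed_closedBall.measurableSet), setIntegral_const, smul_eq_mul, mul_one]
  refine ⟨?_, ?_⟩
  · have h3 := hI.integral_prod_left
    simp only [h1] at h3
    exact h3
  · have h3 := integral_prod _ hI
    have h4 := integral_prod_symm _ hI
    simp only [h1] at h3
    simp only [h2] at h4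
    rw [← h3, h4]
    have h5 := hI.integral_prod_right
    simp only [h2] at h5
    rw [integral_prod _ h5]

/-- the quadratic form of a pair kernel, for point charges and a uniform background -/
def QF (ρ : ℝ) (B : Set E) {n : ℕ} (X : Fin n → E) (k : ℝ → ℝ) : ℝ :=
  (∑ i, ∑ j, k ‖X i - X j‖) - 2 * ρ * (∑ i, ∫ y in B, k ‖X i - y‖) +
    ρ ^ 2 * (∫ x in B, ∫ y in B, k ‖x - y‖)

theorem meas_ball (z : E) (r : ℝ) : MeasurableSet (cB z r) :=
  Metric.isClosed_closedBall.measurableSet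

theorem dist_le {z x y : E} {r : ℝ} (hx : x ∈ cB z r) (hy : y ∈ cB z r) : ‖x - y‖ ≤ 2 * r := by
  rw [Metric.mem_closedBall, dist_eq_norm] at hx hy
  calc ‖x - y‖ = ‖(x - z) - (y - z)‖ := by congr 1; abel
    _ ≤ ‖x - z‖ + ‖y - z‖ := norm_sub_le _ _
    _ ≤ 2 * r := by linarith

theorem QF_congr {ρ r : ℝ} {z : E} {n : ℕ} {X : Fin n → E} (hX : ∀ i, X i ∈ cB z r)
    {k k' : ℝ → ℝ} (h : ∀ t, 0 ≤ t → t ≤ 2 * r → k t = k' t) :
    QF ρ (cB z r) X k = QF ρ (cB z r) X k' := by
  unfold QF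
  congr 1
  · congr 1
    · refine Finset.sum_congr rfl fun i _ => Finset.sum_congr rfl fun j _ => ?_
      exact h _ (norm_nonneg _) (dist_le (hX i) (hX j))
    · congr 1
      refine Finset.sum_congr rfl fun i _ => ?_
      refine setIntegral_congr_fun (meas_ball z r) fun y hy => ?_
      exact h _ (norm_nonneg _) (dist_le (hX i) hy)
  · congr 1
    refine setIntegral_congr_fun (meas_ball z r) fun x hx => ?_
    refine setIntegral_congr_fun (meas_ball z r) fun y hy => ?_
    exact h _ (norm_nonneg _) (dist_le hx hy)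

theorem int1 {k : ℝ → ℝ} (hk : Continuous k) (z x : E) (r : ℝ) :
    IntegrableOn (fun y => k ‖x - y‖) (cB z r) := by
  have h : Continuous (fun y : E => k ‖x - y‖) := by fun_prop
  exact h.continuousOn.integrableOn_compact (isCompact_closedBall z r)

theorem int2 {k : ℝ → ℝ} (hk : Continuous k) (z : E) (r : ℝ) :
    IntegrableOn (fun x => ∫ y in cB z r, k ‖x - y‖) (cB z r) := by
  have h : Continuous (fun p : E × E => k ‖p.1 - p.2‖) := by fun_prop
  have h1 : IntegrableOn (fun p : E × E => k ‖p.1 - p.2‖) (cB z r ×ˢ cB z r) :=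
    h.continuousOn.integrableOn_compact ((isCompact_closedBall z r).prod (isCompact_closedBall z r))
  rw [IntegrableOn, Measure.volume_eq_prod, ← Measure.prod_restrict] at h1
  exact h1.integral_prod_left

theorem QF_add {ρ r : ℝ} {z : E} {n : ℕ} {X : Fin n → E} {k k' : ℝ → ℝ} (hk : Continuous k)
    (hk' : Continuous k') :
    QF ρ (cB z r) X (fun t => k t + k' t) = QF ρ (cB z r) X k + QF ρ (cB z r) X k' := by
  unfold QF
  have h1 : ∀ x, ∫ y in cB z r, (k ‖x - y‖ + k' ‖x - y‖) =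
      (∫ y in cB z r, k ‖x - y‖) + ∫ y in cB z r, k' ‖x - y‖ := fun x =>
    integral_add (int1 hk z x r) (int1 hk' z x r)
  simp only [h1, Finset.sum_add_distrib]
  rw [integral_add (int2 hk z r) (int2 hk' z r)]
  ring

theorem QF_smul {ρ : ℝ} {B : Set E} {n : ℕ} {X : Fin n → E} {k : ℝ → ℝ} (c : ℝ) :
    QF ρ B X (fun t => c * k t) = c * QF ρ B X k := by
  unfold QF
  simp only [integral_const_mul, ← Finset.mul_sum]
  ring

theorem QF_one {ρ r : ℝ} {z : E} {n : ℕ} {X : Fin n → E} (hL : Stmt_Lens) (hr : 0 ≤ r) :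
    QF ρ (cB z r) X (fun _ => 1) = ((n : ℝ) - ρ * vb r) ^ 2 := by
  unfold QF
  have h := hL.1 z r hr
  have h1 : ∀ c : ℝ, ∫ y in cB z r, c = vb r * c := by
    intro c
    rw [setIntegral_const, h, smul_eq_mul]
  simp only [h1, Finset.sum_const, Finset.card_univ, Fintype.card_fin, nsmul_eq_mul]
  ring

/-- positivity, for one radius `s` -/
theorem pos_s (hL : Stmt_Lens) {ρ r s : ℝ} {z : E} {n : ℕ} {X : Fin n → E}
    (hX : ∀ i, X i ∈ cB z r) (hr : 0 < r) (hs : r ≤ s) :
    vb (s - r) * ((n : ℝ) - ρ * vb r) ^ 2 ≤ QF ρ (cB z r) X (lens s) := by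
  have hs0 : 0 < s := hr.trans_le hs
  set ν : Measure E := (volume : Measure E).restrict (cB z r) with hν
  have : IsFiniteMeasure ν := ⟨by
    rw [hν, Measure.restrict_apply_univ]
    exact measure_closedBall_lt_top⟩
  set N : E → ℝ := fun w => ∑ i, (Measure.dirac (X i)).real (cB w s) - ρ * ν.real (cB w s) with hN
  have hN2 : ∀ w, N w ^ 2 = ∑ i, ∑ j, (Measure.dirac (X i)).real (cB w s) *
      (Measure.dirac (X j)).real (cB w s) - 2 * ρ * ∑ i, (Measure.dirac (X i)).real (cB w s) *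
      ν.real (cB w s) + ρ ^ 2 * (ν.real (cB w s) * ν.real (cB w s)) := by
    intro w
    simp only [hN]
    rw [← Finset.sum_mul_sum, ← Finset.sum_mul]
    ring
  have i1 : ∀ i j, Integrable (fun w => (Measure.dirac (X i)).real (cB w s) *
      (Measure.dirac (X j)).real (cB w s)) := fun i j => (fub _ _ s).1
  have i2 : ∀ i, Integrable (fun w => (Measure.dirac (X i)).real (cB w s) * ν.real (cB w s)) :=
    fun i => (fub _ _ s).1
  have i3 : Integrable (fun w => ν.real (cB w s) * ν.real (cB w s)) := (fub _ _ s).1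
  have i1' : Integrable (fun w => ∑ i, ∑ j, (Measure.dirac (X i)).real (cB w s) *
      (Measure.dirac (X j)).real (cB w s)) :=
    integrable_finsetSum _ fun i _ => integrable_finsetSum _ fun j _ => i1 i j
  have i2' : Integrable (fun w => 2 * ρ * ∑ i, (Measure.dirac (X i)).real (cB w s) *
      ν.real (cB w s)) := (integrable_finsetSum _ fun i _ => i2 i).const_mul _
  have i3' : Integrable (fun w => ρ ^ 2 * (ν.real (cB w s) * ν.real (cB w s))) := i3.const_mul _
  have hNi : Integrable (fun w => N w ^ 2) := by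
    simp only [hN2]
    exact (i1'.sub i2').add i3'
  have hint : ∫ w, N w ^ 2 = QF ρ (cB z r) X (lens s) := by
    simp only [hN2]
    have e0 := integral_add (i1'.sub i2') i3'
    simp only [Pi.sub_apply] at e0
    rw [e0, integral_sub i1' i2', integral_finsetSum _ fun i _ => integrable_finsetSum _ fun j _ =>
      i1 i j, integral_const_mul, integral_const_mul, integral_finsetSum _ fun i _ => i2 i,
      (fub ν ν s).2]
    unfold QF
    congr 1
    · congr 1
      · refine Finset.sum_congr rfl fun i _ => ?_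
        rw [integral_finsetSum _ fun j _ => i1 i j]
        refine Finset.sum_congr rfl fun j _ => ?_
        rw [(fub _ _ s).2, integral_dirac, integral_dirac, hL.2 _ _ _ hs0]
      · congr 1
        refine Finset.sum_congr rfl fun i _ => ?_
        rw [(fub _ _ s).2, integral_dirac]
        refine integral_congr_ae (Eventually.of_forall fun y => ?_)
        exact hL.2 _ _ _ hs0
    · congr 1
      refine integral_congr_ae (Eventually.of_forall fun x => ?_)
      refine integral_congr_ae (Eventually.of_forall fun y => ?_)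
      exact hL.2 _ _ _ hs0
  rw [← hint]
  have hsub : ∀ w ∈ cB z (s - r), N w = (n : ℝ) - ρ * vb r := by
    intro w hw
    have hin : cB z r ⊆ cB w s := by
      intro x hx
      rw [Metric.mem_closedBall] at hw hx ⊢
      calc dist x w ≤ dist x z + dist z w := dist_triangle _ _ _
        _ ≤ r + (s - r) := add_le_add hx (by rwa [dist_comm])
        _ = s := by ring
    have h1 : ∀ i, (Measure.dirac (X i)).real (cB w s) = 1 := by
      intro i
      rw [Measure.real, Measure.dirac_apply' _ (meas_ball w s), indicator_of_mem (hin (hX i))]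
      simp
    have h2 : ν.real (cB w s) = vb r := by
      rw [hν, measureReal_restrict_apply (meas_ball w s), inter_eq_self_of_subset_right hin,
        hL.1 z r hr.le]
    simp only [hN, h1, h2, Finset.sum_const, Finset.card_univ, Fintype.card_fin, nsmul_eq_mul,
      mul_one]
  calc vb (s - r) * ((n : ℝ) - ρ * vb r) ^ 2
      = ∫ w in cB z (s - r), ((n : ℝ) - ρ * vb r) ^ 2 := by
        rw [setIntegral_const, hL.1 z (s - r) (by linarith), smul_eq_mul]
    _ = ∫ w in cB z (s - r), N w ^ 2 :=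
        setIntegral_congr_fun (meas_ball z _) fun w hw => by rw [hsub w hw]
    _ ≤ ∫ w, N w ^ 2 := setIntegral_le_integral hNi (Eventually.of_forall fun w => sq_nonneg _)

/-- positivity of the kernel of the large balls -/
theorem pos_K2 (hL : Stmt_Lens) {ρ r : ℝ} {z : E} {n : ℕ} {X : Fin n → E}
    (hX : ∀ i, X i ∈ cB z r) (hr : 0 < r) :
    ((n : ℝ) - ρ * vb r) ^ 2 / (12 * r) ≤ QF ρ (cB z r) X (K2 r) := by
  set q0 := QF ρ (cB z r) X (fun _ => 1) with hq0
  set q1 := QF ρ (cB z r) X (fun t => t) with hq1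
  set q3 := QF ρ (cB z r) X (fun t => t ^ 3) with hq3
  have hlin : ∀ A B C : ℝ, QF ρ (cB z r) X (fun t => A * 1 + (B * t + C * t ^ 3)) =
      A * q0 + (B * q1 + C * q3) := by
    intro A B C
    rw [QF_add (k := fun _ => A * 1) (k' := fun t => B * t + C * t ^ 3) (by fun_prop)
      (by fun_prop), QF_add (k := fun t => B * t) (k' := fun t => C * t ^ 3) (by fun_prop)
      (by fun_prop), QF_smul (k := fun _ => (1 : ℝ)), QF_smul (k := fun t => t),
      QF_smul (k := fun t => t ^ 3)]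
  have h0 : q0 = ((n : ℝ) - ρ * vb r) ^ 2 := QF_one hL hr.le
  have hs : ∀ s, 2 * r < s → 0 ≤ (7 / 6 * q0) * (s ^ 2)⁻¹ - q1 * (s ^ 3)⁻¹ +
      (q3 / 12) * (s ^ 5)⁻¹ := by
    intro s hs
    have hs0 : 0 < s := by linarith
    have h1 := pos_s hL (ρ := ρ) hX hr (s := s) (by linarith)
    have h2 : QF ρ (cB z r) X (lens s) = 4 * π / 3 * s ^ 3 * q0 + (-(π * s ^ 2) * q1 +
        π / 12 * q3) := by
      rw [← hlin]
      refine QF_congr hX fun t _ ht => ?_
      rw [lens_eq ht (by linarith)]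
      ring
    rw [h2, ← h0] at h1
    have h3 : π / 6 * s ^ 3 ≤ vb (s - r) := by
      have h4 : s / 2 ≤ s - r := by linarith
      have h5 : (s / 2) ^ 3 ≤ (s - r) ^ 3 := by gcongr
      unfold vb
      have := Real.pi_pos
      nlinarith
    have h4 : 0 ≤ q0 := by rw [h0]; positivity
    have h5 : π / 6 * s ^ 3 * q0 ≤ vb (s - r) * q0 := by gcongr
    have h6 : 0 ≤ π * (7 / 6 * s ^ 3 * q0 - s ^ 2 * q1 + q3 / 12) := by nlinarith
    have h7 : 0 ≤ 7 / 6 * s ^ 3 * q0 - s ^ 2 * q1 + q3 / 12 :=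
      nonneg_of_mul_nonneg_right h6 Real.pi_pos
    have h8 : (7 / 6 * q0) * (s ^ 2)⁻¹ - q1 * (s ^ 3)⁻¹ + (q3 / 12) * (s ^ 5)⁻¹ =
        (7 / 6 * s ^ 3 * q0 - s ^ 2 * q1 + q3 / 12) * (s ^ 5)⁻¹ := by
      field_simp
    rw [h8]
    positivity
  have h1 := tail_int (7 / 6 * q0) q1 (q3 / 12) (2 * r) (by linarith) hs
  have h2 : 0 ≤ ∫ s in Ioi (2 * r), ((7 / 6 * q0) * (s ^ 2)⁻¹ - q1 * (s ^ 3)⁻¹ +
      (q3 / 12) * (s ^ 5)⁻¹) := setIntegral_nonneg measurableSet_Ioi fun s hs' => hs s hs'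
  rw [h1] at h2
  have h3 : QF ρ (cB z r) X (K2 r) = 2 / (3 * r) * q0 + (-(1 / (8 * r ^ 2)) * q1 +
      1 / (768 * r ^ 4) * q3) := by
    rw [← hlin]
    congr 1
    funext t
    rw [K2]
    ring
  rw [h3, ← h0]
  have h4 : 2 / (3 * r) * q0 + (-(1 / (8 * r ^ 2)) * q1 + 1 / (768 * r ^ 4) * q3) -
      q0 / (12 * r) = 7 / 6 * q0 / (2 * r) - q1 / (2 * (2 * r) ^ 2) + q3 / 12 / (4 * (2 * r) ^ 4) := by
    field_simp
    ring
  linarith

theorem adm_bg {ρ : ℝ} (hρ : 0 < ρ) (z : E) (r : ℝ) :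
    Adm (bg ρ (cB z r)) ∧ ∀ x, |bg ρ (cB z r) x| ≤ ρ := by
  have hb : ∀ x, |bg ρ (cB z r) x| ≤ ρ := by
    intro x
    unfold bg
    by_cases hx : x ∈ cB z r
    · rw [indicator_of_mem hx, abs_neg, abs_of_pos hρ]
    · rw [indicator_of_notMem hx, abs_zero]
      exact hρ.le
  refine ⟨⟨measurable_const.indicator (meas_ball z r), ⟨ρ, hb⟩, ⟨‖z‖ + r, fun x hx => ?_⟩⟩, hb⟩
  unfold bg
  rw [indicator_of_notMem]
  intro h
  rw [Metric.mem_closedBall, dist_eq_norm] at h
  have := norm_sub_norm_le x z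
  linarith

theorem bg_mul (ρ : ℝ) (B : Set E) (f : E → ℝ) :
    (fun y => bg ρ B y * f y) = B.indicator fun y => -ρ * f y := by
  funext y
  unfold bg
  by_cases hy : y ∈ B
  · rw [indicator_of_mem hy, indicator_of_mem hy]
  · rw [indicator_of_notMem hy, indicator_of_notMem hy, zero_mul]

theorem cont_K2 (r : ℝ) : Continuous (K2 r) := by
  unfold K2
  fun_prop

end Chg_

open Chg_ in
theorem Chg_proof (hL : Stmt_Lens) (hPot : Stmt_Pot) (hK : Stmt_Ker1) (hPd : Stmt_Pd) :
    Stmt_Chg := by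
  intro a ρ r ha hρ har z n X hX
  obtain ⟨hHC, hXB⟩ := hX
  have hr : 0 < r := ha.trans_le har
  obtain ⟨-, hP2, -, hP4, -⟩ := hPot
  obtain ⟨hF, hFb⟩ := adm_bg hρ z r
  set B := cB z r with hB
  set F := bg ρ B with hFd
  set K1 := Rk (c1 r) with hK1
  have hsplit : ∀ t, 0 < t → t ≤ 2 * r → t⁻¹ = K1 t + K2 r t := fun t h0 h1 => split hK hL hr h0 h1
  have hKc := cont_K2 r
  -- the integrals with the kernel of the large balls
  have hI2 : ∀ x, Integrable (fun y => F y * K2 r ‖x - y‖) ∧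
      ∫ y, F y * K2 r ‖x - y‖ = -ρ * ∫ y in B, K2 r ‖x - y‖ := by
    intro x
    rw [hFd, bg_mul]
    refine ⟨(integrable_indicator_iff (meas_ball z r)).2 ((int1 hKc z x r).const_mul _), ?_⟩
    rw [integral_indicator (meas_ball z r), integral_const_mul]
  have hpot : ∀ x ∈ B, ∫ y, F y * K1 ‖x - y‖ = pot F x + ρ * ∫ y in B, K2 r ‖x - y‖ := by
    intro x hx
    have h1 : (fun y => F y * K1 ‖x - y‖) =ᵐ[volume]
        fun y => F y * ‖x - y‖⁻¹ - F y * K2 r ‖x - y‖ := by
      have h2 : ∀ᵐ y : E, y ≠ x := by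
        rw [ae_iff]
        simp
      filter_upwards [h2] with y hy
      by_cases hyB : y ∈ B
      · rw [hsplit ‖x - y‖ (norm_pos_iff.2 (sub_ne_zero.2 (Ne.symm hy))) (dist_le hx hyB)]
        ring
      · have h3 : F y = 0 := by
          rw [hFd]
          unfold bg
          rw [indicator_of_notMem hyB]
        rw [h3]
        ring
    rw [integral_congr_ae h1, integral_sub (hP2 F hF x) (hI2 x).1, (hI2 x).2]
    unfold pot
    ring
  -- the three parts of the energy
  have e1 : pairE X = (1 / 2) * ∑ i, ∑ j ∈ Finset.univ.erase i, K1 ‖X i - X j‖ +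
      (1 / 2) * (∑ i, ∑ j, K2 r ‖X i - X j‖ - n * K2 r 0) := by
    have h1 : ∀ i, ∑ j ∈ Finset.univ.erase i, ‖X i - X j‖⁻¹ =
        ∑ j ∈ Finset.univ.erase i, K1 ‖X i - X j‖ + (∑ j, K2 r ‖X i - X j‖ - K2 r 0) := by
      intro i
      have h2 : ∑ j ∈ Finset.univ.erase i, ‖X i - X j‖⁻¹ =
          ∑ j ∈ Finset.univ.erase i, (K1 ‖X i - X j‖ + K2 r ‖X i - X j‖) := by
        refine Finset.sum_congr rfl fun j hj => ?_
        have h3 := hHC i j (Ne.symm (Finset.ne_of_mem_erase hj))
        exact hsplit _ (ha.trans_le h3) (dist_le (hXB i) (hXB j))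
      have h4 := Finset.add_sum_erase Finset.univ (fun j => K2 r ‖X i - X j‖) (Finset.mem_univ i)
      simp only [sub_self, norm_zero] at h4
      rw [h2, Finset.sum_add_distrib]
      linarith
    unfold pairE
    rw [Finset.sum_congr rfl fun i _ => h1 i, Finset.sum_add_distrib, Finset.sum_sub_distrib]
    simp only [Finset.sum_const, Finset.card_univ, Fintype.card_fin, nsmul_eq_mul]
    ring
  have e2 : ∑ i, ∫ y, F y * K1 ‖X i - y‖ =
      ∑ i, pot F (X i) + ρ * ∑ i, ∫ y in B, K2 r ‖X i - y‖ := by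
    rw [Finset.sum_congr rfl fun i _ => hpot (X i) (hXB i), Finset.sum_add_distrib, Finset.mul_sum]
  have e3 : ∫ x, F x * ∫ y, F y * K1 ‖x - y‖ =
      Dfm F F - ρ ^ 2 * ∫ x in B, ∫ y in B, K2 r ‖x - y‖ := by
    have h1 : (fun x => F x * ∫ y, F y * K1 ‖x - y‖) =
        fun x => F x * pot F x - B.indicator (fun x => ρ ^ 2 * ∫ y in B, K2 r ‖x - y‖) x := by
      funext x
      by_cases hx : x ∈ B
      · rw [hpot x hx, indicator_of_mem hx]
        have h3 : F x = -ρ := by
          rw [hFd]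
          unfold bg
          rw [indicator_of_mem hx]
        rw [h3]
        ring
      · have h3 : F x = 0 := by
          rw [hFd]
          unfold bg
          rw [indicator_of_notMem hx]
        rw [h3, indicator_of_notMem hx]
        ring
    have h2 : Integrable (fun x => F x * pot F x) := by
      have h3 := (hP4 F F hF hF).integral_prod_left
      refine h3.congr (Eventually.of_forall fun x => ?_)
      simp only [pot]
      rw [← integral_const_mul]
      refine integral_congr_ae (Eventually.of_forall fun y => ?_)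
      simp only
      ring
    have h4 : Integrable (B.indicator (fun x => ρ ^ 2 * ∫ y in B, K2 r ‖x - y‖)) :=
      (integrable_indicator_iff (meas_ball z r)).2 ((int2 hKc z r).const_mul _)
    rw [h1, integral_sub h2 h4, integral_indicator (meas_ball z r), integral_const_mul]
    rfl
  have e4 : En F X = EnK K1 F X + (1 / 2) * (QF ρ B X (K2 r) - n * K2 r 0) := by
    unfold En EnK QF
    rw [e1, e2, e3]
    ring
  -- the small balls
  have hc1 : ∀ s, 0 ≤ c1 r s ∧ c1 r s ≤ 1 := by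
    intro s
    unfold c1
    by_cases hs : s ∈ Iic (2 * r)
    · rw [indicator_of_mem hs]
      exact ⟨zero_le_one, le_rfl⟩
    · rw [indicator_of_notMem hs]
      exact ⟨le_rfl, zero_le_one⟩
  have hpd := hPd (c1 r) (measurable_const.indicator measurableSet_Iic) hc1 a ρ F ha hρ.le hF hFb n
    X hHC
  have ha2 : 0 < a / 2 := by linarith
  have t1 : ∫ s in Ioi (a / 2), (s ^ 2)⁻¹ = 2 / a := by
    have h1 := tail_int 1 0 0 (a / 2) ha2 (fun s hs => by
      have hs0 : 0 < s := ha2.trans hs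
      have : 0 < (s ^ 2)⁻¹ := by positivity
      linarith)
    simp only [one_mul, zero_mul, sub_zero, add_zero, zero_div] at h1
    rw [h1]
    field_simp
  have t2 : IntegrableOn (fun s : ℝ => (s ^ 2)⁻¹) (Ioi (a / 2)) := by
    by_contra h
    rw [integral_undef h] at t1
    have : 0 < 2 / a := by positivity
    linarith
  have t3 : ∫ s in Ioi (a / 2), c1 r s * (s ^ 2)⁻¹ ≤ 2 / a := by
    rw [← t1]
    refine integral_mono_of_nonneg (Eventually.of_forall fun s => ?_) t2
      (Eventually.of_forall fun s => ?_)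
    · exact mul_nonneg (hc1 s).1 (by positivity)
    · exact mul_le_of_le_one_left (by positivity) (hc1 s).2
  have t4 : ∫ s in Ioc 0 (a / 2), c1 r s * s = a ^ 2 / 8 := by
    have h1 : ∀ s ∈ Ioc 0 (a / 2), c1 r s * s = s := by
      intro s hs
      unfold c1
      have hs' : s ∈ Iic (2 * r) := by
        have := hs.2
        simp only [mem_Iic]
        linarith
      rw [indicator_of_mem hs', one_mul]
    rw [setIntegral_congr_fun measurableSet_Ioc h1, ← intervalIntegral.integral_of_le ha2.le,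
      integral_id]
    ring
  rw [t4] at hpd
  have hpd2 : -(n : ℝ) * C0 a ρ ≤ EnK K1 F X := by
    refine le_trans ?_ hpd
    have hn : (0 : ℝ) ≤ n := Nat.cast_nonneg n
    have h1 : 2 / 3 * (∫ s in Ioi (a / 2), c1 r s * (s ^ 2)⁻¹) + ρ * (16 * π / 9) * (a ^ 2 / 8) ≤
        C0 a ρ := by
      have h2 : C0 a ρ = 2 / 3 * (2 / a) + ρ * (16 * π / 9) * (a ^ 2 / 8) := by
        unfold C0
        field_simp
        ring
      rw [h2]
      linarith
    nlinarith
  -- the large balls
  have h5 := pos_K2 hL (ρ := ρ) hXB hr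
  have h6 : K2 r 0 = 2 / (3 * r) := by
    unfold K2
    simp
  rw [e4, h6]
  have h7 : (n : ℝ) * (1 / (3 * r)) ≤ n * (1 / (3 * a)) := by
    have hn : (0 : ℝ) ≤ n := Nat.cast_nonneg n
    gcongr
  have h8 : ((n : ℝ) - ρ * vb r) ^ 2 / (24 * r) = 1 / 2 * (((n : ℝ) - ρ * vb r) ^ 2 / (12 * r)) := by
    field_simp
    ring
  have h9 : (n : ℝ) * (2 / (3 * r)) = 2 * (n * (1 / (3 * r))) := by ring
  rw [h8, h9]
  linarith

end

end Pool.Agent.JEL
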