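import Mathlib

/-!
# JEL: thermodynamic limit of jellium with hard cores (MP_325d2c_mp)

Definitions.  `E` is Euclidean 3-space.
-/

open MeasureTheory Set Filter Topology

namespace Pool.Agent.JEL

/-- Euclidean 3-space -/
abbrev E := EuclideanSpace ℝ (Fin 3)

/-- admissible charge densities: measurable, bounded, with bounded support -/
structure Adm (F : E → ℝ) : Prop where
  meas : Measurable F
  bdd : ∃ b : ℝ, ∀ x, |F x| ≤ b
  supp : ∃ R : ℝ, ∀ x, R < ‖x‖ → F x = 0

/-- Coulomb potential of a charge density -/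
noncomputable def pot (F : E → ℝ) (x : E) : ℝ := ∫ y, F y * ‖x - y‖⁻¹

/-- Coulomb form `∬ F(x) G(y) / |x-y|` -/
noncomputable def Dfm (F G : E → ℝ) : ℝ := ∫ x, F x * pot G x

/-- Coulomb energy of pairs of points -/
noncomputable def pairE {ι : Type} [Fintype ι] [DecidableEq ι] (X : ι → E) : ℝ :=
  (1 / 2) * ∑ i, ∑ j ∈ Finset.univ.erase i, ‖X i - X j‖⁻¹

/-- energy of unit point charges `X i` together with the charge density `F` -/
noncomputable def En (F : E → ℝ) {ι : Type} [Fintype ι] [DecidableEq ι] (X : ι → E) : ℝ :=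
  pairE X + ∑ i, pot F (X i) + (1 / 2) * Dfm F F

/-- hard core condition -/
def HC (a : ℝ) {ι : Type} (X : ι → E) : Prop := ∀ i j, i ≠ j → a ≤ ‖X i - X j‖

/-- hard core configurations of `n` labelled points of `D` -/
def conf (a : ℝ) (D : Set E) (n : ℕ) : Set (Fin n → E) := {X | HC a X ∧ ∀ i, X i ∈ D}

/-- the background -/
noncomputable def bg (ρ : ℝ) (Λ : Set E) : E → ℝ := Λ.indicator (fun _ => -ρ)

/-- partition function of `n` hard core points in `D`, fixed charge density `F` -/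
noncomputable def ZF (a β : ℝ) (F : E → ℝ) (D : Set E) (n : ℕ) : ℝ :=
  (n.factorial : ℝ)⁻¹ * ∫ X in conf a D n, Real.exp (-β * En F X)

/-- partition function of jellium with hard cores (not necessarily neutral) -/
noncomputable def Z (a β ρ : ℝ) (Λ : Set E) (n : ℕ) : ℝ := ZF a β (bg ρ Λ) Λ n

/-- sum over all particle numbers -/
noncomputable def Xi (a β ρ : ℝ) (Λ : Set E) : ℝ := ∑' n, Z a β ρ Λ n

/-- bounded measurable set -/
def BM (D : Set E) : Prop := MeasurableSet D ∧ Bornology.IsBounded D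

/-- closed ball -/
abbrev cB (z : E) (r : ℝ) : Set E := Metric.closedBall z r

/-- volume of a ball of radius `r` -/
noncomputable def vb (r : ℝ) : ℝ := 4 * Real.pi / 3 * r ^ 3

/-- closed shell `r₁ ≤ |x - z| ≤ r₂` -/
def shell (z : E) (r₁ r₂ : ℝ) : Set E := {x | r₁ ≤ ‖x - z‖ ∧ ‖x - z‖ ≤ r₂}

/-- uniform probability density of the shell `r - 1 ≤ |x - z| ≤ r` -/
noncomputable def sh (z : E) (r : ℝ) : E → ℝ :=
  (shell z (r - 1) r).indicator (fun _ => (vb r - vb (r - 1))⁻¹)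

/-! ### kernels -/

/-- volume of the intersection of two balls of radius `s` with centres at distance `t` -/
noncomputable def lens (s t : ℝ) : ℝ :=
  if t ≤ 2 * s then 4 * Real.pi / 3 * s ^ 3 - Real.pi * s ^ 2 * t + Real.pi * t ^ 3 / 12 else 0

/-- the kernel `∫_0^∞ c(s) lens(s,t) / (π s^5) ds`; for `c = 1` it is `1 / t` -/
noncomputable def Rk (c : ℝ → ℝ) (t : ℝ) : ℝ :=
  ∫ s in Ioi (0:ℝ), c s * ((Real.pi * s ^ 5)⁻¹ * lens s t)

/-- energy with a general pair kernel -/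
noncomputable def EnK (K : ℝ → ℝ) (F : E → ℝ) {ι : Type} [Fintype ι] [DecidableEq ι]
    (X : ι → E) : ℝ :=
  (1 / 2) * (∑ i, ∑ j ∈ Finset.univ.erase i, K ‖X i - X j‖)
    + (∑ i, ∫ y, F y * K ‖X i - y‖)
    + (1 / 2) * (∫ x, F x * ∫ y, F y * K ‖x - y‖)

/-- local kernel of a sliding ball of radius `r` -/
noncomputable def hb (r t : ℝ) : ℝ := lens r t / (t * vb r)

/-- potential of a ball of radius `R` with unit density, at distance `t` from its centre -/
noncomputable def nt (R t : ℝ) : ℝ :=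
  if t ≤ R then 2 * Real.pi * R ^ 2 - 2 * Real.pi / 3 * t ^ 2 else vb R / t

/-! ### packings -/

/-- vector with given coordinates -/
def toE (f : Fin 3 → ℝ) : E := WithLp.toLp 2 f

/-- unit cube of offsets -/
def cube : Set (Fin 3 → ℝ) := Set.pi univ (fun _ => Ico (0:ℝ) 1)

/-- finitely many balls in the unit cube, with room `γ` around each of them -/
structure Pack (m : ℕ) (c : Fin m → E) (q : Fin m → ℝ) (γ : ℝ) : Prop where
  hm : 0 < m
  hγ : 0 < γ
  hq : ∀ i, 0 < q i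
  inside : ∀ i, ∀ j : Fin 3, q i + γ ≤ c i j ∧ c i j ≤ 1 - (q i + γ)
  sep : ∀ i i', i ≠ i' → q i + q i' + 2 * γ ≤ ‖c i - c i'‖

/-- covered volume fraction -/
noncomputable def frac {m : ℕ} (q : Fin m → ℝ) : ℝ := ∑ i, vb (q i)

/-- centre of the ball `i` in the cell `k` of the packing dilated by `l` with offset `θ` -/
noncomputable def ctr {m : ℕ} (c : Fin m → E) (l : ℝ) (θ : Fin 3 → ℝ) (k : Fin 3 → ℤ)
    (i : Fin m) : E := l • (toE (fun j => (k j : ℝ) + θ j) + c i)

/-- cell `k` -/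
def cell (l : ℝ) (θ : Fin 3 → ℝ) (k : Fin 3 → ℤ) : Set E :=
  {x | ∀ j, l * ((k j : ℝ) + θ j) ≤ x j ∧ x j < l * ((k j : ℝ) + θ j + 1)}

/-- box of indices -/
noncomputable def kbox (n : ℕ) : Finset (Fin 3 → ℤ) := Fintype.piFinset (fun _ => Finset.Icc (-(n:ℤ)) n)

/-- energy of the points of `X` in `B` and of the background of `Λ ∩ B` -/
noncomputable def Uloc (ρ : ℝ) (Λ B : Set E) {ι : Type} [Fintype ι] [DecidableEq ι]
    (X : ι → E) : ℝ :=
  (1 / 2) * ∑ i, ∑ j ∈ Finset.univ.erase i,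
      B.indicator 1 (X i) * B.indicator 1 (X j) * ‖X i - X j‖⁻¹
    + ∑ i, B.indicator 1 (X i) * pot (bg ρ (Λ ∩ B)) (X i)
    + (1 / 2) * Dfm (bg ρ (Λ ∩ B)) (bg ρ (Λ ∩ B))

/-- sum of the local energies over the balls of the packing -/
noncomputable def Gsum (ρ : ℝ) (Λ : Set E) {m : ℕ} (c : Fin m → E) (q : Fin m → ℝ) (n₀ : ℕ)
    (l : ℝ) (θ : Fin 3 → ℝ) {ι : Type} [Fintype ι] [DecidableEq ι] (X : ι → E) : ℝ :=
  ∑ k ∈ kbox n₀, ∑ i, Uloc ρ Λ (cB (ctr c l θ k i) (l * q i)) X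

/-- free energy functional of the packing -/
noncomputable def Sl (a β ρ : ℝ) {m : ℕ} (q : Fin m → ℝ) (l : ℝ) : ℝ :=
  (l ^ 3)⁻¹ * ∑ i, Real.log (Xi a β ρ (cB 0 (l * q i)))

/-- boundary zone -/
noncomputable def zone (R : ℝ) (Λ : Set E) : ℝ := volume.real (Metric.cthickening R (frontier Λ))

/-! ### random point processes -/

/-- A hard core point process with intensity exactly `κ`, on a probability space `(Ω, P)`:
finitely many random points `y i`, the point `i` being present on the event `R i`. -/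
structure IsProc (a D₀ v : ℝ) (D : Set E) (κ : E → ℝ) {Ω : Type} [MeasurableSpace Ω]
    (P : Measure Ω) {I : Type} [Fintype I] [DecidableEq I] (y : I → Ω → E) (R : I → Set Ω) :
    Prop where
  meas_y : ∀ i, Measurable (y i)
  meas_R : ∀ i, MeasurableSet (R i)
  hc : ∀ i j, i ≠ j → ∀ ω, ω ∈ R i → ω ∈ R j → a ≤ ‖y i ω - y j ω‖
  supp : ∀ i ω, ω ∈ R i → y i ω ∈ D
  /-- intensity -/
  int1 : ∀ f : E → ENNReal, Measurable f →
    ∑ i, ∫⁻ ω in R i, f (y i ω) ∂P = ∫⁻ x, ENNReal.ofReal (κ x) * f x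
  /-- finite range: far pairs are at most as frequent as for independent points -/
  int2 : ∀ f : E → E → ENNReal, Measurable (Function.uncurry f) →
    ∑ i, ∑ j ∈ Finset.univ.erase i,
        ∫⁻ ω in R i ∩ R j ∩ {ω | D₀ < ‖y i ω - y j ω‖}, f (y i ω) (y j ω) ∂P
      ≤ ∫⁻ x, ∫⁻ x', ENNReal.ofReal (κ x) * ENNReal.ofReal (κ x') * f x x'
  /-- the law of the configuration has density at most `v ^ n` -/
  dens : ∀ (n : ℕ) (G : Set (Fin n → E)), MeasurableSet G →
    (∀ (σ : Equiv.Perm (Fin n)) (X : Fin n → E), X ∈ G → X ∘ σ ∈ G) →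
    P {ω | ∃ e : Fin n → I, Function.Injective e ∧ (∀ i, ω ∈ R i ↔ i ∈ Set.range e) ∧
        (fun j => y (e j) ω) ∈ G}
      ≤ ENNReal.ofReal (v ^ n / (n.factorial : ℝ)) * volume G

/-! ### the concrete process -/

/-- germs: the points of the cubic grid of mesh `L` -/
def gc (L : ℝ) (u : Fin 3 → ℤ) : E := L • toE (fun j => (u j : ℝ))

/-- `x` belongs to the region of the germ `v`; germs are ordered by `Encodable.encode`, the germ
`u` occupies a ball of radius `s u`, with a collar of width `a` kept free -/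
def good (L a : ℝ) (V : Finset (Fin 3 → ℤ)) (v : V) (s : V → ℝ) (x : E) : Prop :=
  ‖x - gc L v‖ ≤ s v ∧ ‖x - gc L v‖ ≤ 2 * L ∧
    ∀ u : V, Encodable.encode (u : Fin 3 → ℤ) < Encodable.encode (v : Fin 3 → ℤ) →
      ‖x - gc L u‖ ≤ 3 * L → s u + a < ‖x - gc L u‖

/-- law of the radii: independent, uniform on `[L, 2L]` -/
noncomputable def lawS (L : ℝ) (V : Finset (Fin 3 → ℤ)) : Measure (V → ℝ) :=
  Measure.pi (fun _ => ENNReal.ofReal L⁻¹ • (volume.restrict (Icc L (2 * L))))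

/-- face centered cubic lattice with minimal distance `a'` -/
noncomputable def fcc (a' : ℝ) (z : Fin 3 → ℝ) : E :=
  (a' / Real.sqrt 2) • toE ![z 1 + z 2, z 0 + z 2, z 0 + z 1]

/-- sample space: radii, shifts, wiggles, thinning variables -/
abbrev Sam (V J : Finset (Fin 3 → ℤ)) : Type :=
  ((V → ℝ) × (V → Fin 3 → ℝ)) × ((V × J → E) × (V × J → ℝ))

/-- its law (`δ` = size of the wiggles) -/
noncomputable def lawP (L δ : ℝ) (V J : Finset (Fin 3 → ℤ)) : Measure (Sam V J) :=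
  ((lawS L V).prod (Measure.pi (fun _ => volume.restrict cube))).prod
    ((Measure.pi (fun _ => (volume (cB (0:E) δ))⁻¹ • volume.restrict (cB (0:E) δ))).prod
      (Measure.pi (fun _ => volume.restrict (Icc (0:ℝ) 1))))

/-- lattice site -/
noncomputable def site (L a' : ℝ) {V J : Finset (Fin 3 → ℤ)} (i : V × J)
    (u : V → Fin 3 → ℝ) : E := gc L i.1 + fcc a' (fun j => u i.1 j + ((i.2 : Fin 3 → ℤ) j : ℝ))

/-- candidate point -/
noncomputable def pY (L a' : ℝ) {V J : Finset (Fin 3 → ℤ)} (i : V × J) (ω : Sam V J) : E :=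
  site L a' i ω.1.2 + ω.2.1 i

/-- intensity of the process before thinning -/
noncomputable def pint (L a a' : ℝ) (V : Finset (Fin 3 → ℤ)) (x : E) : ℝ :=
  Real.sqrt 2 / a' ^ 3 * ∑ v : V, (lawS L V).real {s | good L a V v s x}

/-- the candidate `i` is retained -/
def pR (L a a' : ℝ) {V J : Finset (Fin 3 → ℤ)} (D : Set E) (κ : E → ℝ) (i : V × J) :
    Set (Sam V J) :=
  {ω | pY L a' i ω ∈ D ∧ ‖ω.2.1 i‖ ≤ (a' - a) / 2 ∧ good L a V i.1 ω.1.1 (pY L a' i ω) ∧
    ω.2.2 i * pint L a a' V (pY L a' i ω) ≤ κ (pY L a' i ω)}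

/-- radial neutral charge around `z`: surface charge `Q` in the ball, background `-ρ` in the shell
of width `w`, particles with density `κ` beyond the corridor of width `a` -/
noncomputable def nuk (ρ κ Q : ℝ) (z : E) (r a w : ℝ) : E → ℝ := fun x =>
  Q * sh z r x - ρ * {x | r < ‖x - z‖ ∧ ‖x - z‖ ≤ r + w}.indicator (1 : E → ℝ) x
    + κ * {x | r + a < ‖x - z‖ ∧ ‖x - z‖ ≤ r + w}.indicator (1 : E → ℝ) x

end Pool.Agent.JEL
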