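import Pool.Agent.JEL.Stmts

/-! JEL, module Del: random deletion of k points. -/

open MeasureTheory Set Filter Topology

namespace Pool.Agent.JEL

namespace Del_

/-- splitting of a configuration -/
def spl (N k : ℕ) (X : Fin (N + k) → E) : (Fin N → E) × (Fin k → E) :=
  (fun i => X (Fin.castAdd k i), fun j => X (Fin.natAdd N j))

theorem spl_mp (N k : ℕ) : MeasurePreserving (spl N k) volume volume := by
  have h1 := (volume_measurePreserving_piCongrLeft (fun _ : Fin (N + k) => E)
    (finSumFinEquiv (m := N) (n := k))).symm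
  have h2 := volume_measurePreserving_sumPiEquivProdPi (fun _ : Fin N ⊕ Fin k => E)
  exact h2.comp h1

theorem perm_mp {n : ℕ} (σ : Equiv.Perm (Fin n)) :
    MeasurePreserving (fun X : Fin n → E => X ∘ σ) volume volume := by
  have h1 := volume_measurePreserving_piCongrLeft (fun _ : Fin n => E) σ.symm
  have h2 : (fun X : Fin n → E => X ∘ σ) =
      ⇑(MeasurableEquiv.piCongrLeft (fun _ : Fin n => E) σ.symm) := by
    funext X i
    have h3 := Equiv.piCongrLeft_apply_apply (fun _ : Fin n => E) σ.symm X (σ i)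
    simp only [Equiv.symm_apply_apply] at h3
    exact h3.symm
  rw [h2]
  exact h1

theorem sum_erase_perm {n : ℕ} (f : Fin n → Fin n → ℝ) (σ : Equiv.Perm (Fin n)) :
    ∑ p, ∑ q ∈ Finset.univ.erase p, f (σ p) (σ q) = ∑ p, ∑ q ∈ Finset.univ.erase p, f p q := by
  rw [← Equiv.sum_comp σ (fun p => ∑ q ∈ Finset.univ.erase p, f p q)]
  refine Finset.sum_congr rfl fun p _ => ?_
  refine Finset.sum_equiv σ ?_ ?_
  · intro q
    simp
  · intro q _
    rfl

theorem exists_perm {n : ℕ} (p q p' q' : Fin n) (h : p ≠ q) (h' : p' ≠ q') :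
    ∃ τ : Equiv.Perm (Fin n), τ p' = p ∧ τ q' = q := by
  have h1 : Equiv.swap p' p p' = p := Equiv.swap_apply_left p' p
  have h2 : Equiv.swap p' p q' ≠ p := by
    intro h3
    exact h' ((Equiv.swap p' p).injective (h1.trans h3.symm))
  refine ⟨(Equiv.swap p' p).trans (Equiv.swap (Equiv.swap p' p q') q), ?_, ?_⟩
  · rw [Equiv.trans_apply, h1]
    exact Equiv.swap_apply_of_ne_of_ne h2.symm h
  · rw [Equiv.trans_apply]
    exact Equiv.swap_apply_left _ _

theorem sum_perm_pair {n : ℕ} (f : Fin n → Fin n → ℝ) (p q : Fin n) (h : p ≠ q) :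
    ((n : ℝ) * ((n : ℝ) - 1)) * ∑ σ : Equiv.Perm (Fin n), f (σ p) (σ q) =
      (n.factorial : ℝ) * ∑ p, ∑ q ∈ Finset.univ.erase p, f p q := by
  have h1 : ∀ p' q' : Fin n, p' ≠ q' → ∑ σ : Equiv.Perm (Fin n), f (σ p') (σ q') =
      ∑ σ : Equiv.Perm (Fin n), f (σ p) (σ q) := by
    intro p' q' h'
    obtain ⟨τ, t1, t2⟩ := exists_perm p q p' q' h h'
    rw [← Equiv.sum_comp (Equiv.mulRight τ)
      (fun σ : Equiv.Perm (Fin n) => f (σ p') (σ q'))]
    refine Finset.sum_congr rfl fun σ _ => ?_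
    simp only [Equiv.coe_mulRight, Equiv.Perm.mul_apply, t1, t2]
  have h2 : ∑ p', ∑ q' ∈ Finset.univ.erase p', ∑ σ : Equiv.Perm (Fin n), f (σ p') (σ q') =
      ((n : ℝ) * ((n : ℝ) - 1)) * ∑ σ : Equiv.Perm (Fin n), f (σ p) (σ q) := by
    have hn : 1 ≤ n := by
      have := p.2
      omega
    have h3 : ∀ p' : Fin n, ∑ q' ∈ Finset.univ.erase p', ∑ σ : Equiv.Perm (Fin n),
        f (σ p') (σ q') = ((n : ℝ) - 1) * ∑ σ : Equiv.Perm (Fin n), f (σ p) (σ q) := by
      intro p'
      rw [Finset.sum_congr rfl (fun q' hq' => h1 p' q' (Finset.ne_of_mem_erase hq').symm),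
        Finset.sum_const, Finset.card_erase_of_mem (Finset.mem_univ _), Finset.card_univ,
        Fintype.card_fin, nsmul_eq_mul, Nat.cast_sub hn, Nat.cast_one]
    rw [Finset.sum_congr rfl (fun p' _ => h3 p'), Finset.sum_const, Finset.card_univ,
      Fintype.card_fin, nsmul_eq_mul, mul_assoc]
  rw [← h2]
  have h4 : ∑ p', ∑ q' ∈ Finset.univ.erase p', ∑ σ : Equiv.Perm (Fin n), f (σ p') (σ q') =
      ∑ σ : Equiv.Perm (Fin n), ∑ p', ∑ q' ∈ Finset.univ.erase p', f (σ p') (σ q') := by
    rw [Finset.sum_comm]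
    refine Finset.sum_congr rfl fun p' _ => ?_
    rw [Finset.sum_comm]
  rw [h4, Finset.sum_congr rfl (fun σ _ => sum_erase_perm f σ), Finset.sum_const,
    Finset.card_univ, Fintype.card_perm, Fintype.card_fin, nsmul_eq_mul]

theorem sum_perm_one {n : ℕ} (g : Fin n → ℝ) (p : Fin n) :
    (n : ℝ) * ∑ σ : Equiv.Perm (Fin n), g (σ p) = (n.factorial : ℝ) * ∑ p, g p := by
  have h1 : ∀ p' : Fin n, ∑ σ : Equiv.Perm (Fin n), g (σ p') =
      ∑ σ : Equiv.Perm (Fin n), g (σ p) := by
    intro p'
    rw [← Equiv.sum_comp (Equiv.mulRight (Equiv.swap p' p))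
      (fun σ : Equiv.Perm (Fin n) => g (σ p'))]
    refine Finset.sum_congr rfl fun σ _ => ?_
    simp only [Equiv.coe_mulRight, Equiv.Perm.mul_apply, Equiv.swap_apply_left]
  have h2 : ∑ p', ∑ σ : Equiv.Perm (Fin n), g (σ p') =
      (n : ℝ) * ∑ σ : Equiv.Perm (Fin n), g (σ p) := by
    rw [Finset.sum_congr rfl (fun p' _ => h1 p'), Finset.sum_const, Finset.card_univ,
      Fintype.card_fin, nsmul_eq_mul]
  rw [← h2, Finset.sum_comm,
    Finset.sum_congr rfl (fun σ _ => Equiv.sum_comp σ g), Finset.sum_const,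
    Finset.card_univ, Fintype.card_perm, Fintype.card_fin, nsmul_eq_mul]

theorem arith (N k : ℕ) (hN : 0 < N) (hk : 0 < k) (pe P c E₁ A₁ : ℝ) (hc : 0 ≤ c)
    (hE : pe + P + c ≤ E₁) (hA : P + 2 * c ≤ A₁) (hE₁ : 0 ≤ E₁) (hA₁ : 0 ≤ A₁) :
    (N : ℝ) * ((N : ℝ) - 1) / (((N + k : ℕ) : ℝ) * (((N + k : ℕ) : ℝ) - 1)) * pe
      + (N : ℝ) / ((N + k : ℕ) : ℝ) * P + c ≤
      E₁ + (k : ℝ) / N * A₁ + ((k : ℝ) / N) ^ 2 * c := by
  have hx : (1 : ℝ) ≤ N := by exact_mod_cast hN
  have hy : (1 : ℝ) ≤ k := by exact_mod_cast hk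
  rw [Nat.cast_add]
  generalize (N : ℝ) = x at *
  generalize (k : ℝ) = y at *
  have h1 : 0 < x + y := by linarith
  have h2 : 0 < x + y - 1 := by linarith
  have hx0 : 0 < x := by linarith
  set α := x * (x - 1) / ((x + y) * (x + y - 1)) with hα
  set γ := x / (x + y) with hγ
  have a0 : 0 ≤ α := by
    apply div_nonneg
    · nlinarith
    · positivity
  have a1 : α ≤ 1 := by
    rw [hα, div_le_one (by positivity)]
    nlinarith
  have g0 : α ≤ γ := by
    rw [hα, hγ, div_le_div_iff₀ (by positivity) h1]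
    have : x * (x - 1) * (x + y) ≤ x * (x + y - 1) * (x + y) := by
      apply mul_le_mul_of_nonneg_right _ h1.le
      nlinarith
    nlinarith
  have g1 : γ - α ≤ y / x := by
    have e : γ - α = x * y / ((x + y) * (x + y - 1)) := by
      rw [hα, hγ]
      field_simp
      ring
    rw [e, div_le_div_iff₀ (by positivity) hx0]
    have : x * x ≤ (x + y) * (x + y - 1) := by nlinarith
    nlinarith
  have g2 : 1 + α - 2 * γ ≤ (y / x) ^ 2 := by
    have e1 : α ≤ γ ^ 2 := by
      rw [hα, hγ, div_pow, div_le_div_iff₀ (by positivity) (by positivity)]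
      have : (x - 1) * (x + y) ≤ x * (x + y - 1) := by nlinarith
      have h3 : 0 ≤ x * (x + y) := by positivity
      nlinarith
    have e2 : 1 - γ = y / (x + y) := by
      rw [hγ]
      field_simp
      ring
    have e3 : y / (x + y) ≤ y / x := by
      apply div_le_div_of_nonneg_left (by linarith) hx0 (by linarith)
    have e4 : 0 ≤ y / (x + y) := by positivity
    have e5 : (1 - γ) ^ 2 ≤ (y / x) ^ 2 := by
      rw [e2]
      exact pow_le_pow_left₀ e4 e3 2
    nlinarith
  have e : α * pe + γ * P + c = α * (pe + P + c) + (γ - α) * (P + 2 * c)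
      + (1 + α - 2 * γ) * c := by ring
  rw [e]
  have t1 : α * (pe + P + c) ≤ E₁ := by
    calc α * (pe + P + c) ≤ α * E₁ := mul_le_mul_of_nonneg_left hE a0
      _ ≤ 1 * E₁ := mul_le_mul_of_nonneg_right a1 hE₁
      _ = E₁ := one_mul _
  have t2 : (γ - α) * (P + 2 * c) ≤ y / x * A₁ := by
    calc (γ - α) * (P + 2 * c) ≤ (γ - α) * A₁ :=
          mul_le_mul_of_nonneg_left hA (by linarith)
      _ ≤ y / x * A₁ := mul_le_mul_of_nonneg_right g1 hA₁
  have t3 : (1 + α - 2 * γ) * c ≤ (y / x) ^ 2 * c := mul_le_mul_of_nonneg_right g2 hc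
  linarith

/-- mean of the energy of N points chosen at random -/
theorem mean_le (N k : ℕ) (hN : 0 < N) (F : E → ℝ) (X : Fin (N + k) → E) (E₁ A₁ : ℝ)
    (hc : 0 ≤ Dfm F F) (hE : En F X ≤ E₁) (hA : (∑ i, pot F (X i)) + Dfm F F ≤ A₁)
    (hE₁ : 0 ≤ E₁) (hA₁ : 0 ≤ A₁) :
    ∑ σ : Equiv.Perm (Fin (N + k)), En F (fun i : Fin N => X (σ (Fin.castAdd k i))) ≤
      ((N + k).factorial : ℝ) *
        (E₁ + (k : ℝ) / N * A₁ + ((k : ℝ) / N) ^ 2 * (Dfm F F / 2)) := by
  have hfac : (0 : ℝ) < ((N + k).factorial : ℝ) := by exact_mod_cast Nat.factorial_pos _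
  rcases Nat.eq_zero_or_pos k with hk | hk
  · subst hk
    have h1 : ∀ σ : Equiv.Perm (Fin (N + 0)),
        En F (fun i : Fin N => X (σ (Fin.castAdd 0 i))) = En F X := by
      intro σ
      have h2 : (fun i : Fin N => X (σ (Fin.castAdd 0 i))) = fun i : Fin (N + 0) => X (σ i) := rfl
      rw [h2]
      unfold En pairE
      congr 2
      · congr 1
        exact sum_erase_perm (fun p q => ‖X p - X q‖⁻¹) σ
      · exact Equiv.sum_comp σ (fun p => pot F (X p))
    rw [Finset.sum_congr rfl (fun σ _ => h1 σ), Finset.sum_const, Finset.card_univ,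
      Fintype.card_perm, Fintype.card_fin, nsmul_eq_mul]
    apply mul_le_mul_of_nonneg_left _ hfac.le
    simp only [Nat.cast_zero, zero_div, zero_mul, ne_eq, OfNat.ofNat_ne_zero, not_false_eq_true,
      zero_pow, add_zero]
    exact hE
  · have hn1 : (0 : ℝ) < ((N + k : ℕ) : ℝ) := by
      have : 0 < N + k := by omega
      exact_mod_cast this
    have hn2 : (0 : ℝ) < ((N + k : ℕ) : ℝ) - 1 := by
      have : 2 ≤ N + k := by omega
      have h3 : (2 : ℝ) ≤ ((N + k : ℕ) : ℝ) := by exact_mod_cast this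
      linarith
    set n : ℝ := ((N + k : ℕ) : ℝ) with hn
    set T : ℝ := ∑ p, ∑ q ∈ Finset.univ.erase p, ‖X p - X q‖⁻¹ with hT
    set P : ℝ := ∑ p, pot F (X p) with hP
    have hpe : pairE X = T / 2 := by
      unfold pairE
      rw [hT]
      ring
    have s1 : ∑ σ : Equiv.Perm (Fin (N + k)), pairE (fun i : Fin N => X (σ (Fin.castAdd k i))) =
        ((N + k).factorial : ℝ) * ((N : ℝ) * ((N : ℝ) - 1) / (n * (n - 1)) * (T / 2)) := by
      unfold pairE
      rw [← Finset.mul_sum, Finset.sum_comm]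
      have h1 : ∀ i : Fin N, ∑ σ : Equiv.Perm (Fin (N + k)), ∑ j ∈ Finset.univ.erase i,
          ‖X (σ (Fin.castAdd k i)) - X (σ (Fin.castAdd k j))‖⁻¹ =
          ((N : ℝ) - 1) * (((N + k).factorial : ℝ) * T / (n * (n - 1))) := by
        intro i
        rw [Finset.sum_comm]
        have h2 : ∀ j ∈ Finset.univ.erase i, ∑ σ : Equiv.Perm (Fin (N + k)),
            ‖X (σ (Fin.castAdd k i)) - X (σ (Fin.castAdd k j))‖⁻¹ =
            ((N + k).factorial : ℝ) * T / (n * (n - 1)) := by
          intro j hj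
          have h3 : Fin.castAdd k i ≠ Fin.castAdd k j := by
            intro h4
            exact (Finset.ne_of_mem_erase hj) (Fin.castAdd_injective N k h4).symm
          have h4 := sum_perm_pair (fun p q => ‖X p - X q‖⁻¹) _ _ h3
          rw [eq_div_iff (by positivity), mul_comm]
          exact h4
        rw [Finset.sum_congr rfl h2, Finset.sum_const, Finset.card_erase_of_mem
          (Finset.mem_univ _), Finset.card_univ, Fintype.card_fin, nsmul_eq_mul,
          Nat.cast_sub hN, Nat.cast_one]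
      rw [Finset.sum_congr rfl (fun i _ => h1 i), Finset.sum_const, Finset.card_univ,
        Fintype.card_fin, nsmul_eq_mul]
      field_simp
    have s2 : ∑ σ : Equiv.Perm (Fin (N + k)), ∑ i : Fin N, pot F (X (σ (Fin.castAdd k i))) =
        ((N + k).factorial : ℝ) * ((N : ℝ) / n * P) := by
      rw [Finset.sum_comm]
      have h2 : ∀ i : Fin N, ∑ σ : Equiv.Perm (Fin (N + k)), pot F (X (σ (Fin.castAdd k i))) =
          ((N + k).factorial : ℝ) * P / n := by
        intro i
        have h4 := sum_perm_one (fun p => pot F (X p)) (Fin.castAdd k i)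
        rw [eq_div_iff hn1.ne', mul_comm]
        exact h4
      rw [Finset.sum_congr rfl (fun i _ => h2 i), Finset.sum_const, Finset.card_univ,
        Fintype.card_fin, nsmul_eq_mul]
      field_simp
    have s3 : ∑ σ : Equiv.Perm (Fin (N + k)), En F (fun i : Fin N => X (σ (Fin.castAdd k i))) =
        ((N + k).factorial : ℝ) * ((N : ℝ) * ((N : ℝ) - 1) / (n * (n - 1)) * (T / 2)
          + (N : ℝ) / n * P + Dfm F F / 2) := by
      unfold En
      rw [Finset.sum_add_distrib, Finset.sum_add_distrib, s1, s2, Finset.sum_const,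
        Finset.card_univ, Fintype.card_perm, Fintype.card_fin, nsmul_eq_mul]
      ring
    rw [s3]
    apply mul_le_mul_of_nonneg_left _ hfac.le
    apply arith N k hN hk _ _ _ _ _ (by linarith) _ _ hE₁ hA₁
    · have h5 : En F X = T / 2 + P + Dfm F F / 2 := by
        unfold En
        rw [hpe, hP]
        ring
      rw [← h5]
      exact hE
    · have h6 : P + 2 * (Dfm F F / 2) = P + Dfm F F := by ring
      rw [h6]
      exact hA

/-- Jensen -/
theorem jensen {ι : Type} [Fintype ι] [Nonempty ι] (y : ι → ℝ) (B : ℝ)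
    (h : ∑ i, y i ≤ (Fintype.card ι : ℝ) * B) (β : ℝ) (hβ : 0 < β) :
    (Fintype.card ι : ℝ) * Real.exp (-β * B) ≤ ∑ i, Real.exp (-β * y i) := by
  have h1 : ∀ i, Real.exp (-β * B) * (1 + (-β * y i - -β * B)) ≤ Real.exp (-β * y i) := by
    intro i
    have h2 := Real.add_one_le_exp (-β * y i - -β * B)
    have h3 : Real.exp (-β * y i) = Real.exp (-β * B) * Real.exp (-β * y i - -β * B) := by
      rw [← Real.exp_add]
      congr 1
      ring
    rw [h3]
    exact mul_le_mul_of_nonneg_left (by linarith) (Real.exp_pos _).le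
  have h4 := Finset.sum_le_sum (fun i (_ : i ∈ Finset.univ) => h1 i)
  refine le_trans ?_ h4
  rw [← Finset.mul_sum, Finset.sum_add_distrib, Finset.sum_sub_distrib, ← Finset.mul_sum]
  simp only [Finset.sum_const, Finset.card_univ, nsmul_eq_mul, mul_one]
  have h5 : 0 ≤ -β * ∑ i, y i - (Fintype.card ι : ℝ) * (-β * B) := by nlinarith
  have h6 := mul_nonneg (Real.exp_pos (-β * B)).le h5
  nlinarith

end Del_

open Del_ in
theorem Del_proof (hM : Stmt_Meas) (hS : Stmt_Stab) (hP : Stmt_Pot) : Stmt_Del := by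
  intro a β E₁ A₁ F D N k ha hβ hF hD hN hE₁ hA₁
  set B : ℝ := E₁ + (k : ℝ) / N * A₁ + ((k : ℝ) / N) ^ 2 * (Dfm F F / 2) with hB
  set G := goodC a F D (N + k) E₁ A₁ with hG
  have hEm : ∀ n : ℕ, Measurable (fun X : Fin n → E => En F X) := fun n => hM.1 F n hF
  have hpm : Measurable (pot F) := hP.1 F hF
  have hGm : MeasurableSet G := by
    have h1 := hM.2.1 a D (N + k) hD.1
    have h2 : MeasurableSet {X : Fin (N + k) → E | En F X ≤ E₁} :=
      measurableSet_le (hEm _) measurable_const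
    have h3 : MeasurableSet {X : Fin (N + k) → E | (∑ i, pot F (X i)) + Dfm F F ≤ A₁} := by
      apply measurableSet_le _ measurable_const
      apply Measurable.add _ measurable_const
      exact Finset.measurable_sum _ (fun i _ => hpm.comp (measurable_pi_apply i))
    exact h1.inter (h2.inter h3)
  set g : (Fin (N + k) → E) → ENNReal := fun X =>
    ENNReal.ofReal (Real.exp (-β * En F (fun i : Fin N => X (Fin.castAdd k i)))) with hg
  have hgm : Measurable g := by
    apply ENNReal.measurable_ofReal.comp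
    apply Real.measurable_exp.comp
    apply Measurable.const_mul
    exact (hEm N).comp (measurable_pi_lambda _ (fun i => measurable_pi_apply _))
  set L := ∫⁻ X in G, g X with hL
  have hperm : ∀ σ : Equiv.Perm (Fin (N + k)), ∫⁻ X in G, g (X ∘ σ) = L := by
    intro σ
    have h1 := (perm_mp σ).setLIntegral_comp_preimage hGm hgm
    have h2 : (fun X : Fin (N + k) → E => X ∘ σ) ⁻¹' G = G := by
      ext X
      have e1 : En F (X ∘ σ) = En F X := by
        unfold En pairE
        congr 2
        · congr 1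
          exact sum_erase_perm (fun p q => ‖X p - X q‖⁻¹) σ
        · exact Equiv.sum_comp σ (fun p => pot F (X p))
      have e2 : ∑ i, pot F ((X ∘ σ) i) = ∑ i, pot F (X i) :=
        Equiv.sum_comp σ (fun p => pot F (X p))
      have e3 : X ∘ σ ∈ conf a D (N + k) ↔ X ∈ conf a D (N + k) := by
        constructor
        · rintro ⟨h3, h4⟩
          refine ⟨fun i j hij => ?_, fun i => ?_⟩
          · have h5 := h3 (σ.symm i) (σ.symm j) (fun h => hij (σ.symm.injective h))
            simpa using h5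
          · have h5 := h4 (σ.symm i)
            simpa using h5
        · rintro ⟨h3, h4⟩
          exact ⟨fun i j hij => h3 (σ i) (σ j) (fun h => hij (σ.injective h)),
            fun i => h4 (σ i)⟩
      show (X ∘ σ ∈ conf a D (N + k) ∧ En F (X ∘ σ) ≤ E₁ ∧
        (∑ i, pot F ((X ∘ σ) i)) + Dfm F F ≤ A₁) ↔ _
      rw [e1, e2, e3]
      rfl
    rw [h2] at h1
    exact h1
  have hfac : ((N + k).factorial : ENNReal) ≠ 0 := by
    exact_mod_cast (Nat.factorial_pos (N + k)).ne'
  have low : ENNReal.ofReal (Real.exp (-β * B)) * volume G ≤ L := by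
    have h1 : ((N + k).factorial : ENNReal) * L =
        ∫⁻ X in G, ∑ σ : Equiv.Perm (Fin (N + k)), g (X ∘ σ) := by
      rw [lintegral_finsetSum]
      · rw [Finset.sum_congr rfl (fun σ _ => hperm σ), Finset.sum_const, Finset.card_univ,
          Fintype.card_perm, Fintype.card_fin, nsmul_eq_mul]
      · intro σ _
        exact hgm.comp (perm_mp σ).measurable
    have h2 : ((N + k).factorial : ENNReal) *
        (ENNReal.ofReal (Real.exp (-β * B)) * volume G) ≤ ((N + k).factorial : ENNReal) * L := by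
      rw [h1, ← mul_assoc, ← setLIntegral_const]
      apply setLIntegral_mono' hGm
      intro X hX
      have h3 : ∑ σ : Equiv.Perm (Fin (N + k)), g (X ∘ σ) = ENNReal.ofReal
          (∑ σ : Equiv.Perm (Fin (N + k)),
            Real.exp (-β * En F (fun i : Fin N => X (σ (Fin.castAdd k i))))) := by
        rw [ENNReal.ofReal_sum_of_nonneg (fun σ _ => (Real.exp_pos _).le)]
        rfl
      have h4 : ((N + k).factorial : ENNReal) * ENNReal.ofReal (Real.exp (-β * B)) =
          ENNReal.ofReal (((N + k).factorial : ℝ) * Real.exp (-β * B)) := by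
        rw [ENNReal.ofReal_mul (Nat.cast_nonneg _), ENNReal.ofReal_natCast]
      rw [h3, h4]
      apply ENNReal.ofReal_le_ofReal
      have h5 := mean_le N k hN F X E₁ A₁ (hS.2 F hF) hX.2.1 hX.2.2 hE₁ hA₁
      have h6 : (Fintype.card (Equiv.Perm (Fin (N + k))) : ℝ) = ((N + k).factorial : ℝ) := by
        rw [Fintype.card_perm, Fintype.card_fin]
      have h7 := jensen (fun σ : Equiv.Perm (Fin (N + k)) =>
        En F (fun i : Fin N => X (σ (Fin.castAdd k i)))) B (by rw [h6]; exact h5) β hβ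
      rw [h6] at h7
      exact h7
    exact (ENNReal.mul_le_mul_iff_right hfac (ENNReal.natCast_ne_top _)).1 h2
  -- upper bound
  have hcm := hM.2.1 a D N hD.1
  have hDk : MeasurableSet {x : Fin k → E | ∀ i, x i ∈ D} := by
    have : {x : Fin k → E | ∀ i, x i ∈ D} = Set.pi univ (fun _ => D) := by
      ext x
      simp
    rw [this]
    exact MeasurableSet.univ_pi (fun _ => hD.1)
  have up : L ≤ (∫⁻ X in conf a D N, ENNReal.ofReal (Real.exp (-β * En F X))) *
      volume D ^ k := by
    have h1 : G ⊆ spl N k ⁻¹' (conf a D N ×ˢ {x : Fin k → E | ∀ i, x i ∈ D}) := by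
      intro X hX
      refine ⟨⟨fun i j hij => ?_, fun i => ?_⟩, fun i => ?_⟩
      · exact hX.1.1 _ _ (fun h => hij (Fin.castAdd_injective N k h))
      · exact hX.1.2 _
      · exact hX.1.2 _
    have h2 : L ≤ ∫⁻ X in spl N k ⁻¹' (conf a D N ×ˢ {x : Fin k → E | ∀ i, x i ∈ D}),
        g X := lintegral_mono_set h1
    have hfm : Measurable (fun X : Fin N → E => ENNReal.ofReal (Real.exp (-β * En F X))) := by
      apply ENNReal.measurable_ofReal.comp
      apply Real.measurable_exp.comp
      exact (hEm N).const_mul _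
    have h3 := (spl_mp N k).setLIntegral_comp_preimage (hcm.prod hDk)
      (f := fun p : (Fin N → E) × (Fin k → E) => ENNReal.ofReal (Real.exp (-β * En F p.1)))
      (hfm.comp measurable_fst)
    refine h2.trans ?_
    have h4 : ∫⁻ X in spl N k ⁻¹' (conf a D N ×ˢ {x : Fin k → E | ∀ i, x i ∈ D}), g X =
      ∫⁻ p in (conf a D N ×ˢ {x : Fin k → E | ∀ i, x i ∈ D}),
        ENNReal.ofReal (Real.exp (-β * En F p.1)) := h3
    rw [h4, Measure.volume_eq_prod, ← Measure.prod_restrict]
    have h5 := lintegral_prod_mul (μ := volume.restrict (conf a D N))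
      (ν := volume.restrict {x : Fin k → E | ∀ i, x i ∈ D})
      (f := fun X : Fin N → E => ENNReal.ofReal (Real.exp (-β * En F X)))
      (g := fun _ : Fin k → E => (1 : ENNReal)) hfm.aemeasurable aemeasurable_const
    simp only [mul_one, lintegral_const, Measure.restrict_apply, MeasurableSet.univ,
      univ_inter, one_mul] at h5
    rw [h5]
    apply mul_le_mul_right
    have h6 : {x : Fin k → E | ∀ i, x i ∈ D} = Set.pi univ (fun _ => D) := by
      ext x
      simp
    rw [h6, volume_pi_pi]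
    simp
  have hint := hM.2.2.1 a β F D N ha hβ hF hD
  have hI : ENNReal.ofReal (∫ X in conf a D N, Real.exp (-β * En F X)) =
      ∫⁻ X in conf a D N, ENNReal.ofReal (Real.exp (-β * En F X)) :=
    ofReal_integral_eq_lintegral_ofReal hint
      (Filter.Eventually.of_forall fun X => (Real.exp_pos _).le)
  have hDfin : volume D ≠ ⊤ := hD.2.measure_lt_top.ne
  have hI0 : 0 ≤ ∫ X in conf a D N, Real.exp (-β * En F X) :=
    integral_nonneg fun X => (Real.exp_pos _).le
  have fin := low.trans up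
  rw [← hI] at fin
  have hne : ENNReal.ofReal (∫ X in conf a D N, Real.exp (-β * En F X)) * volume D ^ k ≠ ⊤ :=
    ENNReal.mul_ne_top ENNReal.ofReal_ne_top (ENNReal.pow_ne_top hDfin)
  have fin2 := ENNReal.toReal_mono hne fin
  rw [ENNReal.toReal_mul, ENNReal.toReal_mul, ENNReal.toReal_ofReal (Real.exp_pos _).le,
    ENNReal.toReal_ofReal hI0, ENNReal.toReal_pow] at fin2
  have hz : ZF a β F D N * (N.factorial : ℝ) = ∫ X in conf a D N, Real.exp (-β * En F X) := by
    unfold ZF
    have : (N.factorial : ℝ) ≠ 0 := by exact_mod_cast (Nat.factorial_pos N).ne'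
    field_simp
  rw [hz]
  exact fin2

end Pool.Agent.JEL
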