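import Pool.Agent.JEL.Stmts

/-!
# JEL, module DerZ: convexity in the inverse temperature and mean energies
-/

open MeasureTheory Set Filter Topology ProbabilityTheory

namespace Pool.Agent.JEL

open scoped Real

namespace DerZ_

/-- the background is admissible -/
theorem adm_bg (ρ : ℝ) (Λ : Set E) (h : BM Λ) : Adm (bg ρ Λ) := by
  refine ⟨measurable_const.indicator h.1, ⟨|ρ|, fun x => ?_⟩, ?_⟩
  · unfold bg
    by_cases hx : x ∈ Λ
    · simp [Set.indicator_of_mem hx]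
    · simp [Set.indicator_of_notMem hx]
  · obtain ⟨R, hR⟩ := h.2.subset_closedBall (0 : E)
    refine ⟨R, fun x hx => ?_⟩
    have hx' : x ∉ Λ := by
      intro hmem
      have := hR hmem
      rw [Metric.mem_closedBall, dist_zero_right] at this
      exact absurd this (not_le.mpr hx)
    simp [bg, Set.indicator_of_notMem hx']

/-- the reference measure -/
noncomputable def mu (a : ℝ) (Λ : Set E) (N : ℕ) : Measure (Fin N → E) :=
  volume.restrict (conf a Λ N)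

/-- minus the energy -/
noncomputable def Y (ρ : ℝ) (Λ : Set E) (N : ℕ) (X : Fin N → E) : ℝ := -En (bg ρ Λ) X

theorem mgf_eq (a ρ : ℝ) (Λ : Set E) (N : ℕ) (β : ℝ) :
    mgf (Y ρ Λ N) (mu a Λ N) β = ∫ X in conf a Λ N, Real.exp (-β * En (bg ρ Λ) X) := by
  unfold mgf mu Y
  refine integral_congr_ae (Filter.Eventually.of_forall fun X => ?_)
  show Real.exp (β * -En (bg ρ Λ) X) = Real.exp (-β * En (bg ρ Λ) X)
  congr 1
  ring

theorem Z_eq (a ρ : ℝ) (Λ : Set E) (N : ℕ) (β : ℝ) :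
    Z a β ρ Λ N = ((N.factorial : ℝ)⁻¹) * mgf (Y ρ Λ N) (mu a Λ N) β := by
  rw [mgf_eq]
  rfl

theorem mem_set (hMeas : Stmt_Meas) (a ρ : ℝ) (Λ : Set E) (N : ℕ) (ha : 0 < a) (hΛ : BM Λ)
    (β : ℝ) (hβ : 0 < β) : β ∈ integrableExpSet (Y ρ Λ N) (mu a Λ N) := by
  have h := hMeas.2.2.1 a β (bg ρ Λ) Λ N ha hβ (adm_bg ρ Λ hΛ) hΛ
  have h2 : Integrable (fun X => Real.exp (-β * En (bg ρ Λ) X)) (mu a Λ N) := h
  show Integrable (fun X => Real.exp (β * Y ρ Λ N X)) (mu a Λ N)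
  refine h2.congr (Filter.Eventually.of_forall fun X => ?_)
  show Real.exp (-β * En (bg ρ Λ) X) = Real.exp (β * -En (bg ρ Λ) X)
  congr 1
  ring

theorem mem_int (hMeas : Stmt_Meas) (a ρ : ℝ) (Λ : Set E) (N : ℕ) (ha : 0 < a) (hΛ : BM Λ)
    (β : ℝ) (hβ : 0 < β) : β ∈ interior (integrableExpSet (Y ρ Λ N) (mu a Λ N)) := by
  have h : Ioi (0 : ℝ) ⊆ integrableExpSet (Y ρ Λ N) (mu a Λ N) :=
    fun b hb => mem_set hMeas a ρ Λ N ha hΛ b hb
  exact interior_maximal h isOpen_Ioi hβ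

end DerZ_

open DerZ_ in
theorem DerZ_proof (hMeas : Stmt_Meas) : Stmt_DerZ := by
  intro a ρ Λ N ha hρ hΛ hex
  obtain ⟨β₀, hβ₀, hZ₀⟩ := hex
  have hfac : (0 : ℝ) < (N.factorial : ℝ)⁻¹ := inv_pos.mpr (by exact_mod_cast N.factorial_pos)
  have hμ : mu a Λ N ≠ 0 := by
    intro h
    rw [Z_eq, h] at hZ₀
    simp at hZ₀
  have hpos : ∀ β, 0 < β → 0 < mgf (Y ρ Λ N) (mu a Λ N) β := fun β hβ =>
    mgf_pos' hμ (mem_set hMeas a ρ Λ N ha hΛ β hβ)
  have hlog : ∀ β, 0 < β → Real.log (Z a β ρ Λ N)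
      = Real.log ((N.factorial : ℝ)⁻¹) + cgf (Y ρ Λ N) (mu a Λ N) β := by
    intro β hβ
    rw [Z_eq, Real.log_mul hfac.ne' (hpos β hβ).ne']
    rfl
  have hint : ∀ β, 0 < β → β ∈ interior (integrableExpSet (Y ρ Λ N) (mu a Λ N)) :=
    fun β hβ => mem_int hMeas a ρ Λ N ha hΛ β hβ
  refine ⟨fun β hβ => ?_, ?_, fun β hβ => ?_⟩
  · rw [Z_eq]
    exact mul_pos hfac (hpos β hβ)
  · have hc : ConvexOn ℝ (Ioi 0) (cgf (Y ρ Λ N) (mu a Λ N)) := by
      refine convexOn_of_deriv2_nonneg' (convex_Ioi 0) ?_ ?_ ?_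
      · intro β hβ
        exact (analyticAt_cgf (hint β hβ)).differentiableAt.differentiableWithinAt
      · intro β hβ
        exact (analyticAt_cgf (hint β hβ)).deriv.differentiableAt.differentiableWithinAt
      · intro β hβ
        have h2 := iteratedDeriv_two_cgf_eq_integral (hint β hβ)
        rw [iteratedDeriv_eq_iterate] at h2
        rw [h2]
        refine div_nonneg (integral_nonneg fun X => ?_) (hpos β hβ).le
        exact mul_nonneg (sq_nonneg _) (Real.exp_pos _).le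
    refine ConvexOn.congr (hc.add_const (Real.log ((N.factorial : ℝ)⁻¹))) ?_
    intro β hβ
    show cgf (Y ρ Λ N) (mu a Λ N) β + Real.log ((N.factorial : ℝ)⁻¹) = Real.log (Z a β ρ Λ N)
    rw [hlog β hβ, add_comm]
  · have hd : HasDerivAt (cgf (Y ρ Λ N) (mu a Λ N)) (deriv (cgf (Y ρ Λ N) (mu a Λ N)) β) β :=
      (analyticAt_cgf (hint β hβ)).differentiableAt.hasDerivAt
    have hd2 : HasDerivAt (fun b => Real.log ((N.factorial : ℝ)⁻¹)
        + cgf (Y ρ Λ N) (mu a Λ N) b) (deriv (cgf (Y ρ Λ N) (mu a Λ N)) β) β :=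
      hd.const_add _
    have hev : (fun b => Real.log (Z a b ρ Λ N)) =ᶠ[𝓝 β]
        (fun b => Real.log ((N.factorial : ℝ)⁻¹) + cgf (Y ρ Λ N) (mu a Λ N) b) := by
      filter_upwards [isOpen_Ioi.mem_nhds hβ] with b hb using hlog b hb
    have hd3 := hd2.congr_of_eventuallyEq hev
    have heq : deriv (cgf (Y ρ Λ N) (mu a Λ N)) β
        = -((∫ X in conf a Λ N, En (bg ρ Λ) X * Real.exp (-β * En (bg ρ Λ) X)) /
          ∫ X in conf a Λ N, Real.exp (-β * En (bg ρ Λ) X)) := by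
      rw [deriv_cgf (hint β hβ), mgf_eq, ← neg_div, ← integral_neg]
      congr 1
      show ∫ X, Y ρ Λ N X * Real.exp (β * Y ρ Λ N X) ∂(mu a Λ N) = _
      unfold mu Y
      refine integral_congr_ae (Filter.Eventually.of_forall fun X => ?_)
      show -En (bg ρ Λ) X * Real.exp (β * -En (bg ρ Λ) X)
        = -(En (bg ρ Λ) X * Real.exp (-β * En (bg ρ Λ) X))
      rw [show β * -En (bg ρ Λ) X = -β * En (bg ρ Λ) X by ring]
      ring
    rw [← heq]
    exact hd3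

end Pool.Agent.JEL
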