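import Pool.Agent.JEL.Stmts

/-!
# JEL, module Fcc: the face centered cubic lattice
-/

open MeasureTheory Set Filter Topology

namespace Pool.Agent.JEL

namespace Fcc_

/-- the coordinates of `fcc` -/
theorem fcc_apply0 (a' : ℝ) (z : Fin 3 → ℝ) : fcc a' z 0 = (a' / Real.sqrt 2) * (z 1 + z 2) := by
  simp [fcc, toE]

theorem fcc_apply1 (a' : ℝ) (z : Fin 3 → ℝ) : fcc a' z 1 = (a' / Real.sqrt 2) * (z 0 + z 2) := by
  simp [fcc, toE]

theorem fcc_apply2 (a' : ℝ) (z : Fin 3 → ℝ) : fcc a' z 2 = (a' / Real.sqrt 2) * (z 0 + z 1) := by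
  simp [fcc, toE]

theorem norm_sq_fcc (a' : ℝ) (z : Fin 3 → ℝ) :
    ‖fcc a' z‖ ^ 2 =
      (a' ^ 2 / 2) * ((z 1 + z 2) ^ 2 + (z 0 + z 2) ^ 2 + (z 0 + z 1) ^ 2) := by
  rw [EuclideanSpace.norm_sq_eq, Fin.sum_univ_three, fcc_apply0, fcc_apply1, fcc_apply2]
  simp only [Real.norm_eq_abs, sq_abs, mul_pow, div_pow]
  rw [Real.sq_sqrt (by norm_num : (0:ℝ) ≤ 2)]
  ring

theorem int_quad (z : Fin 3 → ℤ) (hz : z ≠ 0) :
    2 ≤ (z 1 + z 2) ^ 2 + (z 0 + z 2) ^ 2 + (z 0 + z 1) ^ 2 := by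
  have h0 : (z 1 + z 2) ^ 2 + (z 0 + z 2) ^ 2 + (z 0 + z 1) ^ 2
      = 2 * (z 0 ^ 2 + z 1 ^ 2 + z 2 ^ 2 + z 0 * z 1 + z 0 * z 2 + z 1 * z 2) := by ring
  have hpos : 0 < (z 1 + z 2) ^ 2 + (z 0 + z 2) ^ 2 + (z 0 + z 1) ^ 2 := by
    by_contra hcon
    have h1 : (z 1 + z 2) ^ 2 + (z 0 + z 2) ^ 2 + (z 0 + z 1) ^ 2 ≤ 0 := not_lt.mp hcon
    have e1 : (z 1 + z 2) ^ 2 = 0 := by nlinarith [sq_nonneg (z 1 + z 2), sq_nonneg (z 0 + z 2), sq_nonneg (z 0 + z 1)]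
    have e2 : (z 0 + z 2) ^ 2 = 0 := by nlinarith [sq_nonneg (z 1 + z 2), sq_nonneg (z 0 + z 2), sq_nonneg (z 0 + z 1)]
    have e3 : (z 0 + z 1) ^ 2 = 0 := by nlinarith [sq_nonneg (z 1 + z 2), sq_nonneg (z 0 + z 2), sq_nonneg (z 0 + z 1)]
    have f1 : z 1 + z 2 = 0 := by simpa using e1
    have f2 : z 0 + z 2 = 0 := by simpa using e2
    have f3 : z 0 + z 1 = 0 := by simpa using e3
    apply hz
    funext i
    fin_cases i
    · show z 0 = 0
      omega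
    · show z 1 = 0
      omega
    · show z 2 = 0
      omega
  rw [h0] at hpos ⊢
  omega

theorem min_dist (a' : ℝ) (ha : 0 < a') (z : Fin 3 → ℤ) (hz : z ≠ 0) :
    a' ≤ ‖fcc a' (fun j => (z j : ℝ))‖ := by
  have h1 := norm_sq_fcc a' (fun j => (z j : ℝ))
  have h2 := int_quad z hz
  have h3 : (2:ℝ) ≤ ((z 1 : ℝ) + z 2) ^ 2 + ((z 0 : ℝ) + z 2) ^ 2 + ((z 0 : ℝ) + z 1) ^ 2 := by
    exact_mod_cast h2
  have h4 : a' ^ 2 ≤ ‖fcc a' (fun j => (z j : ℝ))‖ ^ 2 := by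
    rw [h1]
    have h5 := mul_le_mul_of_nonneg_left h3 (by positivity : (0:ℝ) ≤ a' ^ 2 / 2)
    calc a' ^ 2 = (a' ^ 2 / 2) * 2 := by ring
      _ ≤ _ := h5
  exact le_of_sq_le_sq_of_nonneg h4 (norm_nonneg _)
where
  le_of_sq_le_sq_of_nonneg {x y : ℝ} (h : x ^ 2 ≤ y ^ 2) (hy : 0 ≤ y) : x ≤ y := by
    exact le_trans (le_abs_self x) (by rw [← abs_of_nonneg hy]; exact sq_le_sq.mp h)

theorem fcc_add (a' : ℝ) (x y : Fin 3 → ℝ) : fcc a' (x + y) = fcc a' x + fcc a' y := by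
  ext i
  fin_cases i
  · show fcc a' (x + y) 0 = fcc a' x 0 + fcc a' y 0
    rw [fcc_apply0, fcc_apply0, fcc_apply0]; simp only [Pi.add_apply]; ring
  · show fcc a' (x + y) 1 = fcc a' x 1 + fcc a' y 1
    rw [fcc_apply1, fcc_apply1, fcc_apply1]; simp only [Pi.add_apply]; ring
  · show fcc a' (x + y) 2 = fcc a' x 2 + fcc a' y 2
    rw [fcc_apply2, fcc_apply2, fcc_apply2]; simp only [Pi.add_apply]; ring

/-- the matrix of the lattice -/
def M : Matrix (Fin 3) (Fin 3) ℝ := !![0, 1, 1; 1, 0, 1; 1, 1, 0]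

theorem det_M : M.det = 2 := by
  simp [M, Matrix.det_fin_three]
  norm_num

/-- the linear map -/
noncomputable def lin (a' : ℝ) : (Fin 3 → ℝ) →ₗ[ℝ] (Fin 3 → ℝ) :=
  (a' / Real.sqrt 2) • Matrix.toLin' M

theorem lin_det (a' : ℝ) : LinearMap.det (lin a') = (a' / Real.sqrt 2) ^ 3 * 2 := by
  rw [lin, LinearMap.det_smul, LinearMap.det_toLin', det_M]
  simp

theorem fcc_eq_lin (a' : ℝ) (z : Fin 3 → ℝ) : fcc a' z = WithLp.toLp 2 (lin a' z) := by
  ext i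
  fin_cases i
  · show fcc a' z 0 = lin a' z 0
    rw [fcc_apply0]
    simp [lin, M, Matrix.vecHead, Matrix.vecTail]
  · show fcc a' z 1 = lin a' z 1
    rw [fcc_apply1]
    simp [lin, M, Matrix.vecHead, Matrix.vecTail]
  · show fcc a' z 2 = lin a' z 2
    rw [fcc_apply2]
    simp [lin, M, Matrix.vecHead, Matrix.vecTail]

theorem inv_det (a' : ℝ) (ha : 0 < a') :
    |((a' / Real.sqrt 2) ^ 3 * 2)⁻¹| = Real.sqrt 2 / a' ^ 3 := by
  have h2 : Real.sqrt 2 ^ 2 = 2 := Real.sq_sqrt (by norm_num)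
  have hs : 0 < Real.sqrt 2 := by positivity
  rw [abs_of_pos (by positivity)]
  rw [div_pow]
  field_simp
  nlinarith [h2]

theorem lint (a' : ℝ) (ha : 0 < a') (f : E → ENNReal) (hf : Measurable f) :
    ∫⁻ z : Fin 3 → ℝ, f (fcc a' z) = ENNReal.ofReal (Real.sqrt 2 / a' ^ 3) * ∫⁻ x, f x := by
  have hdet : LinearMap.det (lin a') ≠ 0 := by
    rw [lin_det]
    have : 0 < Real.sqrt 2 := by positivity
    positivity
  have hmap := Real.map_linearMap_volume_pi_eq_smul_volume_pi (f := lin a') hdet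
  have hmeas : Measurable (lin a') :=
    (LinearMap.continuous_of_finiteDimensional (lin a')).measurable
  have hg : Measurable (fun y : Fin 3 → ℝ => f (WithLp.toLp 2 y)) :=
    hf.comp (PiLp.volume_preserving_toLp (Fin 3)).measurable
  calc ∫⁻ z : Fin 3 → ℝ, f (fcc a' z)
      = ∫⁻ z : Fin 3 → ℝ, (fun y : Fin 3 → ℝ => f (WithLp.toLp 2 y)) (lin a' z) := by
        simp only [fcc_eq_lin]
    _ = ∫⁻ y, f (WithLp.toLp 2 y) ∂(Measure.map (lin a') volume) := by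
        rw [lintegral_map hg hmeas]
    _ = ENNReal.ofReal (Real.sqrt 2 / a' ^ 3) * ∫⁻ y : Fin 3 → ℝ, f (WithLp.toLp 2 y) := by
        rw [hmap, lintegral_smul_measure, lin_det, inv_det a' ha, smul_eq_mul]
    _ = ENNReal.ofReal (Real.sqrt 2 / a' ^ 3) * ∫⁻ x, f x := by
        rw [(PiLp.volume_preserving_toLp (Fin 3)).lintegral_comp hf]

theorem abs_coord_le (x : E) (i : Fin 3) : |x i| ≤ ‖x‖ := by
  have := EuclideanSpace.norm_eq x
  have h := PiLp.norm_apply_le x i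
  simpa using h

theorem cover (a' : ℝ) (ha : 0 < a') (B : ℝ) : ∃ n₁ : ℕ, ∀ x : E, ‖x‖ ≤ B →
    ∃ z ∈ kbox n₁, ∃ u ∈ cube, x = fcc a' (fun j => u j + (z j : ℝ)) := by
  have hs : 0 < Real.sqrt 2 := by positivity
  refine ⟨⌈3 * Real.sqrt 2 * |B| / (2 * a')⌉₊ + 1, ?_⟩
  intro x hx
  set C : ℝ := 3 * Real.sqrt 2 * |B| / (2 * a') with hC
  have hxB : ‖x‖ ≤ |B| := hx.trans (le_abs_self B)
  -- real coordinates
  let c : ℝ := Real.sqrt 2 / a'
  have hc : 0 < c := by positivity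
  let w : Fin 3 → ℝ := ![c * (-x 0 + x 1 + x 2) / 2, c * (x 0 - x 1 + x 2) / 2,
    c * (x 0 + x 1 - x 2) / 2]
  have hb : ∀ i, |x i| ≤ |B| := fun i => (abs_coord_le x i).trans hxB
  have hw : ∀ j, |w j| ≤ C := by
    have hCc : C = c * (3 * |B|) / 2 := by
      rw [hC]; show _ = Real.sqrt 2 / a' * (3 * |B|) / 2
      field_simp
    have h0 := abs_le.mp (hb 0)
    have h1 := abs_le.mp (hb 1)
    have h2 := abs_le.mp (hb 2)
    intro j
    fin_cases j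
    · show |c * (-x 0 + x 1 + x 2) / 2| ≤ C
      rw [hCc, abs_le]
      constructor
      · have : -(3 * |B|) ≤ -x 0 + x 1 + x 2 := by linarith [h0.1, h0.2, h1.1, h1.2, h2.1, h2.2]
        nlinarith [mul_le_mul_of_nonneg_left this hc.le]
      · have : -x 0 + x 1 + x 2 ≤ 3 * |B| := by linarith [h0.1, h0.2, h1.1, h1.2, h2.1, h2.2]
        nlinarith [mul_le_mul_of_nonneg_left this hc.le]
    · show |c * (x 0 - x 1 + x 2) / 2| ≤ C
      rw [hCc, abs_le]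
      constructor
      · have : -(3 * |B|) ≤ x 0 - x 1 + x 2 := by linarith [h0.1, h0.2, h1.1, h1.2, h2.1, h2.2]
        nlinarith [mul_le_mul_of_nonneg_left this hc.le]
      · have : x 0 - x 1 + x 2 ≤ 3 * |B| := by linarith [h0.1, h0.2, h1.1, h1.2, h2.1, h2.2]
        nlinarith [mul_le_mul_of_nonneg_left this hc.le]
    · show |c * (x 0 + x 1 - x 2) / 2| ≤ C
      rw [hCc, abs_le]
      constructor
      · have : -(3 * |B|) ≤ x 0 + x 1 - x 2 := by linarith [h0.1, h0.2, h1.1, h1.2, h2.1, h2.2]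
        nlinarith [mul_le_mul_of_nonneg_left this hc.le]
      · have : x 0 + x 1 - x 2 ≤ 3 * |B| := by linarith [h0.1, h0.2, h1.1, h1.2, h2.1, h2.2]
        nlinarith [mul_le_mul_of_nonneg_left this hc.le]
  have hCn : C ≤ (⌈C⌉₊ : ℝ) := Nat.le_ceil C
  refine ⟨fun j => ⌊w j⌋, ?_, fun j => Int.fract (w j), ?_, ?_⟩
  · rw [kbox, Fintype.mem_piFinset]
    intro j
    rw [Finset.mem_Icc]
    have hj := abs_le.mp (hw j)
    constructor
    · rw [Int.le_floor]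
      push_cast
      linarith [hj.1]
    · have h1 : (⌊w j⌋ : ℝ) ≤ w j := Int.floor_le _
      have h2 : (⌊w j⌋ : ℝ) ≤ ((⌈C⌉₊ + 1 : ℕ) : ℝ) := by
        push_cast
        linarith [hj.2]
      exact_mod_cast h2
  · intro j _
    exact ⟨Int.fract_nonneg _, Int.fract_lt_one _⟩
  · have hfr : (fun j => Int.fract (w j) + ((⌊w j⌋ : ℤ) : ℝ)) = w := by
      funext j
      exact Int.fract_add_floor _
    rw [hfr]
    have hca : a' / Real.sqrt 2 * c = 1 := by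
      show a' / Real.sqrt 2 * (Real.sqrt 2 / a') = 1
      field_simp
    ext i
    fin_cases i
    · show x 0 = fcc a' w 0
      rw [fcc_apply0]
      show x 0 = a' / Real.sqrt 2 * (c * (x 0 - x 1 + x 2) / 2 + c * (x 0 + x 1 - x 2) / 2)
      have : a' / Real.sqrt 2 * (c * (x 0 - x 1 + x 2) / 2 + c * (x 0 + x 1 - x 2) / 2)
        = (a' / Real.sqrt 2 * c) * x 0 := by ring
      rw [this, hca, one_mul]
    · show x 1 = fcc a' w 1
      rw [fcc_apply1]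
      show x 1 = a' / Real.sqrt 2 * (c * (-x 0 + x 1 + x 2) / 2 + c * (x 0 + x 1 - x 2) / 2)
      have : a' / Real.sqrt 2 * (c * (-x 0 + x 1 + x 2) / 2 + c * (x 0 + x 1 - x 2) / 2)
        = (a' / Real.sqrt 2 * c) * x 1 := by ring
      rw [this, hca, one_mul]
    · show x 2 = fcc a' w 2
      rw [fcc_apply2]
      show x 2 = a' / Real.sqrt 2 * (c * (-x 0 + x 1 + x 2) / 2 + c * (x 0 - x 1 + x 2) / 2)
      have : a' / Real.sqrt 2 * (c * (-x 0 + x 1 + x 2) / 2 + c * (x 0 - x 1 + x 2) / 2)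
        = (a' / Real.sqrt 2 * c) * x 2 := by ring
      rw [this, hca, one_mul]

end Fcc_

theorem Fcc_proof : Stmt_Fcc := by
  intro a' ha
  exact ⟨Fcc_.min_dist a' ha, Fcc_.fcc_add a', Fcc_.lint a' ha, Fcc_.cover a' ha⟩

end Pool.Agent.JEL
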