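import Pool.Agent.JEL.Stmts

open MeasureTheory Set Filter Topology

namespace Pool.Agent.JEL

namespace Fin_

/-- the hypotheses on a sequence of domains -/
def Reg (ρ : ℝ) (Λ : ℕ → Set E) (N : ℕ → ℕ) : Prop :=
  (∀ j, BM (Λ j)) ∧ (∀ j, ρ * volume.real (Λ j) = N j) ∧
    (∀ R : ℝ, 0 < R → Tendsto (fun j => zone R (Λ j) / volume.real (Λ j)) atTop (𝓝 0)) ∧
    Tendsto (fun j => volume.real (Λ j)) atTop atTop

/-- `Sl` is bounded above -/
theorem Sl_le (hMeas : Stmt_Meas) (hLens : Stmt_Lens) {a β ρ : ℝ} (ha : 0 < a) (hβ : 0 < β)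
    (hρ : 0 < ρ) {m : ℕ} (q : Fin m → ℝ) (hq : ∀ i, 0 < q i) {l : ℝ} (hl : 0 < l) :
    Sl a β ρ q l ≤ Real.exp (β * C0 a ρ) * ∑ i, vb (q i) := by
  obtain ⟨-, -, -, -, -, hX⟩ := hMeas
  have h1 : ∀ i, Real.log (Xi a β ρ (cB 0 (l * q i))) ≤
      Real.exp (β * C0 a ρ) * (l ^ 3 * vb (q i)) := by
    intro i
    have hBM : BM (cB (0:E) (l * q i)) :=
      ⟨Metric.isClosed_closedBall.measurableSet, Metric.isBounded_closedBall⟩
    obtain ⟨-, hpos, hle⟩ := hX a β ρ (cB 0 (l * q i)) ha hβ hρ hBM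
    have h2 := Real.log_le_log hpos hle
    rw [Real.log_exp] at h2
    have h3 : volume.real (cB (0:E) (l * q i)) = l ^ 3 * vb (q i) := by
      rw [hLens.1 0 (l * q i) (by have := hq i; positivity)]
      unfold vb; ring
    rw [h3] at h2
    exact h2
  have hl3 : (0:ℝ) < l ^ 3 := by positivity
  unfold Sl
  calc (l ^ 3)⁻¹ * ∑ i, Real.log (Xi a β ρ (cB 0 (l * q i)))
      ≤ (l ^ 3)⁻¹ * ∑ i, Real.exp (β * C0 a ρ) * (l ^ 3 * vb (q i)) :=
        mul_le_mul_of_nonneg_left (Finset.sum_le_sum fun i _ => h1 i) (by positivity)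
    _ = Real.exp (β * C0 a ρ) * ∑ i, vb (q i) := by
        rw [← Finset.mul_sum, ← Finset.mul_sum]
        field_simp

theorem core (hUp : Stmt_Up) (hLow : Stmt_Low) (hPack : Stmt_Pack) (hMeas : Stmt_Meas)
    (hLens : Stmt_Lens) (a β ρ : ℝ) (ha : 0 < a) (hβ : 0 < β) (hρ : 0 < ρ)
    (hρa : ρ < Real.sqrt 2 / a ^ 3) :
    ∃ C : ℝ, 0 < C ∧ ∀ ε : ℝ, 0 < ε → ε < 1 → ∃ s : ℝ, ∀ Λ N, Reg ρ Λ N →
      ∀ᶠ j in atTop, |Real.log (Z a β ρ (Λ j) (N j)) / volume.real (Λ j) - s| ≤ C * ε := by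
  obtain ⟨CU, hCU, hU⟩ := hUp a β ρ ha hβ hρ
  obtain ⟨CL, hCL, hL⟩ := hLow a β ρ ha hβ hρ hρa
  refine ⟨2 * CU * (ρ + 1) + CL + 2, by positivity, ?_⟩
  intro ε hε hε1
  obtain ⟨m, c, q, γ, hP, hfr⟩ := hPack ε hε
  obtain ⟨lam2, hlam2, hL2⟩ := hL m c q γ ε hP hε hε1 hfr
  -- smallest radius
  have : Nonempty (Fin m) := ⟨⟨0, hP.hm⟩⟩
  obtain ⟨i0, hi0⟩ := Finite.exists_min q
  have hqm : 0 < q i0 := hP.hq i0
  set lam0 : ℝ := max lam2 (max (a / (2 * q i0)) (1 / (ε * q i0))) with hlam0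
  have hl02 : lam2 ≤ lam0 := le_max_left _ _
  have hl0a : a / (2 * q i0) ≤ lam0 := le_trans (le_max_left _ _) (le_max_right _ _)
  have hl0e : 1 / (ε * q i0) ≤ lam0 := le_trans (le_max_right _ _) (le_max_right _ _)
  have hl0 : 0 < lam0 := lt_of_lt_of_le hlam2 hl02
  have h1 : a / 2 ≤ lam0 * q i0 := by
    rw [div_le_iff₀ (by positivity)] at hl0a
    linarith
  have h2 : 1 / (lam0 * q i0) ≤ ε := by
    rw [div_le_iff₀ (by positivity)] at hl0e ⊢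
    nlinarith
  obtain ⟨lam1, hlam1, hUs⟩ := hU m c q γ ε (q i0) lam0 hP hε hε1 hfr hqm hi0 hl0 h1
  -- supremum
  set T : Set ℝ := (fun l => Sl a β ρ q l) '' Icc lam0 lam1 with hT
  have hTne : T.Nonempty := ⟨_, ⟨lam0, ⟨le_refl _, hlam1.le⟩, rfl⟩⟩
  have hTbdd : BddAbove T := by
    refine ⟨Real.exp (β * C0 a ρ) * ∑ i, vb (q i), ?_⟩
    rintro _ ⟨l, hl, rfl⟩
    exact Sl_le hMeas hLens ha hβ hρ q hP.hq (lt_of_lt_of_le hl0 hl.1)
  obtain ⟨_, ⟨ls, hls, rfl⟩, hls2⟩ := exists_lt_of_lt_csSup hTne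
    (show sSup T - ε < sSup T by linarith)
  obtain ⟨C₁, R₁, hC₁, hR₁, hUf⟩ := hUs (sSup T) (fun l hl => le_csSup hTbdd ⟨l, hl, rfl⟩)
  obtain ⟨C₂, R₂, V₀, hC₂, hR₂, hLf⟩ := hL2 ls (le_trans hl02 hls.1)
  refine ⟨sSup T, ?_⟩
  rintro Λ N ⟨hBM, hN, hz, hv⟩
  have e1 : ∀ᶠ j in atTop, C₁ * (zone R₁ (Λ j) / volume.real (Λ j)) ≤ ε := by
    have := (hz R₁ hR₁).const_mul C₁
    rw [mul_zero] at this
    exact (this.eventually (gt_mem_nhds hε)).mono fun j hj => hj.le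
  have e2 : ∀ᶠ j in atTop, C₂ * (zone R₂ (Λ j) / volume.real (Λ j)) ≤ ε := by
    have := (hz R₂ hR₂).const_mul C₂
    rw [mul_zero] at this
    exact (this.eventually (gt_mem_nhds hε)).mono fun j hj => hj.le
  filter_upwards [e1, e2, hv.eventually_ge_atTop V₀, hv.eventually_ge_atTop 1] with j h3 h4 h5 h6
  set v := volume.real (Λ j) with hvdef
  have hv0 : 0 < v := by linarith
  have hlow := hLf (Λ j) (hBM j) h5 (N j) (hN j)
  have hup := hUf (Λ j) (hBM j) (N j)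
  rw [← hvdef] at hlow hup
  have hZ : 0 < Z a β ρ (Λ j) (N j) := lt_of_lt_of_le (Real.exp_pos _) hlow
  have hlow2 := Real.log_le_log (Real.exp_pos _) hlow
  have hup2 := Real.log_le_log hZ hup
  rw [Real.log_exp] at hlow2 hup2
  rw [← hN j] at hup2
  have hz1 : C₁ * zone R₁ (Λ j) ≤ ε * v := by
    have := mul_le_mul_of_nonneg_right h3 hv0.le
    calc C₁ * zone R₁ (Λ j) = C₁ * (zone R₁ (Λ j) / v) * v := by field_simp
      _ ≤ ε * v := this
  have hz2 : C₂ * zone R₂ (Λ j) ≤ ε * v := by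
    have := mul_le_mul_of_nonneg_right h4 hv0.le
    calc C₂ * zone R₂ (Λ j) = C₂ * (zone R₂ (Λ j) / v) * v := by field_simp
      _ ≤ ε * v := this
  have hU2 : CU * (ε + 1 / (lam0 * q i0)) * (ρ * v + v) ≤ 2 * CU * (ρ + 1) * ε * v := by
    have h7 : CU * (ε + 1 / (lam0 * q i0)) ≤ CU * (2 * ε) :=
      mul_le_mul_of_nonneg_left (by linarith) hCU.le
    have h8 : 0 ≤ ρ * v + v := by positivity
    calc CU * (ε + 1 / (lam0 * q i0)) * (ρ * v + v) ≤ CU * (2 * ε) * (ρ * v + v) :=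
          mul_le_mul_of_nonneg_right h7 h8
      _ = 2 * CU * (ρ + 1) * ε * v := by ring
  rw [abs_le]
  constructor
  · rw [← sub_nonneg]
    have : 0 ≤ (Real.log (Z a β ρ (Λ j) (N j)) - (sSup T) * v
        + (2 * CU * (ρ + 1) + CL + 2) * ε * v) / v := by
      apply div_nonneg _ hv0.le
      have h9 : (sSup T - ε) * v ≤ Sl a β ρ q ls * v :=
        mul_le_mul_of_nonneg_right hls2.le hv0.le
      have h10 : 0 ≤ 2 * CU * (ρ + 1) * ε * v := by positivity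
      nlinarith
    have h11 : (Real.log (Z a β ρ (Λ j) (N j)) - (sSup T) * v
        + (2 * CU * (ρ + 1) + CL + 2) * ε * v) / v
        = Real.log (Z a β ρ (Λ j) (N j)) / v - sSup T - -((2 * CU * (ρ + 1) + CL + 2) * ε) := by
      field_simp
      ring
    rw [h11] at this
    exact this
  · rw [← sub_nonneg]
    have : 0 ≤ ((sSup T) * v + (2 * CU * (ρ + 1) + CL + 2) * ε * v
        - Real.log (Z a β ρ (Λ j) (N j))) / v := by
      apply div_nonneg _ hv0.le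
      have h10 : 0 ≤ (CL + 1) * ε * v := by positivity
      nlinarith
    have h11 : ((sSup T) * v + (2 * CU * (ρ + 1) + CL + 2) * ε * v
        - Real.log (Z a β ρ (Λ j) (N j))) / v
        = (2 * CU * (ρ + 1) + CL + 2) * ε - (Real.log (Z a β ρ (Λ j) (N j)) / v - sSup T) := by
      field_simp
      ring
    rw [h11] at this
    exact this

end Fin_

theorem Fin_proof (hUp : Stmt_Up) (hLow : Stmt_Low) (hPack : Stmt_Pack) (hMeas : Stmt_Meas)
    (hLens : Stmt_Lens) : Stmt_Fin := by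
  intro a β ρ ha hβ hρ hρa
  obtain ⟨C, hC, hcore⟩ := Fin_.core hUp hLow hPack hMeas hLens a β ρ ha hβ hρ hρa
  have key : ∀ δ : ℝ, 0 < δ → ∃ s : ℝ, ∀ Λ N, Fin_.Reg ρ Λ N →
      ∀ᶠ j in atTop, |Real.log (Z a β ρ (Λ j) (N j)) / volume.real (Λ j) - s| ≤ δ := by
    intro δ hδ
    obtain ⟨s, hs⟩ := hcore (min (1 / 2) (δ / C)) (by positivity)
      (lt_of_le_of_lt (min_le_left _ _) (by norm_num))
    refine ⟨s, fun Λ N hR => (hs Λ N hR).mono fun j hj => le_trans hj ?_⟩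
    calc C * min (1 / 2) (δ / C) ≤ C * (δ / C) :=
          mul_le_mul_of_nonneg_left (min_le_right _ _) hC.le
      _ = δ := by field_simp
  by_cases hex : ∃ Λ N, Fin_.Reg ρ Λ N
  · obtain ⟨Λ0, N0, hR0⟩ := hex
    have hcau : CauchySeq (fun j => Real.log (Z a β ρ (Λ0 j) (N0 j)) / volume.real (Λ0 j)) := by
      rw [Metric.cauchySeq_iff']
      intro δ hδ
      obtain ⟨s, hs⟩ := key (δ / 3) (by positivity)
      obtain ⟨j0, hj0⟩ := (hs Λ0 N0 hR0).exists_forall_of_atTop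
      refine ⟨j0, fun n hn => ?_⟩
      rw [Real.dist_eq]
      have h1 := hj0 n hn
      have h2 := hj0 j0 le_rfl
      rw [abs_le] at h1 h2
      rw [abs_lt]
      constructor <;> linarith
    obtain ⟨g, hg⟩ := cauchySeq_tendsto_of_complete hcau
    refine ⟨g, fun Λ N h1 h2 h3 h4 => ?_⟩
    rw [Metric.tendsto_nhds]
    intro δ hδ
    obtain ⟨s, hs⟩ := key (δ / 3) (by positivity)
    have hgs : |g - s| ≤ δ / 3 := by
      have h5 : Tendsto (fun j => |Real.log (Z a β ρ (Λ0 j) (N0 j)) / volume.real (Λ0 j) - s|)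
          atTop (𝓝 |g - s|) := (hg.sub_const s).abs
      exact le_of_tendsto h5 (hs Λ0 N0 hR0)
    filter_upwards [hs Λ N ⟨h1, h2, h3, h4⟩] with j hj
    rw [Real.dist_eq]
    rw [abs_le] at hj hgs
    rw [abs_lt]
    constructor <;> linarith
  · exact ⟨0, fun Λ N h1 h2 h3 h4 => absurd ⟨Λ, N, h1, h2, h3, h4⟩ hex⟩

end Pool.Agent.JEL
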