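import Pool.Agent.JEL.Stmts

/-!
# GMeas: measurability and boundedness of the sum of the local energies
-/

open MeasureTheory Set Filter Topology

namespace Pool.Agent.JEL

open scoped Real

namespace GMeas_

theorem measB (B : Set E) (hB : MeasurableSet B) {Λ : Set E} (hΛ : BM Λ) {ρ : ℝ} (hρ : 0 < ρ) :
    Adm (bg ρ (Λ ∩ B)) ∧ (∀ x, |bg ρ (Λ ∩ B) x| ≤ ρ) ∧ (∀ x, x ∉ Λ → bg ρ (Λ ∩ B) x = 0) := by
  have hz : ∀ x, x ∉ Λ → bg ρ (Λ ∩ B) x = 0 := fun x hx =>
    indicator_of_notMem (fun h => hx h.1) _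
  have hb : ∀ x, |bg ρ (Λ ∩ B) x| ≤ ρ := by
    intro x
    unfold bg
    by_cases hx : x ∈ Λ ∩ B
    · rw [indicator_of_mem hx, abs_neg, abs_of_pos hρ]
    · rw [indicator_of_notMem hx, abs_zero]
      exact hρ.le
  refine ⟨⟨measurable_const.indicator (hΛ.1.inter hB), ⟨ρ, hb⟩, ?_⟩, hb, hz⟩
  obtain ⟨R, hR⟩ := hΛ.2.subset_closedBall (0:E)
  refine ⟨R, fun x hx => hz x fun h => ?_⟩
  have := hR h
  rw [mem_closedBall_zero_iff] at this
  linarith

section
variable {P : Type*} [MeasurableSpace P]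

theorem meas_set {z : P → E} {r : P → ℝ} {x : P → E} (hz : Measurable z) (hr : Measurable r)
    (hx : Measurable x) : MeasurableSet {p | x p ∈ cB (z p) (r p)} := by
  have h : {p | x p ∈ cB (z p) (r p)} = {p | ‖x p - z p‖ ≤ r p} := by
    ext p
    rw [mem_setOf_eq, mem_setOf_eq, Metric.mem_closedBall, dist_eq_norm]
  rw [h]
  exact measurableSet_le (hx.sub hz).norm hr

theorem meas_ind {z : P → E} {r : P → ℝ} {x : P → E} (hz : Measurable z) (hr : Measurable r)
    (hx : Measurable x) : Measurable fun p => (cB (z p) (r p)).indicator (1 : E → ℝ) (x p) := by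
  have h : (fun p => (cB (z p) (r p)).indicator (1 : E → ℝ) (x p)) =
      {p | x p ∈ cB (z p) (r p)}.indicator (fun _ => (1:ℝ)) := by
    funext p
    by_cases hp : x p ∈ cB (z p) (r p)
    · rw [indicator_of_mem hp, indicator_of_mem (show p ∈ {p | x p ∈ cB (z p) (r p)} from hp)]
      rfl
    · rw [indicator_of_notMem hp,
        indicator_of_notMem (show p ∉ {p | x p ∈ cB (z p) (r p)} from hp)]
  rw [h]
  exact measurable_const.indicator (meas_set hz hr hx)

theorem meas_bg {z : P → E} {r : P → ℝ} {x : P → E} (hz : Measurable z) (hr : Measurable r)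
    (hx : Measurable x) (ρ : ℝ) {Λ : Set E} (hΛ : MeasurableSet Λ) :
    Measurable fun p => bg ρ (Λ ∩ cB (z p) (r p)) (x p) := by
  have h : (fun p => bg ρ (Λ ∩ cB (z p) (r p)) (x p)) =
      (x ⁻¹' Λ ∩ {p | x p ∈ cB (z p) (r p)}).indicator (fun _ => -ρ) := by
    funext p
    unfold bg
    by_cases hp : x p ∈ Λ ∩ cB (z p) (r p)
    · rw [indicator_of_mem hp,
        indicator_of_mem (show p ∈ x ⁻¹' Λ ∩ {p | x p ∈ cB (z p) (r p)} from hp)]
    · rw [indicator_of_notMem hp,
        indicator_of_notMem (show p ∉ x ⁻¹' Λ ∩ {p | x p ∈ cB (z p) (r p)} from hp)]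
  rw [h]
  exact measurable_const.indicator ((hx hΛ).inter (meas_set hz hr hx))

theorem meas_pot {z : P → E} {r : P → ℝ} {x : P → E} (hz : Measurable z) (hr : Measurable r)
    (hx : Measurable x) (ρ : ℝ) {Λ : Set E} (hΛ : MeasurableSet Λ) :
    Measurable fun p => pot (bg ρ (Λ ∩ cB (z p) (r p))) (x p) := by
  have h1 : Measurable (Function.uncurry fun (p : P) (y : E) =>
      bg ρ (Λ ∩ cB (z p) (r p)) y * ‖x p - y‖⁻¹) := by
    refine Measurable.mul ?_ ?_
    · exact meas_bg (P := P × E) (hz.comp measurable_fst) (hr.comp measurable_fst)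
        measurable_snd ρ hΛ
    · exact ((hx.comp measurable_fst).sub measurable_snd).norm.inv
  exact h1.stronglyMeasurable.integral_prod_right.measurable

theorem meas_Dfm {z : P → E} {r : P → ℝ} (hz : Measurable z) (hr : Measurable r)
    (ρ : ℝ) {Λ : Set E} (hΛ : MeasurableSet Λ) :
    Measurable fun p => Dfm (bg ρ (Λ ∩ cB (z p) (r p))) (bg ρ (Λ ∩ cB (z p) (r p))) := by
  have h1 : Measurable (Function.uncurry fun (p : P) (y : E) =>
      bg ρ (Λ ∩ cB (z p) (r p)) y * pot (bg ρ (Λ ∩ cB (z p) (r p))) y) := by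
    refine Measurable.mul ?_ ?_
    · exact meas_bg (P := P × E) (hz.comp measurable_fst) (hr.comp measurable_fst)
        measurable_snd ρ hΛ
    · exact meas_pot (P := P × E) (hz.comp measurable_fst) (hr.comp measurable_fst)
        measurable_snd ρ hΛ
  exact h1.stronglyMeasurable.integral_prod_right.measurable

theorem meas_Uloc {N : ℕ} {z : P → E} {r : P → ℝ} {X : P → Fin N → E} (hz : Measurable z)
    (hr : Measurable r) (hX : Measurable X) (ρ : ℝ) {Λ : Set E} (hΛ : MeasurableSet Λ) :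
    Measurable fun p => Uloc ρ Λ (cB (z p) (r p)) (X p) := by
  have hXi : ∀ i, Measurable fun p => X p i := fun i => (measurable_pi_apply i).comp hX
  unfold Uloc
  refine Measurable.add (Measurable.add ?_ ?_) ?_
  · refine Measurable.const_mul ?_ _
    refine Finset.measurable_fun_sum _ fun i _ => ?_
    refine Finset.measurable_fun_sum _ fun j _ => ?_
    exact ((meas_ind hz hr (hXi i)).mul (meas_ind hz hr (hXi j))).mul
      ((hXi i).sub (hXi j)).norm.inv
  · refine Finset.measurable_fun_sum _ fun i _ => ?_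
    exact (meas_ind hz hr (hXi i)).mul (meas_pot hz hr (hXi i) ρ hΛ)
  · exact (meas_Dfm hz hr ρ hΛ).const_mul _

end

theorem meas_ctr {m : ℕ} (c : Fin m → E) (k : Fin 3 → ℤ) (i : Fin m) :
    Measurable fun p : ℝ × (Fin 3 → ℝ) => ctr c p.1 p.2 k i := by
  have h : Continuous fun p : ℝ × (Fin 3 → ℝ) => ctr c p.1 p.2 k i := by
    unfold ctr toE
    refine Continuous.smul continuous_fst (Continuous.add ?_ continuous_const)
    refine (PiLp.continuous_toLp 2 _).comp ?_
    exact continuous_pi fun j => continuous_const.add ((continuous_apply j).comp continuous_snd)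
  exact h.measurable

theorem abs_ind (B : Set E) (x : E) : |B.indicator (1 : E → ℝ) x| ≤ 1 := by
  by_cases h : x ∈ B
  · rw [indicator_of_mem h]; simp
  · rw [indicator_of_notMem h]; simp

theorem bound_Uloc (hPot : Stmt_Pot) {ρ a : ℝ} {Λ B : Set E} {N : ℕ} (hρ : 0 < ρ) (hΛ : BM Λ)
    (hB : MeasurableSet B) (ha : 0 < a) (X : Fin N → E) (hX : HC a X) :
    |Uloc ρ Λ B X| ≤ (1 / 2) * (N * (N * a⁻¹)) + N * (ρ * (2 * π * 1 ^ 2 + volume.real Λ / 1)) +
      (1 / 2) * (ρ * (ρ * (2 * π * 1 ^ 2 + volume.real Λ / 1)) * volume.real Λ) := by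
  obtain ⟨hA, hb, hz⟩ := measB B hB hΛ hρ
  have hvol : volume Λ < ⊤ := hΛ.2.measure_lt_top
  have hp := hPot.2.2.1 (bg ρ (Λ ∩ B)) ρ 1 Λ hA hb hΛ.1 hvol hz one_pos
  set C := ρ * (2 * π * 1 ^ 2 + volume.real Λ / 1) with hC
  have hC0 : 0 ≤ C := (abs_nonneg _).trans (hp 0)
  unfold Uloc
  refine (abs_add_le _ _).trans (add_le_add ((abs_add_le _ _).trans (add_le_add ?_ ?_)) ?_)
  · rw [abs_mul, abs_of_pos (by norm_num : (0:ℝ) < 1 / 2)]
    refine mul_le_mul_of_nonneg_left ?_ (by norm_num)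
    have h1 : ∀ i : Fin N, |∑ j ∈ Finset.univ.erase i, B.indicator (1 : E → ℝ) (X i) *
        B.indicator (1 : E → ℝ) (X j) * ‖X i - X j‖⁻¹| ≤ N * a⁻¹ := by
      intro i
      refine (Finset.abs_sum_le_sum_abs _ _).trans ?_
      have h2 : ∀ j ∈ Finset.univ.erase i, |B.indicator (1 : E → ℝ) (X i) *
          B.indicator (1 : E → ℝ) (X j) * ‖X i - X j‖⁻¹| ≤ a⁻¹ := by
        intro j hj
        rw [abs_mul, abs_mul, abs_inv, abs_norm]
        have h3 : ‖X i - X j‖⁻¹ ≤ a⁻¹ := inv_anti₀ ha (hX i j (Finset.ne_of_mem_erase hj).symm)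
        calc |B.indicator (1 : E → ℝ) (X i)| * |B.indicator (1 : E → ℝ) (X j)| * ‖X i - X j‖⁻¹
            ≤ 1 * a⁻¹ := by
              refine mul_le_mul ?_ h3 (by positivity) (by norm_num)
              exact mul_le_one₀ (abs_ind _ _) (abs_nonneg _) (abs_ind _ _)
          _ = a⁻¹ := one_mul _
      refine (Finset.sum_le_card_nsmul _ _ _ h2).trans ?_
      rw [nsmul_eq_mul]
      refine mul_le_mul_of_nonneg_right ?_ (by positivity)
      have h4 := Finset.card_erase_le (s := (Finset.univ : Finset (Fin N))) (a := i)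
      rw [Finset.card_univ, Fintype.card_fin] at h4
      exact_mod_cast h4
    refine (Finset.abs_sum_le_sum_abs _ _).trans ?_
    refine (Finset.sum_le_card_nsmul _ _ _ fun i _ => h1 i).trans ?_
    rw [nsmul_eq_mul, Finset.card_univ, Fintype.card_fin]
  · refine (Finset.abs_sum_le_sum_abs _ _).trans ?_
    refine (Finset.sum_le_card_nsmul _ _ C fun i _ => ?_).trans ?_
    · rw [abs_mul]
      calc |B.indicator (1 : E → ℝ) (X i)| * |pot (bg ρ (Λ ∩ B)) (X i)| ≤ 1 * C :=
            mul_le_mul (abs_ind _ _) (hp _) (abs_nonneg _) zero_le_one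
        _ = C := one_mul _
    · rw [nsmul_eq_mul, Finset.card_univ, Fintype.card_fin]
  · rw [abs_mul, abs_of_pos (by norm_num : (0:ℝ) < 1 / 2)]
    refine mul_le_mul_of_nonneg_left ?_ (by norm_num)
    unfold Dfm
    have hi : Integrable (Λ.indicator fun _ : E => ρ * C) :=
      (integrableOn_const hvol.ne).integrable_indicator hΛ.1
    have h5 := norm_integral_le_of_norm_le (f := fun x => bg ρ (Λ ∩ B) x *
      pot (bg ρ (Λ ∩ B)) x) hi (Eventually.of_forall fun x => ?_)
    · rw [Real.norm_eq_abs, integral_indicator hΛ.1, setIntegral_const, smul_eq_mul] at h5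
      rw [mul_comm (ρ * C)]
      exact h5
    · by_cases hx : x ∈ Λ
      · rw [indicator_of_mem hx, norm_mul, Real.norm_eq_abs, Real.norm_eq_abs]
        exact mul_le_mul (hb x) (hp x) (abs_nonneg _) hρ.le
      · rw [indicator_of_notMem hx, hz x hx, zero_mul, norm_zero]

end GMeas_

open GMeas_ in
theorem GMeas_proof (hPot : Stmt_Pot) (_hStab : Stmt_Stab) : Stmt_GMeas := by
  intro ρ Λ m c q n₀ N hρ hΛ
  constructor
  · unfold Gsum
    refine Finset.measurable_fun_sum _ fun k _ => ?_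
    refine Finset.measurable_fun_sum _ fun i _ => ?_
    exact meas_Uloc ((meas_ctr c k i).comp measurable_fst)
      ((measurable_fst.comp measurable_fst).mul_const _) measurable_snd ρ hΛ.1
  · intro a ha
    refine ⟨(kbox n₀).card • (m • ((1 / 2) * (N * (N * a⁻¹)) + N * (ρ * (2 * π * 1 ^ 2 +
      volume.real Λ / 1)) + (1 / 2) * (ρ * (ρ * (2 * π * 1 ^ 2 + volume.real Λ / 1)) *
      volume.real Λ))), fun l θ X hX => ?_⟩
    unfold Gsum
    refine (Finset.abs_sum_le_sum_abs _ _).trans ?_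
    refine Finset.sum_le_card_nsmul _ _ _ fun k _ => ?_
    refine (Finset.abs_sum_le_sum_abs _ _).trans ?_
    refine (Finset.sum_le_card_nsmul _ _ _ fun i _ => bound_Uloc hPot hρ hΛ
      Metric.isClosed_closedBall.measurableSet ha X hX).trans ?_
    rw [Finset.card_univ, Fintype.card_fin]

end Pool.Agent.JEL

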