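import Pool.Agent.JEL.Stmts

/-!
# JEL, module Grif: derivatives of convex functions converge (Griffiths)
-/

open MeasureTheory Set Filter Topology

namespace Pool.Agent.JEL

namespace Grif_

theorem convex_lim (f : ℕ → ℝ → ℝ) (g : ℝ → ℝ) (hf : ∀ j, ConvexOn ℝ (Ioi 0) (f j))
    (hg : ∀ y, 0 < y → Tendsto (fun j => f j y) atTop (𝓝 (g y))) : ConvexOn ℝ (Ioi 0) g := by
  refine ⟨convex_Ioi 0, fun x hx y hy a b ha hb hab => ?_⟩
  have hxy : a • x + b • y ∈ Ioi (0 : ℝ) := (convex_Ioi (0 : ℝ)) hx hy ha hb hab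
  refine le_of_tendsto_of_tendsto' (hg _ hxy)
    (((hg x hx).const_smul a).add ((hg y hy).const_smul b)) fun j => ?_
  exact (hf j).2 hx hy ha hb hab

theorem slope_lim (f : ℕ → ℝ → ℝ) (g : ℝ → ℝ)
    (hg : ∀ y, 0 < y → Tendsto (fun j => f j y) atTop (𝓝 (g y))) (x y : ℝ) (hx : 0 < x)
    (hy : 0 < y) : Tendsto (fun j => slope (f j) x y) atTop (𝓝 (slope g x y)) := by
  simp only [slope_def_field]
  exact ((hg y hy).sub (hg x hx)).div_const _

theorem deriv_lim (f : ℕ → ℝ → ℝ) (g : ℝ → ℝ) (hf : ∀ j, ConvexOn ℝ (Ioi 0) (f j))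
    (hg : ∀ y, 0 < y → Tendsto (fun j => f j y) atTop (𝓝 (g y))) (x d : ℝ) (d' : ℕ → ℝ)
    (hx : 0 < x) (hd' : ∀ j, HasDerivAt (f j) (d' j) x) (hd : HasDerivAt g d x) :
    Tendsto d' atTop (𝓝 d) := by
  have hs := hasDerivAt_iff_tendsto_slope.1 hd
  rw [tendsto_order]
  constructor
  · intro c hc
    have h1 : ∀ᶠ y in 𝓝[≠] x, c < slope g x y := hs.eventually (lt_mem_nhds hc)
    have h2 : ∀ᶠ y in 𝓝[<] x, c < slope g x y :=
      h1.filter_mono (nhdsWithin_mono x (fun y hy => ne_of_lt hy))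
    have h3 : ∀ᶠ y in 𝓝[<] x, 0 < y := by
      have : ∀ᶠ y in 𝓝 x, 0 < y := lt_mem_nhds hx
      exact this.filter_mono nhdsWithin_le_nhds
    obtain ⟨y, hy1, hy2, hy3⟩ :=
      (h2.and (h3.and (eventually_mem_nhdsWithin : ∀ᶠ y in 𝓝[<] x, y ∈ Iio x))).exists
    have h4 := (slope_lim f g hg x y hx hy2).eventually (lt_mem_nhds hy1)
    filter_upwards [h4] with j hj
    have h5 : slope (f j) y x ≤ d' j := (hf j).slope_le_of_hasDerivAt hy2 hx hy3 (hd' j)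
    rw [slope_comm] at h5
    linarith
  · intro c hc
    have h1 : ∀ᶠ y in 𝓝[≠] x, slope g x y < c := hs.eventually (gt_mem_nhds hc)
    have h2 : ∀ᶠ y in 𝓝[>] x, slope g x y < c :=
      h1.filter_mono (nhdsWithin_mono x (fun y hy => ne_of_gt hy))
    have h3 : ∀ᶠ y in 𝓝[>] x, 0 < y := by
      have : ∀ᶠ y in 𝓝 x, 0 < y := lt_mem_nhds hx
      exact this.filter_mono nhdsWithin_le_nhds
    obtain ⟨y, hy1, hy2, hy3⟩ :=
      (h2.and (h3.and (eventually_mem_nhdsWithin : ∀ᶠ y in 𝓝[>] x, y ∈ Ioi x))).exists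
    have h4 := (slope_lim f g hg x y hx hy2).eventually (gt_mem_nhds hy1)
    filter_upwards [h4] with j hj
    have h5 : d' j ≤ slope (f j) x y := (hf j).le_slope_of_hasDerivAt hx hy2 hy3 (hd' j)
    linarith

end Grif_

theorem grif_proof : Stmt_Grif := fun f g hf hg =>
  ⟨Grif_.convex_lim f g hf hg, fun x d d' hx hd' hd =>
    Grif_.deriv_lim f g hf hg x d d' hx hd' hd⟩

end Pool.Agent.JEL
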