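import Pool.Agent.JEL.Stmts

/-!
# Module Ins: insertion of one ball in its Gibbs state
-/

open MeasureTheory Set Filter Topology

namespace Pool.Agent.JEL

open scoped Real

namespace Ins_

/-! ### admissible densities -/

theorem adm_add {F G : E → ℝ} (hF : Adm F) (hG : Adm G) : Adm (fun x => F x + G x) := by
  obtain ⟨b, hb⟩ := hF.bdd
  obtain ⟨c, hc⟩ := hG.bdd
  obtain ⟨R, hR⟩ := hF.supp
  obtain ⟨S, hS⟩ := hG.supp
  refine ⟨hF.meas.add hG.meas, ⟨b + c, fun x => ?_⟩, ⟨max R S, fun x hx => ?_⟩⟩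
  · exact (abs_add_le _ _).trans (add_le_add (hb x) (hc x))
  · rw [hR x (lt_of_le_of_lt (le_max_left _ _) hx), hS x (lt_of_le_of_lt (le_max_right _ _) hx),
      add_zero]

theorem adm_smul {F : E → ℝ} (hF : Adm F) (c : ℝ) : Adm (fun x => c * F x) := by
  obtain ⟨b, hb⟩ := hF.bdd
  obtain ⟨R, hR⟩ := hF.supp
  refine ⟨hF.meas.const_mul c, ⟨|c| * b, fun x => ?_⟩, ⟨R, fun x hx => ?_⟩⟩
  · rw [abs_mul]
    exact mul_le_mul_of_nonneg_left (hb x) (abs_nonneg c)
  · rw [hR x hx, mul_zero]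

theorem adm_abs {F : E → ℝ} (hF : Adm F) : Adm (fun x => |F x|) := by
  obtain ⟨b, hb⟩ := hF.bdd
  obtain ⟨R, hR⟩ := hF.supp
  refine ⟨hF.meas.abs, ⟨b, fun x => ?_⟩, ⟨R, fun x hx => ?_⟩⟩
  · rw [abs_abs]
    exact hb x
  · rw [hR x hx, abs_zero]

theorem adm_bg (ρ : ℝ) {D : Set E} (hD : BM D) : Adm (bg ρ D) := by
  obtain ⟨h1, h2⟩ := hD
  obtain ⟨R, hR⟩ := h2.exists_norm_le
  refine ⟨measurable_const.indicator h1, ⟨|ρ|, fun x => ?_⟩, ⟨R, fun x hx => ?_⟩⟩
  · unfold bg
    by_cases hx : x ∈ D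
    · rw [indicator_of_mem hx, abs_neg]
    · rw [indicator_of_notMem hx, abs_zero]
      exact abs_nonneg ρ
  · unfold bg
    rw [indicator_of_notMem]
    intro hxD
    exact absurd (hR x hxD) (not_le.mpr hx)

/-! ### energies -/

theorem pairE_eq {ι : Type} [Fintype ι] [DecidableEq ι] (X : ι → E) :
    pairE X = (1 / 2) * ∑ i, ∑ j, ‖X i - X j‖⁻¹ := by
  unfold pairE
  congr 1
  apply Finset.sum_congr rfl
  intro i _
  rw [← Finset.add_sum_erase Finset.univ _ (Finset.mem_univ i), sub_self, norm_zero, inv_zero,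
    zero_add]

theorem pairE_append {N n : ℕ} (Y : Fin N → E) (X : Fin n → E) :
    pairE (Fin.append Y X) = pairE Y + pairE X + ∑ i, ∑ j, ‖Y i - X j‖⁻¹ := by
  rw [pairE_eq, pairE_eq, pairE_eq, Fin.sum_univ_add]
  simp only [Fin.sum_univ_add, Fin.append_left, Fin.append_right, Finset.sum_add_distrib]
  have h : ∑ x, ∑ y, ‖X x - Y y‖⁻¹ = ∑ i, ∑ j, ‖Y i - X j‖⁻¹ := by
    rw [Finset.sum_comm]
    apply Finset.sum_congr rfl
    intro i _
    apply Finset.sum_congr rfl
    intro j _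
    rw [norm_sub_rev]
  rw [h]
  ring

theorem pairE_perm {n : ℕ} (σ : Equiv.Perm (Fin n)) (X : Fin n → E) :
    pairE (X ∘ σ) = pairE X := by
  rw [pairE_eq, pairE_eq]
  congr 1
  rw [← Equiv.sum_comp σ (fun i => ∑ j, ‖X i - X j‖⁻¹)]
  apply Finset.sum_congr rfl
  intro i _
  rw [← Equiv.sum_comp σ (fun j => ‖X (σ i) - X j‖⁻¹)]
  rfl

theorem En_perm (F : E → ℝ) {n : ℕ} (σ : Equiv.Perm (Fin n)) (X : Fin n → E) :
    En F (X ∘ σ) = En F X := by
  unfold En
  rw [pairE_perm, ← Equiv.sum_comp σ (fun i => pot F (X i))]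
  rfl

theorem En_append (F : E → ℝ) {N n : ℕ} (Y : Fin N → E) (X : Fin n → E) :
    En F (Fin.append Y X) = pairE Y + pairE X + ∑ i, ∑ j, ‖Y i - X j‖⁻¹
      + (∑ i, pot F (Y i) + ∑ j, pot F (X j)) + (1 / 2) * Dfm F F := by
  unfold En
  rw [pairE_append, Fin.sum_univ_add]
  simp only [Fin.append_left, Fin.append_right]

theorem HC_perm {a : ℝ} {n : ℕ} (σ : Equiv.Perm (Fin n)) (X : Fin n → E) :
    HC a (X ∘ σ) ↔ HC a X := by
  constructor
  · intro h i j hij
    have := h (σ.symm i) (σ.symm j) (fun h' => hij (σ.symm.injective h'))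
    simpa using this
  · intro h i j hij
    exact h (σ i) (σ j) (fun h' => hij (σ.injective h'))

theorem HC_append {a r : ℝ} {z : E} {N n : ℕ} {Y : Fin N → E} {X : Fin n → E} (hY : HC a Y)
    (hX : HC a X) (hY' : ∀ i, r + a ≤ ‖Y i - z‖) (hX' : ∀ j, ‖X j - z‖ ≤ r) :
    HC a (Fin.append Y X) := by
  have hc : ∀ i j, a ≤ ‖Y i - X j‖ := by
    intro i j
    have h1 : ‖Y i - z‖ ≤ ‖Y i - X j‖ + ‖X j - z‖ := by
      have := norm_add_le (Y i - X j) (X j - z)
      rwa [sub_add_sub_cancel] at this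
    linarith [hY' i, hX' j]
  intro i j
  induction i using Fin.addCases with
  | left i =>
    induction j using Fin.addCases with
    | left j =>
      intro hij
      rw [Fin.append_left, Fin.append_left]
      exact hY i j (fun h => hij (by rw [h]))
    | right j =>
      intro _
      rw [Fin.append_left, Fin.append_right]
      exact hc i j
  | right i =>
    induction j using Fin.addCases with
    | left j =>
      intro _
      rw [Fin.append_left, Fin.append_right, norm_sub_rev]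
      exact hc j i
    | right j =>
      intro hij
      rw [Fin.append_right, Fin.append_right]
      exact hX i j (fun h => hij (by rw [h]))

/-! ### the Gibbs variational inequality -/

theorem ofReal_integral_le {α : Type*} [MeasurableSpace α] {μ : Measure α} {h : α → ℝ}
    (hh : Integrable h μ) : ENNReal.ofReal (∫ x, h x ∂μ) ≤ ∫⁻ x, ENNReal.ofReal (h x) ∂μ := by
  rw [integral_eq_lintegral_pos_part_sub_lintegral_neg_part hh]
  refine (ENNReal.ofReal_le_ofReal (sub_le_self _ ENNReal.toReal_nonneg)).trans ?_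
  exact ENNReal.ofReal_toReal_le

theorem gibbs {α : Type*} [MeasurableSpace α] {μ : Measure α} {w g : α → ℝ} {β m : ℝ}
    (hw : Integrable w μ) (hw0 : ∀ x, 0 ≤ w x) (hwg : Integrable (fun x => w x * g x) μ)
    (hm : ∫ x, w x * g x ∂μ = m * ∫ x, w x ∂μ) :
    ENNReal.ofReal (Real.exp (-β * m) * ∫ x, w x ∂μ) ≤
      ∫⁻ x, ENNReal.ofReal (w x * Real.exp (-β * g x)) ∂μ := by
  have hi : Integrable (fun x => Real.exp (-β * m) * ((1 + β * m) * w x - β * (w x * g x))) μ :=
    ((hw.const_mul _).sub (hwg.const_mul _)).const_mul _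
  have hI : ∫ x, Real.exp (-β * m) * ((1 + β * m) * w x - β * (w x * g x)) ∂μ =
      Real.exp (-β * m) * ∫ x, w x ∂μ := by
    rw [integral_const_mul, integral_sub (hw.const_mul _) (hwg.const_mul _), integral_const_mul,
      integral_const_mul, hm]
    ring
  rw [← hI]
  refine (ofReal_integral_le hi).trans ?_
  apply lintegral_mono
  intro x
  apply ENNReal.ofReal_le_ofReal
  have h1 : Real.exp (-β * g x) = Real.exp (-β * m) * Real.exp (-β * (g x - m)) := by
    rw [← Real.exp_add]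
    congr 1
    ring
  have h2 := Real.add_one_le_exp (-β * (g x - m))
  have h3 : Real.exp (-β * m) * ((1 + β * m) * w x - β * (w x * g x)) =
      w x * (Real.exp (-β * m) * (-β * (g x - m) + 1)) := by ring
  show Real.exp (-β * m) * ((1 + β * m) * w x - β * (w x * g x)) ≤ w x * Real.exp (-β * g x)
  rw [h3, h1]
  exact mul_le_mul_of_nonneg_left (mul_le_mul_of_nonneg_left h2 (Real.exp_pos _).le) (hw0 x)

/-! ### mean values in the Gibbs state of the ball -/

theorem pot_bdd (hPot : Stmt_Pot) {F : E → ℝ} (hF : Adm F) : ∃ C, ∀ x, |pot F x| ≤ C := by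
  obtain ⟨b, hb⟩ := hF.bdd
  obtain ⟨R, hR⟩ := hF.supp
  refine ⟨b * (2 * π * 1 ^ 2 + volume.real (cB (0 : E) R) / 1), fun x => ?_⟩
  refine hPot.2.2.1 F b 1 (cB 0 R) hF hb Metric.isClosed_closedBall.measurableSet
    measure_closedBall_lt_top ?_ one_pos x
  intro y hy
  apply hR
  by_contra h
  push Not at h
  exact hy (by simpa using h)

theorem bm_ball (z : E) (r : ℝ) : BM (cB z r) :=
  ⟨Metric.isClosed_closedBall.measurableSet, Metric.isBounded_closedBall⟩

theorem int_w (hMeas : Stmt_Meas) {a β ρ r : ℝ} (z : E) (n : ℕ) (ha : 0 < a) (hβ : 0 < β) :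
    Integrable (fun X : Fin n → E => Real.exp (-β * En (bg ρ (cB z r)) X))
      (volume.restrict (conf a (cB z r) n)) :=
  hMeas.2.2.1 a β _ (cB z r) n ha hβ (adm_bg ρ (bm_ball z r)) (bm_ball z r)

theorem meas_w (hMeas : Stmt_Meas) {β ρ r : ℝ} (z : E) (n : ℕ) :
    Measurable (fun X : Fin n → E => Real.exp (-β * En (bg ρ (cB z r)) X)) :=
  Real.measurable_exp.comp ((hMeas.1 _ n (adm_bg ρ (bm_ball z r))).const_mul (-β))

theorem int_pot (hPot : Stmt_Pot) {n : ℕ} {μ : Measure (Fin n → E)} {w : (Fin n → E) → ℝ}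
    (hw : Integrable w μ) {H : E → ℝ} (hH : Adm H) :
    Integrable (fun X => w X * ∑ j, pot H (X j)) μ := by
  obtain ⟨C, hC⟩ := pot_bdd hPot hH
  apply hw.mul_bdd (c := n * C)
  · exact (Finset.measurable_sum _ fun j _ =>
      (hPot.1 H hH).comp (measurable_pi_apply j)).aestronglyMeasurable
  · refine Filter.Eventually.of_forall fun X => ?_
    rw [Real.norm_eq_abs]
    refine (Finset.abs_sum_le_sum_abs _ _).trans ?_
    refine (Finset.sum_le_card_nsmul _ _ C fun j _ => hC (X j)).trans ?_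
    rw [Finset.card_univ, Fintype.card_fin, nsmul_eq_mul]

theorem mean_pot (hPot : Stmt_Pot) (hRot : Stmt_Rot) (hMeas : Stmt_Meas) {a β ρ r : ℝ} (z : E)
    (n : ℕ) (ha : 0 < a) (hβ : 0 < β) (hρ : 0 < ρ) (hr : 0 < r) {H : E → ℝ} (hH : Adm H)
    (hH0 : ∀ x ∈ cB z r, H x = 0) :
    ∫ X in conf a (cB z r) n, Real.exp (-β * En (bg ρ (cB z r)) X) * ∑ j, pot H (X j) =
      n * pot H z * ∫ X in conf a (cB z r) n, Real.exp (-β * En (bg ρ (cB z r)) X) := by
  have hw := int_w (ρ := ρ) (r := r) hMeas z n ha hβ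
  have hwm := meas_w (β := β) (ρ := ρ) (r := r) hMeas z n
  have hRot' := fun y hy => hRot a β ρ r z y n ha hβ hρ hr hy
  generalize hwdef : (fun X : Fin n → E => Real.exp (-β * En (bg ρ (cB z r)) X)) = w at hw hwm
  have hw0 : ∀ X, 0 ≤ w X := by
    intro X
    rw [← hwdef]
    exact (Real.exp_pos _).le
  have hwe : ∀ X, Real.exp (-β * En (bg ρ (cB z r)) X) = w X := by
    intro X
    rw [← hwdef]
  simp_rw [hwe] at hRot' ⊢
  set μ := volume.restrict (conf a (cB z r) n) with hμ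
  -- Fubini
  have h1 : ∀ (K : E → ℝ), Adm K → ∀ X : Fin n → E,
      ∫ y, w X * ∑ j, K y * ‖X j - y‖⁻¹ = w X * ∑ j, pot K (X j) := by
    intro K hK X
    rw [integral_const_mul, integral_finsetSum]
    · rfl
    · intro j _
      exact hPot.2.1 K hK (X j)
  have hnorm : ∀ (X : Fin n → E) (y : E),
      ‖w X * ∑ j, H y * ‖X j - y‖⁻¹‖ = w X * ∑ j, |H y| * ‖X j - y‖⁻¹ := by
    intro X y
    rw [← Finset.mul_sum, ← Finset.mul_sum, Real.norm_eq_abs, abs_mul, abs_mul,
      abs_of_nonneg (hw0 X)]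
    congr 2
    exact abs_of_nonneg (Finset.sum_nonneg fun j _ => inv_nonneg.mpr (norm_nonneg _))
  have hfm : Measurable (fun p : (Fin n → E) × E => w p.1 * ∑ j, H p.2 * ‖p.1 j - p.2‖⁻¹) :=
    (hwm.comp measurable_fst).mul (Finset.measurable_sum _ fun j _ =>
      (hH.meas.comp measurable_snd).mul
        ((((measurable_pi_apply j).comp measurable_fst).sub measurable_snd).norm.inv))
  have hint : Integrable (Function.uncurry fun (X : Fin n → E) (y : E) =>
      w X * ∑ j, H y * ‖X j - y‖⁻¹) (μ.prod volume) := by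
    refine (integrable_prod_iff (f := Function.uncurry fun (X : Fin n → E) (y : E) =>
      w X * ∑ j, H y * ‖X j - y‖⁻¹) hfm.aestronglyMeasurable).mpr ⟨?_, ?_⟩
    · refine Filter.Eventually.of_forall fun X => ?_
      show Integrable (fun y => w X * ∑ j, H y * ‖X j - y‖⁻¹)
      exact (integrable_finsetSum _ fun j _ => hPot.2.1 H hH (X j)).const_mul _
    · have h2 : (fun X : Fin n → E => ∫ y, ‖Function.uncurry (fun (X : Fin n → E) (y : E) =>
          w X * ∑ j, H y * ‖X j - y‖⁻¹) (X, y)‖) =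
          fun X => w X * ∑ j, pot (fun x => |H x|) (X j) := by
        funext X
        rw [← h1 _ (adm_abs hH) X]
        apply integral_congr_ae
        exact Filter.Eventually.of_forall fun y => hnorm X y
      rw [h2]
      exact int_pot hPot hw (adm_abs hH)
  have h3 := integral_integral_swap hint
  calc ∫ X, w X * ∑ j, pot H (X j) ∂μ
      = ∫ X, (∫ y, w X * ∑ j, H y * ‖X j - y‖⁻¹) ∂μ := by
        apply integral_congr_ae
        exact Filter.Eventually.of_forall fun X => (h1 H hH X).symm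
    _ = ∫ y, (∫ X, w X * ∑ j, H y * ‖X j - y‖⁻¹ ∂μ) := h3
    _ = ∫ y, (H y * ‖z - y‖⁻¹) * (n * ∫ X, w X ∂μ) := by
        apply integral_congr_ae
        refine Filter.Eventually.of_forall fun y => ?_
        show ∫ X, w X * ∑ j, H y * ‖X j - y‖⁻¹ ∂μ = (H y * ‖z - y‖⁻¹) * (n * ∫ X, w X ∂μ)
        by_cases hy : y ∈ cB z r
        · rw [hH0 y hy]
          simp
        · have hy' : r < ‖y - z‖ := by
            rw [Metric.mem_closedBall, dist_eq_norm] at hy
            push Not at hy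
            exact hy
          have h4 : ∀ X : Fin n → E, w X * ∑ j, H y * ‖X j - y‖⁻¹ =
              H y * (w X * ∑ j, ‖X j - y‖⁻¹) := by
            intro X
            rw [← Finset.mul_sum]
            ring
          simp_rw [h4]
          rw [integral_const_mul, hRot' y hy', norm_sub_rev z y]
          ring
    _ = n * pot H z * ∫ X, w X ∂μ := by
        rw [integral_mul_const]
        show pot H z * _ = _
        ring

/-! ### electrostatics -/

theorem pot_smul (c : ℝ) (F : E → ℝ) (x : E) : pot (fun y => c * F y) x = c * pot F x := by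
  unfold pot
  rw [← integral_const_mul]
  apply integral_congr_ae
  exact Filter.Eventually.of_forall fun y => by
    show c * F y * ‖x - y‖⁻¹ = c * (F y * ‖x - y‖⁻¹)
    ring

theorem Dfm_smul_right (c : ℝ) (F G : E → ℝ) : Dfm F (fun y => c * G y) = c * Dfm F G := by
  unfold Dfm
  rw [← integral_const_mul]
  apply integral_congr_ae
  exact Filter.Eventually.of_forall fun y => by
    show F y * pot (fun y => c * G y) y = c * (F y * pot G y)
    rw [pot_smul]
    ring

theorem Dfm_smul_left (c : ℝ) (F G : E → ℝ) : Dfm (fun y => c * F y) G = c * Dfm F G := by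
  unfold Dfm
  rw [← integral_const_mul]
  apply integral_congr_ae
  exact Filter.Eventually.of_forall fun y => by
    show c * F y * pot G y = c * (F y * pot G y)
    ring

theorem pot_bg (hNewt : Stmt_Newt) (ρ : ℝ) {r : ℝ} (hr : 0 < r) (z x : E) (hx : r < ‖x - z‖) :
    pot (bg ρ (cB z r)) x = -ρ * vb r * ‖x - z‖⁻¹ := by
  have h1 := hNewt.1 r z x hr
  rw [nt, if_neg (not_le.mpr hx)] at h1
  unfold pot
  have h2 : (fun y => bg ρ (cB z r) y * ‖x - y‖⁻¹) =
      (cB z r).indicator (fun y => -ρ * ‖x - y‖⁻¹) := by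
    funext y
    unfold bg
    by_cases hy : y ∈ cB z r
    · rw [indicator_of_mem hy, indicator_of_mem hy]
    · rw [indicator_of_notMem hy, indicator_of_notMem hy, zero_mul]
  rw [h2, integral_indicator (bm_ball z r).1, integral_const_mul, h1]
  ring

theorem Dfm_bg (hNewt : Stmt_Newt) (ρ : ℝ) {r : ℝ} (hr : 0 < r) (z : E) {H : E → ℝ}
    (hH0 : ∀ x ∈ cB z r, H x = 0) : Dfm H (bg ρ (cB z r)) = -ρ * vb r * pot H z := by
  unfold Dfm pot
  rw [← integral_const_mul]
  apply integral_congr_ae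
  refine Filter.Eventually.of_forall fun x => ?_
  show H x * pot (bg ρ (cB z r)) x = -ρ * vb r * (H x * ‖z - x‖⁻¹)
  by_cases hx : x ∈ cB z r
  · rw [hH0 x hx]
    ring
  · rw [Metric.mem_closedBall, dist_eq_norm] at hx
    push Not at hx
    rw [pot_bg hNewt ρ hr z x hx, norm_sub_rev z x]
    ring

theorem Dfm_sh (hSh : Stmt_Sh) {r : ℝ} (hr : 2 ≤ r) (z : E) {H : E → ℝ}
    (hH0 : ∀ x ∈ cB z r, H x = 0) : Dfm H (sh z r) = pot H z := by
  unfold Dfm pot
  apply integral_congr_ae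
  refine Filter.Eventually.of_forall fun x => ?_
  show H x * pot (sh z r) x = H x * ‖z - x‖⁻¹
  by_cases hx : x ∈ cB z r
  · rw [hH0 x hx]
    ring
  · rw [Metric.mem_closedBall, dist_eq_norm] at hx
    push Not at hx
    rw [(hSh z r hr).2.2.2.2 x hx.le, norm_sub_rev z x]

theorem Dfm_sh_nonneg (hSh : Stmt_Sh) {r : ℝ} (hr : 2 ≤ r) (z : E) :
    0 ≤ Dfm (sh z r) (sh z r) := by
  have h := (hSh z r hr).2.2.1
  unfold Dfm
  apply integral_nonneg
  intro x
  refine mul_nonneg (h x).1 ?_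
  unfold pot
  apply integral_nonneg
  intro y
  exact mul_nonneg (h y).1 (inv_nonneg.mpr (norm_nonneg _))

/-- the charge density after the insertion -/
theorem F'_eq {ρ r Q : ℝ} {z : E} {F : E → ℝ} :
    (fun x => F x + (ρ * (cB z r).indicator (1 : E → ℝ) x + Q * sh z r x)) =
      fun x => (F x + (-1) * bg ρ (cB z r) x) + Q * sh z r x := by
  funext x
  unfold bg
  by_cases hx : x ∈ cB z r
  · rw [indicator_of_mem hx, indicator_of_mem hx, Pi.one_apply]
    ring
  · rw [indicator_of_notMem hx, indicator_of_notMem hx]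
    ring

/-- comparison of the energies of the points outside the ball -/
theorem energy_le (hPot : Stmt_Pot) (hSh : Stmt_Sh) (hNewt : Stmt_Newt) {a ρ r : ℝ} (z : E)
    (n N : ℕ) {F : E → ℝ} (ha : 0 < a) (hr : 2 ≤ r) (hF : Adm F) (Y : Fin N → E) (hY : ∀ i, r + a ≤ ‖Y i - z‖)
    {H : E → ℝ} (hHd : H = fun x => F x + (-1) * bg ρ (cB z r) x) (hH0 : ∀ x ∈ cB z r, H x = 0) :
    n * pot H z + ∑ i, n * ‖Y i - z‖⁻¹ + (pairE Y + ∑ i, pot F (Y i) + 1 / 2 * Dfm F F
      - 1 / 2 * Dfm (bg ρ (cB z r)) (bg ρ (cB z r))) + 1 / 2 * ((n : ℝ) - ρ * vb r) ^ 2 *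
        Dfm (sh z r) (sh z r) =
      En (fun x => F x + (ρ * (cB z r).indicator (1 : E → ℝ) x
        + ((n : ℝ) - ρ * vb r) * sh z r x)) Y := by
  have hG : Adm (bg ρ (cB z r)) := adm_bg ρ (bm_ball z r)
  have hH : Adm H := by
    rw [hHd]
    exact adm_add hF (adm_smul hG (-1))
  have hS := (hSh z r hr).1
  have hr0 : 0 < r := by linarith
  set Q := (n : ℝ) - ρ * vb r with hQ
  rw [F'_eq]
  have e1 : (fun x => F x + (-1) * bg ρ (cB z r) x + Q * sh z r x) =
      fun x => H x + Q * sh z r x := by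
    rw [hHd]
  rw [e1]
  have e2 : F = fun x => bg ρ (cB z r) x + H x := by
    rw [hHd]
    funext x
    ring
  obtain ⟨-, -, -, -, hsym, hpadd, hDl, hDr⟩ := hPot
  have hQS := adm_smul hS Q
  have d1 : Dfm (fun x => H x + Q * sh z r x) (fun x => H x + Q * sh z r x) =
      Dfm H H + 2 * Q * pot H z + Q ^ 2 * Dfm (sh z r) (sh z r) := by
    rw [hDl H _ _ hH hQS (adm_add hH hQS), hDr H _ H hH hQS hH, hDr H _ _ hH hQS hQS,
      hsym _ H hQS hH, Dfm_smul_right, Dfm_smul_right, Dfm_smul_left, Dfm_sh hSh hr z hH0]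
    ring
  have d2 : Dfm F F = Dfm (bg ρ (cB z r)) (bg ρ (cB z r)) + 2 * (-ρ * vb r * pot H z)
      + Dfm H H := by
    conv_lhs => rw [e2]
    rw [hDl _ H _ hG hH (adm_add hG hH), hDr _ H _ hG hH hG, hDr _ H _ hG hH hH,
      hsym _ H hG hH, Dfm_bg hNewt ρ hr0 z hH0]
    ring
  have p1 : ∀ i, pot (fun x => H x + Q * sh z r x) (Y i) = pot F (Y i) + n * ‖Y i - z‖⁻¹ := by
    intro i
    have h1 : r < ‖Y i - z‖ := by linarith [hY i]
    have h2 : pot F (Y i) = pot (bg ρ (cB z r)) (Y i) + pot H (Y i) := by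
      conv_lhs => rw [e2]
      exact hpadd _ _ hG hH _
    rw [hpadd _ _ hH hQS, pot_smul, (hSh z r hr).2.2.2.2 _ h1.le, h2,
      pot_bg hNewt ρ hr0 z _ h1, hQ]
    ring
  unfold En
  simp_rw [p1]
  rw [d1, d2, Finset.sum_add_distrib]
  rw [hQ]
  ring

/-- average over the points of the ball -/
theorem inner (hPot : Stmt_Pot) (hRot : Stmt_Rot) (hMeas : Stmt_Meas) (hSh : Stmt_Sh)
    (hNewt : Stmt_Newt) {a β ρ r : ℝ} (z : E) (n N : ℕ) {F : E → ℝ} (ha : 0 < a) (hβ : 0 < β)
    (hρ : 0 < ρ) (hr : 2 ≤ r) (hF : Adm F) (hFB : ∀ x ∈ cB z r, F x = -ρ) (Y : Fin N → E)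
    (hY : ∀ i, r + a ≤ ‖Y i - z‖) :
    ENNReal.ofReal (Real.exp (-β * En (fun x => F x + (ρ * (cB z r).indicator (1 : E → ℝ) x
        + ((n : ℝ) - ρ * vb r) * sh z r x)) Y) *
        ∫ X in conf a (cB z r) n, Real.exp (-β * En (bg ρ (cB z r)) X)) ≤
      ∫⁻ X in conf a (cB z r) n, ENNReal.ofReal (Real.exp (-β * En F (Fin.append Y X))) := by
  have hG : Adm (bg ρ (cB z r)) := adm_bg ρ (bm_ball z r)
  obtain ⟨H, hHd⟩ : ∃ H : E → ℝ, H = fun x => F x + (-1) * bg ρ (cB z r) x := ⟨_, rfl⟩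
  have hH : Adm H := by
    rw [hHd]
    exact adm_add hF (adm_smul hG (-1))
  have hH0 : ∀ x ∈ cB z r, H x = 0 := by
    intro x hx
    rw [hHd]
    show F x + (-1) * bg ρ (cB z r) x = 0
    unfold bg
    rw [hFB x hx, indicator_of_mem hx]
    ring
  have hr0 : 0 < r := by linarith
  have hen := energy_le hPot hSh hNewt z n N ha hr hF Y hY hHd hH0
  have hmp := mean_pot hPot hRot hMeas z n ha hβ hρ hr0 hH hH0
  have hRot' := fun i => hRot a β ρ r z (Y i) n ha hβ hρ hr0 (by linarith [hY i])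
  have hw := int_w (ρ := ρ) (r := r) hMeas z n ha hβ
  have hconf : MeasurableSet (conf a (cB z r) n) := hMeas.2.1 a _ n (bm_ball z r).1
  obtain ⟨c, hc⟩ : ∃ c : ℝ, c = pairE Y + ∑ i, pot F (Y i) + 1 / 2 * Dfm F F
      - 1 / 2 * Dfm (bg ρ (cB z r)) (bg ρ (cB z r)) := ⟨_, rfl⟩
  rw [← hc] at hen
  -- decomposition of the energy
  have hdec : ∀ X : Fin n → E, En F (Fin.append Y X) = En (bg ρ (cB z r)) X +
      (∑ j, pot H (X j) + ∑ i, ∑ j, ‖X j - Y i‖⁻¹ + c) := by
    intro X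
    rw [En_append, hc]
    have e2 : F = fun x => bg ρ (cB z r) x + H x := by
      rw [hHd]
      funext x
      ring
    have h1 : ∑ j, pot F (X j) = ∑ j, pot (bg ρ (cB z r)) (X j) + ∑ j, pot H (X j) := by
      rw [← Finset.sum_add_distrib]
      apply Finset.sum_congr rfl
      intro j _
      conv_lhs => rw [e2]
      exact hPot.2.2.2.2.2.1 _ _ hG hH _
    have h2 : ∑ i, ∑ j, ‖Y i - X j‖⁻¹ = ∑ i, ∑ j, ‖X j - Y i‖⁻¹ := by
      apply Finset.sum_congr rfl
      intro i _
      apply Finset.sum_congr rfl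
      intro j _
      rw [norm_sub_rev]
    rw [h1, h2]
    unfold En
    ring
  have hI1 := int_pot hPot hw hH
  have hI2 : ∀ i, Integrable (fun X : Fin n → E => Real.exp (-β * En (bg ρ (cB z r)) X) *
      ∑ j, ‖X j - Y i‖⁻¹) (volume.restrict (conf a (cB z r) n)) := by
    intro i
    apply hw.mul_bdd (c := n * a⁻¹)
    · exact (Finset.measurable_sum _ fun j _ =>
        ((measurable_pi_apply j).sub measurable_const).norm.inv).aestronglyMeasurable
    · rw [ae_restrict_iff' hconf]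
      refine Filter.Eventually.of_forall fun X hX => ?_
      rw [Real.norm_eq_abs]
      refine (Finset.abs_sum_le_sum_abs _ _).trans ?_
      refine (Finset.sum_le_card_nsmul _ _ a⁻¹ fun j _ => ?_).trans ?_
      · rw [abs_of_nonneg (inv_nonneg.mpr (norm_nonneg _))]
        apply inv_anti₀ ha
        have h1 : ‖X j - z‖ ≤ r := by
          have := hX.2 j
          rwa [Metric.mem_closedBall, dist_eq_norm] at this
        have h2 : ‖Y i - z‖ ≤ ‖X j - Y i‖ + ‖X j - z‖ := by
          have := norm_sub_le (X j - z) (X j - Y i)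
          rw [sub_sub_sub_cancel_left] at this
          linarith
        linarith [hY i]
      · rw [Finset.card_univ, Fintype.card_fin, nsmul_eq_mul]
  have hsplit : (fun X : Fin n → E => Real.exp (-β * En (bg ρ (cB z r)) X) *
      (∑ j, pot H (X j) + ∑ i, ∑ j, ‖X j - Y i‖⁻¹ + c)) = fun X =>
      Real.exp (-β * En (bg ρ (cB z r)) X) * ∑ j, pot H (X j) +
      ∑ i, Real.exp (-β * En (bg ρ (cB z r)) X) * ∑ j, ‖X j - Y i‖⁻¹ +
      c * Real.exp (-β * En (bg ρ (cB z r)) X) := by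
    funext X
    rw [mul_add, mul_add, Finset.mul_sum (s := Finset.univ)
      (f := fun i => ∑ j, ‖X j - Y i‖⁻¹)]
    ring
  have hI3 : Integrable (fun X : Fin n → E => ∑ i, Real.exp (-β * En (bg ρ (cB z r)) X) *
      ∑ j, ‖X j - Y i‖⁻¹) (volume.restrict (conf a (cB z r) n)) :=
    integrable_finsetSum _ fun i _ => hI2 i
  have hI4 : Integrable (fun X : Fin n → E => Real.exp (-β * En (bg ρ (cB z r)) X) *
      ∑ j, pot H (X j) + ∑ i, Real.exp (-β * En (bg ρ (cB z r)) X) *
      ∑ j, ‖X j - Y i‖⁻¹) (volume.restrict (conf a (cB z r) n)) := hI1.add hI3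
  have hwg : Integrable (fun X : Fin n → E => Real.exp (-β * En (bg ρ (cB z r)) X) *
      (∑ j, pot H (X j) + ∑ i, ∑ j, ‖X j - Y i‖⁻¹ + c))
      (volume.restrict (conf a (cB z r) n)) := by
    rw [hsplit]
    exact hI4.add (hw.const_mul c)
  have hm : ∫ X in conf a (cB z r) n, Real.exp (-β * En (bg ρ (cB z r)) X) *
      (∑ j, pot H (X j) + ∑ i, ∑ j, ‖X j - Y i‖⁻¹ + c) =
      (n * pot H z + ∑ i, n * ‖Y i - z‖⁻¹ + c) *
        ∫ X in conf a (cB z r) n, Real.exp (-β * En (bg ρ (cB z r)) X) := by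
    rw [hsplit, integral_add hI4 (hw.const_mul c), integral_add hI1 hI3,
      integral_finsetSum _ fun i _ => hI2 i, integral_const_mul, hmp]
    simp_rw [hRot']
    rw [← Finset.sum_mul]
    ring
  have hg := gibbs (β := β) hw (fun X => (Real.exp_pos _).le) hwg hm
  refine le_trans ?_ (hg.trans (le_of_eq ?_))
  · apply ENNReal.ofReal_le_ofReal
    apply mul_le_mul_of_nonneg_right
    · apply Real.exp_le_exp.mpr
      have h1 := Dfm_sh_nonneg hSh hr z
      have h2 : 0 ≤ 1 / 2 * ((n : ℝ) - ρ * vb r) ^ 2 * Dfm (sh z r) (sh z r) := by positivity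
      have h3 : n * pot H z + ∑ i, n * ‖Y i - z‖⁻¹ + c ≤
          En (fun x => F x + (ρ * (cB z r).indicator (1 : E → ℝ) x
            + ((n : ℝ) - ρ * vb r) * sh z r x)) Y := by linarith
      have h4 := mul_le_mul_of_nonneg_left h3 hβ.le
      linarith
    · exact integral_nonneg fun X => (Real.exp_pos _).le
  · apply lintegral_congr
    intro X
    rw [hdec X, ← Real.exp_add]
    congr 2
    ring

/-! ### assembly -/

/-- the symmetric functions to which the binomial splitting is applied -/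
noncomputable def fI (a β : ℝ) (F : E → ℝ) (k : ℕ) (X : Fin k → E) : ENNReal :=
  (conf a univ k).indicator (fun X => ENNReal.ofReal (Real.exp (-β * En F X))) X

theorem fI_meas (hMeas : Stmt_Meas) (a β : ℝ) {F : E → ℝ} (hF : Adm F) (k : ℕ) :
    Measurable (fI a β F k) :=
  (Real.measurable_exp.comp ((hMeas.1 F k hF).const_mul (-β))).ennreal_ofReal.indicator
    (hMeas.2.1 a univ k MeasurableSet.univ)

theorem fI_perm (a β : ℝ) (F : E → ℝ) (k : ℕ) (σ : Equiv.Perm (Fin k)) (X : Fin k → E) :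
    fI a β F k (X ∘ σ) = fI a β F k X := by
  unfold fI
  have h : (X ∘ σ ∈ conf a univ k) ↔ X ∈ conf a univ k := by
    constructor
    · intro hX
      exact ⟨(HC_perm σ X).mp hX.1, fun _ => mem_univ _⟩
    · intro hX
      exact ⟨(HC_perm σ X).mpr hX.1, fun _ => mem_univ _⟩
  by_cases hX : X ∈ conf a univ k
  · rw [indicator_of_mem hX, indicator_of_mem (h.mpr hX), En_perm]
  · rw [indicator_of_notMem hX, indicator_of_notMem (fun h' => hX (h.mp h'))]

theorem fI_int (hMeas : Stmt_Meas) {a β : ℝ} {F : E → ℝ} {D : Set E} (k : ℕ) (ha : 0 < a)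
    (hβ : 0 < β) (hF : Adm F) (hD : BM D) :
    ∫⁻ X in {X : Fin k → E | ∀ i, X i ∈ D}, fI a β F k X =
      ENNReal.ofReal (∫ X in conf a D k, Real.exp (-β * En F X)) := by
  rw [ofReal_integral_eq_lintegral_ofReal (hMeas.2.2.1 a β F D k ha hβ hF hD)
    (Filter.Eventually.of_forall fun X => (Real.exp_pos _).le)]
  unfold fI
  have hc : MeasurableSet (conf a univ k) := hMeas.2.1 a univ k MeasurableSet.univ
  rw [lintegral_indicator hc, Measure.restrict_restrict hc]
  have h : conf a univ k ∩ {X : Fin k → E | ∀ i, X i ∈ D} = conf a D k := by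
    ext X
    constructor
    · rintro ⟨h1, h2⟩
      exact ⟨h1.1, h2⟩
    · rintro ⟨h1, h2⟩
      exact ⟨⟨h1, fun _ => mem_univ _⟩, h2⟩
  rw [h]

end Ins_

open Ins_ in
theorem Ins_proof (hPot : Stmt_Pot) (hRot : Stmt_Rot) (hMeas : Stmt_Meas)
    (hBinom : Stmt_Binom) (hSh : Stmt_Sh) (hNewt : Stmt_Newt) : Stmt_Ins := by
  intro a β ρ r z n N F D ha hβ hρ hr hF hFB hD hDr
  have hB := bm_ball z r
  have hr0 : 0 < r := by linarith
  have hDB : BM (D ∪ cB z r) := ⟨hD.1.union hB.1, hD.2.union hB.2⟩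
  have hdisj : Disjoint D (cB z r) := by
    rw [Set.disjoint_left]
    intro x hx hx'
    have h1 := hDr x hx
    rw [Metric.mem_closedBall, dist_eq_norm] at hx'
    linarith
  obtain ⟨F', hF'⟩ : ∃ F' : E → ℝ, F' = fun x => F x + (ρ * (cB z r).indicator (1 : E → ℝ) x
        + ((n : ℝ) - ρ * vb r) * sh z r x) := ⟨_, rfl⟩
  have hF'A : Adm F' := by
    rw [hF', F'_eq]
    exact adm_add (adm_add hF (adm_smul (adm_bg ρ hB) (-1))) (adm_smul (hSh z r hr).1 _)
  have hinner := fun (Y : Fin N → E) hY => inner hPot hRot hMeas hSh hNewt z n N ha hβ hρ hr hF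
    hFB Y hY
  rw [← hF'] at hinner ⊢
  obtain ⟨W, hW⟩ : ∃ W : ℝ, W = ∫ X in conf a (cB z r) n, Real.exp (-β * En (bg ρ (cB z r)) X) :=
    ⟨_, rfl⟩
  obtain ⟨W', hW'⟩ : ∃ W' : ℝ, W' = ∫ X in conf a D N, Real.exp (-β * En F' X) := ⟨_, rfl⟩
  obtain ⟨V, hV⟩ : ∃ V : ℝ, V = ∫ X in conf a (D ∪ cB z r) (N + n), Real.exp (-β * En F X) :=
    ⟨_, rfl⟩
  have hW0 : 0 ≤ W := by
    rw [hW]
    exact integral_nonneg fun X => (Real.exp_pos _).le
  have hW'0 : 0 ≤ W' := by
    rw [hW']
    exact integral_nonneg fun X => (Real.exp_pos _).le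
  have hV0 : 0 ≤ V := by
    rw [hV]
    exact integral_nonneg fun X => (Real.exp_pos _).le
  have hb := hBinom D (cB z r) hD.1 hB.1 hdisj (fI a β F) (fI_meas hMeas a β hF)
    (fun k σ X => fI_perm a β F k σ X) (N + n)
  rw [fI_int hMeas (N + n) ha hβ hF hDB, ← hV] at hb
  have hcD : MeasurableSet (conf a D N) := hMeas.2.1 a D N hD.1
  have hcB : MeasurableSet (conf a (cB z r) n) := hMeas.2.1 a _ n hB.1
  -- the main term of the binomial formula
  have h1 : ((N + n).choose N : ENNReal) *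
      ∫⁻ x in {x : Fin N → E | ∀ i, x i ∈ D}, ∫⁻ y in {y : Fin n → E | ∀ i, y i ∈ cB z r},
        fI a β F (N + n) (Fin.append x y) ≤ ENNReal.ofReal V := by
    rw [hb]
    exact Finset.single_le_sum (f := fun p : ℕ × ℕ => ((N + n).choose p.1 : ENNReal) *
      ∫⁻ x in {x : Fin p.1 → E | ∀ i, x i ∈ D}, ∫⁻ y in {y : Fin p.2 → E | ∀ i, y i ∈ cB z r},
        fI a β F (p.1 + p.2) (Fin.append x y)) (fun _ _ => bot_le)
      (Finset.HasAntidiagonal.mem_antidiagonal.mpr rfl :
        (N, n) ∈ Finset.HasAntidiagonal.antidiagonal (N + n))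
  have h2 : ENNReal.ofReal (W' * W) ≤ ∫⁻ x in {x : Fin N → E | ∀ i, x i ∈ D},
      ∫⁻ y in {y : Fin n → E | ∀ i, y i ∈ cB z r}, fI a β F (N + n) (Fin.append x y) := by
    rw [ENNReal.ofReal_mul hW'0]
    nth_rewrite 1 [hW']
    rw [ofReal_integral_eq_lintegral_ofReal (hMeas.2.2.1 a β F' D N ha hβ hF'A hD)
      (Filter.Eventually.of_forall fun X => (Real.exp_pos _).le),
      ← lintegral_mul_const' _ _ ENNReal.ofReal_ne_top]
    refine le_trans ?_ (lintegral_mono_set (s := conf a D N) fun X hX => hX.2)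
    refine setLIntegral_mono' hcD fun Y hY => ?_
    rw [← ENNReal.ofReal_mul (Real.exp_pos _).le, hW]
    refine (hinner Y fun i => hDr _ (hY.2 i)).trans ?_
    refine le_trans ?_ (lintegral_mono_set (s := conf a (cB z r) n) fun X hX => hX.2)
    refine setLIntegral_mono' hcB fun X hX => ?_
    unfold fI
    rw [indicator_of_mem]
    refine ⟨HC_append hY.1 hX.1 (fun i => hDr _ (hY.2 i)) fun j => ?_, fun _ => mem_univ _⟩
    have := hX.2 j
    rwa [Metric.mem_closedBall, dist_eq_norm] at this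
  have h3 : ((N + n).choose N : ℝ) * (W' * W) ≤ V := by
    rw [← ENNReal.ofReal_le_ofReal_iff hV0, ENNReal.ofReal_mul (Nat.cast_nonneg _),
      ENNReal.ofReal_natCast]
    exact (mul_le_mul_right h2 _).trans h1
  unfold Z ZF
  rw [← hW, ← hW', ← hV]
  have h4 : (((N + n).choose N : ℕ) : ℝ) * (N.factorial : ℝ) * (n.factorial : ℝ) =
      ((N + n).factorial : ℝ) := by
    rw [Nat.choose_symm_add]
    exact_mod_cast Nat.add_choose_mul_factorial_mul_factorial N n
  have hNf : (0 : ℝ) < N.factorial := by exact_mod_cast Nat.factorial_pos N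
  have hnf : (0 : ℝ) < n.factorial := by exact_mod_cast Nat.factorial_pos n
  have hNnf : (0 : ℝ) < (N + n).factorial := by exact_mod_cast Nat.factorial_pos (N + n)
  calc (n.factorial : ℝ)⁻¹ * W * ((N.factorial : ℝ)⁻¹ * W')
      = ((N + n).factorial : ℝ)⁻¹ * (((N + n).choose N : ℝ) * (W' * W)) := by
        rw [← h4]
        have hch : (((N + n).choose N : ℕ) : ℝ) ≠ 0 := by
          have := Nat.choose_pos (Nat.le_add_right N n)
          exact_mod_cast this.ne'
        field_simp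
    _ ≤ ((N + n).factorial : ℝ)⁻¹ * V := mul_le_mul_of_nonneg_left h3 (inv_pos.mpr hNnf).le

end Pool.Agent.JEL
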