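import Pool.Agent.JEL.Stmts

/-!
# JEL, module InsIt: insertion of finitely many balls
-/

open MeasureTheory Set Filter Topology

namespace Pool.Agent.JEL

open scoped Real

namespace InsIt_

theorem ZF_nonneg (a β : ℝ) (F : E → ℝ) (D : Set E) (n : ℕ) : 0 ≤ ZF a β F D n := by
  unfold ZF
  exact mul_nonneg (inv_nonneg.mpr (Nat.cast_nonneg _))
    (integral_nonneg fun X => (Real.exp_pos _).le)

theorem adm_add {F G : E → ℝ} (hF : Adm F) (hG : Adm G) : Adm (fun x => F x + G x) := by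
  obtain ⟨b, hb⟩ := hF.bdd
  obtain ⟨b', hb'⟩ := hG.bdd
  obtain ⟨R, hR⟩ := hF.supp
  obtain ⟨R', hR'⟩ := hG.supp
  refine ⟨hF.meas.add hG.meas, ⟨b + b', fun x => ?_⟩, ⟨max R R', fun x hx => ?_⟩⟩
  · exact (abs_add_le _ _).trans (add_le_add (hb x) (hb' x))
  · show F x + G x = 0
    rw [hR x (lt_of_le_of_lt (le_max_left _ _) hx), hR' x (lt_of_le_of_lt (le_max_right _ _) hx),
      add_zero]

theorem adm_mul (c : ℝ) {F : E → ℝ} (hF : Adm F) : Adm (fun x => c * F x) := by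
  obtain ⟨b, hb⟩ := hF.bdd
  obtain ⟨R, hR⟩ := hF.supp
  refine ⟨hF.meas.const_mul c, ⟨|c| * b, fun x => ?_⟩, ⟨R, fun x hx => ?_⟩⟩
  · rw [abs_mul]
    exact mul_le_mul_of_nonneg_left (hb x) (abs_nonneg c)
  · show c * F x = 0
    rw [hR x hx, mul_zero]

theorem adm_ind (z : E) (r : ℝ) : Adm ((cB z r).indicator (1 : E → ℝ)) := by
  refine ⟨measurable_one.indicator Metric.isClosed_closedBall.measurableSet,
    ⟨1, fun x => ?_⟩, ⟨‖z‖ + r, fun x hx => ?_⟩⟩
  · by_cases h : x ∈ cB z r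
    · rw [Set.indicator_of_mem h]
      simp
    · rw [Set.indicator_of_notMem h]
      simp
  · refine Set.indicator_of_notMem (fun h => ?_) _
    rw [Metric.mem_closedBall, dist_eq_norm] at h
    have h1 : ‖x‖ ≤ ‖z‖ + ‖x - z‖ := by
      have := norm_add_le z (x - z)
      rwa [add_sub_cancel] at this
    linarith

/-- the charge density added by the insertion of one ball -/
noncomputable def g (ρ : ℝ) (z : E) (r : ℝ) (n : ℕ) (x : E) : ℝ :=
  ρ * (cB z r).indicator (1 : E → ℝ) x + ((n : ℝ) - ρ * vb r) * sh z r x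

theorem adm_g (hSh : Stmt_Sh) (ρ : ℝ) (z : E) (r : ℝ) (n : ℕ) (hr : 2 ≤ r) :
    Adm (g ρ z r n) :=
  adm_add (adm_mul ρ (adm_ind z r)) (adm_mul _ (hSh z r hr).1)

theorem g_zero (hSh : Stmt_Sh) (ρ : ℝ) (z : E) (r : ℝ) (n : ℕ) (hr : 2 ≤ r) (x : E)
    (hx : r < ‖x - z‖) : g ρ z r n x = 0 := by
  unfold g
  rw [(hSh z r hr).2.1 x hx, Set.indicator_of_notMem, mul_zero, mul_zero, add_zero]
  rw [Metric.mem_closedBall, dist_eq_norm, not_le]
  exact hx

theorem bm_ball (z : E) (r : ℝ) : BM (cB z r) :=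
  ⟨Metric.isClosed_closedBall.measurableSet, Metric.isBounded_closedBall⟩

theorem bm_union {A B : Set E} (hA : BM A) (hB : BM B) : BM (A ∪ B) :=
  ⟨hA.1.union hB.1, hA.2.union hB.2⟩

theorem key (hIns : Stmt_Ins) (hSh : Stmt_Sh) (a β ρ : ℝ) (ha : 0 < a) (hβ : 0 < β)
    (hρ : 0 < ρ) (K : Type) [DecidableEq K] (z : K → E) (r : K → ℝ) (n : K → ℕ)
    (hr : ∀ k, 2 ≤ r k) (hsep : ∀ k k', k ≠ k' → r k + r k' + a ≤ ‖z k - z k'‖)
    (S : Finset K) : ∀ (N : ℕ) (F : E → ℝ) (D : Set E), Adm F →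
    (∀ k ∈ S, ∀ x ∈ cB (z k) (r k), F x = -ρ) → BM D →
    (∀ k ∈ S, ∀ x ∈ D, r k + a ≤ ‖x - z k‖) →
    BM (D ∪ ⋃ k ∈ S, cB (z k) (r k)) ∧
    (∏ k ∈ S, Z a β ρ (cB (z k) (r k)) (n k)) *
        ZF a β (fun x => F x + ∑ k ∈ S, g ρ (z k) (r k) (n k) x) D N
      ≤ ZF a β F (D ∪ ⋃ k ∈ S, cB (z k) (r k)) (N + ∑ k ∈ S, n k) := by
  induction S using Finset.induction_on with
  | empty =>
    intro N F D hF _ hD _
    simp [hD]
  | insert j T hj ih =>
    intro N F D hF hFρ hD hDs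
    have hzero : ∀ k ∈ T, ∀ x ∈ cB (z k) (r k), r j + a ≤ ‖x - z j‖ := by
      intro k hk x hx
      have hkj : j ≠ k := fun h => hj (h ▸ hk)
      have h1 := hsep j k hkj
      rw [Metric.mem_closedBall, dist_eq_norm] at hx
      have h2 : ‖z j - z k‖ ≤ ‖x - z j‖ + ‖x - z k‖ := by
        have := norm_sub_le (x - z k) (x - z j)
        rw [show x - z k - (x - z j) = z j - z k by abel] at this
        linarith
      linarith
    have hF1 : Adm (fun x => F x + g ρ (z j) (r j) (n j) x) :=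
      adm_add hF (adm_g hSh ρ (z j) (r j) (n j) (hr j))
    obtain ⟨hb1, h1⟩ := ih N (fun x => F x + g ρ (z j) (r j) (n j) x) D hF1
      (by
        intro k hk x hx
        show F x + g ρ (z j) (r j) (n j) x = -ρ
        rw [g_zero hSh ρ (z j) (r j) (n j) (hr j) x (by linarith [hzero k hk x hx]), add_zero]
        exact hFρ k (Finset.mem_insert_of_mem hk) x hx) hD
      (fun k hk => hDs k (Finset.mem_insert_of_mem hk))
    have h2 := hIns a β ρ (r j) (z j) (n j) (N + ∑ k ∈ T, n k) F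
      (D ∪ ⋃ k ∈ T, cB (z k) (r k)) ha hβ hρ (hr j) hF
      (hFρ j (Finset.mem_insert_self j T)) hb1
      (by
        intro x hx
        rcases hx with hx | hx
        · exact hDs j (Finset.mem_insert_self j T) x hx
        · simp only [Set.mem_iUnion] at hx
          obtain ⟨k, hk, hx⟩ := hx
          exact hzero k hk x hx)
    have hset : D ∪ ⋃ k ∈ insert j T, cB (z k) (r k)
        = (D ∪ ⋃ k ∈ T, cB (z k) (r k)) ∪ cB (z j) (r j) := by
      rw [Finset.set_biUnion_insert, Set.union_assoc, Set.union_comm (cB (z j) (r j))]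
    have hnum : N + ∑ k ∈ insert j T, n k = N + ∑ k ∈ T, n k + n j := by
      rw [Finset.sum_insert hj]
      ring
    have hfun : (fun x => F x + ∑ k ∈ insert j T, g ρ (z k) (r k) (n k) x)
        = fun x => F x + g ρ (z j) (r j) (n j) x + ∑ k ∈ T, g ρ (z k) (r k) (n k) x := by
      funext x
      rw [Finset.sum_insert hj]
      ring
    refine ⟨?_, ?_⟩
    · rw [hset]
      exact bm_union hb1 (bm_ball _ _)
    · rw [hset, hnum, hfun, Finset.prod_insert hj, mul_assoc]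
      refine le_trans (mul_le_mul_of_nonneg_left h1 ?_) h2
      exact ZF_nonneg _ _ _ _ _

end InsIt_

open InsIt_ in
theorem InsIt_proof (hIns : Stmt_Ins) (hSh : Stmt_Sh) : Stmt_InsIt := by
  intro a β ρ ha hβ hρ K _ _ z r n N F D hr hF hFρ hD hDs hsep
  have h := (key hIns hSh a β ρ ha hβ hρ K z r n hr hsep Finset.univ N F D hF
    (fun k _ => hFρ k) hD (fun k _ => hDs k)).2
  have hset : (⋃ k ∈ (Finset.univ : Finset K), cB (z k) (r k)) = ⋃ k, cB (z k) (r k) := by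
    simp
  rw [hset] at h
  exact h

end Pool.Agent.JEL
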