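import Pool.Agent.JEL.Stmts
open MeasureTheory Set Filter Topology
namespace Pool.Agent.JEL
theorem Iso_proof : Stmt_Iso := by
  intro x
  have h1 : ‖toE ![0, 0, ‖x‖]‖ = ‖x‖ := by
    rw [EuclideanSpace.norm_eq]
    simp [toE, Fin.sum_univ_three, Real.sqrt_sq]
  refine ⟨(Submodule.reflection (Submodule.span ℝ {x - toE ![0,0,‖x‖]})ᗮ), ?_⟩
  exact Submodule.reflection_sub h1.symm
end Pool.Agent.JEL
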