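import Pool.Agent.JEL.Stmts

/-!
# JEL, module Ker1: the Coulomb kernel as a superposition of balls
-/

set_option autoImplicit false

open MeasureTheory Set Filter Topology

namespace Pool.Agent.JEL

open scoped Real

namespace Ker1_

/-- the antiderivative -/
noncomputable def G (t s : ℝ) : ℝ := -(4 / 3) * s⁻¹ + t / 2 * (s ^ 2)⁻¹ - t ^ 3 / 48 * (s ^ 4)⁻¹

/-- the derivative -/
noncomputable def g (t s : ℝ) : ℝ := (s ^ 5)⁻¹ * ((2 * s - t) ^ 2 * (4 * s + t) / 12)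

theorem hasDerivAt_G (t : ℝ) {s : ℝ} (hs : 0 < s) : HasDerivAt (G t) (g t s) s := by
  have h0 : s ≠ 0 := hs.ne'
  have h1 := (hasDerivAt_inv h0).const_mul (-(4 / 3) : ℝ)
  have h2 := ((hasDerivAt_pow 2 s).fun_inv (pow_ne_zero 2 h0)).const_mul (t / 2)
  have h3 := ((hasDerivAt_pow 4 s).fun_inv (pow_ne_zero 4 h0)).const_mul (t ^ 3 / 48)
  have h4 := (h1.add h2).sub h3
  refine h4.congr_deriv ?_
  unfold g
  field_simp
  ring

theorem g_nonneg {t s : ℝ} (ht : 0 < t) (hs : 0 < s) : 0 ≤ g t s := by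
  unfold g; positivity

theorem tendsto_G (t : ℝ) : Tendsto (G t) atTop (𝓝 0) := by
  have h1 : Tendsto (fun s : ℝ => s⁻¹) atTop (𝓝 0) := tendsto_inv_atTop_zero
  have h2 : Tendsto (fun s : ℝ => (s ^ 2)⁻¹) atTop (𝓝 0) :=
    (tendsto_pow_atTop (two_ne_zero)).inv_tendsto_atTop
  have h3 : Tendsto (fun s : ℝ => (s ^ 4)⁻¹) atTop (𝓝 0) :=
    (tendsto_pow_atTop (four_ne_zero)).inv_tendsto_atTop
  have h4 := ((h1.const_mul (-(4 / 3) : ℝ)).add (h2.const_mul (t / 2))).sub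
    (h3.const_mul (t ^ 3 / 48))
  have h5 : (-(4 / 3) * 0 + t / 2 * 0 - t ^ 3 / 48 * 0 : ℝ) = 0 := by ring
  rw [h5] at h4
  exact h4

theorem f_eq {t s : ℝ} (hs : 0 < s) (hts : t ≤ 2 * s) :
    (π * s ^ 5)⁻¹ * lens s t = g t s := by
  have hp : π ≠ 0 := Real.pi_ne_zero
  have h0 : s ≠ 0 := hs.ne'
  unfold lens g
  rw [if_pos hts]
  field_simp
  ring

end Ker1_

open Ker1_ in
theorem Ker1_proof : Stmt_Ker1 := by
  intro t ht
  have ht2 : 0 < t / 2 := by positivity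
  have hcont : ContinuousWithinAt (G t) (Ici (t / 2)) (t / 2) :=
    (hasDerivAt_G t ht2).continuousAt.continuousWithinAt
  have hder : ∀ x ∈ Ioi (t / 2), HasDerivAt (G t) (g t x) x := fun x hx =>
    hasDerivAt_G t (ht2.trans hx)
  have hpos : ∀ x ∈ Ioi (t / 2), 0 ≤ g t x := fun x hx => g_nonneg ht (ht2.trans hx)
  have hI1 := integrableOn_Ioi_deriv_of_nonneg hcont hder hpos (tendsto_G t)
  have hI2 := integral_Ioi_of_hasDerivAt_of_nonneg hcont hder hpos (tendsto_G t)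
  have hG : G t (t / 2) = - t⁻¹ := by
    have : t ≠ 0 := ht.ne'
    unfold G
    field_simp
    ring
  rw [hG, sub_neg_eq_add, zero_add] at hI2
  set f : ℝ → ℝ := fun s => (π * s ^ 5)⁻¹ * lens s t with hf
  have hz : ∀ s ∈ Ioc 0 (t / 2), f s = 0 := by
    intro s hs
    by_cases h : t ≤ 2 * s
    · have h1 : s = t / 2 := le_antisymm hs.2 (by linarith)
      have h2 : f s = g t s := f_eq hs.1 h
      rw [h2, h1]
      unfold g
      ring
    · have h2 : lens s t = 0 := by unfold lens; rw [if_neg h]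
      rw [hf]
      simp only
      rw [h2, mul_zero]
  have he : ∀ s ∈ Ioi (t / 2), f s = g t s := fun s hs =>
    f_eq (ht2.trans hs) (by have : t / 2 < s := hs; linarith)
  have hI3 : IntegrableOn f (Ioi (t / 2)) :=
    hI1.congr_fun (fun s hs => (he s hs).symm) measurableSet_Ioi
  have hI4 : IntegrableOn f (Ioc 0 (t / 2)) :=
    IntegrableOn.congr_fun (f := fun _ => (0 : ℝ)) integrableOn_zero
      (fun s hs => (hz s hs).symm) measurableSet_Ioc
  have hU : Ioc 0 (t / 2) ∪ Ioi (t / 2) = Ioi (0 : ℝ) := Ioc_union_Ioi_eq_Ioi ht2.le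
  have hI5 : IntegrableOn f (Ioi 0) := by
    rw [← hU]
    exact hI4.union hI3
  refine ⟨hI5, ?_⟩
  unfold Rk
  simp only [one_mul]
  change ∫ s in Ioi 0, f s = t⁻¹
  rw [← hU, setIntegral_union (Ioc_disjoint_Ioi le_rfl) measurableSet_Ioi hI4 hI3,
    setIntegral_eq_zero_of_forall_eq_zero hz, zero_add,
    setIntegral_congr_fun measurableSet_Ioi he, hI2]

end Pool.Agent.JEL
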