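import Pool.Agent.JEL.Stmts

/-!
# JEL, module Ker2: the local kernel of a sliding ball
-/

open MeasureTheory Set Filter Topology

namespace Pool.Agent.JEL

open scoped Real

namespace Ker2_

/-- the integrand where `t ≤ 2 s` -/
noncomputable def g (r t s : ℝ) : ℝ :=
  ((π * s ^ 5)⁻¹ + (8 * π * r ^ 3 * s ^ 2)⁻¹) *
    (4 * π / 3 * s ^ 3 - π * s ^ 2 * t + π * t ^ 3 / 12)

/-- its antiderivative -/
noncomputable def G (r t s : ℝ) : ℝ :=
  -(4 / 3) * s⁻¹ + t / 2 * (s ^ 2)⁻¹ - t ^ 3 / 48 * (s ^ 4)⁻¹ +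
    (8 * r ^ 3)⁻¹ * (2 / 3 * s ^ 2 - t * s - t ^ 3 / 12 * s⁻¹)

theorem hasDeriv {r t s : ℝ} (hr : 0 < r) (hs : 0 < s) : HasDerivAt (G r t) (g r t s) s := by
  have hs0 : s ≠ 0 := hs.ne'
  have h1 : HasDerivAt (fun s : ℝ => s⁻¹) (-(s ^ 2)⁻¹) s := hasDerivAt_inv hs0
  have h2 : HasDerivAt (fun s : ℝ => (s ^ 2)⁻¹) (-((2 : ℕ) * s ^ (2 - 1)) / (s ^ 2) ^ 2) s :=
    (hasDerivAt_pow 2 s).fun_inv (pow_ne_zero 2 hs0)
  have h4 : HasDerivAt (fun s : ℝ => (s ^ 4)⁻¹) (-((4 : ℕ) * s ^ (4 - 1)) / (s ^ 4) ^ 2) s :=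
    (hasDerivAt_pow 4 s).fun_inv (pow_ne_zero 4 hs0)
  have h5 : HasDerivAt (fun s : ℝ => s ^ 2) (2 * s) s := by
    have := hasDerivAt_pow 2 s
    simpa using this
  have h6 : HasDerivAt (fun s : ℝ => s) 1 s := hasDerivAt_id s
  have h7 := (((h1.const_mul (-(4 / 3))).add (h2.const_mul (t / 2))).sub
    (h4.const_mul (t ^ 3 / 48))).add
      ((((h5.const_mul (2 / 3)).sub (h6.const_mul t)).sub (h1.const_mul (t ^ 3 / 12))).const_mul
        ((8 * r ^ 3)⁻¹))
  refine h7.congr_deriv ?_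
  unfold g
  have hπ : π ≠ 0 := Real.pi_ne_zero
  norm_num
  field_simp
  ring

theorem cont_g {r t : ℝ} (ht : 0 < t) (hr : 0 < r) : ContinuousOn (g r t) (Icc (t / 2) r) := by
  have hπ : π ≠ 0 := Real.pi_ne_zero
  unfold g
  have hs : ∀ s ∈ Icc (t / 2) r, s ≠ 0 := fun s hs => by
    have := hs.1
    have : 0 < s := by linarith
    exact this.ne'
  refine ContinuousOn.mul (ContinuousOn.add (ContinuousOn.inv₀ (by fun_prop) ?_)
    (ContinuousOn.inv₀ (by fun_prop) ?_)) (by fun_prop)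
  · intro s h
    have := hs s h
    positivity
  · intro s h
    have := hs s h
    positivity

theorem lens_small {s t : ℝ} (hs : s ≤ t / 2) : lens s t = 0 := by
  unfold lens
  by_cases h : t ≤ 2 * s
  · rw [if_pos h]
    have : s = t / 2 := by linarith
    rw [this]
    ring
  · rw [if_neg h]

end Ker2_

open Ker2_ in
theorem Ker2_proof : Stmt_Ker2 := by
  intro r t hr ht
  have hπ : π ≠ 0 := Real.pi_ne_zero
  set f : ℝ → ℝ := fun s => ((π * s ^ 5)⁻¹ + (8 * π * r ^ 3 * s ^ 2)⁻¹) * lens s t with hf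
  by_cases h : t ≤ 2 * r
  · have h2 : t / 2 ≤ r := by linarith
    have h0 : 0 ≤ t / 2 := by linarith
    have eU : Ioc 0 r = Ioc 0 (t / 2) ∪ Ioc (t / 2) r := (Ioc_union_Ioc_eq_Ioc h0 h2).symm
    have z1 : EqOn f (fun _ => 0) (Ioc 0 (t / 2)) := fun s hs => by
      simp only [hf]
      rw [lens_small hs.2, mul_zero]
    have z2 : EqOn f (g r t) (Ioc (t / 2) r) := fun s hs => by
      have : t ≤ 2 * s := by have := hs.1; linarith
      simp only [hf, lens, g]
      rw [if_pos this]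
    have i1 : IntegrableOn f (Ioc 0 (t / 2)) :=
      (integrableOn_zero).congr_fun z1.symm measurableSet_Ioc
    have ig : IntegrableOn (g r t) (Ioc (t / 2) r) :=
      ((cont_g ht hr).integrableOn_Icc).mono_set Ioc_subset_Icc_self
    have i2 : IntegrableOn f (Ioc (t / 2) r) := ig.congr_fun z2.symm measurableSet_Ioc
    refine ⟨by rw [eU]; exact i1.union i2, ?_⟩
    have e1 : ∫ s in Ioc 0 r, f s = G r t r - G r t (t / 2) := by
      rw [eU, setIntegral_union (by
        rw [Set.disjoint_left]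
        intro x hx hx'
        exact absurd hx'.1 (not_lt.mpr hx.2)) measurableSet_Ioc i1 i2,
        setIntegral_congr_fun measurableSet_Ioc z1, setIntegral_congr_fun measurableSet_Ioc z2]
      rw [integral_zero, zero_add, ← intervalIntegral.integral_of_le h2]
      refine intervalIntegral.integral_eq_sub_of_hasDerivAt (fun s hs => ?_) ?_
      · rw [uIcc_of_le h2] at hs
        refine hasDeriv hr ?_
        have := hs.1
        linarith
      · refine ContinuousOn.intervalIntegrable ?_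
        rw [uIcc_of_le h2]
        exact cont_g ht hr
    change hb r t = (∫ s in Ioc 0 r, f s) + _
    rw [e1]
    unfold hb lens vb G
    rw [if_pos h]
    have hr0 : r ≠ 0 := hr.ne'
    have ht0 : t ≠ 0 := ht.ne'
    field_simp
    ring
  · have hz : ∀ s ≤ r, lens s t = 0 := fun s hs => by
      unfold lens
      rw [if_neg]
      intro h3
      exact h (by linarith)
    have z1 : EqOn f (fun _ => 0) (Ioc 0 r) := fun s hs => by
      simp only [hf]
      rw [hz s hs.2, mul_zero]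
    refine ⟨(integrableOn_zero).congr_fun z1.symm measurableSet_Ioc, ?_⟩
    change hb r t = (∫ s in Ioc 0 r, f s) + _
    rw [setIntegral_congr_fun measurableSet_Ioc z1, integral_zero]
    unfold hb
    rw [hz r le_rfl]
    simp

end Pool.Agent.JEL
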