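import Pool.Agent.JEL.Stmts

/-!
# JEL / Lens: volume of a ball and of the intersection of two balls
-/

open MeasureTheory Set Filter Topology
open scoped Real

namespace Pool.Agent.JEL

namespace Lens_

theorem mem_axis (x : E) (t s : ℝ) (hs : 0 < s) :
    x ∈ cB (toE ![0, 0, t]) s ↔ (x 2 - t) ^ 2 + (x 0 ^ 2 + x 1 ^ 2) ≤ s ^ 2 := by
  rw [Metric.mem_closedBall, dist_eq_norm, EuclideanSpace.norm_eq, Real.sqrt_le_left hs.le,
    Fin.sum_univ_three]
  have h0 : (x - toE ![0, 0, t]) 0 = x 0 := by simp [toE]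
  have h1 : (x - toE ![0, 0, t]) 1 = x 1 := by simp [toE]
  have h2 : (x - toE ![0, 0, t]) 2 = x 2 - t := by simp [toE]
  rw [h0, h1, h2]
  simp only [Real.norm_eq_abs, sq_abs]
  constructor <;> intro h <;> linarith

theorem inner_int (c m : ℝ) (P : ℝ → Prop) [DecidablePred P] (hP : ∀ u, 0 < u → (P u ↔ u ≤ m)) :
    ∫⁻ u in Ioi (0:ℝ), ENNReal.ofReal c * (if P u then (1:ENNReal) else 0) =
      ENNReal.ofReal c * ENNReal.ofReal m := by
  have h1 : ∫⁻ u in Ioi (0:ℝ), ENNReal.ofReal c * (if P u then (1:ENNReal) else 0) =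
      ∫⁻ u in Ioi (0:ℝ), (Iic m).indicator (fun _ => ENNReal.ofReal c) u := by
    refine setLIntegral_congr_fun measurableSet_Ioi fun u hu => ?_
    by_cases h : u ≤ m
    · rw [if_pos ((hP u hu).2 h), indicator_of_mem (show u ∈ Iic m from h), mul_one]
    · rw [if_neg (fun h' => h ((hP u hu).1 h')), indicator_of_notMem (show u ∉ Iic m from h),
        mul_zero]
  rw [h1, lintegral_indicator measurableSet_Iic, setLIntegral_const,
    Measure.restrict_apply measurableSet_Iic, Iic_inter_Ioi, Real.volume_Ioc, sub_zero]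

theorem int_eq (a b : ℝ) (hab : a ≤ b) (f : ℝ → ℝ) (hf : Continuous f)
    (h0 : ∀ z ∈ Ioc a b, 0 ≤ f z) :
    ∫⁻ z in Ioc a b, ENNReal.ofReal (f z) = ENNReal.ofReal (∫ z in a..b, f z) := by
  rw [intervalIntegral.integral_of_le hab, ofReal_integral_eq_lintegral_ofReal]
  · exact (hf.integrableOn_Icc).mono_set Ioc_subset_Icc_self
  · exact (ae_restrict_iff' measurableSet_Ioc).2 (Eventually.of_forall h0)

theorem outer_int (s t : ℝ) (hs : 0 < s) (ht : 0 ≤ t) :
    ∫⁻ z : ℝ, ENNReal.ofReal π * ENNReal.ofReal (min (s ^ 2 - z ^ 2) (s ^ 2 - (z - t) ^ 2)) =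
      ENNReal.ofReal (lens s t) := by
  rw [lintegral_const_mul _ (by fun_prop)]
  by_cases h2 : t ≤ 2 * s
  · have h1 : ∀ z : ℝ, ENNReal.ofReal (min (s ^ 2 - z ^ 2) (s ^ 2 - (z - t) ^ 2)) =
        (Ioc (t - s) (t / 2)).indicator (fun z => ENNReal.ofReal (s ^ 2 - (z - t) ^ 2)) z +
        (Ioc (t / 2) s).indicator (fun z => ENNReal.ofReal (s ^ 2 - z ^ 2)) z := by
      intro z
      rcases le_or_gt z (t - s) with hz | hz
      · rw [indicator_of_notMem (fun h => absurd h.1 (not_lt.2 hz)),
          indicator_of_notMem (fun h => by have := h.1; linarith), add_zero]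
        refine ENNReal.ofReal_of_nonpos ((min_le_right _ _).trans ?_)
        nlinarith
      rcases le_or_gt z (t / 2) with hz2 | hz2
      · rw [indicator_of_mem (show z ∈ Ioc (t - s) (t / 2) from ⟨hz, hz2⟩),
          indicator_of_notMem (fun h => absurd h.1 (not_lt.2 hz2)), add_zero, min_eq_right]
        nlinarith
      rw [indicator_of_notMem (fun h => absurd h.2 (not_le.2 hz2)), zero_add]
      rcases le_or_gt z s with hz3 | hz3
      · rw [indicator_of_mem (show z ∈ Ioc (t / 2) s from ⟨hz2, hz3⟩), min_eq_left]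
        nlinarith
      · rw [indicator_of_notMem (fun h => absurd h.2 (not_le.2 hz3))]
        refine ENNReal.ofReal_of_nonpos ((min_le_left _ _).trans ?_)
        nlinarith
    simp only [h1]
    rw [lintegral_add_left (Measurable.indicator (by fun_prop) measurableSet_Ioc),
      lintegral_indicator measurableSet_Ioc, lintegral_indicator measurableSet_Ioc,
      int_eq _ _ (by linarith) _ (by fun_prop) (fun z hz => by
        have h3 := hz.1
        have h4 := hz.2
        nlinarith),
      int_eq _ _ (by linarith) _ (by fun_prop) (fun z hz => by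
        have h3 := hz.1
        have h4 := hz.2
        nlinarith)]
    have e1 : ∫ z in (t / 2)..s, (s ^ 2 - z ^ 2) = s ^ 2 * (s - t / 2) - (s ^ 3 - (t / 2) ^ 3) / 3 := by
      rw [intervalIntegral.integral_sub (by simp) (by simp), intervalIntegral.integral_const,
        integral_pow]
      norm_num
      ring
    have e2 : ∫ z in (t - s)..(t / 2), (s ^ 2 - (z - t) ^ 2) =
        s ^ 2 * (s - t / 2) - (s ^ 3 - (t / 2) ^ 3) / 3 := by
      rw [intervalIntegral.integral_comp_sub_right (fun x => s ^ 2 - x ^ 2) t,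
        intervalIntegral.integral_sub (by simp) (by simp), intervalIntegral.integral_const,
        integral_pow]
      norm_num
      ring
    have hpos : 0 ≤ s ^ 2 * (s - t / 2) - (s ^ 3 - (t / 2) ^ 3) / 3 := by
      rw [← e1, intervalIntegral.integral_of_le (by linarith)]
      refine setIntegral_nonneg measurableSet_Ioc fun z hz => ?_
      have h3 := hz.1
      have h4 := hz.2
      nlinarith
    rw [e1, e2, ← ENNReal.ofReal_add hpos hpos, ← ENNReal.ofReal_mul Real.pi_pos.le]
    congr 1
    rw [lens, if_pos h2]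
    ring
  · have h2' : 2 * s < t := not_le.1 h2
    have h1 : ∀ z : ℝ, ENNReal.ofReal (min (s ^ 2 - z ^ 2) (s ^ 2 - (z - t) ^ 2)) = 0 := by
      intro z
      rw [ENNReal.ofReal_eq_zero]
      rcases le_or_gt z (t / 2) with hz | hz
      · refine (min_le_right _ _).trans ?_
        nlinarith
      · refine (min_le_left _ _).trans ?_
        nlinarith
    simp only [h1, lintegral_zero, mul_zero]
    rw [lens, if_neg h2, ENNReal.ofReal_zero]

theorem axis_vol (hAxi : Stmt_Axi) (s t : ℝ) (hs : 0 < s) (ht : 0 ≤ t) :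
    volume (cB (0 : E) s ∩ cB (toE ![0, 0, t]) s) = ENNReal.ofReal (lens s t) := by
  classical
  set f : ℝ → ℝ → ENNReal := fun z u =>
    if u ≤ min (s ^ 2 - z ^ 2) (s ^ 2 - (z - t) ^ 2) then 1 else 0 with hf
  have hfm : Measurable (Function.uncurry f) := by
    have h1 : Function.uncurry f = fun p : ℝ × ℝ =>
        if p.2 ≤ min (s ^ 2 - p.1 ^ 2) (s ^ 2 - (p.1 - t) ^ 2) then (1 : ENNReal) else 0 := rfl
    rw [h1]
    refine Measurable.ite ?_ measurable_const measurable_const
    exact measurableSet_le (by fun_prop) (by fun_prop)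
  have h1 := hAxi f hfm
  have h2 : ∫⁻ x : E, f (x 2) (x 0 ^ 2 + x 1 ^ 2) =
      volume (cB (0 : E) s ∩ cB (toE ![0, 0, t]) s) := by
    rw [← lintegral_indicator_one
      (Metric.isClosed_closedBall.measurableSet.inter Metric.isClosed_closedBall.measurableSet)]
    refine lintegral_congr fun x => ?_
    have h0 : (0 : E) = toE ![0, 0, 0] := by
      ext i
      fin_cases i <;> simp [toE]
    by_cases hx : x 0 ^ 2 + x 1 ^ 2 ≤ min (s ^ 2 - x 2 ^ 2) (s ^ 2 - (x 2 - t) ^ 2)
    · have hmem : x ∈ cB (0 : E) s ∩ cB (toE ![0, 0, t]) s := by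
        rw [le_min_iff] at hx
        refine ⟨?_, ?_⟩
        · rw [h0, mem_axis x 0 s hs]
          linarith [hx.1]
        · rw [mem_axis x t s hs]
          linarith [hx.2]
      rw [indicator_of_mem hmem, hf]
      simp only [if_pos hx, Pi.one_apply]
    · have hmem : x ∉ cB (0 : E) s ∩ cB (toE ![0, 0, t]) s := by
        rintro ⟨ha, hb⟩
        apply hx
        rw [h0, mem_axis x 0 s hs] at ha
        rw [mem_axis x t s hs] at hb
        rw [le_min_iff]
        constructor <;> linarith
      rw [indicator_of_notMem hmem, hf]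
      simp only [if_neg hx]
  rw [← h2, h1, ← outer_int s t hs ht]
  refine lintegral_congr fun z => ?_
  rw [← inner_int π (min (s ^ 2 - z ^ 2) (s ^ 2 - (z - t) ^ 2))
    (fun u => u ≤ min (s ^ 2 - z ^ 2) (s ^ 2 - (z - t) ^ 2)) (fun u _ => Iff.rfl)]

theorem lens_nonneg (s t : ℝ) (hs : 0 < s) (ht : 0 ≤ t) : 0 ≤ lens s t := by
  rw [lens]
  split_ifs with h
  · have h1 : 0 ≤ π * ((2 * s - t) ^ 2 * (4 * s + t) / 12) := by
      have := Real.pi_pos
      have h2 : 0 ≤ 4 * s + t := by linarith
      positivity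
    nlinarith [h1]
  · exact le_refl 0

end Lens_

open Lens_ in
theorem Lens_proof (hAxi : Stmt_Axi) (hIso : Stmt_Iso) : Stmt_Lens := by
  refine ⟨fun z r hr => ?_, fun x y s hs => ?_⟩
  · rw [measureReal_def, EuclideanSpace.volume_closedBall_fin_three, ENNReal.toReal_mul,
      ENNReal.toReal_pow, ENNReal.toReal_ofReal hr, ENNReal.toReal_ofReal (by positivity), vb]
    ring
  · obtain ⟨g, hg⟩ := hIso (y - x)
    have h1 : volume (cB x s ∩ cB y s) = volume (cB (0 : E) s ∩ cB (toE ![0, 0, ‖y - x‖]) s) := by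
      have hm : MeasurePreserving (fun z : E => g (z - x)) volume volume :=
        g.measurePreserving.comp (measurePreserving_sub_right volume x)
      have hpre : (fun z : E => g (z - x)) ⁻¹' (cB (0 : E) s ∩ cB (toE ![0, 0, ‖y - x‖]) s) =
          cB x s ∩ cB y s := by
        ext z
        simp only [mem_preimage, mem_inter_iff, Metric.mem_closedBall, dist_eq_norm]
        rw [← hg, ← map_sub, sub_zero, LinearIsometryEquiv.norm_map, LinearIsometryEquiv.norm_map]
        rw [show z - x - (y - x) = z - y by abel]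
      rw [← hpre, hm.measure_preimage]
      exact (Metric.isClosed_closedBall.measurableSet.inter
        Metric.isClosed_closedBall.measurableSet).nullMeasurableSet
    rw [measureReal_def, h1, axis_vol hAxi s _ hs (norm_nonneg _), norm_sub_rev y x,
      ENNReal.toReal_ofReal (lens_nonneg s _ hs (norm_nonneg _))]

end Pool.Agent.JEL
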