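import Pool.Agent.JEL.Stmts

/-!
# JEL: module Loc, localization of the Coulomb energy in randomly dilated packings
-/

open MeasureTheory Set Filter Topology

namespace Pool.Agent.JEL

open scoped Real

namespace Loc

/-- energy with a general kernel `G x y` -/
noncomputable def EnG (G : E → E → ℝ) (F : E → ℝ) {N : ℕ} (X : Fin N → E) : ℝ :=
  (1 / 2) * ∑ i, ∑ j ∈ Finset.univ.erase i, G (X i) (X j) + (∑ i, ∫ y, F y * G (X i) y)
    + (1 / 2) * ∫ x, F x * ∫ y, F y * G x y

theorem enK_eq (K : ℝ → ℝ) (F : E → ℝ) {N : ℕ} (X : Fin N → E) :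
    EnK K F X = EnG (fun x y => K ‖x - y‖) F X := rfl

theorem en_eq (F : E → ℝ) {N : ℕ} (X : Fin N → E) :
    En F X = EnG (fun x y => ‖x - y‖⁻¹) F X := rfl

/-- a kernel is dominated by `C` times the Coulomb kernel -/
def Dom (C : ℝ) (G : E → E → ℝ) : Prop := ∀ x y, |G x y| ≤ C * ‖x - y‖⁻¹

/-- the local energy in terms of a kernel -/
theorem uloc_eq (ρ : ℝ) (Λ B : Set E) {N : ℕ} (X : Fin N → E) :
    Uloc ρ Λ B X = EnG (fun x y => B.indicator 1 x * B.indicator 1 y * ‖x - y‖⁻¹) (bg ρ Λ) X := by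
  have hF : ∀ y, bg ρ (Λ ∩ B) y = bg ρ Λ y * B.indicator 1 y := by
    intro y
    unfold bg
    by_cases h1 : y ∈ Λ <;> by_cases h2 : y ∈ B <;> simp [h1, h2]
  have hp : ∀ x, B.indicator 1 x * pot (bg ρ (Λ ∩ B)) x =
      ∫ y, bg ρ Λ y * (B.indicator 1 x * B.indicator 1 y * ‖x - y‖⁻¹) := by
    intro x
    unfold pot
    rw [← integral_const_mul]
    apply integral_congr_ae
    refine Eventually.of_forall fun y => ?_
    simp only [hF]
    ring
  unfold Uloc EnG
  congr 1
  · congr 1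
    apply Finset.sum_congr rfl
    intro i _
    exact hp (X i)
  · congr 1
    unfold Dfm
    apply integral_congr_ae
    refine Eventually.of_forall fun x => ?_
    simp only
    rw [hF, ← hp x]
    ring

section
variable {F : E → ℝ} {C : ℝ} {G : E → E → ℝ}

theorem int1 (hPot : Stmt_Pot) (hF : Adm F) (hG : Measurable (Function.uncurry G))
    (hd : Dom C G) (x : E) : Integrable (fun y => F y * G x y) := by
  have h1 := (hPot.2.1 F hF x).norm.const_mul C
  refine Integrable.mono' h1 ?_ ?_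
  · exact (hF.meas.mul (hG.comp (measurable_const.prodMk measurable_id))).aestronglyMeasurable
  · refine Eventually.of_forall fun y => ?_
    rw [norm_mul, norm_mul, norm_inv, norm_norm, Real.norm_eq_abs (G x y)]
    have := hd x y
    calc ‖F y‖ * |G x y| ≤ ‖F y‖ * (C * ‖x - y‖⁻¹) :=
          mul_le_mul_of_nonneg_left this (norm_nonneg _)
      _ = C * (‖F y‖ * ‖x - y‖⁻¹) := by ring

theorem meas2 (hF : Adm F) (hG : Measurable (Function.uncurry G)) :
    Measurable (fun p : E × E => F p.1 * (F p.2 * G p.1 p.2)) :=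
  (hF.meas.comp measurable_fst).mul ((hF.meas.comp measurable_snd).mul hG)

theorem bound2 (hd : Dom C G) (p : E × E) : ‖F p.1 * (F p.2 * G p.1 p.2)‖ ≤
    C * ‖F p.1 * F p.2 * ‖p.1 - p.2‖⁻¹‖ := by
  rw [norm_mul, norm_mul, norm_mul, norm_mul, norm_inv, norm_norm, Real.norm_eq_abs (G p.1 p.2)]
  have := hd p.1 p.2
  calc ‖F p.1‖ * (‖F p.2‖ * |G p.1 p.2|) ≤ ‖F p.1‖ * (‖F p.2‖ * (C * ‖p.1 - p.2‖⁻¹)) :=
        mul_le_mul_of_nonneg_left (mul_le_mul_of_nonneg_left this (norm_nonneg _))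
          (norm_nonneg _)
    _ = C * (‖F p.1‖ * ‖F p.2‖ * ‖p.1 - p.2‖⁻¹) := by ring

theorem int2 (hPot : Stmt_Pot) (hF : Adm F) (hG : Measurable (Function.uncurry G))
    (hd : Dom C G) : Integrable (fun p : E × E => F p.1 * (F p.2 * G p.1 p.2)) := by
  have h1 := (hPot.2.2.2.1 F F hF hF).norm.const_mul C
  exact Integrable.mono' h1 (meas2 hF hG).aestronglyMeasurable
    (Eventually.of_forall fun p => bound2 hd p)

/-- the third term of `EnG` as an integral over the product -/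
theorem term3 (hPot : Stmt_Pot) (hF : Adm F) (hG : Measurable (Function.uncurry G))
    (hd : Dom C G) : ∫ x, F x * ∫ y, F y * G x y = ∫ p : E × E, F p.1 * (F p.2 * G p.1 p.2) := by
  rw [show (volume : Measure (E × E)) = (volume : Measure E).prod volume from rfl]
  rw [integral_prod _ (int2 hPot hF hG hd)]
  apply integral_congr_ae
  refine Eventually.of_forall fun x => ?_
  simp only
  rw [integral_const_mul]

end

/-- averages -/
theorem average (hPot : Stmt_Pot) {Ω : Type} [MeasurableSpace Ω] (ν : Measure Ω)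
    [IsFiniteMeasure ν] {F : E → ℝ} (hF : Adm F) (C : ℝ) (G : Ω → E → E → ℝ)
    (hG : Measurable (fun z : Ω × E × E => G z.1 z.2.1 z.2.2))
    (hd : ∀ᵐ ω ∂ν, Dom C (G ω)) {N : ℕ} (X : Fin N → E) :
    Integrable (fun ω => EnG (G ω) F X) ν ∧
    ∫ ω, EnG (G ω) F X ∂ν = EnG (fun x y => ∫ ω, G ω x y ∂ν) F X := by
  -- first term
  have m1 : ∀ x y, Measurable (fun ω => G ω x y) := fun x y =>
    hG.comp (measurable_id.prodMk (measurable_const.prodMk measurable_const))
  have mG : ∀ ω, Measurable (Function.uncurry (G ω)) := fun ω =>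
    hG.comp (measurable_const.prodMk measurable_id)
  have i1 : ∀ x y, Integrable (fun ω => G ω x y) ν := by
    intro x y
    refine Integrable.mono' (integrable_const (C * ‖x - y‖⁻¹)) (m1 x y).aestronglyMeasurable ?_
    filter_upwards [hd] with ω hω
    exact hω x y
  -- second term
  have i2 : ∀ x, Integrable (Function.uncurry fun ω y => F y * G ω x y) (ν.prod volume) := by
    intro x
    have h1 : Integrable (fun z : Ω × E => C * ‖F z.2 * ‖x - z.2‖⁻¹‖) (ν.prod volume) :=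
      ((hPot.2.1 F hF x).norm.const_mul C).comp_snd ν
    refine Integrable.mono' h1 ?_ ?_
    · apply Measurable.aestronglyMeasurable
      exact (hF.meas.comp measurable_snd).mul
        (hG.comp (measurable_fst.prodMk (measurable_const.prodMk measurable_snd)))
    · have h2 := (Measure.quasiMeasurePreserving_fst (μ := ν) (ν := (volume : Measure E))).ae hd
      filter_upwards [h2] with z hz
      simp only [Function.uncurry]
      rw [norm_mul, norm_mul, norm_inv, norm_norm, Real.norm_eq_abs (G z.1 x z.2)]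
      have := hz x z.2
      calc ‖F z.2‖ * |G z.1 x z.2| ≤ ‖F z.2‖ * (C * ‖x - z.2‖⁻¹) :=
            mul_le_mul_of_nonneg_left this (norm_nonneg _)
        _ = C * (‖F z.2‖ * ‖x - z.2‖⁻¹) := by ring
  have i2' : ∀ x, Integrable (fun ω => ∫ y, F y * G ω x y) ν := fun x => (i2 x).integral_prod_left
  -- third term
  have i3 : Integrable (Function.uncurry fun ω (p : E × E) => F p.1 * (F p.2 * G ω p.1 p.2))
      (ν.prod volume) := by
    have h1 : Integrable (fun z : Ω × (E × E) => C * ‖F z.2.1 * F z.2.2 * ‖z.2.1 - z.2.2‖⁻¹‖)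
        (ν.prod volume) :=
      ((hPot.2.2.2.1 F F hF hF).norm.const_mul C).comp_snd ν
    refine Integrable.mono' h1 ?_ ?_
    · apply Measurable.aestronglyMeasurable
      exact ((hF.meas.comp (measurable_fst.comp measurable_snd)).mul
        ((hF.meas.comp (measurable_snd.comp measurable_snd)).mul hG))
    · have h2 := (Measure.quasiMeasurePreserving_fst (μ := ν)
        (ν := (volume : Measure (E × E)))).ae hd
      filter_upwards [h2] with z hz
      exact bound2 hz z.2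
  have i3' : Integrable (fun ω => ∫ p : E × E, F p.1 * (F p.2 * G ω p.1 p.2)) ν :=
    i3.integral_prod_left
  have e3 : ∀ᵐ ω ∂ν, ∫ x, F x * ∫ y, F y * G ω x y =
      ∫ p : E × E, F p.1 * (F p.2 * G ω p.1 p.2) := by
    filter_upwards [hd] with ω hω
    exact term3 hPot hF (mG ω) hω
  have i3'' : Integrable (fun ω => ∫ x, F x * ∫ y, F y * G ω x y) ν :=
    i3'.congr (by filter_upwards [e3] with ω hω; exact hω.symm)
  have j1 : Integrable (fun ω => (1 / 2) * ∑ i, ∑ j ∈ Finset.univ.erase i, G ω (X i) (X j)) ν :=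
    (integrable_finsetSum _ fun i _ => integrable_finsetSum _ fun j _ => i1 _ _).const_mul _
  have j2 : Integrable (fun ω => ∑ i, ∫ y, F y * G ω (X i) y) ν :=
    integrable_finsetSum _ fun i _ => i2' _
  have j3 := i3''.const_mul (1 / 2)
  refine ⟨(j1.add j2).add j3, ?_⟩
  unfold EnG
  refine (integral_add (j1.add j2) j3).trans ?_
  rw [integral_add' j1 j2, integral_const_mul, integral_const_mul]
  congr 1
  · congr 1
    · congr 1
      rw [integral_finsetSum _ fun i _ => integrable_finsetSum _ fun j _ => i1 _ _]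
      apply Finset.sum_congr rfl
      intro i _
      rw [integral_finsetSum _ fun j _ => i1 _ _]
    · rw [integral_finsetSum _ fun i _ => i2' _]
      apply Finset.sum_congr rfl
      intro i _
      rw [integral_integral_swap (i2 (X i))]
      apply integral_congr_ae
      refine Eventually.of_forall fun y => ?_
      simp only
      rw [integral_const_mul]
  · congr 1
    rw [integral_congr_ae e3, integral_integral_swap i3]
    -- the average kernel
    have mA : Measurable (Function.uncurry fun x y => ∫ ω, G ω x y ∂ν) := by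
      have h1 : StronglyMeasurable (Function.uncurry fun (p : E × E) ω => G ω p.1 p.2) :=
        (hG.comp (measurable_snd.prodMk measurable_fst)).stronglyMeasurable
      exact (h1.integral_prod_right (ν := ν)).measurable
    have dA : Dom (C * ν.real univ) (fun x y => ∫ ω, G ω x y ∂ν) := by
      intro x y
      have h1 : ‖∫ ω, G ω x y ∂ν‖ ≤ (C * ‖x - y‖⁻¹) * ν.real univ := by
        apply norm_integral_le_of_norm_le_const
        filter_upwards [hd] with ω hω
        exact hω x y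
      rw [Real.norm_eq_abs] at h1
      calc _ ≤ _ := h1
        _ = _ := by ring
    rw [term3 hPot hF mA dA]
    apply integral_congr_ae
    refine Eventually.of_forall fun p => ?_
    simp only
    rw [integral_const_mul, integral_const_mul]

/-- finite sums -/
theorem sum_G (hPot : Stmt_Pot) {F : E → ℝ} (hF : Adm F) {S : Type} (T : Finset S) (C : ℝ)
    (G : S → E → E → ℝ) (hG : ∀ s, Measurable (Function.uncurry (G s)))
    (hd : ∀ s, Dom C (G s)) {N : ℕ} (X : Fin N → E) :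
    EnG (fun x y => ∑ s ∈ T, G s x y) F X = ∑ s ∈ T, EnG (G s) F X := by
  have mT : Measurable (Function.uncurry fun x y => ∑ s ∈ T, G s x y) := by
    have : (Function.uncurry fun x y => ∑ s ∈ T, G s x y) =
        fun p : E × E => ∑ s ∈ T, Function.uncurry (G s) p := rfl
    rw [this]
    exact Finset.measurable_sum _ fun s _ => hG s
  have dT : Dom (T.card * C) (fun x y => ∑ s ∈ T, G s x y) := by
    intro x y
    calc |∑ s ∈ T, G s x y| ≤ ∑ s ∈ T, |G s x y| := Finset.abs_sum_le_sum_abs _ _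
      _ ≤ ∑ _s ∈ T, C * ‖x - y‖⁻¹ := Finset.sum_le_sum fun s _ => hd s x y
      _ = _ := by rw [Finset.sum_const, nsmul_eq_mul]; ring
  unfold EnG
  rw [Finset.sum_add_distrib, Finset.sum_add_distrib, term3 hPot hF mT dT]
  simp_rw [term3 hPot hF (hG _) (hd _)]
  congr 1
  · congr 1
    · rw [← Finset.mul_sum]
      congr 1
      rw [Finset.sum_comm]
      apply Finset.sum_congr rfl
      intro i _
      rw [Finset.sum_comm]
    · rw [Finset.sum_comm]
      apply Finset.sum_congr rfl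
      intro i _
      rw [← integral_finsetSum _ fun s _ => int1 hPot hF (hG s) (hd s) (X i)]
      apply integral_congr_ae
      refine Eventually.of_forall fun y => ?_
      simp only
      rw [Finset.mul_sum]
  · rw [← Finset.mul_sum]
    congr 1
    rw [← integral_finsetSum _ fun s _ => int2 hPot hF (hG s) (hd s)]
    apply integral_congr_ae
    refine Eventually.of_forall fun p => ?_
    simp only
    rw [Finset.mul_sum, Finset.mul_sum]

/-- additivity -/
theorem add_G (hPot : Stmt_Pot) {F : E → ℝ} (hF : Adm F) (C : ℝ)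
    (G G' : E → E → ℝ) (hG : Measurable (Function.uncurry G))
    (hG' : Measurable (Function.uncurry G')) (hd : Dom C G) (hd' : Dom C G')
    {N : ℕ} (X : Fin N → E) :
    EnG (fun x y => G x y + G' x y) F X = EnG G F X + EnG G' F X := by
  have h := sum_G hPot hF (Finset.univ : Finset (Fin 2)) C ![G, G']
    (by intro s; fin_cases s <;> assumption) (by intro s; fin_cases s <;> assumption) X
  simpa [Fin.sum_univ_two] using h

/-- `EnG` depends on the kernel only outside of the diagonal -/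
theorem congr_G {F : E → ℝ} {Λ : Set E} (hF : ∀ x, x ∉ Λ → F x = 0) {G G' : E → E → ℝ}
    (h : ∀ x ∈ Λ, ∀ y, x ≠ y → G x y = G' x y) {a : ℝ} (ha : 0 < a) {N : ℕ} {X : Fin N → E}
    (hX : X ∈ conf a Λ N) : EnG G F X = EnG G' F X := by
  have h2 : ∀ x ∈ Λ, ∫ y, F y * G x y = ∫ y, F y * G' x y := by
    intro x hx
    apply integral_congr_ae
    have h3 : ∀ᵐ y : E, y ≠ x := by
      rw [ae_iff]
      simp
    filter_upwards [h3] with y hy
    rw [h x hx y (Ne.symm hy)]
  unfold EnG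
  congr 1
  · congr 1
    · congr 1
      apply Finset.sum_congr rfl
      intro i _
      apply Finset.sum_congr rfl
      intro j hj
      apply h _ (hX.2 i)
      intro he
      have h4 := hX.1 i j (Finset.ne_of_mem_erase hj).symm
      rw [he, sub_self, norm_zero] at h4
      linarith
    · apply Finset.sum_congr rfl
      intro i _
      exact h2 _ (hX.2 i)
  · congr 1
    apply integral_congr_ae
    refine Eventually.of_forall fun x => ?_
    simp only
    by_cases hx : x ∈ Λ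
    · rw [h2 x hx]
    · rw [hF x hx, zero_mul, zero_mul]

theorem adm_bg {ρ : ℝ} {Λ : Set E} (h : BM Λ) : Adm (bg ρ Λ) := by
  refine ⟨measurable_const.indicator h.1, ⟨|ρ|, fun x => ?_⟩, ?_⟩
  · unfold bg
    by_cases hx : x ∈ Λ <;> simp [hx]
  · obtain ⟨R, hR⟩ := h.2.subset_closedBall 0
    refine ⟨R, fun x hx => ?_⟩
    have : x ∉ Λ := fun hx' => by
      have := hR hx'
      rw [mem_closedBall_zero_iff] at this
      linarith
    simp [bg, this]


/-! ### kernels -/

theorem lens_nonneg {s t : ℝ} (hs : 0 < s) (ht : 0 ≤ t) : 0 ≤ lens s t := by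
  unfold lens
  split_ifs with h
  · have e : 4 * Real.pi / 3 * s ^ 3 - Real.pi * s ^ 2 * t + Real.pi * t ^ 3 / 12 =
        Real.pi / 12 * ((2 * s - t) ^ 2 * (4 * s + t)) := by ring
    rw [e]
    positivity
  · exact le_refl _

theorem lens_le {s t : ℝ} (hs : 0 < s) (ht : 0 ≤ t) : lens s t ≤ vb s := by
  unfold lens vb
  split_ifs with h
  · have h1 : Real.pi * t ^ 3 / 12 ≤ Real.pi * s ^ 2 * t := by
      have h2 : t ^ 2 ≤ (2 * s) ^ 2 := pow_le_pow_left₀ ht h 2
      have h3 : t ^ 3 / 12 ≤ s ^ 2 * t := by nlinarith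
      have := mul_le_mul_of_nonneg_left h3 Real.pi_pos.le
      linarith
    linarith
  · positivity

theorem measurable_lens : Measurable (Function.uncurry lens) := by
  unfold lens
  apply Measurable.ite
  · exact measurableSet_le measurable_snd (measurable_fst.const_mul 2)
  · fun_prop
  · fun_prop

/-- the integrand of `Rk` -/
theorem rk_nonneg {c : ℝ → ℝ} (hc : ∀ s, 0 ≤ c s ∧ c s ≤ 1) {t : ℝ} (ht : 0 ≤ t) {s : ℝ}
    (hs : s ∈ Ioi (0:ℝ)) : 0 ≤ c s * ((Real.pi * s ^ 5)⁻¹ * lens s t) := by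
  have h1 := lens_nonneg hs ht
  have h2 : (0:ℝ) < s := hs
  have h3 := (hc s).1
  positivity

theorem rk_int (hKer : Stmt_Ker1) {c : ℝ → ℝ} (hm : Measurable c)
    (hc : ∀ s, 0 ≤ c s ∧ c s ≤ 1) {t : ℝ} (ht : 0 < t) :
    IntegrableOn (fun s => c s * ((Real.pi * s ^ 5)⁻¹ * lens s t)) (Ioi 0) := by
  have h1 := (hKer t ht).1
  refine Integrable.mono' h1.norm ?_ ?_
  · exact hm.aestronglyMeasurable.mul h1.aestronglyMeasurable
  · refine Eventually.of_forall fun s => ?_
    rw [norm_mul]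
    have h2 : ‖c s‖ ≤ 1 := by
      rw [Real.norm_eq_abs, abs_of_nonneg (hc s).1]
      exact (hc s).2
    calc ‖c s‖ * ‖(Real.pi * s ^ 5)⁻¹ * lens s t‖ ≤ 1 * ‖(Real.pi * s ^ 5)⁻¹ * lens s t‖ :=
          mul_le_mul_of_nonneg_right h2 (norm_nonneg _)
      _ = _ := one_mul _

theorem measurable_rk {c : ℝ → ℝ} (hm : Measurable c) : Measurable (Rk c) := by
  have h1 : StronglyMeasurable (Function.uncurry fun (t s : ℝ) =>
      c s * ((Real.pi * s ^ 5)⁻¹ * lens s t)) := by
    apply Measurable.stronglyMeasurable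
    have h2 : Measurable fun p : ℝ × ℝ => lens p.2 p.1 :=
      measurable_lens.comp (measurable_snd.prodMk measurable_fst)
    have h3 : Measurable fun p : ℝ × ℝ => c p.2 := hm.comp measurable_snd
    have h4 : Measurable fun p : ℝ × ℝ => (Real.pi * p.2 ^ 5)⁻¹ := by fun_prop
    exact h3.mul (h4.mul h2)
  exact (h1.integral_prod_right (ν := volume.restrict (Ioi (0:ℝ)))).measurable

theorem rk_le (hKer : Stmt_Ker1) {c : ℝ → ℝ} (hm : Measurable c)
    (hc : ∀ s, 0 ≤ c s ∧ c s ≤ 1) {t : ℝ} (ht : 0 < t) : 0 ≤ Rk c t ∧ Rk c t ≤ t⁻¹ := by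
  constructor
  · exact setIntegral_nonneg measurableSet_Ioi fun s hs => rk_nonneg hc ht.le hs
  · rw [← (hKer t ht).2]
    unfold Rk
    apply setIntegral_mono_on (rk_int hKer hm hc ht) _ measurableSet_Ioi
    · intro s hs
      have h1 : 0 ≤ (Real.pi * s ^ 5)⁻¹ * lens s t := by
        have h1 := lens_nonneg hs ht.le
        have h2 : (0:ℝ) < s := hs
        positivity
      exact mul_le_mul_of_nonneg_right (hc s).2 h1
    · simpa using (hKer t ht).1

/-- the kernel `Rk c`, with value `0` at `0` -/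
noncomputable def kr (c : ℝ → ℝ) (x y : E) : ℝ := if x = y then 0 else Rk c ‖x - y‖

theorem measurable_kr {c : ℝ → ℝ} (hm : Measurable c) : Measurable (Function.uncurry (kr c)) := by
  unfold kr
  apply Measurable.ite
  · exact measurableSet_eq_fun measurable_fst measurable_snd
  · exact measurable_const
  · exact (measurable_rk hm).comp (measurable_fst.sub measurable_snd).norm

theorem dom_kr (hKer : Stmt_Ker1) {c : ℝ → ℝ} (hm : Measurable c)
    (hc : ∀ s, 0 ≤ c s ∧ c s ≤ 1) : Dom 1 (kr c) := by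
  intro x y
  unfold kr
  split_ifs with h
  · simp [h]
  · have h1 : 0 < ‖x - y‖ := norm_pos_iff.mpr (sub_ne_zero.mpr h)
    have h2 := rk_le hKer hm hc h1
    rw [abs_of_nonneg h2.1, one_mul]
    exact h2.2

/-- the Coulomb energy as a superposition -/
theorem en_split (hPot : Stmt_Pot) (hKer : Stmt_Ker1) {c : ℝ → ℝ} (hm : Measurable c)
    (hc : ∀ s, 0 ≤ c s ∧ c s ≤ 1) {a ρ : ℝ} (ha : 0 < a) {Λ : Set E} (hΛ : BM Λ) {N : ℕ}
    {X : Fin N → E} (hX : X ∈ conf a Λ N) :
    En (bg ρ Λ) X = EnK (Rk c) (bg ρ Λ) X + EnK (Rk fun s => 1 - c s) (bg ρ Λ) X := by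
  have hF : ∀ x, x ∉ Λ → bg ρ Λ x = 0 := fun x hx => by simp [bg, hx]
  have hm' : Measurable fun s => 1 - c s := measurable_const.sub hm
  have hc' : ∀ s, 0 ≤ 1 - c s ∧ 1 - c s ≤ 1 := fun s =>
    ⟨by linarith [(hc s).2], by linarith [(hc s).1]⟩
  rw [en_eq, enK_eq, enK_eq]
  have e1 : EnG (fun x y => Rk c ‖x - y‖) (bg ρ Λ) X = EnG (kr c) (bg ρ Λ) X :=
    congr_G hF (fun x _ y hxy => by simp [kr, hxy]) ha hX
  have e2 : EnG (fun x y => Rk (fun s => 1 - c s) ‖x - y‖) (bg ρ Λ) X =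
      EnG (kr fun s => 1 - c s) (bg ρ Λ) X :=
    congr_G hF (fun x _ y hxy => by simp [kr, hxy]) ha hX
  rw [e1, e2, ← add_G hPot (adm_bg hΛ) 1 _ _ (measurable_kr hm) (measurable_kr hm')
    (dom_kr hKer hm hc) (dom_kr hKer hm' hc')]
  apply congr_G hF _ ha hX
  intro x _ y hxy
  have ht : 0 < ‖x - y‖ := norm_pos_iff.mpr (sub_ne_zero.mpr hxy)
  simp only [kr, hxy, if_false]
  rw [← (hKer _ ht).2]
  unfold Rk
  rw [← integral_add (rk_int hKer hm hc ht) (rk_int hKer hm' hc' ht)]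
  apply integral_congr_ae
  refine Eventually.of_forall fun s => ?_
  simp only
  ring


/-! ### the local kernels -/

/-- product of indicators -/
noncomputable def ip {m : ℕ} (c : Fin m → E) (q : Fin m → ℝ) (l : ℝ) (θ : Fin 3 → ℝ)
    (s : (Fin 3 → ℤ) × Fin m) (x y : E) : ℝ :=
  (cB (ctr c l θ s.1 s.2) (l * q s.2)).indicator 1 x *
    (cB (ctr c l θ s.1 s.2) (l * q s.2)).indicator 1 y

theorem continuous_ctr {m : ℕ} (c : Fin m → E) (l : ℝ) (k : Fin 3 → ℤ) (i : Fin m) :
    Continuous fun θ : Fin 3 → ℝ => ctr c l θ k i := by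
  unfold ctr toE
  have h1 : Continuous fun θ : Fin 3 → ℝ => (fun j => (k j : ℝ) + θ j) := by fun_prop
  have h2 : Continuous fun θ : Fin 3 → ℝ => (WithLp.toLp 2 (fun j => (k j : ℝ) + θ j) : E) :=
    (PiLp.continuous_toLp 2 _).comp h1
  exact (h2.add continuous_const).const_smul l

theorem measurable_ind {m : ℕ} (c : Fin m → E) (q : Fin m → ℝ) (l : ℝ)
    (s : (Fin 3 → ℤ) × Fin m) : Measurable fun z : (Fin 3 → ℝ) × E =>
      (cB (ctr c l z.1 s.1 s.2) (l * q s.2)).indicator (1 : E → ℝ) z.2 := by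
  have e : (fun z : (Fin 3 → ℝ) × E =>
      (cB (ctr c l z.1 s.1 s.2) (l * q s.2)).indicator (1 : E → ℝ) z.2) =
      {z : (Fin 3 → ℝ) × E | dist z.2 (ctr c l z.1 s.1 s.2) ≤ l * q s.2}.indicator 1 := by
    funext z
    by_cases h : dist z.2 (ctr c l z.1 s.1 s.2) ≤ l * q s.2
    · have h1 : z.2 ∈ cB (ctr c l z.1 s.1 s.2) (l * q s.2) := Metric.mem_closedBall.mpr h
      have h2 : z ∈ {z : (Fin 3 → ℝ) × E | dist z.2 (ctr c l z.1 s.1 s.2) ≤ l * q s.2} := h
      rw [Set.indicator_of_mem h1, Set.indicator_of_mem h2]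
      rfl
    · have h1 : z.2 ∉ cB (ctr c l z.1 s.1 s.2) (l * q s.2) := fun h' =>
        h (Metric.mem_closedBall.mp h')
      have h2 : z ∉ {z : (Fin 3 → ℝ) × E | dist z.2 (ctr c l z.1 s.1 s.2) ≤ l * q s.2} := h
      rw [Set.indicator_of_notMem h1, Set.indicator_of_notMem h2]
  rw [e]
  apply measurable_one.indicator
  apply IsClosed.measurableSet
  exact isClosed_le (continuous_snd.dist ((continuous_ctr c l s.1 s.2).comp continuous_fst))
    continuous_const

theorem measurable_ip {m : ℕ} (c : Fin m → E) (q : Fin m → ℝ) (l : ℝ)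
    (s : (Fin 3 → ℤ) × Fin m) : Measurable fun z : (Fin 3 → ℝ) × E × E =>
      ip c q l z.1 s z.2.1 z.2.2 := by
  have h := measurable_ind c q l s
  have m1 : Measurable fun z : (Fin 3 → ℝ) × E × E => (z.1, z.2.1) :=
    measurable_fst.prodMk (measurable_fst.comp measurable_snd)
  have m2 : Measurable fun z : (Fin 3 → ℝ) × E × E => (z.1, z.2.2) :=
    measurable_fst.prodMk (measurable_snd.comp measurable_snd)
  have h1 := h.comp m1
  have h2 := h.comp m2
  unfold ip
  exact h1.mul h2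

theorem ip_bound {m : ℕ} (c : Fin m → E) (q : Fin m → ℝ) (l : ℝ) (θ : Fin 3 → ℝ)
    (s : (Fin 3 → ℤ) × Fin m) (x y : E) : 0 ≤ ip c q l θ s x y ∧ ip c q l θ s x y ≤ 1 := by
  unfold ip
  have h : ∀ z : E, 0 ≤ (cB (ctr c l θ s.1 s.2) (l * q s.2)).indicator (1 : E → ℝ) z ∧
      (cB (ctr c l θ s.1 s.2) (l * q s.2)).indicator (1 : E → ℝ) z ≤ 1 := by
    intro z
    by_cases hz : z ∈ cB (ctr c l θ s.1 s.2) (l * q s.2)
    · rw [Set.indicator_of_mem hz]
      simp
    · rw [Set.indicator_of_notMem hz]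
      simp
  exact ⟨mul_nonneg (h x).1 (h y).1, mul_le_one₀ (h x).2 (h y).1 (h y).2⟩

/-- the local kernel -/
noncomputable def kl {m : ℕ} (q : Fin m → ℝ) (l : ℝ) (x y : E) : ℝ :=
  ∑ i, vb (q i) * hb (l * q i) ‖x - y‖

theorem measurableSet_cube : MeasurableSet cube :=
  MeasurableSet.univ_pi fun _ => measurableSet_Ico

theorem volume_cube : volume cube = 1 := by
  unfold cube
  rw [volume_pi_pi]
  simp

instance : IsFiniteMeasure ((volume : Measure (Fin 3 → ℝ)).restrict cube) :=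
  ⟨by rw [Measure.restrict_apply_univ, volume_cube]; exact ENNReal.one_lt_top⟩

/-- average over the offset -/
theorem avg_offset (hPot : Stmt_Pot) (hLocP : Stmt_LocP) (hLens : Stmt_Lens) {a ρ : ℝ} {m : ℕ}
    {c : Fin m → E} {q : Fin m → ℝ} {l R : ℝ} {Λ : Set E} {n₀ N : ℕ} {X : Fin N → E}
    (ha : 0 < a) (hq : ∀ i, 0 < q i) (hl : 0 < l) (hR : 0 ≤ R) (hΛ : BM Λ) (hΛR : Λ ⊆ cB 0 R)
    (hn : ∀ i, R / l + q i + ‖c i‖ + 1 ≤ n₀) (hX : X ∈ conf a Λ N) :
    ∫ θ in cube, Gsum ρ Λ c q n₀ l θ X = EnG (kl q l) (bg ρ Λ) X := by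
  have hF : ∀ x, x ∉ Λ → bg ρ Λ x = 0 := fun x hx => by simp [bg, hx]
  have hA : Adm (bg ρ Λ) := adm_bg hΛ
  set T : Finset ((Fin 3 → ℤ) × Fin m) := kbox n₀ ×ˢ Finset.univ with hT
  have m0 : ∀ s : (Fin 3 → ℤ) × Fin m, Measurable fun z : (Fin 3 → ℝ) × E × E =>
      ip c q l z.1 s z.2.1 z.2.2 * ‖z.2.1 - z.2.2‖⁻¹ := by
    intro s
    have m1 := measurable_ip c q l s
    have m2 : Measurable fun z : (Fin 3 → ℝ) × E × E => ‖z.2.1 - z.2.2‖⁻¹ := by fun_prop
    exact m1.mul m2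
  have d0 : ∀ (s : (Fin 3 → ℤ) × Fin m) (θ : Fin 3 → ℝ),
      Dom 1 (fun x y => ip c q l θ s x y * ‖x - y‖⁻¹) := by
    intro s θ x y
    obtain ⟨h1, h2⟩ := ip_bound c q l θ s x y
    rw [abs_of_nonneg (mul_nonneg h1 (inv_nonneg.mpr (norm_nonneg _)))]
    exact mul_le_mul_of_nonneg_right h2 (inv_nonneg.mpr (norm_nonneg _))
  have e1 : ∀ θ, Gsum ρ Λ c q n₀ l θ X =
      EnG (fun x y => ∑ s ∈ T, ip c q l θ s x y * ‖x - y‖⁻¹) (bg ρ Λ) X := by
    intro θ
    have mθ : ∀ s, Measurable (Function.uncurry fun x y => ip c q l θ s x y * ‖x - y‖⁻¹) := by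
      intro s
      have m1 : Measurable fun p : E × E => (θ, p) := measurable_const.prodMk measurable_id
      have m2 := (m0 s).comp m1
      have m3 : (Function.uncurry fun x y => ip c q l θ s x y * ‖x - y‖⁻¹) =
        (fun z : (Fin 3 → ℝ) × E × E => ip c q l z.1 s z.2.1 z.2.2 * ‖z.2.1 - z.2.2‖⁻¹) ∘
          (fun p : E × E => (θ, p)) := by
        funext p
        simp only [Function.comp_apply, Function.uncurry]
      rw [m3]
      exact m2
    rw [sum_G hPot hA T 1 (fun s x y => ip c q l θ s x y * ‖x - y‖⁻¹) mθ (fun s => d0 s θ)]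
    unfold Gsum
    rw [hT, Finset.sum_product]
    apply Finset.sum_congr rfl
    intro k _
    apply Finset.sum_congr rfl
    intro i _
    rw [uloc_eq]
    rfl
  simp_rw [e1]
  have mT : Measurable fun z : (Fin 3 → ℝ) × E × E =>
      ∑ s ∈ T, ip c q l z.1 s z.2.1 z.2.2 * ‖z.2.1 - z.2.2‖⁻¹ :=
    Finset.measurable_sum _ fun s _ => m0 s
  have dT : ∀ θ, Dom T.card (fun x y => ∑ s ∈ T, ip c q l θ s x y * ‖x - y‖⁻¹) := by
    intro θ x y
    calc |∑ s ∈ T, ip c q l θ s x y * ‖x - y‖⁻¹|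
        ≤ ∑ s ∈ T, |ip c q l θ s x y * ‖x - y‖⁻¹| := Finset.abs_sum_le_sum_abs _ _
      _ ≤ ∑ _s ∈ T, 1 * ‖x - y‖⁻¹ := Finset.sum_le_sum fun s _ => d0 s θ x y
      _ = _ := by rw [Finset.sum_const, nsmul_eq_mul, one_mul]
  rw [(average hPot (volume.restrict cube) hA T.card
    (fun θ x y => ∑ s ∈ T, ip c q l θ s x y * ‖x - y‖⁻¹) mT
    (Eventually.of_forall dT) X).2]
  apply congr_G hF _ ha hX
  intro x hx y _
  have hxR : ‖x‖ ≤ R := by simpa using hΛR hx
  have i0 : ∀ s, Integrable (fun θ => ip c q l θ s x y) (volume.restrict cube) := by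
    intro s
    refine Integrable.mono' (integrable_const 1) ?_ ?_
    · have m1 : Measurable fun θ : Fin 3 → ℝ => (θ, (x, y)) :=
        measurable_id.prodMk measurable_const
      have m2 := (measurable_ip c q l s).comp m1
      have m3 : (fun θ => ip c q l θ s x y) =
        (fun z : (Fin 3 → ℝ) × E × E => ip c q l z.1 s z.2.1 z.2.2) ∘
          (fun θ : Fin 3 → ℝ => (θ, (x, y))) := by
        funext θ
        simp only [Function.comp_apply]
      rw [m3]
      exact m2.aestronglyMeasurable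
    · refine Eventually.of_forall fun θ => ?_
      obtain ⟨h1, h2⟩ := ip_bound c q l θ s x y
      rw [Real.norm_eq_abs, abs_of_nonneg h1]
      exact h2
  have e2 : ∀ θ, ∑ s ∈ T, ip c q l θ s x y * ‖x - y‖⁻¹ =
      ∑ i, (∑ k ∈ kbox n₀, ip c q l θ (k, i) x y) * ‖x - y‖⁻¹ := by
    intro θ
    rw [hT, Finset.sum_product, Finset.sum_comm]
    apply Finset.sum_congr rfl
    intro i _
    rw [Finset.sum_mul]
  simp_rw [e2]
  rw [integral_finsetSum _ fun i _ =>
    (integrable_finsetSum _ fun k _ => i0 (k, i)).mul_const _]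
  unfold kl
  apply Finset.sum_congr rfl
  intro i _
  rw [integral_mul_const]
  have h1 := hLocP l (q i) R (c i) n₀ hl (hq i) hR (hn i) x y hxR
  have h2 : ∫ θ in cube, ∑ k ∈ kbox n₀, ip c q l θ (k, i) x y =
      (l ^ 3)⁻¹ * volume.real (cB x (l * q i) ∩ cB y (l * q i)) := h1
  rw [h2, hLens.2 x y (l * q i) (mul_pos hl (hq i))]
  unfold hb vb
  have hqi := (hq i).ne'
  have hl' := hl.ne'
  have hpi := Real.pi_pos.ne'
  by_cases ht : ‖x - y‖ = 0
  · rw [ht]
    simp
  · field_simp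

theorem hb_le {r t : ℝ} (hr : 0 < r) (ht : 0 ≤ t) : 0 ≤ hb r t ∧ hb r t ≤ t⁻¹ := by
  unfold hb
  have h1 := lens_nonneg hr ht
  have h2 := lens_le hr ht
  have h3 : 0 < vb r := by unfold vb; positivity
  refine ⟨by positivity, ?_⟩
  rw [mul_comm, ← div_div, div_eq_mul_inv (lens r t / vb r)]
  have h4 : lens r t / vb r ≤ 1 := (div_le_one h3).mpr h2
  calc lens r t / vb r * t⁻¹ ≤ 1 * t⁻¹ := mul_le_mul_of_nonneg_right h4 (inv_nonneg.mpr ht)
    _ = _ := one_mul _

theorem smul_G (w : ℝ) (G : E → E → ℝ) (F : E → ℝ) {N : ℕ} (X : Fin N → E) :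
    EnG (fun x y => w * G x y) F X = w * EnG G F X := by
  unfold EnG
  have e1 : ∀ x, ∫ y, F y * (w * G x y) = w * ∫ y, F y * G x y := by
    intro x
    rw [← integral_const_mul]
    apply integral_congr_ae
    refine Eventually.of_forall fun y => ?_
    simp only
    ring
  simp_rw [e1]
  have e2 : ∫ x, F x * (w * ∫ y, F y * G x y) = w * ∫ x, F x * ∫ y, F y * G x y := by
    rw [← integral_const_mul]
    apply integral_congr_ae
    refine Eventually.of_forall fun y => ?_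
    simp only
    ring
  rw [e2]
  simp_rw [← Finset.mul_sum]
  ring

/-- average over the dilation -/
theorem avg_dil (hPot : Stmt_Pot) {a ρ lam0 lam1 : ℝ} {m : ℕ}
    {q : Fin m → ℝ} {Λ : Set E} {N : ℕ} {X : Fin N → E}
    (ha : 0 < a) (hq : ∀ i, 0 < q i) (h0 : 0 < lam0) (h01 : lam0 < lam1) (hΛ : BM Λ)
    (hX : X ∈ conf a Λ N) (cc : ℝ → ℝ)
    (hcc : ∀ t, 0 < t → ∫ l in Icc lam0 lam1, (Real.log (lam1 / lam0) * l)⁻¹ *
      ∑ i, vb (q i) * hb (l * q i) t = Rk cc t) :
    ∫ l in Icc lam0 lam1, (Real.log (lam1 / lam0) * l)⁻¹ * EnG (kl q l) (bg ρ Λ) X =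
      EnK (Rk cc) (bg ρ Λ) X := by
  have hF : ∀ x, x ∉ Λ → bg ρ Λ x = 0 := fun x hx => by simp [bg, hx]
  have hA : Adm (bg ρ Λ) := adm_bg hΛ
  have hM : 0 < Real.log (lam1 / lam0) := Real.log_pos ((one_lt_div h0).mpr h01)
  simp_rw [← smul_G]
  have mG : Measurable fun z : ℝ × E × E =>
      (Real.log (lam1 / lam0) * z.1)⁻¹ * kl q z.1 z.2.1 z.2.2 := by
    unfold kl hb vb
    apply Measurable.mul
    · fun_prop
    · apply Finset.measurable_sum
      intro i _
      apply Measurable.mul measurable_const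
      apply Measurable.div
      · exact measurable_lens.comp ((measurable_fst.mul measurable_const).prodMk
          ((measurable_fst.comp measurable_snd).sub (measurable_snd.comp measurable_snd)).norm)
      · fun_prop
  have dG : ∀ᵐ l ∂(volume.restrict (Icc lam0 lam1)),
      Dom ((Real.log (lam1 / lam0) * lam0)⁻¹ * frac q)
        (fun x y => (Real.log (lam1 / lam0) * l)⁻¹ * kl q l x y) := by
    rw [ae_restrict_iff' measurableSet_Icc]
    refine Eventually.of_forall fun l hl x y => ?_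
    have hl0 : 0 < l := lt_of_lt_of_le h0 hl.1
    have h1 : 0 ≤ kl q l x y ∧ kl q l x y ≤ frac q * ‖x - y‖⁻¹ := by
      unfold kl frac
      have h2 : ∀ i, 0 < vb (q i) := fun i => by
        have := hq i
        unfold vb
        positivity
      constructor
      · exact Finset.sum_nonneg fun i _ => mul_nonneg (h2 i).le
          (hb_le (mul_pos hl0 (hq i)) (norm_nonneg _)).1
      · rw [Finset.sum_mul]
        exact Finset.sum_le_sum fun i _ => mul_le_mul_of_nonneg_left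
          (hb_le (mul_pos hl0 (hq i)) (norm_nonneg _)).2 (h2 i).le
    have h3 : (0:ℝ) ≤ (Real.log (lam1 / lam0) * l)⁻¹ := by positivity
    rw [abs_of_nonneg (mul_nonneg h3 h1.1), mul_assoc]
    apply mul_le_mul _ h1.2 h1.1 (by positivity)
    apply inv_anti₀ (by positivity)
    exact mul_le_mul_of_nonneg_left hl.1 hM.le
  rw [(average hPot (volume.restrict (Icc lam0 lam1)) hA _ _ mG dG X).2, enK_eq]
  apply congr_G hF _ ha hX
  intro x _ y hxy
  have ht : 0 < ‖x - y‖ := norm_pos_iff.mpr (sub_ne_zero.mpr hxy)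
  exact hcc _ ht

/-! ### the error term -/

theorem integral_sq {L : ℝ} (hL : 0 < L) : IntegrableOn (fun s : ℝ => (s ^ 2)⁻¹) (Ioi L) ∧
    ∫ s in Ioi L, (s ^ 2)⁻¹ = 1 / L := by
  have e : ∀ s ∈ Ioi L, s ^ (-2 : ℝ) = (s ^ 2)⁻¹ := by
    intro s hs
    have : 0 < s := lt_trans hL hs
    rw [Real.rpow_neg this.le, Real.rpow_two]
  constructor
  · have h := integrableOn_Ioi_rpow_of_lt (a := -2) (by norm_num) hL
    exact h.congr_fun e measurableSet_Ioi
  · rw [← setIntegral_congr_fun measurableSet_Ioi e,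
      integral_Ioi_rpow_of_lt (by norm_num) hL]
    have h1 : (-2 : ℝ) + 1 = -1 := by norm_num
    rw [h1, Real.rpow_neg_one]
    field_simp

theorem err1 {cc : ℝ → ℝ} (hm : Measurable cc) (hc : ∀ s, 0 ≤ cc s ∧ cc s ≤ 1) {a ε L : ℝ}
    (ha : 0 < a) (hε : 0 ≤ ε) (hL : a / 2 ≤ L) (h : ∀ s, 0 < s → s ≤ L → 1 - ε ≤ cc s) :
    ∫ s in Ioi (a / 2), (1 - cc s) * (s ^ 2)⁻¹ ≤ 2 * ε / a + 1 / L := by
  have ha2 : 0 < a / 2 := by linarith
  have hL0 : 0 < L := lt_of_lt_of_le ha2 hL
  obtain ⟨i1, e1⟩ := integral_sq ha2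
  obtain ⟨i2, e2⟩ := integral_sq hL0
  have i3 : IntegrableOn (fun s : ℝ => (Ioi L).indicator (fun s => (s ^ 2)⁻¹) s)
      (Ioi (a / 2)) := i1.indicator measurableSet_Ioi
  have i4 : IntegrableOn (fun s : ℝ => (1 - cc s) * (s ^ 2)⁻¹) (Ioi (a / 2)) := by
    refine Integrable.mono' i1 ?_ ?_
    · exact ((measurable_const.sub hm).aestronglyMeasurable.mul i1.aestronglyMeasurable)
    · refine Eventually.of_forall fun s => ?_
      have h1 : 0 ≤ 1 - cc s := by linarith [(hc s).2]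
      have h2 : 1 - cc s ≤ 1 := by linarith [(hc s).1]
      have h3 : (0:ℝ) ≤ (s ^ 2)⁻¹ := by positivity
      rw [Real.norm_eq_abs, abs_of_nonneg (mul_nonneg h1 h3)]
      calc _ ≤ 1 * (s ^ 2)⁻¹ := mul_le_mul_of_nonneg_right h2 h3
        _ = _ := one_mul _
  have h5 : ∫ s in Ioi (a / 2), (1 - cc s) * (s ^ 2)⁻¹ ≤
      ∫ s in Ioi (a / 2), (ε * (s ^ 2)⁻¹ + (Ioi L).indicator (fun s => (s ^ 2)⁻¹) s) := by
    apply setIntegral_mono_on i4 ((i1.const_mul ε).add i3) measurableSet_Ioi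
    intro s hs
    have hs0 : 0 < s := lt_trans ha2 hs
    have h3 : (0:ℝ) ≤ (s ^ 2)⁻¹ := by positivity
    change _ ≤ ε * (s ^ 2)⁻¹ + (Ioi L).indicator (fun s => (s ^ 2)⁻¹) s
    by_cases hsL : s ≤ L
    · rw [Set.indicator_of_notMem (show s ∉ Ioi L from not_lt.mpr hsL), add_zero]
      apply mul_le_mul_of_nonneg_right _ h3
      linarith [h s hs0 hsL]
    · rw [Set.indicator_of_mem (show s ∈ Ioi L from not_le.mp hsL)]
      have h1 : (1 - cc s) * (s ^ 2)⁻¹ ≤ 1 * (s ^ 2)⁻¹ := by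
        apply mul_le_mul_of_nonneg_right _ h3
        linarith [(hc s).1]
      have h4 : 0 ≤ ε * (s ^ 2)⁻¹ := by positivity
      linarith
  rw [integral_add (i1.const_mul ε) i3, integral_const_mul, e1] at h5
  have h6 : ∫ s in Ioi (a / 2), (Ioi L).indicator (fun s : ℝ => (s ^ 2)⁻¹) s = 1 / L := by
    rw [setIntegral_indicator measurableSet_Ioi]
    have h7 : Ioi (a / 2) ∩ Ioi L = Ioi L := by
      rw [Set.inter_eq_right]
      exact Ioi_subset_Ioi hL
    rw [h7, e2]
  rw [h6] at h5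
  have h8 : ε * (1 / (a / 2)) = 2 * ε / a := by field_simp
  rw [h8] at h5
  exact h5

theorem err2 {cc : ℝ → ℝ} (hm : Measurable cc) (hc : ∀ s, 0 ≤ cc s ∧ cc s ≤ 1) {a ε L : ℝ}
    (ha : 0 < a) (hL : a / 2 ≤ L) (h : ∀ s, 0 < s → s ≤ L → 1 - ε ≤ cc s) :
    ∫ s in Ioc 0 (a / 2), (1 - cc s) * s ≤ ε * a ^ 2 / 8 := by
  have ha2 : 0 < a / 2 := by linarith
  have i1 : IntegrableOn (fun s : ℝ => s) (Ioc 0 (a / 2)) :=
    (continuous_id.integrableOn_Icc).mono_set Ioc_subset_Icc_self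
  have i4 : IntegrableOn (fun s : ℝ => (1 - cc s) * s) (Ioc 0 (a / 2)) := by
    refine Integrable.mono' i1.norm ?_ ?_
    · exact ((measurable_const.sub hm).aestronglyMeasurable.mul i1.aestronglyMeasurable)
    · refine Eventually.of_forall fun s => ?_
      have h1 : 0 ≤ 1 - cc s := by linarith [(hc s).2]
      have h2 : 1 - cc s ≤ 1 := by linarith [(hc s).1]
      rw [norm_mul, Real.norm_eq_abs (1 - cc s), abs_of_nonneg h1]
      calc _ ≤ 1 * ‖s‖ := mul_le_mul_of_nonneg_right h2 (norm_nonneg _)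
        _ = _ := one_mul _
  have h5 : ∫ s in Ioc 0 (a / 2), (1 - cc s) * s ≤ ∫ s in Ioc 0 (a / 2), ε * s := by
    apply setIntegral_mono_on i4 (i1.const_mul ε) measurableSet_Ioc
    intro s hs
    apply mul_le_mul_of_nonneg_right _ hs.1.le
    linarith [h s hs.1 (hs.2.trans hL)]
  have h6 : ∫ s in Ioc 0 (a / 2), s = (a / 2) ^ 2 / 2 := by
    rw [← intervalIntegral.integral_of_le ha2.le, integral_id]
    ring
  rw [integral_const_mul, h6] at h5
  calc _ ≤ _ := h5
    _ = _ := by ring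

end Loc

open Loc in
/-- uses only `Pot`, `Ker1`, `Ch`, `Pd`, `LocP`, `Lens` -/
theorem loc_proof (hLens : Stmt_Lens) (hPot : Stmt_Pot) (hKer : Stmt_Ker1) (hCh : Stmt_Ch)
    (hPd : Stmt_Pd) (hLocP : Stmt_LocP) : Stmt_Loc := by
  intro a ρ m c q γ ε lam0 lam1 qm R Λ n₀ N X ha hρ hPack h0 h01 hε hfrac hfr hqm hqmi haL hR hΛ
    hΛR hn hX
  have hq : ∀ i, 0 < q i := hPack.hq
  obtain ⟨cc, hm, hc, hc1, hc2⟩ := hCh m q hq lam0 lam1 ε h0 h01 hfrac hfr
  have e1 : ∀ l ∈ Icc lam0 lam1, (Real.log (lam1 / lam0) * l)⁻¹ *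
      ∫ θ in cube, Gsum ρ Λ c q n₀ l θ X =
      (Real.log (lam1 / lam0) * l)⁻¹ * EnG (kl q l) (bg ρ Λ) X := by
    intro l hl
    have hl0 : 0 < l := lt_of_lt_of_le h0 hl.1
    rw [avg_offset hPot hLocP hLens ha hq hl0 hR hΛ hΛR _ hX]
    intro i
    refine le_trans ?_ (hn i)
    have : R / l ≤ R / lam0 := div_le_div_of_nonneg_left hR h0 hl.1
    linarith
  rw [setIntegral_congr_fun measurableSet_Icc e1,
    avg_dil hPot ha hq h0 h01 hΛ hX cc hc2, en_split hPot hKer hm hc ha hΛ hX]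
  have hm' : Measurable fun s => 1 - cc s := measurable_const.sub hm
  have hc' : ∀ s, 0 ≤ 1 - cc s ∧ 1 - cc s ≤ 1 := fun s =>
    ⟨by linarith [(hc s).2], by linarith [(hc s).1]⟩
  have h1 := hPd (fun s => 1 - cc s) hm' hc' a ρ (bg ρ Λ) ha hρ.le (adm_bg hΛ)
    (fun x => by
      unfold bg
      by_cases hx : x ∈ Λ
      · rw [Set.indicator_of_mem hx, abs_neg, abs_of_pos hρ]
      · rw [Set.indicator_of_notMem hx, abs_zero]
        exact hρ.le) N X hX.1
  have hLs : ∀ s, 0 < s → s ≤ lam0 * qm → 1 - ε ≤ cc s := by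
    intro s hs hsL
    apply hc1 s hs
    intro i
    exact hsL.trans (mul_le_mul_of_nonneg_left (hqmi i) h0.le)
  have h2 := err1 hm hc ha hε haL hLs
  have h3 := err2 hm hc ha haL hLs
  have h4 : 2 / 3 * (∫ s in Ioi (a / 2), (1 - cc s) * (s ^ 2)⁻¹)
      + ρ * (16 * π / 9) * ∫ s in Ioc 0 (a / 2), (1 - cc s) * s ≤
      errL a ρ ε (1 / (lam0 * qm)) := by
    unfold errL
    have h5 : ρ * (16 * π / 9) * ∫ s in Ioc 0 (a / 2), (1 - cc s) * s ≤
        ρ * (16 * π / 9) * (ε * a ^ 2 / 8) :=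
      mul_le_mul_of_nonneg_left h3 (by positivity)
    have h6 : 2 / 3 * (∫ s in Ioi (a / 2), (1 - cc s) * (s ^ 2)⁻¹) ≤
        2 / 3 * (2 * ε / a + 1 / (lam0 * qm)) := mul_le_mul_of_nonneg_left h2 (by norm_num)
    calc _ ≤ 2 / 3 * (2 * ε / a + 1 / (lam0 * qm)) + ρ * (16 * π / 9) * (ε * a ^ 2 / 8) :=
          add_le_add h6 h5
      _ = _ := by ring
  have h7 : (N : ℝ) * (2 / 3 * (∫ s in Ioi (a / 2), (1 - cc s) * (s ^ 2)⁻¹)
      + ρ * (16 * π / 9) * ∫ s in Ioc 0 (a / 2), (1 - cc s) * s) ≤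
      N * errL a ρ ε (1 / (lam0 * qm)) := mul_le_mul_of_nonneg_left h4 (Nat.cast_nonneg _)
  linarith [h1, h7]

end Pool.Agent.JEL
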