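import Pool.Agent.JEL.Stmts

/-!
# JEL, module LocP: average of the product of indicators over the offset of the packing
-/

open MeasureTheory Set Filter Topology

namespace Pool.Agent.JEL

namespace LocP_

/-- offsets of the balls containing both points -/
def At (l q : ℝ) (c x y : E) : Set (Fin 3 → ℝ) :=
  {ξ | l • (toE ξ + c) ∈ cB x (l * q) ∩ cB y (l * q)}

theorem toE_mp : MeasurePreserving (toE : (Fin 3 → ℝ) → E) volume volume :=
  PiLp.volume_preserving_toLp (Fin 3)

theorem measurableSet_At (l q : ℝ) (c x y : E) : MeasurableSet (At l q c x y) := by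
  have h1 : Measurable (fun ξ : Fin 3 → ℝ => l • (toE ξ + c)) :=
    (toE_mp.measurable.add_const c).const_smul l
  exact h1 (Metric.isClosed_closedBall.measurableSet.inter
    Metric.isClosed_closedBall.measurableSet)

theorem volume_At {l : ℝ} (hl : 0 < l) (q : ℝ) (c x y : E) :
    volume (At l q c x y) =
      ENNReal.ofReal (l ^ 3)⁻¹ * volume (cB x (l * q) ∩ cB y (l * q)) := by
  have hS : MeasurableSet (cB x (l * q) ∩ cB y (l * q)) :=
    Metric.isClosed_closedBall.measurableSet.inter Metric.isClosed_closedBall.measurableSet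
  have hB : MeasurableSet ((fun p : E => p + c) ⁻¹' ((fun p : E => l • p) ⁻¹'
      (cB x (l * q) ∩ cB y (l * q)))) :=
    (measurable_id.add_const c) ((measurable_id.const_smul l) hS)
  have h1 : At l q c x y = (toE : (Fin 3 → ℝ) → E) ⁻¹' ((fun p : E => p + c) ⁻¹'
      ((fun p : E => l • p) ⁻¹' (cB x (l * q) ∩ cB y (l * q)))) := rfl
  rw [h1, toE_mp.measure_preimage hB.nullMeasurableSet, measure_preimage_add_right,
    Measure.addHaar_preimage_smul _ hl.ne']
  have h2 : Module.finrank ℝ E = 3 := by simp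
  rw [h2, abs_of_pos (inv_pos.mpr (pow_pos hl 3))]

theorem ind_eq (l q : ℝ) (c x y : E) (ξ : Fin 3 → ℝ) :
    (cB (l • (toE ξ + c)) (l * q)).indicator (1 : E → ℝ) x *
      (cB (l • (toE ξ + c)) (l * q)).indicator (1 : E → ℝ) y =
      (At l q c x y).indicator (fun _ => (1 : ℝ)) ξ := by
  classical
  have h1 : ∀ p : E, p ∈ cB (l • (toE ξ + c)) (l * q) ↔ l • (toE ξ + c) ∈ cB p (l * q) :=
    fun p => Metric.mem_closedBall_comm
  simp only [indicator_apply, h1, Pi.one_apply]
  have h2 : ξ ∈ At l q c x y ↔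
      l • (toE ξ + c) ∈ cB x (l * q) ∧ l • (toE ξ + c) ∈ cB y (l * q) := Iff.rfl
  rw [h2]
  by_cases hx : l • (toE ξ + c) ∈ cB x (l * q)
  · by_cases hy : l • (toE ξ + c) ∈ cB y (l * q)
    · rw [if_pos hx, if_pos hy, if_pos ⟨hx, hy⟩, one_mul]
    · rw [if_pos hx, if_neg hy, if_neg (fun h => hy h.2), one_mul]
  · rw [if_neg hx, zero_mul, if_neg (fun h : _ ∧ _ => hx h.1)]

/-- box with corner `k` -/
def box (k : Fin 3 → ℤ) : Set (Fin 3 → ℝ) := Set.pi univ (fun j => Ico (k j : ℝ) ((k j : ℝ) + 1))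

theorem measurableSet_box (k : Fin 3 → ℤ) : MeasurableSet (box k) :=
  MeasurableSet.univ_pi fun _ => measurableSet_Ico

theorem mem_box_floor (ξ : Fin 3 → ℝ) : ξ ∈ box (fun j => ⌊ξ j⌋) := fun _ _ =>
  ⟨Int.floor_le _, Int.lt_floor_add_one _⟩

theorem eq_floor {ξ : Fin 3 → ℝ} {k : Fin 3 → ℤ} (h : ξ ∈ box k) : k = fun j => ⌊ξ j⌋ := by
  funext j
  exact (Int.floor_eq_iff.mpr (h j (mem_univ j))).symm

theorem abs_le_norm_toE (ξ : Fin 3 → ℝ) (j : Fin 3) : |ξ j| ≤ ‖toE ξ‖ := by
  have := PiLp.norm_apply_le (toE ξ) j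
  simpa [toE] using this

theorem mem_kbox {l q R : ℝ} {c : E} {n₀ : ℕ} (hl : 0 < l)
    (hn : R / l + q + ‖c‖ + 1 ≤ n₀) {x y : E} (hx : ‖x‖ ≤ R) {ξ : Fin 3 → ℝ}
    (h : ξ ∈ At l q c x y) : (fun j => ⌊ξ j⌋) ∈ kbox n₀ := by
  have h1 : ‖l • (toE ξ + c) - x‖ ≤ l * q := by
    have := h.1
    rwa [Metric.mem_closedBall, dist_eq_norm] at this
  have h2 : ‖toE ξ‖ ≤ R / l + q + ‖c‖ := by
    have h3 : l * ‖toE ξ + c‖ ≤ l * q + R := by
      calc l * ‖toE ξ + c‖ = ‖l • (toE ξ + c)‖ := by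
            rw [norm_smul, Real.norm_of_nonneg hl.le]
        _ = ‖(l • (toE ξ + c) - x) + x‖ := by rw [sub_add_cancel]
        _ ≤ ‖l • (toE ξ + c) - x‖ + ‖x‖ := norm_add_le _ _
        _ ≤ l * q + R := add_le_add h1 hx
    have h4 : ‖toE ξ + c‖ ≤ R / l + q := by
      rw [← sub_nonneg]
      have : R / l + q - ‖toE ξ + c‖ = (l * q + R - l * ‖toE ξ + c‖) / l := by
        field_simp
        ring
      rw [this]
      exact div_nonneg (by linarith) hl.le
    calc ‖toE ξ‖ = ‖(toE ξ + c) - c‖ := by rw [add_sub_cancel_right]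
      _ ≤ ‖toE ξ + c‖ + ‖c‖ := norm_sub_le _ _
      _ ≤ R / l + q + ‖c‖ := by linarith
  rw [kbox, Fintype.mem_piFinset]
  intro j
  have h3 := abs_le.mp ((abs_le_norm_toE ξ j).trans h2)
  rw [Finset.mem_Icc]
  constructor
  · rw [Int.le_floor]
    push_cast
    linarith [h3.1]
  · have h4 : ((⌊ξ j⌋ : ℤ) : ℝ) ≤ (n₀ : ℝ) := (Int.floor_le (ξ j)).trans (by linarith [h3.2])
    exact_mod_cast h4

theorem cube_eq (k : Fin 3 → ℤ) :
    cube = (fun θ : Fin 3 → ℝ => (fun j => (k j : ℝ)) + θ) ⁻¹' box k := by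
  ext θ
  constructor
  · intro h j _
    obtain ⟨h1, h2⟩ := h j (mem_univ j)
    simp only [Pi.add_apply]
    exact ⟨by linarith, by linarith⟩
  · intro h j _
    obtain ⟨h1, h2⟩ := h j (mem_univ j)
    simp only [Pi.add_apply] at h1 h2
    exact ⟨by linarith, by linarith⟩

theorem int_cube (k : Fin 3 → ℤ) (g : (Fin 3 → ℝ) → ℝ) :
    ∫ θ in cube, g (fun j => (k j : ℝ) + θ j) = ∫ ξ in box k, g ξ := by
  have h := (measurePreserving_add_left (volume : Measure (Fin 3 → ℝ))
    (fun j => (k j : ℝ))).setIntegral_preimage_emb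
    (measurableEmbedding_addLeft (fun j => (k j : ℝ))) g (box k)
  rw [← h, cube_eq k]
  rfl

theorem volume_box_lt_top (k : Fin 3 → ℤ) : volume (box k) < ⊤ := by
  rw [box, volume_pi_pi]
  exact ENNReal.prod_lt_top fun _ _ => by simp

end LocP_

open LocP_ in
theorem LocP_proof : Stmt_LocP := by
  intro l q R c n₀ hl hq hR hn x y hx
  have hA := measurableSet_At l q c x y
  have hint : ∀ k : Fin 3 → ℤ,
      IntegrableOn ((At l q c x y).indicator (fun _ => (1 : ℝ))) (box k) := by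
    intro k
    have h1 : IntegrableOn (fun _ : Fin 3 → ℝ => (1 : ℝ)) (box k) :=
      integrableOn_const (volume_box_lt_top k).ne
    exact h1.indicator hA
  have hint' : ∀ k : Fin 3 → ℤ, IntegrableOn (fun θ : Fin 3 → ℝ =>
      (At l q c x y).indicator (fun _ => (1 : ℝ)) (fun j => (k j : ℝ) + θ j)) cube := by
    intro k
    have hm : MeasurableSet ((fun θ : Fin 3 → ℝ => (fun j => (k j : ℝ) + θ j)) ⁻¹'
        At l q c x y) := by
      have h2 : Measurable (fun θ : Fin 3 → ℝ => (fun j => (k j : ℝ) + θ j)) :=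
        measurable_pi_lambda _ fun j => (measurable_pi_apply j).const_add _
      exact h2 hA
    have hc : volume cube < ⊤ := by
      rw [cube, volume_pi_pi]
      exact ENNReal.prod_lt_top fun j _ => by simp
    have h1 : IntegrableOn (fun _ : Fin 3 → ℝ => (1 : ℝ)) cube := integrableOn_const hc.ne
    have h3 := h1.indicator hm
    exact h3
  have h1 : ∀ (k : Fin 3 → ℤ) (θ : Fin 3 → ℝ),
      (cB (l • (toE (fun j => (k j : ℝ) + θ j) + c)) (l * q)).indicator (1 : E → ℝ) x *
      (cB (l • (toE (fun j => (k j : ℝ) + θ j) + c)) (l * q)).indicator (1 : E → ℝ) y =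
      (At l q c x y).indicator (fun _ => (1 : ℝ)) (fun j => (k j : ℝ) + θ j) := fun k θ =>
    ind_eq l q c x y _
  simp only [h1]
  rw [integral_finsetSum _ fun k _ => hint' k]
  simp only [int_cube]
  rw [← integral_biUnion_finset (kbox n₀) (fun k _ => measurableSet_box k) ?_
    fun k _ => hint k]
  · rw [setIntegral_eq_integral_of_forall_compl_eq_zero]
    · rw [integral_indicator hA, setIntegral_const, smul_eq_mul, mul_one, measureReal_def,
        volume_At hl, ENNReal.toReal_mul, ENNReal.toReal_ofReal (inv_nonneg.mpr (pow_pos hl 3).le),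
        measureReal_def]
    · intro ξ hξ
      rw [indicator_of_notMem]
      intro hmem
      apply hξ
      simp only [mem_iUnion]
      exact ⟨fun j => ⌊ξ j⌋, mem_kbox hl hn hx hmem, mem_box_floor ξ⟩
  · intro k _ k' _ hkk'
    rw [Function.onFun, Set.disjoint_left]
    intro ξ h2 h3
    exact hkk' ((eq_floor h2).trans (eq_floor h3).symm)

end Pool.Agent.JEL
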