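import Pool.Agent.JEL.Stmts

open MeasureTheory Set Filter Topology

namespace Pool.Agent.JEL

open scoped Real

namespace Low_

lemma vb_mono {r s : ℝ} (hr : 0 ≤ r) (h : r ≤ s) : vb r ≤ vb s := by
  unfold vb
  have : r ^ 3 ≤ s ^ 3 := pow_le_pow_left₀ hr h 3
  have hp : 0 ≤ 4 * Real.pi / 3 := by positivity
  exact mul_le_mul_of_nonneg_left this hp

lemma vb_lt {r s : ℝ} (hr : 0 ≤ r) (h : r < s) : vb r < vb s := by
  unfold vb
  have : r ^ 3 < s ^ 3 := pow_lt_pow_left₀ h hr (by norm_num)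
  have hp : 0 < 4 * Real.pi / 3 := by positivity
  exact mul_lt_mul_of_pos_left this hp

lemma vb_mul (l r : ℝ) : vb (l * r) = l ^ 3 * vb r := by
  unfold vb
  ring

lemma vb_ge {r : ℝ} (hr : 0 ≤ r) : r ^ 3 ≤ vb r := by
  unfold vb
  have hp : 1 ≤ 4 * Real.pi / 3 := by
    have := Real.pi_gt_three
    linarith
  have h3 : 0 ≤ r ^ 3 := by positivity
  nlinarith

lemma qmin {m : ℕ} (hm : 0 < m) (q : Fin m → ℝ) (hq : ∀ i, 0 < q i) :
    ∃ qm : ℝ, 0 < qm ∧ ∀ i, qm ≤ q i := by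
  haveI : Nonempty (Fin m) := ⟨⟨0, hm⟩⟩
  obtain ⟨i, hi⟩ := Finite.exists_min q
  exact ⟨q i, hq i, hi⟩

end Low_

open Low_ in
theorem Low_proof (hBall : Stmt_Ball) (hLowB : Stmt_LowB) (hPackF : Stmt_PackF)
    (hCells : Stmt_Cells) (_hMeas : Stmt_Meas) (hLens : Stmt_Lens) : Stmt_Low := by
  intro a β ρ ha hβ hρ hρ2
  obtain ⟨K₀, hK₀, hB⟩ := hBall a β ρ ha hβ hρ hρ2
  obtain ⟨w, CT, Cw, r₀, haw, hCT, hCw, hr₀, hL⟩ := hLowB a β ρ K₀ ha hβ hρ hρ2 hK₀
  have hw : 0 < w := ha.trans haw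
  refine ⟨CT + 3, by positivity, ?_⟩
  intro m c q γ ε hP hε hε1 hfr
  obtain ⟨hP1, hP2, hP3⟩ := hPackF m c q γ hP
  obtain ⟨r₁, hr₁⟩ := hB ε hε
  obtain ⟨qm, hqm0, hqm⟩ := qmin hP.hm q hP.hq
  have hγ := hP.hγ
  haveI : Nonempty (Fin m) := ⟨⟨0, hP.hm⟩⟩
  -- the sum of squares
  set s2 : ℝ := ∑ i, q i ^ 2 with hs2
  have hs2n : 0 ≤ s2 := Finset.sum_nonneg fun i _ => by positivity
  have hs3 : ∑ i, q i ^ 3 ≤ 1 := by
    refine le_trans (Finset.sum_le_sum fun i _ => ?_) hP1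
    exact (vb_ge (hP.hq i).le).trans (vb_mono (hP.hq i).le (by linarith))
  -- the constant p
  set p : ℝ := 1 - ∑ i, vb (q i + γ / 2) with hp
  have hp0 : 0 < p := by
    have : ∑ i, vb (q i + γ / 2) < ∑ i, vb (q i + γ) := by
      apply Finset.sum_lt_sum_of_nonempty Finset.univ_nonempty
      intro i _
      exact vb_lt (by linarith [hP.hq i]) (by linarith)
    rw [hp]
    linarith
  refine ⟨1 + |r₀| / qm + |r₁| / qm + 2 * w / γ + Cw * s2 / ε, by positivity, ?_⟩
  intro l hl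
  have e1 : 0 ≤ |r₀| / qm := by positivity
  have e2 : 0 ≤ |r₁| / qm := by positivity
  have e3 : 0 ≤ 2 * w / γ := by positivity
  have e4 : 0 ≤ Cw * s2 / ε := by positivity
  have hl1 : 1 ≤ l := by linarith
  have hl0 : 0 < l := by linarith
  have hlr₀ : ∀ i, r₀ ≤ l * q i := by
    intro i
    have h1 : |r₀| / qm ≤ l := by linarith
    rw [div_le_iff₀ hqm0] at h1
    have h2 : l * qm ≤ l * q i := mul_le_mul_of_nonneg_left (hqm i) hl0.le
    linarith [le_abs_self r₀]
  have hlr₁ : ∀ i, r₁ ≤ l * q i := by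
    intro i
    have h1 : |r₁| / qm ≤ l := by linarith
    rw [div_le_iff₀ hqm0] at h1
    have h2 : l * qm ≤ l * q i := mul_le_mul_of_nonneg_left (hqm i) hl0.le
    linarith [le_abs_self r₁]
  have hlγ : 2 * w ≤ l * γ := by
    have h1 : 2 * w / γ ≤ l := by linarith
    rwa [div_le_iff₀ hγ] at h1
  have hlε : Cw * s2 ≤ l * ε := by
    have h1 : Cw * s2 / ε ≤ l := by linarith
    rwa [div_le_iff₀ hε] at h1
  choose n hn using fun i : Fin m => hr₁ (l * q i) (hlr₁ i)
  obtain ⟨V₀, hV₀, hLL⟩ := hL p ε hp0 hε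
  set S : ℝ := Sl a β ρ q l with hS
  refine ⟨|S| + CT, 2 * l, V₀, by positivity, by positivity, ?_⟩
  intro Λ hΛ hV N hN
  obtain ⟨R, hR⟩ := hΛ.2.subset_closedBall (0 : E)
  have hR' : Λ ⊆ cB 0 (max R 0) := hR.trans (Metric.closedBall_subset_closedBall (le_max_left _ _))
  obtain ⟨n₀, hn₀⟩ := exists_nat_ge (max R 0 / l + 2)
  have h0 : (0 : Fin 3 → ℝ) ∈ cube := by
    unfold cube
    intro j _
    simp
  obtain ⟨A, Bd, _, _, _, hAin, _, hA1, hA2, _, _⟩ :=
    hCells l (max R 0) 0 Λ n₀ hl0 h0 (le_max_right _ _) hΛ hR' hn₀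
  obtain ⟨hb1, hb2, _⟩ := hP3 l 0 hl0
  set zn : ℝ := zone (2 * l) Λ with hzn
  have hzn0 : 0 ≤ zn := measureReal_nonneg
  set V : ℝ := volume.real Λ with hVdef
  have hV0 : 0 ≤ V := measureReal_nonneg
  -- sums over A × Fin m
  have hsumK : ∀ f : Fin m → ℝ, ∑ k : {k // k ∈ A} × Fin m, f k.2 = A.card * ∑ i, f i := by
    intro f
    rw [Fintype.sum_prod_type]
    simp
  have hprodK : ∀ f : Fin m → ℝ, ∏ k : {k // k ∈ A} × Fin m, f k.2 = (∏ i, f i) ^ A.card := by
    intro f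
    rw [Fintype.prod_prod_type]
    simp
  have hΛfin : volume Λ ≠ ⊤ := hΛ.2.measure_lt_top.ne
  have hsub : ∀ (k : {k // k ∈ A} × Fin m) (t : ℝ), t < l * (q k.2 + γ) →
      cB (ctr c l 0 k.1 k.2) t ⊆ Λ := by
    intro k t ht
    have h1 := hb1 k.1 k.2 (t / l) (by rw [div_lt_iff₀ hl0]; linarith)
    rw [mul_div_cancel₀ _ hl0.ne'] at h1
    exact h1.trans (hAin k.1 k.1.2)
  have hinj : ∀ k k' : {k // k ∈ A} × Fin m, k ≠ k' →
      ((k.1 : Fin 3 → ℤ), k.2) ≠ ((k'.1 : Fin 3 → ℤ), k'.2) := by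
    intro k k' hkk h
    apply hkk
    have h1 := congrArg Prod.fst h
    have h2 := congrArg Prod.snd h
    exact Prod.ext (Subtype.ext h1) h2
  have hsep : ∀ k k' : {k // k ∈ A} × Fin m, k ≠ k' →
      l * q k.2 + l * q k'.2 + 2 * w ≤ ‖ctr c l 0 k.1 k.2 - ctr c l 0 k'.1 k'.2‖ := by
    intro k k' hkk
    have := hb2 k.1 k.2 k'.1 k'.2 (hinj k k' hkk)
    linarith
  have hsubw : ∀ k : {k // k ∈ A} × Fin m, cB (ctr c l 0 k.1 k.2) (l * q k.2 + w) ⊆ Λ := by
    intro k
    apply hsub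
    rw [mul_add]
    linarith
  -- the volume of the remaining part
  have hrest : p * V ≤ volume.real (Λ \ ⋃ k : {k // k ∈ A} × Fin m,
      cB (ctr c l 0 k.1 k.2) (l * q k.2 + w)) := by
    have hU : volume.real (⋃ k : {k // k ∈ A} × Fin m, cB (ctr c l 0 k.1 k.2) (l * q k.2 + w))
        ≤ (1 - p) * V := by
      refine (measureReal_iUnion_fintype_le _).trans ?_
      have h1 : ∀ k : {k // k ∈ A} × Fin m, volume.real (cB (ctr c l 0 k.1 k.2) (l * q k.2 + w))
          ≤ l ^ 3 * vb (q k.2 + γ / 2) := by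
        intro k
        have hq := hP.hq k.2
        rw [hLens.1 _ _ (by positivity), ← vb_mul]
        apply vb_mono (by positivity)
        rw [mul_add]
        linarith
      refine (Finset.sum_le_sum fun k _ => h1 k).trans ?_
      rw [hsumK (fun i => l ^ 3 * vb (q i + γ / 2)), ← Finset.mul_sum]
      have h2 : ∑ i, vb (q i + γ / 2) = 1 - p := by rw [hp]; ring
      rw [h2]
      have h3 : 0 ≤ 1 - p := by
        rw [← h2]
        apply Finset.sum_nonneg
        intro i _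
        have hq := hP.hq i
        unfold vb
        positivity
      nlinarith
    have h1 : V ≤ volume.real (Λ \ ⋃ k : {k // k ∈ A} × Fin m,
        cB (ctr c l 0 k.1 k.2) (l * q k.2 + w)) + volume.real (⋃ k : {k // k ∈ A} × Fin m,
        cB (ctr c l 0 k.1 k.2) (l * q k.2 + w)) := by
      refine le_trans ?_ (measureReal_union_le _ _)
      apply measureReal_mono
      · intro x hx
        by_cases h : x ∈ ⋃ k : {k // k ∈ A} × Fin m, cB (ctr c l 0 k.1 k.2) (l * q k.2 + w)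
        · exact Or.inr h
        · exact Or.inl ⟨hx, h⟩
      · apply ne_top_of_le_ne_top hΛfin
        apply measure_mono
        exact union_subset diff_subset (iUnion_subset hsubw)
    linarith
  -- the part outside the balls
  have hout : volume.real (Λ \ ⋃ k : {k // k ∈ A} × Fin m, cB (ctr c l 0 k.1 k.2) (l * q k.2))
      ≤ zn + ε * V := by
    have hsub0 : (⋃ k : {k // k ∈ A} × Fin m, cB (ctr c l 0 k.1 k.2) (l * q k.2)) ⊆ Λ := by
      apply iUnion_subset
      intro k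
      exact (Metric.closedBall_subset_closedBall (by linarith)).trans (hsubw k)
    have hUm : MeasurableSet (⋃ k : {k // k ∈ A} × Fin m, cB (ctr c l 0 k.1 k.2) (l * q k.2)) :=
      MeasurableSet.iUnion fun k => Metric.isClosed_closedBall.measurableSet
    have hU : volume.real (⋃ k : {k // k ∈ A} × Fin m, cB (ctr c l 0 k.1 k.2) (l * q k.2))
        = A.card * l ^ 3 * frac q := by
      have hd : Pairwise (Function.onFun Disjoint
          fun k : {k // k ∈ A} × Fin m => cB (ctr c l 0 k.1 k.2) (l * q k.2)) := by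
        intro k k' hkk
        apply Metric.closedBall_disjoint_closedBall
        rw [dist_eq_norm]
        have := hsep k k' hkk
        linarith
      rw [measureReal_iUnion_fintype hd (fun k => Metric.isClosed_closedBall.measurableSet)
        (fun k => Metric.isBounded_closedBall.measure_lt_top.ne)]
      have h1 : ∀ k : {k // k ∈ A} × Fin m, volume.real (cB (ctr c l 0 k.1 k.2) (l * q k.2))
          = l ^ 3 * vb (q k.2) := by
        intro k
        have hq := hP.hq k.2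
        rw [hLens.1 _ _ (by positivity), vb_mul]
      rw [Finset.sum_congr rfl fun k _ => h1 k, hsumK (fun i => l ^ 3 * vb (q i)),
        ← Finset.mul_sum]
      unfold frac
      ring
    have hd : volume.real (Λ \ ⋃ k : {k // k ∈ A} × Fin m, cB (ctr c l 0 k.1 k.2) (l * q k.2))
        = V - volume.real (⋃ k : {k // k ∈ A} × Fin m, cB (ctr c l 0 k.1 k.2) (l * q k.2)) := by
      have h := measureReal_sdiff_add_inter (μ := volume) (s := Λ) hUm hΛfin
      rw [inter_eq_self_of_subset_right hsub0] at h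
      linarith
    rw [hd, hU]
    have hA0 : (0 : ℝ) ≤ A.card * l ^ 3 := by positivity
    have h5 : (A.card * l ^ 3 : ℝ) * (1 - frac q) ≤ (A.card * l ^ 3) * ε :=
      mul_le_mul_of_nonneg_left (by linarith) hA0
    have h6 : (A.card * l ^ 3 : ℝ) * ε ≤ V * ε := mul_le_mul_of_nonneg_right hA1 hε.le
    nlinarith
  -- the squares of the radii
  have hsq : Cw * ∑ k : {k // k ∈ A} × Fin m, (l * q k.2) ^ 2 ≤ ε * V := by
    have h1 : ∑ k : {k // k ∈ A} × Fin m, (l * q k.2) ^ 2 = A.card * (l ^ 2 * s2) := by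
      rw [hsumK (fun i => (l * q i) ^ 2)]
      congr 1
      rw [hs2, Finset.mul_sum]
      exact Finset.sum_congr rfl fun i _ => by ring
    rw [h1]
    have h2 : Cw * (A.card * (l ^ 2 * s2)) = A.card * l ^ 2 * (Cw * s2) := by ring
    rw [h2]
    calc (A.card : ℝ) * l ^ 2 * (Cw * s2) ≤ A.card * l ^ 2 * (l * ε) :=
          mul_le_mul_of_nonneg_left hlε (by positivity)
      _ = ε * (A.card * l ^ 3) := by ring
      _ ≤ ε * V := mul_le_mul_of_nonneg_left hA1 hε.le
  have key := hLL Λ ({k // k ∈ A} × Fin m) (fun k => ctr c l 0 k.1 k.2) (fun k => l * q k.2)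
    (fun k => n k.2) N hΛ (fun k => hlr₀ k.2) (fun k => (hn k.2).1) hsep hsubw hrest hV hN
  refine le_trans ?_ key
  -- the product
  rw [hprodK (fun i => Z a β ρ (cB 0 (l * q i)) (n i))]
  have hZpos : 0 < ∏ i, Z a β ρ (cB 0 (l * q i)) (n i) :=
    Finset.prod_pos fun i _ => (hn i).2.1
  have hlog : (l ^ 3 * S - ε * l ^ 3) ≤ Real.log (∏ i, Z a β ρ (cB 0 (l * q i)) (n i)) := by
    rw [Real.log_prod (fun i _ => (hn i).2.1.ne')]
    have h1 : l ^ 3 * S = ∑ i, Real.log (Xi a β ρ (cB 0 (l * q i))) := by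
      rw [hS]
      unfold Sl
      rw [← mul_assoc, mul_inv_cancel₀ (by positivity), one_mul]
    rw [h1]
    have h2 : ∑ i, Real.log (Xi a β ρ (cB 0 (l * q i))) ≤
        ∑ i, (Real.log (Z a β ρ (cB 0 (l * q i)) (n i)) + ε * (l * q i) ^ 3) :=
      Finset.sum_le_sum fun i _ => (hn i).2.2
    rw [Finset.sum_add_distrib] at h2
    have h3 : ∑ i, ε * (l * q i) ^ 3 = ε * l ^ 3 * ∑ i, q i ^ 3 := by
      rw [Finset.mul_sum]
      exact Finset.sum_congr rfl fun i _ => by ring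
    rw [h3] at h2
    have h4 : ε * l ^ 3 * ∑ i, q i ^ 3 ≤ ε * l ^ 3 * 1 :=
      mul_le_mul_of_nonneg_left hs3 (by positivity)
    linarith
  rw [← Real.exp_log (pow_pos hZpos A.card), ← Real.exp_add, Real.log_pow]
  apply Real.exp_le_exp.2
  have hA0 : (0 : ℝ) ≤ A.card := Nat.cast_nonneg _
  have h1 : (A.card : ℝ) * (l ^ 3 * S - ε * l ^ 3) ≤
      A.card * Real.log (∏ i, Z a β ρ (cB 0 (l * q i)) (n i)) :=
    mul_le_mul_of_nonneg_left hlog hA0
  have h2 : S * V - |S| * zn ≤ S * (A.card * l ^ 3) := by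
    have h3 : S * (V - A.card * l ^ 3) ≤ |S| * zn := by
      have h4 : 0 ≤ V - A.card * l ^ 3 := by linarith
      calc S * (V - A.card * l ^ 3) ≤ |S| * (V - A.card * l ^ 3) :=
            mul_le_mul_of_nonneg_right (le_abs_self S) h4
        _ ≤ |S| * zn := mul_le_mul_of_nonneg_left (by linarith) (abs_nonneg S)
    linarith
  have h5 : ε * (A.card * l ^ 3) ≤ ε * V := mul_le_mul_of_nonneg_left hA1 hε.le
  have h6 : CT * volume.real (Λ \ ⋃ k : {k // k ∈ A} × Fin m,
      cB (ctr c l 0 k.1 k.2) (l * q k.2)) ≤ CT * (zn + ε * V) :=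
    mul_le_mul_of_nonneg_left hout hCT.le
  nlinarith

end Pool.Agent.JEL
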