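import Pool.Agent.JEL.Stmts

/-!
# LowB: lower bound by balls surrounded by compensating shells
-/

open MeasureTheory Set Filter Topology

namespace Pool.Agent.JEL

namespace LowB_

/-! ### generalities -/

theorem adm_of {F : E → ℝ} {b : ℝ} {S : Set E} (hm : Measurable F) (hb : ∀ x, |F x| ≤ b)
    (hS : Bornology.IsBounded S) (h0 : ∀ x, x ∉ S → F x = 0) : Adm F := by
  obtain ⟨R, hR⟩ := hS.subset_closedBall (0 : E)
  refine ⟨hm, ⟨b, hb⟩, ⟨R, fun x hx => h0 x fun hxS => ?_⟩⟩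
  have := hR hxS
  rw [Metric.mem_closedBall, dist_zero_right] at this
  linarith

theorem vol_lt_top {S : Set E} (hS : Bornology.IsBounded S) : volume S < ⊤ :=
  hS.measure_lt_top

theorem integrable_of {F : E → ℝ} {b : ℝ} {S : Set E} (hm : Measurable F)
    (hb : ∀ x, |F x| ≤ b) (hSm : MeasurableSet S) (hS : volume S < ⊤)
    (h0 : ∀ x, x ∉ S → F x = 0) : Integrable F := by
  have h1 : IntegrableOn F S := by
    refine Measure.integrableOn_of_bounded (M := b) hS.ne hm.aestronglyMeasurable ?_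
    exact Eventually.of_forall (fun x => by rw [Real.norm_eq_abs]; exact hb x)
  have h2 : F = S.indicator F := by
    funext x
    by_cases hx : x ∈ S
    · rw [indicator_of_mem hx]
    · rw [indicator_of_notMem hx, h0 x hx]
  rw [h2]
  exact (integrable_indicator_iff hSm).2 h1

theorem integral_le_of {G : E → ℝ} {b : ℝ} {S : Set E} (hG : Integrable G)
    (hb : ∀ x, G x ≤ b) (hSm : MeasurableSet S) (hS : volume S < ⊤)
    (h0 : ∀ x, x ∉ S → G x = 0) : ∫ x, G x ≤ b * volume.real S := by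
  have h2 : ∀ x, G x ≤ S.indicator (fun _ => b) x := by
    intro x
    by_cases hx : x ∈ S
    · rw [indicator_of_mem hx]; exact hb x
    · rw [indicator_of_notMem hx, h0 x hx]
  calc ∫ x, G x ≤ ∫ x, S.indicator (fun _ => b) x := by
        refine integral_mono hG ?_ h2
        exact (integrable_indicator_iff hSm).2 (integrableOn_const hS.ne)
    _ = b * volume.real S := by
        rw [integral_indicator hSm, setIntegral_const, smul_eq_mul, mul_comm]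

theorem vol_ball (hLens : Stmt_Lens) (z : E) {r : ℝ} (hr : 0 ≤ r) :
    volume.real (Metric.ball z r) = vb r := by
  rw [← hLens.1 z r hr, Measure.real, Measure.real,
    Measure.addHaar_closedBall_eq_addHaar_ball]

theorem vol_annulus (hLens : Stmt_Lens) (z : E) {s t : ℝ} (hs : 0 ≤ s) (hst : s ≤ t) :
    volume.real (Metric.ball z t \ cB z s) = vb t - vb s := by
  rcases eq_or_lt_of_le hst with h | h
  · subst h
    rw [sub_self]
    have : Metric.ball z s \ cB z s = ∅ := by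
      rw [sdiff_eq_empty]; exact Metric.ball_subset_closedBall
    rw [this]; simp
  · rw [measureReal_sdiff (Metric.closedBall_subset_ball h) Metric.isClosed_closedBall.measurableSet
      , vol_ball hLens z (hs.trans hst), hLens.1 z s hs]

/-! ### configurations -/

structure Cfg (ρ ρ₁ K₀ a w : ℝ) (Λ : Set E) {K : Type} [Fintype K] [DecidableEq K]
    (z : K → E) (r κk Q : K → ℝ) : Prop where
  ha : 0 < a
  haw : a < w
  hρ : 0 < ρ
  hρ₁ : ρ ≤ ρ₁
  hK₀ : 0 < K₀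
  hΛ : BM Λ
  hr : ∀ k, 2 ≤ r k
  hQ : ∀ k, |Q k| ≤ K₀ * r k ^ 2
  hsep : ∀ k k', k ≠ k' → r k + r k' + 2 * w ≤ ‖z k - z k'‖
  hin : ∀ k, cB (z k) (r k + w) ⊆ Λ
  hκ0 : ∀ k, 0 ≤ κk k
  hκ1 : ∀ k, κk k ≤ ρ₁
  hneu : ∀ k, Q k - ρ * (vb (r k + w) - vb (r k)) + κk k * (vb (r k + w) - vb (r k + a)) = 0

/-- annulus carrying the density of the shell -/
def ann (a w : ℝ) (z : E) (r : ℝ) : Set E := Metric.ball z (r + w) \ cB z (r + a)

/-- particle density -/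
noncomputable def kap (ρ a w : ℝ) (Λ : Set E) {K : Type} [Fintype K]
    (z : K → E) (r κk : K → ℝ) (x : E) : ℝ :=
  ρ * (Λ \ ⋃ k, Metric.ball (z k) (r k + w)).indicator (1 : E → ℝ) x
    + ∑ k, κk k * (ann a w (z k) (r k)).indicator (1 : E → ℝ) x

/-- charge density after insertion of the balls -/
noncomputable def Fp (ρ : ℝ) (Λ : Set E) {K : Type} [Fintype K]
    (z : K → E) (r Q : K → ℝ) (x : E) : ℝ :=
  bg ρ Λ x + ∑ k, (ρ * (cB (z k) (r k)).indicator (1 : E → ℝ) x + Q k * sh (z k) (r k) x)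

variable {ρ ρ₁ K₀ a w : ℝ} {Λ : Set E} {K : Type} [Fintype K] [DecidableEq K]
    {z : K → E} {r κk Q : K → ℝ}

theorem Cfg.disj (h : Cfg ρ ρ₁ K₀ a w Λ z r κk Q) {k k' : K} (hk : k ≠ k') (x : E)
    (hx : ‖x - z k‖ ≤ r k + w) : r k' + w ≤ ‖x - z k'‖ := by
  have h1 := h.hsep k k' hk
  have h2 : ‖z k - z k'‖ ≤ ‖x - z k‖ + ‖x - z k'‖ := by
    have : z k - z k' = -(x - z k) + (x - z k') := by abel
    rw [this]
    refine (norm_add_le _ _).trans ?_
    rw [norm_neg]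
  linarith

theorem Cfg.hw (h : Cfg ρ ρ₁ K₀ a w Λ z r κk Q) : 0 < w := h.ha.trans h.haw

theorem Cfg.disj_ball (h : Cfg ρ ρ₁ K₀ a w Λ z r κk Q) {k k' : K} (hk : k ≠ k') :
    Disjoint (Metric.ball (z k) (r k + w)) (Metric.ball (z k') (r k' + w)) := by
  rw [Set.disjoint_left]
  intro x hx hx'
  rw [mem_ball_iff_norm] at hx hx'
  exact absurd (h.disj hk x hx.le) (not_le.2 hx')

theorem Cfg.ball_sub (h : Cfg ρ ρ₁ K₀ a w Λ z r κk Q) (k : K) :
    Metric.ball (z k) (r k + w) ⊆ Λ :=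
  Metric.ball_subset_closedBall.trans (h.hin k)

omit [DecidableEq K] in
/-- a sum with at most one nonzero term -/
theorem sum_single_or (f : K → ℝ) (P : K → Prop) (hP : ∀ k, ¬ P k → f k = 0)
    (hu : ∀ k k', P k → P k' → k = k') : (∑ k, f k = 0) ∨ ∃ k, P k ∧ ∑ k, f k = f k := by
  classical
  by_cases h : ∃ k, P k
  · obtain ⟨k, hk⟩ := h
    right
    refine ⟨k, hk, Finset.sum_eq_single k ?_ ?_⟩
    · intro b _ hb
      apply hP
      intro hPb
      exact hb (hu b k hPb hk)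
    · intro h; exact absurd (Finset.mem_univ k) h
  · left
    push Not at h
    exact Finset.sum_eq_zero fun k _ => hP k (h k)

theorem Cfg.uniq (h : Cfg ρ ρ₁ K₀ a w Λ z r κk Q) (x : E) (k k' : K)
    (hk : x ∈ Metric.ball (z k) (r k + w)) (hk' : x ∈ Metric.ball (z k') (r k' + w)) :
    k = k' := by
  by_contra hne
  exact Set.disjoint_left.1 (h.disj_ball hne) hk hk'

theorem ann_sub (z : E) (r : ℝ) : ann a w z r ⊆ Metric.ball z (r + w) := sdiff_subset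

theorem measurable_ann (z : E) (r : ℝ) : MeasurableSet (ann a w z r) :=
  Metric.isOpen_ball.measurableSet.diff Metric.isClosed_closedBall.measurableSet

theorem Cfg.measU (_h : Cfg ρ ρ₁ K₀ a w Λ z r κk Q) :
    MeasurableSet (⋃ k, Metric.ball (z k) (r k + w)) :=
  MeasurableSet.iUnion fun _ => Metric.isOpen_ball.measurableSet

theorem Cfg.meas_kap (h : Cfg ρ ρ₁ K₀ a w Λ z r κk Q) : Measurable (kap ρ a w Λ z r κk) := by
  unfold kap
  refine Measurable.add ?_ ?_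
  · refine Measurable.const_mul ?_ _
    exact measurable_one.indicator (h.hΛ.1.diff h.measU)
  · refine Finset.measurable_sum _ fun k _ => ?_
    refine Measurable.const_mul ?_ _
    exact measurable_one.indicator (measurable_ann _ _)

/-- values of `kap` -/
theorem Cfg.kap_cases (h : Cfg ρ ρ₁ K₀ a w Λ z r κk Q) (x : E) :
    (x ∉ ⋃ k, Metric.ball (z k) (r k + w)) ∧
        kap ρ a w Λ z r κk x = ρ * Λ.indicator (1 : E → ℝ) x ∨
      ∃ k, x ∈ Metric.ball (z k) (r k + w) ∧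
        kap ρ a w Λ z r κk x = κk k * (ann a w (z k) (r k)).indicator (1 : E → ℝ) x := by
  by_cases hx : x ∈ ⋃ k, Metric.ball (z k) (r k + w)
  · right
    obtain ⟨k, hk⟩ := mem_iUnion.1 hx
    refine ⟨k, hk, ?_⟩
    unfold kap
    rw [indicator_of_notMem (fun h' => h'.2 hx), mul_zero, zero_add]
    refine Finset.sum_eq_single k ?_ ?_
    · intro b _ hb
      rw [indicator_of_notMem, mul_zero]
      intro hx'
      exact hb (h.uniq x b k (ann_sub _ _ hx') hk)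
    · intro h; exact absurd (Finset.mem_univ k) h
  · left
    refine ⟨hx, ?_⟩
    unfold kap
    have h1 : ∀ k, x ∉ ann a w (z k) (r k) := fun k hk =>
      hx (mem_iUnion.2 ⟨k, ann_sub _ _ hk⟩)
    rw [Finset.sum_eq_zero (fun k _ => by rw [indicator_of_notMem (h1 k), mul_zero]), add_zero]
    congr 1
    by_cases hΛ : x ∈ Λ
    · rw [indicator_of_mem (show x ∈ Λ \ ⋃ k, Metric.ball (z k) (r k + w) from ⟨hΛ, hx⟩),
        indicator_of_mem hΛ]
    · rw [indicator_of_notMem (fun h' => hΛ h'.1), indicator_of_notMem hΛ]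

theorem ind_mem (S : Set E) (x : E) : 0 ≤ S.indicator (1 : E → ℝ) x ∧
    S.indicator (1 : E → ℝ) x ≤ 1 := by
  by_cases hx : x ∈ S
  · rw [indicator_of_mem hx]; simp
  · rw [indicator_of_notMem hx]; simp

theorem Cfg.kap_bd (h : Cfg ρ ρ₁ K₀ a w Λ z r κk Q) (x : E) :
    0 ≤ kap ρ a w Λ z r κk x ∧ kap ρ a w Λ z r κk x ≤ ρ₁ := by
  have hρ₁ : 0 < ρ₁ := h.hρ.trans_le h.hρ₁
  rcases h.kap_cases x with ⟨_, h1⟩ | ⟨k, _, h1⟩
  · rw [h1]
    obtain ⟨h2, h3⟩ := ind_mem Λ x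
    have := h.hρ; have := h.hρ₁
    constructor <;> nlinarith
  · rw [h1]
    obtain ⟨h2, h3⟩ := ind_mem (ann a w (z k) (r k)) x
    have := h.hκ0 k; have := h.hκ1 k
    constructor <;> nlinarith

theorem Cfg.kap_zero (h : Cfg ρ ρ₁ K₀ a w Λ z r κk Q) (x : E)
    (hx : x ∉ Λ \ ⋃ k, cB (z k) (r k + a)) : kap ρ a w Λ z r κk x = 0 := by
  rcases h.kap_cases x with ⟨h0, h1⟩ | ⟨k, hk, h1⟩
  · rw [h1]
    by_cases hΛ : x ∈ Λ
    · exfalso
      apply hx
      refine ⟨hΛ, fun h' => h0 ?_⟩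
      obtain ⟨k, hk⟩ := mem_iUnion.1 h'
      refine mem_iUnion.2 ⟨k, ?_⟩
      have haw := h.haw
      exact Metric.closedBall_subset_ball (by linarith) hk
    · rw [indicator_of_notMem hΛ, mul_zero]
  · rw [h1, indicator_of_notMem, mul_zero]
    intro h'
    apply hx
    refine ⟨h.ball_sub k hk, fun h'' => ?_⟩
    obtain ⟨k', hk'⟩ := mem_iUnion.1 h''
    have haw := h.haw
    have h3 : x ∈ Metric.ball (z k') (r k' + w) :=
      Metric.closedBall_subset_ball (by linarith) hk'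
    have h4 := h.uniq x k k' hk h3
    subst h4
    exact h'.2 hk'

theorem Cfg.kap_zero' (h : Cfg ρ ρ₁ K₀ a w Λ z r κk Q) (x : E)
    (hx : x ∉ Λ) : kap ρ a w Λ z r κk x = 0 :=
  h.kap_zero x fun h' => hx h'.1

/-! ### the charge density -/

theorem Cfg.meas_sh (hSh : Stmt_Sh) (h : Cfg ρ ρ₁ K₀ a w Λ z r κk Q) (k : K) :
    Measurable (sh (z k) (r k)) := (hSh (z k) (r k) (h.hr k)).1.meas

theorem Cfg.meas_Fp (hSh : Stmt_Sh) (h : Cfg ρ ρ₁ K₀ a w Λ z r κk Q) :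
    Measurable (Fp ρ Λ z r Q) := by
  unfold Fp
  refine Measurable.add ?_ ?_
  · unfold bg
    exact measurable_const.indicator h.hΛ.1
  · refine Finset.measurable_sum _ fun k _ => ?_
    refine Measurable.add ?_ ?_
    · refine Measurable.const_mul ?_ _
      exact measurable_one.indicator Metric.isClosed_closedBall.measurableSet
    · exact (h.meas_sh hSh k).const_mul _

theorem Cfg.Fp_cases (hSh : Stmt_Sh) (h : Cfg ρ ρ₁ K₀ a w Λ z r κk Q) (x : E) :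
    (Fp ρ Λ z r Q x = bg ρ Λ x) ∨
    ∃ k, x ∈ cB (z k) (r k) ∧ Fp ρ Λ z r Q x = Q k * sh (z k) (r k) x := by
  have hw := h.hw
  by_cases hx : ∃ k, x ∈ cB (z k) (r k)
  · obtain ⟨k, hk⟩ := hx
    right
    refine ⟨k, hk, ?_⟩
    have hkb : x ∈ Metric.ball (z k) (r k + w) :=
      Metric.closedBall_subset_ball (by linarith) hk
    unfold Fp bg
    rw [indicator_of_mem (h.ball_sub k hkb)]
    rw [Finset.sum_eq_single k]
    · rw [indicator_of_mem hk, Pi.one_apply]; ring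
    · intro b _ hb
      have h1 : x ∉ cB (z b) (r b) := by
        intro h'
        exact hb (h.uniq x b k (Metric.closedBall_subset_ball (by linarith) h') hkb)
      rw [indicator_of_notMem h1, (hSh (z b) (r b) (h.hr b)).2.1 x, mul_zero, mul_zero, add_zero]
      rw [mem_closedBall_iff_norm, not_le] at h1
      exact h1
    · intro h; exact absurd (Finset.mem_univ k) h
  · left
    push Not at hx
    unfold Fp
    rw [Finset.sum_eq_zero, add_zero]
    intro k _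
    have h1 := hx k
    rw [indicator_of_notMem h1, (hSh (z k) (r k) (h.hr k)).2.1 x, mul_zero, mul_zero, add_zero]
    rw [mem_closedBall_iff_norm, not_le] at h1
    exact h1

theorem Cfg.Fp_bd (hSh : Stmt_Sh) (h : Cfg ρ ρ₁ K₀ a w Λ z r κk Q) (x : E) :
    |Fp ρ Λ z r Q x| ≤ ρ + K₀ := by
  have hρ := h.hρ
  have hK := h.hK₀
  rcases h.Fp_cases hSh x with h1 | ⟨k, _, h1⟩
  · rw [h1]
    unfold bg
    by_cases hx : x ∈ Λ
    · rw [indicator_of_mem hx, abs_neg, abs_of_pos hρ]; linarith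
    · rw [indicator_of_notMem hx, abs_zero]; linarith
  · rw [h1, abs_mul]
    obtain ⟨h2, h3⟩ := (hSh (z k) (r k) (h.hr k)).2.2.1 x
    have hr := h.hr k
    have h4 : 0 < r k ^ 2 := by positivity
    rw [abs_of_nonneg h2]
    calc |Q k| * sh (z k) (r k) x ≤ (K₀ * r k ^ 2) * (r k ^ 2)⁻¹ :=
          mul_le_mul (h.hQ k) h3 h2 (by positivity)
      _ = K₀ := by field_simp
      _ ≤ ρ + K₀ := by linarith

theorem Cfg.Fp_zero (hSh : Stmt_Sh) (h : Cfg ρ ρ₁ K₀ a w Λ z r κk Q) (x : E) (hx : x ∉ Λ) :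
    Fp ρ Λ z r Q x = 0 := by
  rcases h.Fp_cases hSh x with h1 | ⟨k, hk, _⟩
  · rw [h1]
    unfold bg
    rw [indicator_of_notMem hx]
  · exfalso
    have hw := h.hw
    exact hx (h.ball_sub k (Metric.closedBall_subset_ball (by linarith) hk))

theorem Cfg.adm_Fp (hSh : Stmt_Sh) (h : Cfg ρ ρ₁ K₀ a w Λ z r κk Q) : Adm (Fp ρ Λ z r Q) :=
  adm_of (h.meas_Fp hSh) (h.Fp_bd hSh) h.hΛ.2 (h.Fp_zero hSh)

theorem Cfg.adm_kap (h : Cfg ρ ρ₁ K₀ a w Λ z r κk Q) : Adm (kap ρ a w Λ z r κk) :=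
  adm_of h.meas_kap (b := ρ₁) (fun x => by
    rw [abs_of_nonneg (h.kap_bd x).1]; exact (h.kap_bd x).2) h.hΛ.2 h.kap_zero'

/-! ### total density -/

/-- total charge density -/
noncomputable def nu (ρ a w : ℝ) (Λ : Set E) {K : Type} [Fintype K]
    (z : K → E) (r κk Q : K → ℝ) (x : E) : ℝ := kap ρ a w Λ z r κk x + Fp ρ Λ z r Q x

theorem Cfg.meas_nu (hSh : Stmt_Sh) (h : Cfg ρ ρ₁ K₀ a w Λ z r κk Q) :
    Measurable (nu ρ a w Λ z r κk Q) := h.meas_kap.add (h.meas_Fp hSh)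

theorem Cfg.adm_nu (hSh : Stmt_Sh) (h : Cfg ρ ρ₁ K₀ a w Λ z r κk Q) :
    Adm (nu ρ a w Λ z r κk Q) := by
  refine adm_of (h.meas_nu hSh) (b := ρ₁ + (ρ + K₀)) (fun x => ?_) h.hΛ.2 (fun x hx => ?_)
  · unfold nu
    refine (abs_add_le _ _).trans (add_le_add ?_ (h.Fp_bd hSh x))
    rw [abs_of_nonneg (h.kap_bd x).1]; exact (h.kap_bd x).2
  · unfold nu
    rw [h.kap_zero' x hx, h.Fp_zero hSh x hx, add_zero]

theorem ind_iff {S : Set E} {x : E} {P : Prop} [Decidable P] (h : x ∈ S ↔ P) :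
    S.indicator (1 : E → ℝ) x = if P then (1:ℝ) else 0 := by
  by_cases hP : P
  · rw [indicator_of_mem (h.2 hP), if_pos hP, Pi.one_apply]
  · rw [indicator_of_notMem (fun h' => hP (h.1 h')), if_neg hP]

theorem Cfg.nu_eq (h : Cfg ρ ρ₁ K₀ a w Λ z r κk Q) (x : E)
    (hx : ∀ k, ‖x - z k‖ ≠ r k + w) :
    nu ρ a w Λ z r κk Q x = ∑ k, nuk ρ (κk k) (Q k) (z k) (r k) a w x := by
  have h1 : (Λ \ ⋃ k, Metric.ball (z k) (r k + w)).indicator (1 : E → ℝ) x
      = Λ.indicator (1 : E → ℝ) x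
        - ∑ k, (Metric.ball (z k) (r k + w)).indicator (1 : E → ℝ) x := by
    by_cases hU : x ∈ ⋃ k, Metric.ball (z k) (r k + w)
    · obtain ⟨k, hk⟩ := mem_iUnion.1 hU
      rw [indicator_of_notMem (fun h' => h'.2 hU), indicator_of_mem (h.ball_sub k hk),
        Finset.sum_eq_single k, indicator_of_mem hk, sub_self]
      · intro b _ hb
        rw [indicator_of_notMem]
        intro hx'
        exact hb (h.uniq x b k hx' hk)
      · intro h; exact absurd (Finset.mem_univ k) h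
    · have h2 : ∀ k, x ∉ Metric.ball (z k) (r k + w) := fun k hk =>
        hU (mem_iUnion.2 ⟨k, hk⟩)
      rw [Finset.sum_eq_zero (fun k _ => indicator_of_notMem (h2 k) _), sub_zero]
      by_cases hΛ : x ∈ Λ
      · rw [indicator_of_mem (show x ∈ Λ \ ⋃ k, Metric.ball (z k) (r k + w) from ⟨hΛ, hU⟩),
          indicator_of_mem hΛ]
      · rw [indicator_of_notMem (fun h' => hΛ h'.1), indicator_of_notMem hΛ]
  have h2 : bg ρ Λ x = -ρ * Λ.indicator (1 : E → ℝ) x := by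
    unfold bg
    by_cases hΛ : x ∈ Λ
    · rw [indicator_of_mem hΛ, indicator_of_mem hΛ, Pi.one_apply, mul_one]
    · rw [indicator_of_notMem hΛ, indicator_of_notMem hΛ, mul_zero]
  have h3 : ∀ k, nuk ρ (κk k) (Q k) (z k) (r k) a w x
      = κk k * (ann a w (z k) (r k)).indicator (1 : E → ℝ) x
        + (ρ * (cB (z k) (r k)).indicator (1 : E → ℝ) x + Q k * sh (z k) (r k) x)
        - ρ * (Metric.ball (z k) (r k + w)).indicator (1 : E → ℝ) x := by
    intro k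
    have hxk := hx k
    have hw := h.hw
    have haw := h.haw
    have ha := h.ha
    unfold nuk ann
    have e1 : (x ∈ {x : E | r k < ‖x - z k‖ ∧ ‖x - z k‖ ≤ r k + w}) ↔
        (r k < ‖x - z k‖ ∧ ‖x - z k‖ ≤ r k + w) := Iff.rfl
    have e2 : (x ∈ {x : E | r k + a < ‖x - z k‖ ∧ ‖x - z k‖ ≤ r k + w}) ↔
        (r k + a < ‖x - z k‖ ∧ ‖x - z k‖ ≤ r k + w) := Iff.rfl
    have e3 : (x ∈ Metric.ball (z k) (r k + w) \ cB (z k) (r k + a)) ↔
        (r k + a < ‖x - z k‖ ∧ ‖x - z k‖ ≤ r k + w) := by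
      rw [Set.mem_sdiff, mem_ball_iff_norm, mem_closedBall_iff_norm, not_le]
      constructor
      · rintro ⟨h1, h2⟩; exact ⟨h2, h1.le⟩
      · rintro ⟨h1, h2⟩; exact ⟨lt_of_le_of_ne h2 hxk, h1⟩
    have e4 : (x ∈ Metric.ball (z k) (r k + w)) ↔ ‖x - z k‖ ≤ r k + w := by
      rw [mem_ball_iff_norm]
      exact ⟨fun h => h.le, fun h => lt_of_le_of_ne h hxk⟩
    have e5 : (x ∈ cB (z k) (r k)) ↔ ‖x - z k‖ ≤ r k := mem_closedBall_iff_norm
    rw [ind_iff e1, ind_iff e2, ind_iff e3, ind_iff e4, ind_iff e5]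
    have key : (if r k < ‖x - z k‖ ∧ ‖x - z k‖ ≤ r k + w then (1:ℝ) else 0)
        = (if ‖x - z k‖ ≤ r k + w then (1:ℝ) else 0) - (if ‖x - z k‖ ≤ r k then (1:ℝ) else 0) := by
      by_cases c1 : ‖x - z k‖ ≤ r k
      · have c2 : ‖x - z k‖ ≤ r k + w := by linarith
        simp [c1, c2]
      · by_cases c2 : ‖x - z k‖ ≤ r k + w
        · simp [c1, c2, not_le.1 c1]
        · simp [c1, c2]
    rw [key]; ring
  unfold nu kap Fp
  rw [h1, h2, Finset.sum_congr rfl (fun k _ => h3 k)]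
  simp only [mul_sub, Finset.mul_sum, Finset.sum_add_distrib, Finset.sum_sub_distrib]
  ring

theorem Cfg.nu_ae (h : Cfg ρ ρ₁ K₀ a w Λ z r κk Q) :
    nu ρ a w Λ z r κk Q =ᵐ[volume] fun x => ∑ k, nuk ρ (κk k) (Q k) (z k) (r k) a w x := by
  have h1 : ∀ k, ∀ᵐ x : E, ‖x - z k‖ ≠ r k + w := by
    intro k
    have h2 : volume (Metric.sphere (z k) (r k + w)) = 0 := Measure.addHaar_sphere _ _ _
    have h3 : ∀ᵐ x : E, x ∉ Metric.sphere (z k) (r k + w) := measure_eq_zero_iff_ae_notMem.1 h2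
    filter_upwards [h3] with x hx
    rwa [mem_sphere_iff_norm] at hx
  filter_upwards [ae_all_iff.2 h1] with x hx
  exact h.nu_eq x hx

/-! ### energies -/

/-- what `Rad` gives for each ball -/
def RadK (ρ a w C : ℝ) {K : Type} (z : K → E) (r κk Q : K → ℝ) : Prop := ∀ k : K,
  Adm (nuk ρ (κk k) (Q k) (z k) (r k) a w) ∧
  (∀ x, r k + w < ‖x - z k‖ → nuk ρ (κk k) (Q k) (z k) (r k) a w x = 0) ∧
  (∀ x, r k + w ≤ ‖x - z k‖ → pot (nuk ρ (κk k) (Q k) (z k) (r k) a w) x = 0) ∧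
  (∀ x, |pot (nuk ρ (κk k) (Q k) (z k) (r k) a w) x| ≤ C) ∧
  Dfm (nuk ρ (κk k) (Q k) (z k) (r k) a w) (nuk ρ (κk k) (Q k) (z k) (r k) a w) ≤ C * r k ^ 2

theorem Cfg.pot_nu (hPot : Stmt_Pot) (h : Cfg ρ ρ₁ K₀ a w Λ z r κk Q) {C : ℝ}
    (hR : RadK ρ a w C z r κk Q) (x : E) :
    pot (nu ρ a w Λ z r κk Q) x = ∑ k, pot (nuk ρ (κk k) (Q k) (z k) (r k) a w) x := by
  unfold pot
  rw [← integral_finsetSum _ (fun k _ => hPot.2.1 _ (hR k).1 x)]
  refine integral_congr_ae ?_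
  filter_upwards [h.nu_ae] with y hy
  rw [hy, Finset.sum_mul]

theorem Cfg.pot_nu_bd (hPot : Stmt_Pot) (h : Cfg ρ ρ₁ K₀ a w Λ z r κk Q) {C : ℝ} (hC : 0 ≤ C)
    (hR : RadK ρ a w C z r κk Q) (x : E) : |pot (nu ρ a w Λ z r κk Q) x| ≤ C := by
  rw [h.pot_nu hPot hR x]
  have h0 : ∀ k, ¬ (x ∈ Metric.ball (z k) (r k + w)) →
      pot (nuk ρ (κk k) (Q k) (z k) (r k) a w) x = 0 := by
    intro k hk
    refine (hR k).2.2.1 x ?_
    rw [mem_ball_iff_norm, not_lt] at hk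
    exact hk
  rcases sum_single_or (fun k => pot (nuk ρ (κk k) (Q k) (z k) (r k) a w) x)
    (fun k => x ∈ Metric.ball (z k) (r k + w)) h0
    (fun k k' hk hk' => h.uniq x k k' hk hk') with h1 | ⟨k, _, h1⟩
  · rw [h1, abs_zero]; exact hC
  · rw [h1]; exact (hR k).2.2.2.1 x

theorem adm_integrable {F : E → ℝ} (hF : Adm F) : Integrable F := by
  obtain ⟨b, hb⟩ := hF.bdd
  obtain ⟨R, hR⟩ := hF.supp
  refine integrable_of hF.meas hb (S := cB 0 R) Metric.isClosed_closedBall.measurableSet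
    (vol_lt_top Metric.isBounded_closedBall) (fun x hx => hR x ?_)
  rw [mem_closedBall_iff_norm, sub_zero, not_le] at hx
  exact hx

theorem Cfg.dfm_nu (hPot : Stmt_Pot) (h : Cfg ρ ρ₁ K₀ a w Λ z r κk Q) {C : ℝ}
    (hR : RadK ρ a w C z r κk Q) :
    Dfm (nu ρ a w Λ z r κk Q) (nu ρ a w Λ z r κk Q) ≤ C * ∑ k, r k ^ 2 := by
  have hint : ∀ k, Integrable (fun x => nuk ρ (κk k) (Q k) (z k) (r k) a w x *
      pot (nuk ρ (κk k) (Q k) (z k) (r k) a w) x) := by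
    intro k
    have h1 := adm_integrable (hR k).1
    have h2 := hPot.1 _ (hR k).1
    refine h1.mul_bdd (c := C) h2.aestronglyMeasurable (Eventually.of_forall fun x => ?_)
    rw [Real.norm_eq_abs]; exact (hR k).2.2.2.1 x
  have h1 : Dfm (nu ρ a w Λ z r κk Q) (nu ρ a w Λ z r κk Q)
      = ∑ k, Dfm (nuk ρ (κk k) (Q k) (z k) (r k) a w) (nuk ρ (κk k) (Q k) (z k) (r k) a w) := by
    unfold Dfm
    rw [← integral_finsetSum _ (fun k _ => hint k)]
    refine integral_congr_ae ?_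
    filter_upwards [h.nu_ae] with x hx
    rw [hx, h.pot_nu hPot hR x, Finset.sum_mul]
    refine Finset.sum_congr rfl fun k _ => ?_
    rw [Finset.mul_sum]
    refine Finset.sum_eq_single k ?_ ?_
    · intro b _ hb
      by_cases hk : ‖x - z k‖ ≤ r k + w
      · rw [(hR b).2.2.1 x (h.disj (Ne.symm hb) x hk), mul_zero]
      · rw [(hR k).2.1 x (not_le.1 hk), zero_mul]
    · intro h; exact absurd (Finset.mem_univ k) h
  rw [h1, Finset.mul_sum]
  exact Finset.sum_le_sum fun k _ => (hR k).2.2.2.2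

theorem Cfg.dfm_nu_F (hPot : Stmt_Pot) (hSh : Stmt_Sh) (h : Cfg ρ ρ₁ K₀ a w Λ z r κk Q) {C : ℝ}
    (hC : 0 ≤ C) (hR : RadK ρ a w C z r κk Q) :
    Dfm (nu ρ a w Λ z r κk Q) (Fp ρ Λ z r Q) ≤ (ρ + K₀) * C * volume.real Λ := by
  rw [hPot.2.2.2.2.1 _ _ (h.adm_nu hSh) (h.adm_Fp hSh)]
  unfold Dfm
  have hm : Measurable (pot (nu ρ a w Λ z r κk Q)) := hPot.1 _ (h.adm_nu hSh)
  refine integral_le_of ?_ (fun x => ?_) h.hΛ.1 (vol_lt_top h.hΛ.2) (fun x hx => ?_)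
  · refine (adm_integrable (h.adm_Fp hSh)).mul_bdd (c := C) hm.aestronglyMeasurable
      (Eventually.of_forall fun x => ?_)
    rw [Real.norm_eq_abs]; exact h.pot_nu_bd hPot hC hR x
  · refine (le_abs_self _).trans ?_
    rw [abs_mul]
    have hρ := h.hρ
    have hK := h.hK₀
    exact mul_le_mul (h.Fp_bd hSh x) (h.pot_nu_bd hPot hC hR x) (abs_nonneg _) (by linarith)
  · rw [h.Fp_zero hSh x hx, zero_mul]

theorem Cfg.l1_F (hSh : Stmt_Sh) (h : Cfg ρ ρ₁ K₀ a w Λ z r κk Q) :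
    ∫ x, |Fp ρ Λ z r Q x| ≤ (ρ + K₀) * volume.real Λ := by
  refine integral_le_of (adm_integrable (h.adm_Fp hSh)).abs (h.Fp_bd hSh) h.hΛ.1
    (vol_lt_top h.hΛ.2) (fun x hx => ?_)
  rw [h.Fp_zero hSh x hx, abs_zero]

/-! ### mass -/

theorem Cfg.mass (hLens : Stmt_Lens) (h : Cfg ρ ρ₁ K₀ a w Λ z r κk Q) :
    ∫ x, kap ρ a w Λ z r κk x = ρ * volume.real Λ - ∑ k, (ρ * vb (r k) + Q k) := by
  have hw := h.hw
  have haw := h.haw
  have ha := h.ha
  have hΛf := vol_lt_top h.hΛ.2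
  have hm1 : MeasurableSet (Λ \ ⋃ k, Metric.ball (z k) (r k + w)) := h.hΛ.1.diff h.measU
  have hf1 : volume (Λ \ ⋃ k, Metric.ball (z k) (r k + w)) ≠ ⊤ :=
    ((measure_mono sdiff_subset).trans_lt hΛf).ne
  have hf2 : ∀ k, volume (ann a w (z k) (r k)) ≠ ⊤ := fun k =>
    ((measure_mono (ann_sub _ _)).trans_lt (vol_lt_top Metric.isBounded_ball)).ne
  have i1 : Integrable (fun x => ρ * (Λ \ ⋃ k, Metric.ball (z k) (r k + w)).indicator
      (1 : E → ℝ) x) := by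
    refine Integrable.const_mul ?_ _
    exact (integrable_indicator_iff hm1).2 (integrableOn_const hf1)
  have i2 : ∀ k, Integrable (fun x => κk k * (ann a w (z k) (r k)).indicator (1 : E → ℝ) x) := by
    intro k
    refine Integrable.const_mul ?_ _
    exact (integrable_indicator_iff (measurable_ann _ _)).2 (integrableOn_const (hf2 k))
  have e1 : volume.real (Λ \ ⋃ k, Metric.ball (z k) (r k + w))
      = volume.real Λ - ∑ k, vb (r k + w) := by
    rw [measureReal_sdiff (iUnion_subset fun k => h.ball_sub k) h.measU]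
    congr 1
    rw [measureReal_iUnion_fintype]
    · refine Finset.sum_congr rfl fun k _ => vol_ball hLens _ ?_
      have := h.hr k
      linarith
    · intro i j hij
      exact h.disj_ball hij
    · exact fun k => Metric.isOpen_ball.measurableSet
  unfold kap
  rw [integral_add i1 (integrable_finsetSum _ fun k _ => i2 k), integral_const_mul,
    integral_indicator_one hm1, integral_finsetSum _ (fun k _ => i2 k), e1]
  have e2 : ∀ k, ∫ x, κk k * (ann a w (z k) (r k)).indicator (1 : E → ℝ) x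
      = ρ * (vb (r k + w) - vb (r k)) - Q k := by
    intro k
    have hr := h.hr k
    rw [integral_const_mul, integral_indicator_one (measurable_ann _ _)]
    unfold ann
    rw [vol_annulus hLens _ (by linarith) (by linarith)]
    have := h.hneu k
    linarith
  rw [Finset.sum_congr rfl (fun k _ => e2 k)]
  simp only [mul_sub, Finset.mul_sum, Finset.sum_add_distrib, Finset.sum_sub_distrib]
  ring

theorem Cfg.mass_lower (h : Cfg ρ ρ₁ K₀ a w Λ z r κk Q) :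
    ρ * volume.real (Λ \ ⋃ k, cB (z k) (r k + w)) ≤ ∫ x, kap ρ a w Λ z r κk x := by
  have hΛf := vol_lt_top h.hΛ.2
  have hm1 : MeasurableSet (Λ \ ⋃ k, cB (z k) (r k + w)) :=
    h.hΛ.1.diff (MeasurableSet.iUnion fun _ => Metric.isClosed_closedBall.measurableSet)
  have hf1 : volume (Λ \ ⋃ k, cB (z k) (r k + w)) ≠ ⊤ :=
    ((measure_mono sdiff_subset).trans_lt hΛf).ne
  have e : ∫ x, (Λ \ ⋃ k, cB (z k) (r k + w)).indicator (fun _ => ρ) x
      = ρ * volume.real (Λ \ ⋃ k, cB (z k) (r k + w)) := by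
    rw [integral_indicator hm1, setIntegral_const, smul_eq_mul, mul_comm]
  rw [← e]
  refine integral_mono ((integrable_indicator_iff hm1).2 (integrableOn_const hf1))
    (adm_integrable h.adm_kap) (fun x => ?_)
  by_cases hx : x ∈ Λ \ ⋃ k, cB (z k) (r k + w)
  · rw [indicator_of_mem hx]
    rcases h.kap_cases x with ⟨_, h1⟩ | ⟨k, hk, _⟩
    · rw [h1, indicator_of_mem hx.1, Pi.one_apply, mul_one]
    · exact absurd (mem_iUnion.2 ⟨k, Metric.ball_subset_closedBall hk⟩) hx.2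
  · rw [indicator_of_notMem hx]
    exact (h.kap_bd x).1

theorem Cfg.mass_upper (h : Cfg ρ ρ₁ K₀ a w Λ z r κk Q) :
    ∫ x, kap ρ a w Λ z r κk x ≤ ρ₁ * volume.real (Λ \ ⋃ k, cB (z k) (r k)) := by
  have hΛf := vol_lt_top h.hΛ.2
  refine integral_le_of (adm_integrable h.adm_kap) (fun x => (h.kap_bd x).2)
    (h.hΛ.1.diff (MeasurableSet.iUnion fun _ => Metric.isClosed_closedBall.measurableSet))
    ((measure_mono sdiff_subset).trans_lt hΛf) (fun x hx => ?_)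
  refine h.kap_zero x (fun hx' => hx ⟨hx'.1, fun h' => hx'.2 ?_⟩)
  obtain ⟨k, hk⟩ := mem_iUnion.1 h'
  have ha := h.ha
  exact mem_iUnion.2 ⟨k, Metric.closedBall_subset_closedBall (by linarith) hk⟩

/-! ### the standing hypotheses of `T` -/

theorem Cfg.thyp (hLens : Stmt_Lens) (hPot : Stmt_Pot) (hSh : Stmt_Sh)
    (h : Cfg ρ ρ₁ K₀ a w Λ z r κk Q) {C : ℝ} (hC : 0 ≤ C) (hR : RadK ρ a w C z r κk Q)
    (N' : ℕ) (hN' : ρ * volume.real Λ - ∑ k, (ρ * vb (r k) + Q k) = N') (t : ℝ) (ht : 0 < t) :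
    THyp ρ₁ (ρ + K₀) (Λ \ ⋃ k, cB (z k) (r k + a)) (kap ρ a w Λ z r κk) (Fp ρ Λ z r Q) N'
      ((ρ₁ + K₀) * (2 * Real.pi * t ^ 2 + volume.real Λ / t))
      ((ρ + K₀) * C * volume.real Λ) (C * ∑ k, r k ^ 2) := by
  have hρ := h.hρ
  have hρ₁ := h.hρ₁
  have hK := h.hK₀
  have hpi := Real.pi_pos
  have hv : 0 ≤ volume.real Λ := measureReal_nonneg
  have hx0 : 0 ≤ 2 * Real.pi * t ^ 2 + volume.real Λ / t := by positivity
  have hmD : MeasurableSet (⋃ k, cB (z k) (r k + a)) :=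
    MeasurableSet.iUnion fun _ => Metric.isClosed_closedBall.measurableSet
  constructor
  · exact ⟨h.hΛ.1.diff hmD, h.hΛ.2.subset sdiff_subset⟩
  · exact h.meas_kap
  · exact h.kap_bd
  · exact h.kap_zero
  · exact h.adm_Fp hSh
  · exact h.Fp_bd hSh
  · rw [h.mass hLens, hN']
  · have : 0 < ρ₁ := by linarith
    positivity
  · intro x
    refine (hPot.2.2.1 _ (ρ + K₀) t Λ (h.adm_Fp hSh) (h.Fp_bd hSh) h.hΛ.1 (vol_lt_top h.hΛ.2)
      (h.Fp_zero hSh) ht x).trans ?_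
    exact mul_le_mul_of_nonneg_right (by linarith) hx0
  · intro x
    refine (hPot.2.2.1 _ ρ₁ t Λ h.adm_kap (fun x => ?_) h.hΛ.1 (vol_lt_top h.hΛ.2)
      h.kap_zero' ht x).trans ?_
    · rw [abs_of_nonneg (h.kap_bd x).1]; exact (h.kap_bd x).2
    · exact mul_le_mul_of_nonneg_right (by linarith) hx0
  · exact h.dfm_nu hPot hR
  · exact h.dfm_nu_F hPot hSh hC hR
  · positivity
  · positivity

/-! ### numerical lemmas -/

theorem vb_diff {r s t : ℝ} (hr : 0 ≤ r) (hs : 0 ≤ s) (hst : s ≤ t) :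
    4 * Real.pi * (t - s) * r ^ 2 ≤ vb (r + t) - vb (r + s) := by
  have hpi := Real.pi_pos
  have e : vb (r + t) - vb (r + s) - 4 * Real.pi * (t - s) * r ^ 2
      = 4 * Real.pi / 3 * ((t - s) * (3 * r * (t + s) + (t ^ 2 + t * s + s ^ 2))) := by
    unfold vb; ring
  have h1 : 0 ≤ t - s := by linarith
  have ht : 0 ≤ t := by linarith
  have : 0 ≤ 4 * Real.pi / 3 * ((t - s) * (3 * r * (t + s) + (t ^ 2 + t * s + s ^ 2))) := by
    positivity
  linarith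

theorem vb_diff_up {r s : ℝ} (hr : 1 ≤ r) (hs : 0 ≤ s) :
    vb (r + s) - vb r ≤ 4 * Real.pi / 3 * (3 * s + 3 * s ^ 2 + s ^ 3) * r ^ 2 := by
  have hpi := Real.pi_pos
  have e : 4 * Real.pi / 3 * (3 * s + 3 * s ^ 2 + s ^ 3) * r ^ 2 - (vb (r + s) - vb r)
      = 4 * Real.pi / 3 * (3 * s ^ 2 * (r * (r - 1)) + s ^ 3 * (r ^ 2 - 1)) := by
    unfold vb; ring
  have h1 : 0 ≤ r - 1 := by linarith
  have h2 : 0 ≤ r ^ 2 - 1 := by nlinarith
  have h3 : 0 ≤ r := by linarith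
  have : 0 ≤ 4 * Real.pi / 3 * (3 * s ^ 2 * (r * (r - 1)) + s ^ 3 * (r ^ 2 - 1)) := by
    positivity
  linarith

theorem num_w (a ρ ρ₁ K₀ : ℝ) (ha : 0 < a) (hρ : 0 < ρ) (hρ₁ : ρ < ρ₁) (hK : 0 < K₀) :
    ∃ w, a < w ∧ ∀ r Q : ℝ, 2 ≤ r → |Q| ≤ K₀ * r ^ 2 → ∃ κ : ℝ, 0 ≤ κ ∧ κ ≤ ρ₁ ∧
      Q - ρ * (vb (r + w) - vb r) + κ * (vb (r + w) - vb (r + a)) = 0 := by
  have hpi := Real.pi_pos
  set X := 4 * Real.pi / 3 * (3 * a + 3 * a ^ 2 + a ^ 3) with hX
  have hX0 : 0 < X := by positivity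
  have hd : 0 < ρ₁ - ρ := by linarith
  set w := a + 1 + (ρ * X + K₀) / (4 * Real.pi * (ρ₁ - ρ)) + K₀ / (4 * Real.pi * ρ) with hw
  have hY1 : 0 < (ρ * X + K₀) / (4 * Real.pi * (ρ₁ - ρ)) := by positivity
  have hY2 : 0 < K₀ / (4 * Real.pi * ρ) := by positivity
  have haw : a < w := by linarith
  have hw0 : 0 < w := by linarith
  have hwa : ρ * X + K₀ ≤ (4 * Real.pi * (ρ₁ - ρ)) * (w - a) := by
    have h1 : (ρ * X + K₀) / (4 * Real.pi * (ρ₁ - ρ)) ≤ w - a := by linarith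
    rw [div_le_iff₀ (by positivity)] at h1
    linarith
  have hwK : K₀ ≤ 4 * Real.pi * ρ * w := by
    have h1 : K₀ / (4 * Real.pi * ρ) ≤ w := by linarith
    rw [div_le_iff₀ (by positivity)] at h1
    linarith
  refine ⟨w, haw, fun r Q hr hQ => ?_⟩
  have hr2 : 0 < r ^ 2 := by positivity
  have hd1 := vb_diff (r := r) (s := a) (t := w) (by linarith) ha.le haw.le
  have hd2 := vb_diff (r := r) (s := 0) (t := w) (by linarith) le_rfl hw0.le
  rw [add_zero, sub_zero] at hd2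
  have hu := vb_diff_up (r := r) (s := a) (by linarith) ha.le
  rw [← hX] at hu
  have hA : 0 < vb (r + w) - vb (r + a) := by
    have : 0 < 4 * Real.pi * (w - a) * r ^ 2 := by
      have : 0 < w - a := by linarith
      positivity
    linarith
  obtain ⟨hQ1, hQ2⟩ := abs_le.1 hQ
  refine ⟨(ρ * (vb (r + w) - vb r) - Q) / (vb (r + w) - vb (r + a)), ?_, ?_, ?_⟩
  · refine div_nonneg ?_ hA.le
    have h1 : K₀ * r ^ 2 ≤ 4 * Real.pi * ρ * w * r ^ 2 :=
      mul_le_mul_of_nonneg_right hwK hr2.le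
    have h2 : ρ * (4 * Real.pi * w * r ^ 2) ≤ ρ * (vb (r + w) - vb r) :=
      mul_le_mul_of_nonneg_left hd2 hρ.le
    nlinarith
  · rw [div_le_iff₀ hA]
    have h1 : (ρ * X + K₀) * r ^ 2 ≤ (4 * Real.pi * (ρ₁ - ρ)) * (w - a) * r ^ 2 :=
      mul_le_mul_of_nonneg_right hwa hr2.le
    have h2 : (ρ₁ - ρ) * (4 * Real.pi * (w - a) * r ^ 2)
        ≤ (ρ₁ - ρ) * (vb (r + w) - vb (r + a)) := mul_le_mul_of_nonneg_left hd1 hd.le
    have h3 : ρ * (vb (r + a) - vb r) ≤ ρ * (X * r ^ 2) :=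
      mul_le_mul_of_nonneg_left hu hρ.le
    nlinarith
  · field_simp
    ring

theorem err1 {B R N' t : ℝ} (hB : 0 ≤ B) (hR : 0 < R) (hN : 0 < N')
    (h : R * t ^ 2 ≤ Real.sqrt N') (ht : 1 ≤ t) :
    B * t ^ 4 / Real.sqrt N' ≤ B / R * t ^ 3 := by
  have hsN0 : 0 < Real.sqrt N' := Real.sqrt_pos.2 hN
  have hBR : 0 ≤ B / R := div_nonneg hB hR.le
  rw [div_le_iff₀ hsN0]
  have h1 : B * t ^ 4 = B / R * t ^ 2 * (R * t ^ 2) := by
    rw [div_mul_eq_mul_div, div_mul_eq_mul_div, eq_div_iff hR.ne']; ring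
  have h2 : B / R * t ^ 2 * (R * t ^ 2) ≤ B / R * t ^ 2 * Real.sqrt N' :=
    mul_le_mul_of_nonneg_left h (mul_nonneg hBR (sq_nonneg t))
  have h3 : t ^ 2 ≤ t ^ 3 := pow_le_pow_right₀ ht (by norm_num)
  have h4 : B / R * t ^ 2 ≤ B / R * t ^ 3 := mul_le_mul_of_nonneg_left h3 hBR
  have h5 := mul_le_mul_of_nonneg_right h4 hsN0.le
  linarith

theorem err3 {B F P V N' t c : ℝ} (hB : 0 ≤ B) (hF : 0 ≤ F) (hP : 0 < P) (hV : 0 ≤ V)
    (hN : 0 < N') (h : P * V ≤ N') (ht : 0 ≤ t) (hc : c ≤ B * t ^ 3) :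
    c * (F * V) / N' ≤ B * F / P * t ^ 3 := by
  rw [div_le_iff₀ hN]
  have h1 : c * (F * V) ≤ B * t ^ 3 * (F * V) :=
    mul_le_mul_of_nonneg_right hc (mul_nonneg hF hV)
  have h2 : B * t ^ 3 * (F * V) = B * F / P * t ^ 3 * (P * V) := by
    rw [div_mul_eq_mul_div, div_mul_eq_mul_div, eq_div_iff hP.ne']; ring
  have h3 : B * F / P * t ^ 3 * (P * V) ≤ B * F / P * t ^ 3 * N' :=
    mul_le_mul_of_nonneg_left h
      (mul_nonneg (div_nonneg (mul_nonneg hB hF) hP.le) (pow_nonneg ht 3))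
  linarith

theorem err4 {N' R t vD V : ℝ} (h : Real.sqrt N' ≤ R * t ^ 2) (ht : 1 ≤ t) (hR : 0 ≤ R)
    (hv0 : 0 ≤ vD) (hv : vD ≤ V) (hV : t ^ 4 = V) :
    Real.sqrt N' * Real.log (2 + vD) ≤ 4 * R * t ^ 3 := by
  have ht0 : 0 < t := by linarith
  have hl : Real.log (2 + vD) ≤ 4 * t := by
    have h1 : 2 + vD ≤ 3 * t ^ 4 := by
      have : 1 ≤ t ^ 4 := one_le_pow₀ ht
      linarith
    have h2 := Real.log_le_log (by linarith) h1
    rw [Real.log_mul (by norm_num) (by positivity), Real.log_pow] at h2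
    have h3 := Real.log_le_sub_one_of_pos (show (0:ℝ) < 3 by norm_num)
    have h4 := Real.log_le_sub_one_of_pos ht0
    push_cast at h2
    linarith
  have hl0 : 0 ≤ Real.log (2 + vD) := Real.log_nonneg (by linarith)
  calc Real.sqrt N' * Real.log (2 + vD) ≤ (R * t ^ 2) * (4 * t) :=
        mul_le_mul h hl hl0 (mul_nonneg hR (sq_nonneg t))
    _ = 4 * R * t ^ 3 := by ring

theorem num_err (CT CR bF b₁ ρ ρ₁ p δ : ℝ) (hCT : 0 < CT) (hCR : 0 < CR) (hbF : 0 < bF)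
    (hb₁ : 0 < b₁) (hρ : 0 < ρ) (hρ₁ : 0 < ρ₁) (hp : 0 < p) (hδ : 0 < δ) :
    ∃ V₀ : ℝ, 0 < V₀ ∧ ∀ V N' vD : ℝ, V₀ ≤ V → ρ * p * V ≤ N' → N' ≤ ρ₁ * V → 0 ≤ vD →
      vD ≤ V → ∃ t : ℝ, 0 < t ∧ CT ≤ N' ∧
        CT * ((bF * CR * V) / Real.sqrt N' + b₁ * (2 * Real.pi * t ^ 2 + V / t)
          + (b₁ * (2 * Real.pi * t ^ 2 + V / t)) * (bF * V) / N'
          + Real.sqrt N' * Real.log (2 + vD)) ≤ δ * V := by
  have hpi := Real.pi_pos
  have hsq : 0 < Real.sqrt (ρ * p) := Real.sqrt_pos.2 (by positivity)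
  set M := bF * CR / Real.sqrt (ρ * p) + b₁ * (2 * Real.pi + 1)
    + b₁ * (2 * Real.pi + 1) * bF / (ρ * p) + 4 * Real.sqrt ρ₁ with hM
  have hM0 : 0 < M := by
    have : 0 ≤ Real.sqrt ρ₁ := Real.sqrt_nonneg _
    have h1 : 0 < bF * CR / Real.sqrt (ρ * p) := by positivity
    have h2 : 0 < b₁ * (2 * Real.pi + 1) := by positivity
    have h3 : 0 < b₁ * (2 * Real.pi + 1) * bF / (ρ * p) := by positivity
    linarith
  have hT0 : 0 < CT * M / δ := by positivity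
  refine ⟨(1 + CT * M / δ) ^ 4 + CT / (ρ * p), by positivity, ?_⟩
  intro V N' vD hV hN1 hN2 hvD0 hvD
  have hCp : 0 < CT / (ρ * p) := by positivity
  have h1V : (1 + CT * M / δ) ^ 4 ≤ V := by linarith
  have hV0 : 0 < V := lt_of_lt_of_le (by positivity) h1V
  set t := Real.sqrt (Real.sqrt V) with ht
  have hsV : 0 < Real.sqrt V := Real.sqrt_pos.2 hV0
  have ht0 : 0 < t := Real.sqrt_pos.2 hsV
  have ht2 : t ^ 2 = Real.sqrt V := Real.sq_sqrt hsV.le
  have ht4 : t ^ 4 = V := by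
    have : t ^ 4 = (t ^ 2) ^ 2 := by ring
    rw [this, ht2, Real.sq_sqrt hV0.le]
  have htT : 1 + CT * M / δ ≤ t := by
    by_contra hlt
    push Not at hlt
    have : t ^ 4 < (1 + CT * M / δ) ^ 4 := pow_lt_pow_left₀ hlt ht0.le (by norm_num)
    rw [ht4] at this
    linarith
  have ht1 : 1 ≤ t := by linarith
  have hVt : V / t = t ^ 3 := by
    rw [← ht4]; field_simp
  have hCTN : CT ≤ N' := by
    have h1 : CT / (ρ * p) ≤ V := by
      have : 0 ≤ (1 + CT * M / δ) ^ 4 := by positivity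
      linarith
    rw [div_le_iff₀ (by positivity)] at h1
    linarith
  have hN0 : 0 < N' := by linarith
  refine ⟨t, ht0, hCTN, ?_⟩
  rw [hVt]
  have hsN1 : Real.sqrt (ρ * p) * t ^ 2 ≤ Real.sqrt N' := by
    rw [ht2, ← Real.sqrt_mul (by positivity)]
    exact Real.sqrt_le_sqrt hN1
  have hsN2 : Real.sqrt N' ≤ Real.sqrt ρ₁ * t ^ 2 := by
    rw [ht2, ← Real.sqrt_mul hρ₁.le]
    exact Real.sqrt_le_sqrt hN2
  have hsN0 : 0 < Real.sqrt N' := Real.sqrt_pos.2 hN0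
  have hb : b₁ * (2 * Real.pi * t ^ 2 + t ^ 3) ≤ b₁ * (2 * Real.pi + 1) * t ^ 3 := by
    have : t ^ 2 ≤ t ^ 3 := by
      have : t ^ 2 * 1 ≤ t ^ 2 * t := mul_le_mul_of_nonneg_left ht1 (by positivity)
      nlinarith
    have h2 : 2 * Real.pi * t ^ 2 + t ^ 3 ≤ (2 * Real.pi + 1) * t ^ 3 := by nlinarith
    calc b₁ * (2 * Real.pi * t ^ 2 + t ^ 3) ≤ b₁ * ((2 * Real.pi + 1) * t ^ 3) :=
          mul_le_mul_of_nonneg_left h2 hb₁.le
      _ = b₁ * (2 * Real.pi + 1) * t ^ 3 := by ring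
  have e1 : bF * CR * V / Real.sqrt N' ≤ bF * CR / Real.sqrt (ρ * p) * t ^ 3 := by
    rw [← ht4]
    exact err1 (mul_nonneg hbF.le hCR.le) hsq hN0 hsN1 ht1
  have e3 : b₁ * (2 * Real.pi * t ^ 2 + t ^ 3) * (bF * V) / N'
      ≤ b₁ * (2 * Real.pi + 1) * bF / (ρ * p) * t ^ 3 :=
    err3 (by positivity) hbF.le (mul_pos hρ hp) hV0.le hN0 hN1 ht0.le hb
  have e4 : Real.sqrt N' * Real.log (2 + vD) ≤ 4 * Real.sqrt ρ₁ * t ^ 3 :=
    err4 hsN2 ht1 (Real.sqrt_nonneg _) hvD0 hvD ht4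
  have hsum : (bF * CR * V) / Real.sqrt N' + b₁ * (2 * Real.pi * t ^ 2 + t ^ 3)
          + (b₁ * (2 * Real.pi * t ^ 2 + t ^ 3)) * (bF * V) / N'
          + Real.sqrt N' * Real.log (2 + vD) ≤ M * t ^ 3 := by
    refine (add_le_add (add_le_add (add_le_add e1 hb) e3) e4).trans (le_of_eq ?_)
    rw [hM]; ring
  calc CT * _ ≤ CT * (M * t ^ 3) := mul_le_mul_of_nonneg_left hsum hCT.le
    _ = (CT * M / δ) * (δ * t ^ 3) := by field_simp
    _ ≤ t * (δ * t ^ 3) := mul_le_mul_of_nonneg_right (by linarith) (by positivity)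
    _ = δ * V := by rw [← ht4]; ring

/-! ### monotonicity -/

theorem zf_nonneg (a β : ℝ) (F : E → ℝ) (D : Set E) (n : ℕ) : 0 ≤ ZF a β F D n := by
  unfold ZF
  refine mul_nonneg (by positivity) (integral_nonneg fun X => (Real.exp_pos _).le)

theorem zf_mono (hMeas : Stmt_Meas) {a β : ℝ} (ha : 0 < a) (hβ : 0 < β) {F : E → ℝ}
    (hF : Adm F) {D D' : Set E} (hD' : BM D') (hDD : D ⊆ D') (n : ℕ) :
    ZF a β F D n ≤ ZF a β F D' n := by
  unfold ZF
  refine mul_le_mul_of_nonneg_left ?_ (by positivity)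
  refine setIntegral_mono_set (hMeas.2.2.1 a β F D' n ha hβ hF hD')
    (Eventually.of_forall fun X => (Real.exp_pos _).le) (LE.le.eventuallyLE ?_)
  intro X hX
  exact ⟨hX.1, fun i => hDD (hX.2 i)⟩

end LowB_

open LowB_ in
theorem LowB_proof (hInsIt : Stmt_InsIt) (hT : Stmt_T) (hRad : Stmt_Rad) (hPot : Stmt_Pot)
    (hSh : Stmt_Sh) (hMeas : Stmt_Meas) (hLens : Stmt_Lens) : Stmt_LowB := by
  intro a β ρ K₀ ha hβ hρ hρa hK₀
  -- constants
  obtain ⟨ρ₁, hρρ₁, hρ₁a⟩ := exists_between hρa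
  have hρ₁ : 0 < ρ₁ := hρ.trans hρρ₁
  obtain ⟨w, haw, hw⟩ := num_w a ρ ρ₁ K₀ ha hρ hρρ₁ hK₀
  obtain ⟨CR, hCR, hRad'⟩ := hRad K₀ ρ ρ₁ a w hK₀ hρ hρ₁ ha haw
  obtain ⟨C, hC1, hT'⟩ := hT a β ρ₁ (ρ + K₀) ha hβ hρ₁ hρ₁a (by linarith)
  have hC0 : 0 < C := by linarith
  refine ⟨w, C * ρ₁, C * CR, 2, haw, by positivity, by positivity, le_rfl, ?_⟩
  intro p δ hp hδ
  obtain ⟨V₀, hV₀, hV⟩ := num_err C CR (ρ + K₀) (ρ₁ + K₀) ρ ρ₁ p δ hC0 hCR (by linarith)
    (by linarith) hρ hρ₁ hp hδ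
  refine ⟨V₀, hV₀, ?_⟩
  intro Λ K _ _ z r n N hΛ hr hQ hsep hin hpv hVΛ hNv
  -- the configuration
  have hex : ∀ k, ∃ κ : ℝ, 0 ≤ κ ∧ κ ≤ ρ₁ ∧
      ((n k : ℝ) - ρ * vb (r k)) - ρ * (vb (r k + w) - vb (r k))
        + κ * (vb (r k + w) - vb (r k + a)) = 0 := fun k => hw (r k) _ (hr k) (hQ k)
  choose κk hκ0 hκ1 hneu using hex
  have hc : Cfg ρ ρ₁ K₀ a w Λ z r κk (fun k => (n k : ℝ) - ρ * vb (r k)) :=
    ⟨ha, haw, hρ, hρρ₁.le, hK₀, hΛ, hr, hQ, hsep, hin, hκ0, hκ1, hneu⟩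
  have hR : RadK ρ a w CR z r κk (fun k => (n k : ℝ) - ρ * vb (r k)) := by
    intro k
    obtain ⟨h1, _, h3, _, h5, h6, h7⟩ := hRad' (r k) (κk k) ((n k : ℝ) - ρ * vb (r k)) (z k)
      (hr k) (hQ k) (hκ0 k) (hκ1 k) (hneu k)
    exact ⟨h1, h3, h5, h6, h7⟩
  -- the number of remaining particles
  have hmass := hc.mass hLens
  have hlow := hc.mass_lower
  have hup := hc.mass_upper
  have hsum : ρ * volume.real Λ - ∑ k, (ρ * vb (r k) + ((n k : ℝ) - ρ * vb (r k)))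
      = (N : ℝ) - ((∑ k, n k : ℕ) : ℝ) := by
    rw [hNv]
    congr 1
    rw [Nat.cast_sum]
    exact Finset.sum_congr rfl fun k _ => by ring
  have hNn : (∑ k, n k) ≤ N := by
    have h1 : 0 ≤ ρ * volume.real (Λ \ ⋃ k, cB (z k) (r k + w)) :=
      mul_nonneg hρ.le measureReal_nonneg
    have h2 : ((∑ k, n k : ℕ) : ℝ) ≤ N := by
      rw [hmass, hsum] at hlow
      linarith
    exact_mod_cast h2
  obtain ⟨N', hN'⟩ := Nat.exists_eq_add_of_le' hNn
  have hN'r : ρ * volume.real Λ - ∑ k, (ρ * vb (r k) + ((n k : ℝ) - ρ * vb (r k)))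
      = (N' : ℝ) := by
    rw [hsum, hN']
    push_cast
    ring
  rw [hmass, hN'r] at hlow hup
  have hV0 : 0 ≤ volume.real Λ := measureReal_nonneg
  have hΛf := vol_lt_top hΛ.2
  have hN'1 : ρ * p * volume.real Λ ≤ N' := by
    refine le_trans ?_ hlow
    rw [mul_assoc]
    exact mul_le_mul_of_nonneg_left hpv hρ.le
  have hN'2 : (N' : ℝ) ≤ ρ₁ * volume.real Λ := by
    refine hup.trans (mul_le_mul_of_nonneg_left ?_ hρ₁.le)
    exact measureReal_mono sdiff_subset hΛf.ne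
  have hD2 : volume.real (Λ \ ⋃ k, cB (z k) (r k + a)) ≤ volume.real Λ :=
    measureReal_mono sdiff_subset hΛf.ne
  obtain ⟨t, ht, hCN, herr⟩ := hV (volume.real Λ) N' (volume.real (Λ \ ⋃ k, cB (z k) (r k + a)))
    hVΛ hN'1 hN'2 measureReal_nonneg hD2
  have hth := hc.thyp hLens hPot hSh hCR.le hR N' hN'r t ht
  have hTT := hT' _ _ _ N' _ _ _ ((ρ + K₀) * volume.real Λ) hth hCN (hc.l1_F hSh)
  -- insertion
  have hadm : Adm (bg ρ Λ) := by
    refine adm_of (b := ρ) (measurable_const.indicator hΛ.1) (fun x => ?_) hΛ.2 (fun x hx => ?_)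
    · unfold bg
      by_cases hx : x ∈ Λ
      · rw [indicator_of_mem hx, abs_neg, abs_of_pos hρ]
      · rw [indicator_of_notMem hx, abs_zero]; exact hρ.le
    · unfold bg
      rw [indicator_of_notMem hx]
  have hins := hInsIt a β ρ ha hβ hρ K z r n N' (bg ρ Λ) (Λ \ ⋃ k, cB (z k) (r k + a)) hr hadm
    (fun k x hx => by
      have hx' : x ∈ Λ := hc.ball_sub k (Metric.closedBall_subset_ball (by linarith) hx)
      unfold bg
      rw [indicator_of_mem hx'])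
    hth.hD
    (fun k x hx => by
      by_contra hlt
      push Not at hlt
      exact hx.2 (mem_iUnion.2 ⟨k, mem_closedBall_iff_norm.2 hlt.le⟩))
    (fun k k' hk => by
      have := hsep k k' hk
      linarith)
  have hmono := zf_mono hMeas ha hβ hadm (D := (Λ \ ⋃ k, cB (z k) (r k + a)) ∪
    ⋃ k, cB (z k) (r k)) (D' := Λ) hΛ (union_subset sdiff_subset (iUnion_subset fun k =>
      (Metric.closedBall_subset_ball (by linarith)).trans (hc.ball_sub k))) (N' + ∑ k, n k)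
  rw [← hN'] at hmono hins
  have hZ : ∀ k, Z a β ρ (cB (z k) (r k)) (n k) = Z a β ρ (cB 0 (r k)) (n k) := fun k =>
    hMeas.2.2.2.2.1 a β ρ (r k) (z k) (n k)
  rw [Finset.prod_congr rfl (fun k _ => hZ k)] at hins
  have hprod : 0 ≤ ∏ k, Z a β ρ (cB 0 (r k)) (n k) :=
    Finset.prod_nonneg fun k _ => zf_nonneg _ _ _ _ _
  -- conclusion
  have hexp : Real.exp (-(C * ρ₁ * volume.real (Λ \ ⋃ k, cB (z k) (r k)) +
      C * CR * ∑ k, r k ^ 2 + δ * volume.real Λ))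
      ≤ ZF a β (Fp ρ Λ z r (fun k => (n k : ℝ) - ρ * vb (r k)))
        (Λ \ ⋃ k, cB (z k) (r k + a)) N' := by
    refine le_trans (Real.exp_le_exp.2 ?_) hTT
    have h1 : C * (N' : ℝ) ≤ C * (ρ₁ * volume.real (Λ \ ⋃ k, cB (z k) (r k))) :=
      mul_le_mul_of_nonneg_left hup hC0.le
    linarith
  calc _ ≤ ZF a β (Fp ρ Λ z r (fun k => (n k : ℝ) - ρ * vb (r k)))
        (Λ \ ⋃ k, cB (z k) (r k + a)) N' * ∏ k, Z a β ρ (cB 0 (r k)) (n k) :=
        mul_le_mul_of_nonneg_right hexp hprod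
    _ = (∏ k, Z a β ρ (cB 0 (r k)) (n k)) *
        ZF a β (Fp ρ Λ z r (fun k => (n k : ℝ) - ρ * vb (r k)))
          (Λ \ ⋃ k, cB (z k) (r k + a)) N' := mul_comm _ _
    _ ≤ _ := hins
    _ ≤ _ := hmono

end Pool.Agent.JEL
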