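import Pool.Agent.JEL.Stmts

open MeasureTheory Set Filter Topology

namespace Pool.Agent.JEL

theorem Marg_proof : Stmt_Marg := by
  classical
  intro ι _ α _ μ _ n e he
  have hm : Measurable (fun (x : ι → α) (j : Fin n) => x (e j)) :=
    measurable_pi_lambda _ fun j => measurable_pi_apply _
  symm
  refine Measure.pi_eq fun s hs => ?_
  rw [Measure.map_apply hm (MeasurableSet.univ_pi hs)]
  have hpre : (fun (x : ι → α) (j : Fin n) => x (e j)) ⁻¹' (Set.univ.pi s)
      = Set.univ.pi (fun i => {a | ∀ j, e j = i → a ∈ s j}) := by
    ext x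
    simp only [Set.mem_preimage, Set.mem_pi, Set.mem_univ, true_implies, Set.mem_setOf_eq]
    constructor
    · intro h i j hij
      rw [← hij]
      exact h j
    · intro h j
      exact h (e j) j rfl
  rw [hpre, Measure.pi_pi]
  symm
  refine Fintype.prod_of_injective e he _ _ ?_ ?_
  · intro i hi
    have h1 : {a : α | ∀ j, e j = i → a ∈ s j} = Set.univ := by
      ext a
      simp only [Set.mem_setOf_eq, Set.mem_univ, iff_true]
      intro j hj
      exact absurd ⟨j, hj⟩ hi
    rw [h1, measure_univ]
  · intro j
    congr 1
    ext a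
    simp only [Set.mem_setOf_eq]
    constructor
    · intro h j' hj'
      rw [he hj']
      exact h
    · intro h
      exact h j rfl

end Pool.Agent.JEL
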