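import Pool.Agent.JEL.Stmts

/-!
# JEL, module Meas: partition functions, measurability, bounds, translation
-/

open MeasureTheory Set Filter Topology

namespace Pool.Agent.JEL

namespace Meas_

theorem adm_bg {D : Set E} (hD : BM D) (ρ : ℝ) : Adm (bg ρ D) := by
  refine ⟨measurable_const.indicator hD.1, ⟨|ρ|, fun x => ?_⟩, ?_⟩
  · by_cases hx : x ∈ D
    · simp [bg, hx]
    · simp [bg, hx]
  · obtain ⟨R, hR⟩ := hD.2.subset_closedBall 0
    refine ⟨R, fun x hx => ?_⟩
    have : x ∉ D := fun h => by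
      have := hR h
      rw [mem_closedBall_zero_iff] at this
      linarith
    simp [bg, this]

theorem bg_le {ρ : ℝ} (hρ : 0 ≤ ρ) (D : Set E) (x : E) : |bg ρ D x| ≤ ρ := by
  by_cases hx : x ∈ D
  · simp [bg, hx, abs_of_nonneg hρ]
  · simp [bg, hx, hρ]

theorem meas_En (hPot : Stmt_Pot) (F : E → ℝ) (n : ℕ) (hF : Adm F) :
    Measurable (fun X : Fin n → E => En F X) := by
  unfold En pairE
  refine ((Measurable.const_mul ?_ _).add ?_).add measurable_const
  · refine Finset.measurable_sum _ fun i _ => Finset.measurable_sum _ fun j _ => ?_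
    exact (((measurable_pi_apply i).sub (measurable_pi_apply j)).norm).inv
  · refine Finset.measurable_sum _ fun i _ => ?_
    exact (hPot.1 F hF).comp (measurable_pi_apply i)

theorem meas_HC (a : ℝ) (n : ℕ) : MeasurableSet {X : Fin n → E | HC a X} := by
  have : {X : Fin n → E | HC a X} = ⋂ i, ⋂ j, {X : Fin n → E | i ≠ j → a ≤ ‖X i - X j‖} := by
    ext X
    simp [HC]
  rw [this]
  refine MeasurableSet.iInter fun i => MeasurableSet.iInter fun j => ?_
  by_cases h : i = j
  · simp [h]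
  · have e : {X : Fin n → E | i ≠ j → a ≤ ‖X i - X j‖} = {X : Fin n → E | a ≤ ‖X i - X j‖} := by
      ext X; simp [h]
    rw [e]
    exact measurableSet_le measurable_const
      ((measurable_pi_apply i).sub (measurable_pi_apply j)).norm

theorem meas_conf (a : ℝ) (D : Set E) (n : ℕ) (hD : MeasurableSet D) :
    MeasurableSet (conf a D n) := by
  have : conf a D n = {X : Fin n → E | HC a X} ∩ ⋂ i, (fun X : Fin n → E => X i) ⁻¹' D := by
    ext X
    simp [conf]
  rw [this]
  exact (meas_HC a n).inter (MeasurableSet.iInter fun i => measurable_pi_apply i hD)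

theorem conf_sub (a : ℝ) (D : Set E) (n : ℕ) : conf a D n ⊆ Set.pi univ (fun _ => D) :=
  fun _ hX i _ => hX.2 i

theorem vol_pi (D : Set E) (n : ℕ) :
    (volume : Measure (Fin n → E)) (Set.pi univ (fun _ => D)) = volume D ^ n := by
  rw [volume_pi_pi]
  simp

theorem vol_lt {D : Set E} (hD : BM D) : volume D < ⊤ := hD.2.measure_lt_top

theorem vol_conf_lt {a : ℝ} {D : Set E} (hD : BM D) (n : ℕ) : volume (conf a D n) < ⊤ := by
  refine (measure_mono (conf_sub a D n)).trans_lt ?_
  rw [vol_pi]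
  exact ENNReal.pow_lt_top (vol_lt hD)

theorem vol_conf_le {a : ℝ} {D : Set E} (hD : BM D) (n : ℕ) :
    volume.real (conf a D n) ≤ volume.real D ^ n := by
  have h1 : volume.real (conf a D n) ≤
      (volume : Measure (Fin n → E)).real (Set.pi univ (fun _ => D)) := by
    refine measureReal_mono (conf_sub a D n) ?_
    rw [vol_pi]
    exact (ENNReal.pow_lt_top (vol_lt hD)).ne
  refine h1.trans ?_
  rw [measureReal_def, vol_pi, ENNReal.toReal_pow, measureReal_def]

theorem exp_le (hStab : Stmt_Stab) {a β b : ℝ} {F : E → ℝ} {D : Set E} {n : ℕ} (ha : 0 < a)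
    (hβ : 0 < β) (hb : 0 ≤ b) (hF : Adm F) (hFb : ∀ x, |F x| ≤ b) {X : Fin n → E}
    (hX : X ∈ conf a D n) : Real.exp (-β * En F X) ≤ Real.exp (β * C0 a b * n) := by
  have h := hStab.1 a b F ha hb hF hFb n X hX.1
  refine Real.exp_le_exp.mpr ?_
  nlinarith

theorem integrable (hPot : Stmt_Pot) (hStab : Stmt_Stab) {a β : ℝ} {F : E → ℝ} {D : Set E} (n : ℕ)
    (ha : 0 < a) (hβ : 0 < β) (hF : Adm F) (hD : BM D) :
    IntegrableOn (fun X => Real.exp (-β * En F X)) (conf a D n) := by
  obtain ⟨b, hb⟩ := hF.bdd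
  have hb0 : 0 ≤ b := (abs_nonneg _).trans (hb 0)
  have hm : Measurable (fun X : Fin n → E => Real.exp (-β * En F X)) :=
    Real.measurable_exp.comp ((meas_En hPot F n hF).const_mul _)
  refine Measure.integrableOn_of_bounded (M := Real.exp (β * C0 a b * n)) (vol_conf_lt hD n).ne
    hm.aestronglyMeasurable ?_
  refine (ae_restrict_iff' (meas_conf a D n hD.1)).mpr (Eventually.of_forall fun X hX => ?_)
  rw [Real.norm_of_nonneg (Real.exp_pos _).le]
  exact exp_le hStab ha hβ hb0 hF hb hX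

theorem ZF_nonneg (a β : ℝ) (F : E → ℝ) (D : Set E) (n : ℕ) : 0 ≤ ZF a β F D n := by
  unfold ZF
  refine mul_nonneg (by positivity) (integral_nonneg fun X => (Real.exp_pos _).le)

theorem ZF_le (hPot : Stmt_Pot) (hStab : Stmt_Stab) {a β b : ℝ} {F : E → ℝ} {D : Set E} (n : ℕ)
    (ha : 0 < a) (hβ : 0 < β) (hb : 0 ≤ b) (hF : Adm F) (hFb : ∀ x, |F x| ≤ b) (hD : BM D) :
    ZF a β F D n ≤ Real.exp (β * C0 a b * n) * volume.real D ^ n / n.factorial := by
  unfold ZF
  have h1 : ∫ X in conf a D n, Real.exp (-β * En F X) ≤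
      Real.exp (β * C0 a b * n) * volume.real (conf a D n) := by
    have h2 : ∫ X in conf a D n, Real.exp (-β * En F X) ≤
        ∫ X in conf a D n, Real.exp (β * C0 a b * n) := by
      refine setIntegral_mono_on (integrable hPot hStab n ha hβ hF hD)
        (integrableOn_const (vol_conf_lt hD n).ne) (meas_conf a D n hD.1) fun X hX => ?_
      exact exp_le hStab ha hβ hb hF hFb hX
    rw [setIntegral_const, smul_eq_mul, mul_comm] at h2
    exact h2
  have h3 : ∫ X in conf a D n, Real.exp (-β * En F X) ≤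
      Real.exp (β * C0 a b * n) * volume.real D ^ n :=
    h1.trans (mul_le_mul_of_nonneg_left (vol_conf_le hD n) (Real.exp_pos _).le)
  have h4 : (0 : ℝ) < n.factorial := by exact_mod_cast n.factorial_pos
  rw [le_div_iff₀ h4]
  calc (n.factorial : ℝ)⁻¹ * (∫ X in conf a D n, Real.exp (-β * En F X)) * n.factorial
      = ∫ X in conf a D n, Real.exp (-β * En F X) := by field_simp
    _ ≤ _ := h3

/-! ### translations -/

theorem bg_trans (ρ r : ℝ) (z x : E) : bg ρ (cB z r) (x + z) = bg ρ (cB 0 r) x := by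
  have h : (x + z ∈ cB z r) ↔ (x ∈ cB 0 r) := by
    rw [Metric.mem_closedBall, Metric.mem_closedBall, dist_eq_norm, dist_eq_norm]
    simp
  unfold bg
  by_cases hx : x ∈ cB 0 r
  · rw [indicator_of_mem hx, indicator_of_mem (h.mpr hx)]
  · rw [indicator_of_notMem hx, indicator_of_notMem (fun h' => hx (h.mp h'))]

theorem pot_trans (ρ r : ℝ) (z x : E) :
    pot (bg ρ (cB z r)) (x + z) = pot (bg ρ (cB 0 r)) x := by
  unfold pot
  rw [← integral_add_right_eq_self (fun y => bg ρ (cB z r) y * ‖x + z - y‖⁻¹) z]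
  refine integral_congr_ae (Eventually.of_forall fun y => ?_)
  simp only [bg_trans]
  congr 3
  abel

theorem Dfm_trans (ρ r : ℝ) (z : E) :
    Dfm (bg ρ (cB z r)) (bg ρ (cB z r)) = Dfm (bg ρ (cB 0 r)) (bg ρ (cB 0 r)) := by
  unfold Dfm
  rw [← integral_add_right_eq_self (fun y => bg ρ (cB z r) y * pot (bg ρ (cB z r)) y) z]
  refine integral_congr_ae (Eventually.of_forall fun y => ?_)
  simp only [bg_trans, pot_trans]

theorem En_trans (ρ r : ℝ) (z : E) (n : ℕ) (X : Fin n → E) :
    En (bg ρ (cB z r)) (X + fun _ => z) = En (bg ρ (cB 0 r)) X := by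
  unfold En pairE
  rw [Dfm_trans]
  simp only [Pi.add_apply, pot_trans, add_sub_add_right_eq_sub]

theorem conf_trans (a r : ℝ) (z : E) (n : ℕ) (X : Fin n → E) :
    (X + fun _ => z) ∈ conf a (cB z r) n ↔ X ∈ conf a (cB 0 r) n := by
  unfold conf HC
  simp only [mem_ofPred_eq, Pi.add_apply, add_sub_add_right_eq_sub]
  refine and_congr Iff.rfl (forall_congr' fun i => ?_)
  rw [Metric.mem_closedBall, Metric.mem_closedBall, dist_eq_norm, dist_eq_norm]
  simp

theorem Z_trans (a β ρ r : ℝ) (z : E) (n : ℕ) :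
    Z a β ρ (cB z r) n = Z a β ρ (cB 0 r) n := by
  unfold Z ZF
  congr 1
  have m1 : MeasurableSet (conf a (cB z r) n) := meas_conf a _ n Metric.isClosed_closedBall.measurableSet
  have m2 : MeasurableSet (conf a (cB 0 r) n) := meas_conf a _ n Metric.isClosed_closedBall.measurableSet
  rw [← integral_indicator m1, ← integral_indicator m2,
    ← integral_add_right_eq_self ((conf a (cB z r) n).indicator
      (fun X => Real.exp (-β * En (bg ρ (cB z r)) X))) (fun _ => z)]
  refine integral_congr_ae (Eventually.of_forall fun X => ?_)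
  simp only
  by_cases hX : X ∈ conf a (cB 0 r) n
  · rw [indicator_of_mem hX, indicator_of_mem ((conf_trans a r z n X).mpr hX), En_trans]
  · rw [indicator_of_notMem hX, indicator_of_notMem (fun h' => hX ((conf_trans a r z n X).mp h'))]

/-! ### the grand canonical sum -/

theorem Z_zero_pos (a β ρ : ℝ) (D : Set E) : 0 < Z a β ρ D 0 := by
  unfold Z ZF
  have h1 : conf a D 0 = univ := by
    ext X
    simp [conf, HC]
  rw [h1, Measure.restrict_univ]
  have h2 : (volume : Measure (Fin 0 → E)) = Measure.dirac isEmptyElim := by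
    rw [volume_pi]
    exact Measure.pi_of_empty _ _
  rw [h2, integral_dirac]
  simp [Real.exp_pos]

theorem sum_facts (hPot : Stmt_Pot) (hStab : Stmt_Stab) {a β ρ : ℝ} {D : Set E}
    (ha : 0 < a) (hβ : 0 < β) (hρ : 0 < ρ) (hD : BM D) :
    Summable (fun n => Z a β ρ D n) ∧ 0 < Xi a β ρ D ∧
    Xi a β ρ D ≤ Real.exp (Real.exp (β * C0 a ρ) * volume.real D) := by
  obtain ⟨x, hx⟩ : ∃ x, x = Real.exp (β * C0 a ρ) * volume.real D := ⟨_, rfl⟩
  have hle : ∀ n, Z a β ρ D n ≤ x ^ n / n.factorial := fun n => by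
    have := ZF_le hPot hStab n ha hβ hρ.le (adm_bg hD ρ) (bg_le hρ.le D) hD
    refine this.trans (le_of_eq ?_)
    rw [hx, mul_pow, ← Real.exp_nat_mul]
    ring_nf
  have hnn : ∀ n, 0 ≤ Z a β ρ D n := fun n => ZF_nonneg _ _ _ _ _
  have hs2 : Summable (fun n : ℕ => x ^ n / (n.factorial : ℝ)) :=
    Real.summable_pow_div_factorial x
  have hs : Summable (fun n => Z a β ρ D n) := Summable.of_nonneg_of_le hnn hle hs2
  refine ⟨hs, ?_, ?_⟩
  · exact hs.tsum_pos hnn 0 (Z_zero_pos a β ρ D)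
  · unfold Xi
    refine (hs.tsum_le_tsum hle hs2).trans (le_of_eq ?_)
    rw [← hx, Real.exp_eq_exp_ℝ, NormedSpace.exp_eq_tsum_div]

end Meas_

open Meas_ in
theorem Meas_proof (hPot : Stmt_Pot) (hStab : Stmt_Stab) : Stmt_Meas :=
  ⟨fun F n hF => meas_En hPot F n hF, fun a D n hD => meas_conf a D n hD,
    fun _ _ _ _ n ha hβ hF hD => integrable hPot hStab n ha hβ hF hD,
    fun _ _ _ _ _ n ha hβ hb hF hFb hD =>
      ⟨ZF_nonneg _ _ _ _ _, ZF_le hPot hStab n ha hβ hb hF hFb hD⟩,
    fun a β ρ r z n => Z_trans a β ρ r z n,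
    fun _ _ _ _ ha hβ hρ hD => sum_facts hPot hStab ha hβ hρ hD⟩

end Pool.Agent.JEL
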