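import Pool.Agent.JEL.Stmts

open MeasureTheory Set Filter Topology

namespace Pool.Agent.JEL

namespace Mom_

/-- splitting the pairs of points into far pairs and near pairs -/
theorem nf {I : Type} [Fintype I] [DecidableEq I] {D₀ : ℝ} {C₀ : ℕ} (T : Finset I) (y : I → E)
    (hcard : ∀ i, (T.filter (fun j => ‖y j - y i‖ ≤ D₀)).card ≤ C₀) (w : I → I → ENNReal)
    (c : ENNReal) (hw : ∀ i ∈ T, ∀ j ∈ T, i ≠ j → w i j ≤ c) :
    ∑ i, ∑ j ∈ Finset.univ.erase i, (if i ∈ T ∧ j ∈ T then w i j else 0)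
      ≤ ∑ i, ∑ j ∈ Finset.univ.erase i,
          (if (i ∈ T ∧ j ∈ T) ∧ D₀ < ‖y i - y j‖ then w i j else 0)
        + ∑ i, (if i ∈ T then (C₀ : ENNReal) * c else 0) := by
  classical
  rw [← Finset.sum_add_distrib]
  refine Finset.sum_le_sum fun i _ => ?_
  by_cases hi : i ∈ T
  · have h1 : ∀ j ∈ Finset.univ.erase i, (if i ∈ T ∧ j ∈ T then w i j else 0)
        ≤ (if (i ∈ T ∧ j ∈ T) ∧ D₀ < ‖y i - y j‖ then w i j else 0)
          + (if j ∈ T ∧ ‖y j - y i‖ ≤ D₀ then c else 0) := by
      intro j hj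
      have hne : i ≠ j := (Finset.ne_of_mem_erase hj).symm
      by_cases hjT : j ∈ T
      · by_cases hf : D₀ < ‖y i - y j‖
        · rw [if_pos ⟨hi, hjT⟩, if_pos ⟨⟨hi, hjT⟩, hf⟩]
          exact le_self_add
        · have hn : ‖y j - y i‖ ≤ D₀ := by
            rw [norm_sub_rev]; exact not_lt.mp hf
          rw [if_pos ⟨hi, hjT⟩, if_neg (fun h => hf h.2), if_pos ⟨hjT, hn⟩, zero_add]
          exact hw i hi j hjT hne
      · rw [if_neg (fun h => hjT h.2)]
        exact zero_le
    refine (Finset.sum_le_sum h1).trans ?_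
    rw [Finset.sum_add_distrib, if_pos hi]
    refine add_le_add le_rfl ?_
    calc ∑ j ∈ Finset.univ.erase i, (if j ∈ T ∧ ‖y j - y i‖ ≤ D₀ then c else 0)
        ≤ ∑ j, (if j ∈ T ∧ ‖y j - y i‖ ≤ D₀ then c else 0) :=
          Finset.sum_le_sum_of_subset (Finset.subset_univ _)
      _ = ∑ j ∈ T.filter (fun j => ‖y j - y i‖ ≤ D₀), c := by
          rw [← Finset.sum_filter]
          congr 1
          ext j
          simp
      _ = ((T.filter (fun j => ‖y j - y i‖ ≤ D₀)).card : ENNReal) * c := by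
          rw [Finset.sum_const, nsmul_eq_mul]
      _ ≤ (C₀ : ENNReal) * c := by
          gcongr
          exact_mod_cast hcard i
  · have h1 : ∀ j ∈ Finset.univ.erase i, (if i ∈ T ∧ j ∈ T then w i j else 0) = 0 :=
      fun j _ => if_neg (fun h => hi h.1)
    rw [Finset.sum_congr rfl h1, Finset.sum_const_zero]
    exact zero_le

end Mom_

open Mom_

theorem Mom_proof (hPkb : Stmt_Pkb) : Stmt_Mom := by
  classical
  intro a D₀ ha hD₀
  obtain ⟨C₀, hC₀⟩ := hPkb a D₀ ha hD₀
  refine ⟨1 + C₀ + C₀ * a⁻¹, ?_, ?_⟩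
  · have : (0:ℝ) ≤ a⁻¹ := by positivity
    have h2 : (0:ℝ) ≤ C₀ * a⁻¹ := by positivity
    have h3 : (0:ℝ) ≤ C₀ := by positivity
    linarith
  intro v D κ Ω _ P _ I _ _ y R hκ hP
  set C : ℝ := 1 + C₀ + C₀ * a⁻¹ with hC
  have hC1 : (0:ℝ) ≤ C₀ * a⁻¹ := by positivity
  have hC0 : (0:ℝ) ≤ C₀ := by positivity
  -- the points present at `ω`
  have hcard : ∀ ω : Ω, ∀ i, ((Finset.univ.filter (fun i => ω ∈ R i)).filter
      (fun j => ‖y j ω - y i ω‖ ≤ D₀)).card ≤ C₀ := by
    intro ω i
    refine hC₀ I (fun j => y j ω) (Finset.univ.filter (fun i => ω ∈ R i)) ?_ (y i ω)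
    intro i hi j hj hij
    rw [Finset.mem_filter] at hi hj
    exact hP.hc i j hij ω hi.2 hj.2
  have hR1 : ∑ i, P (R i) = ∫⁻ x, ENNReal.ofReal (κ x) := by
    have h1 := hP.int1 (fun _ => 1) measurable_const
    simpa using h1
  have hconst : ∀ c : ENNReal, ∫⁻ ω, ∑ i, (if ω ∈ R i then c else 0) ∂P
      = c * ∫⁻ x, ENNReal.ofReal (κ x) := by
    intro c
    rw [lintegral_finsetSum]
    · rw [← hR1, Finset.mul_sum]
      refine Finset.sum_congr rfl fun i _ => ?_
      have h1 : (fun ω => if ω ∈ R i then c else 0) = (R i).indicator (fun _ => c) := by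
        funext ω
        rw [Set.indicator_apply]
      rw [h1, lintegral_indicator_const (hP.meas_R i)]
    · intro i _
      exact Measurable.ite (hP.meas_R i) measurable_const measurable_const
  have hmeasc : ∀ c : ENNReal, Measurable (fun ω => ∑ i, (if ω ∈ R i then c else 0)) := by
    intro c
    refine Finset.measurable_sum _ fun i _ => ?_
    exact Measurable.ite (hP.meas_R i) measurable_const measurable_const
  have hdist : ∀ i j, Measurable (fun ω => ‖y i ω - y j ω‖) := fun i j =>
    ((hP.meas_y i).sub (hP.meas_y j)).norm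
  have hfarset : ∀ i j, MeasurableSet (R i ∩ R j ∩ {ω | D₀ < ‖y i ω - y j ω‖}) := fun i j =>
    ((hP.meas_R i).inter (hP.meas_R j)).inter (measurableSet_lt measurable_const (hdist i j))
  -- the far pairs
  have hfar : ∀ F : E → E → ENNReal, Measurable (Function.uncurry F) →
      ∫⁻ ω, ∑ i, ∑ j ∈ Finset.univ.erase i,
          (if (ω ∈ R i ∧ ω ∈ R j) ∧ D₀ < ‖y i ω - y j ω‖ then F (y i ω) (y j ω) else 0) ∂P
        ≤ ∫⁻ x, ∫⁻ x', ENNReal.ofReal (κ x) * ENNReal.ofReal (κ x') * F x x' := by
    intro F hF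
    have hFm : ∀ i j, Measurable (fun ω => F (y i ω) (y j ω)) := fun i j =>
      hF.comp ((hP.meas_y i).prodMk (hP.meas_y j))
    have hm : ∀ i j, Measurable (fun ω => if (ω ∈ R i ∧ ω ∈ R j) ∧ D₀ < ‖y i ω - y j ω‖
        then F (y i ω) (y j ω) else 0) := fun i j =>
      Measurable.ite (hfarset i j) (hFm i j) measurable_const
    rw [lintegral_finsetSum _ (fun i _ => Finset.measurable_sum _ (fun j _ => hm i j))]
    refine le_trans (le_of_eq ?_) (hP.int2 F hF)
    refine Finset.sum_congr rfl fun i _ => ?_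
    rw [lintegral_finsetSum _ (fun j _ => hm i j)]
    refine Finset.sum_congr rfl fun j _ => ?_
    rw [← lintegral_indicator (hfarset i j)]
    refine lintegral_congr fun ω => ?_
    rw [Set.indicator_apply]
    rfl
  constructor
  · intro f b hf hfb
    have hb : 0 ≤ b := (hfb 0).1.trans (hfb 0).2
    set g : E → ENNReal := fun x => ENNReal.ofReal (f x) with hg
    have hgm : Measurable g := hf.ennreal_ofReal
    have hgb : ∀ x, g x ≤ ENNReal.ofReal b := fun x => ENNReal.ofReal_le_ofReal (hfb x).2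
    have hpt : ∀ ω, (∑ i, (R i).indicator (fun ω => ENNReal.ofReal (f (y i ω))) ω) ^ 2
        ≤ ∑ i, ∑ j ∈ Finset.univ.erase i,
            (if (ω ∈ R i ∧ ω ∈ R j) ∧ D₀ < ‖y i ω - y j ω‖ then g (y i ω) * g (y j ω) else 0)
          + ∑ i, (if ω ∈ R i then ENNReal.ofReal (C * b ^ 2) else 0) := by
      intro ω
      set T : Finset I := Finset.univ.filter (fun i => ω ∈ R i) with hT
      have hTm : ∀ i, i ∈ T ↔ ω ∈ R i := by intro i; simp [hT]
      have h1 : ∑ i, (R i).indicator (fun ω => ENNReal.ofReal (f (y i ω))) ω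
          = ∑ i, (if i ∈ T then g (y i ω) else 0) := by
        refine Finset.sum_congr rfl fun i _ => ?_
        rw [Set.indicator_apply]
        simp only [hTm, hg]
      have h2 : (∑ i, (if i ∈ T then g (y i ω) else 0)) ^ 2
          = ∑ i, ∑ j ∈ Finset.univ.erase i, (if i ∈ T ∧ j ∈ T then g (y i ω) * g (y j ω) else 0)
            + ∑ i, (if i ∈ T then g (y i ω) * g (y i ω) else 0) := by
        rw [sq, Finset.sum_mul_sum, ← Finset.sum_add_distrib]
        refine Finset.sum_congr rfl fun i _ => ?_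
        rw [← Finset.sum_erase_add _ _ (Finset.mem_univ i)]
        congr 1
        · refine Finset.sum_congr rfl fun j _ => ?_
          by_cases hi : i ∈ T <;> by_cases hj : j ∈ T <;> simp [hi, hj]
        · by_cases hi : i ∈ T <;> simp [hi]
      have h3 := nf (D₀ := D₀) (C₀ := C₀) T (fun i => y i ω) (hcard ω)
        (fun i j => g (y i ω) * g (y j ω)) (ENNReal.ofReal b * ENNReal.ofReal b)
        (fun i _ j _ _ => mul_le_mul' (hgb _) (hgb _))
      have h4 : ∑ i, (if i ∈ T then g (y i ω) * g (y i ω) else 0)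
          ≤ ∑ i, (if i ∈ T then ENNReal.ofReal b * ENNReal.ofReal b else 0) := by
        refine Finset.sum_le_sum fun i _ => ?_
        by_cases hi : i ∈ T
        · rw [if_pos hi, if_pos hi]
          exact mul_le_mul' (hgb _) (hgb _)
        · rw [if_neg hi, if_neg hi]
      rw [h1, h2]
      refine (add_le_add h3 h4).trans ?_
      rw [add_assoc, ← Finset.sum_add_distrib]
      simp only [hTm]
      refine add_le_add le_rfl (Finset.sum_le_sum fun i _ => ?_)
      by_cases hi : ω ∈ R i
      · rw [if_pos hi, if_pos hi, if_pos hi]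
        have h5 : (C₀ : ENNReal) * (ENNReal.ofReal b * ENNReal.ofReal b)
            + ENNReal.ofReal b * ENNReal.ofReal b = ENNReal.ofReal ((C₀ + 1) * b ^ 2) := by
          rw [← ENNReal.ofReal_mul hb, ← ENNReal.ofReal_natCast C₀,
            ← ENNReal.ofReal_mul (by positivity), ← ENNReal.ofReal_add (by positivity)
              (by positivity)]
          congr 1
          ring
        rw [h5]
        refine ENNReal.ofReal_le_ofReal ?_
        have hb2 : (0:ℝ) ≤ b ^ 2 := by positivity
        refine mul_le_mul_of_nonneg_right ?_ hb2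
        rw [hC]
        linarith
      · rw [if_neg hi, if_neg hi, if_neg hi, add_zero]
    refine (lintegral_mono hpt).trans ?_
    rw [lintegral_add_right _ (hmeasc _), hconst]
    refine add_le_add ?_ le_rfl
    refine (hfar (fun x x' => g x * g x') ?_).trans (le_of_eq ?_)
    · exact (hgm.comp measurable_fst).mul (hgm.comp measurable_snd)
    · have hκm : Measurable (fun x => ENNReal.ofReal (κ x)) := hκ.ennreal_ofReal
      have hκg : Measurable (fun x => ENNReal.ofReal (κ x) * g x) := hκm.mul hgm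
      have h6 : ∀ x : E, ∫⁻ x', ENNReal.ofReal (κ x) * ENNReal.ofReal (κ x') * (g x * g x')
          = (ENNReal.ofReal (κ x) * g x) * ∫⁻ x', ENNReal.ofReal (κ x') * g x' := by
        intro x
        rw [← lintegral_const_mul _ hκg]
        refine lintegral_congr fun x' => ?_
        ring
      simp only [h6]
      rw [lintegral_mul_const _ hκg, sq]
  · have hpt : ∀ ω, ∑ i, ∑ j ∈ Finset.univ.erase i,
        (R i ∩ R j).indicator (fun ω => ENNReal.ofReal ‖y i ω - y j ω‖⁻¹) ω
        ≤ ∑ i, ∑ j ∈ Finset.univ.erase i,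
            (if (ω ∈ R i ∧ ω ∈ R j) ∧ D₀ < ‖y i ω - y j ω‖
              then (fun x x' : E => ENNReal.ofReal ‖x - x'‖⁻¹) (y i ω) (y j ω) else 0)
          + ∑ i, (if ω ∈ R i then ENNReal.ofReal C else 0) := by
      intro ω
      set T : Finset I := Finset.univ.filter (fun i => ω ∈ R i) with hT
      have hTm : ∀ i, i ∈ T ↔ ω ∈ R i := by intro i; simp [hT]
      have h3 := nf (D₀ := D₀) (C₀ := C₀) T (fun i => y i ω) (hcard ω)
        (fun i j => ENNReal.ofReal ‖y i ω - y j ω‖⁻¹) (ENNReal.ofReal a⁻¹)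
        (fun i hi j hj hij => by
          refine ENNReal.ofReal_le_ofReal ?_
          exact inv_anti₀ ha (hP.hc i j hij ω ((hTm i).mp hi) ((hTm j).mp hj)))
      simp only [hTm] at h3
      have h1 : ∑ i, ∑ j ∈ Finset.univ.erase i,
          (R i ∩ R j).indicator (fun ω => ENNReal.ofReal ‖y i ω - y j ω‖⁻¹) ω
          = ∑ i, ∑ j ∈ Finset.univ.erase i,
            (if ω ∈ R i ∧ ω ∈ R j then ENNReal.ofReal ‖y i ω - y j ω‖⁻¹ else 0) := by
        refine Finset.sum_congr rfl fun i _ => Finset.sum_congr rfl fun j _ => ?_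
        rw [Set.indicator_apply]
        rfl
      rw [h1]
      refine h3.trans (add_le_add le_rfl (Finset.sum_le_sum fun i _ => ?_))
      by_cases hi : ω ∈ R i
      · rw [if_pos hi, if_pos hi, ← ENNReal.ofReal_natCast C₀,
          ← ENNReal.ofReal_mul (by positivity)]
        refine ENNReal.ofReal_le_ofReal ?_
        rw [hC]
        linarith
      · rw [if_neg hi, if_neg hi]
    refine (lintegral_mono hpt).trans ?_
    rw [lintegral_add_right _ (hmeasc _), hconst]
    refine add_le_add ?_ le_rfl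
    refine hfar (fun x x' => ENNReal.ofReal ‖x - x'‖⁻¹) ?_
    exact ((measurable_fst.sub measurable_snd).norm.inv).ennreal_ofReal

end Pool.Agent.JEL
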