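import Pool.Agent.JEL.Stmts

/-!
# JEL, module Newt: potential of a ball of unit density
-/

open MeasureTheory Set Filter Topology
open scoped Real ENNReal

namespace Pool.Agent.JEL

namespace Newt_

/-- fundamental theorem of calculus for a monotone primitive, as a lower integral -/
lemma lint_deriv {g g' : ℝ → ℝ} {a b : ℝ} (hab : a ≤ b) (hc : ContinuousOn g (Icc a b))
    (hd : ∀ x ∈ Ioo a b, HasDerivAt g (g' x) x) (hp : ∀ x ∈ Ioo a b, 0 ≤ g' x) :
    ∫⁻ x in Ioc a b, ENNReal.ofReal (g' x) = ENNReal.ofReal (g b - g a) := by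
  have hint : IntegrableOn g' (Ioc a b) :=
    intervalIntegral.integrableOn_deriv_of_nonneg hc hd hp
  have hI : ∫ x in a..b, g' x = g b - g a :=
    intervalIntegral.integral_eq_sub_of_hasDerivAt_of_le hab hc hd
      ((intervalIntegrable_iff_integrableOn_Ioc_of_le hab).2 hint)
  rw [intervalIntegral.integral_of_le hab] at hI
  rw [← hI]
  refine (ofReal_integral_eq_lintegral_ofReal hint ?_).symm
  have h2 : ∀ᵐ x ∂(volume.restrict (Ioo a b)), 0 ≤ g' x :=
    (ae_restrict_iff' measurableSet_Ioo).2 (Eventually.of_forall hp)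
  rw [restrict_Ioo_eq_restrict_Ioc] at h2
  exact h2

/-- the radial integral -/
lemma inner_int (A c : ℝ) (hA : 0 ≤ A) :
    ∫⁻ u in Ioc 0 A, ENNReal.ofReal ((Real.sqrt (u + c ^ 2))⁻¹)
      = ENNReal.ofReal (2 * (Real.sqrt (A + c ^ 2) - |c|)) := by
  have hd : ∀ u ∈ Ioo 0 A, HasDerivAt (fun u : ℝ => 2 * Real.sqrt (u + c ^ 2))
      ((Real.sqrt (u + c ^ 2))⁻¹) u := by
    intro u hu
    have hpos : 0 < u + c ^ 2 := by have := hu.1; positivity
    have h1 : HasDerivAt (fun u : ℝ => u + c ^ 2) 1 u := (hasDerivAt_id u).add_const _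
    have h2 := (h1.sqrt hpos.ne').const_mul 2
    refine h2.congr_deriv ?_
    have : Real.sqrt (u + c ^ 2) ≠ 0 := (Real.sqrt_pos.2 hpos).ne'
    field_simp
  have hc : ContinuousOn (fun u : ℝ => 2 * Real.sqrt (u + c ^ 2)) (Icc 0 A) := by
    fun_prop
  rw [lint_deriv hA hc hd (fun u _ => by positivity)]
  congr 1
  simp only [zero_add, Real.sqrt_sq_eq_abs]
  ring

/-- the primitive of `|x|` -/
lemma hasDerivAt_mul_abs (x : ℝ) : HasDerivAt (fun x : ℝ => x * |x|) (2 * |x|) x := by
  rcases lt_trichotomy x 0 with h | h | h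
  · have h1 : HasDerivAt (fun x : ℝ => x * (-x)) (1 * (-x) + x * (-1)) x :=
      (hasDerivAt_id x).mul (hasDerivAt_id x).neg
    have h2 : (fun x : ℝ => x * |x|) =ᶠ[𝓝 x] fun x => x * (-x) := by
      filter_upwards [Iio_mem_nhds h] with y hy
      rw [abs_of_neg hy]
    refine (h1.congr_of_eventuallyEq h2).congr_deriv ?_
    rw [abs_of_neg h]; ring
  · subst h
    rw [hasDerivAt_iff_isLittleO_nhds_zero]
    simp only [zero_add, abs_zero, mul_zero, sub_zero, smul_zero]
    rw [Asymptotics.isLittleO_iff]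
    intro c hc
    filter_upwards [Metric.ball_mem_nhds (0:ℝ) hc] with y hy
    rw [Metric.mem_ball, dist_zero_right, Real.norm_eq_abs] at hy
    rw [Real.norm_eq_abs, Real.norm_eq_abs, abs_mul, abs_abs]
    exact mul_le_mul_of_nonneg_right hy.le (abs_nonneg y)
  · have h1 : HasDerivAt (fun x : ℝ => x * x) (1 * x + x * 1) x :=
      (hasDerivAt_id x).mul (hasDerivAt_id x)
    have h2 : (fun x : ℝ => x * |x|) =ᶠ[𝓝 x] fun x => x * x := by
      filter_upwards [Ioi_mem_nhds h] with y hy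
      rw [abs_of_pos hy]
    refine (h1.congr_of_eventuallyEq h2).congr_deriv ?_
    rw [abs_of_pos h]; ring

/-- value of the one dimensional integral -/
lemma nt_nonneg {R t : ℝ} (hR : 0 < R) (ht : 0 ≤ t) : 0 ≤ nt R t := by
  unfold nt vb
  have hpi := Real.pi_pos
  split_ifs with h
  · have h2 : t ^ 2 ≤ R ^ 2 := pow_le_pow_left₀ ht h 2
    nlinarith [mul_nonneg hpi.le (sub_nonneg.2 h2), mul_nonneg hpi.le (sq_nonneg R)]
  · positivity

lemma outer_int (R t : ℝ) (hR : 0 < R) (ht : 0 ≤ t) :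
    ∫⁻ z in Ioc (-R) R, ENNReal.ofReal
        (2 * π * (Real.sqrt (R ^ 2 + t ^ 2 - 2 * z * t) - |z - t|))
      = ENNReal.ofReal (nt R t) := by
  have hpi := Real.pi_pos
  have hnn : ∀ z ∈ Ioo (-R) R,
      0 ≤ 2 * π * (Real.sqrt (R ^ 2 + t ^ 2 - 2 * z * t) - |z - t|) := by
    intro z hz
    refine mul_nonneg (by positivity) (sub_nonneg.2 (Real.le_sqrt_of_sq_le ?_))
    rw [sq_abs]
    nlinarith [mul_pos (sub_pos.2 hz.1) (sub_pos.2 hz.2), hz.1, hz.2]
  have habs : ∀ z : ℝ, HasDerivAt (fun z : ℝ => (z - t) * |z - t|) (2 * |z - t|) z := by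
    intro z
    have h1 : HasDerivAt (fun z : ℝ => z - t) 1 z := (hasDerivAt_id z).sub_const _
    have h2 := (hasDerivAt_mul_abs (z - t)).comp z h1
    simpa [Function.comp_def] using h2
  rcases ht.eq_or_lt with h0 | h0
  · subst h0
    have hd : ∀ z ∈ Ioo (-R) R, HasDerivAt
        (fun z : ℝ => 2 * π * (R * z - (z - 0) * |z - 0| / 2))
        (2 * π * (Real.sqrt (R ^ 2 + 0 ^ 2 - 2 * z * 0) - |z - 0|)) z := by
      intro z _
      have h1 : HasDerivAt (fun z : ℝ => R * z) (R * 1) z := (hasDerivAt_id z).const_mul R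
      have h3 := (h1.sub ((habs z).div_const 2)).const_mul (2 * π)
      refine HasDerivAt.congr_deriv h3 ?_
      have : Real.sqrt (R ^ 2 + 0 ^ 2 - 2 * z * 0) = R := by
        rw [show R ^ 2 + 0 ^ 2 - 2 * z * 0 = R ^ 2 by ring, Real.sqrt_sq hR.le]
      rw [this]; ring
    have hc : ContinuousOn (fun z : ℝ => 2 * π * (R * z - (z - 0) * |z - 0| / 2))
        (Icc (-R) R) := by fun_prop
    rw [lint_deriv (by linarith) hc hd hnn]
    congr 1
    simp only [sub_zero, abs_neg, abs_of_pos hR]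
    rw [nt, if_pos hR.le]
    ring
  · have hd : ∀ z ∈ Ioo (-R) R, HasDerivAt
        (fun z : ℝ => 2 * π * (-((R ^ 2 + t ^ 2 - 2 * z * t) *
          Real.sqrt (R ^ 2 + t ^ 2 - 2 * z * t)) / (3 * t) - (z - t) * |z - t| / 2))
        (2 * π * (Real.sqrt (R ^ 2 + t ^ 2 - 2 * z * t) - |z - t|)) z := by
      intro z hz
      have hw : 0 < R ^ 2 + t ^ 2 - 2 * z * t := by
        nlinarith [sq_nonneg (R - t), mul_pos (sub_pos.2 hz.2) h0]
      have h1 : HasDerivAt (fun z : ℝ => R ^ 2 + t ^ 2 - 2 * z * t) (-(2 * t)) z := by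
        have h := (((hasDerivAt_id z).const_mul 2).mul_const t).const_sub (R ^ 2 + t ^ 2)
        simpa using h
      have h2 := h1.sqrt hw.ne'
      have h3 := ((((h1.mul h2).neg).div_const (3 * t)).sub
        ((habs z).div_const 2)).const_mul (2 * π)
      refine HasDerivAt.congr_deriv h3 ?_
      set s := Real.sqrt (R ^ 2 + t ^ 2 - 2 * z * t) with hs
      have hs0 : 0 < s := Real.sqrt_pos.2 hw
      have hss : R ^ 2 + t ^ 2 - 2 * z * t = s ^ 2 := (Real.sq_sqrt hw.le).symm
      rw [hss]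
      field_simp
      ring
    have hc : ContinuousOn (fun z : ℝ => 2 * π * (-((R ^ 2 + t ^ 2 - 2 * z * t) *
          Real.sqrt (R ^ 2 + t ^ 2 - 2 * z * t)) / (3 * t) - (z - t) * |z - t| / 2))
        (Icc (-R) R) := by fun_prop
    rw [lint_deriv (by linarith) hc hd hnn]
    congr 1
    have e1 : R ^ 2 + t ^ 2 - 2 * R * t = (R - t) ^ 2 := by ring
    have e2 : R ^ 2 + t ^ 2 - 2 * (-R) * t = (R + t) ^ 2 := by ring
    have e3 : |-R - t| = R + t := by
      rw [abs_of_nonpos (by linarith)]; ring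
    simp only [e1, e2, e3, Real.sqrt_sq_eq_abs, abs_of_pos (add_pos hR h0)]
    unfold nt vb
    split_ifs with h
    · rw [abs_of_nonneg (sub_nonneg.2 h)]
      field_simp
      ring
    · rw [abs_of_neg (by linarith : R - t < 0)]
      field_simp
      ring

lemma norm_sq3 (y : E) : ‖y‖ ^ 2 = y 2 ^ 2 + (y 0 ^ 2 + y 1 ^ 2) := by
  rw [EuclideanSpace.real_norm_sq_eq, Fin.sum_univ_three]; ring

lemma norm_toE_sub (t : ℝ) (y : E) :
    ‖toE ![0, 0, t] - y‖ = Real.sqrt (y 0 ^ 2 + y 1 ^ 2 + (y 2 - t) ^ 2) := by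
  rw [← Real.sqrt_sq (norm_nonneg (toE ![0, 0, t] - y)), norm_sq3]
  congr 1
  simp [toE]
  ring

/-- the potential at the point `t e₃` -/
lemma lint_axis (hAxi : Stmt_Axi) (R t : ℝ) (hR : 0 < R) (ht : 0 ≤ t) :
    ∫⁻ y in cB (0:E) R, ENNReal.ofReal (‖toE ![0, 0, t] - y‖⁻¹) = ENNReal.ofReal (nt R t) := by
  set f : ℝ → ℝ → ENNReal := fun z u =>
    if z ^ 2 + u ≤ R ^ 2 then ENNReal.ofReal ((Real.sqrt (u + (z - t) ^ 2))⁻¹) else 0 with hf
  have hfm : Measurable (Function.uncurry f) := by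
    refine Measurable.ite (measurableSet_le (by fun_prop) (by fun_prop)) ?_ measurable_const
    exact (Measurable.inv (by fun_prop)).ennreal_ofReal
  have h1 : ∫⁻ y in cB (0:E) R, ENNReal.ofReal (‖toE ![0, 0, t] - y‖⁻¹)
      = ∫⁻ y : E, f (y 2) (y 0 ^ 2 + y 1 ^ 2) := by
    rw [← lintegral_indicator Metric.isClosed_closedBall.measurableSet]
    refine lintegral_congr fun y => ?_
    have hiff : y ∈ cB (0:E) R ↔ (y 2 ^ 2 + (y 0 ^ 2 + y 1 ^ 2) ≤ R ^ 2) := by
      rw [← norm_sq3, Metric.mem_closedBall, dist_zero_right]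
      exact (sq_le_sq₀ (norm_nonneg y) hR.le).symm
    by_cases hy : y ∈ cB (0:E) R
    · rw [Set.indicator_of_mem hy, norm_toE_sub]
      simp only [hf]
      rw [if_pos (hiff.1 hy)]
    · rw [Set.indicator_of_notMem hy]
      simp only [hf]
      rw [if_neg (fun h => hy (hiff.2 h))]
  rw [h1, hAxi f hfm]
  have h2 : ∀ z : ℝ, ∫⁻ u in Ioi (0:ℝ), ENNReal.ofReal π * f z u
      = (Ioc (-R) R).indicator (fun z => ENNReal.ofReal
        (2 * π * (Real.sqrt (R ^ 2 + t ^ 2 - 2 * z * t) - |z - t|))) z := by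
    intro z
    have h3 : ∫⁻ u in Ioi (0:ℝ), ENNReal.ofReal π * f z u
        = ENNReal.ofReal π *
          ∫⁻ u in Ioc 0 (R ^ 2 - z ^ 2), ENNReal.ofReal ((Real.sqrt (u + (z - t) ^ 2))⁻¹) := by
      rw [lintegral_const_mul' _ _ ENNReal.ofReal_ne_top]
      congr 1
      rw [← Ioi_inter_Iic, Set.inter_comm, ← setLIntegral_indicator measurableSet_Iic]
      refine lintegral_congr fun u => ?_
      simp only [hf, Set.indicator_apply, Set.mem_Iic]
      have : (z ^ 2 + u ≤ R ^ 2) ↔ (u ≤ R ^ 2 - z ^ 2) := by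
        constructor <;> intro h <;> linarith
      simp only [this]
    rw [h3]
    by_cases hz : z ∈ Ioc (-R) R
    · rw [Set.indicator_of_mem hz]
      have hA : 0 ≤ R ^ 2 - z ^ 2 := by nlinarith [hz.1, hz.2]
      rw [inner_int _ _ hA, ← ENNReal.ofReal_mul Real.pi_pos.le]
      congr 1
      rw [show R ^ 2 - z ^ 2 + (z - t) ^ 2 = R ^ 2 + t ^ 2 - 2 * z * t by ring]
      ring
    · rw [Set.indicator_of_notMem hz]
      have hA : R ^ 2 - z ^ 2 ≤ 0 := by
        rw [Set.mem_Ioc, not_and_or, not_lt, not_le] at hz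
        rcases hz with hz | hz <;> nlinarith
      rw [Set.Ioc_eq_empty (not_lt.2 hA)]
      simp
  rw [lintegral_congr h2, lintegral_indicator measurableSet_Ioc, outer_int R t hR ht]

lemma int_axis (hAxi : Stmt_Axi) (R t : ℝ) (hR : 0 < R) (ht : 0 ≤ t) :
    ∫ y in cB (0:E) R, ‖toE ![0, 0, t] - y‖⁻¹ = nt R t := by
  rw [integral_eq_lintegral_of_nonneg_ae (Eventually.of_forall fun y => by positivity),
    lint_axis hAxi R t hR ht, ENNReal.toReal_ofReal (nt_nonneg hR ht)]
  exact (Measurable.inv (by fun_prop)).aestronglyMeasurable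

end Newt_

open Newt_ in
theorem Newt_proof (hAxi : Stmt_Axi) (hIso : Stmt_Iso) (hLens : Stmt_Lens) : Stmt_Newt := by
  have first : ∀ (R : ℝ) (z x : E), 0 < R → ∫ y in cB z R, ‖x - y‖⁻¹ = nt R ‖x - z‖ := by
    intro R z x hR
    obtain ⟨g, hg⟩ := hIso (x - z)
    rw [← int_axis hAxi R ‖x - z‖ hR (norm_nonneg _), ← hg]
    -- translation
    have hT : MeasurePreserving (fun y : E => g.symm y + z) volume volume :=
      (measurePreserving_add_right volume z).comp g.symm.measurePreserving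
    have hE : MeasurableEmbedding (fun y : E => g.symm y + z) :=
      (measurableEmbedding_addRight z).comp g.symm.toHomeomorph.measurableEmbedding
    rw [← hT.setIntegral_preimage_emb hE]
    have hpre : (fun y : E => g.symm y + z) ⁻¹' cB z R = cB (0:E) R := by
      ext y
      simp [Metric.mem_closedBall, dist_eq_norm]
    rw [hpre]
    refine integral_congr_ae (Eventually.of_forall fun y => ?_)
    simp only
    congr 1
    rw [← g.norm_map (x - (g.symm y + z))]
    congr 1
    rw [map_sub, map_add, map_sub, g.apply_symm_apply]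
    abel
  refine ⟨first, ?_⟩
  intro R t hR ht
  have hpi := Real.pi_pos
  -- value at the centre
  have hcen : ∀ r : ℝ, 0 ≤ r → ∫ y in cB (0:E) r, ‖y‖⁻¹ = 2 * π * r ^ 2 := by
    intro r hr
    rcases hr.eq_or_lt with h | h
    · subst h
      simp
    · have := first r 0 0 h
      simp only [zero_sub, norm_neg, sub_zero, norm_zero] at this
      rw [this, nt, if_pos h.le]; ring
  have hball : ∀ r : ℝ, 0 ≤ r → volume.real (cB (0:E) r) = vb r := fun r hr => hLens.1 0 r hr
  rcases lt_or_ge R t with h | h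
  · have h1 : ∫ y in cB (0:E) R, (max t ‖y‖)⁻¹ = ∫ y in cB (0:E) R, t⁻¹ := by
      refine setIntegral_congr_fun Metric.isClosed_closedBall.measurableSet fun y hy => ?_
      rw [Metric.mem_closedBall, dist_zero_right] at hy
      rw [max_eq_left (hy.trans h.le)]
    rw [h1, setIntegral_const, hball R hR.le, nt, if_neg (not_le.2 h), smul_eq_mul]
    rfl
  · have hmeas : ∀ r : ℝ, MeasurableSet (cB (0:E) r) :=
      fun r => Metric.isClosed_closedBall.measurableSet
    have hint : IntegrableOn (fun y : E => ‖y‖⁻¹) (cB (0:E) R) := by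
      by_contra hcon
      have := integral_undef hcon
      rw [hcen R hR.le] at this
      have h2 : 0 < 2 * π * R ^ 2 := by positivity
      linarith
    have hsub : cB (0:E) t ⊆ cB (0:E) R := Metric.closedBall_subset_closedBall h
    have hint2 : IntegrableOn (fun y : E => ‖y‖⁻¹) (cB (0:E) t) := hint.mono_set hsub
    have hint3 : IntegrableOn (fun y : E => (max t ‖y‖)⁻¹) (cB (0:E) t) := by
      have h1 : IntegrableOn (fun _ : E => t⁻¹) (cB (0:E) t) := by
        rw [integrableOn_const_iff]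
        right
        exact (isCompact_closedBall (0:E) t).measure_lt_top
      refine h1.congr_fun (fun y hy => ?_) (hmeas t)
      rw [Metric.mem_closedBall, dist_zero_right] at hy
      simp only
      rw [max_eq_left hy]
    have hdiff : ∀ y ∈ cB (0:E) R \ cB (0:E) t, (max t ‖y‖)⁻¹ = ‖y‖⁻¹ := by
      intro y hy
      have := hy.2
      rw [Metric.mem_closedBall, dist_zero_right, not_le] at this
      rw [max_eq_right this.le]
    have hint4 : IntegrableOn (fun y : E => (max t ‖y‖)⁻¹) (cB (0:E) R \ cB (0:E) t) :=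
      (hint.mono_set sdiff_subset).congr_fun (fun y hy => (hdiff y hy).symm)
        ((hmeas R).diff (hmeas t))
    have hint5 : IntegrableOn (fun y : E => (max t ‖y‖)⁻¹) (cB (0:E) R) := by
      have := hint3.union hint4
      rwa [Set.union_sdiff_cancel hsub] at this
    have e1 := setIntegral_sdiff (hmeas t) hint hsub
    have e2 := setIntegral_sdiff (hmeas t) hint5 hsub
    have e3 : ∫ y in cB (0:E) R \ cB (0:E) t, (max t ‖y‖)⁻¹
        = ∫ y in cB (0:E) R \ cB (0:E) t, ‖y‖⁻¹ :=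
      setIntegral_congr_fun ((hmeas R).diff (hmeas t)) hdiff
    have e4 : ∫ y in cB (0:E) t, (max t ‖y‖)⁻¹ = vb t * t⁻¹ := by
      have h1 : ∫ y in cB (0:E) t, (max t ‖y‖)⁻¹ = ∫ y in cB (0:E) t, t⁻¹ := by
        refine setIntegral_congr_fun (hmeas t) fun y hy => ?_
        rw [Metric.mem_closedBall, dist_zero_right] at hy
        rw [max_eq_left hy]
      rw [h1, setIntegral_const, hball t ht, smul_eq_mul]
    rw [hcen R hR.le, hcen t ht] at e1
    have e5 : ∫ y in cB (0:E) R, (max t ‖y‖)⁻¹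
        = 2 * π * R ^ 2 - 2 * π * t ^ 2 + vb t * t⁻¹ := by linarith
    rw [e5, nt, if_pos h, vb]
    rcases ht.eq_or_lt with h0 | h0
    · subst h0; simp
    · field_simp
      ring

end Pool.Agent.JEL
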