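import Pool.Agent.JEL.Stmts

/-! # JEL, module Pack: packings of the unit cube by finitely many balls -/

open MeasureTheory Set Filter Topology

namespace Pool.Agent.JEL

namespace Pack_

/-- the open unit cube -/
def U : Set E := {x | ∀ j : Fin 3, 0 < x j ∧ x j < 1}

theorem volume_U : volume U = 1 := by
  have h : U = (@WithLp.ofLp 2 (Fin 3 → ℝ)) ⁻¹' (Set.pi univ fun _ => Ioo (0:ℝ) 1) := by
    ext x
    simp [U, Set.mem_pi]
  rw [h, (PiLp.volume_preserving_ofLp (Fin 3)).measure_preimage
    (MeasurableSet.univ_pi fun _ => measurableSet_Ioo).nullMeasurableSet, Real.volume_pi_Ioo]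
  simp

/-- distance to the faces -/
noncomputable def Rf (x : E) : ℝ :=
  min (min (min (x 0) (1 - x 0)) (min (x 1) (1 - x 1))) (min (x 2) (1 - x 2))

theorem Rf_pos {x : E} (hx : x ∈ U) : 0 < Rf x := by
  have h0 := hx 0
  have h1 := hx 1
  have h2 := hx 2
  unfold Rf
  refine lt_min (lt_min (lt_min h0.1 ?_) (lt_min h1.1 ?_)) (lt_min h2.1 ?_) <;> linarith

theorem Rf_le (x : E) (j : Fin 3) : Rf x ≤ x j ∧ Rf x ≤ 1 - x j := by
  unfold Rf
  fin_cases j
  · exact ⟨(min_le_left _ _).trans ((min_le_left _ _).trans (min_le_left _ _)),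
      (min_le_left _ _).trans ((min_le_left _ _).trans (min_le_right _ _))⟩
  · exact ⟨(min_le_left _ _).trans ((min_le_right _ _).trans (min_le_left _ _)),
      (min_le_left _ _).trans ((min_le_right _ _).trans (min_le_right _ _))⟩
  · exact ⟨(min_le_right _ _).trans (min_le_left _ _),
      (min_le_right _ _).trans (min_le_right _ _)⟩

/-- a finite family of disjoint closed balls in the cube -/
theorem exists_family (ε : ℝ) (hε : 0 < ε) (hε1 : ε < 1) :
    ∃ (T : Finset E) (r : E → ℝ), T.Nonempty ∧ (∀ x ∈ T, 0 < r x ∧ ∀ j : Fin 3, r x < x j ∧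
      x j < 1 - r x) ∧ (∀ x ∈ T, ∀ y ∈ T, x ≠ y → r x + r y < ‖x - y‖) ∧
      1 - ε ≤ ∑ x ∈ T, volume.real (cB x (r x)) := by
  obtain ⟨t, r, tc, tU, tr, tcov, tdisj⟩ :=
    Besicovitch.exists_disjoint_closedBall_covering_ae (volume : Measure E) (fun _ => Ioi 0) U
      (fun x _ δ hδ => ⟨δ / 2, by simp only [mem_inter_iff, mem_Ioi, mem_Ioo]
                                  constructor
                                  · positivity
                                  · constructor
                                    · positivity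
                                    · linarith⟩) Rf
      (fun x hx => Rf_pos hx)
  have h1 : (1 : ENNReal) ≤ volume (⋃ x ∈ t, Metric.closedBall x (r x)) := by
    calc (1 : ENNReal) = volume U := volume_U.symm
      _ ≤ volume ((U \ ⋃ x ∈ t, Metric.closedBall x (r x)) ∪ ⋃ x ∈ t, Metric.closedBall x (r x)) :=
          measure_mono (by
            intro x hx
            by_cases h : x ∈ ⋃ x ∈ t, Metric.closedBall x (r x)
            · exact Or.inr h
            · exact Or.inl ⟨hx, h⟩)
      _ ≤ volume (U \ ⋃ x ∈ t, Metric.closedBall x (r x))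
          + volume (⋃ x ∈ t, Metric.closedBall x (r x)) := measure_union_le _ _
      _ = volume (⋃ x ∈ t, Metric.closedBall x (r x)) := by rw [tcov, zero_add]
  have h2 : volume (⋃ x ∈ t, Metric.closedBall x (r x))
      = ∑' x : t, volume (Metric.closedBall (x : E) (r x)) :=
    measure_biUnion tc tdisj (fun x _ => measurableSet_closedBall)
  rw [h2] at h1
  have h3 : ENNReal.ofReal (1 - ε) < ∑' x : t, volume (Metric.closedBall (x : E) (r x)) := by
    refine lt_of_lt_of_le ?_ h1
    rw [ENNReal.ofReal_lt_one]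
    linarith
  rw [ENNReal.tsum_eq_iSup_sum] at h3
  obtain ⟨s, hs⟩ := lt_iSup_iff.1 h3
  have hsne : s.Nonempty := by
    by_contra h
    rw [Finset.not_nonempty_iff_eq_empty] at h
    rw [h, Finset.sum_empty] at hs
    exact absurd hs (by simp)
  have hpos : ∀ x ∈ t, 0 < r x := fun x hx => (tr x hx).2.1
  refine ⟨s.map (Function.Embedding.subtype _), r, hsne.map, ?_, ?_, ?_⟩
  · intro x hx
    obtain ⟨y, hy, rfl⟩ := Finset.mem_map.1 hx
    have hyt : (y : E) ∈ t := y.2
    refine ⟨hpos _ hyt, fun j => ?_⟩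
    have hlt := (tr _ hyt).2.2
    have := Rf_le (y : E) j
    simp only [Function.Embedding.coe_subtype]
    constructor <;> linarith
  · intro x hx y hy hxy
    obtain ⟨x', _, rfl⟩ := Finset.mem_map.1 hx
    obtain ⟨y', _, rfl⟩ := Finset.mem_map.1 hy
    simp only [Function.Embedding.coe_subtype] at hxy ⊢
    have hd := tdisj x'.2 y'.2 hxy
    have := (disjoint_closedBall_closedBall_iff (hpos _ x'.2).le (hpos _ y'.2).le).1 hd
    rwa [dist_eq_norm] at this
  · rw [Finset.sum_map]
    have h4 : ∑ x ∈ s, volume (Metric.closedBall (x : E) (r x))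
        = ENNReal.ofReal (∑ x ∈ s, volume.real (Metric.closedBall (x : E) (r x))) := by
      rw [ENNReal.ofReal_sum_of_nonneg (fun _ _ => measureReal_nonneg)]
      refine Finset.sum_congr rfl fun x _ => ?_
      rw [Measure.real, ENNReal.ofReal_toReal measure_closedBall_lt_top.ne]
    rw [h4] at hs
    have := (ENNReal.ofReal_lt_ofReal_iff_of_nonneg (by linarith)).1 hs
    exact this.le

end Pack_

open Pack_ in
theorem Pack_proof (hLens : Stmt_Lens) : Stmt_Pack := by
  intro ε hε
  obtain ⟨T, r, hne, hin, hsep, hvol⟩ :=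
    exists_family (min ε (1 / 2)) (lt_min hε (by norm_num))
      (lt_of_le_of_lt (min_le_right _ _) (by norm_num))
  set c : Fin T.card → E := fun i => (T.equivFin.symm i : E) with hc
  set q : Fin T.card → ℝ := fun i => r (c i) with hq
  have hcT : ∀ i, c i ∈ T := fun i => (T.equivFin.symm i).2
  have hcinj : ∀ i i', i ≠ i' → c i ≠ c i' := fun i i' h h' =>
    h (T.equivFin.symm.injective (Subtype.ext h'))
  have hev : ∀ᶠ γ in 𝓝[>] (0:ℝ), 0 < γ ∧
      (∀ i, ∀ j : Fin 3, q i + γ < c i j ∧ c i j < 1 - (q i + γ)) ∧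
      (∀ i i', i ≠ i' → q i + q i' + 2 * γ < ‖c i - c i'‖) := by
    refine (eventually_mem_nhdsWithin).and (Filter.Eventually.and ?_ ?_)
    · rw [Filter.eventually_all]
      intro i
      rw [Filter.eventually_all]
      intro j
      obtain ⟨_, h⟩ := hin _ (hcT i)
      have h1 : Tendsto (fun γ : ℝ => q i + γ) (𝓝[>] 0) (𝓝 (q i + 0)) :=
        (tendsto_const_nhds.add tendsto_id).mono_left nhdsWithin_le_nhds
      have h2 : Tendsto (fun γ : ℝ => 1 - (q i + γ)) (𝓝[>] 0) (𝓝 (1 - (q i + 0))) :=
        tendsto_const_nhds.sub h1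
      rw [add_zero] at h1 h2
      exact (h1.eventually_lt_const (h j).1).and (h2.eventually_const_lt (h j).2)
    · rw [Filter.eventually_all]
      intro i
      rw [Filter.eventually_all]
      intro i'
      by_cases hii : i = i'
      · exact Filter.Eventually.of_forall fun γ h => absurd hii h
      · have h := hsep _ (hcT i) _ (hcT i') (hcinj i i' hii)
        have h1 : Tendsto (fun γ : ℝ => q i + q i' + 2 * γ) (𝓝[>] 0)
            (𝓝 (q i + q i' + 2 * 0)) :=
          (tendsto_const_nhds.add (tendsto_const_nhds.mul tendsto_id)).mono_left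
            nhdsWithin_le_nhds
        rw [mul_zero, add_zero] at h1
        filter_upwards [h1.eventually_lt_const h] with γ hγ _
        exact hγ
  obtain ⟨γ, hγ, hins, hs⟩ := hev.exists
  refine ⟨T.card, c, q, γ, ⟨Finset.card_pos.2 hne, hγ, fun i => (hin _ (hcT i)).1,
    fun i j => ⟨(hins i j).1.le, (hins i j).2.le⟩, fun i i' h => (hs i i' h).le⟩, ?_⟩
  have hfr : frac q = ∑ x ∈ T, volume.real (cB x (r x)) := by
    have h1 : ∀ x ∈ T, volume.real (cB x (r x)) = vb (r x) := fun x hx =>
      hLens.1 x (r x) (hin x hx).1.le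
    rw [Finset.sum_congr rfl h1, ← Finset.sum_coe_sort T (fun x => vb (r x))]
    unfold frac
    exact Fintype.sum_equiv T.equivFin.symm _ _ (fun i => rfl)
  rw [hfr]
  have := min_le_left ε (1 / 2)
  linarith

end Pool.Agent.JEL
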