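import Pool.Agent.JEL.Stmts

open MeasureTheory Set Filter Topology

namespace Pool.Agent.JEL

open scoped Real

namespace PdX

/-! ### Admissible functions -/

theorem adm_integrable {F : E → ℝ} (hF : Adm F) : Integrable F := by
  obtain ⟨b, hb⟩ := hF.bdd
  obtain ⟨R, hR⟩ := hF.supp
  have h : F = (cB (0:E) R).indicator F := by
    funext x
    by_cases hx : x ∈ cB (0:E) R
    · rw [indicator_of_mem hx]
    · rw [indicator_of_notMem hx]
      apply hR
      rw [Metric.mem_closedBall, dist_zero_right, not_le] at hx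
      exact hx
  rw [h, integrable_indicator_iff Metric.isClosed_closedBall.measurableSet]
  exact Measure.integrableOn_of_bounded (M := b) (measure_closedBall_lt_top.ne)
    hF.meas.aestronglyMeasurable (Eventually.of_forall fun x => by
      rw [Real.norm_eq_abs]; exact hb x)

theorem adm_abs {F : E → ℝ} (hF : Adm F) : Adm (fun x => |F x|) := by
  obtain ⟨b, hb⟩ := hF.bdd
  obtain ⟨R, hR⟩ := hF.supp
  refine ⟨hF.meas.abs, ⟨b, fun x => by rw [abs_abs]; exact hb x⟩, ⟨R, fun x hx => ?_⟩⟩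
  rw [hR x hx, abs_zero]

theorem adm_add {F G : E → ℝ} (hF : Adm F) (hG : Adm G) : Adm (fun x => F x + G x) := by
  obtain ⟨b, hb⟩ := hF.bdd
  obtain ⟨R, hR⟩ := hF.supp
  obtain ⟨b', hb'⟩ := hG.bdd
  obtain ⟨R', hR'⟩ := hG.supp
  refine ⟨hF.meas.add hG.meas, ⟨b + b', fun x => (abs_add_le _ _).trans (add_le_add (hb x) (hb' x))⟩,
    ⟨max R R', fun x hx => ?_⟩⟩
  rw [hR x (lt_of_le_of_lt (le_max_left _ _) hx), hR' x (lt_of_le_of_lt (le_max_right _ _) hx),
    add_zero]

theorem adm_mul {F G : E → ℝ} (hF : Adm F) (hG : Measurable G) {b' : ℝ} (hb' : ∀ x, |G x| ≤ b') :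
    Adm (fun x => F x * G x) := by
  obtain ⟨b, hb⟩ := hF.bdd
  obtain ⟨R, hR⟩ := hF.supp
  refine ⟨hF.meas.mul hG, ⟨b * b', fun x => ?_⟩, ⟨R, fun x hx => ?_⟩⟩
  · rw [abs_mul]
    exact mul_le_mul (hb x) (hb' x) (abs_nonneg _) ((abs_nonneg _).trans (hb x))
  · rw [hR x hx, zero_mul]

theorem adm_sum {n : ℕ} {F : Fin n → E → ℝ} (hF : ∀ i, Adm (F i)) :
    Adm (fun x => ∑ i, F i x) := by
  induction n with
  | zero =>
    simp only [Finset.univ_eq_empty, Finset.sum_empty]
    exact ⟨measurable_const, ⟨0, fun _ => by simp⟩, ⟨0, fun _ _ => rfl⟩⟩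
  | succ n ih =>
    simp only [Fin.sum_univ_succ]
    exact adm_add (hF 0) (ih fun i => hF i.succ)

/-! ### Indicators of balls -/

/-- indicator of the ball of radius `s` around `x`, at `z` -/
noncomputable def ph (s : ℝ) (x z : E) : ℝ := if ‖x - z‖ ≤ s then 1 else 0

theorem ph_nonneg (s : ℝ) (x z : E) : 0 ≤ ph s x z := by
  unfold ph
  split_ifs <;> norm_num

theorem ph_le (s : ℝ) (x z : E) : ph s x z ≤ 1 := by
  unfold ph
  split_ifs <;> norm_num

theorem ph_abs (s : ℝ) (x z : E) : |ph s x z| ≤ 1 := by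
  rw [abs_of_nonneg (ph_nonneg s x z)]
  exact ph_le s x z

theorem ph_comm (s : ℝ) (x z : E) : ph s x z = ph s z x := by
  unfold ph
  rw [norm_sub_rev]

theorem nm_meas : Measurable (fun p : E × E => ‖p.1 - p.2‖) :=
  (continuous_fst.sub continuous_snd).norm.measurable

theorem nm_meas' (x : E) : Measurable (fun y : E => ‖x - y‖) :=
  (continuous_const.sub continuous_id).norm.measurable

theorem ph_meas (s : ℝ) : Measurable (fun p : E × E => ph s p.1 p.2) := by
  have h : MeasurableSet {p : E × E | ‖p.1 - p.2‖ ≤ s} := measurableSet_le nm_meas measurable_const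
  exact Measurable.ite h measurable_const measurable_const

theorem ph_meas' (s : ℝ) : Measurable (fun p : E × E => ph s p.2 p.1) := by
  have h : Measurable (fun p : E × E => ph s p.1 p.2) := by
    exact ph_meas s
  have h2 : (fun p : E × E => ph s p.2 p.1) = fun p : E × E => ph s p.1 p.2 := by
    funext p
    exact ph_comm s p.2 p.1
  rw [h2]
  exact h

theorem ph_adm (s : ℝ) (x : E) : Adm (ph s x) := by
  have hm : Measurable (ph s x) := by
    have h : MeasurableSet {z : E | ‖x - z‖ ≤ s} := measurableSet_le (nm_meas' x) measurable_const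
    exact Measurable.ite h measurable_const measurable_const
  refine ⟨hm, ⟨1, ph_abs s x⟩, ⟨‖x‖ + s, fun z hz => ?_⟩⟩
  unfold ph
  rw [if_neg]
  intro h
  have h1 : ‖z‖ ≤ ‖x‖ + ‖x - z‖ := by
    have h2 := norm_sub_norm_le z x
    rw [norm_sub_rev] at h2
    linarith
  linarith

theorem ph_eq_ind (s : ℝ) (x z : E) : ph s x z = (cB x s).indicator (1 : E → ℝ) z := by
  unfold ph
  by_cases h : ‖x - z‖ ≤ s
  · rw [if_pos h, indicator_of_mem]
    · rfl
    · rw [Metric.mem_closedBall, dist_eq_norm, norm_sub_rev]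
      exact h
  · rw [if_neg h, indicator_of_notMem]
    rw [Metric.mem_closedBall, dist_eq_norm, norm_sub_rev]
    exact h

theorem int_ph (hL : Stmt_Lens) {s : ℝ} (hs : 0 < s) (x : E) : ∫ z, ph s x z = vb s := by
  have h : (fun z => ph s x z) = (cB x s).indicator (1 : E → ℝ) := by
    funext z
    exact ph_eq_ind s x z
  rw [h, integral_indicator_one Metric.isClosed_closedBall.measurableSet]
  exact hL.1 x s hs.le

theorem int_phph (hL : Stmt_Lens) {s : ℝ} (hs : 0 < s) (x y : E) :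
    ∫ z, ph s x z * ph s y z = lens s ‖x - y‖ := by
  have h : (fun z => ph s x z * ph s y z) = (cB x s ∩ cB y s).indicator (1 : E → ℝ) := by
    funext z
    rw [ph_eq_ind, ph_eq_ind, inter_indicator_one]
    rfl
  rw [h, integral_indicator_one (Metric.isClosed_closedBall.measurableSet.inter
    Metric.isClosed_closedBall.measurableSet)]
  exact hL.2 x y s hs

theorem lens_nonneg (hL : Stmt_Lens) {s : ℝ} (hs : 0 < s) (x y : E) : 0 ≤ lens s ‖x - y‖ := by
  rw [← int_phph hL hs]
  exact integral_nonneg fun z => mul_nonneg (ph_nonneg _ _ _) (ph_nonneg _ _ _)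

theorem lens_le (hL : Stmt_Lens) {s : ℝ} (hs : 0 < s) (x y : E) : lens s ‖x - y‖ ≤ vb s := by
  rw [← int_phph hL hs, ← int_ph hL hs x]
  refine integral_mono (adm_integrable (adm_mul (ph_adm s x) (ph_adm s y).meas (ph_abs s y)))
    (adm_integrable (ph_adm s x)) fun z => ?_
  exact mul_le_of_le_one_right (ph_nonneg _ _ _) (ph_le _ _ _)

theorem lens_meas : Measurable (fun p : ℝ × ℝ => lens p.1 p.2) := by
  unfold lens
  exact Measurable.ite (measurableSet_le measurable_snd (measurable_const.mul measurable_fst))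
    (by fun_prop) measurable_const

/-! ### Charges in balls -/

/-- charge in the ball of radius `s` around `z` -/
noncomputable def HF (F : E → ℝ) (s : ℝ) (z : E) : ℝ := ∫ y, F y * ph s y z

theorem HF_adm {F : E → ℝ} (hF : Adm F) (s : ℝ) : Adm (HF F s) := by
  have hint := adm_integrable hF
  obtain ⟨R, hR⟩ := hF.supp
  refine ⟨?_, ⟨∫ y, |F y|, fun z => ?_⟩, ⟨R + s, fun z hz => ?_⟩⟩
  · have h : Measurable (fun p : E × E => F p.2 * ph s p.2 p.1) :=
      (hF.meas.comp measurable_snd).mul (ph_meas' s)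
    exact (h.stronglyMeasurable.integral_prod_right').measurable
  · unfold HF
    rw [← Real.norm_eq_abs]
    refine (norm_integral_le_integral_norm _).trans ?_
    refine integral_mono_of_nonneg (Eventually.of_forall fun y => norm_nonneg _) hint.abs
      (Eventually.of_forall fun y => ?_)
    change ‖F y * ph s y z‖ ≤ |F y|
    rw [Real.norm_eq_abs, abs_mul]
    exact mul_le_of_le_one_right (abs_nonneg _) (ph_abs _ _ _)
  · unfold HF
    have h : ∀ y, F y * ph s y z = 0 := by
      intro y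
      by_cases hy : R < ‖y‖
      · rw [hR y hy, zero_mul]
      · unfold ph
        rw [if_neg, mul_zero]
        intro h1
        have h2 := norm_sub_norm_le z y
        rw [norm_sub_rev] at h2
        linarith
    simp only [h, integral_zero]

/-- Fubini for charges in balls -/
theorem FB {F : E → ℝ} (hF : Adm F) {h : E → ℝ} (hh : Measurable h) {b' : ℝ}
    (hb' : ∀ z, |h z| ≤ b') (s : ℝ) :
    ∫ z, h z * HF F s z = ∫ y, F y * ∫ z, h z * ph s y z := by
  obtain ⟨R, hR⟩ := hF.supp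
  have hR' : ∀ y, F y ≠ 0 → ‖y‖ ≤ R := by
    intro y hy
    by_contra hcon
    exact hy (hR y (not_le.1 hcon))
  have hint : Integrable (Function.uncurry fun (z y : E) => h z * (F y * ph s y z))
      (volume.prod volume) := by
    have hm : Measurable (Function.uncurry fun (z y : E) => h z * (F y * ph s y z)) :=
      (hh.comp measurable_fst).mul ((hF.meas.comp measurable_snd).mul (ph_meas' s))
    have hdom : Integrable (fun p : E × E => (cB (0:E) (R + s)).indicator (fun _ => b') p.1 *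
        |F p.2|) (volume.prod volume) := by
      refine Integrable.mul_prod (f := (cB (0:E) (R + s)).indicator (fun _ => b'))
        (g := fun y => |F y|) ?_ (adm_integrable hF).abs
      rw [integrable_indicator_iff Metric.isClosed_closedBall.measurableSet]
      exact integrableOn_const (hs := measure_closedBall_lt_top.ne)
    refine hdom.mono' hm.aestronglyMeasurable (Eventually.of_forall fun p => ?_)
    obtain ⟨z, y⟩ := p
    change ‖h z * (F y * ph s y z)‖ ≤ (cB (0:E) (R + s)).indicator (fun _ => b') z * |F y|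
    rw [Real.norm_eq_abs, abs_mul, abs_mul]
    by_cases hz : z ∈ cB (0:E) (R + s)
    · rw [indicator_of_mem hz]
      refine mul_le_mul (hb' z) ?_ (mul_nonneg (abs_nonneg _) (abs_nonneg _))
        ((abs_nonneg _).trans (hb' z))
      exact mul_le_of_le_one_right (abs_nonneg _) (ph_abs _ _ _)
    · rw [indicator_of_notMem hz, zero_mul]
      have h0 : F y * ph s y z = 0 := by
        by_cases hy : F y = 0
        · rw [hy, zero_mul]
        · unfold ph
          rw [if_neg, mul_zero]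
          intro h1
          apply hz
          rw [Metric.mem_closedBall, dist_zero_right]
          have h2 := norm_sub_norm_le z y
          rw [norm_sub_rev] at h2
          have h3 := hR' y hy
          linarith
      rw [← abs_mul, h0, abs_zero, mul_zero]
  have e1 : ∀ z, h z * HF F s z = ∫ y, h z * (F y * ph s y z) := by
    intro z
    rw [integral_const_mul]
    rfl
  simp only [e1]
  rw [integral_integral_swap hint]
  refine integral_congr_ae (Eventually.of_forall fun y => ?_)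
  change ∫ z, h z * (F y * ph s y z) = F y * ∫ z, h z * ph s y z
  rw [← integral_const_mul]
  refine integral_congr_ae (Eventually.of_forall fun z => ?_)
  change h z * (F y * ph s y z) = F y * (h z * ph s y z)
  ring

/-- charge density smeared with the lens kernel -/
noncomputable def LF (F : E → ℝ) (s : ℝ) (x : E) : ℝ := ∫ y, F y * lens s ‖x - y‖

theorem LF_eq (hL : Stmt_Lens) {F : E → ℝ} (hF : Adm F) {s : ℝ} (hs : 0 < s) (x : E) :
    LF F s x = ∫ z, ph s x z * HF F s z := by
  rw [FB hF (ph_adm s x).meas (ph_abs s x)]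
  unfold LF
  refine integral_congr_ae (Eventually.of_forall fun y => ?_)
  change F y * lens s ‖x - y‖ = F y * ∫ z, ph s x z * ph s y z
  rw [int_phph hL hs]

theorem LF_meas {F : E → ℝ} (hF : Adm F) : Measurable (fun p : ℝ × E => LF F p.1 p.2) := by
  have h : Measurable (fun p : (ℝ × E) × E => F p.2 * lens p.1.1 ‖p.1.2 - p.2‖) := by
    refine (hF.meas.comp measurable_snd).mul ?_
    have h2 : Measurable (fun p : (ℝ × E) × E => (p.1.1, ‖p.1.2 - p.2‖)) :=
      (measurable_fst.comp measurable_fst).prodMk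
        (((continuous_snd.comp continuous_fst).sub continuous_snd).norm.measurable)
    exact lens_meas.comp h2
  exact (h.stronglyMeasurable.integral_prod_right').measurable

theorem int_lens (hL : Stmt_Lens) {F : E → ℝ} (hF : Adm F) {s : ℝ} (hs : 0 < s) (x : E) :
    Integrable (fun y => F y * lens s ‖x - y‖) := by
  refine adm_integrable (adm_mul hF (b' := vb s) ?_ fun y => ?_)
  · exact lens_meas.comp (measurable_const.prodMk (nm_meas' x))
  · rw [abs_of_nonneg (lens_nonneg hL hs x y)]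
    exact lens_le hL hs x y

theorem LF_abs (hL : Stmt_Lens) {F : E → ℝ} {s : ℝ} (hs : 0 < s) (x : E) :
    |LF F s x| ≤ LF (fun y => |F y|) s x := by
  unfold LF
  rw [← Real.norm_eq_abs]
  refine (norm_integral_le_integral_norm _).trans (le_of_eq ?_)
  refine integral_congr_ae (Eventually.of_forall fun y => ?_)
  change ‖F y * lens s ‖x - y‖‖ = |F y| * lens s ‖x - y‖
  rw [Real.norm_eq_abs, abs_mul, abs_of_nonneg (lens_nonneg hL hs x y)]

theorem LF_le1 (hL : Stmt_Lens) {F : E → ℝ} (hF : Adm F) {b : ℝ} (hb : ∀ x, |F x| ≤ b) {s : ℝ}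
    (hs : 0 < s) (x : E) : LF (fun y => |F y|) s x ≤ b * vb s ^ 2 := by
  rw [LF_eq hL (adm_abs hF) hs]
  have h1 : ∀ z, HF (fun y => |F y|) s z ≤ b * vb s := by
    intro z
    unfold HF
    have e : ∫ y, b * ph s y z = b * vb s := by
      rw [integral_const_mul]
      congr 1
      rw [← int_ph hL hs z]
      refine integral_congr_ae (Eventually.of_forall fun y => ph_comm s y z)
    rw [← e]
    have hph : Adm (fun y => ph s y z) := by
      have : (fun y => ph s y z) = ph s z := by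
        funext y
        exact ph_comm s y z
      rw [this]
      exact ph_adm s z
    refine integral_mono (adm_integrable (adm_mul (adm_abs hF) hph.meas fun y => ph_abs s y z))
      ((adm_integrable hph).const_mul b) fun y => ?_
    exact mul_le_mul_of_nonneg_right (hb y) (ph_nonneg _ _ _)
  have e2 : ∫ z, ph s x z * (b * vb s) = b * vb s ^ 2 := by
    rw [integral_mul_const, int_ph hL hs]
    ring
  rw [← e2]
  obtain ⟨b2, hb2⟩ := (HF_adm (adm_abs hF) s).bdd
  refine integral_mono (adm_integrable (adm_mul (ph_adm s x) (HF_adm (adm_abs hF) s).meas hb2))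
    ((adm_integrable (ph_adm s x)).mul_const _) fun z => ?_
  exact mul_le_mul_of_nonneg_left (h1 z) (ph_nonneg _ _ _)

theorem LF_le2 (hL : Stmt_Lens) {F : E → ℝ} (hF : Adm F) {s : ℝ}
    (hs : 0 < s) (x : E) : LF (fun y => |F y|) s x ≤ (∫ y, |F y|) * vb s := by
  unfold LF
  rw [← integral_mul_const]
  refine integral_mono (int_lens hL (adm_abs hF) hs x) ((adm_integrable hF).abs.mul_const _)
    fun y => ?_
  exact mul_le_mul_of_nonneg_left (lens_le hL hs x y) (abs_nonneg _)

/-- positivity for fixed `s` -/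
theorem pos_s (hL : Stmt_Lens) {F : E → ℝ} (hF : Adm F) {s : ℝ} (hs : 0 < s) {n : ℕ}
    (X : Fin n → E) : 0 ≤ ∑ i, ∑ j, lens s ‖X i - X j‖ + 2 * ∑ i, LF F s (X i)
      + ∫ x, F x * LF F s x := by
  have hH := HF_adm hF s
  obtain ⟨bH, hbH⟩ := hH.bdd
  have h0 : 0 ≤ ∫ z, (∑ i, ph s (X i) z + HF F s z) ^ 2 := integral_nonneg fun z => sq_nonneg _
  have h1 : ∫ z, (∑ i, ph s (X i) z + HF F s z) ^ 2 =
      ∫ z, (∑ i, ∑ j, ph s (X i) z * ph s (X j) z + 2 * ∑ i, ph s (X i) z * HF F s z
        + HF F s z * HF F s z) := by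
    refine integral_congr_ae (Eventually.of_forall fun z => ?_)
    change (∑ i, ph s (X i) z + HF F s z) ^ 2 = ∑ i, ∑ j, ph s (X i) z * ph s (X j) z +
      2 * ∑ i, ph s (X i) z * HF F s z + HF F s z * HF F s z
    rw [← Finset.sum_mul, ← Finset.sum_mul_sum]
    ring
  have i1 : ∀ i j, Integrable (fun z => ph s (X i) z * ph s (X j) z) := fun i j =>
    adm_integrable (adm_mul (ph_adm s (X i)) (ph_adm s (X j)).meas (ph_abs s (X j)))
  have i2 : ∀ i, Integrable (fun z => ph s (X i) z * HF F s z) := fun i =>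
    adm_integrable (adm_mul (ph_adm s (X i)) hH.meas hbH)
  have i3 : Integrable (fun z => HF F s z * HF F s z) :=
    adm_integrable (adm_mul hH hH.meas hbH)
  have i4 : Integrable (fun z => ∑ i, ∑ j, ph s (X i) z * ph s (X j) z) :=
    integrable_finsetSum _ fun i _ => integrable_finsetSum _ fun j _ => i1 i j
  have i5 : Integrable (fun z => 2 * ∑ i, ph s (X i) z * HF F s z) :=
    (integrable_finsetSum _ fun i _ => i2 i).const_mul 2
  have i6 : Integrable (fun z => ∑ i, ∑ j, ph s (X i) z * ph s (X j) z +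
      2 * ∑ i, ph s (X i) z * HF F s z) := i4.add i5
  rw [h1, integral_add i6 i3, integral_add i4 i5, integral_const_mul,
    integral_finsetSum _ (fun i _ => integrable_finsetSum _ fun j _ => i1 i j),
    integral_finsetSum _ (fun i _ => i2 i)] at h0
  have e1 : ∀ i, ∫ z, ∑ j, ph s (X i) z * ph s (X j) z = ∑ j, lens s ‖X i - X j‖ := by
    intro i
    rw [integral_finsetSum _ (fun j _ => i1 i j)]
    exact Finset.sum_congr rfl fun j _ => int_phph hL hs _ _
  have e2 : ∀ i, ∫ z, ph s (X i) z * HF F s z = LF F s (X i) := fun i => (LF_eq hL hF hs _).symm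
  have e3 : ∫ z, HF F s z * HF F s z = ∫ x, F x * LF F s x := by
    rw [FB hF hH.meas hbH]
    refine integral_congr_ae (Eventually.of_forall fun y => ?_)
    change F y * ∫ z, HF F s z * ph s y z = F y * LF F s y
    rw [LF_eq hL hF hs]
    congr 1
    refine integral_congr_ae (Eventually.of_forall fun z => ?_)
    exact mul_comm _ _
  simp only [e1, e2, e3] at h0
  exact h0

/-! ### The dominating function -/

/-- dominating function -/
noncomputable def Dm (b m : ℝ) (s : ℝ) : ℝ :=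
  if s ≤ 1 then b * (16 * π / 9 * s) else m * (4 / 3 * (s ^ 2)⁻¹)

theorem int_inv_sq {S : ℝ} (hS : 0 < S) : IntegrableOn (fun s : ℝ => (s ^ 2)⁻¹) (Ioi S) := by
  have h := integrableOn_Ioi_rpow_of_lt (a := -2) (by norm_num) hS
  refine h.congr_fun (fun s hs => ?_) measurableSet_Ioi
  have hs0 : 0 < s := hS.trans hs
  change s ^ (-2 : ℝ) = (s ^ 2)⁻¹
  rw [Real.rpow_neg hs0.le]
  norm_num

theorem Dm_int (b m : ℝ) : IntegrableOn (Dm b m) (Ioi 0) := by
  rw [← Ioc_union_Ioi_eq_Ioi (zero_le_one' ℝ)]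
  refine IntegrableOn.union ?_ ?_
  · have h : IntegrableOn (fun s : ℝ => b * (16 * π / 9 * s)) (Ioc 0 1) := by
      refine Integrable.const_mul (Integrable.const_mul ?_ _) _
      exact (continuous_id.continuousOn.integrableOn_Icc (a := 0) (b := 1)).mono_set
        Ioc_subset_Icc_self
    refine h.congr_fun (fun s hs => ?_) measurableSet_Ioc
    unfold Dm
    rw [if_pos hs.2]
  · have h : IntegrableOn (fun s : ℝ => m * (4 / 3 * (s ^ 2)⁻¹)) (Ioi 1) :=
      Integrable.const_mul (Integrable.const_mul (int_inv_sq one_pos) _) _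
    refine h.congr_fun (fun s hs => ?_) measurableSet_Ioi
    unfold Dm
    rw [if_neg (not_le.2 hs)]

theorem w_nonneg {s : ℝ} (hs : 0 < s) : 0 ≤ (π * s ^ 5)⁻¹ := by positivity

theorem w_vb {s : ℝ} (hs : 0 < s) : (π * s ^ 5)⁻¹ * vb s = 4 / 3 * (s ^ 2)⁻¹ := by
  unfold vb
  field_simp

theorem w_vb2 {s : ℝ} (hs : 0 < s) : (π * s ^ 5)⁻¹ * vb s ^ 2 = 16 * π / 9 * s := by
  unfold vb
  field_simp
  norm_num

/-- main domination -/
theorem dom (hL : Stmt_Lens) {F : E → ℝ} (hF : Adm F) {b : ℝ} (hb : ∀ x, |F x| ≤ b)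
    {c : ℝ → ℝ} (hc : ∀ s, 0 ≤ c s ∧ c s ≤ 1) {s : ℝ} (hs : 0 < s) (x : E) :
    c s * (π * s ^ 5)⁻¹ * LF (fun y => |F y|) s x ≤ Dm b (∫ y, |F y|) s := by
  have hLF : 0 ≤ LF (fun y => |F y|) s x :=
    integral_nonneg fun y => mul_nonneg (abs_nonneg _) (lens_nonneg hL hs x y)
  have hw := w_nonneg hs
  have h1 : c s * (π * s ^ 5)⁻¹ * LF (fun y => |F y|) s x ≤
      (π * s ^ 5)⁻¹ * LF (fun y => |F y|) s x := by
    rw [mul_assoc]
    exact mul_le_of_le_one_left (mul_nonneg hw hLF) (hc s).2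
  refine h1.trans ?_
  unfold Dm
  split_ifs with h
  · rw [← w_vb2 hs]
    calc (π * s ^ 5)⁻¹ * LF (fun y => |F y|) s x ≤ (π * s ^ 5)⁻¹ * (b * vb s ^ 2) :=
          mul_le_mul_of_nonneg_left (LF_le1 hL hF hb hs x) hw
      _ = _ := by ring
  · rw [← w_vb hs]
    calc (π * s ^ 5)⁻¹ * LF (fun y => |F y|) s x ≤ (π * s ^ 5)⁻¹ * ((∫ y, |F y|) * vb s) :=
          mul_le_mul_of_nonneg_left (LF_le2 hL hF hs x) hw
      _ = _ := by ring

/-! ### Fubini in `s` -/

theorem fub1 (hL : Stmt_Lens) {F : E → ℝ} (hF : Adm F) {c : ℝ → ℝ} (hcm : Measurable c)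
    (hc : ∀ s, 0 ≤ c s ∧ c s ≤ 1) (x : E) :
    ∫ y, F y * Rk c ‖x - y‖ = ∫ s in Ioi (0:ℝ), c s * (π * s ^ 5)⁻¹ * LF F s x := by
  obtain ⟨b, hb⟩ := hF.bdd
  have hm : Measurable (Function.uncurry fun (y : E) (s : ℝ) =>
      F y * (c s * ((π * s ^ 5)⁻¹ * lens s ‖x - y‖))) := by
    refine (hF.meas.comp measurable_fst).mul ((hcm.comp measurable_snd).mul (Measurable.mul ?_ ?_))
    · exact ((measurable_snd.pow_const 5).const_mul π).inv
    · have h2 : Measurable (fun p : E × ℝ => (p.2, ‖x - p.1‖)) :=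
        measurable_snd.prodMk ((nm_meas' x).comp measurable_fst)
      exact lens_meas.comp h2
  have hint : Integrable (Function.uncurry fun (y : E) (s : ℝ) =>
      F y * (c s * ((π * s ^ 5)⁻¹ * lens s ‖x - y‖))) (volume.prod (volume.restrict (Ioi 0))) := by
    rw [integrable_prod_iff' hm.aestronglyMeasurable]
    constructor
    · refine (ae_restrict_iff' measurableSet_Ioi).2 (Eventually.of_forall fun s hs => ?_)
      have h := (int_lens hL hF hs x).const_mul (c s * (π * s ^ 5)⁻¹)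
      refine h.congr (Eventually.of_forall fun y => ?_)
      change c s * (π * s ^ 5)⁻¹ * (F y * lens s ‖x - y‖) =
        F y * (c s * ((π * s ^ 5)⁻¹ * lens s ‖x - y‖))
      ring
    · refine (Dm_int b (∫ y, |F y|)).mono' ?_ ?_
      · exact (hm.norm.stronglyMeasurable.integral_prod_left').aestronglyMeasurable
      · refine (ae_restrict_iff' measurableSet_Ioi).2 (Eventually.of_forall fun s hs => ?_)
        have hs0 : 0 < s := hs
        have e : ∫ y, ‖(Function.uncurry fun (y : E) (s : ℝ) =>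
            F y * (c s * ((π * s ^ 5)⁻¹ * lens s ‖x - y‖))) (y, s)‖ =
            c s * (π * s ^ 5)⁻¹ * LF (fun y => |F y|) s x := by
          unfold LF
          rw [← integral_const_mul]
          refine integral_congr_ae (Eventually.of_forall fun y => ?_)
          change ‖F y * (c s * ((π * s ^ 5)⁻¹ * lens s ‖x - y‖))‖ =
            c s * (π * s ^ 5)⁻¹ * (|F y| * lens s ‖x - y‖)
          rw [Real.norm_eq_abs, abs_mul, abs_of_nonneg (mul_nonneg (hc s).1
            (mul_nonneg (w_nonneg hs0) (lens_nonneg hL hs0 x y)))]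
          ring
        rw [e, Real.norm_eq_abs, abs_of_nonneg]
        · exact dom hL hF hb hc hs0 x
        · exact mul_nonneg (mul_nonneg (hc s).1 (w_nonneg hs0))
            (integral_nonneg fun y => mul_nonneg (abs_nonneg _) (lens_nonneg hL hs0 x y))
  have e1 : ∀ y, F y * Rk c ‖x - y‖ =
      ∫ s in Ioi (0:ℝ), F y * (c s * ((π * s ^ 5)⁻¹ * lens s ‖x - y‖)) := by
    intro y
    rw [integral_const_mul]
    rfl
  simp only [e1]
  rw [integral_integral_swap hint]
  refine setIntegral_congr_fun measurableSet_Ioi fun s _ => ?_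
  change ∫ y, F y * (c s * ((π * s ^ 5)⁻¹ * lens s ‖x - y‖)) = c s * (π * s ^ 5)⁻¹ * LF F s x
  unfold LF
  rw [← integral_const_mul]
  refine integral_congr_ae (Eventually.of_forall fun y => ?_)
  change F y * (c s * ((π * s ^ 5)⁻¹ * lens s ‖x - y‖)) =
    c s * (π * s ^ 5)⁻¹ * (F y * lens s ‖x - y‖)
  ring

theorem w_meas {c : ℝ → ℝ} (hcm : Measurable c) : Measurable (fun s : ℝ => c s * (π * s ^ 5)⁻¹) :=
  hcm.mul ((measurable_id.pow_const 5).const_mul π).inv

theorem int1 (hL : Stmt_Lens) {F : E → ℝ} (hF : Adm F) {c : ℝ → ℝ} (hcm : Measurable c)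
    (hc : ∀ s, 0 ≤ c s ∧ c s ≤ 1) (x : E) :
    IntegrableOn (fun s => c s * (π * s ^ 5)⁻¹ * LF F s x) (Ioi 0) := by
  obtain ⟨b, hb⟩ := hF.bdd
  refine (Dm_int b (∫ y, |F y|)).mono' ?_ ?_
  · exact ((w_meas hcm).mul ((LF_meas hF).comp
      (measurable_id.prodMk measurable_const))).aestronglyMeasurable
  · refine (ae_restrict_iff' measurableSet_Ioi).2 (Eventually.of_forall fun s hs => ?_)
    have hs0 : 0 < s := hs
    have hcw : 0 ≤ c s * (π * s ^ 5)⁻¹ := mul_nonneg (hc s).1 (w_nonneg hs0)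
    rw [Real.norm_eq_abs, abs_mul, abs_of_nonneg hcw]
    exact (mul_le_mul_of_nonneg_left (LF_abs hL hs0 x) hcw).trans (dom hL hF hb hc hs0 x)

theorem fub2 (hL : Stmt_Lens) {F : E → ℝ} (hF : Adm F) {c : ℝ → ℝ} (hcm : Measurable c)
    (hc : ∀ s, 0 ≤ c s ∧ c s ≤ 1) :
    IntegrableOn (fun s => c s * (π * s ^ 5)⁻¹ * ∫ x, F x * LF F s x) (Ioi 0) ∧
    ∫ x, F x * ∫ y, F y * Rk c ‖x - y‖ =
      ∫ s in Ioi (0:ℝ), c s * (π * s ^ 5)⁻¹ * ∫ x, F x * LF F s x := by
  obtain ⟨b, hb⟩ := hF.bdd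
  have hm3 : Measurable (fun p : E × ℝ => LF F p.2 p.1) := by
    have h2 : Measurable (fun p : E × ℝ => (p.2, p.1)) := measurable_snd.prodMk measurable_fst
    have h3 := (LF_meas hF).comp h2
    exact h3
  have hm : Measurable (fun p : E × ℝ => F p.1 * (c p.2 * (π * p.2 ^ 5)⁻¹ * LF F p.2 p.1)) := by
    have h1 : Measurable (fun p : E × ℝ => F p.1) := hF.meas.comp measurable_fst
    have h2 : Measurable (fun p : E × ℝ => c p.2 * (π * p.2 ^ 5)⁻¹) :=
      (w_meas hcm).comp measurable_snd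
    exact h1.mul (h2.mul hm3)
  have hint : Integrable (Function.uncurry fun (x : E) (s : ℝ) =>
      F x * (c s * (π * s ^ 5)⁻¹ * LF F s x)) (volume.prod (volume.restrict (Ioi 0))) := by
    have hdom : Integrable (fun p : E × ℝ => |F p.1| * Dm b (∫ y, |F y|) p.2)
        (volume.prod (volume.restrict (Ioi 0))) :=
      Integrable.mul_prod (f := fun x => |F x|) (g := Dm b (∫ y, |F y|))
        (adm_integrable hF).abs (Dm_int b (∫ y, |F y|))
    refine hdom.mono' (f := fun p : E × ℝ => F p.1 * (c p.2 * (π * p.2 ^ 5)⁻¹ * LF F p.2 p.1))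
      hm.aestronglyMeasurable ?_
    have hae : ∀ᵐ p : E × ℝ ∂(volume.prod (volume.restrict (Ioi 0))), 0 < p.2 := by
      have hms : MeasurableSet {p : E × ℝ | 0 < p.2} := measurableSet_lt measurable_const measurable_snd
      rw [Measure.ae_prod_iff_ae_ae hms]
      exact Eventually.of_forall fun x => (ae_restrict_iff' measurableSet_Ioi).2
        (Eventually.of_forall fun s hs => hs)
    filter_upwards [hae] with p hp
    obtain ⟨x, s⟩ := p
    have hs0 : 0 < s := hp
    have hcw : 0 ≤ c s * (π * s ^ 5)⁻¹ := mul_nonneg (hc s).1 (w_nonneg hs0)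
    change ‖F x * (c s * (π * s ^ 5)⁻¹ * LF F s x)‖ ≤ |F x| * Dm b (∫ y, |F y|) s
    rw [Real.norm_eq_abs, abs_mul, abs_mul (c s * (π * s ^ 5)⁻¹), abs_of_nonneg hcw]
    exact mul_le_mul_of_nonneg_left ((mul_le_mul_of_nonneg_left (LF_abs hL hs0 x) hcw).trans
      (dom hL hF hb hc hs0 x)) (abs_nonneg _)
  have e2 : ∀ s, ∫ x, F x * (c s * (π * s ^ 5)⁻¹ * LF F s x) =
      c s * (π * s ^ 5)⁻¹ * ∫ x, F x * LF F s x := by
    intro s
    rw [← integral_const_mul]
    refine integral_congr_ae (Eventually.of_forall fun x => ?_)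
    change F x * (c s * (π * s ^ 5)⁻¹ * LF F s x) = c s * (π * s ^ 5)⁻¹ * (F x * LF F s x)
    ring
  constructor
  · have h := hint.integral_prod_right
    refine h.congr (Eventually.of_forall fun s => ?_)
    exact e2 s
  · have e1 : ∀ x, F x * ∫ y, F y * Rk c ‖x - y‖ =
        ∫ s in Ioi (0:ℝ), F x * (c s * (π * s ^ 5)⁻¹ * LF F s x) := by
      intro x
      rw [fub1 hL hF hcm hc, integral_const_mul]
    simp only [e1]
    rw [integral_integral_swap hint]
    refine setIntegral_congr_fun measurableSet_Ioi fun s _ => ?_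
    exact e2 s

theorem int0 (hL : Stmt_Lens) {c : ℝ → ℝ} (hcm : Measurable c)
    (hc : ∀ s, 0 ≤ c s ∧ c s ≤ 1) {x y : E} (hxy : 0 < ‖x - y‖) :
    IntegrableOn (fun s => c s * ((π * s ^ 5)⁻¹ * lens s ‖x - y‖)) (Ioi 0) := by
  set t := ‖x - y‖ with ht
  set b' : ℝ := (4 / 3) / (16 * π / 9 * (t / 2) ^ 3) with hb'
  refine (Dm_int b' 1).mono' ?_ ?_
  · exact (hcm.mul (((measurable_id.pow_const 5).const_mul π).inv.mul
      (lens_meas.comp (measurable_id.prodMk measurable_const)))).aestronglyMeasurable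
  · refine (ae_restrict_iff' measurableSet_Ioi).2 (Eventually.of_forall fun s hs => ?_)
    have hs0 : 0 < s := hs
    have hl0 : 0 ≤ lens s t := lens_nonneg hL hs0 x y
    have hl1 : lens s t ≤ vb s := lens_le hL hs0 x y
    have hw := w_nonneg hs0
    rw [Real.norm_eq_abs, abs_of_nonneg (mul_nonneg (hc s).1 (mul_nonneg hw hl0))]
    have h1 : c s * ((π * s ^ 5)⁻¹ * lens s t) ≤ (π * s ^ 5)⁻¹ * lens s t :=
      mul_le_of_le_one_left (mul_nonneg hw hl0) (hc s).2
    have h2 : (π * s ^ 5)⁻¹ * lens s t ≤ 4 / 3 * (s ^ 2)⁻¹ := by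
      rw [← w_vb hs0]
      exact mul_le_mul_of_nonneg_left hl1 hw
    refine h1.trans ?_
    unfold Dm
    split_ifs with hs1
    · by_cases hst : t ≤ 2 * s
      · refine h2.trans ?_
        have h3 : t / 2 ≤ s := by linarith
        have h4 : (t / 2) ^ 3 ≤ s ^ 3 := by
          apply pow_le_pow_left₀ (by positivity) h3
        have e3 : b' * (16 * π / 9 * s) = 4 / 3 * (s / (t / 2) ^ 3) := by
          rw [hb']
          field_simp
        rw [e3]
        refine mul_le_mul_of_nonneg_left ?_ (by norm_num)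
        rw [inv_eq_one_div, div_le_div_iff₀ (by positivity) (by positivity)]
        nlinarith
      · have h0 : lens s t = 0 := by
          unfold lens
          rw [if_neg hst]
        rw [h0, mul_zero]
        positivity
    · rw [one_mul]
      exact h2

end PdX

open PdX in
theorem pd_proof (hL : Stmt_Lens) : Stmt_Pd := by
  intro c hcm hc a b F ha hb0 hF hb n X hX
  have hS : 0 < a / 2 := by positivity
  -- pairs
  have hdist : ∀ i, ∀ j ∈ Finset.univ.erase i, 0 < ‖X i - X j‖ := by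
    intro i j hj
    exact lt_of_lt_of_le ha (hX i j (Finset.ne_of_mem_erase hj).symm)
  have p1 : ∑ i, ∑ j ∈ Finset.univ.erase i, Rk c ‖X i - X j‖ =
      ∫ s in Ioi (0:ℝ), c s * (π * s ^ 5)⁻¹ * ∑ i, ∑ j ∈ Finset.univ.erase i, lens s ‖X i - X j‖ := by
    have e : ∀ s, c s * (π * s ^ 5)⁻¹ * ∑ i, ∑ j ∈ Finset.univ.erase i, lens s ‖X i - X j‖ =
        ∑ i, ∑ j ∈ Finset.univ.erase i, c s * ((π * s ^ 5)⁻¹ * lens s ‖X i - X j‖) := by
      intro s
      rw [Finset.mul_sum]
      refine Finset.sum_congr rfl fun i _ => ?_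
      rw [Finset.mul_sum]
      refine Finset.sum_congr rfl fun j _ => ?_
      ring
    simp only [e]
    rw [integral_finsetSum _ (fun i _ => integrable_finsetSum _ fun j hj =>
      int0 hL hcm hc (hdist i j hj))]
    refine Finset.sum_congr rfl fun i _ => ?_
    rw [integral_finsetSum _ (fun j hj => int0 hL hcm hc (hdist i j hj))]
    rfl
  have q1 : IntegrableOn (fun s => c s * (π * s ^ 5)⁻¹ *
      ∑ i, ∑ j ∈ Finset.univ.erase i, lens s ‖X i - X j‖) (Ioi 0) := by
    have h : IntegrableOn (fun s => ∑ i, ∑ j ∈ Finset.univ.erase i,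
        c s * ((π * s ^ 5)⁻¹ * lens s ‖X i - X j‖)) (Ioi 0) :=
      integrable_finsetSum _ fun i _ => integrable_finsetSum _ fun j hj =>
        int0 hL hcm hc (hdist i j hj)
    refine h.congr (Eventually.of_forall fun s => ?_)
    change ∑ i, ∑ j ∈ Finset.univ.erase i, c s * ((π * s ^ 5)⁻¹ * lens s ‖X i - X j‖) =
      c s * (π * s ^ 5)⁻¹ * ∑ i, ∑ j ∈ Finset.univ.erase i, lens s ‖X i - X j‖
    rw [Finset.mul_sum]
    refine Finset.sum_congr rfl fun i _ => ?_
    rw [Finset.mul_sum]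
    refine Finset.sum_congr rfl fun j _ => ?_
    ring
  -- points and density
  have p2 : ∑ i, ∫ y, F y * Rk c ‖X i - y‖ =
      ∫ s in Ioi (0:ℝ), c s * (π * s ^ 5)⁻¹ * ∑ i, LF F s (X i) := by
    simp only [Finset.mul_sum]
    rw [integral_finsetSum _ (fun i _ => int1 hL hF hcm hc (X i))]
    exact Finset.sum_congr rfl fun i _ => fub1 hL hF hcm hc (X i)
  have q2 : IntegrableOn (fun s => c s * (π * s ^ 5)⁻¹ * ∑ i, LF F s (X i)) (Ioi 0) := by
    simp only [Finset.mul_sum]
    exact integrable_finsetSum _ fun i _ => int1 hL hF hcm hc (X i)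
  obtain ⟨q3, p3⟩ := fub2 hL hF hcm hc
  -- the total
  let f : ℝ → ℝ := fun s => c s * (π * s ^ 5)⁻¹ *
    (1 / 2 * (∑ i, ∑ j ∈ Finset.univ.erase i, lens s ‖X i - X j‖) + ∑ i, LF F s (X i)
      + 1 / 2 * ∫ x, F x * LF F s x)
  have hf : ∀ s, f s = 1 / 2 * (c s * (π * s ^ 5)⁻¹ *
      ∑ i, ∑ j ∈ Finset.univ.erase i, lens s ‖X i - X j‖) +
      c s * (π * s ^ 5)⁻¹ * ∑ i, LF F s (X i) +
      1 / 2 * (c s * (π * s ^ 5)⁻¹ * ∫ x, F x * LF F s x) := by
    intro s
    simp only [f]
    ring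
  have hfint : IntegrableOn f (Ioi 0) := by
    have h := ((q1.const_mul (1 / 2)).add q2).add (q3.const_mul (1 / 2))
    refine h.congr (Eventually.of_forall fun s => ?_)
    exact (hf s).symm
  have htot : EnK (Rk c) F X = ∫ s in Ioi (0:ℝ), f s := by
    have hE : EnK (Rk c) F X = (1 / 2) * (∑ i, ∑ j ∈ Finset.univ.erase i, Rk c ‖X i - X j‖)
        + (∑ i, ∫ y, F y * Rk c ‖X i - y‖) + (1 / 2) * ∫ x, F x * ∫ y, F y * Rk c ‖x - y‖ := rfl
    rw [hE, p1, p2, p3]
    simp only [hf]
    have q12 : IntegrableOn (fun s => 1 / 2 * (c s * (π * s ^ 5)⁻¹ *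
        ∑ i, ∑ j ∈ Finset.univ.erase i, lens s ‖X i - X j‖) +
        c s * (π * s ^ 5)⁻¹ * ∑ i, LF F s (X i)) (Ioi 0) := (q1.const_mul (1 / 2)).add q2
    rw [integral_add q12 (q3.const_mul (1 / 2)),
      integral_add (q1.const_mul (1 / 2)) q2, integral_const_mul, integral_const_mul]
  have hsplit : ∫ s in Ioi (0:ℝ), f s = (∫ s in Ioc (0:ℝ) (a / 2), f s) + ∫ s in Ioi (a / 2), f s := by
    rw [← setIntegral_union (Ioc_disjoint_Ioi le_rfl) measurableSet_Ioi
      (hfint.mono_set Ioc_subset_Ioi_self) (hfint.mono_set (Ioi_subset_Ioi hS.le)),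
      Ioc_union_Ioi_eq_Ioi hS.le]
  -- lower bound, small s
  have hlow1 : -(n : ℝ) * (b * (16 * π / 9) * ∫ s in Ioc 0 (a / 2), c s * s) ≤
      ∫ s in Ioc (0:ℝ) (a / 2), f s := by
    have e : -(n : ℝ) * (b * (16 * π / 9) * ∫ s in Ioc 0 (a / 2), c s * s) =
        ∫ s in Ioc (0:ℝ) (a / 2), -(n : ℝ) * (b * (16 * π / 9)) * (c s * s) := by
      rw [integral_const_mul]
      ring
    rw [e]
    have hi : IntegrableOn (fun s => -(n : ℝ) * (b * (16 * π / 9)) * (c s * s))
        (Ioc (0:ℝ) (a / 2)) := by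
      refine Integrable.const_mul ?_ _
      refine Integrable.bdd_mul (c := 1) ?_ hcm.aestronglyMeasurable (Eventually.of_forall fun s => ?_)
      · exact (continuous_id.continuousOn.integrableOn_Icc (a := 0) (b := a / 2)).mono_set
          Ioc_subset_Icc_self
      · rw [Real.norm_eq_abs, abs_of_nonneg (hc s).1]
        exact (hc s).2
    refine setIntegral_mono_on hi (hfint.mono_set Ioc_subset_Ioi_self) measurableSet_Ioc
      fun s hs => ?_
    have hs0 : 0 < s := hs.1
    have hcw : 0 ≤ c s * (π * s ^ 5)⁻¹ := mul_nonneg (hc s).1 (w_nonneg hs0)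
    have hA : 0 ≤ ∑ i, ∑ j ∈ Finset.univ.erase i, lens s ‖X i - X j‖ :=
      Finset.sum_nonneg fun i _ => Finset.sum_nonneg fun j _ => lens_nonneg hL hs0 _ _
    have hC : 0 ≤ ∫ x, F x * LF F s x := by
      have h := pos_s hL hF hs0 (n := 0) Fin.elim0
      simpa using h
    have hB : -(n : ℝ) * (b * vb s ^ 2) ≤ ∑ i, LF F s (X i) := by
      have h : ∀ i, -(b * vb s ^ 2) ≤ LF F s (X i) := by
        intro i
        have h1 := (LF_abs hL hs0 (X i)).trans (LF_le1 hL hF hb hs0 (X i))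
        exact (abs_le.1 h1).1
      have h2 := Finset.sum_le_sum fun i (_ : i ∈ Finset.univ) => h i
      rw [Finset.sum_const, Finset.card_univ, Fintype.card_fin, nsmul_eq_mul] at h2
      linarith
    have h1 : -(n : ℝ) * (b * vb s ^ 2) ≤
        1 / 2 * (∑ i, ∑ j ∈ Finset.univ.erase i, lens s ‖X i - X j‖) + ∑ i, LF F s (X i)
          + 1 / 2 * ∫ x, F x * LF F s x := by linarith
    have h2 := mul_le_mul_of_nonneg_left h1 hcw
    have e2 : c s * (π * s ^ 5)⁻¹ * (-(n : ℝ) * (b * vb s ^ 2)) =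
        -(n : ℝ) * (b * (16 * π / 9)) * (c s * s) := by
      have h3 := w_vb2 hs0
      calc c s * (π * s ^ 5)⁻¹ * (-(n : ℝ) * (b * vb s ^ 2)) =
          -(n : ℝ) * b * c s * ((π * s ^ 5)⁻¹ * vb s ^ 2) := by ring
        _ = _ := by rw [h3]; ring
    rw [e2] at h2
    exact h2
  -- lower bound, large s
  have hlow2 : -(n : ℝ) * (2 / 3 * ∫ s in Ioi (a / 2), c s * (s ^ 2)⁻¹) ≤
      ∫ s in Ioi (a / 2), f s := by
    have e : -(n : ℝ) * (2 / 3 * ∫ s in Ioi (a / 2), c s * (s ^ 2)⁻¹) =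
        ∫ s in Ioi (a / 2), -(n : ℝ) * (2 / 3) * (c s * (s ^ 2)⁻¹) := by
      rw [integral_const_mul]
      ring
    rw [e]
    have hi : IntegrableOn (fun s => -(n : ℝ) * (2 / 3) * (c s * (s ^ 2)⁻¹))
        (Ioi (a / 2)) := by
      refine Integrable.const_mul ?_ _
      refine Integrable.bdd_mul (c := 1) (int_inv_sq hS) hcm.aestronglyMeasurable
        (Eventually.of_forall fun s => ?_)
      rw [Real.norm_eq_abs, abs_of_nonneg (hc s).1]
      exact (hc s).2
    refine setIntegral_mono_on hi (hfint.mono_set (Ioi_subset_Ioi hS.le)) measurableSet_Ioi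
      fun s hs => ?_
    have hs0 : 0 < s := hS.trans hs
    have hcw : 0 ≤ c s * (π * s ^ 5)⁻¹ := mul_nonneg (hc s).1 (w_nonneg hs0)
    have hQ := pos_s hL hF hs0 X
    have hdiag : ∑ i, ∑ j, lens s ‖X i - X j‖ =
        ∑ i, ∑ j ∈ Finset.univ.erase i, lens s ‖X i - X j‖ + n * vb s := by
      have h : ∀ i, ∑ j, lens s ‖X i - X j‖ =
          ∑ j ∈ Finset.univ.erase i, lens s ‖X i - X j‖ + vb s := by
        intro i
        rw [← Finset.sum_erase_add _ _ (Finset.mem_univ i), sub_self, norm_zero]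
        congr 1
        unfold lens vb
        rw [if_pos (by positivity)]
        ring
      rw [Finset.sum_congr rfl fun i _ => h i, Finset.sum_add_distrib, Finset.sum_const,
        Finset.card_univ, Fintype.card_fin, nsmul_eq_mul]
    rw [hdiag] at hQ
    have h1 : -(n : ℝ) * (vb s / 2) ≤
        1 / 2 * (∑ i, ∑ j ∈ Finset.univ.erase i, lens s ‖X i - X j‖) + ∑ i, LF F s (X i)
          + 1 / 2 * ∫ x, F x * LF F s x := by linarith
    have h2 := mul_le_mul_of_nonneg_left h1 hcw
    have e2 : c s * (π * s ^ 5)⁻¹ * (-(n : ℝ) * (vb s / 2)) =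
        -(n : ℝ) * (2 / 3) * (c s * (s ^ 2)⁻¹) := by
      have h3 := w_vb hs0
      calc c s * (π * s ^ 5)⁻¹ * (-(n : ℝ) * (vb s / 2)) =
          -(n : ℝ) / 2 * c s * ((π * s ^ 5)⁻¹ * vb s) := by ring
        _ = _ := by rw [h3]; ring
    rw [e2] at h2
    exact h2
  rw [htot, hsplit]
  have e : -(n : ℝ) * (2 / 3 * (∫ s in Ioi (a / 2), c s * (s ^ 2)⁻¹)
      + b * (16 * π / 9) * ∫ s in Ioc 0 (a / 2), c s * s) =
      -(n : ℝ) * (b * (16 * π / 9) * ∫ s in Ioc 0 (a / 2), c s * s) +
      -(n : ℝ) * (2 / 3 * ∫ s in Ioi (a / 2), c s * (s ^ 2)⁻¹) := by ring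
  rw [e]
  exact add_le_add hlow1 hlow2

end Pool.Agent.JEL
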