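import Pool.Agent.JEL.Stmts

/-!
# JEL module Pkb: packing bound
-/

open MeasureTheory Set Filter Topology

namespace Pool.Agent.JEL

open scoped Real

theorem Pkb_proof (hLens : Stmt_Lens) : Stmt_Pkb := by
  intro a D₀ ha hD
  have hpi := Real.pi_pos
  have hv : 0 < vb (a / 3) := by unfold vb; positivity
  refine ⟨⌈vb (D₀ + a / 3) / vb (a / 3)⌉₊, fun ι _ _ X T hT x => ?_⟩
  set S := T.filter (fun j => ‖X j - x‖ ≤ D₀) with hS
  have hsub : ⋃ j ∈ S, cB (X j) (a / 3) ⊆ cB x (D₀ + a / 3) := by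
    refine iUnion₂_subset fun j hj => ?_
    have h1 : ‖X j - x‖ ≤ D₀ := (Finset.mem_filter.mp hj).2
    refine Metric.closedBall_subset_closedBall' ?_
    rw [dist_eq_norm]
    linarith
  have hdis : (S : Set ι).PairwiseDisjoint fun j => cB (X j) (a / 3) := by
    intro i hi j hj hij
    have hi' := (Finset.mem_filter.mp (Finset.mem_coe.mp hi)).1
    have hj' := (Finset.mem_filter.mp (Finset.mem_coe.mp hj)).1
    refine Metric.closedBall_disjoint_closedBall ?_
    rw [dist_eq_norm]
    have := hT i hi' j hj' hij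
    linarith
  have h2 : volume.real (⋃ j ∈ S, cB (X j) (a / 3)) = ∑ j ∈ S, volume.real (cB (X j) (a / 3)) :=
    measureReal_biUnion_finset hdis (fun _ _ => Metric.isClosed_closedBall.measurableSet)
      (fun _ _ => (isCompact_closedBall _ _).measure_lt_top.ne)
  have h3 : ∀ j ∈ S, volume.real (cB (X j) (a / 3)) = vb (a / 3) := fun j _ =>
    hLens.1 (X j) (a / 3) (by positivity)
  rw [Finset.sum_congr rfl h3, Finset.sum_const, nsmul_eq_mul] at h2
  have h4 : volume.real (⋃ j ∈ S, cB (X j) (a / 3)) ≤ volume.real (cB x (D₀ + a / 3)) :=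
    measureReal_mono hsub (isCompact_closedBall _ _).measure_lt_top.ne
  rw [h2, hLens.1 x (D₀ + a / 3) (by positivity)] at h4
  have h5 : (S.card : ℝ) ≤ vb (D₀ + a / 3) / vb (a / 3) := by
    rw [le_div_iff₀ hv]
    exact h4
  have h6 := h5.trans (Nat.le_ceil _)
  exact_mod_cast h6

end Pool.Agent.JEL
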