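import Pool.Agent.JEL.Stmts

/-!
# Pot: basic facts on Coulomb potentials
-/

open MeasureTheory Set Filter Topology

namespace Pool.Agent.JEL

open scoped Real

namespace Pot_

theorem adm_abs {F : E → ℝ} (h : Adm F) : Adm (fun x => |F x|) where
  meas := h.meas.abs
  bdd := by
    obtain ⟨b, hb⟩ := h.bdd
    exact ⟨b, fun x => by rw [abs_abs]; exact hb x⟩
  supp := by
    obtain ⟨R, hR⟩ := h.supp
    exact ⟨R, fun x hx => by simp [hR x hx]⟩

theorem adm_add {F G : E → ℝ} (h : Adm F) (h' : Adm G) : Adm (fun x => F x + G x) where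
  meas := h.meas.add h'.meas
  bdd := by
    obtain ⟨b, hb⟩ := h.bdd
    obtain ⟨c, hc⟩ := h'.bdd
    exact ⟨b + c, fun x => (abs_add_le _ _).trans (add_le_add (hb x) (hc x))⟩
  supp := by
    obtain ⟨R, hR⟩ := h.supp
    obtain ⟨S, hS⟩ := h'.supp
    exact ⟨max R S, fun x hx => by
      rw [hR x ((le_max_left _ _).trans_lt hx), hS x ((le_max_right _ _).trans_lt hx), add_zero]⟩

/-- bounded measurable functions with bounded support are integrable -/
theorem adm_int {F : E → ℝ} (h : Adm F) : Integrable F := by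
  obtain ⟨b, hb⟩ := h.bdd
  obtain ⟨R, hR⟩ := h.supp
  have h1 : IntegrableOn (fun _ : E => b) (cB (0:E) R) :=
    integrableOn_const (measure_closedBall_lt_top).ne
  have h2 : Integrable ((cB (0:E) R).indicator fun _ => b) :=
    h1.integrable_indicator Metric.isClosed_closedBall.measurableSet
  refine h2.mono' h.meas.aestronglyMeasurable (Eventually.of_forall fun x => ?_)
  by_cases hx : x ∈ cB (0:E) R
  · rw [indicator_of_mem hx]
    exact hb x
  · rw [indicator_of_notMem hx, hR x]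
    · simp
    · rw [mem_closedBall_zero_iff, not_le] at hx
      exact hx

theorem locInt (hNewt : Stmt_Newt) (x : E) {t : ℝ} (ht : 0 < t) :
    IntegrableOn (fun y => ‖x - y‖⁻¹) (cB x t) ∧ ∫ y in cB x t, ‖x - y‖⁻¹ = 2 * π * t ^ 2 := by
  have h := hNewt.1 t x x ht
  have h2 : nt t ‖x - x‖ = 2 * π * t ^ 2 := by
    rw [sub_self, norm_zero, nt, if_pos ht.le]
    ring
  rw [h2] at h
  refine ⟨?_, h⟩
  by_contra hc
  have h3 : ∫ y in cB x t, ‖x - y‖⁻¹ = 0 := integral_undef hc
  rw [h] at h3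
  have : 0 < 2 * π * t ^ 2 := by positivity
  linarith

theorem meas_inv : Measurable (fun p : E × E => ‖p.1 - p.2‖⁻¹) :=
  (measurable_fst.sub measurable_snd).norm.inv

theorem meas_inv' (x : E) : Measurable (fun y : E => ‖x - y‖⁻¹) :=
  (measurable_const.sub measurable_id).norm.inv

/-- the dominating function -/
theorem dom (hNewt : Stmt_Newt) {F : E → ℝ} {b t : ℝ} {S : Set E} (hb : ∀ x, |F x| ≤ b)
    (hS : MeasurableSet S) (hS' : volume S < ⊤) (hF : ∀ x, x ∉ S → F x = 0) (ht : 0 < t) (x : E) :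
    Integrable (fun y => b * ((cB x t).indicator (fun y => ‖x - y‖⁻¹) y +
      S.indicator (fun _ => t⁻¹) y)) ∧
    (∫ y, b * ((cB x t).indicator (fun y => ‖x - y‖⁻¹) y + S.indicator (fun _ => t⁻¹) y)
      = b * (2 * π * t ^ 2 + volume.real S / t)) ∧
    ∀ y, ‖F y * ‖x - y‖⁻¹‖ ≤ b * ((cB x t).indicator (fun y => ‖x - y‖⁻¹) y +
      S.indicator (fun _ => t⁻¹) y) := by
  obtain ⟨h1, h2⟩ := locInt hNewt x ht
  have hm : MeasurableSet (cB x t) := Metric.isClosed_closedBall.measurableSet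
  have h3 : Integrable ((cB x t).indicator fun y => ‖x - y‖⁻¹) := h1.integrable_indicator hm
  have h4 : Integrable (S.indicator fun _ : E => t⁻¹) :=
    (integrableOn_const hS'.ne).integrable_indicator hS
  have hb0 : 0 ≤ b := (abs_nonneg _).trans (hb x)
  refine ⟨(h3.add h4).const_mul b, ?_, ?_⟩
  · rw [integral_const_mul, integral_add h3 h4, integral_indicator hm, h2, integral_indicator hS,
      setIntegral_const, smul_eq_mul, div_eq_mul_inv]
  · intro y
    rw [norm_mul, Real.norm_eq_abs, norm_inv, norm_norm]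
    by_cases hy : y ∈ S
    · refine mul_le_mul (hb y) ?_ (by positivity) hb0
      rw [indicator_of_mem hy]
      by_cases hy' : y ∈ cB x t
      · rw [indicator_of_mem hy']
        have : 0 ≤ t⁻¹ := by positivity
        linarith
      · rw [indicator_of_notMem hy', zero_add]
        rw [Metric.mem_closedBall, not_le, dist_comm, dist_eq_norm] at hy'
        exact inv_anti₀ ht hy'.le
    · rw [hF y hy, abs_zero, zero_mul]
      refine mul_nonneg hb0 (add_nonneg ?_ ?_)
      · exact indicator_nonneg (fun _ _ => by positivity) _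
      · exact indicator_nonneg (fun _ _ => by positivity) _

theorem int (hNewt : Stmt_Newt) {F : E → ℝ} (h : Adm F) (x : E) :
    Integrable (fun y => F y * ‖x - y‖⁻¹) := by
  obtain ⟨b, hb⟩ := h.bdd
  obtain ⟨R, hR⟩ := h.supp
  obtain ⟨h1, -, h3⟩ := dom hNewt (S := cB (0:E) R) hb Metric.isClosed_closedBall.measurableSet
    measure_closedBall_lt_top (fun y hy => hR y (by
      rw [mem_closedBall_zero_iff, not_le] at hy
      exact hy)) one_pos x
  exact h1.mono' (h.meas.mul (meas_inv' x)).aestronglyMeasurable (Eventually.of_forall h3)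

theorem bound (hNewt : Stmt_Newt) {F : E → ℝ} {b t : ℝ} {S : Set E} (hb : ∀ x, |F x| ≤ b)
    (hS : MeasurableSet S) (hS' : volume S < ⊤) (hF : ∀ x, x ∉ S → F x = 0) (ht : 0 < t) (x : E) :
    |pot F x| ≤ b * (2 * π * t ^ 2 + volume.real S / t) := by
  obtain ⟨h1, h2, h3⟩ := dom hNewt hb hS hS' hF ht x
  rw [← h2, ← Real.norm_eq_abs, pot]
  exact norm_integral_le_of_norm_le h1 (Eventually.of_forall h3)

theorem bdd (hNewt : Stmt_Newt) {F : E → ℝ} (h : Adm F) : ∃ C, ∀ x, |pot F x| ≤ C := by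
  obtain ⟨b, hb⟩ := h.bdd
  obtain ⟨R, hR⟩ := h.supp
  exact ⟨_, bound hNewt (S := cB (0:E) R) hb Metric.isClosed_closedBall.measurableSet
    measure_closedBall_lt_top (fun y hy => hR y (by
      rw [mem_closedBall_zero_iff, not_le] at hy
      exact hy)) one_pos⟩

theorem meas {F : E → ℝ} (h : Adm F) : Measurable (pot F) := by
  have h1 : StronglyMeasurable (Function.uncurry fun x y : E => F y * ‖x - y‖⁻¹) :=
    ((h.meas.comp measurable_snd).mul meas_inv).stronglyMeasurable
  exact h1.integral_prod_right.measurable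

/-- `F · pot G` is admissible -/
theorem mulAdm (hNewt : Stmt_Newt) {F G : E → ℝ} (h : Adm F) (h' : Adm G) :
    Adm (fun x => F x * pot G x) where
  meas := h.meas.mul (meas h')
  bdd := by
    obtain ⟨b, hb⟩ := h.bdd
    obtain ⟨c, hc⟩ := bdd hNewt h'
    refine ⟨b * c, fun x => ?_⟩
    rw [abs_mul]
    exact mul_le_mul (hb x) (hc x) (abs_nonneg _) ((abs_nonneg _).trans (hb x))
  supp := by
    obtain ⟨R, hR⟩ := h.supp
    exact ⟨R, fun x hx => by simp [hR x hx]⟩

theorem prodInt (hNewt : Stmt_Newt) {F G : E → ℝ} (h : Adm F) (h' : Adm G) :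
    Integrable (fun p : E × E => F p.1 * G p.2 * ‖p.1 - p.2‖⁻¹) := by
  have hm : Measurable (fun p : E × E => F p.1 * G p.2 * ‖p.1 - p.2‖⁻¹) :=
    ((h.meas.comp measurable_fst).mul (h'.meas.comp measurable_snd)).mul meas_inv
  rw [Measure.volume_eq_prod, integrable_prod_iff hm.aestronglyMeasurable]
  constructor
  · refine Eventually.of_forall fun x => ?_
    have h1 := (int hNewt h' x).const_mul (F x)
    refine h1.congr (Eventually.of_forall fun y => ?_)
    change F x * (G y * ‖x - y‖⁻¹) = F x * G y * ‖x - y‖⁻¹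
    ring
  · have h1 := adm_int (mulAdm hNewt (adm_abs h) (adm_abs h'))
    refine h1.congr (Eventually.of_forall fun x => ?_)
    change |F x| * pot (fun y => |G y|) x = ∫ y, ‖F x * G y * ‖x - y‖⁻¹‖
    rw [pot, ← integral_const_mul]
    refine integral_congr_ae (Eventually.of_forall fun y => ?_)
    change |F x| * (|G y| * ‖x - y‖⁻¹) = ‖F x * G y * ‖x - y‖⁻¹‖
    rw [norm_mul, norm_mul, norm_inv, norm_norm, Real.norm_eq_abs, Real.norm_eq_abs]
    ring

theorem Dfm_eq (F G : E → ℝ) : Dfm F G = ∫ x, ∫ y, F x * G y * ‖x - y‖⁻¹ := by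
  unfold Dfm pot
  refine integral_congr_ae (Eventually.of_forall fun x => ?_)
  change F x * (∫ y, G y * ‖x - y‖⁻¹) = ∫ y, F x * G y * ‖x - y‖⁻¹
  rw [← integral_const_mul]
  refine integral_congr_ae (Eventually.of_forall fun y => ?_)
  change F x * (G y * ‖x - y‖⁻¹) = F x * G y * ‖x - y‖⁻¹
  ring

theorem Dfm_comm (hNewt : Stmt_Newt) {F G : E → ℝ} (h : Adm F) (h' : Adm G) :
    Dfm F G = Dfm G F := by
  rw [Dfm_eq, Dfm_eq]
  have h1 := prodInt hNewt h h'
  rw [Measure.volume_eq_prod] at h1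
  rw [integral_integral_swap (f := fun x y => F x * G y * ‖x - y‖⁻¹) h1]
  refine integral_congr_ae (Eventually.of_forall fun x => ?_)
  refine integral_congr_ae (Eventually.of_forall fun y => ?_)
  change F y * G x * ‖y - x‖⁻¹ = G x * F y * ‖x - y‖⁻¹
  rw [norm_sub_rev y x]
  ring

theorem pot_add (hNewt : Stmt_Newt) {F G : E → ℝ} (h : Adm F) (h' : Adm G) (x : E) :
    pot (fun y => F y + G y) x = pot F x + pot G x := by
  unfold pot
  rw [← integral_add (int hNewt h x) (int hNewt h' x)]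
  refine integral_congr_ae (Eventually.of_forall fun y => ?_)
  change (F y + G y) * ‖x - y‖⁻¹ = F y * ‖x - y‖⁻¹ + G y * ‖x - y‖⁻¹
  ring

theorem Dfm_add_left (hNewt : Stmt_Newt) {F G H : E → ℝ} (hF : Adm F) (hG : Adm G)
    (hH : Adm H) : Dfm (fun y => F y + G y) H = Dfm F H + Dfm G H := by
  unfold Dfm
  rw [← integral_add (adm_int (mulAdm hNewt hF hH)) (adm_int (mulAdm hNewt hG hH))]
  refine integral_congr_ae (Eventually.of_forall fun y => ?_)
  change (F y + G y) * pot H y = F y * pot H y + G y * pot H y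
  ring

theorem Dfm_add_right (hNewt : Stmt_Newt) {F G H : E → ℝ} (hF : Adm F) (hG : Adm G)
    (hH : Adm H) : Dfm H (fun y => F y + G y) = Dfm H F + Dfm H G := by
  rw [Dfm_comm hNewt hH (adm_add hF hG), Dfm_add_left hNewt hF hG hH, Dfm_comm hNewt hH hF,
    Dfm_comm hNewt hH hG]

end Pot_

open Pot_ in
theorem Pot_proof (hNewt : Stmt_Newt) (_hLens : Stmt_Lens) : Stmt_Pot :=
  ⟨fun _ h => meas h, fun _ h x => int hNewt h x,
    fun _ _ _ _ _ hb hS hS' hF ht x => bound hNewt hb hS hS' hF ht x,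
    fun _ _ h h' => prodInt hNewt h h', fun _ _ h h' => Dfm_comm hNewt h h',
    fun _ _ h h' x => pot_add hNewt h h' x,
    fun _ _ _ hF hG hH => Dfm_add_left hNewt hF hG hH,
    fun _ _ _ hF hG hH => Dfm_add_right hNewt hF hG hH⟩

end Pool.Agent.JEL

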