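import Pool.Agent.JEL.Stmts

open MeasureTheory Set Filter Topology

namespace Pool.Agent.JEL

namespace PrCov_

/-- the factor measure -/
noncomputable abbrev fac (L : ℝ) : Measure ℝ :=
  ENNReal.ofReal L⁻¹ • (volume.restrict (Icc L (2 * L)))

theorem fac_prob {L : ℝ} (hL : 0 < L) : IsProbabilityMeasure (fac L) := by
  constructor
  rw [Measure.smul_apply, Measure.restrict_apply MeasurableSet.univ, univ_inter, Real.volume_Icc,
    smul_eq_mul, ← ENNReal.ofReal_mul (by positivity)]
  have : L⁻¹ * (2 * L - L) = 1 := by field_simp; ring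
  rw [this, ENNReal.ofReal_one]

theorem fac_Ico {L a : ℝ} (hL : 0 < L) (ha : 0 < a) (t : ℝ) :
    fac L (Ico (t - a) t) ≤ ENNReal.ofReal (a / L) := by
  rw [Measure.smul_apply, smul_eq_mul]
  have h1 : (volume.restrict (Icc L (2 * L))) (Ico (t - a) t) ≤ ENNReal.ofReal a := by
    refine (Measure.restrict_apply_le _ _).trans ?_
    rw [Real.volume_Ico]
    apply ENNReal.ofReal_le_ofReal
    linarith
  calc ENNReal.ofReal L⁻¹ * (volume.restrict (Icc L (2 * L))) (Ico (t - a) t)
      ≤ ENNReal.ofReal L⁻¹ * ENNReal.ofReal a := by gcongr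
    _ = ENNReal.ofReal (a / L) := by
        rw [← ENNReal.ofReal_mul (by positivity)]
        congr 1
        field_simp

theorem fac_compl {L : ℝ} : fac L (Icc L (2 * L))ᶜ = 0 := by
  rw [Measure.smul_apply, smul_eq_mul, Measure.restrict_apply measurableSet_Icc.compl]
  simp

theorem exists_near {L : ℝ} (hL : 0 < L) (x : E) : ∃ u : Fin 3 → ℤ, ‖x - gc L u‖ ≤ L := by
  refine ⟨fun j => round (x j / L), ?_⟩
  rw [EuclideanSpace.norm_eq, Real.sqrt_le_left hL.le]
  have h : ∀ j : Fin 3, ‖(x - gc L fun j => round (x j / L)) j‖ ^ 2 ≤ L ^ 2 / 4 := by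
    intro j
    have h1 : (x - gc L fun j => round (x j / L)) j = L * (x j / L - round (x j / L)) := by
      simp [gc, toE]
      field_simp
    have h2 := abs_sub_round (x j / L)
    rw [h1, norm_mul, mul_pow, Real.norm_eq_abs, Real.norm_eq_abs, sq_abs]
    have h3 : |x j / L - round (x j / L)| ^ 2 ≤ (1 / 2) ^ 2 :=
      pow_le_pow_left₀ (abs_nonneg _) h2 2
    nlinarith [sq_nonneg L]
  calc ∑ j, ‖(x - gc L fun j => round (x j / L)) j‖ ^ 2 ≤ ∑ _j : Fin 3, L ^ 2 / 4 :=
        Finset.sum_le_sum fun j _ => h j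
    _ = 3 * (L ^ 2 / 4) := by simp
    _ ≤ L ^ 2 := by nlinarith [sq_nonneg L]

theorem card_near {L : ℝ} (hL : 0 < L) (x : E) (V : Finset (Fin 3 → ℤ)) :
    (V.filter fun u => ‖x - gc L u‖ ≤ 3 * L).card ≤ 343 := by
  have hsub : (V.filter fun u => ‖x - gc L u‖ ≤ 3 * L) ⊆
      Fintype.piFinset (fun j : Fin 3 => Finset.Icc ⌈x j / L - 3⌉ ⌊x j / L + 3⌋) := by
    intro u hu
    rw [Finset.mem_filter] at hu
    rw [Fintype.mem_piFinset]
    intro j
    have h1 : |x j - L * u j| ≤ 3 * L := by
      have h2 := (PiLp.norm_apply_le (x - gc L u) j).trans hu.2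
      have h3 : (x - gc L u) j = x j - L * u j := by simp [gc, toE]
      rw [h3, Real.norm_eq_abs] at h2
      exact h2
    rw [abs_le] at h1
    rw [Finset.mem_Icc, Int.ceil_le, Int.le_floor]
    constructor
    · rw [sub_le_iff_le_add, div_le_iff₀ hL]
      linarith [h1.2]
    · rw [← sub_le_iff_le_add, le_div_iff₀ hL]
      linarith [h1.1]
  refine (Finset.card_le_card hsub).trans ?_
  rw [Fintype.card_piFinset]
  have h : ∀ j : Fin 3, (Finset.Icc ⌈x j / L - 3⌉ ⌊x j / L + 3⌋).card ≤ 7 := by
    intro j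
    rw [Int.card_Icc]
    have h1 := Int.floor_le (x j / L + 3)
    have h2 := Int.le_ceil (x j / L - 3)
    have h3 : ((⌊x j / L + 3⌋ + 1 - ⌈x j / L - 3⌉ : ℤ) : ℝ) ≤ 7 := by
      push_cast
      linarith
    have h4 : ⌊x j / L + 3⌋ + 1 - ⌈x j / L - 3⌉ ≤ 7 := by exact_mod_cast h3
    omega
  calc ∏ j : Fin 3, (Finset.Icc ⌈x j / L - 3⌉ ⌊x j / L + 3⌋).card ≤ ∏ _j : Fin 3, 7 :=
        Finset.prod_le_prod' fun j _ => h j
    _ = 343 := by simp

end PrCov_

open PrCov_ in
theorem PrCov_proof : Stmt_PrCov := by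
  classical
  intro L a V x ha haL hV
  have hL : 0 < L := lt_of_lt_of_le ha haL
  have hp := fac_prob hL
  have hprob : IsProbabilityMeasure (lawS L V) := by
    unfold lawS
    infer_instance
  let N : Finset V := Finset.univ.filter fun u : V => ‖x - gc L u‖ ≤ 3 * L
  have hN : N.card ≤ 343 := by
    have h1 : N.card ≤ (V.filter fun u => ‖x - gc L u‖ ≤ 3 * L).card := by
      apply Finset.card_le_card_of_injOn (fun u : V => (u : Fin 3 → ℤ))
      · intro u hu
        simp only [N, Finset.coe_filter, Finset.mem_univ, true_and, mem_ofPred_eq] at hu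
        simp only [Finset.coe_filter, mem_ofPred_eq]
        exact ⟨u.2, hu⟩
      · intro u _ v _ h
        exact Subtype.ext h
    exact h1.trans (card_near hL x V)
  -- the exceptional sets
  let A : V → Set (V → ℝ) := fun u => {s | s u ∈ Ico (‖x - gc L u‖ - a) ‖x - gc L u‖}
  let B : V → Set (V → ℝ) := fun u => {s | s u ∈ (Icc L (2 * L))ᶜ}
  have hA : ∀ u, lawS L V (A u) ≤ ENNReal.ofReal (a / L) := by
    intro u
    have h := (measurePreserving_eval (fun _ : V => fac L) u).measure_preimage
      (s := Ico (‖x - gc L u‖ - a) ‖x - gc L u‖) measurableSet_Ico.nullMeasurableSet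
    have h2 : lawS L V (A u) = fac L (Ico (‖x - gc L u‖ - a) ‖x - gc L u‖) := h
    rw [h2]
    exact fac_Ico hL ha _
  have hB : ∀ u, lawS L V (B u) = 0 := by
    intro u
    have h := (measurePreserving_eval (fun _ : V => fac L) u).measure_preimage
      (s := (Icc L (2 * L))ᶜ) measurableSet_Icc.compl.nullMeasurableSet
    have h2 : lawS L V (B u) = fac L (Icc L (2 * L))ᶜ := h
    rw [h2]
    exact fac_compl
  -- covering
  have hcov : (univ : Set (V → ℝ)) ⊆ (⋃ v : V, {s | good L a V v s x}) ∪
      ((⋃ u ∈ N, A u) ∪ ⋃ u : V, B u) := by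
    intro s _
    by_contra hs
    simp only [mem_union, mem_iUnion, not_or, not_exists, mem_ofPred_eq] at hs
    obtain ⟨h1, h2, h3⟩ := hs
    have h3' : ∀ u : V, s u ∈ Icc L (2 * L) := by
      intro u
      by_contra h
      exact h3 u h
    obtain ⟨u₀, hu₀⟩ := exists_near hL x
    have hu₀V : u₀ ∈ V := hV u₀ (by linarith)
    let S : Finset V := Finset.univ.filter fun u : V => ‖x - gc L u‖ ≤ 3 * L ∧
      ‖x - gc L u‖ ≤ s u + a
    have hS : S.Nonempty := by
      refine ⟨⟨u₀, hu₀V⟩, ?_⟩
      simp only [S, Finset.mem_filter, Finset.mem_univ, true_and]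
      refine ⟨by linarith, ?_⟩
      have := (h3' ⟨u₀, hu₀V⟩).1
      linarith
    obtain ⟨v, hvS, hvmin⟩ := S.exists_min_image
      (fun u : V => Encodable.encode (u : Fin 3 → ℤ)) hS
    simp only [S, Finset.mem_filter, Finset.mem_univ, true_and] at hvS
    apply h1 v
    have hvN : v ∈ N := by
      simp only [N, Finset.mem_filter, Finset.mem_univ, true_and]
      exact hvS.1
    have h4 := h2 v hvN
    have h5 : ‖x - gc L v‖ ≤ s v := by
      by_contra h6
      push Not at h6
      apply h4
      exact ⟨by linarith [hvS.2], h6⟩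
    refine ⟨h5, h5.trans (h3' v).2, ?_⟩
    intro u hu hu3
    by_contra h6
    push Not at h6
    have h7 : u ∈ S := by
      simp only [S, Finset.mem_filter, Finset.mem_univ, true_and]
      exact ⟨hu3, h6⟩
    have h8 := hvmin u h7
    omega
  -- measures
  have hm : (1 : ENNReal) ≤ (∑ v : V, lawS L V {s | good L a V v s x}) +
      ENNReal.ofReal (343 * a / L) := by
    calc (1 : ENNReal) = lawS L V univ := measure_univ.symm
      _ ≤ lawS L V ((⋃ v : V, {s | good L a V v s x}) ∪ ((⋃ u ∈ N, A u) ∪ ⋃ u : V, B u)) :=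
          measure_mono hcov
      _ ≤ lawS L V (⋃ v : V, {s | good L a V v s x}) +
          (lawS L V (⋃ u ∈ N, A u) + lawS L V (⋃ u : V, B u)) := by
          refine (measure_union_le _ _).trans ?_
          gcongr
          exact measure_union_le _ _
      _ ≤ (∑ v : V, lawS L V {s | good L a V v s x}) +
          ((∑ u ∈ N, ENNReal.ofReal (a / L)) + 0) := by
          gcongr
          · have h := measure_iUnion_fintype_le (lawS L V)
              (fun v : V => {s : V → ℝ | good L a V v s x})
            exact h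
          · refine (measure_biUnion_finset_le _ _).trans ?_
            exact Finset.sum_le_sum fun u _ => hA u
          · have h := measure_iUnion_fintype_le (lawS L V) B
            refine h.trans ?_
            rw [Finset.sum_eq_zero fun u _ => hB u]
      _ ≤ (∑ v : V, lawS L V {s | good L a V v s x}) + ENNReal.ofReal (343 * a / L) := by
          gcongr
          rw [add_zero, Finset.sum_const, nsmul_eq_mul]
          calc (N.card : ENNReal) * ENNReal.ofReal (a / L)
              ≤ 343 * ENNReal.ofReal (a / L) := by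
                gcongr
                exact_mod_cast hN
            _ = ENNReal.ofReal (343 * a / L) := by
                have h343 : (343 : ENNReal) = ENNReal.ofReal 343 := by
                  norm_num
                rw [h343, ← ENNReal.ofReal_mul (by norm_num)]
                congr 1
                ring
  have hsum : (∑ v : V, lawS L V {s | good L a V v s x}) =
      ENNReal.ofReal (∑ v : V, (lawS L V).real {s | good L a V v s x}) := by
    rw [ENNReal.ofReal_sum_of_nonneg fun v _ => measureReal_nonneg]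
    apply Finset.sum_congr rfl
    intro v _
    exact (ofReal_measureReal (measure_ne_top _ _)).symm
  rw [hsum, ← ENNReal.ofReal_add (Finset.sum_nonneg fun v _ => measureReal_nonneg)
    (by positivity), ← ENNReal.ofReal_one] at hm
  have h0 : 0 ≤ ∑ v : V, (lawS L V).real {s | good L a V v s x} :=
    Finset.sum_nonneg fun v _ => measureReal_nonneg
  have h01 : 0 ≤ 343 * a / L := by positivity
  have h9 := (ENNReal.ofReal_le_ofReal_iff (by positivity)).mp hm
  linarith

end Pool.Agent.JEL
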