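import Pool.Agent.JEL.Stmts

/-!
# JEL, module PrDen: density bound for the concrete process
-/

open MeasureTheory Set Filter Topology

namespace Pool.Agent.JEL

namespace PrDen_

/-- density of the wiggles -/
noncomputable def cc (δ : ℝ) : ENNReal := (volume (cB (0:E) δ))⁻¹

theorem vol_cB (δ : ℝ) (hδ : 0 < δ) : volume (cB (0:E) δ) = ENNReal.ofReal (vb δ) := by
  rw [EuclideanSpace.volume_closedBall_fin_three]
  unfold vb
  rw [← ENNReal.ofReal_pow hδ.le, ← ENNReal.ofReal_mul (by positivity)]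
  congr 1
  ring

theorem vb_pos (δ : ℝ) (hδ : 0 < δ) : 0 < vb δ := by
  unfold vb
  positivity

theorem cc_eq (δ : ℝ) (hδ : 0 < δ) : cc δ = ENNReal.ofReal (vb δ)⁻¹ := by
  unfold cc
  rw [vol_cB δ hδ, ENNReal.ofReal_inv_of_pos (vb_pos δ hδ)]

theorem prob_w (δ : ℝ) (hδ : 0 < δ) :
    IsProbabilityMeasure ((volume (cB (0:E) δ))⁻¹ • volume.restrict (cB (0:E) δ)) := by
  refine ⟨?_⟩
  rw [Measure.smul_apply, Measure.restrict_apply_univ, smul_eq_mul]
  refine ENNReal.inv_mul_cancel ?_ ?_
  · rw [vol_cB δ hδ]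
    have := vb_pos δ hδ
    simpa using this
  · rw [vol_cB δ hδ]
    exact ENNReal.ofReal_ne_top

theorem prob_s (L : ℝ) (hL : 0 < L) :
    IsProbabilityMeasure (ENNReal.ofReal L⁻¹ • (volume.restrict (Icc L (2 * L)))) := by
  refine ⟨?_⟩
  rw [Measure.smul_apply, Measure.restrict_apply_univ, smul_eq_mul, Real.volume_Icc,
    ← ENNReal.ofReal_mul (by positivity)]
  have : L⁻¹ * (2 * L - L) = 1 := by
    field_simp
    ring
  rw [this, ENNReal.ofReal_one]

theorem prob_cube : IsProbabilityMeasure ((volume : Measure (Fin 3 → ℝ)).restrict cube) := by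
  refine ⟨?_⟩
  rw [Measure.restrict_apply_univ]
  unfold cube
  rw [Real.volume_pi_Ico]
  simp

theorem prob_t : IsProbabilityMeasure ((volume : Measure ℝ).restrict (Icc (0:ℝ) 1)) := by
  refine ⟨?_⟩
  rw [Measure.restrict_apply_univ, Real.volume_Icc]
  simp

/-- the marginal of the wiggles has density at most `c ^ n` -/
theorem pi_le (δ : ℝ) (hδ : 0 < δ) (n : ℕ) (S : Set (Fin n → E)) :
    (Measure.pi (fun _ : Fin n => (volume (cB (0:E) δ))⁻¹ • volume.restrict (cB (0:E) δ))) S
      ≤ cc δ ^ n * volume S := by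
  have := prob_w δ hδ
  have h1 : Measure.pi (fun _ : Fin n => (volume (cB (0:E) δ))⁻¹ •
      volume.restrict (cB (0:E) δ)) =
      (cc δ ^ n) • Measure.pi (fun _ : Fin n => (volume : Measure E).restrict (cB (0:E) δ)) := by
    refine Measure.pi_eq ?_
    intro s hs
    rw [Measure.smul_apply, Measure.pi_pi, smul_eq_mul]
    simp only [Measure.smul_apply, smul_eq_mul]
    rw [Finset.prod_mul_distrib, Finset.prod_const, Finset.card_univ, Fintype.card_fin]
    rfl
  rw [h1, Measure.smul_apply, smul_eq_mul]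
  refine mul_le_mul_right ?_ _
  rw [← Measure.restrict_pi_pi]
  exact Measure.restrict_apply_le _ _

/-- retained region of the candidate `i`, radii, shifts and thinning variable being fixed -/
def Rs (L a a' : ℝ) {V J : Finset (Fin 3 → ℤ)} (D : Set E) (κ : E → ℝ) (s : V → ℝ)
    (u : V → Fin 3 → ℝ) (t : V × J → ℝ) (i : V × J) : Set E :=
  {x | x ∈ D ∧ ‖x - site L a' i u‖ ≤ (a' - a) / 2 ∧ good L a V i.1 s x ∧
    t i * pint L a a' V x ≤ κ x}

theorem mem_pR (L a a' : ℝ) {V J : Finset (Fin 3 → ℤ)} (D : Set E) (κ : E → ℝ) (s : V → ℝ)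
    (u : V → Fin 3 → ℝ) (w : V × J → E) (t : V × J → ℝ) (i : V × J) :
    (((s, u), (w, t)) : Sam V J) ∈ pR L a a' D κ i ↔
      site L a' i u + w i ∈ Rs L a a' D κ s u t i := by
  unfold pR Rs pY
  simp only [mem_ofPred_eq, add_sub_cancel_left]

theorem good_meas1 (L a : ℝ) (V : Finset (Fin 3 → ℤ)) (v : V) (s : V → ℝ) (u : V) :
    MeasurableSet {x : E | Encodable.encode (u : Fin 3 → ℤ) <
      Encodable.encode (v : Fin 3 → ℤ) → ‖x - gc L u‖ ≤ 3 * L → s u + a < ‖x - gc L u‖} := by
  have hn : ∀ c : E, Measurable (fun x : E => ‖x - c‖) := fun c =>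
    (measurable_id.sub_const c).norm
  by_cases hu : Encodable.encode (u : Fin 3 → ℤ) < Encodable.encode (v : Fin 3 → ℤ)
  · have h2 : {x : E | Encodable.encode (u : Fin 3 → ℤ) < Encodable.encode (v : Fin 3 → ℤ) →
        ‖x - gc L u‖ ≤ 3 * L → s u + a < ‖x - gc L u‖} =
        {x : E | ‖x - gc L u‖ ≤ 3 * L}ᶜ ∪ {x : E | s u + a < ‖x - gc L u‖} := by
      ext x
      simp only [mem_ofPred_eq, mem_union, mem_compl_iff]
      tauto
    rw [h2]
    exact (measurableSet_le (hn _) measurable_const).compl.union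
      (measurableSet_lt measurable_const (hn _))
  · have h2 : {x : E | Encodable.encode (u : Fin 3 → ℤ) < Encodable.encode (v : Fin 3 → ℤ) →
        ‖x - gc L u‖ ≤ 3 * L → s u + a < ‖x - gc L u‖} = univ := by
      ext x
      simp [hu]
    rw [h2]
    exact MeasurableSet.univ

theorem good_meas (L a : ℝ) (V : Finset (Fin 3 → ℤ)) (v : V) (s : V → ℝ) :
    MeasurableSet {x : E | good L a V v s x} := by
  have hn : ∀ c : E, Measurable (fun x : E => ‖x - c‖) := fun c =>
    (measurable_id.sub_const c).norm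
  unfold good
  refine (measurableSet_le (hn _) measurable_const).inter
    ((measurableSet_le (hn _) measurable_const).inter ?_)
  have h1 : {x : E | ∀ u : V, Encodable.encode (u : Fin 3 → ℤ) <
      Encodable.encode (v : Fin 3 → ℤ) → ‖x - gc L u‖ ≤ 3 * L → s u + a < ‖x - gc L u‖} =
      ⋂ u : V, {x : E | Encodable.encode (u : Fin 3 → ℤ) <
      Encodable.encode (v : Fin 3 → ℤ) → ‖x - gc L u‖ ≤ 3 * L → s u + a < ‖x - gc L u‖} := by
    ext x
    simp
  have h0 : MeasurableSet {x : E | ∀ u : V, Encodable.encode (u : Fin 3 → ℤ) <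
      Encodable.encode (v : Fin 3 → ℤ) → ‖x - gc L u‖ ≤ 3 * L → s u + a < ‖x - gc L u‖} := by
    rw [h1]
    refine MeasurableSet.iInter fun u => ?_
    exact good_meas1 L a V v s u
  exact h0

theorem Rs_meas (L a a' : ℝ) {V J : Finset (Fin 3 → ℤ)} (D : Set E) (κ : E → ℝ)
    (hD : MeasurableSet D) (hκ : Measurable κ) (hp : Measurable (pint L a a' V)) (s : V → ℝ)
    (u : V → Fin 3 → ℝ) (t : V × J → ℝ) (i : V × J) :
    MeasurableSet (Rs L a a' D κ s u t i) := by
  unfold Rs
  refine hD.inter ((measurableSet_le (measurable_id.sub_const _).norm measurable_const).inter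
    ((good_meas L a V i.1 s).inter (measurableSet_le (hp.const_mul _) hκ)))

/-- the regions of different candidates are disjoint -/
theorem Rs_disj (L a a' : ℝ) (ha : 0 < a) (haa : a < a') (hL : 0 < L)
    (hfcc : Stmt_Fcc) {V J : Finset (Fin 3 → ℤ)} (D : Set E)
    (κ : E → ℝ) (s : V → ℝ) (u : V → Fin 3 → ℝ) (t : V × J → ℝ) (i j : V × J) (x : E)
    (hi : x ∈ Rs L a a' D κ s u t i) (hj : x ∈ Rs L a a' D κ s u t j) : i = j := by
  obtain ⟨-, hi1, hi2, -⟩ := hi
  obtain ⟨-, hj1, hj2, -⟩ := hj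
  -- the germs agree
  have key : ∀ v v' : V, good L a V v s x → good L a V v' s x →
      ¬ (Encodable.encode (v : Fin 3 → ℤ) < Encodable.encode (v' : Fin 3 → ℤ)) := by
    intro v v' hv hv' hlt
    have h1 := hv'.2.2 v hlt (by linarith [hv.2.1])
    linarith [hv.1]
  have hv : i.1 = j.1 := by
    have h1 := key i.1 j.1 hi2 hj2
    have h2 := key j.1 i.1 hj2 hi2
    have h3 : Encodable.encode (i.1 : Fin 3 → ℤ) = Encodable.encode (j.1 : Fin 3 → ℤ) := by
      omega
    exact Subtype.ext (Encodable.encode_injective h3)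
  obtain ⟨f1, f2, -, -⟩ := hfcc a' (ha.trans haa)
  have hk : (i.2 : Fin 3 → ℤ) = (j.2 : Fin 3 → ℤ) := by
    by_contra hne
    have hz : (i.2 : Fin 3 → ℤ) - (j.2 : Fin 3 → ℤ) ≠ 0 := sub_ne_zero.2 hne
    have h1 := f1 _ hz
    have h2 : site L a' i u - site L a' j u =
        fcc a' (fun k => (((i.2 : Fin 3 → ℤ) - (j.2 : Fin 3 → ℤ)) k : ℝ)) := by
      unfold site
      rw [hv]
      have h3 : (fun k => u j.1 k + ((i.2 : Fin 3 → ℤ) k : ℝ)) =
          (fun k => (((i.2 : Fin 3 → ℤ) - (j.2 : Fin 3 → ℤ)) k : ℝ)) +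
            fun k => u j.1 k + ((j.2 : Fin 3 → ℤ) k : ℝ) := by
        funext k
        simp only [Pi.add_apply, Pi.sub_apply, Int.cast_sub]
        ring
      rw [h3, f2]
      abel
    have h4 : ‖site L a' i u - site L a' j u‖ ≤ a' - a := by
      have h5 : site L a' i u - site L a' j u =
          (x - site L a' j u) - (x - site L a' i u) := by abel
      rw [h5]
      refine (norm_sub_le _ _).trans ?_
      linarith
    rw [h2] at h4
    linarith
  exact Prod.ext hv (Subtype.ext hk)

/-- all the points in their retained regions, radii, shifts, thinning variables fixed -/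
def Te {n : ℕ} (L a a' : ℝ) {V J : Finset (Fin 3 → ℤ)} (D : Set E) (κ : E → ℝ)
    (G : Set (Fin n → E)) (s : V → ℝ) (u : V → Fin 3 → ℝ) (t : V × J → ℝ)
    (e : Fin n → V × J) : Set (Fin n → E) :=
  {x | (∀ j, x j ∈ Rs L a a' D κ s u t (e j)) ∧ x ∈ G}

theorem Te_meas {n : ℕ} (L a a' : ℝ) {V J : Finset (Fin 3 → ℤ)} (D : Set E) (κ : E → ℝ)
    (hD : MeasurableSet D) (hκ : Measurable κ) (hp : Measurable (pint L a a' V))
    (G : Set (Fin n → E)) (hG : MeasurableSet G) (s : V → ℝ) (u : V → Fin 3 → ℝ)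
    (t : V × J → ℝ) (e : Fin n → V × J) : MeasurableSet (Te L a a' D κ G s u t e) := by
  unfold Te
  refine MeasurableSet.inter ?_ hG
  have h1 : {x : Fin n → E | ∀ j, x j ∈ Rs L a a' D κ s u t (e j)} =
      ⋂ j, (fun x : Fin n → E => x j) ⁻¹' Rs L a a' D κ s u t (e j) := by
    ext x
    simp
  have h2 : MeasurableSet {x : Fin n → E | ∀ j, x j ∈ Rs L a a' D κ s u t (e j)} := by
    rw [h1]
    exact MeasurableSet.iInter fun j =>
      (measurable_pi_apply j) (Rs_meas L a a' D κ hD hκ hp s u t (e j))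
  exact h2

open Classical in
theorem sum_Te {n : ℕ} (L a a' : ℝ) (ha : 0 < a) (haa : a < a') (hL : 0 < L)
    (hfcc : Stmt_Fcc) {V J : Finset (Fin 3 → ℤ)} (D : Set E) (κ : E → ℝ)
    (hD : MeasurableSet D) (hκ : Measurable κ) (hp : Measurable (pint L a a' V))
    (G : Set (Fin n → E)) (hG : MeasurableSet G) (s : V → ℝ) (u : V → Fin 3 → ℝ)
    (t : V × J → ℝ) (T : Finset (Fin n → V × J)) :
    ∑ e ∈ T, volume (Te L a a' D κ G s u t e) ≤ volume G := by
  rw [← measure_biUnion_finset]
  · refine measure_mono ?_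
    intro x hx
    simp only [mem_iUnion] at hx
    obtain ⟨e, -, he⟩ := hx
    exact he.2
  · intro e _ e' _ hne
    refine Set.disjoint_left.2 ?_
    intro x hx hx'
    apply hne
    funext j
    exact Rs_disj L a a' ha haa hL hfcc D κ s u t (e j) (e' j) (x j) (hx.1 j) (hx'.1 j)
  · intro e _
    exact Te_meas L a a' D κ hD hκ hp G hG s u t e

/-- the event that the candidates `e j` are retained and form a configuration in `G` -/
def Be {n : ℕ} (L a a' : ℝ) {V J : Finset (Fin 3 → ℤ)} (D : Set E) (κ : E → ℝ)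
    (G : Set (Fin n → E)) (e : Fin n → V × J) : Set (Sam V J) :=
  {ω | (∀ j, ω ∈ pR L a a' D κ (e j)) ∧ (fun j => pY L a' (e j) ω) ∈ G}

theorem Be_meas {n : ℕ} (L a a' : ℝ) {V J : Finset (Fin 3 → ℤ)} (D : Set E) (κ : E → ℝ)
    (hY : ∀ i : V × J, Measurable (pY L a' i))
    (hR : ∀ i : V × J, MeasurableSet (pR L a a' D κ i))
    (G : Set (Fin n → E)) (hG : MeasurableSet G) (e : Fin n → V × J) :
    MeasurableSet (Be L a a' D κ G e) := by
  unfold Be
  refine MeasurableSet.inter ?_ ?_
  · have h1 : {ω : Sam V J | ∀ j, ω ∈ pR L a a' D κ (e j)} = ⋂ j, pR L a a' D κ (e j) := by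
      ext x
      simp
    have h2 : MeasurableSet {ω : Sam V J | ∀ j, ω ∈ pR L a a' D κ (e j)} := by
      rw [h1]
      exact MeasurableSet.iInter fun j => hR (e j)
    exact h2
  · have h3 : Measurable (fun ω : Sam V J => (fun j => pY L a' (e j) ω : Fin n → E)) :=
      measurable_pi_lambda _ fun j => hY (e j)
    exact h3 hG

/-- integration over the wiggles -/
theorem wig {n : ℕ} (hMarg : Stmt_Marg) (L a a' : ℝ) (haa : a < a')
    {V J : Finset (Fin 3 → ℤ)} (D : Set E) (κ : E → ℝ)
    (hD : MeasurableSet D) (hκ : Measurable κ) (hp : Measurable (pint L a a' V))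
    (G : Set (Fin n → E)) (hG : MeasurableSet G) (s : V → ℝ) (u : V → Fin 3 → ℝ)
    (t : V × J → ℝ) (e : Fin n → V × J) (he : Function.Injective e) :
    (Measure.pi (fun _ : V × J => (volume (cB (0:E) ((a' - a) / 2)))⁻¹ •
      volume.restrict (cB (0:E) ((a' - a) / 2)))) {w | (((s, u), (w, t)) : Sam V J) ∈
        Be L a a' D κ G e} ≤ cc ((a' - a) / 2) ^ n * volume (Te L a a' D κ G s u t e) := by
  have hδ : 0 < (a' - a) / 2 := by linarith
  have := prob_w ((a' - a) / 2) hδ
  set S : Set (Fin n → E) := (fun z => (fun j => site L a' (e j) u) + z) ⁻¹'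
    Te L a a' D κ G s u t e with hS
  have hTe := Te_meas L a a' D κ hD hκ hp G hG s u t e
  have hSm : MeasurableSet S := (measurable_const_add _) hTe
  have h1 : {w : V × J → E | (((s, u), (w, t)) : Sam V J) ∈ Be L a a' D κ G e} =
      (fun x : V × J → E => fun j => x (e j)) ⁻¹' S := by
    ext w
    simp only [hS, mem_ofPred_eq, mem_preimage, Be, Te, mem_pR, Pi.add_apply, pY]
    rfl
  have hmeas : Measurable (fun x : V × J → E => fun j => x (e j)) :=
    measurable_pi_lambda _ fun j => measurable_pi_apply (e j)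
  rw [h1, ← Measure.map_apply hmeas hSm,
    hMarg (V × J) E (fun _ => (volume (cB (0:E) ((a' - a) / 2)))⁻¹ •
      volume.restrict (cB (0:E) ((a' - a) / 2))) n e he]
  refine (pi_le _ hδ n S).trans ?_
  rw [hS, measure_preimage_add]

end PrDen_

open PrDen_ in
open Classical in
/-- PrDen -/
theorem PrDen_proof (hMarg : Stmt_Marg) (hHc : Stmt_PrHc) (hfcc : Stmt_Fcc) : Stmt_PrDen := by
  intro L a a' ρ₂ V J D κ hP n G hG hsym
  have ha := hP.ha
  have haa := hP.haa
  have hL : 0 < L := ha.trans_le hP.hL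
  have hD := hP.hD.1
  have hκ := hP.hκ
  have hδ : 0 < (a' - a) / 2 := by linarith
  obtain ⟨hp, hY, hR, -⟩ := hHc L a a' V J D κ ha haa hP.hL hD hκ
  have := prob_w ((a' - a) / 2) hδ
  have := prob_s L hL
  have := prob_cube
  have := prob_t
  set μ1 : Measure ((V → ℝ) × (V → Fin 3 → ℝ)) :=
    (lawS L V).prod (Measure.pi (fun _ => volume.restrict cube)) with hμ1
  set μw : Measure (V × J → E) := Measure.pi (fun _ : V × J =>
    (volume (cB (0:E) ((a' - a) / 2)))⁻¹ • volume.restrict (cB (0:E) ((a' - a) / 2))) with hμw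
  set μt : Measure (V × J → ℝ) := Measure.pi (fun _ => volume.restrict (Icc (0:ℝ) 1)) with hμt
  have : IsProbabilityMeasure (lawS L V) := by
    unfold lawS
    infer_instance
  have : IsProbabilityMeasure μ1 := by
    rw [hμ1]
    infer_instance
  have : IsProbabilityMeasure μt := by
    rw [hμt]
    infer_instance
  have : IsProbabilityMeasure μw := by
    rw [hμw]
    infer_instance
  have hlaw : lawP L ((a' - a) / 2) V J = μ1.prod (μw.prod μt) := rfl
  rw [hlaw]
  set P := μ1.prod (μw.prod μt) with hPdef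
  set I : Finset (Fin n → V × J) := Finset.univ.filter (fun e => Function.Injective e) with hI
  have hBm : ∀ e, MeasurableSet (Be L a a' D κ G e) := fun e =>
    Be_meas L a a' D κ hY hR G hG e
  -- sum over the labelings
  have hsum : ∑ e ∈ I, P (Be L a a' D κ G e) ≤ cc ((a' - a) / 2) ^ n * volume G := by
    have h1 : ∀ e, P (Be L a a' D κ G e) = ∫⁻ q, ∫⁻ t, μw {w | ((q, (w, t)) : Sam V J) ∈
        Be L a a' D κ G e} ∂μt ∂μ1 := by
      intro e
      rw [hPdef, Measure.prod_apply (hBm e)]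
      refine lintegral_congr fun q => ?_
      rw [Measure.prod_apply_symm (measurable_prodMk_left (hBm e))]
      rfl
    have hm1 : ∀ e, Measurable (fun q : (V → ℝ) × (V → Fin 3 → ℝ) => ∫⁻ t, μw {w |
        ((q, (w, t)) : Sam V J) ∈ Be L a a' D κ G e} ∂μt) := by
      intro e
      have h2 : (fun q : (V → ℝ) × (V → Fin 3 → ℝ) => ∫⁻ t, μw {w |
        ((q, (w, t)) : Sam V J) ∈ Be L a a' D κ G e} ∂μt) =
        fun q => (μw.prod μt) (Prod.mk q ⁻¹' Be L a a' D κ G e) := by
        funext q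
        rw [Measure.prod_apply_symm (measurable_prodMk_left (hBm e))]
        rfl
      rw [h2]
      exact measurable_measure_prodMk_left (hBm e)
    have hm2 : ∀ e (q : (V → ℝ) × (V → Fin 3 → ℝ)), Measurable (fun t => μw {w |
        ((q, (w, t)) : Sam V J) ∈ Be L a a' D κ G e}) := by
      intro e q
      exact measurable_measure_prodMk_right (measurable_prodMk_left (hBm e))
    calc ∑ e ∈ I, P (Be L a a' D κ G e)
        = ∑ e ∈ I, ∫⁻ q, ∫⁻ t, μw {w | ((q, (w, t)) : Sam V J) ∈
            Be L a a' D κ G e} ∂μt ∂μ1 := Finset.sum_congr rfl fun e _ => h1 e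
      _ = ∫⁻ q, ∑ e ∈ I, ∫⁻ t, μw {w | ((q, (w, t)) : Sam V J) ∈
            Be L a a' D κ G e} ∂μt ∂μ1 := (lintegral_finsetSum _ fun e _ => hm1 e).symm
      _ ≤ ∫⁻ q, cc ((a' - a) / 2) ^ n * volume G ∂μ1 := by
          refine lintegral_mono fun q => ?_
          rw [← lintegral_finsetSum _ fun e _ => hm2 e q]
          calc ∫⁻ t, ∑ e ∈ I, μw {w | ((q, (w, t)) : Sam V J) ∈ Be L a a' D κ G e} ∂μt
              ≤ ∫⁻ t, cc ((a' - a) / 2) ^ n * volume G ∂μt := by
                refine lintegral_mono fun t => ?_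
                calc ∑ e ∈ I, μw {w | ((q, (w, t)) : Sam V J) ∈ Be L a a' D κ G e}
                    ≤ ∑ e ∈ I, cc ((a' - a) / 2) ^ n * volume (Te L a a' D κ G q.1 q.2 t e) := by
                      refine Finset.sum_le_sum fun e he => ?_
                      exact wig hMarg L a a' haa D κ hD hκ hp G hG q.1 q.2 t e
                        (Finset.mem_filter.1 he).2
                  _ = cc ((a' - a) / 2) ^ n * ∑ e ∈ I, volume (Te L a a' D κ G q.1 q.2 t e) := by
                      rw [Finset.mul_sum]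
                  _ ≤ cc ((a' - a) / 2) ^ n * volume G :=
                      mul_le_mul_right (sum_Te L a a' ha haa hL hfcc D κ hD hκ hp G hG
                        q.1 q.2 t I) _
            _ = cc ((a' - a) / 2) ^ n * volume G := by
                rw [lintegral_const, measure_univ, mul_one]
      _ = cc ((a' - a) / 2) ^ n * volume G := by
          rw [lintegral_const, measure_univ, mul_one]
  -- counting
  set F : Sam V J → ENNReal := fun ω => ∑ e ∈ I, (Be L a a' D κ G e).indicator 1 ω with hF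
  have hFm : Measurable F :=
    Finset.measurable_sum _ fun e _ => measurable_one.indicator (hBm e)
  have hFi : ∫⁻ ω, F ω ∂P = ∑ e ∈ I, P (Be L a a' D κ G e) := by
    rw [hF, lintegral_finsetSum _ fun e _ => measurable_one.indicator (hBm e)]
    exact Finset.sum_congr rfl fun e _ => lintegral_indicator_one (hBm e)
  have hsub : {ω : Sam V J | ∃ e : Fin n → V × J, Function.Injective e ∧
        (∀ i, ω ∈ pR L a a' D κ i ↔ i ∈ Set.range e) ∧ (fun j => pY L a' (e j) ω) ∈ G} ⊆
      {ω | (n.factorial : ENNReal) ≤ F ω} := by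
    rintro ω ⟨e0, he0, hr, hGm⟩
    have h1 : F ω = ((I.filter (fun e => ω ∈ Be L a a' D κ G e)).card : ENNReal) := by
      rw [hF]
      simp only [Set.indicator_apply, Pi.one_apply]
      rw [Finset.sum_ite, Finset.sum_const_zero, add_zero, Finset.sum_const, nsmul_eq_mul,
        mul_one]
    rw [mem_ofPred_eq, h1]
    have h2 : n.factorial ≤ (I.filter (fun e => ω ∈ Be L a a' D κ G e)).card := by
      have h3 : (Finset.univ : Finset (Equiv.Perm (Fin n))).card = n.factorial := by
        rw [Finset.card_univ, Fintype.card_perm, Fintype.card_fin]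
      rw [← h3]
      refine Finset.card_le_card_of_injOn (fun σ => e0 ∘ σ) ?_ ?_
      · intro σ _
        simp only [hI, Finset.coe_filter, mem_ofPred_eq, Finset.mem_filter, Finset.mem_univ,
          true_and]
        refine ⟨he0.comp σ.injective, fun j => (hr _).2 ⟨σ j, rfl⟩, ?_⟩
        exact hsym σ _ hGm
      · intro σ _ τ _ hστ
        apply Equiv.ext
        intro j
        exact he0 (congrFun hστ j)
    exact_mod_cast h2
  have hfac0 : (n.factorial : ENNReal) ≠ 0 := by
    exact_mod_cast n.factorial_ne_zero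
  have hfact : (n.factorial : ENNReal) ≠ ⊤ := ENNReal.natCast_ne_top _
  have hmk := mul_meas_ge_le_lintegral (μ := P) hFm (n.factorial : ENNReal)
  have h5 : (n.factorial : ENNReal) * P {ω : Sam V J | ∃ e : Fin n → V × J,
      Function.Injective e ∧ (∀ i, ω ∈ pR L a a' D κ i ↔ i ∈ Set.range e) ∧
        (fun j => pY L a' (e j) ω) ∈ G} ≤ cc ((a' - a) / 2) ^ n * volume G := by
    refine (mul_le_mul_right (measure_mono hsub) _).trans (hmk.trans ?_)
    rw [hFi]
    exact hsum
  have h6 : P {ω : Sam V J | ∃ e : Fin n → V × J,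
      Function.Injective e ∧ (∀ i, ω ∈ pR L a a' D κ i ↔ i ∈ Set.range e) ∧
        (fun j => pY L a' (e j) ω) ∈ G} ≤
      (n.factorial : ENNReal)⁻¹ * (cc ((a' - a) / 2) ^ n * volume G) := by
    rw [← ENNReal.div_eq_inv_mul]
    rw [ENNReal.le_div_iff_mul_le (Or.inl hfac0) (Or.inl hfact), mul_comm]
    exact h5
  refine h6.trans (le_of_eq ?_)
  have hv0 : 0 ≤ (vb ((a' - a) / 2))⁻¹ := inv_nonneg.2 (vb_pos _ hδ).le
  rw [← mul_assoc]
  congr 1
  rw [cc_eq _ hδ]
  generalize (vb ((a' - a) / 2))⁻¹ = v at hv0 ⊢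
  rw [← ENNReal.ofReal_pow hv0, div_eq_inv_mul,
    ENNReal.ofReal_mul (by positivity), ENNReal.ofReal_inv_of_pos
      (by exact_mod_cast n.factorial_pos), ENNReal.ofReal_natCast]

end Pool.Agent.JEL
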