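import Pool.Agent.JEL.Stmts

open MeasureTheory Set Filter Topology

namespace Pool.Agent.JEL

namespace PrFar_

open scoped ENNReal

/-- law of a shift -/
noncomputable abbrev mU : Measure (Fin 3 → ℝ) := volume.restrict cube
/-- law of a wiggle -/
noncomputable abbrev mW (δ : ℝ) : Measure E :=
  (volume (cB (0:E) δ))⁻¹ • volume.restrict (cB (0:E) δ)
/-- law of a thinning variable -/
noncomputable abbrev mT : Measure ℝ := volume.restrict (Icc (0:ℝ) 1)

instance : IsProbabilityMeasure mU := by
  constructor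
  rw [Measure.restrict_apply_univ, cube, Real.volume_pi_Ico]
  simp

instance : IsProbabilityMeasure mT := by
  constructor
  rw [Measure.restrict_apply_univ, Real.volume_Icc]
  simp

lemma prob_mW {δ : ℝ} (hδ : 0 < δ) : IsProbabilityMeasure (mW δ) := by
  constructor
  rw [Measure.smul_apply, Measure.restrict_apply_univ, smul_eq_mul]
  apply ENNReal.inv_mul_cancel
  · exact (Metric.measure_closedBall_pos volume _ hδ).ne'
  · exact (isCompact_closedBall (0:E) δ).measure_lt_top.ne

lemma prob_lawS {L : ℝ} (hL : 0 < L) (V : Finset (Fin 3 → ℤ)) :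
    IsProbabilityMeasure (lawS L V) := by
  have : IsProbabilityMeasure (ENNReal.ofReal L⁻¹ • (volume.restrict (Icc L (2 * L)))) := by
    constructor
    rw [Measure.smul_apply, Measure.restrict_apply_univ, smul_eq_mul, Real.volume_Icc,
      ← ENNReal.ofReal_mul (by positivity)]
    rw [show L⁻¹ * (2 * L - L) = 1 by field_simp; ring]
    simp
  unfold lawS
  infer_instance

lemma pair_mp {ι : Type} [Fintype ι] {α : Type} [MeasurableSpace α] (μ : Measure α)
    [IsProbabilityMeasure μ] (i j : ι) (hij : i ≠ j) :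
    MeasurePreserving (fun x : ι → α => (x i, x j)) (Measure.pi (fun _ => μ)) (μ.prod μ) := by
  have h0 : ProbabilityTheory.iIndepFun (fun (i : ι) (ω : ι → α) => (ω i))
      (Measure.pi (fun _ : ι => μ)) :=
    ProbabilityTheory.iIndepFun_pi (X := fun _ => id) (fun i => aemeasurable_id)
  have h1 := h0.indepFun hij
  have hi := measurePreserving_eval (fun _ : ι => μ) i
  have hj := measurePreserving_eval (fun _ : ι => μ) j
  refine ⟨by fun_prop, ?_⟩
  have h2 := (ProbabilityTheory.indepFun_iff_map_prod_eq_prod_map_map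
    hi.measurable.aemeasurable hj.measurable.aemeasurable).1 h1
  have h3 : Measure.map (fun x : ι → α => x i) (Measure.pi (fun _ => μ)) = μ := hi.map_eq
  have h4 : Measure.map (fun x : ι → α => x j) (Measure.pi (fun _ => μ)) = μ := hj.map_eq
  calc _ = _ := h2
    _ = _ := by
      congr 1

lemma ppc {A B C D : Type} [MeasurableSpace A] [MeasurableSpace B] [MeasurableSpace C]
    [MeasurableSpace D] (a : Measure A) (b : Measure B) (c : Measure C) (d : Measure D)
    [SFinite a] [SFinite b] [SFinite c] [SFinite d] :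
    MeasurePreserving (fun x : (A × B) × (C × D) => ((x.1.1, x.2.1), (x.1.2, x.2.2)))
      ((a.prod b).prod (c.prod d)) ((a.prod c).prod (b.prod d)) := by
  have h1 := measurePreserving_prodAssoc a b (c.prod d)
  have h2 := (MeasurePreserving.id a).prod ((measurePreserving_prodAssoc b c d).symm _)
  have h3 := (MeasurePreserving.id a).prod
    ((Measure.measurePreserving_swap (μ := b) (ν := c)).prod (MeasurePreserving.id d))
  have h4 := (MeasurePreserving.id a).prod (measurePreserving_prodAssoc c b d)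
  have h5 := (measurePreserving_prodAssoc a c (b.prod d)).symm
  exact h5.comp (h4.comp (h3.comp (h2.comp h1)))

/-- law of the sample of one particle -/
noncomputable abbrev mQ (δ : ℝ) : Measure ((Fin 3 → ℝ) × (E × ℝ)) := mU.prod ((mW δ).prod mT)

variable {V J : Finset (Fin 3 → ℤ)}

/-- the sample of the particle `i` -/
def smp (i : V × J) (ω : Sam V J) : (Fin 3 → ℝ) × (E × ℝ) := (ω.1.2 i.1, (ω.2.1 i, ω.2.2 i))

lemma two_mp {L δ : ℝ} (hL : 0 < L) (hδ : 0 < δ) (i j : V × J) (hij : i.1 ≠ j.1) :
    MeasurePreserving (fun ω : Sam V J => (ω.1.1, (smp i ω, smp j ω))) (lawP L δ V J)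
      ((lawS L V).prod ((mQ δ).prod (mQ δ))) := by
  have := prob_lawS hL V
  have := prob_mW hδ
  have hij' : i ≠ j := fun h => hij (by rw [h])
  have h1 := ((MeasurePreserving.id (lawS L V)).prod (pair_mp mU i.1 j.1 hij)).prod
    ((pair_mp (mW δ) i j hij').prod (pair_mp mT i j hij'))
  have h2 := measurePreserving_prodAssoc (lawS L V) (mU.prod mU)
    (((mW δ).prod (mW δ)).prod (mT.prod mT))
  have h3 := (MeasurePreserving.id (lawS L V)).prod
    ((MeasurePreserving.id (mU.prod mU)).prod (ppc (mW δ) (mW δ) mT mT))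
  have h4 := (MeasurePreserving.id (lawS L V)).prod
    (ppc mU mU ((mW δ).prod mT) ((mW δ).prod mT))
  exact h4.comp (h3.comp (h2.comp h1))


/-- position of the particle with sample `p` -/
noncomputable def pos (L a' : ℝ) (i : V × J) (p : (Fin 3 → ℝ) × (E × ℝ)) : E :=
  gc L i.1 + fcc a' (fun j => p.1 j + ((i.2 : Fin 3 → ℤ) j : ℝ)) + p.2.1

lemma pos_smp (L a' : ℝ) (i : V × J) (ω : Sam V J) : pos L a' i (smp i ω) = pY L a' i ω := rfl

/-- retention of the particle with sample `p`, radii `s` -/
def ret (L a a' : ℝ) (D : Set E) (κ : E → ℝ) (i : V × J) :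
    Set ((V → ℝ) × ((Fin 3 → ℝ) × (E × ℝ))) :=
  {q | pos L a' i q.2 ∈ D ∧ ‖q.2.2.1‖ ≤ (a' - a) / 2 ∧ good L a V i.1 q.1 (pos L a' i q.2) ∧
    q.2.2.2 * pint L a a' V (pos L a' i q.2) ≤ κ (pos L a' i q.2)}

lemma mem_ret (L a a' : ℝ) (D : Set E) (κ : E → ℝ) (i : V × J) (ω : Sam V J) :
    ω ∈ pR L a a' D κ i ↔ (ω.1.1, smp i ω) ∈ ret L a a' D κ i := Iff.rfl

lemma meas_toE : Measurable toE := by
  unfold toE
  exact (WithLp.measurable_toLp 2 (Fin 3 → ℝ))

lemma meas_fcc (a' : ℝ) : Measurable (fcc a') := by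
  have h : Measurable (fun z : Fin 3 → ℝ => toE ![z 1 + z 2, z 0 + z 2, z 0 + z 1]) := by
    refine meas_toE.comp ?_
    rw [measurable_pi_iff]
    intro i
    fin_cases i <;> simp <;> fun_prop
  exact h.const_smul (a' / Real.sqrt 2)

lemma meas_pos (L a' : ℝ) (i : V × J) : Measurable (pos L a' i) := by
  unfold pos
  refine Measurable.add (Measurable.add measurable_const ((meas_fcc a').comp ?_)) (by fun_prop)
  rw [measurable_pi_iff]
  intro j
  fun_prop

lemma meas_good (L a : ℝ) (v : V) :
    MeasurableSet {q : (V → ℝ) × E | good L a V v q.1 q.2} := by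
  unfold good
  have h1 : MeasurableSet {q : (V → ℝ) × E | ‖q.2 - gc L v‖ ≤ q.1 v} :=
    measurableSet_le (by fun_prop) (by fun_prop)
  have h2 : MeasurableSet {q : (V → ℝ) × E | ‖q.2 - gc L v‖ ≤ 2 * L} :=
    measurableSet_le (by fun_prop) (by fun_prop)
  have h3 : MeasurableSet {q : (V → ℝ) × E | ∀ u : V,
      Encodable.encode (u : Fin 3 → ℤ) < Encodable.encode (v : Fin 3 → ℤ) →
      ‖q.2 - gc L u‖ ≤ 3 * L → q.1 u + a < ‖q.2 - gc L u‖} := by
    rw [ofPred_forall]
    refine MeasurableSet.iInter fun u => ?_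
    by_cases hu : Encodable.encode (u : Fin 3 → ℤ) < Encodable.encode (v : Fin 3 → ℤ)
    · simp only [hu, forall_const]
      have h4 : MeasurableSet {q : (V → ℝ) × E | ‖q.2 - gc L u‖ ≤ 3 * L} :=
        measurableSet_le (by fun_prop) (by fun_prop)
      have h5 : MeasurableSet {q : (V → ℝ) × E | q.1 u + a < ‖q.2 - gc L u‖} :=
        measurableSet_lt (by fun_prop) (by fun_prop)
      have : {q : (V → ℝ) × E | ‖q.2 - gc L u‖ ≤ 3 * L → q.1 u + a < ‖q.2 - gc L u‖}
          = {q : (V → ℝ) × E | ‖q.2 - gc L u‖ ≤ 3 * L}ᶜ ∪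
            {q : (V → ℝ) × E | q.1 u + a < ‖q.2 - gc L u‖} := by
        ext q
        simp only [mem_ofPred_eq, mem_union, mem_compl_iff]
        tauto
      rw [this]
      exact h4.compl.union h5
    · simp [hu]
  exact h1.inter (h2.inter h3)

lemma meas_ret {L a a' : ℝ} {D : Set E} {κ : E → ℝ} (i : V × J)
    (hD : MeasurableSet D) (hκ : Measurable κ) (hp : Measurable (pint L a a' V)) :
    MeasurableSet (ret L a a' D κ i) := by
  unfold ret
  have hpos := meas_pos L a' i
  have h0 : Measurable (fun q : (V → ℝ) × ((Fin 3 → ℝ) × (E × ℝ)) => pos L a' i q.2) :=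
    hpos.comp measurable_snd
  have h1 : MeasurableSet {q : (V → ℝ) × ((Fin 3 → ℝ) × (E × ℝ)) | ‖q.2.2.1‖ ≤ (a' - a) / 2} :=
    measurableSet_le (by fun_prop) (by fun_prop)
  have h2 : MeasurableSet {q : (V → ℝ) × ((Fin 3 → ℝ) × (E × ℝ)) |
      good L a V i.1 q.1 (pos L a' i q.2)} :=
    (measurable_fst.prodMk h0) (meas_good L a i.1)
  have h3 : MeasurableSet {q : (V → ℝ) × ((Fin 3 → ℝ) × (E × ℝ)) |
      q.2.2.2 * pint L a a' V (pos L a' i q.2) ≤ κ (pos L a' i q.2)} := by
    refine measurableSet_le ?_ (hκ.comp h0)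
    exact Measurable.mul (by fun_prop) (hp.comp h0)
  exact (h0 hD).inter (h1.inter (h2.inter h3))

/-- weight -/
noncomputable def wt (L a a' : ℝ) (V : Finset (Fin 3 → ℤ)) (κ : E → ℝ) (x : E) : ℝ≥0∞ :=
  ENNReal.ofReal (κ x / pint L a a' V x)

lemma thin {L a a' ρ₂ : ℝ} {D : Set E} {κ : E → ℝ}
    (h : PrHyp L a a' ρ₂ V J D κ) (x : E) :
    D.indicator (fun x => mT {t | t * pint L a a' V x ≤ κ x}) x = wt L a a' V κ x := by
  unfold wt
  by_cases hx : x ∈ D
  · rw [indicator_of_mem hx]
    have hp : 0 < pint L a a' V x := h.hρ.trans_le (h.hp x hx)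
    have h1 : κ x / pint L a a' V x ≤ 1 := by
      rw [div_le_one hp]
      exact (h.hκρ x hx).trans (h.hp x hx)
    have h0 : 0 ≤ κ x / pint L a a' V x := div_nonneg (h.hκ0 x) hp.le
    have hs : {t : ℝ | t * pint L a a' V x ≤ κ x} = Iic (κ x / pint L a a' V x) := by
      ext t
      simp only [mem_ofPred_eq, mem_Iic, le_div_iff₀ hp]
    rw [hs, Measure.restrict_apply measurableSet_Iic]
    have : Iic (κ x / pint L a a' V x) ∩ Icc 0 1 = Icc 0 (κ x / pint L a a' V x) := by
      ext t
      simp only [mem_inter_iff, mem_Iic, mem_Icc]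
      constructor
      · rintro ⟨h2, h3, h4⟩; exact ⟨h3, h2⟩
      · rintro ⟨h2, h3⟩; exact ⟨h3, h2, h3.trans h1⟩
    rw [this, Real.volume_Icc, sub_zero]
  · rw [indicator_of_notMem hx, h.hκD x hx]
    simp

lemma meas_wt {L a a' : ℝ} {κ : E → ℝ} (hκ : Measurable κ) (hp : Measurable (pint L a a' V)) :
    Measurable (wt L a a' V κ) := by
  unfold wt
  exact (hκ.div hp).ennreal_ofReal

/-- integration over the thinning variable -/
lemma one_t {L a a' ρ₂ : ℝ} {D : Set E} {κ : E → ℝ}
    (h : PrHyp L a a' ρ₂ V J D κ) (i : V × J) (s : V → ℝ) (g : E → ℝ≥0∞) (u : Fin 3 → ℝ) (w : E)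
    (hw : ‖w‖ ≤ (a' - a) / 2) :
    ∫⁻ t, (ret L a a' D κ i).indicator (fun q => g (pos L a' i q.2)) (s, (u, (w, t))) ∂mT
      = {x | good L a V i.1 s x}.indicator (fun x => wt L a a' V κ x * g x)
        (gc L i.1 + fcc a' (fun j => u j + ((i.2 : Fin 3 → ℤ) j : ℝ)) + w) := by
  set y := gc L i.1 + fcc a' (fun j => u j + ((i.2 : Fin 3 → ℤ) j : ℝ)) + w with hy
  have hpos : ∀ t, pos L a' i (u, (w, t)) = y := fun t => rfl
  have hT : MeasurableSet {t : ℝ | t * pint L a a' V y ≤ κ y} :=
    measurableSet_le (by fun_prop) (by fun_prop)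
  by_cases hg : good L a V i.1 s y
  · rw [indicator_of_mem (by exact hg), ← thin h y]
    have : ∀ t, (ret L a a' D κ i).indicator (fun q => g (pos L a' i q.2)) (s, (u, (w, t)))
        = {t : ℝ | t * pint L a a' V y ≤ κ y}.indicator (fun _ => D.indicator (fun _ => g y) y) t := by
      intro t
      by_cases hD : y ∈ D
      · by_cases ht : t * pint L a a' V y ≤ κ y
        · rw [indicator_of_mem (show (s, (u, (w, t))) ∈ ret L a a' D κ i from ⟨hD, hw, hg, ht⟩),
            indicator_of_mem (by exact ht), indicator_of_mem hD]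
          rfl
        · rw [indicator_of_notMem, indicator_of_notMem (by exact ht)]
          rintro ⟨_, _, _, h4⟩
          exact ht h4
      · rw [indicator_of_notMem]
        · simp [hD]
        · rintro ⟨h1, _⟩
          exact hD h1
    simp_rw [this]
    rw [lintegral_indicator_const hT]
    by_cases hD : y ∈ D
    · rw [indicator_of_mem hD, indicator_of_mem hD, mul_comm]
    · rw [indicator_of_notMem hD, indicator_of_notMem hD, zero_mul, zero_mul]
  · rw [indicator_of_notMem (by exact hg)]
    have : ∀ t, (ret L a a' D κ i).indicator (fun q => g (pos L a' i q.2)) (s, (u, (w, t))) = 0 := by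
      intro t
      rw [indicator_of_notMem]
      rintro ⟨_, _, h3, _⟩
      exact hg h3
    simp [this]

lemma ae_mW {δ : ℝ} : ∀ᵐ w ∂(mW δ), ‖w‖ ≤ δ := by
  refine Measure.ae_smul_measure ?_ _
  have := ae_restrict_mem (μ := volume) (s := cB (0:E) δ) Metric.isClosed_closedBall.measurableSet
  filter_upwards [this] with w hw
  simpa using hw

/-- one particle: sum over the lattice sites -/
lemma one {L a a' ρ₂ : ℝ} {D : Set E} {κ : E → ℝ}
    (hUnf : Stmt_Unf) (h : PrHyp L a a' ρ₂ V J D κ) (hp : Measurable (pint L a a' V))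
    (v : V) (s : V → ℝ) (g : E → ℝ≥0∞) (hg : Measurable g) :
    ∑ z : J, ∫⁻ p, (ret L a a' D κ (v, z)).indicator (fun q => g (pos L a' (v, z) q.2)) (s, p)
        ∂(mQ ((a' - a) / 2))
      = ENNReal.ofReal (Real.sqrt 2 / a' ^ 3) *
        ∫⁻ x, {x | good L a V v s x}.indicator (fun x => wt L a a' V κ x * g x) x := by
  have hδ : 0 < (a' - a) / 2 := by linarith [h.haa]
  have := prob_mW hδ
  set δ := (a' - a) / 2 with hδ'
  have hgood : MeasurableSet {x | good L a V v s x} :=
    (measurable_const.prodMk measurable_id : Measurable (fun x : E => (s, x))) (meas_good L a v)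
  set G : E → ℝ≥0∞ := {x | good L a V v s x}.indicator (fun x => wt L a a' V κ x * g x) with hG
  have hGm : Measurable G := ((meas_wt h.hκ hp).mul hg).indicator hgood
  have hpt : ∀ z : J, Measurable (fun q : (Fin 3 → ℝ) × E =>
      gc L v + fcc a' (fun j => q.1 j + ((z : Fin 3 → ℤ) j : ℝ)) + q.2) := by
    intro z
    refine Measurable.add (Measurable.add measurable_const ((meas_fcc a').comp ?_)) (by fun_prop)
    rw [measurable_pi_iff]
    intro j
    fun_prop
  have h1 : ∀ z : J, ∫⁻ p, (ret L a a' D κ (v, z)).indicator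
      (fun q => g (pos L a' (v, z) q.2)) (s, p) ∂(mQ δ)
      = ∫⁻ w, ∫⁻ u, G (gc L v + fcc a' (fun j => u j + ((z : Fin 3 → ℤ) j : ℝ)) + w) ∂mU ∂(mW δ) := by
    intro z
    have hm : Measurable (fun p => (ret L a a' D κ (v, z)).indicator
        (fun q => g (pos L a' (v, z) q.2)) (s, p)) := by
      have : Measurable ((ret L a a' D κ (v, z)).indicator (fun q => g (pos L a' (v, z) q.2))) :=
        (hg.comp ((meas_pos L a' (v, z)).comp measurable_snd)).indicator
          (meas_ret (v, z) h.hD.1 h.hκ hp)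
      exact this.comp (measurable_const.prodMk measurable_id)
    have hsw : ∫⁻ w, ∫⁻ u, G (gc L v + fcc a' (fun j => u j + ((z : Fin 3 → ℤ) j : ℝ)) + w)
        ∂mU ∂(mW δ) = ∫⁻ u, ∫⁻ w, G (gc L v + fcc a' (fun j => u j + ((z : Fin 3 → ℤ) j : ℝ)) + w)
        ∂(mW δ) ∂mU :=
      lintegral_lintegral_swap (hGm.comp ((hpt z).comp measurable_swap)).aemeasurable
    rw [lintegral_prod _ hm.aemeasurable, hsw]
    refine lintegral_congr fun u => ?_
    have hm2 : Measurable (fun p : E × ℝ => (ret L a a' D κ (v, z)).indicator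
        (fun q => g (pos L a' (v, z) q.2)) (s, (u, p))) :=
      hm.comp (measurable_const.prodMk measurable_id)
    rw [lintegral_prod _ hm2.aemeasurable]
    refine lintegral_congr_ae ?_
    filter_upwards [ae_mW] with w hw
    exact one_t h (v, z) s g u w hw
  simp_rw [h1]
  rw [← lintegral_finsetSum]
  swap
  · intro z _
    exact (hGm.comp ((hpt z).comp measurable_swap)).lintegral_prod_right'
  have h2 : ∀ᵐ w ∂(mW δ), ∑ z : J, ∫⁻ u, G (gc L v + fcc a' (fun j => u j + ((z : Fin 3 → ℤ) j : ℝ)) + w) ∂mU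
      = ENNReal.ofReal (Real.sqrt 2 / a' ^ 3) * ∫⁻ x, G x := by
    filter_upwards [ae_mW] with w hw
    rw [← lintegral_finsetSum]
    swap
    · intro z _
      have hc : Measurable (fun u : Fin 3 → ℝ => (u, w)) := by fun_prop
      have hc2 := (hpt z).comp hc
      exact hGm.comp hc2
    have hm3 : Measurable (fun x : E => G (gc L v + x + w)) := by
      have h3 : Measurable (fun x : E => gc L v + x + w) := by fun_prop
      exact hGm.comp h3
    have hz3 : ∀ x : E, 2 * L + δ < ‖x‖ → (fun x : E => G (gc L v + x + w)) x = 0 := by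
      intro x hx
      have hn : gc L v + x + w ∉ {x | good L a V v s x} := by
        rintro ⟨_, h4, _⟩
        have h5 : ‖x‖ ≤ ‖gc L ↑v + x + w - gc L ↑v‖ + ‖w‖ := by
          calc ‖x‖ = ‖(gc L ↑v + x + w - gc L ↑v) - w‖ := by congr 1; abel
            _ ≤ _ := norm_sub_le _ _
        linarith
      exact indicator_of_notMem hn _
    have h3 := hUnf a' (2 * L + δ) J (h.ha.trans h.haa) h.hJ (fun x => G (gc L v + x + w))
      hm3 hz3
    have h6 : ∫⁻ x, G (gc L v + x + w) = ∫⁻ x, G x := by
      have h7 := lintegral_add_left_eq_self (μ := (volume : Measure E)) (fun x => G (x + w)) (gc L v)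
      have h8 := lintegral_add_right_eq_self (μ := (volume : Measure E)) G w
      rw [← h8, ← h7]
    rw [h6] at h3
    rw [← h3]
    refine lintegral_congr fun u => ?_
    exact Finset.sum_coe_sort J (fun z => G (gc L v + fcc a' (fun j => u j + ((z : Fin 3 → ℤ) j : ℝ)) + w))
  rw [lintegral_congr_ae h2, lintegral_const]
  simp

/-- far pairs -/
noncomputable def ft (L : ℝ) (f : E → E → ℝ≥0∞) (q : E × E) : ℝ≥0∞ :=
  {q : E × E | 6 * L < ‖q.1 - q.2‖}.indicator (Function.uncurry f) q

lemma meas_ft {L : ℝ} {f : E → E → ℝ≥0∞} (hf : Measurable (Function.uncurry f)) :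
    Measurable (ft L f) :=
  hf.indicator (measurableSet_lt (by fun_prop) (by fun_prop))

/-- indicator of the good set -/
noncomputable def gi (L a : ℝ) (V : Finset (Fin 3 → ℤ)) (v : V) (q : (V → ℝ) × E) : ℝ≥0∞ :=
  {q : (V → ℝ) × E | good L a V v q.1 q.2}.indicator 1 q

lemma meas_gi (L a : ℝ) (v : V) : Measurable (gi L a V v) :=
  measurable_one.indicator (meas_good L a v)

lemma meas_smp (i : V × J) : Measurable (smp i : Sam V J → _) := by
  unfold smp; fun_prop

lemma meas_smp' (i : V × J) : Measurable (fun ω : Sam V J => (ω.1.1, smp i ω)) :=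
  Measurable.prodMk (by fun_prop) (meas_smp i)

lemma meas_pY (L a' : ℝ) (i : V × J) : Measurable (pY L a' i : Sam V J → E) := by
  have h := (meas_pos L a' i).comp (meas_smp i)
  exact h

lemma meas_pR {L a a' : ℝ} {D : Set E} {κ : E → ℝ} (i : V × J)
    (hD : MeasurableSet D) (hκ : Measurable κ) (hp : Measurable (pint L a a' V)) :
    MeasurableSet (pR L a a' D κ i) := meas_smp' i (meas_ret i hD hκ hp)

lemma two {L a a' ρ₂ : ℝ} {D : Set E} {κ : E → ℝ}
    (hUnf : Stmt_Unf) (h : PrHyp L a a' ρ₂ V J D κ) (hp : Measurable (pint L a a' V))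
    (f : E → E → ℝ≥0∞) (hf : Measurable (Function.uncurry f)) (v v' : V) (hv : v ≠ v') :
    ∑ z : J, ∑ z' : J,
        ∫⁻ ω in pR L a a' D κ (v, z) ∩ pR L a a' D κ (v', z') ∩
          {ω | 6 * L < ‖pY L a' (v, z) ω - pY L a' (v', z') ω‖},
          f (pY L a' (v, z) ω) (pY L a' (v', z') ω) ∂(lawP L ((a' - a) / 2) V J)
      = ∫⁻ s, (ENNReal.ofReal (Real.sqrt 2 / a' ^ 3) * ∫⁻ x, gi L a V v (s, x) *
          (wt L a a' V κ x * (ENNReal.ofReal (Real.sqrt 2 / a' ^ 3) * ∫⁻ x', gi L a V v' (s, x') *
          (wt L a a' V κ x' * ft L f (x, x'))))) ∂(lawS L V) := by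
  have hL : 0 < L := h.ha.trans_le h.hL
  have hδ : 0 < (a' - a) / 2 := by linarith [h.haa]
  have := prob_mW hδ
  have := prob_lawS hL V
  set δ := (a' - a) / 2 with hδ'
  set c := ENNReal.ofReal (Real.sqrt 2 / a' ^ 3) with hc
  -- the integrand for two sites
  have hin : ∀ z' : J, Measurable (fun q : ((V → ℝ) × E) × ((Fin 3 → ℝ) × (E × ℝ)) =>
      (ret L a a' D κ (v', z')).indicator (fun r => ft L f (q.1.2, pos L a' (v', z') r.2))
        (q.1.1, q.2)) := by
    intro z'
    have h1 : Measurable (fun q : ((V → ℝ) × E) × ((Fin 3 → ℝ) × (E × ℝ)) =>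
        ft L f (q.1.2, pos L a' (v', z') q.2)) := by
      refine (meas_ft hf).comp (Measurable.prodMk (by fun_prop) ?_)
      exact (meas_pos L a' (v', z')).comp measurable_snd
    have h2 : Measurable (fun q : ((V → ℝ) × E) × ((Fin 3 → ℝ) × (E × ℝ)) => (q.1.1, q.2)) := by
      fun_prop
    have h3 := h1.indicator (h2 (meas_ret (v', z') h.hD.1 h.hκ hp))
    refine (congrArg Measurable (funext fun q => ?_)).mpr h3
    by_cases hq : (q.1.1, q.2) ∈ ret L a a' D κ (v', z')
    · rw [indicator_of_mem hq, indicator_of_mem (by exact hq)]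
    · rw [indicator_of_notMem hq, indicator_of_notMem (by exact hq)]
  -- the inner integral
  set ψ : J → (V → ℝ) × E → ℝ≥0∞ := fun z' q => ∫⁻ p', (ret L a a' D κ (v', z')).indicator
      (fun r => ft L f (q.2, pos L a' (v', z') r.2)) (q.1, p') ∂(mQ δ) with hψ
  have hψm : ∀ z', Measurable (ψ z') := fun z' => (hin z').lintegral_prod_right'
  have hψs : ∀ s x, ∑ z', ψ z' (s, x)
      = c * ∫⁻ x', gi L a V v' (s, x') * (wt L a a' V κ x' * ft L f (x, x')) := by
    intro s x
    have h1 := one hUnf h hp v' s (fun x' => ft L f (x, x'))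
      ((meas_ft hf).comp (by fun_prop))
    refine h1.trans ?_
    congr 1
    refine lintegral_congr fun x' => ?_
    unfold gi
    by_cases hg : good L a V v' s x'
    · rw [indicator_of_mem (by exact hg), indicator_of_mem (by exact hg)]
      simp
    · rw [indicator_of_notMem (by exact hg), indicator_of_notMem (by exact hg)]
      simp
  -- two sites
  have h1 : ∀ z z' : J, ∫⁻ ω in pR L a a' D κ (v, z) ∩ pR L a a' D κ (v', z') ∩
          {ω | 6 * L < ‖pY L a' (v, z) ω - pY L a' (v', z') ω‖},
          f (pY L a' (v, z) ω) (pY L a' (v', z') ω) ∂(lawP L δ V J)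
      = ∫⁻ s, ∫⁻ p, (ret L a a' D κ (v, z)).indicator (fun q => ψ z' (s, pos L a' (v, z) q.2)) (s, p)
          ∂(mQ δ) ∂(lawS L V) := by
    intro z z'
    set Hc : (V → ℝ) × (((Fin 3 → ℝ) × (E × ℝ)) × ((Fin 3 → ℝ) × (E × ℝ))) → ℝ≥0∞ := fun q =>
      (ret L a a' D κ (v, z)).indicator (fun _ => (ret L a a' D κ (v', z')).indicator
        (fun r => ft L f (pos L a' (v, z) q.2.1, pos L a' (v', z') r.2)) (q.1, q.2.2)) (q.1, q.2.1)
      with hHc
    have hHm : Measurable Hc := by
      have h2 : Measurable (fun q : (V → ℝ) × (((Fin 3 → ℝ) × (E × ℝ)) × ((Fin 3 → ℝ) × (E × ℝ))) =>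
          (((q.1, pos L a' (v, z) q.2.1), q.2.2) : ((V → ℝ) × E) × ((Fin 3 → ℝ) × (E × ℝ)))) := by
        refine Measurable.prodMk (Measurable.prodMk (by fun_prop) ?_) (by fun_prop)
        exact (meas_pos L a' (v, z)).comp (by fun_prop)
      have h3 := (hin z').comp h2
      have h4 : Measurable (fun q : (V → ℝ) × (((Fin 3 → ℝ) × (E × ℝ)) × ((Fin 3 → ℝ) × (E × ℝ))) =>
          (q.1, q.2.1)) := by fun_prop
      have h5 := h3.indicator (h4 (meas_ret (v, z) h.hD.1 h.hκ hp))
      refine (congrArg Measurable (funext fun q => ?_)).mpr h5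
      by_cases hq : (q.1, q.2.1) ∈ ret L a a' D κ (v, z)
      · rw [indicator_of_mem (by exact hq)]
        simp only [hHc]
        rw [indicator_of_mem (by exact hq)]
        rfl
      · rw [indicator_of_notMem (by exact hq)]
        simp only [hHc]
        rw [indicator_of_notMem (by exact hq)]
    have hmp := two_mp (J := J) hL hδ (v, z) (v', z') hv
    have hA : MeasurableSet (pR L a a' D κ (v, z)) := meas_pR (v, z) h.hD.1 h.hκ hp
    have hB : MeasurableSet (pR L a a' D κ (v', z')) := meas_pR (v', z') h.hD.1 h.hκ hp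
    have hYi : Measurable (pY L a' (v, z) : Sam V J → E) := meas_pY L a' (v, z)
    have hYj : Measurable (pY L a' (v', z') : Sam V J → E) := meas_pY L a' (v', z')
    have hC : MeasurableSet {ω : Sam V J | 6 * L < ‖pY L a' (v, z) ω - pY L a' (v', z') ω‖} :=
      measurableSet_lt measurable_const (hYi.sub hYj).norm
    rw [← lintegral_indicator ((hA.inter hB).inter hC)]
    have h2 : ∀ ω : Sam V J, (pR L a a' D κ (v, z) ∩ pR L a a' D κ (v', z') ∩
          {ω | 6 * L < ‖pY L a' (v, z) ω - pY L a' (v', z') ω‖}).indicator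
          (fun ω => f (pY L a' (v, z) ω) (pY L a' (v', z') ω)) ω
        = Hc (ω.1.1, (smp (v, z) ω, smp (v', z') ω)) := by
      intro ω
      simp only [hHc]
      by_cases h3 : ω ∈ pR L a a' D κ (v, z)
      · rw [indicator_of_mem ((mem_ret L a a' D κ (v, z) ω).1 h3)]
        by_cases h4 : ω ∈ pR L a a' D κ (v', z')
        · rw [indicator_of_mem ((mem_ret L a a' D κ (v', z') ω).1 h4)]
          unfold ft
          by_cases h5 : 6 * L < ‖pY L a' (v, z) ω - pY L a' (v', z') ω‖
          · rw [indicator_of_mem (show ω ∈ pR L a a' D κ (v, z) ∩ pR L a a' D κ (v', z') ∩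
              {ω | 6 * L < ‖pY L a' (v, z) ω - pY L a' (v', z') ω‖} from ⟨⟨h3, h4⟩, h5⟩),
              indicator_of_mem (by exact h5)]
            rfl
          · rw [indicator_of_notMem (fun h6 => h5 h6.2), indicator_of_notMem (by exact h5)]
        · rw [indicator_of_notMem (fun h6 => h4 h6.1.2),
            indicator_of_notMem (fun h6 => h4 ((mem_ret L a a' D κ (v', z') ω).2 h6))]
      · rw [indicator_of_notMem (fun h6 => h3 h6.1.1),
          indicator_of_notMem (fun h6 => h3 ((mem_ret L a a' D κ (v, z) ω).2 h6))]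
    rw [lintegral_congr h2, hmp.lintegral_comp hHm, lintegral_prod _ hHm.aemeasurable]
    refine lintegral_congr fun s => ?_
    have h3 : Measurable (fun q : ((Fin 3 → ℝ) × (E × ℝ)) × ((Fin 3 → ℝ) × (E × ℝ)) => Hc (s, q)) :=
      hHm.comp (by fun_prop)
    rw [lintegral_prod _ h3.aemeasurable]
    refine lintegral_congr fun p => ?_
    simp only [hHc]
    by_cases hq : (s, p) ∈ ret L a a' D κ (v, z)
    · rw [indicator_of_mem hq]
      simp only [hψ]
      refine lintegral_congr fun p' => ?_
      rw [indicator_of_mem hq]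
    · rw [indicator_of_notMem hq]
      have : ∀ p', (ret L a a' D κ (v, z)).indicator (fun _ => (ret L a a' D κ (v', z')).indicator
        (fun r => ft L f (pos L a' (v, z) p, pos L a' (v', z') r.2)) (s, p')) (s, p) = 0 := by
        intro p'
        rw [indicator_of_notMem hq]
      simp [this]
  simp_rw [h1]
  clear hψ
  clear_value ψ
  have hm1 : ∀ z z' : J, Measurable (fun q : (V → ℝ) × ((Fin 3 → ℝ) × (E × ℝ)) =>
      (ret L a a' D κ (v, z)).indicator (fun q' => ψ z' (q.1, pos L a' (v, z) q'.2)) (q.1, q.2)) := by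
    intro z z'
    have h2 : Measurable (fun q : (V → ℝ) × ((Fin 3 → ℝ) × (E × ℝ)) =>
        ψ z' (q.1, pos L a' (v, z) q.2)) :=
      (hψm z').comp (Measurable.prodMk measurable_fst ((meas_pos L a' (v, z)).comp measurable_snd))
    have h3 := h2.indicator (meas_ret (v, z) h.hD.1 h.hκ hp)
    refine (congrArg Measurable (funext fun q => ?_)).mpr h3
    by_cases hq : q ∈ ret L a a' D κ (v, z)
    · rw [indicator_of_mem hq, indicator_of_mem (by exact hq)]
    · rw [indicator_of_notMem hq, indicator_of_notMem (by exact hq)]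
  have hm2 : ∀ z z' : J, Measurable (fun s : V → ℝ => ∫⁻ p, (ret L a a' D κ (v, z)).indicator
      (fun q => ψ z' (s, pos L a' (v, z) q.2)) (s, p) ∂(mQ δ)) := fun z z' =>
    (hm1 z z').lintegral_prod_right'
  have h2 : ∑ z : J, ∑ z' : J, ∫⁻ s, ∫⁻ p, (ret L a a' D κ (v, z)).indicator
      (fun q => ψ z' (s, pos L a' (v, z) q.2)) (s, p) ∂(mQ δ) ∂(lawS L V)
      = ∫⁻ s, ∑ z : J, ∑ z' : J, ∫⁻ p, (ret L a a' D κ (v, z)).indicator
      (fun q => ψ z' (s, pos L a' (v, z) q.2)) (s, p) ∂(mQ δ) ∂(lawS L V) := by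
    rw [lintegral_finsetSum _ (fun z _ => Finset.measurable_sum _ (fun z' _ => hm2 z z'))]
    refine Finset.sum_congr rfl fun z _ => ?_
    rw [lintegral_finsetSum _ (fun z' _ => hm2 z z')]
  rw [h2]
  refine lintegral_congr fun s => ?_
  have hsec : Measurable (fun p : (Fin 3 → ℝ) × (E × ℝ) => (s, p)) := by fun_prop
  have h3 : ∀ z : J, ∑ z' : J, ∫⁻ p, (ret L a a' D κ (v, z)).indicator
      (fun q => ψ z' (s, pos L a' (v, z) q.2)) (s, p) ∂(mQ δ)
      = ∫⁻ p, (ret L a a' D κ (v, z)).indicator
      (fun q => (fun x => ∑ z', ψ z' (s, x)) (pos L a' (v, z) q.2)) (s, p) ∂(mQ δ) := by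
    intro z
    have hm4 : ∀ z' : J, Measurable (fun p : (Fin 3 → ℝ) × (E × ℝ) =>
        (ret L a a' D κ (v, z)).indicator (fun q => ψ z' (s, pos L a' (v, z) q.2)) (s, p)) :=
      fun z' => by
        have h5 := (hm1 z z').comp hsec
        exact h5
    rw [← lintegral_finsetSum _ (fun z' _ => hm4 z')]
    refine lintegral_congr fun p => ?_
    by_cases hq : (s, p) ∈ ret L a a' D κ (v, z)
    · rw [indicator_of_mem hq]
      refine Finset.sum_congr rfl fun z' _ => ?_
      rw [indicator_of_mem hq]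
    · rw [indicator_of_notMem hq]
      refine Finset.sum_eq_zero fun z' _ => ?_
      rw [indicator_of_notMem hq]
  have hsx : Measurable (fun x : E => (s, x)) := by fun_prop
  have hm3 : Measurable (fun x => ∑ z', ψ z' (s, x)) :=
    Finset.measurable_sum _ (fun z' _ => (hψm z').comp hsx)
  simp_rw [h3]
  rw [one hUnf h hp v s (fun x => ∑ z', ψ z' (s, x)) hm3]
  congr 1
  refine lintegral_congr fun x => ?_
  unfold gi
  by_cases hg : good L a V v s x
  · rw [indicator_of_mem (by exact hg), indicator_of_mem (by exact hg), hψs]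
    simp [gi]
  · rw [indicator_of_notMem (by exact hg), indicator_of_notMem (by exact hg)]
    simp

/-- probability that `x` belongs to the region of `v` -/
noncomputable def Pv (L a : ℝ) (V : Finset (Fin 3 → ℤ)) (v : V) (x : E) : ℝ≥0∞ :=
  ∫⁻ s, gi L a V v (s, x) ∂(lawS L V)

lemma meas_Pv {L : ℝ} (hL : 0 < L) (a : ℝ) (v : V) : Measurable (Pv L a V v) := by
  have := prob_lawS hL V
  exact (meas_gi L a v).lintegral_prod_left'

lemma Pv_eq {L : ℝ} (hL : 0 < L) (a : ℝ) (v : V) (x : E) :
    Pv L a V v x = ENNReal.ofReal ((lawS L V).real {s | good L a V v s x}) := by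
  have := prob_lawS hL V
  have hm : MeasurableSet {s | good L a V v s x} := by
    have h1 : Measurable (fun s : V → ℝ => (s, x)) := by fun_prop
    exact h1 (meas_good L a v)
  rw [ofReal_measureReal, ← lintegral_indicator_one hm]
  rfl

lemma P2_eq {L a : ℝ} (hInd : Stmt_PrInd) (ha : 0 < a) (haL : a ≤ L) (v v' : V) (x x' : E)
    (hx : 6 * L < ‖x - x'‖) :
    ∫⁻ s, gi L a V v (s, x) * gi L a V v' (s, x') ∂(lawS L V) = Pv L a V v x * Pv L a V v' x' := by
  have hL : 0 < L := ha.trans_le haL
  have := prob_lawS hL V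
  rw [Pv_eq hL, Pv_eq hL, ← ENNReal.ofReal_mul (by positivity), ← hInd L a V x x' v v' ha haL hx,
    ofReal_measureReal]
  have hm : MeasurableSet {s | good L a V v s x} := by
    have h1 : Measurable (fun s : V → ℝ => (s, x)) := by fun_prop
    exact h1 (meas_good L a v)
  have hm' : MeasurableSet {s | good L a V v' s x'} := by
    have h1 : Measurable (fun s : V → ℝ => (s, x')) := by fun_prop
    exact h1 (meas_good L a v')
  have h2 : {s | good L a V v s x ∧ good L a V v' s x'}
      = {s | good L a V v s x} ∩ {s | good L a V v' s x'} := rfl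
  rw [h2, ← lintegral_indicator_one (hm.inter hm')]
  refine lintegral_congr fun s => ?_
  by_cases h3 : good L a V v s x
  · by_cases h4 : good L a V v' s x'
    · simp [gi, indicator, h3, h4]
    · simp [gi, indicator, h3, h4]
  · simp [gi, indicator, h3]

/-- two particles: Fubini -/
lemma fub {S : Type} [MeasurableSpace S] (m : Measure S) [SFinite m] (c : ℝ≥0∞)
    (g g' : S × E → ℝ≥0∞) (w : E → ℝ≥0∞) (F : E × E → ℝ≥0∞) (hg : Measurable g)
    (hg' : Measurable g') (hw : Measurable w) (hF : Measurable F) :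
    ∫⁻ s, (c * ∫⁻ x, g (s, x) * (w x * (c * ∫⁻ x', g' (s, x') * (w x' * F (x, x'))))) ∂m
      = ∫⁻ x, ∫⁻ x', (c * w x) * (c * w x') * F (x, x') * ∫⁻ s, g (s, x) * g' (s, x') ∂m := by
  have hK : Measurable (fun q : (S × E) × E => c * (g q.1 * (w q.1.2 *
      (c * (g' (q.1.1, q.2) * (w q.2 * F (q.1.2, q.2))))))) := by
    have h1 : Measurable (fun q : (S × E) × E => g q.1) := hg.comp measurable_fst
    have h2 : Measurable (fun q : (S × E) × E => w q.1.2) :=
      hw.comp (measurable_snd.comp measurable_fst)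
    have h3 : Measurable (fun q : (S × E) × E => g' (q.1.1, q.2)) :=
      hg'.comp (Measurable.prodMk (measurable_fst.comp measurable_fst) measurable_snd)
    have h4 : Measurable (fun q : (S × E) × E => w q.2) :=
      hw.comp measurable_snd
    have h5 : Measurable (fun q : (S × E) × E => F (q.1.2, q.2)) :=
      hF.comp (Measurable.prodMk (measurable_snd.comp measurable_fst) measurable_snd)
    exact (h1.mul (h2.mul ((h3.mul (h4.mul h5)).const_mul c))).const_mul c
  have h1 : ∀ s, c * ∫⁻ x, g (s, x) * (w x * (c * ∫⁻ x', g' (s, x') * (w x' * F (x, x'))))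
      = ∫⁻ x, ∫⁻ x', c * (g (s, x) * (w x * (c * (g' (s, x') * (w x' * F (x, x')))))) := by
    intro s
    have hsx : Measurable (fun x : E => (s, x)) := by fun_prop
    have hgs : Measurable (fun x : E => g (s, x)) := hg.comp hsx
    have hgs' : Measurable (fun x : E => g' (s, x)) := hg'.comp hsx
    have hinner : Measurable (fun q : E × E => g' (s, q.2) * (w q.2 * F q)) :=
      (hgs'.comp measurable_snd).mul ((hw.comp measurable_snd).mul hF)
    have hint : Measurable (fun x : E => ∫⁻ x', g' (s, x') * (w x' * F (x, x'))) :=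
      hinner.lintegral_prod_right'
    have hout : Measurable (fun x : E => g (s, x) * (w x * (c * ∫⁻ x', g' (s, x') *
        (w x' * F (x, x'))))) := hgs.mul (hw.mul (hint.const_mul c))
    rw [← lintegral_const_mul c hout]
    refine lintegral_congr fun x => ?_
    have hxx : Measurable (fun x' : E => (x, x')) := by fun_prop
    have hx : Measurable (fun x' : E => g' (s, x') * (w x' * F (x, x'))) := hinner.comp hxx
    rw [lintegral_const_mul, lintegral_const_mul, lintegral_const_mul, lintegral_const_mul]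
    · exact hx
    · exact hx.const_mul _
    · exact (hx.const_mul _).const_mul _
    · exact ((hx.const_mul _).const_mul _).const_mul _
  calc ∫⁻ s, (c * ∫⁻ x, g (s, x) * (w x * (c * ∫⁻ x', g' (s, x') * (w x' * F (x, x'))))) ∂m
      = ∫⁻ s, (∫⁻ x, (∫⁻ x', c * (g (s, x) * (w x * (c * (g' (s, x') *
          (w x' * F (x, x')))))))) ∂m := lintegral_congr h1
    _ = ∫⁻ x, (∫⁻ s, (∫⁻ x', c * (g (s, x) * (w x * (c * (g' (s, x') *
          (w x' * F (x, x'))))))) ∂m) := by
        have h2 := hK.lintegral_prod_right' (ν := (volume : Measure E))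
        exact lintegral_lintegral_swap h2.aemeasurable
    _ = ∫⁻ x, (∫⁻ x', (∫⁻ s, c * (g (s, x) * (w x * (c * (g' (s, x') *
          (w x' * F (x, x')))))) ∂m)) := by
        refine lintegral_congr fun x => ?_
        have h3 : Measurable (fun q : S × E => ((q.1, x), q.2)) := by fun_prop
        have h4 := hK.comp h3
        exact lintegral_lintegral_swap h4.aemeasurable
    _ = _ := by
        refine lintegral_congr fun x => lintegral_congr fun x' => ?_
        have h3 : Measurable (fun s : S => g (s, x)) := hg.comp (by fun_prop)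
        have h4 : Measurable (fun s : S => g' (s, x')) := hg'.comp (by fun_prop)
        have h5 : Measurable (fun s : S => g (s, x) * g' (s, x')) := h3.mul h4
        rw [← lintegral_const_mul _ h5]
        refine lintegral_congr fun s => ?_
        ring

end PrFar_

open PrFar_ in
/-- far pairs of the concrete process -/
theorem PrFar_proof (hUnf : Stmt_Unf) (hPrHc : Stmt_PrHc) (hPrInd : Stmt_PrInd) :
    Stmt_PrFar := by
  intro L a a' ρ₂ V J D κ h f hf
  have hp : Measurable (pint L a a' V) := (hPrHc L a a' V J D κ h.ha h.haa h.hL h.hD.1 h.hκ).1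
  have hL : 0 < L := h.ha.trans_le h.hL
  have := prob_lawS hL V
  set c := ENNReal.ofReal (Real.sqrt 2 / a' ^ 3) with hc
  set t : V × J → V × J → ENNReal := fun i j =>
    ∫⁻ ω in pR L a a' D κ i ∩ pR L a a' D κ j ∩ {ω | 6 * L < ‖pY L a' i ω - pY L a' j ω‖},
      f (pY L a' i ω) (pY L a' j ω) ∂(lawP L ((a' - a) / 2) V J) with ht
  set M : V → V → ENNReal := fun v v' => ∫⁻ x, ∫⁻ x', (c * wt L a a' V κ x * Pv L a V v x) *
    (c * wt L a a' V κ x' * Pv L a V v' x') * ft L f (x, x') with hM
  have h0 : ∀ i j : V × J, i.1 = j.1 → t i j = 0 := by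
    intro i j hij
    have he : pR L a a' D κ i ∩ pR L a a' D κ j ∩ {ω | 6 * L < ‖pY L a' i ω - pY L a' j ω‖} = ∅ := by
      ext ω
      simp only [mem_inter_iff, mem_empty_iff_false, iff_false]
      rintro ⟨⟨h1, h2⟩, h3⟩
      have h4 : ‖pY L a' i ω - gc L i.1‖ ≤ 2 * L := h1.2.2.1.2.1
      have h5 : ‖pY L a' j ω - gc L j.1‖ ≤ 2 * L := h2.2.2.1.2.1
      have h6 : 6 * L < ‖pY L a' i ω - pY L a' j ω‖ := h3
      rw [← hij] at h5
      have h7 : ‖pY L a' i ω - pY L a' j ω‖ ≤ ‖pY L a' i ω - gc L i.1‖ + ‖pY L a' j ω - gc L i.1‖ := by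
        calc ‖pY L a' i ω - pY L a' j ω‖
            = ‖(pY L a' i ω - gc L i.1) - (pY L a' j ω - gc L i.1)‖ := by congr 1; abel
          _ ≤ _ := norm_sub_le _ _
      linarith
    simp only [ht]
    rw [he]
    simp
  have h1 : ∀ v v' : V, v ≠ v' → ∑ z : J, ∑ z' : J, t (v, z) (v', z') = M v v' := by
    intro v v' hv
    rw [two hUnf h hp f hf v v' hv, fub _ _ _ _ _ _ (meas_gi L a v) (meas_gi L a v')
      (meas_wt h.hκ hp) (meas_ft hf)]
    refine lintegral_congr fun x => lintegral_congr fun x' => ?_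
    by_cases hx : 6 * L < ‖x - x'‖
    · rw [P2_eq hPrInd h.ha h.hL v v' x x' hx]
      ring
    · have : ft L f (x, x') = 0 := indicator_of_notMem (by exact hx) _
      rw [this]
      simp
  calc ∑ i : V × J, ∑ j ∈ Finset.univ.erase i, t i j
      ≤ ∑ i : V × J, ∑ j : V × J, (if i.1 = j.1 then 0 else t i j) := by
        refine Finset.sum_le_sum fun i _ => ?_
        calc ∑ j ∈ Finset.univ.erase i, t i j
            ≤ ∑ j ∈ Finset.univ.erase i, (if i.1 = j.1 then 0 else t i j) := by
              refine Finset.sum_le_sum fun j _ => ?_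
              split_ifs with hij
              · rw [h0 i j hij]
              · exact le_rfl
          _ ≤ _ := Finset.sum_le_sum_of_subset (Finset.erase_subset _ _)
    _ = ∑ v : V, ∑ v' : V, (if v = v' then 0 else ∑ z : J, ∑ z' : J, t (v, z) (v', z')) := by
        rw [Fintype.sum_prod_type]
        refine Finset.sum_congr rfl fun v _ => ?_
        simp_rw [Fintype.sum_prod_type]
        rw [Finset.sum_comm]
        refine Finset.sum_congr rfl fun v' _ => ?_
        split_ifs with hv
        · simp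
        · rfl
    _ ≤ ∑ v : V, ∑ v' : V, M v v' := by
        refine Finset.sum_le_sum fun v _ => Finset.sum_le_sum fun v' _ => ?_
        split_ifs with hv
        · exact zero_le
        · rw [h1 v v' hv]
    _ = ∫⁻ x, ∫⁻ x', (c * wt L a a' V κ x * ∑ v, Pv L a V v x) *
          (c * wt L a a' V κ x' * ∑ v', Pv L a V v' x') * ft L f (x, x') := by
        have hw := meas_wt (L := L) (a := a) (a' := a') h.hκ hp
        have hft := meas_ft (L := L) hf
        have h5 : ∀ v v' : V, Measurable (fun q : E × E => (c * wt L a a' V κ q.1 * Pv L a V v q.1) *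
            (c * wt L a a' V κ q.2 * Pv L a V v' q.2) * ft L f q) := by
          intro v v'
          have h6 : ∀ v, Measurable (fun x => c * wt L a a' V κ x * Pv L a V v x) := fun v =>
            (hw.const_mul c).mul (meas_Pv hL a v)
          exact (((h6 v).comp measurable_fst).mul ((h6 v').comp measurable_snd)).mul hft
        have h5' : ∀ v v' : V, ∀ x, Measurable (fun x' : E => (c * wt L a a' V κ x * Pv L a V v x) *
            (c * wt L a a' V κ x' * Pv L a V v' x') * ft L f (x, x')) := by
          intro v v' x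
          have h7 : Measurable (fun x' : E => (x, x')) := by fun_prop
          have h8 := (h5 v v').comp h7
          exact h8
        have h9 : ∀ v v' : V, Measurable (fun x => ∫⁻ x', (c * wt L a a' V κ x * Pv L a V v x) *
            (c * wt L a a' V κ x' * Pv L a V v' x') * ft L f (x, x')) := fun v v' =>
          (h5 v v').lintegral_prod_right'
        symm
        calc ∫⁻ x, ∫⁻ x', (c * wt L a a' V κ x * ∑ v, Pv L a V v x) *
              (c * wt L a a' V κ x' * ∑ v', Pv L a V v' x') * ft L f (x, x')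
            = ∫⁻ x, ∑ v, ∑ v', ∫⁻ x', (c * wt L a a' V κ x * Pv L a V v x) *
              (c * wt L a a' V κ x' * Pv L a V v' x') * ft L f (x, x') := by
              refine lintegral_congr fun x => ?_
              simp_rw [← lintegral_finsetSum _ (fun v' _ => h5' _ v' x)]
              rw [← lintegral_finsetSum _ (fun v _ => Finset.measurable_sum _ (fun v' _ => h5' v v' x))]
              refine lintegral_congr fun x' => ?_
              simp only [Finset.mul_sum, Finset.sum_mul]
              rw [Finset.sum_comm]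
          _ = ∑ v, ∑ v', ∫⁻ x, ∫⁻ x', (c * wt L a a' V κ x * Pv L a V v x) *
              (c * wt L a a' V κ x' * Pv L a V v' x') * ft L f (x, x') := by
              rw [lintegral_finsetSum _ (fun v _ => Finset.measurable_sum _ (fun v' _ => h9 v v'))]
              refine Finset.sum_congr rfl fun v _ => ?_
              rw [lintegral_finsetSum _ (fun v' _ => h9 v v')]
    _ ≤ ∫⁻ x, ∫⁻ x', ENNReal.ofReal (κ x) * ENNReal.ofReal (κ x') * f x x' := by
        refine lintegral_mono fun x => lintegral_mono fun x' => ?_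
        have h2 : ∀ x, c * wt L a a' V κ x * ∑ v, Pv L a V v x = ENNReal.ofReal (κ x) := by
          intro x
          by_cases hx : x ∈ D
          · have hpx : 0 < pint L a a' V x := h.hρ.trans_le (h.hp x hx)
            simp_rw [Pv_eq hL]
            rw [← ENNReal.ofReal_sum_of_nonneg (fun v _ => by positivity)]
            have ha' : 0 < a' := h.ha.trans h.haa
            have h3 : 0 ≤ κ x / pint L a a' V x := div_nonneg (h.hκ0 x) hpx.le
            simp only [hc, wt]
            rw [← ENNReal.ofReal_mul (by positivity), ← ENNReal.ofReal_mul (by positivity)]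
            congr 1
            have h4 : pint L a a' V x
              = Real.sqrt 2 / a' ^ 3 * ∑ v : V, (lawS L V).real {s | good L a V v s x} := rfl
            calc Real.sqrt 2 / a' ^ 3 * (κ x / pint L a a' V x) *
                  ∑ v : V, (lawS L V).real {s | good L a V v s x}
                = κ x / pint L a a' V x * pint L a a' V x := by rw [h4]; ring
              _ = κ x := div_mul_cancel₀ _ hpx.ne'
          · rw [h.hκD x hx]
            simp [wt, h.hκD x hx]
        have h3 : ft L f (x, x') ≤ f x x' := indicator_le_self _ _ _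
        simp only [h2]
        exact mul_le_mul_right h3 _

end Pool.Agent.JEL
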