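import Pool.Agent.JEL.Stmts

/-!
# JEL module PrHc: hard core property and measurability of the concrete process
-/

open MeasureTheory Set Filter Topology

namespace Pool.Agent.JEL

open scoped Real

namespace PrHc_

theorem continuous_toE : Continuous toE := PiLp.continuous_toLp 2 _

theorem continuous_fcc (a' : ℝ) : Continuous (fcc a') := by
  have h : Continuous fun z : Fin 3 → ℝ => (![z 1 + z 2, z 0 + z 2, z 0 + z 1] : Fin 3 → ℝ) := by
    refine continuous_pi fun i => ?_
    fin_cases i
    · exact (continuous_apply 1).add (continuous_apply 2)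
    · exact (continuous_apply 0).add (continuous_apply 2)
    · exact (continuous_apply 0).add (continuous_apply 1)
  exact (continuous_toE.comp h).const_smul (a' / Real.sqrt 2)

theorem measurable_pY (L a' : ℝ) {V J : Finset (Fin 3 → ℤ)} (i : V × J) :
    Measurable (pY L a' i : Sam V J → E) := by
  have h1 : Measurable fun ω : Sam V J => ω.2.1 i :=
    (measurable_pi_apply i).comp (measurable_fst.comp measurable_snd)
  have h2 : Measurable fun ω : Sam V J => ω.1.2 :=
    measurable_snd.comp measurable_fst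
  have h3 : Measurable fun u : V → Fin 3 → ℝ =>
      (fun j => u i.1 j + ((i.2 : Fin 3 → ℤ) j : ℝ)) := by
    refine measurable_pi_lambda _ fun j => ?_
    exact ((measurable_pi_apply j).comp (measurable_pi_apply i.1)).add_const _
  have h4 : Measurable fun u : V → Fin 3 → ℝ => site L a' i u :=
    ((continuous_fcc a').measurable.comp h3).const_add _
  exact (h4.comp h2).add h1

theorem measurableSet_good (L a : ℝ) (V : Finset (Fin 3 → ℤ)) (v : V) :
    MeasurableSet {p : E × (V → ℝ) | good L a V v p.2 p.1} := by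
  have e : {p : E × (V → ℝ) | good L a V v p.2 p.1} =
      {p : E × (V → ℝ) | ‖p.1 - gc L v‖ ≤ p.2 v} ∩ ({p : E × (V → ℝ) | ‖p.1 - gc L v‖ ≤ 2 * L} ∩
        ⋂ u : V, {p : E × (V → ℝ) | Encodable.encode (u : Fin 3 → ℤ) <
          Encodable.encode (v : Fin 3 → ℤ) → ‖p.1 - gc L u‖ ≤ 3 * L →
            p.2 u + a < ‖p.1 - gc L u‖}) := by
    ext p
    simp only [good, mem_ofPred_eq, mem_inter_iff, mem_iInter]
  rw [e]
  refine MeasurableSet.inter ?_ (MeasurableSet.inter ?_ (MeasurableSet.iInter fun u => ?_))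
  · exact measurableSet_le (by fun_prop) (by fun_prop)
  · exact measurableSet_le (by fun_prop) (by fun_prop)
  · by_cases h : Encodable.encode (u : Fin 3 → ℤ) < Encodable.encode (v : Fin 3 → ℤ)
    · have e2 : {p : E × (V → ℝ) | Encodable.encode (u : Fin 3 → ℤ) <
          Encodable.encode (v : Fin 3 → ℤ) → ‖p.1 - gc L u‖ ≤ 3 * L →
            p.2 u + a < ‖p.1 - gc L u‖} = {p : E × (V → ℝ) | ‖p.1 - gc L u‖ ≤ 3 * L}ᶜ ∪
            {p : E × (V → ℝ) | p.2 u + a < ‖p.1 - gc L u‖} := by
        ext p
        simp only [mem_ofPred_eq, mem_union, mem_compl_iff]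
        constructor
        · intro hp
          by_cases h3 : ‖p.1 - gc L u‖ ≤ 3 * L
          · exact Or.inr (hp h h3)
          · exact Or.inl h3
        · rintro (hp | hp) _ h3
          · exact absurd h3 hp
          · exact hp
      rw [e2]
      exact (measurableSet_le (by fun_prop) (by fun_prop)).compl.union
        (measurableSet_lt (by fun_prop) (by fun_prop))
    · have e2 : {p : E × (V → ℝ) | Encodable.encode (u : Fin 3 → ℤ) <
          Encodable.encode (v : Fin 3 → ℤ) → ‖p.1 - gc L u‖ ≤ 3 * L →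
            p.2 u + a < ‖p.1 - gc L u‖} = univ := by
        ext p
        simp only [mem_ofPred_eq, mem_univ, iff_true]
        intro h'
        exact absurd h' h
      rw [e2]
      exact MeasurableSet.univ

theorem measurable_pint (L a a' : ℝ) (V : Finset (Fin 3 → ℤ)) : Measurable (pint L a a' V) := by
  unfold pint
  refine Measurable.const_mul ?_ _
  refine Finset.measurable_sum _ fun v _ => ?_
  have : ∀ _ : V, SigmaFinite
      (ENNReal.ofReal L⁻¹ • ((volume : Measure ℝ).restrict (Icc L (2 * L)))) := by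
    intro _
    have : IsFiniteMeasure
        (ENNReal.ofReal L⁻¹ • ((volume : Measure ℝ).restrict (Icc L (2 * L)))) :=
      Measure.smul_finite _ ENNReal.ofReal_ne_top
    infer_instance
  have : SigmaFinite (lawS L V) := by
    unfold lawS
    infer_instance
  exact (measurable_measure_prodMk_left (measurableSet_good L a V v)).ennreal_toReal

end PrHc_

open PrHc_

theorem PrHc_proof (hFcc : Stmt_Fcc) : Stmt_PrHc := by
  intro L a a' V J D κ ha haa haL hD hκ
  have hp := measurable_pint L a a' V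
  refine ⟨hp, fun i => measurable_pY L a' i, fun i => ?_, ?_⟩
  · have hY : Measurable (pY L a' i : Sam V J → E)   := measurable_pY L a' i
    have e : pR L a a' D κ i = (pY L a' i ⁻¹' D) ∩ ({ω : Sam V J | ‖ω.2.1 i‖ ≤ (a' - a) / 2} ∩
        (((fun ω : Sam V J => (pY L a' i ω, ω.1.1)) ⁻¹'
          {p : E × (V → ℝ) | good L a V i.1 p.2 p.1}) ∩
        {ω : Sam V J | ω.2.2 i * pint L a a' V (pY L a' i ω) ≤ κ (pY L a' i ω)})) := by
      ext ω
      simp only [pR, mem_ofPred_eq, mem_inter_iff, mem_preimage]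
    rw [e]
    refine (hY hD).inter (MeasurableSet.inter ?_ (MeasurableSet.inter ?_ ?_))
    · exact measurableSet_le (by fun_prop) (by fun_prop)
    · exact (hY.prodMk (by fun_prop)) (measurableSet_good L a V i.1)
    · refine measurableSet_le ?_ (hκ.comp hY)
      exact (by fun_prop : Measurable fun ω : Sam V J => ω.2.2 i).mul (hp.comp hY)
  · have key : ∀ i j : V × J, Encodable.encode (i.1 : Fin 3 → ℤ) <
        Encodable.encode (j.1 : Fin 3 → ℤ) → ∀ ω : Sam V J,
        ω ∈ pR L a a' D κ i → ω ∈ pR L a a' D κ j → a ≤ ‖pY L a' i ω - pY L a' j ω‖ := by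
      intro i j hij ω hi hj
      obtain ⟨_, _, ⟨h1, h2, _⟩, _⟩ := hi
      obtain ⟨_, _, ⟨_, _, h3⟩, _⟩ := hj
      have h4 := h3 i.1 hij
      have h5 : ‖pY L a' j ω - gc L i.1‖ ≤
          ‖pY L a' i ω - pY L a' j ω‖ + ‖pY L a' i ω - gc L i.1‖ := by
        rw [norm_sub_rev (pY L a' i ω) (pY L a' j ω)]
        exact norm_sub_le_norm_sub_add_norm_sub _ _ _
      by_cases h6 : ‖pY L a' j ω - gc L i.1‖ ≤ 3 * L
      · have h7 := h4 h6
        linarith
      · rw [not_le] at h6
        linarith
    intro i j hij ω hi hj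
    rcases lt_trichotomy (Encodable.encode (i.1 : Fin 3 → ℤ))
      (Encodable.encode (j.1 : Fin 3 → ℤ)) with h | h | h
    · exact key i j h ω hi hj
    · have h1 : (i.1 : Fin 3 → ℤ) = (j.1 : Fin 3 → ℤ) := Encodable.encode_injective h
      have h2 : i.1 = j.1 := Subtype.ext h1
      have h3 : (i.2 : Fin 3 → ℤ) ≠ (j.2 : Fin 3 → ℤ) := by
        intro h3
        exact hij (Prod.ext h2 (Subtype.ext h3))
      obtain ⟨hF1, hF2, _, _⟩ := hFcc a' (ha.trans haa)
      have h4 : a' ≤ ‖site L a' i ω.1.2 - site L a' j ω.1.2‖ := by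
        have h5 := hF1 ((i.2 : Fin 3 → ℤ) - (j.2 : Fin 3 → ℤ)) (sub_ne_zero.mpr h3)
        have h6 : site L a' i ω.1.2 - site L a' j ω.1.2 =
            fcc a' (fun k => (((i.2 : Fin 3 → ℤ) - (j.2 : Fin 3 → ℤ)) k : ℝ)) := by
          unfold site
          rw [h2]
          have h7 : (fun k => ω.1.2 j.1 k + ((i.2 : Fin 3 → ℤ) k : ℝ)) =
              (fun k => (((i.2 : Fin 3 → ℤ) - (j.2 : Fin 3 → ℤ)) k : ℝ)) +
                fun k => ω.1.2 j.1 k + ((j.2 : Fin 3 → ℤ) k : ℝ) := by
            funext k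
            simp only [Pi.add_apply, Pi.sub_apply, Int.cast_sub]
            ring
          rw [h7, hF2]
          abel
        rw [h6]
        exact h5
      have h8 : ‖ω.2.1 i‖ ≤ (a' - a) / 2 := hi.2.1
      have h9 : ‖ω.2.1 j‖ ≤ (a' - a) / 2 := hj.2.1
      have h10 : site L a' i ω.1.2 - site L a' j ω.1.2 =
          (pY L a' i ω - pY L a' j ω) - (ω.2.1 i - ω.2.1 j) := by
        unfold pY
        abel
      rw [h10] at h4
      have h11 := norm_sub_le (pY L a' i ω - pY L a' j ω) (ω.2.1 i - ω.2.1 j)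
      have h12 := norm_sub_le (ω.2.1 i) (ω.2.1 j)
      linarith
    · rw [norm_sub_rev]
      exact key j i h ω hj hi

end Pool.Agent.JEL
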