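import Pool.Agent.JEL.Stmts

open MeasureTheory Set Filter Topology ProbabilityTheory

namespace Pool.Agent.JEL

namespace PrInd_

theorem meas_good (L a : ℝ) (V : Finset (Fin 3 → ℤ)) (v : V) (x : E) :
    MeasurableSet {s : V → ℝ | good L a V v s x} := by
  have h1 : {s : V → ℝ | good L a V v s x}
      = {s | ‖x - gc L v‖ ≤ s v} ∩ ({s | ‖x - gc L v‖ ≤ 2 * L} ∩ ⋂ u : V,
        {s | Encodable.encode (u : Fin 3 → ℤ) < Encodable.encode (v : Fin 3 → ℤ) →
          ‖x - gc L u‖ ≤ 3 * L → s u + a < ‖x - gc L u‖}) := by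
    ext s
    simp only [good, Set.mem_inter_iff, Set.mem_iInter]
    rfl
  rw [h1]
  refine (measurableSet_le measurable_const (measurable_pi_apply v)).inter
    ((MeasurableSet.const _).inter (MeasurableSet.iInter fun u => ?_))
  by_cases hc : Encodable.encode (u : Fin 3 → ℤ) < Encodable.encode (v : Fin 3 → ℤ)
  · by_cases hd : ‖x - gc L u‖ ≤ 3 * L
    · have h2 : {s : V → ℝ | Encodable.encode (u : Fin 3 → ℤ) < Encodable.encode (v : Fin 3 → ℤ) →
          ‖x - gc L u‖ ≤ 3 * L → s u + a < ‖x - gc L u‖} = {s | s u + a < ‖x - gc L u‖} := by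
        ext s
        exact ⟨fun h => h hc hd, fun h _ _ => h⟩
      rw [h2]
      have h3 : Measurable (fun s : V → ℝ => s u) := measurable_pi_apply u
      exact measurableSet_lt (h3.add_const a) measurable_const
    · have h2 : {s : V → ℝ | Encodable.encode (u : Fin 3 → ℤ) < Encodable.encode (v : Fin 3 → ℤ) →
          ‖x - gc L u‖ ≤ 3 * L → s u + a < ‖x - gc L u‖} = Set.univ := by
        ext s
        exact ⟨fun _ => trivial, fun _ _ h => absurd h hd⟩
      rw [h2]
      exact MeasurableSet.univ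
  · have h2 : {s : V → ℝ | Encodable.encode (u : Fin 3 → ℤ) < Encodable.encode (v : Fin 3 → ℤ) →
          ‖x - gc L u‖ ≤ 3 * L → s u + a < ‖x - gc L u‖} = Set.univ := by
      ext s
      exact ⟨fun _ => trivial, fun _ h => absurd h hc⟩
    rw [h2]
    exact MeasurableSet.univ

/-- radii of the germs at distance at most `3L` from `x` decide -/
theorem good_congr {L a : ℝ} (hL : 0 ≤ L) {V : Finset (Fin 3 → ℤ)} (v : V) (x : E)
    {s t : V → ℝ} (hst : ∀ u : V, ‖x - gc L u‖ ≤ 3 * L → s u = t u)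
    (h : good L a V v s x) : good L a V v t x := by
  obtain ⟨h1, h2, h3⟩ := h
  refine ⟨?_, h2, ?_⟩
  · rw [← hst v (h2.trans (by linarith))]
    exact h1
  · intro u hu hd
    rw [← hst u hd]
    exact h3 u hu hd

theorem factor {L a : ℝ} (hL : 0 ≤ L) {V : Finset (Fin 3 → ℤ)} (v : V) (x : E) (S : Finset V)
    (hS : ∀ u : V, ‖x - gc L u‖ ≤ 3 * L → u ∈ S) :
    ∃ A : Set (S → ℝ), MeasurableSet A ∧
      {s : V → ℝ | good L a V v s x} = (fun (s : V → ℝ) (i : S) => s i) ⁻¹' A := by
  classical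
  refine ⟨(fun (t : S → ℝ) (u : V) => if h : u ∈ S then t ⟨u, h⟩ else 0) ⁻¹'
    {s : V → ℝ | good L a V v s x}, ?_, ?_⟩
  · refine (measurable_pi_lambda _ fun u => ?_) (meas_good L a V v x)
    by_cases h : u ∈ S
    · simp only [h, dif_pos]
      exact measurable_pi_apply _
    · simp only [h, dif_neg, not_false_eq_true]
      exact measurable_const
  · ext s
    have h1 : ∀ u : V, ‖x - gc L u‖ ≤ 3 * L →
        s u = (if h : u ∈ S then (fun (i : S) => s i) ⟨u, h⟩ else 0) := by
      intro u hu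
      rw [dif_pos (hS u hu)]
    constructor
    · intro h
      exact good_congr hL v x h1 h
    · intro h
      exact good_congr hL v x (fun u hu => (h1 u hu).symm) h

theorem ind {ι : Type} [Fintype ι] (μ : ι → Measure ℝ) [∀ i, IsProbabilityMeasure (μ i)] :
    iIndepFun (fun (i : ι) (ω : ι → ℝ) => ω i) (Measure.pi μ) :=
  iIndepFun_pi (X := fun (_ : ι) (t : ℝ) => t) (fun _ => aemeasurable_id)

end PrInd_

open PrInd_

theorem PrInd_proof : Stmt_PrInd := by
  classical
  intro L a V x y v v' ha haL hxy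
  have hL : 0 < L := ha.trans_le haL
  have hprob : ∀ _ : V, IsProbabilityMeasure
      (ENNReal.ofReal L⁻¹ • ((volume : Measure ℝ).restrict (Icc L (2 * L)))) := by
    intro _
    refine ⟨?_⟩
    rw [Measure.smul_apply, Measure.restrict_apply_univ, Real.volume_Icc, smul_eq_mul,
      ← ENNReal.ofReal_mul (by positivity)]
    have h1 : L⁻¹ * (2 * L - L) = 1 := by field_simp; ring
    rw [h1, ENNReal.ofReal_one]
  set μ : V → Measure ℝ := fun _ =>
    ENNReal.ofReal L⁻¹ • ((volume : Measure ℝ).restrict (Icc L (2 * L))) with hμ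
  have hμp : ∀ i, IsProbabilityMeasure (μ i) := hprob
  have hlaw : lawS L V = Measure.pi μ := rfl
  set S : Finset V := Finset.univ.filter (fun u => ‖x - gc L u‖ ≤ 3 * L) with hS
  set T : Finset V := Finset.univ.filter (fun u => ‖y - gc L u‖ ≤ 3 * L) with hT
  have hST : Disjoint S T := by
    rw [Finset.disjoint_left]
    intro u hu hu'
    rw [hS, Finset.mem_filter] at hu
    rw [hT, Finset.mem_filter] at hu'
    have h1 : ‖x - y‖ ≤ ‖x - gc L u‖ + ‖y - gc L u‖ := by
      have h2 : x - y = (x - gc L u) - (y - gc L u) := by abel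
      rw [h2]
      exact norm_sub_le _ _
    linarith [hu.2, hu'.2]
  obtain ⟨A, hA, hAe⟩ := factor (a := a) hL.le v x S
    (fun u hu => by rw [hS, Finset.mem_filter]; exact ⟨Finset.mem_univ _, hu⟩)
  obtain ⟨B, hB, hBe⟩ := factor (a := a) hL.le v' y T
    (fun u hu => by rw [hT, Finset.mem_filter]; exact ⟨Finset.mem_univ _, hu⟩)
  have hind : iIndepFun (fun (i : V) (ω : V → ℝ) => ω i) (Measure.pi μ) := @ind _ _ μ hμp
  have h2 := hind.indepFun_finset S T hST (fun i => measurable_pi_apply i)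
  have h3 := h2.measure_inter_preimage_eq_mul A B hA hB
  have h4 : {s : V → ℝ | good L a V v s x ∧ good L a V v' s y}
      = {s : V → ℝ | good L a V v s x} ∩ {s : V → ℝ | good L a V v' s y} := rfl
  rw [h4, hAe, hBe, hlaw, Measure.real_def, Measure.real_def, Measure.real_def,
    ← ENNReal.toReal_mul]
  exact congrArg ENNReal.toReal h3

end Pool.Agent.JEL
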