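import Pool.Agent.JEL.Stmts

/-!
# JEL, module PrInt: intensity of the concrete process
-/

set_option autoImplicit false
set_option linter.unusedSectionVars false

open MeasureTheory Set Filter Topology

namespace Pool.Agent.JEL

namespace PrInt_

variable {L a a' δ : ℝ} {V J : Finset (Fin 3 → ℤ)}

theorem prob_radius {L : ℝ} (hL : 0 < L) :
    IsProbabilityMeasure (ENNReal.ofReal L⁻¹ • (volume.restrict (Icc L (2 * L)) : Measure ℝ)) := by
  constructor
  rw [Measure.smul_apply, Measure.restrict_apply_univ, Real.volume_Icc, smul_eq_mul,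
    ← ENNReal.ofReal_mul (by positivity)]
  have : L⁻¹ * (2 * L - L) = 1 := by field_simp; ring
  rw [this, ENNReal.ofReal_one]

theorem prob_cube : IsProbabilityMeasure ((volume : Measure (Fin 3 → ℝ)).restrict cube) := by
  constructor
  rw [Measure.restrict_apply_univ, cube, Real.volume_pi_Ico]
  simp

theorem prob_ball {δ : ℝ} (hδ : 0 < δ) :
    IsProbabilityMeasure ((volume (cB (0:E) δ))⁻¹ • volume.restrict (cB (0:E) δ)) := by
  constructor
  rw [Measure.smul_apply, Measure.restrict_apply_univ, smul_eq_mul]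
  exact ENNReal.inv_mul_cancel (Metric.measure_closedBall_pos volume _ hδ).ne'
    measure_closedBall_lt_top.ne

theorem prob_Icc : IsProbabilityMeasure ((volume : Measure ℝ).restrict (Icc (0:ℝ) 1)) := by
  constructor
  rw [Measure.restrict_apply_univ, Real.volume_Icc]
  simp

/-- the reduced sample space -/
abbrev Red (V : Finset (Fin 3 → ℤ)) : Type := ((V → ℝ) × (Fin 3 → ℝ)) × (E × ℝ)

/-- reduced law -/
noncomputable def redP (L δ : ℝ) (V : Finset (Fin 3 → ℤ)) : Measure (Red V) :=
  ((lawS L V).prod (volume.restrict cube)).prod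
    (((volume (cB (0:E) δ))⁻¹ • volume.restrict (cB (0:E) δ)).prod
      (volume.restrict (Icc (0:ℝ) 1)))

/-- projection to the reduced space -/
def proj (i : V × J) (ω : Sam V J) : Red V := ((ω.1.1, ω.1.2 i.1), (ω.2.1 i, ω.2.2 i))

/-- a section of the projection -/
def sec (ω : Red V) : Sam V J := ((ω.1.1, fun _ => ω.1.2), (fun _ => ω.2.1, fun _ => ω.2.2))

theorem sec_meas : Measurable (sec : Red V → Sam V J) := by
  unfold sec
  fun_prop

theorem prob_lawS (hL : 0 < L) : IsProbabilityMeasure (lawS L V) := by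
  have := prob_radius hL
  unfold lawS
  infer_instance

theorem prob_lawP (hL : 0 < L) (hδ : 0 < δ) : IsProbabilityMeasure (lawP L δ V J) := by
  have := prob_lawS (V := V) hL
  have := prob_cube
  have := prob_ball hδ
  have := prob_Icc
  unfold lawP
  infer_instance

theorem proj_mp (hL : 0 < L) (hδ : 0 < δ) (i : V × J) :
    MeasurePreserving (proj i) (lawP L δ V J) (redP L δ V) := by
  have := prob_lawS (V := V) hL
  have := prob_cube
  have := prob_ball hδ
  have := prob_Icc
  exact ((MeasurePreserving.id (lawS L V)).prod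
    (measurePreserving_eval (fun _ : V => (volume : Measure (Fin 3 → ℝ)).restrict cube) i.1)).prod
    ((measurePreserving_eval (fun _ : V × J =>
      (volume (cB (0:E) δ))⁻¹ • (volume : Measure E).restrict (cB (0:E) δ)) i).prod
      (measurePreserving_eval (fun _ : V × J => (volume : Measure ℝ).restrict (Icc (0:ℝ) 1)) i))

/-- reduction to the relevant variables -/
theorem reduce (hL : 0 < L) (hδ : 0 < δ) (i : V × J) (D : Set E) (κ : E → ℝ)
    (hR : MeasurableSet (pR L a a' D κ i)) (hY : Measurable (pY L a' i : Sam V J → E))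
    (f : E → ENNReal) (hf : Measurable f) :
    ∫⁻ ω in pR L a a' D κ i, f (pY L a' i ω) ∂(lawP L δ V J) =
      ∫⁻ r, (pR L a a' D κ i).indicator (fun ω => f (pY L a' i ω)) (sec r) ∂(redP L δ V) := by
  have h := (proj_mp (V := V) (J := J) hL hδ i).lintegral_comp
    (((hf.comp hY).indicator hR).comp sec_meas)
  rw [← lintegral_indicator hR]
  exact h

/-- the event that `x` is in the region of `v` is measurable -/
theorem good_meas (L a : ℝ) (V : Finset (Fin 3 → ℤ)) (v : V) :
    MeasurableSet {p : (V → ℝ) × E | good L a V v p.1 p.2} := by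
  have hn : ∀ u : V, Measurable (fun p : (V → ℝ) × E => ‖p.2 - gc L u‖) := fun u =>
    ((measurable_snd.sub_const _).norm)
  have hs : ∀ u : V, Measurable (fun p : (V → ℝ) × E => p.1 u) := fun u =>
    (measurable_pi_apply u).comp measurable_fst
  have h0 : {p : (V → ℝ) × E | good L a V v p.1 p.2} = {p | ‖p.2 - gc L v‖ ≤ p.1 v} ∩
      ({p | ‖p.2 - gc L v‖ ≤ 2 * L} ∩ ⋂ u : V, {p | Encodable.encode (u : Fin 3 → ℤ) <
      Encodable.encode (v : Fin 3 → ℤ) → ‖p.2 - gc L u‖ ≤ 3 * L →
        p.1 u + a < ‖p.2 - gc L u‖}) := by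
    ext p
    simp only [good, mem_ofPred_eq, mem_inter_iff, mem_iInter]
  rw [h0]
  apply MeasurableSet.inter (measurableSet_le (hn v) (hs v))
  apply MeasurableSet.inter (measurableSet_le (hn v) measurable_const)
  refine MeasurableSet.iInter fun u => ?_
  by_cases hu : Encodable.encode (u : Fin 3 → ℤ) < Encodable.encode (v : Fin 3 → ℤ)
  · simp only [hu, forall_true_left]
    have h2 : {p : (V → ℝ) × E | ‖p.2 - gc L u‖ ≤ 3 * L → p.1 u + a < ‖p.2 - gc L u‖} =
        {p | ‖p.2 - gc L u‖ ≤ 3 * L}ᶜ ∪ {p | p.1 u + a < ‖p.2 - gc L u‖} := by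
      ext p; simp only [mem_ofPred_eq, mem_union, mem_compl_iff]; tauto
    rw [h2]
    exact (measurableSet_le (hn u) measurable_const).compl.union
      (measurableSet_lt ((hs u).add_const a) (hn u))
  · simp only [hu, IsEmpty.forall_iff, ofPred_true, MeasurableSet.univ]

/-- the thinning variable -/
theorem thin {P0 k : ℝ} (hP : 0 < P0) (hkP : k ≤ P0) (c : ENNReal) :
    ∫⁻ t in Icc (0:ℝ) 1, {t : ℝ | t * P0 ≤ k}.indicator (fun _ => c) t =
      ENNReal.ofReal (k / P0) * c := by
  have hm : MeasurableSet {t : ℝ | t * P0 ≤ k} :=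
    measurableSet_le (measurable_id.mul_const _) measurable_const
  rw [lintegral_indicator_const hm, Measure.restrict_apply hm, mul_comm]
  congr 1
  have h : {t : ℝ | t * P0 ≤ k} ∩ Icc (0:ℝ) 1 = Icc 0 (k / P0) := by
    ext t
    simp only [mem_inter_iff, mem_ofPred_eq, mem_Icc]
    rw [le_div_iff₀ hP]
    constructor
    · rintro ⟨h1, h2, _⟩; exact ⟨h2, h1⟩
    · rintro ⟨h1, h2⟩
      refine ⟨h2, h1, ?_⟩
      by_contra h3
      push Not at h3
      nlinarith
  rw [h, Real.volume_Icc, sub_zero]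

/-- the density of the retained points of the germ `v` before averaging over shifts and wiggles -/
noncomputable def hv (L a a' : ℝ) (V : Finset (Fin 3 → ℤ)) (D : Set E) (κ : E → ℝ)
    (f : E → ENNReal) (v : V) : E → ENNReal :=
  D.indicator fun Y => (lawS L V) {s | good L a V v s Y} *
    (ENNReal.ofReal (κ Y / pint L a a' V Y) * f Y)

theorem hv_meas (hL : 0 < L) {D : Set E} {κ : E → ℝ} (hD : MeasurableSet D) (hκ : Measurable κ)
    (hp : Measurable (pint L a a' V)) {f : E → ENNReal} (hf : Measurable f) (v : V) :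
    Measurable (hv L a a' V D κ f v) := by
  have := prob_lawS (V := V) hL
  refine Measurable.indicator ?_ hD
  refine Measurable.mul ?_ ((hκ.div hp).ennreal_ofReal.mul hf)
  exact measurable_measure_prodMk_right (good_meas L a V v)

/-- averaging over the wiggle -/
noncomputable def gv (L a a' : ℝ) (V : Finset (Fin 3 → ℤ)) (D : Set E) (κ : E → ℝ)
    (f : E → ENNReal) (v : V) (δ : ℝ) (x : E) : ENNReal :=
  ∫⁻ w, (cB (0:E) δ).indicator (fun w => hv L a a' V D κ f v (gc L v + x + w)) w
    ∂((volume (cB (0:E) δ))⁻¹ • volume.restrict (cB (0:E) δ))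

theorem gv_aux (hL : 0 < L) {D : Set E} {κ : E → ℝ} (hD : MeasurableSet D) (hκ : Measurable κ)
    (hp : Measurable (pint L a a' V)) {f : E → ENNReal} (hf : Measurable f) (v : V) (δ : ℝ) :
    Measurable (fun p : E × E =>
      (cB (0:E) δ).indicator (fun w => hv L a a' V D κ f v (gc L v + p.1 + w)) p.2) := by
  have h1 : Measurable (fun p : E × E => hv L a a' V D κ f v (gc L v + p.1 + p.2)) :=
    (hv_meas hL hD hκ hp hf v).comp ((measurable_const.add measurable_fst).add measurable_snd)
  have h2 : MeasurableSet {p : E × E | p.2 ∈ cB (0:E) δ} :=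
    measurable_snd Metric.isClosed_closedBall.measurableSet
  exact h1.indicator h2

theorem gv_meas (hL : 0 < L) (hδ : 0 < δ) {D : Set E} {κ : E → ℝ} (hD : MeasurableSet D)
    (hκ : Measurable κ) (hp : Measurable (pint L a a' V)) {f : E → ENNReal} (hf : Measurable f)
    (v : V) : Measurable (gv L a a' V D κ f v δ) := by
  have := prob_ball hδ
  exact (gv_aux hL hD hκ hp hf v δ).lintegral_prod_right'

theorem gv_lintegral (hL : 0 < L) (hδ : 0 < δ) {D : Set E} {κ : E → ℝ} (hD : MeasurableSet D)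
    (hκ : Measurable κ) (hp : Measurable (pint L a a' V)) {f : E → ENNReal} (hf : Measurable f)
    (v : V) : ∫⁻ x, gv L a a' V D κ f v δ x = ∫⁻ x, hv L a a' V D κ f v x := by
  have := prob_ball hδ
  unfold gv
  rw [lintegral_lintegral_swap (gv_aux hL hD hκ hp hf v δ).aemeasurable]
  have h1 : ∀ w : E, ∫⁻ x, (cB (0:E) δ).indicator
      (fun w => hv L a a' V D κ f v (gc L v + x + w)) w =
      (cB (0:E) δ).indicator (fun _ => ∫⁻ x, hv L a a' V D κ f v x) w := by
    intro w
    by_cases hw : w ∈ cB (0:E) δ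
    · simp only [indicator_of_mem hw]
      have h2 : ∀ x : E, gc L v + x + w = x + (gc L v + w) := fun x => by abel
      simp only [h2]
      exact lintegral_add_right_eq_self (fun x => hv L a a' V D κ f v x) (gc L v + w)
    · simp only [indicator_of_notMem hw, lintegral_zero]
  simp only [h1]
  rw [lintegral_indicator_const Metric.isClosed_closedBall.measurableSet, Measure.smul_apply,
    Measure.restrict_apply_self, smul_eq_mul, ENNReal.inv_mul_cancel
      (Metric.measure_closedBall_pos volume _ hδ).ne' measure_closedBall_lt_top.ne, mul_one]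

theorem gv_zero {D : Set E} {κ : E → ℝ} {f : E → ENNReal} (v : V) (x : E)
    (hx : 2 * L + δ < ‖x‖) : gv L a a' V D κ f v δ x = 0 := by
  unfold gv
  rw [← lintegral_zero]
  refine lintegral_congr fun w => ?_
  by_cases hw : w ∈ cB (0:E) δ
  · rw [indicator_of_mem hw]
    have h1 : {s : V → ℝ | good L a V v s (gc L v + x + w)} = ∅ := by
      ext s
      simp only [mem_ofPred_eq, mem_empty_iff_false, iff_false]
      rintro ⟨_, h2, _⟩
      have h3 : gc L v + x + w - gc L v = x + w := by abel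
      rw [h3] at h2
      have h4 : ‖x‖ ≤ ‖x + w‖ + ‖w‖ := by
        have := norm_sub_le (x + w) w
        rwa [add_sub_cancel_right] at this
      have h5 : ‖w‖ ≤ δ := by simpa [mem_closedBall_zero_iff] using hw
      linarith
    unfold hv
    by_cases hD : gc L v + x + w ∈ D
    · rw [indicator_of_mem hD, h1, measure_empty, zero_mul]
    · rw [indicator_of_notMem hD]
  · rw [indicator_of_notMem hw]

/-- the position of a candidate as a function of the reduced variables -/
noncomputable def Yr (L a' : ℝ) {V J : Finset (Fin 3 → ℤ)} (i : V × J) (u : Fin 3 → ℝ) (w : E) :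
    E := gc L i.1 + fcc a' (fun j => u j + ((i.2 : Fin 3 → ℤ) j : ℝ)) + w

theorem pY_sec (i : V × J) (s : V → ℝ) (u : Fin 3 → ℝ) (w : E) (t : ℝ) :
    pY L a' i (sec ((s, u), (w, t)) : Sam V J) = Yr L a' i u w := rfl

theorem Yr_meas (i : V × J) (hY : Measurable (pY L a' i : Sam V J → E)) :
    Measurable (fun p : ((V → ℝ) × (Fin 3 → ℝ)) × E => Yr L a' i p.1.2 p.2) := by
  have h2 : (fun p : ((V → ℝ) × (Fin 3 → ℝ)) × E => Yr L a' i p.1.2 p.2) =
      fun p => pY L a' i (sec (((p.1.1, p.1.2), (p.2, (0:ℝ))) : Red V) : Sam V J) := by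
    funext p
    rw [pY_sec]
  have h3 : Measurable (fun p : ((V → ℝ) × (Fin 3 → ℝ)) × E =>
      (((p.1.1, p.1.2), (p.2, (0:ℝ))) : Red V)) := by fun_prop
  rw [h2]
  exact hY.comp (sec_meas.comp h3)

theorem sec_mem (i : V × J) (D : Set E) (κ : E → ℝ) (s : V → ℝ) (u : Fin 3 → ℝ) (w : E) (t : ℝ) :
    (sec ((s, u), (w, t)) : Sam V J) ∈ pR L a a' D κ i ↔
      Yr L a' i u w ∈ D ∧ ‖w‖ ≤ (a' - a) / 2 ∧ good L a V i.1 s (Yr L a' i u w) ∧
        t * pint L a a' V (Yr L a' i u w) ≤ κ (Yr L a' i u w) := by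
  unfold pR
  rw [mem_ofPred_eq, pY_sec]
  rfl

/-- weight -/
noncomputable def kf (L a a' : ℝ) (V : Finset (Fin 3 → ℤ)) (κ : E → ℝ) (f : E → ENNReal) (Y : E) :
    ENNReal := ENNReal.ofReal (κ Y / pint L a a' V Y) * f Y

/-- the conditions on the reduced variables -/
def Sset (L a a' : ℝ) {V J : Finset (Fin 3 → ℤ)} (D : Set E) (i : V × J) :
    Set (((V → ℝ) × (Fin 3 → ℝ)) × E) :=
  {p | Yr L a' i p.1.2 p.2 ∈ D ∧ ‖p.2‖ ≤ (a' - a) / 2 ∧
    good L a V i.1 p.1.1 (Yr L a' i p.1.2 p.2)}

theorem mem_Sset {D : Set E} {i : V × J} {s : V → ℝ} {u : Fin 3 → ℝ} {w : E} :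
    ((s, u), w) ∈ Sset L a a' D i ↔ Yr L a' i u w ∈ D ∧ ‖w‖ ≤ (a' - a) / 2 ∧
      good L a V i.1 s (Yr L a' i u w) := Iff.rfl

/-- the integrand after integration over the thinning variable -/
noncomputable def Gf (L a a' : ℝ) {V J : Finset (Fin 3 → ℤ)} (D : Set E) (κ : E → ℝ)
    (f : E → ENNReal) (i : V × J) : ((V → ℝ) × (Fin 3 → ℝ)) × E → ENNReal :=
  (Sset L a a' D i).indicator fun p => kf L a a' V κ f (Yr L a' i p.1.2 p.2)

/-- the integral over the thinning variable -/
theorem theta (i : V × J) {D : Set E} {κ : E → ℝ} {f : E → ENNReal}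
    (hP : ∀ x ∈ D, 0 < pint L a a' V x) (hκP : ∀ x ∈ D, κ x ≤ pint L a a' V x)
    (s : V → ℝ) (u : Fin 3 → ℝ) (w : E) :
    ∫⁻ t in Icc (0:ℝ) 1, (pR L a a' D κ i).indicator (fun ω => f (pY L a' i ω))
      (sec ((s, u), (w, t))) = Gf L a a' D κ f i ((s, u), w) := by
  unfold Gf
  by_cases hc : Yr L a' i u w ∈ D ∧ ‖w‖ ≤ (a' - a) / 2 ∧ good L a V i.1 s (Yr L a' i u w)
  · have h1 : ∀ t : ℝ, (pR L a a' D κ i).indicator (fun ω => f (pY L a' i ω))
        (sec ((s, u), (w, t))) = {t : ℝ | t * pint L a a' V (Yr L a' i u w) ≤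
          κ (Yr L a' i u w)}.indicator (fun _ => f (Yr L a' i u w)) t := by
      intro t
      by_cases ht : t * pint L a a' V (Yr L a' i u w) ≤ κ (Yr L a' i u w)
      · rw [indicator_of_mem ((sec_mem i D κ s u w t).mpr ⟨hc.1, hc.2.1, hc.2.2, ht⟩), pY_sec]
        exact (indicator_of_mem (s := {t : ℝ | t * pint L a a' V (Yr L a' i u w) ≤
          κ (Yr L a' i u w)}) ht (fun _ => f (Yr L a' i u w))).symm
      · rw [indicator_of_notMem (fun h => ht ((sec_mem i D κ s u w t).mp h).2.2.2)]
        exact (indicator_of_notMem (s := {t : ℝ | t * pint L a a' V (Yr L a' i u w) ≤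
          κ (Yr L a' i u w)}) ht (fun _ => f (Yr L a' i u w))).symm
    simp only [h1]
    rw [thin (hP _ hc.1) (hκP _ hc.1), indicator_of_mem (mem_Sset.mpr hc)]
    rfl
  · have h1 : ∀ t : ℝ, (pR L a a' D κ i).indicator (fun ω => f (pY L a' i ω))
        (sec ((s, u), (w, t))) = 0 := by
      intro t
      apply indicator_of_notMem
      intro h
      have h2 := (sec_mem i D κ s u w t).mp h
      exact hc ⟨h2.1, h2.2.1, h2.2.2.1⟩
    simp only [h1, lintegral_zero]
    rw [indicator_of_notMem (fun h => hc (mem_Sset.mp h))]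

/-- the integral over the radii -/
theorem radii (hL : 0 < L) (i : V × J) {D : Set E} {κ : E → ℝ} {f : E → ENNReal}
    (u : Fin 3 → ℝ) (w : E) :
    ∫⁻ s, Gf L a a' D κ f i ((s, u), w) ∂(lawS L V) =
      (cB (0:E) ((a' - a) / 2)).indicator (fun w => hv L a a' V D κ f i.1
        (gc L i.1 + fcc a' (fun j => u j + ((i.2 : Fin 3 → ℤ) j : ℝ)) + w)) w := by
  have := prob_lawS (V := V) hL
  have hgood : MeasurableSet {s : V → ℝ | good L a V i.1 s (Yr L a' i u w)} :=
    (measurable_id.prodMk measurable_const) (good_meas L a V i.1)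
  have hY : gc L i.1 + fcc a' (fun j => u j + ((i.2 : Fin 3 → ℤ) j : ℝ)) + w = Yr L a' i u w := rfl
  unfold Gf
  by_cases hw : w ∈ cB (0:E) ((a' - a) / 2)
  · rw [indicator_of_mem hw]
    have hw' : ‖w‖ ≤ (a' - a) / 2 := by simpa [mem_closedBall_zero_iff] using hw
    rw [hY]
    unfold hv
    by_cases hD : Yr L a' i u w ∈ D
    · rw [indicator_of_mem hD, mul_comm, ← lintegral_indicator_const hgood]
      refine lintegral_congr fun s => ?_
      by_cases hs : good L a V i.1 s (Yr L a' i u w)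
      · rw [indicator_of_mem (mem_Sset.mpr ⟨hD, hw', hs⟩)]
        exact (indicator_of_mem (s := {s : V → ℝ | good L a V i.1 s (Yr L a' i u w)}) hs
          (fun _ => _)).symm
      · rw [indicator_of_notMem (fun h => hs (mem_Sset.mp h).2.2)]
        exact (indicator_of_notMem (s := {s : V → ℝ | good L a V i.1 s (Yr L a' i u w)}) hs
          (fun _ => _)).symm
    · rw [indicator_of_notMem hD, ← lintegral_zero]
      refine lintegral_congr fun s => ?_
      rw [indicator_of_notMem (fun h => hD (mem_Sset.mp h).1)]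
  · rw [indicator_of_notMem hw, ← lintegral_zero]
    refine lintegral_congr fun s => ?_
    rw [indicator_of_notMem (fun h => hw (by
      simpa [mem_closedBall_zero_iff] using (mem_Sset.mp h).2.1))]

/-- the contribution of one candidate -/
theorem one (hL : 0 < L) (haa : a < a') (i : V × J) {D : Set E} {κ : E → ℝ}
    (hD : MeasurableSet D) (hκ : Measurable κ) (hp : Measurable (pint L a a' V))
    (hY : Measurable (pY L a' i : Sam V J → E)) (hR : MeasurableSet (pR L a a' D κ i))
    (hP : ∀ x ∈ D, 0 < pint L a a' V x) (hκP : ∀ x ∈ D, κ x ≤ pint L a a' V x)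
    {f : E → ENNReal} (hf : Measurable f) :
    ∫⁻ ω in pR L a a' D κ i, f (pY L a' i ω) ∂(lawP L ((a' - a) / 2) V J) =
      ∫⁻ u in cube, gv L a a' V D κ f i.1 ((a' - a) / 2)
        (fcc a' (fun j => u j + ((i.2 : Fin 3 → ℤ) j : ℝ))) := by
  have hδ : 0 < (a' - a) / 2 := by linarith
  have := prob_lawS (V := V) hL
  have := prob_cube
  have := prob_ball hδ
  have := prob_Icc
  have hΨ : Measurable (fun r : Red V =>
      (pR L a a' D κ i).indicator (fun ω => f (pY L a' i ω)) (sec r : Sam V J)) :=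
    ((hf.comp hY).indicator hR).comp sec_meas
  have hYr := Yr_meas (L := L) (a' := a') i hY
  have hG : Measurable (Gf L a a' D κ f i) := by
    apply Measurable.indicator
    · exact ((hκ.comp hYr).div (hp.comp hYr)).ennreal_ofReal.mul (hf.comp hYr)
    · exact (hYr hD).inter ((measurableSet_le measurable_snd.norm measurable_const).inter
        (((measurable_fst.comp measurable_fst).prodMk hYr) (good_meas L a V i.1)))
  rw [reduce hL hδ i D κ hR hY f hf]
  unfold redP
  rw [lintegral_prod _ hΨ.aemeasurable]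
  have h1 : ∀ su : (V → ℝ) × (Fin 3 → ℝ),
      ∫⁻ wt, (pR L a a' D κ i).indicator (fun ω => f (pY L a' i ω)) (sec (su, wt) : Sam V J)
        ∂(((volume (cB (0:E) ((a' - a) / 2)))⁻¹ •
          (volume : Measure E).restrict (cB (0:E) ((a' - a) / 2))).prod
          ((volume : Measure ℝ).restrict (Icc (0:ℝ) 1))) =
      ∫⁻ w, Gf L a a' D κ f i (su, w) ∂((volume (cB (0:E) ((a' - a) / 2)))⁻¹ •
          (volume : Measure E).restrict (cB (0:E) ((a' - a) / 2))) := by
    intro su
    have h3 : Measurable (fun wt : E × ℝ =>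
        (pR L a a' D κ i).indicator (fun ω => f (pY L a' i ω)) (sec (su, wt) : Sam V J)) :=
      hΨ.comp (measurable_const.prodMk measurable_id)
    rw [lintegral_prod _ h3.aemeasurable]
    refine lintegral_congr fun w => ?_
    exact theta i hP hκP su.1 su.2 w
  simp only [h1]
  rw [lintegral_prod_symm _ hG.lintegral_prod_right'.aemeasurable]
  refine lintegral_congr fun u => ?_
  rw [lintegral_lintegral_swap (by
    have : Measurable (fun p : (V → ℝ) × E => ((p.1, u), p.2)) := by fun_prop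
    exact (hG.comp this).aemeasurable)]
  unfold gv
  refine lintegral_congr fun w => ?_
  exact radii hL i u w

theorem fcc_meas (a' : ℝ) : Measurable (fcc a') := by
  unfold fcc toE
  fun_prop

/-- the intensity of the retained points -/
theorem total (hL : 0 < L) (ha' : 0 < a') {D : Set E} {κ : E → ℝ} {f : E → ENNReal}
    (hκD : ∀ x, x ∉ D → κ x = 0) (hP : ∀ x ∈ D, 0 < pint L a a' V x)
    (x : E) : ∑ v : V, ENNReal.ofReal (Real.sqrt 2 / a' ^ 3) * hv L a a' V D κ f v x =
      ENNReal.ofReal (κ x) * f x := by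
  have := prob_lawS (V := V) hL
  by_cases hx : x ∈ D
  · have h1 : ∀ v : V, hv L a a' V D κ f v x = (lawS L V) {s | good L a V v s x} *
        (ENNReal.ofReal (κ x / pint L a a' V x) * f x) := fun v => indicator_of_mem hx _
    simp only [h1, ← mul_assoc]
    rw [← Finset.sum_mul, ← Finset.sum_mul]
    congr 1
    have h2 : ∑ v : V, ENNReal.ofReal (Real.sqrt 2 / a' ^ 3) *
        (lawS L V) {s | good L a V v s x} = ENNReal.ofReal (pint L a a' V x) := by
      unfold pint
      rw [ENNReal.ofReal_mul (by positivity), ENNReal.ofReal_sum_of_nonneg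
        (fun v _ => measureReal_nonneg), Finset.mul_sum]
      refine Finset.sum_congr rfl fun v _ => ?_
      rw [ofReal_measureReal (measure_ne_top _ _)]
    rw [h2, ← ENNReal.ofReal_mul (hP x hx).le, mul_div_cancel₀]
    exact (hP x hx).ne'
  · have h1 : ∀ v : V, hv L a a' V D κ f v x = 0 := fun v => indicator_of_notMem hx _
    simp only [h1, mul_zero, Finset.sum_const_zero, hκD x hx, ENNReal.ofReal_zero, zero_mul]

end PrInt_

open PrInt_ in
theorem PrInt_proof (hUnf : Stmt_Unf) (hPrHc : Stmt_PrHc) : Stmt_PrInt := by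
  intro L a a' ρ₂ V J D κ H
  have ha := H.ha
  have hL : 0 < L := ha.trans_le H.hL
  have ha' : 0 < a' := ha.trans H.haa
  have hδ : 0 < (a' - a) / 2 := by have := H.haa; linarith
  obtain ⟨hp, hY, hR, -⟩ := hPrHc L a a' V J D κ ha H.haa H.hL H.hD.1 H.hκ
  refine ⟨prob_lawP hL hδ, fun f hf => ?_⟩
  have hP : ∀ x ∈ D, 0 < pint L a a' V x := fun x hx => H.hρ.trans_le (H.hp x hx)
  have hκP : ∀ x ∈ D, κ x ≤ pint L a a' V x := fun x hx => (H.hκρ x hx).trans (H.hp x hx)
  have := prob_lawS (V := V) hL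
  have h1 : ∀ i : V × J, ∫⁻ ω in pR L a a' D κ i, f (pY L a' i ω)
      ∂(lawP L ((a' - a) / 2) V J) = _ := fun i =>
    one hL H.haa i H.hD.1 H.hκ hp (hY i) (hR i) hP hκP hf
  simp only [h1]
  rw [Fintype.sum_prod_type]
  have h2 : ∀ v : V, ∑ z : J, ∫⁻ u in cube, gv L a a' V D κ f v ((a' - a) / 2)
        (fcc a' (fun j => u j + ((z : Fin 3 → ℤ) j : ℝ))) =
      ENNReal.ofReal (Real.sqrt 2 / a' ^ 3) * ∫⁻ x, hv L a a' V D κ f v x := by
    intro v
    have hg := gv_meas (a := a) (a' := a') hL hδ H.hD.1 H.hκ hp hf v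
    rw [← gv_lintegral hL hδ H.hD.1 H.hκ hp hf v,
      ← hUnf a' (2 * L + (a' - a) / 2) J ha' H.hJ _ hg (fun x hx => gv_zero v x hx),
      lintegral_finsetSum']
    · exact Finset.sum_coe_sort J (fun z => ∫⁻ u in cube, gv L a a' V D κ f v ((a' - a) / 2)
        (fcc a' (fun j => u j + ((z : Fin 3 → ℤ) j : ℝ))))
    · intro z _
      have h3 : Measurable (fun u : Fin 3 → ℝ => fun j => u j + ((z : Fin 3 → ℤ) j : ℝ)) := by
        fun_prop
      exact (hg.comp ((fcc_meas a').comp h3)).aemeasurable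
  simp only [h2]
  have h4 : ∀ v : V, ENNReal.ofReal (Real.sqrt 2 / a' ^ 3) * ∫⁻ x, hv L a a' V D κ f v x =
      ∫⁻ x, ENNReal.ofReal (Real.sqrt 2 / a' ^ 3) * hv L a a' V D κ f v x := fun v =>
    (lintegral_const_mul _ (hv_meas hL H.hD.1 H.hκ hp hf v)).symm
  simp only [h4]
  rw [← lintegral_finsetSum _ (fun v _ => (hv_meas hL H.hD.1 H.hκ hp hf v).const_mul _)]
  exact lintegral_congr fun x => total hL ha' H.hκD hP x

end Pool.Agent.JEL
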