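import Pool.Agent.JEL.Stmts

/-!
# JEL: module Proc

Existence of hard core point processes with prescribed intensity below the close packing density.
-/

open MeasureTheory Set Filter Topology

namespace Pool.Agent.JEL

open scoped Real

namespace Proc_

/-- a slightly larger lattice constant -/
theorem exists_a' {a ρ₂ : ℝ} (ha : 0 < a) (h : ρ₂ < Real.sqrt 2 / a ^ 3) :
    ∃ a' : ℝ, a < a' ∧ ρ₂ < Real.sqrt 2 / a' ^ 3 := by
  have hc : ContinuousAt (fun x : ℝ => Real.sqrt 2 / x ^ 3) a :=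
    continuousAt_const.div (continuousAt_id.pow 3) (pow_ne_zero 3 ha.ne')
  have h1 : ∀ᶠ x in 𝓝[>] a, ρ₂ < Real.sqrt 2 / x ^ 3 :=
    (hc.tendsto.mono_left nhdsWithin_le_nhds).eventually (lt_mem_nhds h)
  obtain ⟨x, hx1, hx2⟩ := (h1.and self_mem_nhdsWithin).exists
  exact ⟨x, hx2, hx1⟩

/-- a large mesh -/
theorem exists_L {a ρ₂ c : ℝ} (ha : 0 < a) (hρ : 0 < ρ₂) (h : ρ₂ < c) :
    ∃ L : ℝ, a ≤ L ∧ ρ₂ ≤ c * (1 - 343 * a / L) := by
  have hc : 0 < c := hρ.trans h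
  have hη : 0 < 1 - ρ₂ / c := by
    rw [sub_pos, div_lt_one hc]
    exact h
  refine ⟨max a (343 * a / (1 - ρ₂ / c)), le_max_left _ _, ?_⟩
  have hL : 0 < max a (343 * a / (1 - ρ₂ / c)) := lt_max_of_lt_left ha
  have h1 : 343 * a / max a (343 * a / (1 - ρ₂ / c)) ≤ 1 - ρ₂ / c := by
    rw [div_le_iff₀ hL]
    have h2 : 343 * a / (1 - ρ₂ / c) ≤ max a (343 * a / (1 - ρ₂ / c)) := le_max_right _ _
    rw [div_le_iff₀ hη] at h2
    linarith
  have h3 : ρ₂ / c ≤ 1 - 343 * a / max a (343 * a / (1 - ρ₂ / c)) := by linarith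
  calc ρ₂ = c * (ρ₂ / c) := by field_simp
    _ ≤ c * (1 - 343 * a / max a (343 * a / (1 - ρ₂ / c))) :=
      mul_le_mul_of_nonneg_left h3 hc.le

theorem gc_apply (L : ℝ) (u : Fin 3 → ℤ) (j : Fin 3) : gc L u j = L * (u j : ℝ) := rfl

/-- germs near a bounded set belong to a box -/
theorem mem_kbox {L R : ℝ} (hL : 0 < L) {n : ℕ} (hn : (R + 3 * L) / L ≤ n) {x : E} (hx : ‖x‖ ≤ R)
    (u : Fin 3 → ℤ) (hu : ‖x - gc L u‖ ≤ 3 * L) : u ∈ kbox n := by
  have h1 : ‖gc L u‖ ≤ R + 3 * L := by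
    have h2 : gc L u = x - (x - gc L u) := by abel
    rw [h2]
    exact (norm_sub_le _ _).trans (add_le_add hx hu)
  rw [kbox, Fintype.mem_piFinset]
  intro j
  have h3 : |L * (u j : ℝ)| ≤ R + 3 * L := by
    rw [← gc_apply, ← Real.norm_eq_abs]
    exact (PiLp.norm_apply_le (gc L u) j).trans h1
  rw [abs_mul, abs_of_pos hL] at h3
  have h4 : |(u j : ℝ)| ≤ n := by
    refine le_trans ?_ hn
    rw [le_div_iff₀ hL]
    linarith
  rw [Finset.mem_Icc]
  have h5 : |u j| ≤ (n : ℤ) := by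
    have : ((|u j| : ℤ) : ℝ) ≤ ((n : ℤ) : ℝ) := by
      push_cast
      exact h4
    exact_mod_cast this
  exact abs_le.1 h5

end Proc_

theorem Proc_proof (hFcc : Stmt_Fcc) (hPrHc : Stmt_PrHc) (hPrCov : Stmt_PrCov)
    (hPrInt : Stmt_PrInt) (hPrFar : Stmt_PrFar) (hPrDen : Stmt_PrDen) : Stmt_Proc := by
  intro a ρ₂ ha hρ hlt
  obtain ⟨a', haa, ha'⟩ := Proc_.exists_a' ha hlt
  obtain ⟨L, hL, hρL⟩ := Proc_.exists_L ha hρ ha'
  have hL0 : 0 < L := ha.trans_le hL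
  have ha'0 : 0 < a' := ha.trans haa
  have hδ : 0 < (a' - a) / 2 := by linarith
  have hvb : 0 < vb ((a' - a) / 2) := by
    unfold vb
    positivity
  refine ⟨6 * L, max 1 (vb ((a' - a) / 2))⁻¹, by positivity, le_max_left _ _, ?_⟩
  intro D κ hD hκ hκb hκD
  obtain ⟨R₀, hR₀⟩ := hD.2.subset_closedBall (0 : E)
  have hR : ∀ x ∈ D, ‖x‖ ≤ R₀ := by
    intro x hx
    simpa using hR₀ hx
  obtain ⟨nV, hnV⟩ := exists_nat_ge ((R₀ + 3 * L) / L)
  obtain ⟨nJ, hnJ⟩ := (hFcc a' ha'0).2.2.2 (2 * L + (a' - a) / 2)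
  have hcov : ∀ x ∈ D, ρ₂ ≤ pint L a a' (kbox nV) x := by
    intro x hx
    have h1 := hPrCov L a (kbox nV) x ha hL fun u hu =>
      Proc_.mem_kbox hL0 hnV (hR x hx) u hu
    refine hρL.trans ?_
    unfold pint
    exact mul_le_mul_of_nonneg_left h1 (by positivity)
  have hyp : PrHyp L a a' ρ₂ (kbox nV) (kbox nJ) D κ :=
    { ha := ha
      haa := haa
      hL := hL
      hD := hD
      hκ := hκ
      hκ0 := fun x => (hκb x).1
      hκD := hκD
      hρ := hρ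
      hκρ := fun x _ => (hκb x).2
      hp := hcov
      hJ := hnJ }
  obtain ⟨_, hmY, hmR, hhc⟩ := hPrHc L a a' (kbox nV) (kbox nJ) D κ ha haa hL hD.1 hκ
  obtain ⟨hprob, hint⟩ := hPrInt L a a' ρ₂ (kbox nV) (kbox nJ) D κ hyp
  refine ⟨Sam (kbox nV) (kbox nJ), inferInstance, lawP L ((a' - a) / 2) (kbox nV) (kbox nJ), hprob,
    (kbox nV) × (kbox nJ), inferInstance, inferInstance, pY L a', pR L a a' D κ, ?_⟩
  exact
    { meas_y := hmY
      meas_R := hmR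
      hc := fun i j hij ω hi hj => hhc i j hij ω hi hj
      supp := fun i ω hω => hω.1
      int1 := hint
      int2 := hPrFar L a a' ρ₂ (kbox nV) (kbox nJ) D κ hyp
      dens := by
        intro n G hG hsym
        refine (hPrDen L a a' ρ₂ (kbox nV) (kbox nJ) D κ hyp n G hG hsym).trans ?_
        refine mul_le_mul_left (ENNReal.ofReal_le_ofReal ?_) _
        refine div_le_div_of_nonneg_right ?_ (by positivity)
        exact pow_le_pow_left₀ (by positivity) (le_max_right _ _) n }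

end Pool.Agent.JEL
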