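import Pool.Agent.JEL.Stmts

/-!
# JEL: module Rad, radial neutral charges
-/

open MeasureTheory Set Filter Topology

namespace Pool.Agent.JEL

open scoped Real

namespace Rad_

/-- indicator function of a closed ball -/
noncomputable def ch (z : E) (R : ℝ) : E → ℝ := (cB z R).indicator (1 : E → ℝ)

theorem ch_nonneg (z : E) (R : ℝ) (x : E) : 0 ≤ ch z R x := by
  unfold ch
  exact indicator_nonneg (fun _ _ => zero_le_one) x

theorem ch_le_one (z : E) (R : ℝ) (x : E) : ch z R x ≤ 1 := by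
  unfold ch
  exact indicator_le_self' (fun _ _ => zero_le_one) x

theorem ch_eq (z : E) (R : ℝ) (x : E) : ch z R x = if ‖x - z‖ ≤ R then 1 else 0 := by
  unfold ch
  by_cases h : ‖x - z‖ ≤ R
  · rw [if_pos h, indicator_of_mem (by rw [mem_closedBall_iff_norm]; exact h)]
    rfl
  · rw [if_neg h, indicator_of_notMem (by rw [mem_closedBall_iff_norm]; exact h)]

theorem meas_ch (z : E) (R : ℝ) : Measurable (ch z R) :=
  measurable_one.indicator Metric.isClosed_closedBall.measurableSet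

theorem adm_ch (z : E) (R : ℝ) : Adm (ch z R) where
  meas := meas_ch z R
  bdd := ⟨1, fun x => by rw [abs_of_nonneg (ch_nonneg z R x)]; exact ch_le_one z R x⟩
  supp := ⟨‖z‖ + R, fun x hx => by
    rw [ch_eq, if_neg]
    intro h
    have := norm_le_norm_add_norm_sub' x z
    linarith⟩

theorem pot_ch (hN : Stmt_Newt) (z : E) {R : ℝ} (hR : 0 < R) (x : E) :
    pot (ch z R) x = nt R ‖x - z‖ := by
  rw [← hN.1 R z x hR, pot, ← integral_indicator Metric.isClosed_closedBall.measurableSet]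
  congr 1
  ext y
  unfold ch
  by_cases h : y ∈ cB z R
  · rw [indicator_of_mem h, indicator_of_mem h, Pi.one_apply, one_mul]
  · rw [indicator_of_notMem h, indicator_of_notMem h, zero_mul]

theorem int_ch (hL : Stmt_Lens) (z : E) {R : ℝ} (hR : 0 ≤ R) : ∫ x, ch z R x = vb R := by
  unfold ch
  rw [integral_indicator_one Metric.isClosed_closedBall.measurableSet, hL.1 z R hR]

theorem integrable_ch (z : E) (R : ℝ) : Integrable (ch z R) := by
  unfold ch
  rw [integrable_indicator_iff Metric.isClosed_closedBall.measurableSet]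
  exact (integrableOn_const (by exact (measure_closedBall_lt_top).ne))

/-- the normalisation -/
theorem vb_diff {r s : ℝ} : vb s - vb r = 4 * π / 3 * (s ^ 3 - r ^ 3) := by
  unfold vb; ring

theorem vb_mono {r s : ℝ} (hr : 0 ≤ r) (h : r ≤ s) : 0 ≤ vb s - vb r := by
  rw [vb_diff]
  have : r ^ 3 ≤ s ^ 3 := pow_le_pow_left₀ hr h 3
  have := Real.pi_pos
  exact mul_nonneg (by positivity) (by linarith)

theorem nt_le {R t : ℝ} (h : t ≤ R) : nt R t = 2 * π * R ^ 2 - 2 * π / 3 * t ^ 2 := by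
  unfold nt; rw [if_pos h]

theorem nt_ge {R t : ℝ} (h : R ≤ t) (ht : 0 < t) : nt R t = vb R / t := by
  unfold nt
  split_ifs with h1
  · have h2 : t = R := le_antisymm h1 h
    subst h2
    unfold vb
    field_simp
    ring
  · rfl

/-- comparison of differences of potentials of balls with differences of volumes -/
theorem nt_lower {R₁ R₂ t : ℝ} (h1 : 0 < R₁) (h12 : R₁ ≤ R₂) :
    (vb R₂ - vb R₁) / max t R₂ ≤ nt R₂ t - nt R₁ t := by
  have h2 : 0 < R₂ := h1.trans_le h12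
  have hpi := Real.pi_pos
  rcases le_total t R₁ with c1 | c1
  · rw [max_eq_right (c1.trans h12), nt_le c1, nt_le (c1.trans h12), div_le_iff₀ h2, vb_diff]
    have key : 0 ≤ (2 * π / 3) * ((R₂ - R₁) ^ 2 * (R₂ + 2 * R₁)) := by positivity
    nlinarith [key]
  · have ht' : 0 < t := h1.trans_le c1
    rcases le_total t R₂ with c2 | c2
    · rw [max_eq_right c2, nt_le c2, nt_ge c1 ht', div_le_iff₀ h2, vb_diff]
      have e1 : vb R₁ / t * R₂ = 4 * π / 3 * (R₁ ^ 3 * (R₂ / t)) := by unfold vb; ring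
      have e2 : R₁ ^ 3 ≤ R₁ ^ 3 * (R₂ / t) := by
        have : 1 ≤ R₂ / t := by rw [le_div_iff₀ ht']; linarith
        have h3 : 0 ≤ R₁ ^ 3 := by positivity
        nlinarith
      have e3 : R₁ ^ 3 * (R₂ / t) - R₁ ^ 3 ≤ t ^ 3 * (R₂ / t) - t ^ 3 := by
        have h3 : R₁ ^ 3 ≤ t ^ 3 := pow_le_pow_left₀ h1.le c1 3
        have h4 : 0 ≤ R₂ / t - 1 := by
          have : 1 ≤ R₂ / t := by rw [le_div_iff₀ ht']; linarith
          linarith
        nlinarith
      have e4 : t ^ 3 * (R₂ / t) = t ^ 2 * R₂ := by field_simp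
      rw [e4] at e3
      have e5 : (2 * π * R₂ ^ 2 - 2 * π / 3 * t ^ 2 - vb R₁ / t) * R₂ - 4 * π / 3 * (R₂ ^ 3 - R₁ ^ 3)
          = 2 * π / 3 * (R₂ ^ 3 - t ^ 2 * R₂ - 2 * (R₁ ^ 3 * (R₂ / t) - R₁ ^ 3)) := by
        rw [sub_mul, e1]; ring
      have e6 : 0 ≤ R₂ ^ 3 - t ^ 2 * R₂ - 2 * (R₁ ^ 3 * (R₂ / t) - R₁ ^ 3) := by
        have : 0 ≤ (R₂ - t) ^ 2 * (R₂ + 2 * t) := by positivity
        nlinarith
      have e7 : 0 ≤ 2 * π / 3 * (R₂ ^ 3 - t ^ 2 * R₂ - 2 * (R₁ ^ 3 * (R₂ / t) - R₁ ^ 3)) :=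
        mul_nonneg (by positivity) e6
      linarith
    · rw [max_eq_left c2, nt_ge c2 ht', nt_ge c1 ht', sub_div]

theorem nt_upper {R₁ R₂ t : ℝ} (h1 : 0 < R₁) (h12 : R₁ ≤ R₂) :
    nt R₂ t - nt R₁ t ≤ (vb R₂ - vb R₁) / max t R₁ := by
  have h2 : 0 < R₂ := h1.trans_le h12
  have hpi := Real.pi_pos
  rcases le_total t R₁ with c1 | c1
  · rw [max_eq_right c1, nt_le c1, nt_le (c1.trans h12), le_div_iff₀ h1, vb_diff]
    have key : 0 ≤ (2 * π / 3) * ((R₂ - R₁) ^ 2 * (2 * R₂ + R₁)) := by positivity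
    nlinarith [key]
  · have ht' : 0 < t := h1.trans_le c1
    rw [max_eq_left c1]
    rcases le_total t R₂ with c2 | c2
    · rw [nt_le c2, nt_ge c1 ht', sub_div, sub_le_sub_iff_right, le_div_iff₀ ht']
      unfold vb
      have key : 0 ≤ (2 * π / 3) * ((R₂ - t) ^ 2 * (2 * R₂ + t)) := by positivity
      nlinarith [key]
    · rw [nt_ge c2 ht', nt_ge c1 ht', sub_div]

theorem nt_bd {m M R₁ R₂ t : ℝ} (hm : 0 < m) (h1 : m ≤ R₁) (h12 : R₁ ≤ R₂) (h2 : R₂ ≤ M)
    (ht : 0 ≤ t) :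
    |(nt R₂ t - nt R₁ t) - (vb R₂ - vb R₁) / max t M| ≤ (vb R₂ - vb R₁) * (m⁻¹ - M⁻¹) := by
  have hR1 : 0 < R₁ := hm.trans_le h1
  have hM : 0 < M := hR1.trans_le (h12.trans h2)
  have hv : 0 ≤ vb R₂ - vb R₁ := vb_mono hR1.le h12
  have a1 := nt_lower (t := t) hR1 h12
  have a2 := nt_upper (t := t) hR1 h12
  have a3 : (vb R₂ - vb R₁) / max t M ≤ (vb R₂ - vb R₁) / max t R₂ :=
    div_le_div_of_nonneg_left hv (lt_max_of_lt_right (hR1.trans_le h12)) (max_le_max le_rfl h2)
  rw [abs_of_nonneg (by linarith)]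
  have a4 : (max t R₁)⁻¹ - (max t M)⁻¹ ≤ m⁻¹ - M⁻¹ := by
    rcases le_total t M with c | c
    · rw [max_eq_right c]
      have : (max t R₁)⁻¹ ≤ m⁻¹ := inv_anti₀ hm (h1.trans (le_max_right _ _))
      linarith
    · have c1 : R₁ ≤ t := (h12.trans h2).trans c
      rw [max_eq_left c, max_eq_left c1]
      have : M⁻¹ ≤ m⁻¹ := inv_anti₀ hm ((h1.trans h12).trans h2)
      linarith
  have a5 := mul_le_mul_of_nonneg_left a4 hv
  have e1 : (vb R₂ - vb R₁) / max t R₁ = (vb R₂ - vb R₁) * (max t R₁)⁻¹ := div_eq_mul_inv _ _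
  have e2 : (vb R₂ - vb R₁) / max t M = (vb R₂ - vb R₁) * (max t M)⁻¹ := div_eq_mul_inv _ _
  rw [mul_sub] at a5
  linarith

theorem pot_comb (hN : Stmt_Newt) (hP : Stmt_Pot) (z x : E) (α R : Fin 4 → ℝ)
    (hR : ∀ i, 0 < R i) :
    pot (fun y => ∑ i, α i * ch z (R i) y) x = ∑ i, α i * nt (R i) ‖x - z‖ := by
  have h1 : ∀ i, Integrable (fun y => α i * (ch z (R i) y * ‖x - y‖⁻¹)) := fun i =>
    (hP.2.1 _ (adm_ch z (R i)) x).const_mul _
  unfold pot
  have h2 : ∀ y, (∑ i, α i * ch z (R i) y) * ‖x - y‖⁻¹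
      = ∑ i, α i * (ch z (R i) y * ‖x - y‖⁻¹) := by
    intro y
    rw [Finset.sum_mul]
    exact Finset.sum_congr rfl fun i _ => by ring
  simp only [h2]
  rw [integral_finsetSum _ fun i _ => h1 i]
  refine Finset.sum_congr rfl fun i _ => ?_
  rw [integral_const_mul]
  congr 1
  exact pot_ch hN z (hR i) x

theorem ring_eq (z : E) (r s : ℝ) (h : r ≤ s) (x : E) :
    {x | r < ‖x - z‖ ∧ ‖x - z‖ ≤ s}.indicator (1 : E → ℝ) x = ch z s x - ch z r x := by
  rw [ch_eq, ch_eq]
  by_cases h1 : ‖x - z‖ ≤ r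
  · rw [indicator_of_notMem, if_pos (h1.trans h), if_pos h1, sub_self]
    intro h2
    exact absurd h2.1 (not_lt.2 h1)
  · by_cases h2 : ‖x - z‖ ≤ s
    · rw [indicator_of_mem (by exact ⟨not_le.1 h1, h2⟩), if_pos h2, if_neg h1]
      simp
    · rw [indicator_of_notMem, if_neg h2, if_neg h1, sub_self]
      intro h3
      exact h2 h3.2

theorem ae_ne (z : E) {r : ℝ} (hr : r ≠ 0) : ∀ᵐ y : E, ‖y - z‖ ≠ r := by
  have h := Measure.addHaar_sphere_of_ne_zero (volume : Measure E) z hr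
  have h2 : ∀ᵐ y : E, y ∉ Metric.sphere z r := measure_eq_zero_iff_ae_notMem.1 h
  filter_upwards [h2] with y hy h3
  exact hy (by rw [mem_sphere_iff_norm]; exact h3)

theorem sh_ae (z : E) {r : ℝ} (hr : 2 ≤ r) :
    ∀ᵐ y : E, sh z r y = (vb r - vb (r - 1))⁻¹ * (ch z r y - ch z (r - 1) y) := by
  filter_upwards [ae_ne z (r := r - 1) (by linarith)] with y hy
  rw [← ring_eq z (r - 1) r (by linarith) y]
  unfold sh
  by_cases h : r - 1 < ‖y - z‖ ∧ ‖y - z‖ ≤ r
  · rw [indicator_of_mem (by exact ⟨h.1.le, h.2⟩), indicator_of_mem (by exact h), Pi.one_apply,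
      mul_one]
  · rw [indicator_of_notMem, indicator_of_notMem (by exact h), mul_zero]
    rintro ⟨h1, h2⟩
    exact h ⟨lt_of_le_of_ne h1 (Ne.symm hy), h2⟩

/-- radii -/
noncomputable def RR (r a w : ℝ) : Fin 4 → ℝ := ![r - 1, r, r + a, r + w]

/-- coefficients -/
noncomputable def AA (ρ κ q : ℝ) : Fin 4 → ℝ := ![-q, q + ρ, -κ, κ - ρ]

theorem nuk_ae (ρ κ Q : ℝ) (z : E) {r a w : ℝ} (hr : 2 ≤ r) (ha : 0 < a) (haw : a < w) :
    ∀ᵐ y : E, nuk ρ κ Q z r a w y
      = ∑ i, AA ρ κ (Q * (vb r - vb (r - 1))⁻¹) i * ch z (RR r a w i) y := by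
  filter_upwards [sh_ae z hr] with y hy
  rw [nuk, hy, ring_eq z r (r + w) (by linarith), ring_eq z (r + a) (r + w) (by linarith),
    Fin.sum_univ_four]
  simp only [AA, RR, Matrix.cons_val]
  ring

theorem pot_nuk (hN : Stmt_Newt) (hP : Stmt_Pot) (ρ κ Q : ℝ) (z x : E) {r a w : ℝ} (hr : 2 ≤ r)
    (ha : 0 < a) (haw : a < w) :
    pot (nuk ρ κ Q z r a w) x =
      Q * (vb r - vb (r - 1))⁻¹ * (nt r ‖x - z‖ - nt (r - 1) ‖x - z‖)
      - ρ * (nt (r + w) ‖x - z‖ - nt r ‖x - z‖)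
      + κ * (nt (r + w) ‖x - z‖ - nt (r + a) ‖x - z‖) := by
  have h1 : pot (nuk ρ κ Q z r a w) x
      = pot (fun y => ∑ i, AA ρ κ (Q * (vb r - vb (r - 1))⁻¹) i * ch z (RR r a w i) y) x := by
    unfold pot
    refine integral_congr_ae ?_
    filter_upwards [nuk_ae ρ κ Q z hr ha haw] with y hy
    rw [hy]
  have h2 : ∀ i, 0 < RR r a w i := by
    intro i
    fin_cases i <;> simp only [RR, Matrix.cons_val, Fin.zero_eta, Fin.mk_one, Fin.reduceFinMk] <;> linarith
  rw [h1, pot_comb hN hP z x _ _ h2, Fin.sum_univ_four]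
  simp only [AA, RR, Matrix.cons_val]
  ring

theorem vb_bd {r w : ℝ} (hr : 0 ≤ r) (hw : 0 ≤ w) : vb (r + w) - vb r ≤ 4 * π * w * (r + w) ^ 2 := by
  rw [vb_diff]
  have h1 : (r + w) ^ 3 - r ^ 3 ≤ 3 * w * (r + w) ^ 2 := by
    have : 0 ≤ w * (3 * r * w + 2 * w ^ 2) := by positivity
    nlinarith
  have hpi := Real.pi_pos
  calc 4 * π / 3 * ((r + w) ^ 3 - r ^ 3) ≤ 4 * π / 3 * (3 * w * (r + w) ^ 2) :=
        mul_le_mul_of_nonneg_left h1 (by positivity)
    _ = _ := by ring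

end Rad_

set_option maxHeartbeats 2000000 in
open Rad_ in
theorem Rad_proof (hNewt : Stmt_Newt) (hSh : Stmt_Sh) (hPot : Stmt_Pot) (hLens : Stmt_Lens) :
    Stmt_Rad := by
  intro K₀ ρ ρ₁ a w hK hρ hρ₁ ha haw
  have hpi := Real.pi_pos
  have hw : 0 < w := ha.trans haw
  set S₁ : ℝ := K₀ + (ρ + ρ₁) * (4 * π * w * (1 + w) ^ 2) with hS1
  have hS1pos : 0 < S₁ := by positivity
  set C₁ : ℝ := 2 * (w + 1) * S₁ with hC1
  have hC1pos : 0 < C₁ := by positivity
  refine ⟨(K₀ + ρ + ρ₁) + C₁ + C₁ * S₁, by positivity, ?_⟩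
  intro r κ Q z hr hQ hκ0 hκ1 hneu
  have hr0 : 0 < r := by linarith
  obtain ⟨sAdm, sZero, sBd, sInt, sPot⟩ := hSh z r hr
  have hv1 : 0 ≤ vb (r + w) - vb r := vb_mono hr0.le (by linarith)
  have hv2 : 0 ≤ vb (r + w) - vb (r + a) := vb_mono (by linarith) (by linarith)
  have hv3 : vb (r + w) - vb (r + a) ≤ vb (r + w) - vb r := by
    have := vb_mono hr0.le (show r ≤ r + a by linarith)
    linarith
  have hv4 : vb (r + w) - vb r ≤ 4 * π * w * (1 + w) ^ 2 * r ^ 2 := by
    refine (vb_bd hr0.le hw.le).trans ?_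
    have h1 : r + w ≤ (1 + w) * r := by nlinarith
    have h2 : (r + w) ^ 2 ≤ ((1 + w) * r) ^ 2 := pow_le_pow_left₀ (by positivity) h1 2
    calc 4 * π * w * (r + w) ^ 2 ≤ 4 * π * w * ((1 + w) * r) ^ 2 :=
          mul_le_mul_of_nonneg_left h2 (by positivity)
      _ = _ := by ring
  have hc : 0 < vb r - vb (r - 1) := by
    rw [vb_diff]
    have : 0 < r ^ 3 - (r - 1) ^ 3 := by nlinarith
    positivity
  -- the total charge
  have hS : |Q| + ρ * (vb (r + w) - vb r) + κ * (vb (r + w) - vb (r + a)) ≤ S₁ * r ^ 2 := by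
    have h1 : κ * (vb (r + w) - vb (r + a)) ≤ ρ₁ * (vb (r + w) - vb r) :=
      mul_le_mul hκ1 hv3 hv2 hρ₁.le
    have h2 : (ρ + ρ₁) * (vb (r + w) - vb r)
        ≤ (ρ + ρ₁) * (4 * π * w * (1 + w) ^ 2 * r ^ 2) :=
      mul_le_mul_of_nonneg_left hv4 (by positivity)
    rw [hS1]
    nlinarith
  -- values
  have hval : ∀ x, |nuk ρ κ Q z r a w x| ≤ |Q| * sh z r x
      + ρ * (ch z (r + w) x - ch z r x) + κ * (ch z (r + w) x - ch z (r + a) x) := by
    intro x
    rw [nuk, ring_eq z r (r + w) (by linarith), ring_eq z (r + a) (r + w) (by linarith)]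
    have h1 : 0 ≤ ch z (r + w) x - ch z r x := by
      rw [← ring_eq z r (r + w) (by linarith)]
      exact indicator_nonneg (fun _ _ => zero_le_one) x
    have h2 : 0 ≤ ch z (r + w) x - ch z (r + a) x := by
      rw [← ring_eq z (r + a) (r + w) (by linarith)]
      exact indicator_nonneg (fun _ _ => zero_le_one) x
    have h3 : |Q * sh z r x| = |Q| * sh z r x := by
      rw [abs_mul, abs_of_nonneg (sBd x).1]
    calc _ ≤ |Q * sh z r x - ρ * (ch z (r + w) x - ch z r x)|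
          + |κ * (ch z (r + w) x - ch z (r + a) x)| := abs_add_le _ _
      _ ≤ |Q * sh z r x| + |ρ * (ch z (r + w) x - ch z r x)|
          + |κ * (ch z (r + w) x - ch z (r + a) x)| := by
            have := abs_sub (Q * sh z r x) (ρ * (ch z (r + w) x - ch z r x))
            linarith
      _ = _ := by
            rw [h3, abs_of_nonneg (mul_nonneg hρ.le h1), abs_of_nonneg (mul_nonneg hκ0 h2)]
  have hbd : ∀ x, |nuk ρ κ Q z r a w x| ≤ K₀ + ρ + ρ₁ := by
    intro x
    refine (hval x).trans ?_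
    have h1 : |Q| * sh z r x ≤ K₀ := by
      calc |Q| * sh z r x ≤ (K₀ * r ^ 2) * (r ^ 2)⁻¹ :=
            mul_le_mul hQ (sBd x).2 (sBd x).1 (by positivity)
        _ = K₀ := by field_simp
    have h2 : ch z (r + w) x - ch z r x ≤ 1 := by
      linarith [ch_le_one z (r + w) x, ch_nonneg z r x]
    have h3 : ch z (r + w) x - ch z (r + a) x ≤ 1 := by
      linarith [ch_le_one z (r + w) x, ch_nonneg z (r + a) x]
    have h4 : ρ * (ch z (r + w) x - ch z r x) ≤ ρ := by nlinarith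
    have h5 : κ * (ch z (r + w) x - ch z (r + a) x) ≤ ρ₁ := by nlinarith
    linarith
  have hadm : Adm (nuk ρ κ Q z r a w) := by
    refine ⟨?_, ⟨_, hbd⟩, ⟨‖z‖ + (r + w), fun x hx => ?_⟩⟩
    · have h1 : nuk ρ κ Q z r a w = fun x => Q * sh z r x - ρ * (ch z (r + w) x - ch z r x)
          + κ * (ch z (r + w) x - ch z (r + a) x) := by
        ext x
        rw [nuk, ring_eq z r (r + w) (by linarith), ring_eq z (r + a) (r + w) (by linarith)]
      rw [h1]
      exact ((sAdm.meas.const_mul Q).sub (((meas_ch z _).sub (meas_ch z _)).const_mul ρ)).add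
        (((meas_ch z _).sub (meas_ch z _)).const_mul κ)
    · have h1 : r + w < ‖x - z‖ := by
        have := norm_le_norm_add_norm_sub' x z
        linarith
      rw [nuk, sZero x (by linarith), indicator_of_notMem, indicator_of_notMem]
      · ring
      · rintro ⟨_, h⟩; linarith
      · rintro ⟨_, h⟩; linarith
  have hout : ∀ x, r + w < ‖x - z‖ → nuk ρ κ Q z r a w x = 0 := by
    intro x h1
    rw [nuk, sZero x (by linarith), indicator_of_notMem, indicator_of_notMem]
    · ring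
    · rintro ⟨_, h⟩; linarith
    · rintro ⟨_, h⟩; linarith
  have hin : ∀ x, ‖x - z‖ < r - 1 → nuk ρ κ Q z r a w x = 0 := by
    intro x h1
    rw [nuk, sh, indicator_of_notMem, indicator_of_notMem, indicator_of_notMem]
    · ring
    · rintro ⟨h, _⟩; linarith
    · rintro ⟨h, _⟩; linarith
    · rintro ⟨h, _⟩; linarith
  have hpot := fun x => pot_nuk hNewt hPot ρ κ Q z x hr ha haw
  have hpotbd : ∀ x, |pot (nuk ρ κ Q z r a w) x| ≤ C₁ := by
    intro x
    rw [hpot x]
    set t := ‖x - z‖ with ht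
    have ht0 : 0 ≤ t := norm_nonneg _
    have b1 := nt_bd (m := r - 1) (M := r + w) (R₁ := r - 1) (R₂ := r) (t := t) (by linarith)
      le_rfl (by linarith) (by linarith) ht0
    have b2 := nt_bd (m := r - 1) (M := r + w) (R₁ := r) (R₂ := r + w) (t := t) (by linarith)
      (by linarith) (by linarith) le_rfl ht0
    have b3 := nt_bd (m := r - 1) (M := r + w) (R₁ := r + a) (R₂ := r + w) (t := t) (by linarith)
      (by linarith) (by linarith) le_rfl ht0
    set u := max t (r + w) with hu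
    set c := vb r - vb (r - 1) with hcdef
    set d := (r - 1)⁻¹ - (r + w)⁻¹ with hd
    have e1 : Q * c⁻¹ * (nt r t - nt (r - 1) t) - ρ * (nt (r + w) t - nt r t)
        + κ * (nt (r + w) t - nt (r + a) t)
        = Q * c⁻¹ * (nt r t - nt (r - 1) t - c / u)
          - ρ * (nt (r + w) t - nt r t - (vb (r + w) - vb r) / u)
          + κ * (nt (r + w) t - nt (r + a) t - (vb (r + w) - vb (r + a)) / u)
          + (Q * (c⁻¹ * c) - ρ * (vb (r + w) - vb r) + κ * (vb (r + w) - vb (r + a))) / u := by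
      ring
    rw [e1, inv_mul_cancel₀ hc.ne', mul_one, hneu, zero_div, add_zero]
    have f1 : |Q * c⁻¹ * (nt r t - nt (r - 1) t - c / u)| ≤ |Q| * d := by
      rw [abs_mul, abs_mul, abs_of_pos (inv_pos.2 hc)]
      calc |Q| * c⁻¹ * |nt r t - nt (r - 1) t - c / u| ≤ |Q| * c⁻¹ * (c * d) :=
            mul_le_mul_of_nonneg_left b1 (by positivity)
        _ = |Q| * (c⁻¹ * c) * d := by ring
        _ = _ := by rw [inv_mul_cancel₀ hc.ne', mul_one]
    have f2 : |ρ * (nt (r + w) t - nt r t - (vb (r + w) - vb r) / u)|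
        ≤ ρ * (vb (r + w) - vb r) * d := by
      rw [abs_mul, abs_of_pos hρ, mul_assoc]
      exact mul_le_mul_of_nonneg_left b2 hρ.le
    have f3 : |κ * (nt (r + w) t - nt (r + a) t - (vb (r + w) - vb (r + a)) / u)|
        ≤ κ * (vb (r + w) - vb (r + a)) * d := by
      rw [abs_mul, abs_of_nonneg hκ0, mul_assoc]
      exact mul_le_mul_of_nonneg_left b3 hκ0
    have g1 : 0 ≤ d := by
      have : (r + w)⁻¹ ≤ (r - 1)⁻¹ := inv_anti₀ (by linarith) (by linarith)
      rw [hd]; linarith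
    have g2 : d ≤ 2 * (w + 1) / r ^ 2 := by
      have h1 : d = (w + 1) / ((r - 1) * (r + w)) := by
        have h2 : r - 1 ≠ 0 := by intro h; linarith
        have h3 : r + w ≠ 0 := by intro h; linarith
        rw [hd]
        field_simp
        ring
      rw [h1, div_le_div_iff₀ (mul_pos (by linarith) (by linarith)) (by positivity)]
      have h4 : r ^ 2 ≤ 2 * ((r - 1) * (r + w)) := by nlinarith
      have h5 := mul_le_mul_of_nonneg_left h4 (show 0 ≤ w + 1 by linarith)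
      linarith
    have g3 : |Q * c⁻¹ * (nt r t - nt (r - 1) t - c / u)
          - ρ * (nt (r + w) t - nt r t - (vb (r + w) - vb r) / u)
          + κ * (nt (r + w) t - nt (r + a) t - (vb (r + w) - vb (r + a)) / u)|
        ≤ (|Q| + ρ * (vb (r + w) - vb r) + κ * (vb (r + w) - vb (r + a))) * d := by
      refine (abs_add_le _ _).trans ?_
      have := abs_sub (Q * c⁻¹ * (nt r t - nt (r - 1) t - c / u))
        (ρ * (nt (r + w) t - nt r t - (vb (r + w) - vb r) / u))
      rw [add_mul, add_mul]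
      linarith
    refine g3.trans ?_
    calc (|Q| + ρ * (vb (r + w) - vb r) + κ * (vb (r + w) - vb (r + a))) * d
        ≤ (S₁ * r ^ 2) * (2 * (w + 1) / r ^ 2) := mul_le_mul hS g2 g1 (by positivity)
      _ = C₁ := by rw [hC1]; field_simp
  refine ⟨hadm, fun x => (hbd x).trans (by nlinarith [mul_pos hC1pos hS1pos]), hout, hin, ?_,
    fun x => (hpotbd x).trans (by nlinarith [mul_pos hC1pos hS1pos]), ?_⟩
  · intro x hx
    have hx0 : 0 < ‖x - z‖ := by linarith
    rw [hpot x, nt_ge (by linarith) hx0, nt_ge (by linarith) hx0, nt_ge (by linarith) hx0,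
      nt_ge (by linarith) hx0]
    have e1 : Q * (vb r - vb (r - 1))⁻¹ * (vb r / ‖x - z‖ - vb (r - 1) / ‖x - z‖)
        - ρ * (vb (r + w) / ‖x - z‖ - vb r / ‖x - z‖)
        + κ * (vb (r + w) / ‖x - z‖ - vb (r + a) / ‖x - z‖)
        = (Q * ((vb r - vb (r - 1))⁻¹ * (vb r - vb (r - 1))) - ρ * (vb (r + w) - vb r)
          + κ * (vb (r + w) - vb (r + a))) / ‖x - z‖ := by ring
    rw [e1, inv_mul_cancel₀ hc.ne', mul_one, hneu, zero_div]
  · have h0 : Integrable (sh z r) := by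
      have : ∫ x, sh z r x ≠ 0 := by rw [sInt]; exact one_ne_zero
      exact not_imp_comm.1 integral_undef this
    have i1 : Integrable (fun x => |Q| * sh z r x) := h0.const_mul _
    have i2 : Integrable (fun x => ρ * (ch z (r + w) x - ch z r x)) :=
      ((integrable_ch z _).sub (integrable_ch z _)).const_mul _
    have i3 : Integrable (fun x => κ * (ch z (r + w) x - ch z (r + a) x)) :=
      ((integrable_ch z _).sub (integrable_ch z _)).const_mul _
    have i12 : Integrable (fun x => |Q| * sh z r x + ρ * (ch z (r + w) x - ch z r x)) :=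
      i1.add i2
    have hi : Integrable (fun x => |Q| * sh z r x
        + ρ * (ch z (r + w) x - ch z r x) + κ * (ch z (r + w) x - ch z (r + a) x)) := i12.add i3
    have h1 : Dfm (nuk ρ κ Q z r a w) (nuk ρ κ Q z r a w) ≤ ∫ x, C₁ * (|Q| * sh z r x
        + ρ * (ch z (r + w) x - ch z r x) + κ * (ch z (r + w) x - ch z (r + a) x)) := by
      unfold Dfm
      refine (le_abs_self _).trans ?_
      rw [← Real.norm_eq_abs]
      refine norm_integral_le_of_norm_le (hi.const_mul C₁) (Eventually.of_forall fun x => ?_)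
      rw [norm_mul, Real.norm_eq_abs, Real.norm_eq_abs, mul_comm]
      exact mul_le_mul (hpotbd x) (hval x) (abs_nonneg _) hC1pos.le
    refine h1.trans ?_
    rw [integral_const_mul, integral_add i12 i3, integral_add i1 i2,
      integral_const_mul, integral_const_mul, integral_const_mul, sInt,
      integral_sub (integrable_ch z _) (integrable_ch z _),
      integral_sub (integrable_ch z _) (integrable_ch z _),
      int_ch hLens z (by linarith), int_ch hLens z (by linarith), int_ch hLens z (by linarith),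
      mul_one]
    have h2 : C₁ * (|Q| + ρ * (vb (r + w) - vb r) + κ * (vb (r + w) - vb (r + a)))
        ≤ C₁ * (S₁ * r ^ 2) := mul_le_mul_of_nonneg_left hS hC1pos.le
    have h3 : 0 ≤ ((K₀ + ρ + ρ₁) + C₁) * r ^ 2 := by positivity
    linarith

end Pool.Agent.JEL
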