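import Pool.Agent.JEL.Stmts

/-!
# JEL, module Rot: the mean potential of the Gibbs state of a ball, seen from outside
-/

open MeasureTheory Set Filter Topology

namespace Pool.Agent.JEL

namespace Rot_

theorem adm_bg (ρ : ℝ) (z : E) (r : ℝ) : Adm (bg ρ (cB z r)) where
  meas := measurable_const.indicator Metric.isClosed_closedBall.measurableSet
  bdd := ⟨|ρ|, fun x => by
    unfold bg
    by_cases h : x ∈ cB z r
    · rw [indicator_of_mem h, abs_neg]
    · rw [indicator_of_notMem h, abs_zero]
      exact abs_nonneg _⟩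
  supp := ⟨‖z‖ + r, fun x hx => by
    apply indicator_of_notMem
    intro h
    rw [mem_closedBall_iff_norm] at h
    have := norm_le_norm_add_norm_sub' x z
    linarith⟩

/-- rotation around `z` -/
noncomputable def rt (z : E) (g : E ≃ₗᵢ[ℝ] E) (x : E) : E := z + g (x - z)

theorem rt_dist (z : E) (g : E ≃ₗᵢ[ℝ] E) (x y : E) : ‖rt z g x - rt z g y‖ = ‖x - y‖ := by
  unfold rt
  rw [add_sub_add_left_eq_sub, ← map_sub, sub_sub_sub_cancel_right, g.norm_map]

theorem rt_norm (z : E) (g : E ≃ₗᵢ[ℝ] E) (x : E) : ‖rt z g x - z‖ = ‖x - z‖ := by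
  unfold rt
  rw [add_sub_cancel_left, g.norm_map]

theorem rt_mp (z : E) (g : E ≃ₗᵢ[ℝ] E) : MeasurePreserving (rt z g) volume volume :=
  (measurePreserving_add_left volume z).comp
    (g.measurePreserving.comp (measurePreserving_sub_right volume z))

theorem rt_emb (z : E) (g : E ≃ₗᵢ[ℝ] E) : MeasurableEmbedding (rt z g) := by
  have h : Isometry (rt z g) := Isometry.of_dist_eq fun x y => by
    rw [dist_eq_norm, dist_eq_norm, rt_dist]
  exact h.isClosedEmbedding.measurableEmbedding

theorem bg_rt (ρ r : ℝ) (z : E) (g : E ≃ₗᵢ[ℝ] E) (x : E) :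
    bg ρ (cB z r) (rt z g x) = bg ρ (cB z r) x := by
  unfold bg indicator
  simp only [mem_closedBall_iff_norm, rt_norm]

theorem pot_rt (ρ r : ℝ) (z : E) (g : E ≃ₗᵢ[ℝ] E) (x : E) :
    pot (bg ρ (cB z r)) (rt z g x) = pot (bg ρ (cB z r)) x := by
  unfold pot
  rw [← (rt_mp z g).integral_comp (rt_emb z g)]
  congr 1
  funext y
  rw [rt_dist, bg_rt]

theorem En_rt (ρ r : ℝ) (z : E) (g : E ≃ₗᵢ[ℝ] E) {n : ℕ} (X : Fin n → E) :
    En (bg ρ (cB z r)) (fun i => rt z g (X i)) = En (bg ρ (cB z r)) X := by
  unfold En pairE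
  simp only [rt_dist, pot_rt]

theorem conf_rt (a r : ℝ) (z : E) (g : E ≃ₗᵢ[ℝ] E) {n : ℕ} (X : Fin n → E) :
    (fun i => rt z g (X i)) ∈ conf a (cB z r) n ↔ X ∈ conf a (cB z r) n := by
  unfold conf HC
  simp only [mem_ofPred_eq, rt_dist, mem_closedBall_iff_norm, rt_norm]

end Rot_

open Rot_ in
theorem Rot_proof (hRotm : Stmt_Rotm) (hMeas : Stmt_Meas) : Stmt_Rot := by
  intro a β ρ r z y n ha hβ hρ hr hy
  obtain ⟨hM1, hM2, hM3, -⟩ := hMeas
  set F : E → ℝ := bg ρ (cB z r) with hF
  have hadm : Adm F := adm_bg ρ z r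
  have hEn : Measurable fun X : Fin n → E => En F X := hM1 F n hadm
  have hBM : BM (cB z r) := ⟨Metric.isClosed_closedBall.measurableSet, Metric.isBounded_closedBall⟩
  have hconf : MeasurableSet (conf a (cB z r) n) := hM2 a _ n hBM.1
  have hint : IntegrableOn (fun X : Fin n → E => Real.exp (-β * En F X)) (conf a (cB z r) n) :=
    hM3 a β F _ n ha hβ hadm hBM
  set w : (Fin n → E) → ℝ := fun X => Real.exp (-β * En F X) with hw
  have hwm : Measurable w := (hEn.const_mul (-β)).exp
  set μ : Measure (Fin n → E) :=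
    (volume.restrict (conf a (cB z r) n)).withDensity fun X => ENNReal.ofReal (w X) with hμ
  have hfin : IsFiniteMeasure μ := isFiniteMeasure_withDensity_ofReal hint.2
  -- invariance
  have hinv : ∀ g : E ≃ₗᵢ[ℝ] E, μ.map (fun X i => rt z g (X i)) = μ := by
    intro g
    have hmp : MeasurePreserving (fun (X : Fin n → E) i => rt z g (X i)) volume volume :=
      volume_preserving_pi fun _ => rt_mp z g
    ext S hS
    rw [Measure.map_apply hmp.measurable hS, hμ, withDensity_apply _ (hmp.measurable hS),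
      withDensity_apply _ hS, Measure.restrict_restrict hS,
      Measure.restrict_restrict (hmp.measurable hS)]
    rw [← hmp.setLIntegral_comp_preimage (hS.inter hconf) (hwm.ennreal_ofReal)]
    have h1 : (fun (X : Fin n → E) i => rt z g (X i)) ⁻¹' S ∩ conf a (cB z r) n =
        (fun (X : Fin n → E) i => rt z g (X i)) ⁻¹' (S ∩ conf a (cB z r) n) := by
      ext X
      simp only [mem_inter_iff, mem_preimage, conf_rt]
    rw [h1]
    simp only [hw, hF, En_rt]
  -- one coordinate
  have hone : ∀ i : Fin n, ∫ X, ‖X i - y‖⁻¹ ∂μ = μ.real univ * ‖y - z‖⁻¹ := by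
    intro i
    have hmi : Measurable fun X : Fin n → E => X i - z :=
      (measurable_pi_apply (X := fun _ : Fin n => E) i).sub_const z
    have : IsFiniteMeasure (μ.map fun X : Fin n → E => X i - z) :=
      Measure.isFiniteMeasure_map _ _
    have h1 := hRotm (μ.map fun X : Fin n → E => X i - z) r hr ?_ ?_ (y - z) hy
    · rw [integral_map hmi.aemeasurable (by fun_prop)] at h1
      simp only [sub_sub_sub_cancel_right] at h1
      rw [h1]
      congr 1
      rw [measureReal_def, measureReal_def, Measure.map_apply hmi MeasurableSet.univ,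
        preimage_univ]
    · rw [Measure.map_apply hmi Metric.isClosed_closedBall.measurableSet.compl, hμ,
        withDensity_apply _ (hmi Metric.isClosed_closedBall.measurableSet.compl),
        Measure.restrict_restrict (hmi Metric.isClosed_closedBall.measurableSet.compl)]
      have h2 : (fun X : Fin n → E => X i - z) ⁻¹' (cB 0 r)ᶜ ∩ conf a (cB z r) n = ∅ := by
        ext X
        simp only [mem_inter_iff, mem_preimage, mem_compl_iff, mem_closedBall_zero_iff,
          mem_empty_iff_false, iff_false, not_and]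
        intro h3 h4
        apply h3
        exact mem_closedBall_iff_norm.1 (h4.2 i)
      rw [h2]
      simp
    · intro g
      rw [Measure.map_map g.continuous.measurable hmi]
      have h2 : (g ∘ fun X : Fin n → E => X i - z) =
          (fun X : Fin n → E => X i - z) ∘ fun (X : Fin n → E) i => rt z g (X i) := by
        funext X
        simp [rt]
      have hm2 : Measurable fun (X : Fin n → E) i => rt z g (X i) :=
        (volume_preserving_pi fun _ => rt_mp z g).measurable
      rw [h2, ← Measure.map_map hmi hm2, hinv g]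
  have hμint : ∀ f : (Fin n → E) → ℝ, ∫ X, f X ∂μ = ∫ X in conf a (cB z r) n, w X * f X := by
    intro f
    rw [hμ, integral_withDensity_eq_integral_toReal_smul hwm.ennreal_ofReal
      (ae_of_all _ fun X => ENNReal.ofReal_lt_top)]
    congr 1
    funext X
    rw [smul_eq_mul, ENNReal.toReal_ofReal (Real.exp_pos _).le]
  have hbd : ∀ X ∈ conf a (cB z r) n, ∀ i, ‖X i - y‖⁻¹ ≤ (‖y - z‖ - r)⁻¹ := by
    intro X hX i
    have h3 : ‖X i - z‖ ≤ r := mem_closedBall_iff_norm.1 (hX.2 i)
    have h4 : ‖y - z‖ ≤ ‖X i - y‖ + ‖X i - z‖ := by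
      have := norm_sub_le (X i - z) (X i - y)
      rw [sub_sub_sub_cancel_left] at this
      linarith
    exact inv_anti₀ (by linarith) (by linarith)
  have hsum : ∫ X in conf a (cB z r) n, w X * ∑ i, ‖X i - y‖⁻¹ =
      ∑ i, ∫ X in conf a (cB z r) n, w X * ‖X i - y‖⁻¹ := by
    simp only [Finset.mul_sum]
    apply integral_finsetSum
    intro i _
    refine Integrable.mul_bdd (c := (‖y - z‖ - r)⁻¹) hint
      (Measurable.aestronglyMeasurable (by measurability)) ?_
    rw [ae_restrict_iff' hconf]
    refine ae_of_all _ fun X hX => ?_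
    rw [norm_inv, norm_norm]
    exact hbd X hX i
  rw [hsum]
  simp only [← hμint, hone]
  rw [Finset.sum_const, Finset.card_univ, Fintype.card_fin, nsmul_eq_mul]
  have h5 : μ.real univ = ∫ X in conf a (cB z r) n, w X := by
    have h6 := hμint fun _ => 1
    simp only [mul_one, integral_const, smul_eq_mul] at h6
    exact h6
  rw [h5]
  ring

end Pool.Agent.JEL
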