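import Pool.Agent.JEL.Stmts

/-!
# JEL, module Rotm
-/

open MeasureTheory Set Filter Topology

namespace Pool.Agent.JEL

open scoped Real

namespace Rotm_

/-- kernel integrals over a shell -/
theorem shellK (hNewt : Stmt_Newt) {R₁ R₂ : ℝ} (h1 : 0 < R₁) (h2 : R₁ < R₂) (x : E)
    (hx : ‖x‖ ≤ R₁) :
    ∫ y in cB (0:E) R₂ \ cB (0:E) R₁, ‖x - y‖⁻¹ = 2 * π * (R₂ ^ 2 - R₁ ^ 2) := by
  have e2 := hNewt.1 R₂ 0 x (h1.trans h2)
  have e1 := hNewt.1 R₁ 0 x h1
  rw [sub_zero] at e1 e2
  have n2 : nt R₂ ‖x‖ = 2 * Real.pi * R₂ ^ 2 - 2 * Real.pi / 3 * ‖x‖ ^ 2 :=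
    if_pos (hx.trans h2.le)
  have n1 : nt R₁ ‖x‖ = 2 * Real.pi * R₁ ^ 2 - 2 * Real.pi / 3 * ‖x‖ ^ 2 := if_pos hx
  have hpos : 0 < nt R₂ ‖x‖ := by
    rw [n2]
    have hsq : ‖x‖ ^ 2 ≤ R₂ ^ 2 := pow_le_pow_left₀ (norm_nonneg _) (hx.trans h2.le) 2
    have hR : 0 < R₂ ^ 2 := pow_pos (h1.trans h2) 2
    have hp := Real.pi_pos
    nlinarith [mul_pos hp hR, mul_nonneg hp.le (sub_nonneg.2 hsq)]
  have hint : IntegrableOn (fun y : E => ‖x - y‖⁻¹) (cB (0:E) R₂) := by
    by_contra hcon
    have := integral_undef (μ := volume.restrict (cB (0:E) R₂)) (f := fun y : E => ‖x - y‖⁻¹)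
      hcon
    rw [this] at e2
    rw [← e2] at hpos
    exact lt_irrefl _ hpos
  rw [setIntegral_sdiff Metric.isClosed_closedBall.measurableSet hint
    (Metric.closedBall_subset_closedBall h2.le), e2, e1, n2, n1]
  ring

/-- invariance of the potential -/
theorem phi_inv (m : Measure E) (hinv : ∀ g : E ≃ₗᵢ[ℝ] E, m.map g = m) (g : E ≃ₗᵢ[ℝ] E)
    (y : E) : ∫ x, ‖x - g y‖⁻¹ ∂m = ∫ x, ‖x - y‖⁻¹ ∂m := by
  have hg : Measurable g := g.continuous.measurable
  have h : ∫ x, ‖x - g y‖⁻¹ ∂(m.map g) = ∫ x, ‖g x - g y‖⁻¹ ∂m := by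
    rw [integral_map hg.aemeasurable]
    exact ((measurable_id.sub_const _).norm.inv).aestronglyMeasurable
  rw [hinv g] at h
  rw [h]
  refine integral_congr_ae (Eventually.of_forall fun x => ?_)
  show ‖g x - g y‖⁻¹ = ‖x - y‖⁻¹
  rw [← map_sub, g.norm_map]

end Rotm_

open Rotm_ in
theorem Rotm_proof (hNewt : Stmt_Newt) (hIso : Stmt_Iso) : Stmt_Rotm := by
  intro m _ r hr hm hinv y0 hy0
  set M := m.real univ with hM
  have hae : ∀ᵐ x ∂m, x ∈ cB (0:E) r := by
    rw [ae_iff]
    exact hm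
  set Φ : E → ℝ := fun y => ∫ x, ‖x - y‖⁻¹ ∂m with hΦ
  set f : E → ℝ := fun y => Φ y - M * ‖y‖⁻¹ with hf
  have hfinv : ∀ (g : E ≃ₗᵢ[ℝ] E) (y : E), f (g y) = f y := by
    intro g y
    simp only [hf, hΦ]
    rw [phi_inv m hinv g y, g.norm_map]
  -- continuity
  have hcont : ContinuousAt f y0 := by
    have hy00 : ‖y0‖ ≠ 0 := (hr.trans hy0).ne'
    have h1 : ContinuousAt Φ y0 := by
      refine continuousAt_of_dominated (bound := fun _ => ((‖y0‖ - r) / 2)⁻¹) ?_ ?_
        (integrable_const _) ?_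
      · exact Eventually.of_forall fun y =>
          ((measurable_id.sub_const y).norm.inv).aestronglyMeasurable
      · have hball : ∀ᶠ y in 𝓝 y0, y ∈ Metric.ball y0 ((‖y0‖ - r) / 2) :=
          Metric.ball_mem_nhds _ (by linarith)
        filter_upwards [hball] with y hy
        filter_upwards [hae] with x hx
        have hx' : ‖x‖ ≤ r := by simpa using hx
        have hy' : ‖y - y0‖ < (‖y0‖ - r) / 2 := by
          rw [← dist_eq_norm]
          exact hy
        rw [Real.norm_eq_abs, abs_of_nonneg (inv_nonneg.2 (norm_nonneg _))]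
        refine inv_anti₀ (by linarith) ?_
        have t1 : ‖y0‖ ≤ ‖y - y0‖ + ‖x - y‖ + ‖x‖ := by
          have : y0 = x - (x - y) - (y - y0) := by abel
          calc ‖y0‖ = ‖x - (x - y) - (y - y0)‖ := by rw [← this]
            _ ≤ ‖x - (x - y)‖ + ‖y - y0‖ := norm_sub_le _ _
            _ ≤ ‖x‖ + ‖x - y‖ + ‖y - y0‖ := by
                have := norm_sub_le x (x - y)
                linarith
            _ = _ := by ring
        linarith
      · filter_upwards [hae] with x hx
        have hx' : ‖x‖ ≤ r := by simpa using hx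
        have hne : ‖x - y0‖ ≠ 0 := by
          rw [norm_ne_zero_iff, sub_ne_zero]
          rintro rfl
          linarith
        exact ((continuous_const.sub continuous_id).norm.continuousAt).inv₀ hne
    exact h1.sub (continuousAt_const.mul (continuous_norm.continuousAt.inv₀ hy00))
  -- integral over shells
  have hshell : ∀ R₁ R₂ : ℝ, r < R₁ → R₁ < R₂ →
      IntegrableOn f (cB (0:E) R₂ \ cB (0:E) R₁) ∧
      ∫ y in cB (0:E) R₂ \ cB (0:E) R₁, f y = 0 := by
    intro R₁ R₂ h1 h2
    have hR1 : 0 < R₁ := hr.trans h1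
    set S : Set E := cB (0:E) R₂ \ cB (0:E) R₁ with hS
    have hSm : MeasurableSet S :=
      Metric.isClosed_closedBall.measurableSet.diff Metric.isClosed_closedBall.measurableSet
    have hfin : volume S < ⊤ :=
      (measure_mono sdiff_subset).trans_lt measure_closedBall_lt_top
    have : IsFiniteMeasure (volume.restrict S) := ⟨by
      rw [Measure.restrict_apply_univ]
      exact hfin⟩
    have hK : Integrable (fun p : E × E => ‖p.2 - p.1‖⁻¹) ((volume.restrict S).prod m) := by
      refine Integrable.of_bound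
        ((measurable_snd.sub measurable_fst).norm.inv).aestronglyMeasurable ((R₁ - r)⁻¹) ?_
      have a1 : ∀ᵐ p ∂((volume.restrict S).prod m), p.1 ∈ S :=
        Measure.quasiMeasurePreserving_fst.ae (ae_restrict_mem hSm)
      have a2 : ∀ᵐ p ∂((volume.restrict S).prod m), p.2 ∈ cB (0:E) r :=
        Measure.quasiMeasurePreserving_snd.ae hae
      filter_upwards [a1, a2] with p p1 p2
      have hx' : ‖p.2‖ ≤ r := by simpa using p2
      have hy' : R₁ < ‖p.1‖ := by
        have := p1.2
        rw [Metric.mem_closedBall, dist_zero_right, not_le] at this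
        exact this
      rw [Real.norm_eq_abs, abs_of_nonneg (inv_nonneg.2 (norm_nonneg _))]
      refine inv_anti₀ (by linarith) ?_
      have := norm_sub_norm_le p.1 p.2
      rw [norm_sub_rev] at this
      linarith
    have hΦint : Integrable Φ (volume.restrict S) := hK.integral_prod_left
    have hΦval : ∫ y in S, Φ y = M * (2 * π * (R₂ ^ 2 - R₁ ^ 2)) := by
      have hsw := integral_integral_swap (μ := volume.restrict S) (ν := m)
        (f := fun y x => ‖x - y‖⁻¹) hK
      rw [hΦ, hsw]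
      have : ∀ᵐ x ∂m, ∫ y in S, ‖x - y‖⁻¹ = 2 * π * (R₂ ^ 2 - R₁ ^ 2) := by
        filter_upwards [hae] with x hx
        have hx' : ‖x‖ ≤ r := by simpa using hx
        exact shellK hNewt hR1 h2 x (hx'.trans h1.le)
      rw [integral_congr_ae this, integral_const, smul_eq_mul]
    have h0 := shellK hNewt hR1 h2 0 (by simpa using hR1.le)
    simp only [zero_sub, norm_neg] at h0
    have hpos : 0 < 2 * π * (R₂ ^ 2 - R₁ ^ 2) := by
      have : 0 < R₂ ^ 2 - R₁ ^ 2 := by nlinarith
      have := Real.pi_pos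
      positivity
    have hnint : IntegrableOn (fun y : E => ‖y‖⁻¹) S := by
      by_contra hcon
      have := integral_undef (μ := volume.restrict S) (f := fun y : E => ‖y‖⁻¹) hcon
      rw [this] at h0
      linarith
    constructor
    · exact hΦint.sub (hnint.const_mul M)
    · rw [hf]
      rw [integral_sub hΦint (hnint.const_mul M), hΦval, integral_const_mul, h0]
      ring
  -- the conclusion
  suffices hz : f y0 = 0 by
    have := hz
    simp only [hf] at this
    linarith
  by_contra hne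
  have hc2 : 0 < f y0 * f y0 := mul_self_pos.2 hne
  have hcont' : ContinuousAt (fun y => f y0 * f y) y0 := continuousAt_const.mul hcont
  have hev : ∀ᶠ y in 𝓝 y0, f y0 * f y0 / 2 < f y0 * f y :=
    hcont'.eventually (lt_mem_nhds (by linarith))
  obtain ⟨δ, hδ, hball⟩ := Metric.eventually_nhds_iff.1 hev
  set η := min (δ / 2) ((‖y0‖ - r) / 2) with hη
  have hη0 : 0 < η := lt_min (by linarith) (by linarith)
  have hη1 : η ≤ δ / 2 := min_le_left _ _
  have hη2 : η ≤ (‖y0‖ - r) / 2 := min_le_right _ _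
  obtain ⟨hfi, hf0⟩ := hshell (‖y0‖ - η) (‖y0‖ + η) (by linarith) (by linarith)
  set S : Set E := cB (0:E) (‖y0‖ + η) \ cB (0:E) (‖y0‖ - η) with hS
  have hSm : MeasurableSet S :=
    Metric.isClosed_closedBall.measurableSet.diff Metric.isClosed_closedBall.measurableSet
  have hfin : volume S ≠ ⊤ :=
    ((measure_mono sdiff_subset).trans_lt measure_closedBall_lt_top).ne
  have hlow : ∀ y ∈ S, f y0 * f y0 / 2 ≤ f y0 * f y := by
    intro y hy
    have hn1 : ‖y‖ ≤ ‖y0‖ + η := by simpa using hy.1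
    have hn2 : ‖y0‖ - η < ‖y‖ := by
      have := hy.2
      rw [Metric.mem_closedBall, dist_zero_right, not_le] at this
      exact this
    have hρ : 0 < ‖y0‖ := hr.trans hy0
    set y' : E := (‖y‖ / ‖y0‖) • y0 with hy'
    have hny' : ‖y'‖ = ‖y‖ := by
      rw [hy', norm_smul, Real.norm_eq_abs, abs_of_nonneg (by positivity),
        div_mul_cancel₀ _ hρ.ne']
    obtain ⟨g1, hg1⟩ := hIso y
    obtain ⟨g2, hg2⟩ := hIso y'
    have hgy : (g1.trans g2.symm) y = y' := by
      rw [LinearIsometryEquiv.trans_apply, hg1, ← hny', ← hg2, g2.symm_apply_apply]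
    have hfy : f y = f y' := by
      rw [← hgy, hfinv]
    rw [hfy]
    refine (hball ?_).le
    rw [dist_eq_norm]
    have e : y' - y0 = ((‖y‖ - ‖y0‖) / ‖y0‖) • y0 := by
      rw [hy', sub_div, div_self hρ.ne', sub_smul, one_smul]
    rw [e, norm_smul, Real.norm_eq_abs, abs_div, abs_of_pos hρ, div_mul_cancel₀ _ hρ.ne']
    rw [abs_lt]
    constructor <;> linarith
  have hvol : 0 < volume.real S := by
    rw [Measure.real, ENNReal.toReal_pos_iff]
    refine ⟨?_, lt_top_iff_ne_top.2 hfin⟩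
    have hopen : IsOpen {y : E | ‖y0‖ - η < ‖y‖ ∧ ‖y‖ < ‖y0‖ + η} :=
      (isOpen_lt continuous_const continuous_norm).inter
        (isOpen_lt continuous_norm continuous_const)
    have hne' : ({y : E | ‖y0‖ - η < ‖y‖ ∧ ‖y‖ < ‖y0‖ + η}).Nonempty :=
      ⟨y0, by constructor <;> linarith⟩
    refine (hopen.measure_pos volume hne').trans_le (measure_mono ?_)
    intro y hy
    refine ⟨by simpa using hy.2.le, ?_⟩
    rw [Metric.mem_closedBall, dist_zero_right, not_le]
    exact hy.1
  have hI : ∫ y in S, f y0 * f y0 / 2 ≤ ∫ y in S, f y0 * f y := by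
    refine setIntegral_mono_on ?_ (hfi.const_mul _) hSm hlow
    exact integrableOn_const hfin
  rw [setIntegral_const, integral_const_mul, hf0, mul_zero, smul_eq_mul] at hI
  have : 0 < volume.real S * (f y0 * f y0 / 2) := by positivity
  linarith

end Pool.Agent.JEL
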