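import Pool.Agent.JEL.Stmts

/-!
# JEL module Sh: the uniform probability density of a shell
-/

open MeasureTheory Set Filter Topology

namespace Pool.Agent.JEL

namespace Sh_

lemma vb_diff {r : ℝ} (hr : 2 ≤ r) : r ^ 2 ≤ vb r - vb (r - 1) := by
  unfold vb
  have hpi := Real.pi_gt_three
  have h1 : 4 * Real.pi / 3 * r ^ 3 - 4 * Real.pi / 3 * (r - 1) ^ 3 =
      4 * Real.pi / 3 * (3 * r ^ 2 - 3 * r + 1) := by ring
  rw [h1]
  have h2 : 0 ≤ 3 * r ^ 2 - 3 * r + 1 := by nlinarith
  nlinarith

lemma measurableSet_shell (z : E) (r₁ r₂ : ℝ) : MeasurableSet (shell z r₁ r₂) := by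
  unfold shell
  have h : Measurable (fun x : E => ‖x - z‖) := (measurable_id.sub_const z).norm
  exact (measurableSet_le measurable_const h).inter (measurableSet_le h measurable_const)

lemma shell_eq (z : E) (r₁ r₂ : ℝ) : shell z r₁ r₂ = cB z r₂ \ Metric.ball z r₁ := by
  ext x
  simp only [shell, Set.mem_ofPred_eq, Set.mem_sdiff, Metric.mem_closedBall, Metric.mem_ball, dist_eq_norm,
    not_lt]
  exact and_comm

lemma vol_ball (hLens : Stmt_Lens) (z : E) {r : ℝ} (hr : 0 ≤ r) :
    volume.real (Metric.ball z r) = vb r := by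
  rw [← hLens.1 z r hr, measureReal_def, measureReal_def]
  by_cases h : r = 0
  · subst h
    simp
  · rw [Measure.addHaar_closedBall_eq_addHaar_ball]

lemma vol_shell (hLens : Stmt_Lens) (z : E) {r : ℝ} (hr : 2 ≤ r) :
    volume.real (shell z (r - 1) r) = vb r - vb (r - 1) := by
  rw [shell_eq, measureReal_sdiff (Metric.ball_subset_closedBall.trans
    (Metric.closedBall_subset_closedBall (by linarith))) Metric.isOpen_ball.measurableSet
    measure_closedBall_lt_top.ne,
    hLens.1 z r (by linarith), vol_ball hLens z (by linarith)]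

end Sh_

open Sh_ in
theorem Sh_proof (hNewt : Stmt_Newt) (hLens : Stmt_Lens) : Stmt_Sh := by
  intro z r hr
  have hd := vb_diff hr
  have hr2 : 0 < r ^ 2 := by positivity
  have hpos : 0 < vb r - vb (r - 1) := by linarith
  have hm := measurableSet_shell z (r - 1) r
  have hb : ∀ x, 0 ≤ sh z r x ∧ sh z r x ≤ (r ^ 2)⁻¹ := by
    intro x
    unfold sh
    by_cases hx : x ∈ shell z (r - 1) r
    · rw [indicator_of_mem hx]
      exact ⟨by positivity, inv_anti₀ hr2 hd⟩
    · rw [indicator_of_notMem hx]
      exact ⟨le_rfl, by positivity⟩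
  have h0 : ∀ x, r < ‖x - z‖ → sh z r x = 0 := by
    intro x hx
    unfold sh
    rw [indicator_of_notMem]
    intro h
    exact absurd h.2 (not_le.mpr hx)
  refine ⟨⟨?_, ?_, ?_⟩, h0, hb, ?_, ?_⟩
  · unfold sh
    exact measurable_const.indicator hm
  · exact ⟨(r ^ 2)⁻¹, fun x => by rw [abs_of_nonneg (hb x).1]; exact (hb x).2⟩
  · refine ⟨r + ‖z‖, fun x hx => h0 x ?_⟩
    have := norm_sub_norm_le x z
    linarith
  · unfold sh
    rw [integral_indicator hm, setIntegral_const, vol_shell hLens z hr, smul_eq_mul,
      mul_inv_cancel₀ hpos.ne']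
  · intro y hy
    have hyp : 0 < ‖y - z‖ := by linarith
    have hnt : nt r ‖y - z‖ = vb r / ‖y - z‖ := by
      unfold nt
      split_ifs with h
      · have e : ‖y - z‖ = r := le_antisymm h hy
        rw [e]
        unfold vb
        field_simp
        ring
      · rfl
    have hnt1 : nt (r - 1) ‖y - z‖ = vb (r - 1) / ‖y - z‖ := by
      unfold nt
      rw [if_neg (by linarith)]
    have hI1 := hNewt.1 r z y (by linarith)
    have hI2 := hNewt.1 (r - 1) z y (by linarith)
    rw [hnt] at hI1
    rw [hnt1] at hI2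
    have hvr : 0 < vb r := by unfold vb; positivity
    have hint : IntegrableOn (fun x => ‖y - x‖⁻¹) (cB z r) := by
      by_contra h
      rw [integral_undef h] at hI1
      have : 0 < vb r / ‖y - z‖ := by positivity
      linarith
    have hball : ∫ x in Metric.ball z (r - 1), ‖y - x‖⁻¹ = vb (r - 1) / ‖y - z‖ := by
      rw [← hI2]
      apply setIntegral_congr_set
      have hsub : Metric.ball z (r - 1) ⊆ cB z (r - 1) := Metric.ball_subset_closedBall
      refine ae_eq_of_subset_of_measure_ge hsub ?_
        Metric.isOpen_ball.measurableSet.nullMeasurableSet measure_closedBall_lt_top.ne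
      rw [Measure.addHaar_closedBall_eq_addHaar_ball]
    unfold pot
    have e1 : (fun x => sh z r x * ‖y - x‖⁻¹) =
        (shell z (r - 1) r).indicator (fun x => (vb r - vb (r - 1))⁻¹ * ‖y - x‖⁻¹) := by
      funext x
      unfold sh
      by_cases hx : x ∈ shell z (r - 1) r
      · rw [indicator_of_mem hx, indicator_of_mem hx]
      · rw [indicator_of_notMem hx, indicator_of_notMem hx, zero_mul]
    rw [e1, integral_indicator hm, integral_const_mul, shell_eq,
      setIntegral_sdiff Metric.isOpen_ball.measurableSet hint (Metric.ball_subset_closedBall.trans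
        (Metric.closedBall_subset_closedBall (by linarith))), hI1, hball]
    field_simp

end Pool.Agent.JEL
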