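import Pool.Agent.JEL.Stmts

open MeasureTheory Set Filter Topology

namespace Pool.Agent.JEL

namespace StabT_

theorem ae_eq (hKer1 : Stmt_Ker1) (F : E → ℝ) (x : E) :
    (fun y => F y * Rk (fun _ => 1) ‖x - y‖) =ᵐ[volume] fun y => F y * ‖x - y‖⁻¹ := by
  have h : ∀ᵐ y : E ∂volume, y ≠ x := by
    rw [ae_iff]
    simp
  filter_upwards [h] with y hy
  have h1 : 0 < ‖x - y‖ := norm_pos_iff.mpr (sub_ne_zero.mpr hy.symm)
  rw [(hKer1 _ h1).2]

theorem EnK_eq (hKer1 : Stmt_Ker1) {a : ℝ} (ha : 0 < a) (F : E → ℝ) {n : ℕ} (X : Fin n → E)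
    (hX : HC a X) : EnK (Rk (fun _ => 1)) F X = En F X := by
  unfold EnK En pairE Dfm
  have h1 : ∀ i : Fin n, ∑ j ∈ Finset.univ.erase i, Rk (fun _ => 1) ‖X i - X j‖
      = ∑ j ∈ Finset.univ.erase i, ‖X i - X j‖⁻¹ := by
    intro i
    apply Finset.sum_congr rfl
    intro j hj
    have h2 := hX i j (Finset.ne_of_mem_erase hj).symm
    rw [(hKer1 _ (lt_of_lt_of_le ha h2)).2]
  have h3 : ∀ x : E, ∫ y, F y * Rk (fun _ => 1) ‖x - y‖ = pot F x := fun x =>
    integral_congr_ae (ae_eq hKer1 F x)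
  simp only [h3]
  rw [Finset.sum_congr rfl (fun i _ => h1 i)]

theorem int1 {a : ℝ} (ha : 0 < a) : ∫ s in Ioi (a / 2), (1:ℝ) * (s ^ 2)⁻¹ = 2 / a := by
  have h := integral_Ioi_rpow_of_lt (a := (-2:ℝ)) (by norm_num) (show 0 < a / 2 by positivity)
  have h2 : ∫ s in Ioi (a / 2), (1:ℝ) * (s ^ 2)⁻¹ = ∫ s in Ioi (a / 2), s ^ (-2:ℝ) := by
    apply setIntegral_congr_fun measurableSet_Ioi
    intro s hs
    have hs0 : 0 < s := lt_trans (by positivity) hs
    show (1:ℝ) * (s ^ 2)⁻¹ = s ^ (-2:ℝ)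
    rw [Real.rpow_neg hs0.le]
    norm_num
  rw [h2, h]
  have h3 : (-2:ℝ) + 1 = -1 := by norm_num
  rw [h3, Real.rpow_neg_one]
  field_simp

theorem int2 {a : ℝ} (ha : 0 < a) : ∫ s in Ioc 0 (a / 2), (1:ℝ) * s = a ^ 2 / 8 := by
  rw [← intervalIntegral.integral_of_le (by positivity)]
  simp only [one_mul]
  rw [integral_id]
  ring

end StabT_

open StabT_ in
theorem Stab_proof (hKer1 : Stmt_Ker1) (hPd : Stmt_Pd) : Stmt_Stab := by
  constructor
  · intro a b F ha hb hF hFb n X hX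
    have h := hPd (fun _ => 1) measurable_const (fun _ => ⟨by norm_num, le_refl _⟩) a b F ha hb hF
      hFb n X hX
    rw [EnK_eq hKer1 ha F X hX, int1 ha, int2 ha] at h
    refine le_trans (le_of_eq ?_) h
    unfold C0
    field_simp
    ring
  · intro F hF
    obtain ⟨b, hb⟩ := hF.bdd
    have hb0 : 0 ≤ b := le_trans (abs_nonneg _) (hb 0)
    have hX : HC (1:ℝ) (fun i : Fin 0 => (0:E)) := fun i => i.elim0
    have h := hPd (fun _ => 1) measurable_const (fun _ => ⟨by norm_num, le_refl _⟩) 1 b F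
      one_pos hb0 hF hb 0 _ hX
    rw [EnK_eq hKer1 one_pos F _ hX] at h
    unfold En pairE at h
    simp at h
    linarith

end Pool.Agent.JEL
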