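import Pool.Agent.JEL.Stmts

/-!
# JEL, module Sup: the superposition bound
-/

open MeasureTheory Set Filter Topology

namespace Pool.Agent.JEL

open scoped Real ENNReal

namespace Sup_

/-! ### measurability -/

theorem adm_bg (ρ : ℝ) {A : Set E} (hA : BM A) : Adm (bg ρ A) where
  meas := measurable_const.indicator hA.1
  bdd := by
    refine ⟨|ρ|, fun x => ?_⟩
    unfold bg
    by_cases hx : x ∈ A
    · rw [Set.indicator_of_mem hx, abs_neg]
    · rw [Set.indicator_of_notMem hx, abs_zero]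
      exact abs_nonneg _
  supp := by
    obtain ⟨R, hR⟩ := hA.2.subset_closedBall (0 : E)
    refine ⟨R, fun x hx => Set.indicator_of_notMem (fun h => ?_) _⟩
    have := hR h
    rw [mem_closedBall_zero_iff] at this
    linarith

theorem meas_pot {F : E → ℝ} (hF : Measurable F) : Measurable (pot F) := by
  unfold pot
  have : StronglyMeasurable (Function.uncurry fun x y : E => F y * ‖x - y‖⁻¹) := by
    apply Measurable.stronglyMeasurable
    exact (hF.comp measurable_snd).mul ((measurable_fst.sub measurable_snd).norm.inv)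
  exact this.integral_prod_right.measurable

theorem pairs_eq {n : ℕ} (g : Fin n → Fin n → ℝ) :
    ∑ i, ∑ j ∈ Finset.univ.erase i, g i j = ∑ i, ∑ j, if i = j then 0 else g i j := by
  refine Finset.sum_congr rfl fun i _ => ?_
  rw [← Finset.sum_erase (a := i) Finset.univ (f := fun j => if i = j then 0 else g i j)
    (by simp)]
  refine Finset.sum_congr rfl fun j hj => ?_
  have : j ≠ i := (Finset.mem_erase.mp hj).1
  rw [if_neg this.symm]

/-- general form of the local energy -/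
noncomputable def gU (h : E → E → ℝ) (v : E → ℝ) (c : ℝ) {n : ℕ} (X : Fin n → E) : ℝ :=
  (1 / 2) * ∑ i, ∑ j, (if i = j then 0 else h (X i) (X j)) + ∑ i, v (X i) + c

theorem gU_perm (h : E → E → ℝ) (v : E → ℝ) (c : ℝ) {n : ℕ} (σ : Equiv.Perm (Fin n))
    (X : Fin n → E) : gU h v c (X ∘ σ) = gU h v c X := by
  unfold gU
  simp only [Function.comp_apply]
  have h1 : ∀ i, (∑ j, if i = j then (0 : ℝ) else h (X (σ i)) (X (σ j))) =
      ∑ j, if σ i = j then 0 else h (X (σ i)) (X j) := by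
    intro i
    rw [← Equiv.sum_comp σ (fun j => if σ i = j then (0 : ℝ) else h (X (σ i)) (X j))]
    simp
  simp only [h1]
  rw [Equiv.sum_comp σ (fun i => ∑ j, if i = j then (0 : ℝ) else h (X i) (X j)),
    Equiv.sum_comp σ (fun i => v (X i))]

theorem gU_append_left (h : E → E → ℝ) (v : E → ℝ) (c : ℝ) {p q : ℕ} (x : Fin p → E)
    (y : Fin q → E) (h1 : ∀ j z, h z (y j) = 0) (h2 : ∀ j z, h (y j) z = 0)
    (h3 : ∀ j, v (y j) = 0) : gU h v c (Fin.append x y) = gU h v c x := by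
  unfold gU
  simp only [Fin.sum_univ_add, Fin.append_left, Fin.append_right, h1, h2, h3]
  simp

theorem gU_append_right (h : E → E → ℝ) (v : E → ℝ) (c : ℝ) {p q : ℕ} (x : Fin p → E)
    (y : Fin q → E) (h1 : ∀ j z, h z (x j) = 0) (h2 : ∀ j z, h (x j) z = 0)
    (h3 : ∀ j, v (x j) = 0) : gU h v c (Fin.append x y) = gU h v c y := by
  unfold gU
  simp only [Fin.sum_univ_add, Fin.append_left, Fin.append_right, h1, h2, h3]
  simp

/-- pair function -/
noncomputable def hh (B : Set E) (x y : E) : ℝ :=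
  B.indicator 1 x * B.indicator 1 y * ‖x - y‖⁻¹

/-- one point function -/
noncomputable def vv (ρ : ℝ) (Λ B : Set E) (x : E) : ℝ :=
  B.indicator 1 x * pot (bg ρ (Λ ∩ B)) x

theorem Uloc_eq (ρ : ℝ) (Λ B : Set E) {n : ℕ} (X : Fin n → E) : Uloc ρ Λ B X =
    gU (hh B) (vv ρ Λ B) ((1 / 2) * Dfm (bg ρ (Λ ∩ B)) (bg ρ (Λ ∩ B))) X := by
  unfold Uloc gU hh vv
  rw [pairs_eq]

theorem meas_ind {B : Set E} (hB : MeasurableSet B) : Measurable (B.indicator (1 : E → ℝ)) :=
  measurable_one.indicator hB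

theorem meas_Uloc (ρ : ℝ) {Λ B : Set E} (hΛ : BM Λ) (hB : BM B) (n : ℕ) :
    Measurable (fun X : Fin n → E => Uloc ρ Λ B X) := by
  have hbg : Measurable (bg ρ (Λ ∩ B)) := measurable_const.indicator (hΛ.1.inter hB.1)
  have hp := meas_pot hbg
  have hi := meas_ind hB.1
  unfold Uloc
  refine Measurable.add (Measurable.add (measurable_const.mul ?_) ?_) measurable_const
  · refine Finset.measurable_sum _ fun i _ => Finset.measurable_sum _ fun j _ => ?_
    exact ((hi.comp (measurable_pi_apply i)).mul (hi.comp (measurable_pi_apply j))).mul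
      (((measurable_pi_apply i).sub (measurable_pi_apply j)).norm.inv)
  · refine Finset.measurable_sum _ fun i _ => ?_
    exact (hi.comp (measurable_pi_apply i)).mul (hp.comp (measurable_pi_apply i))

/-- the points inside `B` have distance at least `a` -/
def HB (a : ℝ) (B : Set E) {n : ℕ} (X : Fin n → E) : Prop :=
  ∀ i j, i ≠ j → X i ∈ B → X j ∈ B → a ≤ ‖X i - X j‖

theorem meas_HB (a : ℝ) {B : Set E} (hB : MeasurableSet B) (n : ℕ) :
    MeasurableSet {X : Fin n → E | HB a B X} := by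
  have e : {X : Fin n → E | HB a B X} = ⋂ i : Fin n, ⋂ j : Fin n, ⋂ (_ : i ≠ j),
      ({X : Fin n → E | X i ∈ B}ᶜ ∪ ({X : Fin n → E | X j ∈ B}ᶜ ∪
        {X : Fin n → E | a ≤ ‖X i - X j‖})) := by
    ext X
    simp only [HB, mem_ofPred_eq, mem_iInter, mem_union, mem_compl_iff]
    constructor
    · intro h i j hij
      by_cases h1 : X i ∈ B
      · by_cases h2 : X j ∈ B
        · exact Or.inr (Or.inr (h i j hij h1 h2))
        · exact Or.inr (Or.inl h2)
      · exact Or.inl h1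
    · intro h i j hij h1 h2
      rcases h i j hij with h3 | h3 | h3
      · exact absurd h1 h3
      · exact absurd h2 h3
      · exact h3
  rw [e]
  refine MeasurableSet.iInter fun i => MeasurableSet.iInter fun j => MeasurableSet.iInter fun _ => ?_
  refine ((measurable_pi_apply i hB).compl).union (((measurable_pi_apply j hB).compl).union ?_)
  exact measurableSet_le measurable_const
    ((measurable_pi_apply i).sub (measurable_pi_apply j)).norm

/-- weight of the configuration inside `B` -/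
noncomputable def w (a β ρ : ℝ) (Λ B : Set E) (n : ℕ) (X : Fin n → E) : ℝ≥0∞ :=
  {X : Fin n → E | HB a B X}.indicator
    (fun X => ENNReal.ofReal (Real.exp (-β * Uloc ρ Λ B X))) X

theorem meas_w (a β ρ : ℝ) {Λ B : Set E} (hΛ : BM Λ) (hB : BM B) (n : ℕ) :
    Measurable (w a β ρ Λ B n) := by
  have h1 : Measurable (fun X : Fin n → E => ENNReal.ofReal (Real.exp (-β * Uloc ρ Λ B X))) :=
    ((Real.measurable_exp.comp ((meas_Uloc ρ hΛ hB n).const_mul (-β)))).ennreal_ofReal
  exact h1.indicator (meas_HB a hB.1 n)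

theorem HB_perm (a : ℝ) (B : Set E) {n : ℕ} (σ : Equiv.Perm (Fin n)) (X : Fin n → E) :
    HB a B (X ∘ σ) ↔ HB a B X := by
  constructor
  · intro h i j hij h1 h2
    have := h (σ.symm i) (σ.symm j) (fun e => hij (σ.symm.injective e))
      (by simpa using h1) (by simpa using h2)
    simpa using this
  · intro h i j hij h1 h2
    exact h (σ i) (σ j) (fun e => hij (σ.injective e)) h1 h2

theorem w_perm (a β ρ : ℝ) (Λ B : Set E) (n : ℕ) (σ : Equiv.Perm (Fin n)) (X : Fin n → E) :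
    w a β ρ Λ B n (X ∘ σ) = w a β ρ Λ B n X := by
  classical
  unfold w
  simp only [Set.indicator_apply, mem_ofPred_eq, HB_perm]
  rw [Uloc_eq, Uloc_eq, gU_perm]

theorem hh_left {B : Set E} {x : E} (hx : x ∉ B) (z : E) : hh B x z = 0 := by
  unfold hh
  rw [Set.indicator_of_notMem hx]
  simp

theorem hh_right {B : Set E} {x : E} (hx : x ∉ B) (z : E) : hh B z x = 0 := by
  unfold hh
  rw [Set.indicator_of_notMem hx]
  simp

theorem vv_out {ρ : ℝ} {Λ B : Set E} {x : E} (hx : x ∉ B) : vv ρ Λ B x = 0 := by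
  unfold vv
  rw [Set.indicator_of_notMem hx]
  simp

theorem w_append_left (a β ρ : ℝ) (Λ B : Set E) {p q : ℕ} (x : Fin p → E) (y : Fin q → E)
    (hy : ∀ j, y j ∉ B) : w a β ρ Λ B (p + q) (Fin.append x y) = w a β ρ Λ B p x := by
  classical
  have e : HB a B (Fin.append x y) ↔ HB a B x := by
    constructor
    · intro h i j hij h1 h2
      have := h (Fin.castAdd q i) (Fin.castAdd q j)
        (fun e => hij (Fin.castAdd_injective _ _ e)) (by simpa using h1) (by simpa using h2)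
      simpa using this
    · intro h i j
      refine Fin.addCases (fun i' => ?_) (fun i' => ?_) i
      · refine Fin.addCases (fun j' => ?_) (fun j' => ?_) j
        · intro hij h1 h2
          simp only [Fin.append_left] at h1 h2 ⊢
          exact h i' j' (fun e => hij (by rw [e])) h1 h2
        · intro hij h1 h2
          simp only [Fin.append_right] at h2
          exact absurd h2 (hy j')
      · intro hij h1 h2
        simp only [Fin.append_right] at h1
        exact absurd h1 (hy i')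
  unfold w
  simp only [Set.indicator_apply, mem_ofPred_eq, e]
  rw [Uloc_eq, Uloc_eq, gU_append_left _ _ _ x y (fun j z => hh_right (hy j) z)
    (fun j z => hh_left (hy j) z) (fun j => vv_out (hy j))]

theorem w_append_right (a β ρ : ℝ) (Λ B : Set E) {p q : ℕ} (x : Fin p → E) (y : Fin q → E)
    (hx : ∀ j, x j ∉ B) : w a β ρ Λ B (p + q) (Fin.append x y) = w a β ρ Λ B q y := by
  classical
  have e : HB a B (Fin.append x y) ↔ HB a B y := by
    constructor
    · intro h i j hij h1 h2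
      have := h (Fin.natAdd p i) (Fin.natAdd p j)
        (fun e => hij (Fin.natAdd_injective _ _ e)) (by simpa using h1) (by simpa using h2)
      simpa using this
    · intro h i j
      refine Fin.addCases (fun i' => ?_) (fun i' => ?_) i
      · intro hij h1 h2
        simp only [Fin.append_left] at h1
        exact absurd h1 (hx i')
      · refine Fin.addCases (fun j' => ?_) (fun j' => ?_) j
        · intro hij h1 h2
          simp only [Fin.append_left] at h2
          exact absurd h2 (hx j')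
        · intro hij h1 h2
          simp only [Fin.append_right] at h1 h2 ⊢
          exact h i' j' (fun e => hij (by rw [e])) h1 h2
  unfold w
  simp only [Set.indicator_apply, mem_ofPred_eq, e]
  rw [Uloc_eq, Uloc_eq, gU_append_right _ _ _ x y (fun j z => hh_right (hx j) z)
    (fun j z => hh_left (hx j) z) (fun j => vv_out (hx j))]

/-- on configurations inside `Λ ∩ B` the local energy is the energy -/
theorem Uloc_inside (ρ : ℝ) (Λ B : Set E) {n : ℕ} (X : Fin n → E) (hX : ∀ i, X i ∈ B) :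
    Uloc ρ Λ B X = En (bg ρ (Λ ∩ B)) X := by
  have h1 : ∀ i, B.indicator (1 : E → ℝ) (X i) = 1 := fun i => by
    rw [Set.indicator_of_mem (hX i)]; rfl
  unfold Uloc En pairE
  simp only [h1, one_mul]

theorem meas_all {A : Set E} (hA : MeasurableSet A) (n : ℕ) :
    MeasurableSet {X : Fin n → E | ∀ i, X i ∈ A} := by
  have e : {X : Fin n → E | ∀ i, X i ∈ A} = ⋂ i : Fin n, {X : Fin n → E | X i ∈ A} := by
    ext X; simp
  rw [e]
  exact MeasurableSet.iInter fun i => measurable_pi_apply i hA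

theorem bm_inter {Λ B : Set E} (hΛ : BM Λ) (hB : BM B) : BM (Λ ∩ B) :=
  ⟨hΛ.1.inter hB.1, hB.2.subset inter_subset_right⟩

/-- the weights of the configurations of `p` points of `Λ ∩ B` -/
theorem lint_w (hMeas : Stmt_Meas) {a β ρ : ℝ} {Λ B : Set E} (ha : 0 < a) (hβ : 0 < β)
    (hΛ : BM Λ) (hB : BM B) (p : ℕ) :
    ∫⁻ x in {x : Fin p → E | ∀ i, x i ∈ Λ ∩ B}, w a β ρ Λ B p x =
      ENNReal.ofReal ((p.factorial : ℝ) * Z a β ρ (Λ ∩ B) p) := by
  have hA := bm_inter hΛ hB
  have hint := hMeas.2.2.1 a β (bg ρ (Λ ∩ B)) (Λ ∩ B) p ha hβ (adm_bg ρ hA) hA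
  have h1 : (p.factorial : ℝ) * Z a β ρ (Λ ∩ B) p =
      ∫ X in conf a (Λ ∩ B) p, Real.exp (-β * En (bg ρ (Λ ∩ B)) X) := by
    unfold Z ZF
    rw [← mul_assoc, mul_inv_cancel₀ (by exact_mod_cast p.factorial_ne_zero), one_mul]
  rw [h1, ofReal_integral_eq_lintegral_ofReal hint
    (Eventually.of_forall fun X => (Real.exp_pos _).le)]
  have hc : MeasurableSet (conf a (Λ ∩ B) p) := hMeas.2.1 a _ p hA.1
  rw [← lintegral_indicator (meas_all hA.1 p), ← lintegral_indicator hc]
  congr 1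
  funext X
  by_cases h2 : X ∈ {x : Fin p → E | ∀ i, x i ∈ Λ ∩ B}
  · rw [Set.indicator_of_mem h2]
    unfold w
    by_cases h3 : HC a X
    · have h4 : X ∈ {X : Fin p → E | HB a B X} := fun i j hij _ _ => h3 i j hij
      rw [Set.indicator_of_mem h4, Set.indicator_of_mem (show X ∈ conf a (Λ ∩ B) p from ⟨h3, h2⟩),
        Uloc_inside ρ Λ B X (fun i => (h2 i).2)]
    · have h4 : X ∉ {X : Fin p → E | HB a B X} := by
        intro h4
        exact h3 fun i j hij => h4 i j hij (h2 i).2 (h2 j).2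
      rw [Set.indicator_of_notMem h4, Set.indicator_of_notMem (fun h => h3 h.1)]
  · rw [Set.indicator_of_notMem h2, Set.indicator_of_notMem (fun h => h2 h.2)]

/-! ### Cauchy products -/

theorem tsum_cauchy (f g : ℕ → ℝ≥0∞) :
    ∑' N : ℕ, ∑ p ∈ Finset.HasAntidiagonal.antidiagonal N, f p.1 * g p.2 =
      (∑' p, f p) * ∑' q, g q := by
  have h1 : (∑' p, f p) * ∑' q, g q = ∑' x : ℕ × ℕ, f x.1 * g x.2 := by
    rw [ENNReal.tsum_prod (f := fun p q => f p * g q), ← ENNReal.tsum_mul_right]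
    refine tsum_congr fun p => ?_
    rw [ENNReal.tsum_mul_left]
  rw [h1, ← Finset.HasAntidiagonal.sigmaAntidiagonalEquivProd.tsum_eq
    (fun x : ℕ × ℕ => f x.1 * g x.2), ENNReal.tsum_sigma']
  refine tsum_congr fun N => ?_
  rw [tsum_fintype]
  exact (Finset.sum_coe_sort (Finset.HasAntidiagonal.antidiagonal N)
    (fun p => f p.1 * g p.2)).symm

theorem fact_choose {N : ℕ} {p : ℕ × ℕ} (hp : p ∈ Finset.HasAntidiagonal.antidiagonal N) :
    ((N.factorial : ℝ≥0∞))⁻¹ * (N.choose p.1 : ℝ≥0∞) =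
      ((p.1.factorial : ℝ≥0∞))⁻¹ * ((p.2.factorial : ℝ≥0∞))⁻¹ := by
  have h0 : p.1 + p.2 = N := Finset.HasAntidiagonal.mem_antidiagonal.mp hp
  have h1 : N.choose p.1 * p.1.factorial * p.2.factorial = N.factorial := by
    rw [← h0, Nat.choose_symm_add]
    exact Nat.add_choose_mul_factorial_mul_factorial p.1 p.2
  have n1 : (p.1.factorial : ℝ≥0∞) ≠ 0 := by exact_mod_cast p.1.factorial_ne_zero
  have n2 : (p.2.factorial : ℝ≥0∞) ≠ 0 := by exact_mod_cast p.2.factorial_ne_zero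
  have n3 : (N.factorial : ℝ≥0∞) ≠ 0 := by exact_mod_cast N.factorial_ne_zero
  have t1 : (p.1.factorial : ℝ≥0∞) ≠ ⊤ := ENNReal.natCast_ne_top _
  have t2 : (p.2.factorial : ℝ≥0∞) ≠ ⊤ := ENNReal.natCast_ne_top _
  have t3 : (N.factorial : ℝ≥0∞) ≠ ⊤ := ENNReal.natCast_ne_top _
  have h2 : (N.choose p.1 : ℝ≥0∞) * p.1.factorial * p.2.factorial = N.factorial := by
    exact_mod_cast h1
  have h3 : (N.choose p.1 : ℝ≥0∞) =
      N.factorial * (((p.1.factorial : ℝ≥0∞))⁻¹ * ((p.2.factorial : ℝ≥0∞))⁻¹) := by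
    rw [← h2]
    calc (N.choose p.1 : ℝ≥0∞) = (N.choose p.1 : ℝ≥0∞) *
          ((p.1.factorial : ℝ≥0∞) * ((p.1.factorial : ℝ≥0∞))⁻¹) *
          ((p.2.factorial : ℝ≥0∞) * ((p.2.factorial : ℝ≥0∞))⁻¹) := by
          rw [ENNReal.mul_inv_cancel n1 t1, ENNReal.mul_inv_cancel n2 t2, mul_one, mul_one]
      _ = _ := by ring
  rw [h3, ← mul_assoc, ENNReal.inv_mul_cancel n3 t3, one_mul]

/-! ### induction over the sets -/

/-- the domain without the sets outside `s` -/
def dom {K : Type} (Λ : Set E) (B : K → Set E) (s : Finset K) : Set E :=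
  (Λ \ ⋃ k, B k) ∪ ⋃ k ∈ s, (Λ ∩ B k)

theorem meas_dom {K : Type} [Fintype K] {Λ : Set E} {B : K → Set E} (hΛ : MeasurableSet Λ)
    (hB : ∀ k, MeasurableSet (B k)) (s : Finset K) : MeasurableSet (dom Λ B s) :=
  (hΛ.diff (MeasurableSet.iUnion hB)).union
    (Finset.measurableSet_biUnion s fun k _ => hΛ.inter (hB k))

theorem base {Λ : Set E} (hΛ : volume Λ ≠ ⊤) :
    ∑' N : ℕ, ((N.factorial : ℝ≥0∞))⁻¹ * volume {X : Fin N → E | ∀ i, X i ∈ Λ} =
      ENNReal.ofReal (Real.exp (volume.real Λ)) := by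
  have h1 : ∀ N : ℕ, ((N.factorial : ℝ≥0∞))⁻¹ * volume {X : Fin N → E | ∀ i, X i ∈ Λ} =
      ENNReal.ofReal (volume.real Λ ^ N / N.factorial) := by
    intro N
    have e : {X : Fin N → E | ∀ i, X i ∈ Λ} = Set.pi univ (fun _ => Λ) := by
      ext X; simp
    have e2 : volume Λ = ENNReal.ofReal (volume.real Λ) := by
      rw [Measure.real, ENNReal.ofReal_toReal hΛ]
    rw [e, volume_pi_pi, Finset.prod_const, Finset.card_univ, Fintype.card_fin, e2,
      ← ENNReal.ofReal_pow measureReal_nonneg, div_eq_mul_inv, mul_comm,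
      ENNReal.ofReal_mul (by positivity)]
    congr 1
    rw [ENNReal.ofReal_inv_of_pos (by exact_mod_cast N.factorial_pos), ENNReal.ofReal_natCast]
  simp only [h1]
  have h2 : HasSum (fun N : ℕ => volume.real Λ ^ N / (N.factorial : ℝ))
      (Real.exp (volume.real Λ)) := by
    rw [Real.exp_eq_exp_ℝ]
    exact NormedSpace.expSeries_div_hasSum_exp (volume.real Λ)
  rw [← ENNReal.ofReal_tsum_of_nonneg (fun N => by positivity) h2.summable, h2.tsum_eq]

theorem key (hMeas : Stmt_Meas) (hBinom : Stmt_Binom) {a β ρ : ℝ} {Λ : Set E} (ha : 0 < a)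
    (hβ : 0 < β) (hρ : 0 < ρ) (hΛ : BM Λ) {K : Type} [Fintype K] [DecidableEq K] {B : K → Set E}
    (hB : ∀ k, BM (B k)) (hd : ∀ k k', k ≠ k' → Disjoint (B k) (B k')) (s : Finset K) :
    ∑' N : ℕ, ((N.factorial : ℝ≥0∞))⁻¹ *
      ∫⁻ X in {X : Fin N → E | ∀ i, X i ∈ dom Λ B s}, ∏ k ∈ s, w a β ρ Λ (B k) N X =
    (∏ k ∈ s, ENNReal.ofReal (Xi a β ρ (Λ ∩ B k))) *
      ENNReal.ofReal (Real.exp (volume.real (Λ \ ⋃ k, B k))) := by
  induction s using Finset.induction_on with
  | empty =>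
    simp only [Finset.prod_empty, one_mul, setLIntegral_one]
    have e : dom Λ B ∅ = Λ \ ⋃ k, B k := by simp [dom]
    rw [e]
    refine base ?_
    exact ((measure_mono sdiff_subset).trans_lt hΛ.2.measure_lt_top).ne
  | insert k0 s hk0 ih =>
    have hdom : dom Λ B (insert k0 s) = (Λ ∩ B k0) ∪ dom Λ B s := by
      unfold dom
      rw [Finset.set_biUnion_insert]
      ext z
      simp only [mem_union]
      tauto
    have hdisj : ∀ z ∈ dom Λ B s, z ∉ B k0 := by
      intro z hz hz0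
      rcases hz with hz | hz
      · exact hz.2 (mem_iUnion.mpr ⟨k0, hz0⟩)
      · simp only [mem_iUnion] at hz
        obtain ⟨k, hk, hz⟩ := hz
        have : k ≠ k0 := fun e => hk0 (e ▸ hk)
        exact (Set.disjoint_left.mp (hd k k0 this)) hz.2 hz0
    have hdisj2 : ∀ z ∈ Λ ∩ B k0, ∀ k ∈ s, z ∉ B k := by
      intro z hz k hk hzk
      have : k ≠ k0 := fun e => hk0 (e ▸ hk)
      exact (Set.disjoint_left.mp (hd k k0 this)) hzk hz.2
    have hAB : Disjoint (Λ ∩ B k0) (dom Λ B s) :=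
      Set.disjoint_left.mpr fun z hz hz' => hdisj z hz' hz.2
    have mA : MeasurableSet (Λ ∩ B k0) := hΛ.1.inter (hB k0).1
    have mB : MeasurableSet (dom Λ B s) := meas_dom hΛ.1 (fun k => (hB k).1) s
    have hf : ∀ n, Measurable (fun X : Fin n → E => ∏ k ∈ insert k0 s, w a β ρ Λ (B k) n X) :=
      fun n => Finset.measurable_prod _ fun k _ => meas_w a β ρ hΛ (hB k) n
    have hstep : ∀ N : ℕ, ((N.factorial : ℝ≥0∞))⁻¹ *
        ∫⁻ X in {X : Fin N → E | ∀ i, X i ∈ dom Λ B (insert k0 s)},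
          ∏ k ∈ insert k0 s, w a β ρ Λ (B k) N X =
        ∑ p ∈ Finset.HasAntidiagonal.antidiagonal N,
          (((p.1.factorial : ℝ≥0∞))⁻¹ *
            ∫⁻ x in {x : Fin p.1 → E | ∀ i, x i ∈ Λ ∩ B k0}, w a β ρ Λ (B k0) p.1 x) *
          (((p.2.factorial : ℝ≥0∞))⁻¹ *
            ∫⁻ y in {y : Fin p.2 → E | ∀ i, y i ∈ dom Λ B s}, ∏ k ∈ s, w a β ρ Λ (B k) p.2 y) := by
      intro N
      rw [hdom, hBinom (Λ ∩ B k0) (dom Λ B s) mA mB hAB
        (fun n X => ∏ k ∈ insert k0 s, w a β ρ Λ (B k) n X) hf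
        (fun n σ X => Finset.prod_congr rfl fun k _ => w_perm a β ρ Λ (B k) n σ X) N,
        Finset.mul_sum]
      refine Finset.sum_congr rfl fun p hp => ?_
      have e1 : ∫⁻ x in {x : Fin p.1 → E | ∀ i, x i ∈ Λ ∩ B k0},
          ∫⁻ y in {y : Fin p.2 → E | ∀ i, y i ∈ dom Λ B s},
            ∏ k ∈ insert k0 s, w a β ρ Λ (B k) (p.1 + p.2) (Fin.append x y) =
          (∫⁻ x in {x : Fin p.1 → E | ∀ i, x i ∈ Λ ∩ B k0}, w a β ρ Λ (B k0) p.1 x) *
            ∫⁻ y in {y : Fin p.2 → E | ∀ i, y i ∈ dom Λ B s},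
              ∏ k ∈ s, w a β ρ Λ (B k) p.2 y := by
        rw [← lintegral_mul_const _ (meas_w a β ρ hΛ (hB k0) p.1)]
        refine setLIntegral_congr_fun (meas_all mA _) fun x hx => ?_
        rw [← lintegral_const_mul _
          (Finset.measurable_prod _ fun k _ => meas_w a β ρ hΛ (hB k) p.2)]
        refine setLIntegral_congr_fun (meas_all mB _) fun y hy => ?_
        rw [Finset.prod_insert hk0, w_append_left a β ρ Λ (B k0) x y (fun j => hdisj _ (hy j))]
        congr 1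
        refine Finset.prod_congr rfl fun k hk => ?_
        exact w_append_right a β ρ Λ (B k) x y (fun j => hdisj2 _ (hx j) k hk)
      rw [e1, ← mul_assoc, fact_choose hp]
      ring
    simp only [hstep]
    rw [tsum_cauchy (fun n => ((n.factorial : ℝ≥0∞))⁻¹ *
            ∫⁻ x in {x : Fin n → E | ∀ i, x i ∈ Λ ∩ B k0}, w a β ρ Λ (B k0) n x)
          (fun n => ((n.factorial : ℝ≥0∞))⁻¹ *
            ∫⁻ y in {y : Fin n → E | ∀ i, y i ∈ dom Λ B s}, ∏ k ∈ s, w a β ρ Λ (B k) n y),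
      ih, Finset.prod_insert hk0, mul_assoc]
    congr 1
    have hA := bm_inter hΛ (hB k0)
    have hs := (hMeas.2.2.2.2.2 a β ρ (Λ ∩ B k0) ha hβ hρ hA).1
    have hb : ∃ b, 0 ≤ b ∧ ∀ x, |bg ρ (Λ ∩ B k0) x| ≤ b := by
      obtain ⟨b, hb⟩ := (adm_bg ρ hA).bdd
      exact ⟨b, (abs_nonneg _).trans (hb 0), hb⟩
    obtain ⟨b, hb0, hb⟩ := hb
    have hnn : ∀ n, 0 ≤ Z a β ρ (Λ ∩ B k0) n := fun n =>
      (hMeas.2.2.2.1 a β b (bg ρ (Λ ∩ B k0)) (Λ ∩ B k0) n ha hβ hb0 (adm_bg ρ hA) hb hA).1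
    unfold Xi
    rw [ENNReal.ofReal_tsum_of_nonneg hnn hs]
    refine tsum_congr fun n => ?_
    have hn : (n.factorial : ℝ≥0∞) ≠ 0 := by exact_mod_cast n.factorial_ne_zero
    rw [lint_w hMeas ha hβ hΛ (hB k0) n, ENNReal.ofReal_mul (by positivity),
      ENNReal.ofReal_natCast, ← mul_assoc, ENNReal.inv_mul_cancel hn (ENNReal.natCast_ne_top _),
      one_mul]

end Sup_

open Sup_ in
theorem Sup_proof (hMeas : Stmt_Meas) (hBinom : Stmt_Binom) : Stmt_Sup := by
  classical
  intro a β ρ Λ ha hβ hρ hΛ K _ B hB hd N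
  have h1 := key hMeas hBinom ha hβ hρ hΛ hB hd Finset.univ
  have hdom : dom Λ B (Finset.univ : Finset K) = Λ := by
    unfold dom
    ext z
    simp only [mem_union, Set.mem_sdiff, mem_iUnion, Finset.mem_univ, exists_true_left, mem_inter_iff]
    constructor
    · rintro (h | ⟨k, h⟩)
      · exact h.1
      · exact h.1
    · intro hz
      by_cases h : ∃ k, z ∈ B k
      · obtain ⟨k, hk⟩ := h
        exact Or.inr ⟨k, hz, hk⟩
      · exact Or.inl ⟨hz, h⟩
  rw [hdom] at h1
  have h2 := (ENNReal.le_tsum N).trans_eq h1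
  have hc : MeasurableSet (conf a Λ N) := hMeas.2.1 a _ N hΛ.1
  have h3 : ∫⁻ X in conf a Λ N, ENNReal.ofReal (Real.exp (-β * ∑ k, Uloc ρ Λ (B k) X)) ≤
      ∫⁻ X in {X : Fin N → E | ∀ i, X i ∈ Λ}, ∏ k, w a β ρ Λ (B k) N X := by
    have h4 : ∫⁻ X in conf a Λ N, ENNReal.ofReal (Real.exp (-β * ∑ k, Uloc ρ Λ (B k) X)) =
        ∫⁻ X in conf a Λ N, ∏ k, w a β ρ Λ (B k) N X := by
      refine setLIntegral_congr_fun hc fun X hX => ?_
      rw [Finset.mul_sum, Real.exp_sum, ENNReal.ofReal_prod_of_nonneg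
        (fun k _ => (Real.exp_pos _).le)]
      refine Finset.prod_congr rfl fun k _ => ?_
      unfold w
      rw [Set.indicator_of_mem]
      exact fun i j hij _ _ => hX.1 i j hij
    rw [h4]
    exact lintegral_mono_set fun X hX => hX.2
  have h5 : ((N.factorial : ℝ≥0∞))⁻¹ *
      ∫⁻ X in conf a Λ N, ENNReal.ofReal (Real.exp (-β * ∑ k, Uloc ρ Λ (B k) X)) ≤
      ENNReal.ofReal ((∏ k, Xi a β ρ (Λ ∩ B k)) *
        Real.exp (volume.real (Λ \ ⋃ k, B k))) := by
    refine (mul_le_mul_right h3 _).trans (h2.trans_eq ?_)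
    rw [ENNReal.ofReal_mul (Finset.prod_nonneg fun k _ =>
      (hMeas.2.2.2.2.2 a β ρ (Λ ∩ B k) ha hβ hρ (bm_inter hΛ (hB k))).2.1.le),
      ENNReal.ofReal_prod_of_nonneg (fun k _ =>
      (hMeas.2.2.2.2.2 a β ρ (Λ ∩ B k) ha hβ hρ (bm_inter hΛ (hB k))).2.1.le)]
  have hm : Measurable (fun X : Fin N → E => Real.exp (-β * ∑ k, Uloc ρ Λ (B k) X)) :=
    Real.measurable_exp.comp
      ((Finset.measurable_sum _ fun k _ => meas_Uloc ρ hΛ (hB k) N).const_mul (-β))
  rw [integral_eq_lintegral_of_nonneg_ae (Eventually.of_forall fun X => (Real.exp_pos _).le)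
    hm.aestronglyMeasurable]
  have h6 := ENNReal.toReal_le_of_le_ofReal (mul_nonneg (Finset.prod_nonneg fun k _ =>
      (hMeas.2.2.2.2.2 a β ρ (Λ ∩ B k) ha hβ hρ (bm_inter hΛ (hB k))).2.1.le)
      (Real.exp_pos _).le) h5
  rw [ENNReal.toReal_mul, ENNReal.toReal_inv, ENNReal.toReal_natCast] at h6
  exact h6

end Pool.Agent.JEL
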