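import Pool.Agent.JEL.Stmts

open MeasureTheory Set Filter Topology

namespace Pool.Agent.JEL

open scoped Real

namespace T_

lemma adm_integrable {F : E → ℝ} (hF : Adm F) : Integrable F := by
  obtain ⟨b, hb⟩ := hF.bdd
  obtain ⟨R, hR⟩ := hF.supp
  have h1 : IntegrableOn F (cB 0 R) := by
    refine Measure.integrableOn_of_bounded (M := b) ?_ hF.meas.aestronglyMeasurable ?_
    · exact (isCompact_closedBall (0 : E) R).measure_lt_top.ne
    · exact Eventually.of_forall fun x => by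
        rw [Real.norm_eq_abs]
        exact hb x
  refine (integrableOn_iff_integrable_of_support_subset ?_).mp h1
  intro x hx
  by_contra h
  apply hx
  apply hR
  rw [mem_closedBall_zero_iff, not_le] at h
  exact h

lemma dfm_le {F : E → ℝ} (hF : Adm F) {b m₁ : ℝ} (hb : 0 ≤ b) (hp : ∀ x, |pot F x| ≤ b)
    (hm : ∫ x, |F x| ≤ m₁) : Dfm F F ≤ b * m₁ := by
  have h1 : Integrable (fun x => |F x| * b) := (adm_integrable hF).abs.mul_const b
  have h2 : ‖∫ x, F x * pot F x‖ ≤ ∫ x, |F x| * b := by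
    refine norm_integral_le_of_norm_le h1 (Eventually.of_forall fun x => ?_)
    rw [Real.norm_eq_abs, abs_mul]
    exact mul_le_mul_of_nonneg_left (hp x) (abs_nonneg _)
  rw [integral_mul_const, Real.norm_eq_abs] at h2
  have h3 := le_abs_self (∫ x, F x * pot F x)
  unfold Dfm
  nlinarith

end T_

theorem T_proof (hVol : Stmt_Vol) (hDel : Stmt_Del) (hMeas : Stmt_Meas) : Stmt_T := by
  intro a β ρ₁ bF ha hβ hρ₁ hρ hbF
  obtain ⟨CV, hCV1, hV⟩ := hVol a ρ₁ bF ha hρ₁ hρ hbF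
  have hCV0 : 0 < CV := by linarith
  refine ⟨CV + β * CV + β * CV ^ 2, ?_, ?_⟩
  · have : 0 ≤ β * CV := by positivity
    have : 0 ≤ β * CV ^ 2 := by positivity
    linarith
  intro D κ F N b A₀ E₀ m₁ hT hN hm
  have hb := hT.hb
  have hA0 := hT.hA0
  have hE0 := hT.hE0
  have p1 : 0 ≤ β * CV := by positivity
  have p2 : 0 ≤ β * CV ^ 2 := by positivity
  have hNV : CV ≤ N := by linarith
  have hN1 : (1 : ℝ) ≤ N := by linarith
  have hN0 : 0 < N := by
    have : (0 : ℝ) < N := by linarith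
    exact_mod_cast this
  have hNp : (0 : ℝ) < N := by linarith
  have hm0 : 0 ≤ m₁ := le_trans (integral_nonneg fun x => abs_nonneg _) hm
  set s : ℝ := Real.sqrt N with hs
  have hs0 : 0 < s := Real.sqrt_pos.mpr hNp
  have hss : s * s = N := Real.mul_self_sqrt hNp.le
  obtain ⟨k, hk, hvol⟩ := hV D κ F N b A₀ E₀ hT hNV
  have hE1 : 0 ≤ CV * (N + E₀ + b) := by positivity
  have hA1 : 0 ≤ A₀ + CV * s * b := by positivity
  have hdel := hDel a β (CV * (N + E₀ + b)) (A₀ + CV * s * b) F D N k ha hβ hT.hF hT.hD hN0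
    hE1 hA1
  have hZ0 : 0 ≤ ZF a β F D N := (hMeas.2.2.2.1 a β bF F D N ha hβ hbF hT.hF hT.hFb hT.hD).1
  have hD := T_.dfm_le hT.hF hb hT.hpF hm
  set V : ℝ := volume.real D with hVd
  have hV0 : 0 ≤ V := measureReal_nonneg
  have hk0 : (0 : ℝ) ≤ k := Nat.cast_nonneg k
  have hkN : (k : ℝ) / N ≤ CV / s := by
    rw [div_le_div_iff₀ hNp hs0, ← hss]
    nlinarith
  have hkN0 : 0 ≤ (k : ℝ) / N := by positivity
  have hlog : 0 ≤ Real.log (2 + V) := Real.log_nonneg (by linarith)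
  -- the exponent
  have e1 : (k : ℝ) / N * (A₀ + CV * s * b) ≤ CV * (A₀ / s) + CV ^ 2 * b := by
    refine (mul_le_mul_of_nonneg_right hkN hA1).trans (le_of_eq ?_)
    field_simp
  have e2 : ((k : ℝ) / N) ^ 2 * (Dfm F F / 2) ≤ CV ^ 2 * (b * m₁ / N) := by
    have h1 : ((k : ℝ) / N) ^ 2 ≤ CV ^ 2 / N := by
      have h2 : ((k : ℝ) / N) ^ 2 ≤ (CV / s) ^ 2 := pow_le_pow_left₀ hkN0 hkN 2
      refine h2.trans (le_of_eq ?_)
      rw [div_pow, sq s, hss]
    have h3 : 0 ≤ b * m₁ := by positivity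
    calc ((k : ℝ) / N) ^ 2 * (Dfm F F / 2) ≤ ((k : ℝ) / N) ^ 2 * (b * m₁) :=
          mul_le_mul_of_nonneg_left (by linarith) (sq_nonneg _)
      _ ≤ CV ^ 2 / N * (b * m₁) := mul_le_mul_of_nonneg_right h1 h3
      _ = CV ^ 2 * (b * m₁ / N) := by ring
  have e3 : (k : ℝ) * Real.log (2 + V) ≤ CV * (s * Real.log (2 + V)) := by
    rw [← mul_assoc]
    exact mul_le_mul_of_nonneg_right hk hlog
  set X1 : ℝ := (k : ℝ) / N * (A₀ + CV * s * b)
  set X2 : ℝ := ((k : ℝ) / N) ^ 2 * (Dfm F F / 2)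
  set X3 : ℝ := A₀ / s
  set X4 : ℝ := b * m₁ / N
  set X5 : ℝ := s * Real.log (2 + V)
  have hX3 : 0 ≤ X3 := div_nonneg hA0 hs0.le
  have hX4 : 0 ≤ X4 := div_nonneg (mul_nonneg hb hm0) hNp.le
  have hX5 : 0 ≤ X5 := mul_nonneg hs0.le hlog
  -- chain
  have hfac : (N.factorial : ℝ) ≤ ((N + k).factorial : ℝ) := by
    exact_mod_cast Nat.factorial_le (Nat.le_add_right N k)
  have hfp : (0 : ℝ) < (N.factorial : ℝ) := by exact_mod_cast N.factorial_pos
  have hpow : V ^ k ≤ Real.exp (k * Real.log (2 + V)) := by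
    rw [← Real.rpow_natCast, mul_comm, ← Real.rpow_def_of_pos (by linarith)]
    exact Real.rpow_le_rpow hV0 (by linarith) hk0
  have c1 : Real.exp (-β * (CV * (N + E₀ + b) + X1 + X2)) * (Real.exp (-CV * N) *
      (N.factorial : ℝ)) ≤ ZF a β F D N * (N.factorial : ℝ) *
        Real.exp (k * Real.log (2 + V)) := by
    refine le_trans ?_ (hdel.trans ?_)
    · refine mul_le_mul_of_nonneg_left ?_ (Real.exp_pos _).le
      exact le_trans (mul_le_mul_of_nonneg_left hfac (Real.exp_pos _).le) hvol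
    · exact mul_le_mul_of_nonneg_left hpow (mul_nonneg hZ0 hfp.le)
  have c2 : Real.exp (-β * (CV * (N + E₀ + b) + X1 + X2)) * Real.exp (-CV * N) *
      Real.exp (-(k * Real.log (2 + V))) ≤ ZF a β F D N := by
    have h1 : Real.exp (-β * (CV * (N + E₀ + b) + X1 + X2)) * Real.exp (-CV * N) ≤
        ZF a β F D N * Real.exp (k * Real.log (2 + V)) := by
      refine le_of_mul_le_mul_right ?_ hfp
      linarith
    have h2 := mul_le_mul_of_nonneg_right h1 (Real.exp_pos (-(k * Real.log (2 + V)))).le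
    have h3 : Real.exp (k * Real.log (2 + V)) * Real.exp (-(k * Real.log (2 + V))) = 1 := by
      rw [← Real.exp_add, add_neg_cancel, Real.exp_zero]
    rw [mul_assoc (ZF a β F D N), h3, mul_one] at h2
    exact h2
  refine le_trans ?_ c2
  rw [← Real.exp_add, ← Real.exp_add]
  refine Real.exp_le_exp.mpr ?_
  have f1 : β * X1 ≤ β * (CV * X3 + CV ^ 2 * b) := mul_le_mul_of_nonneg_left e1 hβ.le
  have f2 : β * X2 ≤ β * (CV ^ 2 * X4) := mul_le_mul_of_nonneg_left e2 hβ.le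
  have q1 : 0 ≤ CV * (E₀ + X3 + b + X4) := by positivity
  have q2 : 0 ≤ β * CV * (X4 + X5) := by positivity
  have q3 : 0 ≤ β * CV ^ 2 * (N + E₀ + X3 + X5) := by positivity
  linarith

end Pool.Agent.JEL
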