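import Pool.Agent.JEL.Stmts

open MeasureTheory Set Filter Topology

namespace Pool.Agent.JEL

namespace Unf_

/-- the integer vector as a real vector -/
def iv (z : Fin 3 → ℤ) : Fin 3 → ℝ := fun j => (z j : ℝ)

lemma measurable_fcc (a' : ℝ) : Measurable (fun w : Fin 3 → ℝ => fcc a' w) := by
  have h1 : Measurable (fun w : Fin 3 → ℝ => toE ![w 1 + w 2, w 0 + w 2, w 0 + w 1]) := by
    apply (MeasurableEquiv.toLp 2 (Fin 3 → ℝ)).measurable.comp
    rw [measurable_pi_iff]
    intro j
    fin_cases j
    · exact (measurable_pi_apply 1).add (measurable_pi_apply 2)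
    · exact (measurable_pi_apply 0).add (measurable_pi_apply 2)
    · exact (measurable_pi_apply 0).add (measurable_pi_apply 1)
  exact Measurable.const_smul h1 (a' / Real.sqrt 2)

lemma fcc_injective {a' : ℝ} (ha : 0 < a') : Function.Injective (fcc a') := by
  intro x y h
  unfold fcc toE at h
  have hc : a' / Real.sqrt 2 ≠ 0 := by positivity
  have h1 := smul_right_injective _ hc h
  have h2 := (WithLp.toLp_injective 2) h1
  have e0 := congrFun h2 0
  have e1 := congrFun h2 1
  have e2 := congrFun h2 2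
  simp at e0 e1 e2
  funext j
  fin_cases j
  · simp; linarith
  · simp; linarith
  · simp; linarith

lemma cube_meas : MeasurableSet cube := by
  unfold cube
  exact MeasurableSet.univ_pi (fun _ => measurableSet_Ico)

lemma sub_mem_unique {w : Fin 3 → ℝ} {z z' : Fin 3 → ℤ} (h : w - iv z ∈ cube)
    (h' : w - iv z' ∈ cube) : z = z' := by
  funext j
  have h1 := h j (mem_univ j)
  have h2 := h' j (mem_univ j)
  simp only [Pi.sub_apply, iv, mem_Ico] at h1 h2
  have e1 : ⌊w j⌋ = z j := by
    rw [Int.floor_eq_iff]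
    constructor <;> linarith [h1.1, h1.2]
  have e2 : ⌊w j⌋ = z' j := by
    rw [Int.floor_eq_iff]
    constructor <;> linarith [h2.1, h2.2]
  rw [← e1, e2]

end Unf_

open Unf_ in
theorem Unf_proof (hFcc : Stmt_Fcc) : Stmt_Unf := by
  intro a' B J ha hcov g hg hsupp
  obtain ⟨-, -, hint, -⟩ := hFcc a' ha
  rw [← hint g hg]
  have hmf := measurable_fcc a'
  have hmg : Measurable (fun w : Fin 3 → ℝ => g (fcc a' w)) := hg.comp hmf
  have hmz : ∀ z : Fin 3 → ℤ, Measurable (fun w : Fin 3 → ℝ => w + iv z) := fun z =>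
    measurable_id.add_const _
  have hind : ∀ z : Fin 3 → ℤ, Measurable
      (fun w : Fin 3 → ℝ => cube.indicator (1 : (Fin 3 → ℝ) → ENNReal) (w - iv z)) := fun z =>
    (measurable_one.indicator cube_meas).comp (measurable_id.sub_const _)
  have step1 : ∫⁻ u in cube, ∑ z ∈ J, g (fcc a' (fun j => u j + (z j : ℝ)))
      = ∑ z ∈ J, ∫⁻ u in cube, g (fcc a' (u + iv z)) := by
    rw [← lintegral_finsetSum]
    · rfl
    · intro z _
      exact hmg.comp (hmz z)
  have step2 : ∀ z : Fin 3 → ℤ, ∫⁻ u in cube, g (fcc a' (u + iv z))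
      = ∫⁻ w : Fin 3 → ℝ, cube.indicator (1 : (Fin 3 → ℝ) → ENNReal) (w - iv z) * g (fcc a' w) := by
    intro z
    rw [← lintegral_indicator cube_meas]
    rw [← lintegral_add_right_eq_self (μ := volume)
      (fun w : Fin 3 → ℝ => cube.indicator (1 : (Fin 3 → ℝ) → ENNReal) (w - iv z) * g (fcc a' w))
      (iv z)]
    apply lintegral_congr
    intro u
    by_cases hu : u ∈ cube
    · simp [hu]
    · simp [hu]
  rw [step1, Finset.sum_congr rfl (fun z _ => step2 z), ← lintegral_finsetSum]
  · apply lintegral_congr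
    intro w
    by_cases h0 : g (fcc a' w) = 0
    · simp [h0]
    · have hB : ‖fcc a' w‖ ≤ B := by
        by_contra hlt
        exact h0 (hsupp _ (not_le.mp hlt))
      obtain ⟨z, hz, u, hu, he⟩ := hcov _ hB
      have hw : w = u + iv z := fcc_injective ha he
      have hzc : w - iv z ∈ cube := by
        rw [hw, add_sub_cancel_right]; exact hu
      rw [Finset.sum_eq_single_of_mem z hz]
      · simp [hzc]
      · intro z' _ hne
        have : w - iv z' ∉ cube := fun h' => hne (sub_mem_unique h' hzc)
        simp [this]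
  · intro z _
    exact (hind z).mul hmg

end Pool.Agent.JEL
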