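import Pool.Agent.JEL.Stmts

/-!
# JEL, module Up: upper bound for all domains
-/

set_option autoImplicit false

open MeasureTheory Set Filter Topology

namespace Pool.Agent.JEL

open scoped Real

namespace Up_

theorem BM.zone_lt_top {Λ : Set E} (h : BM Λ) (R : ℝ) :
    volume (Metric.cthickening R (frontier Λ)) ≠ ⊤ := by
  have h1 : Bornology.IsBounded (frontier Λ) := h.2.closure.subset frontier_subset_closure
  exact (h1.cthickening (δ := R)).measure_lt_top.ne

theorem zone_mono {Λ : Set E} (h : BM Λ) {R R' : ℝ} (hR : R ≤ R') : zone R Λ ≤ zone R' Λ :=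
  measureReal_mono (Metric.cthickening_mono hR _) (BM.zone_lt_top h R')

theorem zone_nonneg (R : ℝ) (Λ : Set E) : 0 ≤ zone R Λ := measureReal_nonneg

theorem vb_mul (l q : ℝ) : vb (l * q) = l ^ 3 * vb q := by
  unfold vb; ring

theorem vb_pos {q : ℝ} (h : 0 < q) : 0 < vb q := by
  unfold vb; positivity

theorem bm_cB (z : E) (r : ℝ) : BM (cB z r) :=
  ⟨Metric.isClosed_closedBall.measurableSet, Metric.isBounded_closedBall⟩

theorem meas_cell (l : ℝ) (θ : Fin 3 → ℝ) (k : Fin 3 → ℤ) : MeasurableSet (cell l θ k) := by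
  have h1 : cell l θ k = ⋂ j : Fin 3,
      ({x : E | l * ((k j : ℝ) + θ j) ≤ x j} ∩ {x : E | x j < l * ((k j : ℝ) + θ j + 1)}) := by
    ext x
    simp [cell, Set.mem_iInter]
  rw [h1]
  refine MeasurableSet.iInter fun j => ?_
  have hm : Measurable fun x : E => x j := by fun_prop
  exact (measurableSet_le measurable_const hm).inter (measurableSet_lt hm measurable_const)

end Up_

open Up_ in
theorem Up_proof (hUpJ : Stmt_UpJ) (hMeas : Stmt_Meas) (hPackF : Stmt_PackF) (hCells : Stmt_Cells)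
    (hLens : Stmt_Lens) : Stmt_Up := by
  classical
  intro a β ρ ha hβ hρ
  set CX : ℝ := Real.exp (β * C0 a ρ) with hCX
  have hCX0 : 0 < CX := Real.exp_pos _
  set CU : ℝ := β * (4 / (3 * a) + 2 / 3 + 2 * π / 9 * ρ * a ^ 2) + 1 with hCU
  have hCU0 : 0 < β * (4 / (3 * a) + 2 / 3 + 2 * π / 9 * ρ * a ^ 2) := by positivity
  obtain ⟨-, -, -, -, hTr, hXi⟩ := hMeas
  refine ⟨CU, by rw [hCU]; linarith, ?_⟩
  intro m c q γ ε qm lam0 hP hε hε1 hfr hqm hqm' hlam0 hlam0a
  obtain ⟨hsumγ, hfr1, hPF⟩ := hPackF m c q γ hP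
  have hfr0 : 0 < frac q := by linarith
  set M : ℝ := 5 * frac q / (12 * (1 - frac q)) with hM
  have hM0 : 0 < M := by
    have : 0 < 1 - frac q := by linarith
    positivity
  have hlam1 : lam0 < lam0 * Real.exp M := by
    have := Real.add_one_lt_exp hM0.ne'
    nlinarith
  have hlog : Real.log (lam0 * Real.exp M / lam0) = M := by
    rw [mul_div_cancel_left₀ _ hlam0.ne', Real.log_exp]
  have hcond : frac q * (1 + 5 / (12 * Real.log (lam0 * Real.exp M / lam0))) ≤ 1 := by
    rw [hlog]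
    have h1 : (1 - frac q) ≠ 0 := by linarith
    have h2 : frac q ≠ 0 := hfr0.ne'
    have h3 : frac q * (1 + 5 / (12 * M)) = 1 := by
      rw [hM]
      field_simp
      ring
    exact h3.le
  generalize lam0 * Real.exp M = lam1 at hlam1 hlog hcond
  refine ⟨lam1, hlam1, fun s hs => ⟨|s| + CX + 1, 2 * lam1, by positivity, by linarith, ?_⟩⟩
  intro Λ hΛ N
  obtain ⟨R0, hR0⟩ := hΛ.2.subset_closedBall (0 : E)
  set R : ℝ := max R0 0 with hR
  have hRn : 0 ≤ R := le_max_right _ _
  have hΛR : Λ ⊆ cB 0 R := hR0.trans (Metric.closedBall_subset_closedBall (le_max_left _ _))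
  obtain ⟨n₀, hn₀⟩ : ∃ n₀ : ℕ, R / lam0 + 2 + ∑ i, (q i + ‖c i‖ + 1) ≤ n₀ := exists_nat_ge _
  have hn1 : ∀ i, R / lam0 + q i + ‖c i‖ + 1 ≤ n₀ := by
    intro i
    have h1 : q i + ‖c i‖ + 1 ≤ ∑ i, (q i + ‖c i‖ + 1) :=
      Finset.single_le_sum (f := fun i => q i + ‖c i‖ + 1)
        (fun i _ => by have := hP.hq i; positivity) (Finset.mem_univ i)
    linarith
  have hn2 : R / lam0 + 2 ≤ n₀ := by
    have h1 : 0 ≤ ∑ i, (q i + ‖c i‖ + 1) :=
      Finset.sum_nonneg fun i _ => by have := hP.hq i; positivity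
    linarith
  -- the bound for fixed dilation and offset
  have hkey : ∀ l ∈ Icc lam0 lam1, ∀ θ ∈ cube,
      (∏ k ∈ kbox n₀, ∏ i, Xi a β ρ (Λ ∩ cB (ctr c l θ k i) (l * q i))) *
        Real.exp (volume.real (Λ \ ⋃ k ∈ kbox n₀, ⋃ i, cB (ctr c l θ k i) (l * q i))) ≤
      Real.exp (s * volume.real Λ + ε * volume.real Λ + (|s| + CX + 1) * zone (2 * lam1) Λ) := by
    intro l hl θ hθ
    have hl0 : 0 < l := lt_of_lt_of_le hlam0 hl.1
    have hl3 : 0 < l ^ 3 := by positivity
    have hn3 : R / l + 2 ≤ n₀ := by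
      have h1 : R / l ≤ R / lam0 := div_le_div_of_nonneg_left hRn hlam0 hl.1
      linarith
    obtain ⟨A, Bd, hA, hBd, hdis, hAΛ, hout, hAc, hΛc, hBdc, hleft⟩ :=
      hCells l R θ Λ n₀ hl0 hθ hRn hΛ hΛR hn3
    obtain ⟨hin, hsep, hcellv⟩ := hPF l θ hl0
    have hzone : zone (2 * l) Λ ≤ zone (2 * lam1) Λ := zone_mono hΛ (by linarith [hl.2])
    set Zn : ℝ := zone (2 * lam1) Λ with hZn
    have hZn0 : 0 ≤ Zn := zone_nonneg _ _
    have hBin : ∀ k i, cB (ctr c l θ k i) (l * q i) ⊆ cell l θ k := fun k i =>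
      hin k i (q i) (by linarith [hP.hγ])
    have hBvol : ∀ k i, volume.real (cB (ctr c l θ k i) (l * q i)) = l ^ 3 * vb (q i) := by
      intro k i
      rw [hLens.1 _ _ (by have := hP.hq i; positivity), vb_mul]
    have hXpos : ∀ D, BM D → 0 < Xi a β ρ D := fun D hD => (hXi a β ρ D ha hβ hρ hD).2.1
    have hXle : ∀ D, BM D → Xi a β ρ D ≤ Real.exp (CX * volume.real D) := fun D hD =>
      (hXi a β ρ D ha hβ hρ hD).2.2
    have hΛB : ∀ k i, BM (Λ ∩ cB (ctr c l θ k i) (l * q i)) := fun k i =>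
      ⟨hΛ.1.inter (bm_cB _ _).1, hΛ.2.subset inter_subset_left⟩
    -- the factors
    have hprodA : ∀ k ∈ A, ∏ i, Xi a β ρ (Λ ∩ cB (ctr c l θ k i) (l * q i)) =
        Real.exp (l ^ 3 * Sl a β ρ q l) := by
      intro k hk
      have h1 : ∀ i, Xi a β ρ (Λ ∩ cB (ctr c l θ k i) (l * q i)) =
          Real.exp (Real.log (Xi a β ρ (cB 0 (l * q i)))) := by
        intro i
        rw [Real.exp_log (hXpos _ (bm_cB _ _)), inter_eq_self_of_subset_right
          ((hBin k i).trans (hAΛ k hk))]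
        unfold Xi
        exact tsum_congr fun n => hTr a β ρ _ _ n
      rw [Finset.prod_congr rfl fun i _ => h1 i, ← Real.exp_sum]
      congr 1
      unfold Sl
      rw [← mul_assoc, mul_inv_cancel₀ hl3.ne', one_mul]
    have hprodB : ∀ k, ∏ i, Xi a β ρ (Λ ∩ cB (ctr c l θ k i) (l * q i)) ≤
        Real.exp (CX * l ^ 3) := by
      intro k
      have h1 : ∏ i, Xi a β ρ (Λ ∩ cB (ctr c l θ k i) (l * q i)) ≤
          ∏ i, Real.exp (CX * (l ^ 3 * vb (q i))) := by
        refine Finset.prod_le_prod (fun i _ => (hXpos _ (hΛB k i)).le) fun i _ => ?_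
        refine (hXle _ (hΛB k i)).trans (Real.exp_le_exp.2 ?_)
        refine mul_le_mul_of_nonneg_left ?_ hCX0.le
        rw [← hBvol k i]
        exact measureReal_mono inter_subset_right (bm_cB _ _).2.measure_lt_top.ne
      refine h1.trans ?_
      rw [← Real.exp_sum, Real.exp_le_exp, ← Finset.mul_sum, ← Finset.mul_sum]
      refine mul_le_mul_of_nonneg_left ?_ hCX0.le
      have h2 : ∑ i, vb (q i) ≤ 1 := hfr1.le
      calc l ^ 3 * ∑ i, vb (q i) ≤ l ^ 3 * 1 := mul_le_mul_of_nonneg_left h2 hl3.le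
        _ = l ^ 3 := mul_one _
    have hprodO : ∀ k, k ∉ A → k ∉ Bd →
        ∏ i, Xi a β ρ (Λ ∩ cB (ctr c l θ k i) (l * q i)) ≤ 1 := by
      intro k hk hk'
      refine Finset.prod_le_one (fun i _ => (hXpos _ (hΛB k i)).le) fun i _ => ?_
      have h1 : Λ ∩ cB (ctr c l θ k i) (l * q i) = ∅ := by
        have h2 := hout k hk hk'
        rw [← disjoint_iff_inter_eq_empty]
        exact (h2.mono_left (hBin k i)).symm
      have h3 := hXle _ (hΛB k i)
      rw [h1] at h3 ⊢
      simpa using h3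
    have hprod : ∏ k ∈ kbox n₀, ∏ i, Xi a β ρ (Λ ∩ cB (ctr c l θ k i) (l * q i)) ≤
        Real.exp ((A.card : ℝ) * (l ^ 3 * Sl a β ρ q l) + (Bd.card : ℝ) * (CX * l ^ 3)) := by
      have h1 : ∏ k ∈ kbox n₀, ∏ i, Xi a β ρ (Λ ∩ cB (ctr c l θ k i) (l * q i)) ≤
          ∏ k ∈ kbox n₀, Real.exp ((if k ∈ A then l ^ 3 * Sl a β ρ q l else 0) +
            (if k ∈ Bd then CX * l ^ 3 else 0)) := by
        refine Finset.prod_le_prod (fun k _ => Finset.prod_nonneg fun i _ =>
          (hXpos _ (hΛB k i)).le) fun k _ => ?_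
        by_cases hkA : k ∈ A
        · have hkB : k ∉ Bd := fun h => Finset.disjoint_left.1 hdis hkA h
          rw [if_pos hkA, if_neg hkB, add_zero, hprodA k hkA]
        · by_cases hkB : k ∈ Bd
          · rw [if_neg hkA, if_pos hkB, zero_add]
            exact hprodB k
          · rw [if_neg hkA, if_neg hkB, add_zero, Real.exp_zero]
            exact hprodO k hkA hkB
      refine h1.trans (le_of_eq ?_)
      rw [← Real.exp_sum, Finset.sum_add_distrib]
      congr 1
      rw [Finset.sum_ite_mem, Finset.sum_ite_mem, Finset.inter_eq_right.2 hA,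
        Finset.inter_eq_right.2 hBd, Finset.sum_const, Finset.sum_const, nsmul_eq_mul,
        nsmul_eq_mul]
    -- the uncovered volume
    have hcellfin : ∀ k, volume (cell l θ k) ≠ ⊤ := by
      intro k h
      have := hcellv k
      rw [measureReal_def, h, ENNReal.toReal_top] at this
      exact hl3.ne this
    have hcelldiff : ∀ k, volume.real (cell l θ k \ ⋃ i, cB (ctr c l θ k i) (l * q i)) ≤
        ε * l ^ 3 := by
      intro k
      have hU : MeasurableSet (⋃ i, cB (ctr c l θ k i) (l * q i)) :=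
        MeasurableSet.iUnion fun i => (bm_cB _ _).1
      have hUc : (⋃ i, cB (ctr c l θ k i) (l * q i)) ⊆ cell l θ k :=
        iUnion_subset fun i => hBin k i
      have hd : Pairwise (Function.onFun Disjoint fun i => cB (ctr c l θ k i) (l * q i)) := by
        intro i i' hii
        have h1 := hsep k i k i' (by
          intro h
          exact hii (congrArg Prod.snd h))
        refine Set.disjoint_left.2 fun x hx hx' => ?_
        rw [Metric.mem_closedBall, dist_eq_norm] at hx hx'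
        have h2 : ‖ctr c l θ k i - ctr c l θ k i'‖ ≤ l * q i + l * q i' := by
          have h3 : ctr c l θ k i - ctr c l θ k i' =
              (x - ctr c l θ k i') - (x - ctr c l θ k i) := by abel
          rw [h3]
          calc ‖(x - ctr c l θ k i') - (x - ctr c l θ k i)‖
              ≤ ‖x - ctr c l θ k i'‖ + ‖x - ctr c l θ k i‖ := norm_sub_le _ _
            _ ≤ l * q i + l * q i' := by linarith
        have h4 : 0 < l * γ := mul_pos hl0 hP.hγ
        linarith
      have hUv : volume.real (⋃ i, cB (ctr c l θ k i) (l * q i)) = l ^ 3 * frac q := by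
        rw [measureReal_iUnion_fintype hd (fun i => (bm_cB _ _).1)
          (fun i => (bm_cB _ _).2.measure_lt_top.ne)]
        simp only [hBvol]
        rw [← Finset.mul_sum]
        rfl
      rw [measureReal_sdiff hUc hU (hcellfin k), hcellv k, hUv]
      nlinarith
    have hvol : volume.real (Λ \ ⋃ k ∈ kbox n₀, ⋃ i, cB (ctr c l θ k i) (l * q i)) ≤
        Zn + ε * volume.real Λ := by
      have h1 : Λ \ (⋃ k ∈ kbox n₀, ⋃ i, cB (ctr c l θ k i) (l * q i)) ⊆
          (Λ \ ⋃ k ∈ A, cell l θ k) ∪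
            ⋃ k ∈ A, (cell l θ k \ ⋃ i, cB (ctr c l θ k i) (l * q i)) := by
        rintro x ⟨hx1, hx2⟩
        by_cases hx3 : x ∈ ⋃ k ∈ A, cell l θ k
        · right
          obtain ⟨k, hk, hxk⟩ := mem_iUnion₂.1 hx3
          refine mem_iUnion₂.2 ⟨k, hk, hxk, fun hx4 => hx2 ?_⟩
          exact mem_iUnion₂.2 ⟨k, hA hk, hx4⟩
        · exact Or.inl ⟨hx1, hx3⟩
      have hfin1 : volume (Λ \ ⋃ k ∈ A, cell l θ k) ≠ ⊤ :=
        measure_ne_top_of_subset sdiff_subset hΛ.2.measure_lt_top.ne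
      have hfin2 : volume (⋃ k ∈ A, (cell l θ k \ ⋃ i, cB (ctr c l θ k i) (l * q i))) ≠ ⊤ := by
        refine (lt_of_le_of_lt (measure_biUnion_finset_le _ _) ?_).ne
        refine ENNReal.sum_lt_top.2 fun k _ => ?_
        exact lt_of_le_of_lt (measure_mono sdiff_subset) (hcellfin k).lt_top
      calc volume.real (Λ \ ⋃ k ∈ kbox n₀, ⋃ i, cB (ctr c l θ k i) (l * q i))
          ≤ volume.real ((Λ \ ⋃ k ∈ A, cell l θ k) ∪
            ⋃ k ∈ A, (cell l θ k \ ⋃ i, cB (ctr c l θ k i) (l * q i))) :=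
            measureReal_mono h1 (measure_union_lt_top hfin1.lt_top hfin2.lt_top).ne
        _ ≤ volume.real (Λ \ ⋃ k ∈ A, cell l θ k) +
            volume.real (⋃ k ∈ A, (cell l θ k \ ⋃ i, cB (ctr c l θ k i) (l * q i))) :=
            measureReal_union_le _ _
        _ ≤ Zn + ∑ k ∈ A, volume.real (cell l θ k \ ⋃ i, cB (ctr c l θ k i) (l * q i)) :=
            add_le_add (hleft.trans hzone) (measureReal_biUnion_finset_le _ _)
        _ ≤ Zn + ∑ _k ∈ A, ε * l ^ 3 := by
            gcongr with k hk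
            exact hcelldiff k
        _ = Zn + ε * (A.card * l ^ 3) := by
            rw [Finset.sum_const, nsmul_eq_mul]; ring
        _ ≤ Zn + ε * volume.real Λ := by gcongr
    -- conclusion
    have hfinal : (A.card : ℝ) * (l ^ 3 * Sl a β ρ q l) + (Bd.card : ℝ) * (CX * l ^ 3) +
        volume.real (Λ \ ⋃ k ∈ kbox n₀, ⋃ i, cB (ctr c l θ k i) (l * q i)) ≤
        s * volume.real Λ + ε * volume.real Λ + (|s| + CX + 1) * Zn := by
      have h1 : (A.card : ℝ) * (l ^ 3 * Sl a β ρ q l) ≤ (A.card * l ^ 3) * s := by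
        rw [← mul_assoc]
        exact mul_le_mul_of_nonneg_left (hs l hl) (by positivity)
      have h2 : (A.card * l ^ 3) * s ≤ s * volume.real Λ + |s| * Zn := by
        have h3 : |(volume.real Λ - A.card * l ^ 3)| ≤ Zn := by
          rw [abs_of_nonneg (by linarith)]
          linarith
        have h4 : (A.card * l ^ 3) * s - s * volume.real Λ ≤ |s| * Zn := by
          calc (A.card * l ^ 3) * s - s * volume.real Λ
              ≤ |(A.card * l ^ 3) * s - s * volume.real Λ| := le_abs_self _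
            _ = |s| * |volume.real Λ - A.card * l ^ 3| := by
                rw [← abs_mul, ← abs_neg]
                congr 1
                ring
            _ ≤ |s| * Zn := mul_le_mul_of_nonneg_left h3 (abs_nonneg _)
        linarith
      have h5 : (Bd.card : ℝ) * (CX * l ^ 3) ≤ CX * Zn := by
        calc (Bd.card : ℝ) * (CX * l ^ 3) = CX * (Bd.card * l ^ 3) := by ring
          _ ≤ CX * Zn := mul_le_mul_of_nonneg_left (hBdc.trans hzone) hCX0.le
      linarith
    calc _ ≤ Real.exp ((A.card : ℝ) * (l ^ 3 * Sl a β ρ q l) + (Bd.card : ℝ) * (CX * l ^ 3)) *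
          Real.exp (volume.real (Λ \ ⋃ k ∈ kbox n₀, ⋃ i, cB (ctr c l θ k i) (l * q i))) :=
          mul_le_mul_of_nonneg_right hprod (Real.exp_pos _).le
      _ ≤ _ := by
          rw [← Real.exp_add, Real.exp_le_exp]
          exact hfinal
  have hU := hUpJ a β ρ m c q γ ε lam0 lam1 qm R _ Λ n₀ N ha hβ hρ hP hlam0 hlam1 hε.le hfr hcond
    hqm hqm' hlam0a hRn hΛ hΛR hn1 hkey
  refine hU.trans ?_
  rw [← Real.exp_add, Real.exp_le_exp]
  have hv0 : 0 ≤ volume.real Λ := measureReal_nonneg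
  have hN0 : (0 : ℝ) ≤ N := Nat.cast_nonneg N
  have hx0 : 0 < 1 / (lam0 * qm) := by positivity
  set x : ℝ := 1 / (lam0 * qm) with hx
  have h1 : β * errL a ρ ε x ≤ (CU - 1) * (ε + x) := by
    have h2 : CU - 1 = β * (4 / (3 * a) + 2 / 3 + 2 * π / 9 * ρ * a ^ 2) := by rw [hCU]; ring
    rw [h2, mul_assoc]
    refine mul_le_mul_of_nonneg_left ?_ hβ.le
    unfold errL
    have h3 : 0 ≤ 4 / (3 * a) * x := by positivity
    have h4 : 0 ≤ 2 / 3 * ε := by positivity
    have h5 : 0 ≤ 2 * π / 9 * ρ * a ^ 2 * x := by positivity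
    have h6 : 2 / 3 * (2 * ε / a + x) = 4 / (3 * a) * ε + 2 / 3 * x := by
      field_simp
      ring
    rw [h6]
    nlinarith
  have h2 : β * N * errL a ρ ε x ≤ (CU - 1) * (ε + x) * N := by
    calc β * N * errL a ρ ε x = (β * errL a ρ ε x) * N := by ring
      _ ≤ (CU - 1) * (ε + x) * N := mul_le_mul_of_nonneg_right h1 hN0
  have h3 : ε * volume.real Λ ≤ (ε + x) * volume.real Λ :=
    mul_le_mul_of_nonneg_right (by linarith) hv0
  have h4 : (CU - 1) * (ε + x) * N + (ε + x) * volume.real Λ ≤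
      CU * (ε + x) * (N + volume.real Λ) := by
    have h5 : 0 ≤ (ε + x) * N := by positivity
    have h6 : 0 ≤ (CU - 1) * ((ε + x) * volume.real Λ) := by
      have : 0 ≤ CU - 1 := by rw [hCU]; linarith
      positivity
    nlinarith
  linarith

end Pool.Agent.JEL
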