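import Pool.Agent.JEL.Stmts

open MeasureTheory Set Filter Topology

namespace Pool.Agent.JEL

namespace UpJ_

/-- Jensen and Fubini -/
theorem jensen_swap {Ω Y : Type} [MeasurableSpace Ω] [MeasurableSpace Y] (P : Measure Ω)
    [IsProbabilityMeasure P] (τ : Measure Y) [IsFiniteMeasure τ] (G : Ω × Y → ℝ)
    (hG : Measurable G) (B : ℝ) (hB : ∀ p, |G p| ≤ B) (β S : ℝ) (hβ : 0 < β)
    (hS : ∀ᵐ ω ∂P, ∫ y, Real.exp (-β * G (ω, y)) ∂τ ≤ S) :
    ∫ y, Real.exp (-β * ∫ ω, G (ω, y) ∂P) ∂τ ≤ S := by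
  have hint : ∀ y, Integrable (fun ω => G (ω, y)) P := by
    intro y
    refine Integrable.of_bound (C := B) ?_ ?_
    · exact (hG.comp (measurable_id.prodMk measurable_const)).aestronglyMeasurable
    · exact Filter.Eventually.of_forall (fun ω => hB _)
  have hbexp : ∀ p, ‖Real.exp (-β * G p)‖ ≤ Real.exp (β * B) := by
    intro p
    rw [Real.norm_eq_abs, abs_of_pos (Real.exp_pos _)]
    apply Real.exp_le_exp.2
    have := (abs_le.1 (hB p)).1
    nlinarith
  have hme : Measurable (fun p : Ω × Y => Real.exp (-β * G p)) :=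
    Real.measurable_exp.comp (hG.const_mul _)
  have hintexp : ∀ y, Integrable (fun ω => Real.exp (-β * G (ω, y))) P := by
    intro y
    refine Integrable.of_bound (C := Real.exp (β * B)) ?_ ?_
    · exact (hme.comp (measurable_id.prodMk measurable_const)).aestronglyMeasurable
    · exact Filter.Eventually.of_forall (fun ω => hbexp _)
  have hJ : ∀ y, Real.exp (-β * ∫ ω, G (ω, y) ∂P) ≤ ∫ ω, Real.exp (-β * G (ω, y)) ∂P := by
    intro y
    have h := convexOn_exp.map_integral_le (μ := P) (f := fun ω => -β * G (ω, y))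
      Real.continuous_exp.continuousOn isClosed_univ
      (Filter.Eventually.of_forall (fun _ => mem_univ _)) ((hint y).const_mul _)
      (hintexp y)
    rw [← integral_const_mul]
    exact h
  have hprod : Integrable (fun p : Y × Ω => Real.exp (-β * G (p.2, p.1))) (τ.prod P) := by
    refine Integrable.of_bound (C := Real.exp (β * B)) ?_ ?_
    · exact (hme.comp measurable_swap).aestronglyMeasurable
    · exact Filter.Eventually.of_forall (fun ω => hbexp _)
  calc ∫ y, Real.exp (-β * ∫ ω, G (ω, y) ∂P) ∂τ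
      ≤ ∫ y, ∫ ω, Real.exp (-β * G (ω, y)) ∂P ∂τ := by
        refine integral_mono_of_nonneg (Filter.Eventually.of_forall (fun y => (Real.exp_pos _).le))
          hprod.integral_prod_left (Filter.Eventually.of_forall hJ)
    _ = ∫ ω, ∫ y, Real.exp (-β * G (ω, y)) ∂τ ∂P :=
        integral_integral_swap hprod
    _ ≤ ∫ ω, S ∂P := by
        refine integral_mono_of_nonneg (Filter.Eventually.of_forall
          (fun ω => integral_nonneg (fun y => (Real.exp_pos _).le))) (integrable_const _) hS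
    _ = S := by simp

/-- truncation to a set of the second variable -/
noncomputable def trunc {Ω Y : Type} (C : Set Y) (f : Ω × Y → ℝ) : Ω × Y → ℝ :=
  {p : Ω × Y | p.2 ∈ C}.indicator f

theorem trunc_on {Ω Y : Type} (C : Set Y) (f : Ω × Y → ℝ) (p : Ω × Y) (hp : p.2 ∈ C) :
    trunc C f p = f p := indicator_of_mem (s := {p : Ω × Y | p.2 ∈ C}) hp _

theorem trunc_off {Ω Y : Type} (C : Set Y) (f : Ω × Y → ℝ) (p : Ω × Y) (hp : p.2 ∉ C) :
    trunc C f p = 0 := indicator_of_notMem (s := {p : Ω × Y | p.2 ∈ C}) hp _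

theorem trunc_meas {Ω Y : Type} [MeasurableSpace Ω] [MeasurableSpace Y] (C : Set Y)
    (hC : MeasurableSet C) (f : Ω × Y → ℝ) (hf : Measurable f) : Measurable (trunc C f) :=
  hf.indicator (measurable_snd hC)

theorem trunc_bd {Ω Y : Type} (C : Set Y) (f : Ω × Y → ℝ) (B : ℝ)
    (h : ∀ p, p.2 ∈ C → |f p| ≤ B) : ∀ p, |trunc C f p| ≤ |B| := by
  intro p
  by_cases hp : p.2 ∈ C
  · rw [trunc_on C f p hp]
    exact (h p hp).trans (le_abs_self _)
  · rw [trunc_off C f p hp, abs_zero]
    exact abs_nonneg _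

/-- the law of the dilation -/
noncomputable def mu (lam0 lam1 : ℝ) : Measure ℝ :=
  (volume.restrict (Icc lam0 lam1)).withDensity
    (fun l => ENNReal.ofReal (Real.log (lam1 / lam0) * l)⁻¹)

theorem log_pos' {lam0 lam1 : ℝ} (h0 : 0 < lam0) (h1 : lam0 < lam1) :
    0 < Real.log (lam1 / lam0) := Real.log_pos (by rw [lt_div_iff₀ h0]; linarith)

theorem int_one {lam0 lam1 : ℝ} (h0 : 0 < lam0) (h1 : lam0 < lam1) :
    ∫ l in Icc lam0 lam1, (Real.log (lam1 / lam0) * l)⁻¹ = 1 := by
  have hM := log_pos' h0 h1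
  rw [integral_Icc_eq_integral_Ioc, ← intervalIntegral.integral_of_le h1.le]
  simp_rw [mul_inv]
  rw [intervalIntegral.integral_const_mul, integral_inv_of_pos h0 (h0.trans h1)]
  field_simp

theorem mu_prob {lam0 lam1 : ℝ} (h0 : 0 < lam0) (h1 : lam0 < lam1) :
    IsProbabilityMeasure (mu lam0 lam1) := by
  have hM := log_pos' h0 h1
  refine ⟨?_⟩
  rw [mu, withDensity_apply _ MeasurableSet.univ, Measure.restrict_univ,
    ← ofReal_integral_eq_lintegral_ofReal, int_one h0 h1, ENNReal.ofReal_one]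
  · have hc : ContinuousOn (fun l : ℝ => (Real.log (lam1 / lam0) * l)⁻¹) (Icc lam0 lam1) := by
      apply ContinuousOn.inv₀ (by fun_prop)
      intro l hl
      have : 0 < l := h0.trans_le hl.1
      positivity
    exact hc.integrableOn_Icc
  · rw [Filter.EventuallyLE, ae_restrict_iff' measurableSet_Icc]
    refine Filter.Eventually.of_forall (fun l hl => ?_)
    have : 0 < l := h0.trans_le hl.1
    simp only [Pi.zero_apply]
    positivity

theorem cube_meas : MeasurableSet cube :=
  MeasurableSet.univ_pi (fun _ => measurableSet_Ico)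

theorem nu_prob : IsProbabilityMeasure ((volume : Measure (Fin 3 → ℝ)).restrict cube) := by
  refine ⟨?_⟩
  rw [Measure.restrict_apply_univ, cube, Real.volume_pi_Ico]
  simp

theorem int_prod_eq {lam0 lam1 : ℝ} (h0 : 0 < lam0) (h1 : lam0 < lam1)
    (g : ℝ × (Fin 3 → ℝ) → ℝ)
    (hg : Integrable g ((mu lam0 lam1).prod ((volume : Measure (Fin 3 → ℝ)).restrict cube))) :
    ∫ p, g p ∂((mu lam0 lam1).prod ((volume : Measure (Fin 3 → ℝ)).restrict cube))
      = ∫ l in Icc lam0 lam1, (Real.log (lam1 / lam0) * l)⁻¹ * ∫ θ in cube, g (l, θ) := by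
  have hM := log_pos' h0 h1
  have := mu_prob h0 h1
  have := nu_prob
  rw [integral_prod _ hg, mu, integral_withDensity_eq_integral_toReal_smul]
  · refine setIntegral_congr_fun measurableSet_Icc (fun l hl => ?_)
    have : 0 < l := h0.trans_le hl.1
    simp only [smul_eq_mul]
    rw [ENNReal.toReal_ofReal (by positivity)]
  · exact ENNReal.measurable_ofReal.comp ((measurable_const.mul measurable_id).inv)
  · exact Filter.Eventually.of_forall (fun _ => ENNReal.ofReal_lt_top)

theorem ae_supp {lam0 lam1 : ℝ} :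
    ∀ᵐ p ∂((mu lam0 lam1).prod ((volume : Measure (Fin 3 → ℝ)).restrict cube)),
      p.1 ∈ Icc lam0 lam1 ∧ p.2 ∈ cube := by
  have h1 : ∀ᵐ l ∂(mu lam0 lam1), l ∈ Icc lam0 lam1 := by
    have hac : mu lam0 lam1 ≪ volume.restrict (Icc lam0 lam1) := withDensity_absolutelyContinuous _ _
    exact hac.ae_le (ae_restrict_mem measurableSet_Icc)
  have h2 : ∀ᵐ θ ∂((volume : Measure (Fin 3 → ℝ)).restrict cube), θ ∈ cube :=
    ae_restrict_mem cube_meas
  have h3 := Measure.quasiMeasurePreserving_fst (μ := mu lam0 lam1)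
    (ν := (volume : Measure (Fin 3 → ℝ)).restrict cube)
  have h4 := Measure.quasiMeasurePreserving_snd (μ := mu lam0 lam1)
    (ν := (volume : Measure (Fin 3 → ℝ)).restrict cube)
  exact (h3.ae h1).and (h4.ae h2)

theorem sup_use (hSup : Stmt_Sup) (hPF : Stmt_PackF) (a β ρ : ℝ) (m : ℕ) (c : Fin m → E)
    (q : Fin m → ℝ) (γ S : ℝ) (Λ : Set E) (n₀ N : ℕ) (ha : 0 < a) (hβ : 0 < β) (hρ : 0 < ρ)
    (hP : Pack m c q γ) (hΛ : BM Λ) (l : ℝ) (θ : Fin 3 → ℝ) (hl : 0 < l)
    (hS : (∏ k ∈ kbox n₀, ∏ i, Xi a β ρ (Λ ∩ cB (ctr c l θ k i) (l * q i))) *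
      Real.exp (volume.real (Λ \ ⋃ k ∈ kbox n₀, ⋃ i, cB (ctr c l θ k i) (l * q i))) ≤ S) :
    (N.factorial : ℝ)⁻¹ * ∫ X in conf a Λ N, Real.exp (-β * Gsum ρ Λ c q n₀ l θ X) ≤ S := by
  have h := hSup a β ρ Λ ha hβ hρ hΛ ({k // k ∈ kbox n₀} × Fin m)
    (fun p => cB (ctr c l θ p.1 p.2) (l * q p.2))
    (fun p => ⟨Metric.isClosed_closedBall.measurableSet, Metric.isBounded_closedBall⟩)
    (by
      rintro ⟨⟨k, hk⟩, i⟩ ⟨⟨k', hk'⟩, i'⟩ hne
      have hne' : (k, i) ≠ (k', i') := by
        intro h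
        apply hne
        simp only [Prod.mk.injEq] at h
        obtain ⟨rfl, rfl⟩ := h
        rfl
      have h1 := ((hPF m c q γ hP).2.2 l θ hl).2.1 k i k' i' hne'
      apply Metric.closedBall_disjoint_closedBall
      rw [dist_eq_norm]
      have := mul_pos hl hP.hγ
      simp only
      linarith) N
  refine le_trans (le_of_eq ?_) (h.trans (le_trans (le_of_eq ?_) hS))
  · congr 1
    refine integral_congr_ae (Filter.Eventually.of_forall (fun X => ?_))
    simp only
    congr 2
    rw [Fintype.sum_prod_type]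
    exact (Finset.sum_coe_sort (kbox n₀)
      (fun k => ∑ i, Uloc ρ Λ (cB (ctr c l θ k i) (l * q i)) X)).symm
  · rw [Fintype.prod_prod_type]
    congr 1
    · exact (Finset.prod_coe_sort (kbox n₀)
        (fun k => ∏ i, Xi a β ρ (Λ ∩ cB (ctr c l θ k i) (l * q i))))
    · congr 3
      ext x
      simp only [mem_iUnion, Prod.exists, Subtype.exists, exists_prop]

end UpJ_

open UpJ_ in
theorem UpJ_proof (hLoc : Stmt_Loc) (hSup : Stmt_Sup) (hG : Stmt_GMeas) (hMeas : Stmt_Meas)
    (hPF : Stmt_PackF) : Stmt_UpJ := by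
  intro a β ρ m c q γ ε lam0 lam1 qm R S Λ n₀ N ha hβ hρ hP h0 h1 hε hfr hfr' hqm hqmi haq hR hΛ
    hΛR hn₀ hS
  have := mu_prob h0 h1
  have := nu_prob
  obtain ⟨hGm, hGb⟩ := hG ρ Λ m c q n₀ N hρ hΛ
  obtain ⟨B, hB⟩ := hGb a ha
  have hconf : MeasurableSet (conf a Λ N) := hMeas.2.1 a Λ N hΛ.1
  have hfin : volume (conf a Λ N) < ⊤ := by
    have hsub : conf a Λ N ⊆ Set.pi univ (fun _ : Fin N => Λ) := fun X hX i _ => hX.2 i
    refine (measure_mono hsub).trans_lt ?_
    rw [volume_pi, Measure.pi_pi]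
    exact ENNReal.prod_lt_top (fun i _ => hΛ.2.measure_lt_top)
  have : IsFiniteMeasure ((volume : Measure (Fin N → E)).restrict (conf a Λ N)) :=
    ⟨by rw [Measure.restrict_apply_univ]; exact hfin⟩
  set P := (mu lam0 lam1).prod ((volume : Measure (Fin 3 → ℝ)).restrict cube) with hPdef
  -- the truncated energy
  obtain ⟨G, hGdef⟩ : ∃ G : (ℝ × (Fin 3 → ℝ)) × (Fin N → E) → ℝ,
    G = trunc (conf a Λ N) (fun p => Gsum ρ Λ c q n₀ p.1.1 p.1.2 p.2) := ⟨_, rfl⟩
  have hGmeas : Measurable G := by rw [hGdef]; exact trunc_meas _ hconf _ hGm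
  have hGbd : ∀ p, |G p| ≤ |B| := by
    rw [hGdef]; exact trunc_bd _ _ B (fun p hp => hB _ _ _ hp.1)
  have hGon : ∀ (l : ℝ) (θ : Fin 3 → ℝ) (X : Fin N → E), X ∈ conf a Λ N →
      G ((l, θ), X) = Gsum ρ Λ c q n₀ l θ X := by
    intro l θ X hX
    rw [hGdef]; exact trunc_on _ _ _ hX
  have hint : ∀ X, Integrable (fun p => G (p, X)) P := by
    intro X
    refine Integrable.of_bound (C := |B|) ?_ ?_
    · exact (hGmeas.comp (measurable_id.prodMk measurable_const)).aestronglyMeasurable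
    · exact Filter.Eventually.of_forall (fun ω => hGbd _)
  -- localization
  have hlow : ∀ X ∈ conf a Λ N, (∫ p, G (p, X) ∂P) - N * errL a ρ ε (1 / (lam0 * qm))
      ≤ En (bg ρ Λ) X := by
    intro X hX
    have h := hLoc a ρ m c q γ ε lam0 lam1 qm R Λ n₀ N X ha hρ hP h0 h1 hε hfr hfr' hqm hqmi haq
      hR hΛ hΛR hn₀ hX
    rw [hPdef, int_prod_eq h0 h1 _ (hint X)]
    refine le_trans (le_of_eq ?_) h
    congr 1
    refine setIntegral_congr_fun measurableSet_Icc (fun l _ => ?_)
    congr 1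
    refine setIntegral_congr_fun cube_meas (fun θ _ => ?_)
    exact hGon l θ X hX
  -- superposition
  have hsup : ∀ᵐ p ∂P, ∫ X in conf a Λ N, Real.exp (-β * G (p, X)) ≤ N.factorial * S := by
    filter_upwards [ae_supp (lam0 := lam0) (lam1 := lam1)] with p hp
    have hl : 0 < p.1 := h0.trans_le hp.1.1
    have h := sup_use hSup hPF a β ρ m c q γ S Λ n₀ N ha hβ hρ hP hΛ p.1 p.2 hl
      (hS p.1 hp.1 p.2 hp.2)
    have hN : (0:ℝ) < N.factorial := by exact_mod_cast Nat.factorial_pos N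
    rw [inv_mul_le_iff₀ hN] at h
    refine le_trans (le_of_eq ?_) h
    refine setIntegral_congr_fun hconf (fun X hX => ?_)
    exact congrArg (fun t => Real.exp (-β * t)) (hGon p.1 p.2 X hX)
  have hJ := jensen_swap P ((volume : Measure (Fin N → E)).restrict (conf a Λ N)) G hGmeas |B|
    hGbd β (N.factorial * S) hβ hsup
  have hN : (0:ℝ) < N.factorial := by exact_mod_cast Nat.factorial_pos N
  have hmI : Measurable (fun X : Fin N → E => ∫ p, G (p, X) ∂P) := by
    exact (StronglyMeasurable.integral_prod_left' (μ := P) hGmeas.stronglyMeasurable).measurable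
  have hstep : ∫ X in conf a Λ N, Real.exp (-β * En (bg ρ Λ) X)
      ≤ ∫ X in conf a Λ N, Real.exp (β * N * errL a ρ ε (1 / (lam0 * qm))) *
        Real.exp (-β * ∫ p, G (p, X) ∂P) := by
    refine integral_mono_of_nonneg (Filter.Eventually.of_forall (fun X => (Real.exp_pos _).le))
      ?_ ?_
    · refine Integrable.const_mul ?_ _
      refine Integrable.of_bound (C := Real.exp (β * |B|)) ?_ ?_
      · exact (Real.measurable_exp.comp (hmI.const_mul _)).aestronglyMeasurable
      · refine Filter.Eventually.of_forall (fun X => ?_)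
        rw [Real.norm_eq_abs, abs_of_pos (Real.exp_pos _)]
        apply Real.exp_le_exp.2
        have h := norm_integral_le_of_norm_le_const (μ := P) (f := fun p => G (p, X)) (C := |B|)
          (Filter.Eventually.of_forall (fun p => hGbd _))
        rw [Real.norm_eq_abs] at h
        rw [probReal_univ, mul_one] at h
        have := (abs_le.1 h).1
        nlinarith
    · rw [Filter.EventuallyLE, ae_restrict_iff' hconf]
      refine Filter.Eventually.of_forall (fun X hX => ?_)
      rw [← Real.exp_add]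
      apply Real.exp_le_exp.2
      have := hlow X hX
      nlinarith
  rw [integral_const_mul] at hstep
  rw [Z, ZF, inv_mul_le_iff₀ hN]
  refine hstep.trans ?_
  calc Real.exp (β * N * errL a ρ ε (1 / (lam0 * qm))) *
        ∫ X in conf a Λ N, Real.exp (-β * ∫ p, G (p, X) ∂P)
      ≤ Real.exp (β * N * errL a ρ ε (1 / (lam0 * qm))) * (N.factorial * S) :=
        mul_le_mul_of_nonneg_left hJ (Real.exp_pos _).le
    _ = N.factorial * (Real.exp (β * N * errL a ρ ε (1 / (lam0 * qm))) * S) := by ring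

end Pool.Agent.JEL
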