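import Pool.Agent.JEL.Stmts

/-!
# JEL, module Vol: many good configurations with slightly more than `N` points
-/

open MeasureTheory Set Filter Topology

namespace Pool.Agent.JEL

open scoped Real

namespace Vol_

/-! ### probability -/

/-- Chebyshev's inequality. -/
lemma cheb {Ω : Type} [MeasurableSpace Ω] (P : Measure Ω) [IsProbabilityMeasure P] (X : Ω → ℝ)
    (hX : Measurable X) (hX0 : ∀ ω, 0 ≤ X ω) (m V s : ℝ) (hm : 0 ≤ m) (hV : 0 ≤ V) (hs : 0 < s)
    (h1 : ∫⁻ ω, ENNReal.ofReal (X ω) ∂P = ENNReal.ofReal m)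
    (h2 : ∫⁻ ω, ENNReal.ofReal (X ω ^ 2) ∂P ≤ ENNReal.ofReal (m ^ 2 + V)) :
    P.real {ω | s ≤ |X ω - m|} ≤ V / s ^ 2 := by
  have i1 : Integrable X P := by
    rw [← lintegral_ofReal_ne_top_iff_integrable hX.aestronglyMeasurable
      (Eventually.of_forall hX0), h1]
    exact ENNReal.ofReal_ne_top
  have i2 : Integrable (fun ω => X ω ^ 2) P := by
    rw [← lintegral_ofReal_ne_top_iff_integrable (hX.pow_const 2).aestronglyMeasurable
      (Eventually.of_forall (fun ω => sq_nonneg _))]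
    exact ne_top_of_le_ne_top ENNReal.ofReal_ne_top h2
  have e1 : ∫ ω, X ω ∂P = m := by
    rw [integral_eq_lintegral_of_nonneg_ae (Eventually.of_forall hX0) hX.aestronglyMeasurable, h1,
      ENNReal.toReal_ofReal hm]
  have e2 : ∫ ω, X ω ^ 2 ∂P ≤ m ^ 2 + V := by
    rw [integral_eq_lintegral_of_nonneg_ae (Eventually.of_forall (fun ω => sq_nonneg _))
      (hX.pow_const 2).aestronglyMeasurable]
    exact ENNReal.toReal_le_of_le_ofReal (by positivity) h2
  have e3 : ∫ ω, (X ω - m) ^ 2 ∂P ≤ V := by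
    have : ∀ ω, (X ω - m) ^ 2 = X ω ^ 2 - 2 * m * X ω + m ^ 2 := fun ω => by ring
    simp_rw [this]
    have ia : Integrable (fun ω => X ω ^ 2 - 2 * m * X ω) P := i2.sub (i1.const_mul _)
    rw [integral_add ia (integrable_const _),
      integral_sub i2 (i1.const_mul _), integral_const_mul, e1, integral_const]
    simp only [probReal_univ, smul_eq_mul, one_mul]
    linarith
  have i3 : Integrable (fun ω => (X ω - m) ^ 2) P := by
    have : (fun ω => (X ω - m) ^ 2) = fun ω => X ω ^ 2 - 2 * m * X ω + m ^ 2 := by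
      funext ω; ring
    rw [this]
    exact (i2.sub (i1.const_mul _)).add (integrable_const _)
  have e4 := mul_meas_ge_le_integral_of_nonneg (μ := P)
    (Eventually.of_forall (fun ω => sq_nonneg (X ω - m))) i3 (s ^ 2)
  have e5 : {ω | s ≤ |X ω - m|} = {ω | s ^ 2 ≤ (X ω - m) ^ 2} := by
    ext ω
    simp only [mem_ofPred_eq]
    rw [← sq_abs (X ω - m)]
    exact ⟨fun h => pow_le_pow_left₀ hs.le h 2, fun h => (pow_le_pow_iff_left₀ hs.le
      (abs_nonneg _) two_ne_zero).1 h⟩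
  rw [e5, le_div_iff₀ (by positivity), mul_comm]
  exact e4.trans e3

/-- Markov's inequality. -/
lemma markov {Ω : Type} [MeasurableSpace Ω] (P : Measure Ω) [IsProbabilityMeasure P] (X : Ω → ℝ)
    (hX : Integrable X P) (hX0 : ∀ ω, 0 ≤ X ω) (z : ℝ) (hz : 0 < z) (h : ∫ ω, X ω ∂P ≤ z) :
    P.real {ω | 8 * z ≤ X ω} ≤ 1 / 8 := by
  have e4 := mul_meas_ge_le_integral_of_nonneg (μ := P) (Eventually.of_forall hX0) hX (8 * z)
  rw [le_div_iff₀ (by norm_num)]
  have : 8 * z * P.real {ω | 8 * z ≤ X ω} ≤ z := e4.trans h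
  nlinarith

/-! ### configurations -/

lemma pairE_eq {ι : Type} [Fintype ι] [DecidableEq ι] (X : ι → E) :
    pairE X = (1 / 2) * ∑ i, ∑ j, ‖X i - X j‖⁻¹ := by
  unfold pairE
  congr 1
  refine Finset.sum_congr rfl fun i _ => ?_
  rw [← Finset.add_sum_erase Finset.univ (fun j => ‖X i - X j‖⁻¹) (Finset.mem_univ i)]
  simp

lemma pairE_perm {n : ℕ} (σ : Equiv.Perm (Fin n)) (X : Fin n → E) :
    pairE (X ∘ σ) = pairE X := by
  rw [pairE_eq, pairE_eq]
  congr 1
  simp only [Function.comp]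
  rw [Equiv.sum_comp σ (fun i => ∑ j, ‖X i - X (σ j)‖⁻¹)]
  refine Finset.sum_congr rfl fun i _ => ?_
  rw [Equiv.sum_comp σ (fun j => ‖X i - X j‖⁻¹)]

lemma En_perm (F : E → ℝ) {n : ℕ} (σ : Equiv.Perm (Fin n)) (X : Fin n → E) :
    En F (X ∘ σ) = En F X := by
  unfold En
  rw [pairE_perm]
  congr 2
  simp only [Function.comp]
  rw [Equiv.sum_comp σ (fun i => pot F (X i))]

lemma goodC_perm (a : ℝ) (F : E → ℝ) (D : Set E) (n : ℕ) (E₁ A₁ : ℝ) (σ : Equiv.Perm (Fin n))
    (X : Fin n → E) (h : X ∈ goodC a F D n E₁ A₁) : X ∘ σ ∈ goodC a F D n E₁ A₁ := by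
  obtain ⟨⟨h1, h2⟩, h3, h4⟩ := h
  refine ⟨⟨fun i j hij => h1 _ _ (fun h => hij (σ.injective h)), fun i => h2 _⟩, ?_, ?_⟩
  · rw [En_perm]
    exact h3
  · have : ∑ i, pot F ((X ∘ σ) i) = ∑ i, pot F (X i) := by
      simp only [Function.comp]
      rw [Equiv.sum_comp σ (fun i => pot F (X i))]
    rw [this]
    exact h4

/-- enumeration of a finite set -/
lemma exists_enum {I : Type} [Fintype I] (S : Set I) : ∃ (n : ℕ) (e : Fin n → I),
    Function.Injective e ∧ ∀ i, i ∈ S ↔ i ∈ Set.range e := by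
  classical
  let T : Finset I := Finset.univ.filter (fun i => i ∈ S)
  refine ⟨T.card, fun j => (T.equivFin.symm j : I), fun j j' h => ?_, fun i => ?_⟩
  · exact T.equivFin.symm.injective (Subtype.ext h)
  · constructor
    · intro hi
      refine ⟨T.equivFin ⟨i, by simp [T, hi]⟩, by simp⟩
    · rintro ⟨j, rfl⟩
      exact (Finset.mem_filter.1 (T.equivFin.symm j).2).2

lemma sum_enum {I : Type} [Fintype I] (S : Set I) {n : ℕ} (e : Fin n → I)
    (he : Function.Injective e) (hS : ∀ i, i ∈ S ↔ i ∈ Set.range e) (g : I → ℝ) :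
    ∑ j, g (e j) = ∑ i, S.indicator g i := by
  classical
  rw [← Finset.sum_image (s := Finset.univ) (g := e) (f := g) (fun a _ b _ h => he h)]
  rw [← Finset.sum_subset (Finset.subset_univ (Finset.univ.image e))]
  · refine Finset.sum_congr rfl fun i hi => ?_
    rw [Set.indicator_of_mem]
    rw [hS]
    simpa using hi
  · intro i _ hi
    rw [Set.indicator_of_notMem]
    rw [hS]
    simpa using hi

/-! ### linear statistics of the process -/

section proc

variable {a D₀ v : ℝ} {D : Set E} {κ : E → ℝ} {Ω : Type} [MeasurableSpace Ω] {P : Measure Ω}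
  {I : Type} [Fintype I] [DecidableEq I] {y : I → Ω → E} {R : I → Set Ω}

/-- linear statistic -/
noncomputable def Wf (y : I → Ω → E) (R : I → Set Ω) (f : E → ℝ) (ω : Ω) : ℝ :=
  ∑ i, (R i).indicator (fun ω => f (y i ω)) ω

lemma Wf_meas (h : IsProc a D₀ v D κ P y R) {f : E → ℝ} (hf : Measurable f) :
    Measurable (Wf y R f) := by
  unfold Wf
  exact Finset.measurable_sum _ fun i _ => (hf.comp (h.meas_y i)).indicator (h.meas_R i)

lemma Wf_nonneg {f : E → ℝ} (hf : ∀ x, 0 ≤ f x) (ω : Ω) : 0 ≤ Wf y R f ω :=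
  Finset.sum_nonneg fun _ _ => Set.indicator_nonneg (fun _ _ => hf _) ω

lemma Wf_ofReal {f : E → ℝ} (hf : ∀ x, 0 ≤ f x) (ω : Ω) :
    ENNReal.ofReal (Wf y R f ω) =
      ∑ i, (R i).indicator (fun ω => ENNReal.ofReal (f (y i ω))) ω := by
  unfold Wf
  rw [ENNReal.ofReal_sum_of_nonneg (fun i _ => Set.indicator_nonneg (fun ω _ => hf _) ω)]
  refine Finset.sum_congr rfl fun i _ => ?_
  by_cases hi : ω ∈ R i
  · rw [Set.indicator_of_mem hi, Set.indicator_of_mem hi]
  · rw [Set.indicator_of_notMem hi, Set.indicator_of_notMem hi, ENNReal.ofReal_zero]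

lemma Wf_lint (h : IsProc a D₀ v D κ P y R) {f : E → ℝ} (hf : Measurable f)
    (hf0 : ∀ x, 0 ≤ f x) (hκ0 : ∀ x, 0 ≤ κ x) (hi : Integrable (fun x => κ x * f x)) :
    ∫⁻ ω, ENNReal.ofReal (Wf y R f ω) ∂P = ENNReal.ofReal (∫ x, κ x * f x) := by
  simp_rw [Wf_ofReal hf0]
  have hms : ∀ i ∈ Finset.univ, Measurable fun ω =>
      (R i).indicator (fun ω => ENNReal.ofReal (f (y i ω))) ω := fun i _ =>
    Measurable.indicator (hf.comp (h.meas_y i)).ennreal_ofReal (h.meas_R i)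
  rw [lintegral_finsetSum _ hms]
  have e1 : ∀ i, ∫⁻ ω, (R i).indicator (fun ω => ENNReal.ofReal (f (y i ω))) ω ∂P =
      ∫⁻ ω in R i, ENNReal.ofReal (f (y i ω)) ∂P := fun i =>
    lintegral_indicator (h.meas_R i) _
  rw [Finset.sum_congr rfl fun i _ => e1 i, h.int1 (fun x => ENNReal.ofReal (f x))
    hf.ennreal_ofReal, ofReal_integral_eq_lintegral_ofReal hi
    (Eventually.of_forall fun x => mul_nonneg (hκ0 x) (hf0 x))]
  refine lintegral_congr fun x => ?_
  rw [ENNReal.ofReal_mul (hκ0 x)]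

lemma Wf_int (h : IsProc a D₀ v D κ P y R) {f : E → ℝ} (hf : Measurable f)
    (hf0 : ∀ x, 0 ≤ f x) (hκ0 : ∀ x, 0 ≤ κ x) (hi : Integrable (fun x => κ x * f x)) :
    Integrable (Wf y R f) P ∧ ∫ ω, Wf y R f ω ∂P = ∫ x, κ x * f x := by
  have h1 := Wf_lint h hf hf0 hκ0 hi
  constructor
  · rw [← lintegral_ofReal_ne_top_iff_integrable (Wf_meas h hf).aestronglyMeasurable
      (Eventually.of_forall (Wf_nonneg hf0)), h1]
    exact ENNReal.ofReal_ne_top
  · rw [integral_eq_lintegral_of_nonneg_ae (Eventually.of_forall (Wf_nonneg hf0))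
      (Wf_meas h hf).aestronglyMeasurable, h1, ENNReal.toReal_ofReal]
    exact integral_nonneg fun x => mul_nonneg (hκ0 x) (hf0 x)

/-- deviation of a linear statistic -/
lemma Wf_dev [IsProbabilityMeasure P] (h : IsProc a D₀ v D κ P y R) {f : E → ℝ} {b C M s : ℝ}
    (hf : Measurable f) (hf0 : ∀ x, 0 ≤ f x) (hκ0 : ∀ x, 0 ≤ κ x)
    (hκi : Integrable κ) (hM : ∫ x, κ x = M) (hi : Integrable (fun x => κ x * f x))
    (hC : 0 ≤ C) (hs : 0 < s)
    (hm : ∫⁻ ω, (∑ i, (R i).indicator (fun ω => ENNReal.ofReal (f (y i ω))) ω) ^ 2 ∂P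
      ≤ (∫⁻ x, ENNReal.ofReal (κ x) * ENNReal.ofReal (f x)) ^ 2
        + ENNReal.ofReal (C * b ^ 2) * ∫⁻ x, ENNReal.ofReal (κ x)) :
    P.real {ω | s ≤ |Wf y R f ω - ∫ x, κ x * f x|} ≤ C * b ^ 2 * M / s ^ 2 := by
  have hM0 : 0 ≤ M := by rw [← hM]; exact integral_nonneg hκ0
  have hw0 : 0 ≤ ∫ x, κ x * f x := integral_nonneg fun x => mul_nonneg (hκ0 x) (hf0 x)
  refine cheb P (Wf y R f) (Wf_meas h hf) (Wf_nonneg hf0) _ _ s hw0 (by positivity) hs
    (Wf_lint h hf hf0 hκ0 hi) ?_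
  have e1 : ∀ ω, ENNReal.ofReal (Wf y R f ω ^ 2) =
      (∑ i, (R i).indicator (fun ω => ENNReal.ofReal (f (y i ω))) ω) ^ 2 := by
    intro ω
    rw [ENNReal.ofReal_pow (Wf_nonneg hf0 ω), Wf_ofReal hf0]
  simp_rw [e1]
  refine hm.trans (le_of_eq ?_)
  have e2 : ∫⁻ x, ENNReal.ofReal (κ x) * ENNReal.ofReal (f x) =
      ENNReal.ofReal (∫ x, κ x * f x) := by
    rw [ofReal_integral_eq_lintegral_ofReal hi
      (Eventually.of_forall fun x => mul_nonneg (hκ0 x) (hf0 x))]
    exact lintegral_congr fun x => (ENNReal.ofReal_mul (hκ0 x)).symm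
  have e3 : ∫⁻ x, ENNReal.ofReal (κ x) = ENNReal.ofReal M := by
    rw [← hM, ofReal_integral_eq_lintegral_ofReal hκi (Eventually.of_forall hκ0)]
  rw [e2, e3, ← ENNReal.ofReal_pow hw0, ← ENNReal.ofReal_mul (by positivity),
    ← ENNReal.ofReal_add (by positivity) (by positivity)]

/-- pair statistic -/
noncomputable def Pr (y : I → Ω → E) (R : I → Set Ω) (ω : Ω) : ℝ :=
  ∑ i, ∑ j, (R i ∩ R j).indicator (fun ω => ‖y i ω - y j ω‖⁻¹) ω

lemma Pr_meas (h : IsProc a D₀ v D κ P y R) : Measurable (Pr y R) := by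
  unfold Pr
  exact Finset.measurable_sum _ fun i _ => Finset.measurable_sum _ fun j _ =>
    (((h.meas_y i).sub (h.meas_y j)).norm.inv).indicator ((h.meas_R i).inter (h.meas_R j))

lemma Pr_nonneg (ω : Ω) : 0 ≤ Pr y R ω :=
  Finset.sum_nonneg fun i _ => Finset.sum_nonneg fun j _ =>
    Set.indicator_nonneg (fun ω _ => by positivity) ω

lemma Pr_ofReal (ω : Ω) : ENNReal.ofReal (Pr y R ω) = ∑ i, ∑ j ∈ Finset.univ.erase i,
    (R i ∩ R j).indicator (fun ω => ENNReal.ofReal ‖y i ω - y j ω‖⁻¹) ω := by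
  unfold Pr
  rw [ENNReal.ofReal_sum_of_nonneg (fun i _ => Finset.sum_nonneg fun j _ =>
    Set.indicator_nonneg (fun ω _ => by positivity) ω)]
  refine Finset.sum_congr rfl fun i _ => ?_
  rw [← Finset.add_sum_erase Finset.univ _ (Finset.mem_univ i)]
  have h0 : (R i ∩ R i).indicator (fun ω => ‖y i ω - y i ω‖⁻¹) ω = 0 := by
    simp
  rw [h0, zero_add, ENNReal.ofReal_sum_of_nonneg (fun j _ =>
    Set.indicator_nonneg (fun ω _ => by positivity) ω)]
  refine Finset.sum_congr rfl fun j _ => ?_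
  by_cases hi : ω ∈ R i ∩ R j
  · rw [Set.indicator_of_mem hi, Set.indicator_of_mem hi]
  · rw [Set.indicator_of_notMem hi, Set.indicator_of_notMem hi, ENNReal.ofReal_zero]

/-- the energy of the enumerated configuration -/
lemma En_enum (F : E → ℝ) (ω : Ω) {n : ℕ} (e : Fin n → I) (he : Function.Injective e)
    (hS : ∀ i, ω ∈ R i ↔ i ∈ Set.range e) :
    En F (fun j => y (e j) ω) = (1 / 2) * Pr y R ω + Wf y R (pot F) ω + (1 / 2) * Dfm F F ∧
    ∑ j, pot F (y (e j) ω) = Wf y R (pot F) ω ∧ (n : ℝ) = Wf y R (fun _ => 1) ω := by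
  have hS' : ∀ i, i ∈ {i | ω ∈ R i} ↔ i ∈ Set.range e := hS
  have k1 : ∀ g : E → ℝ, ∑ j, g (y (e j) ω) = Wf y R g ω := by
    intro g
    rw [sum_enum {i | ω ∈ R i} e he hS' (fun i => g (y i ω))]
    unfold Wf
    refine Finset.sum_congr rfl fun i _ => ?_
    by_cases hi : ω ∈ R i
    · rw [Set.indicator_of_mem hi, Set.indicator_of_mem (show i ∈ {i | ω ∈ R i} from hi)]
    · rw [Set.indicator_of_notMem hi, Set.indicator_of_notMem (show i ∉ {i | ω ∈ R i} from hi)]
  have k2 : pairE (fun j => y (e j) ω) = (1 / 2) * Pr y R ω := by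
    rw [pairE_eq]
    congr 1
    rw [sum_enum {i | ω ∈ R i} e he hS' (fun i => ∑ j, ‖y i ω - y (e j) ω‖⁻¹)]
    unfold Pr
    refine Finset.sum_congr rfl fun i _ => ?_
    by_cases hi : ω ∈ R i
    · rw [Set.indicator_of_mem (show i ∈ {i | ω ∈ R i} from hi),
        sum_enum {i | ω ∈ R i} e he hS' (fun j => ‖y i ω - y j ω‖⁻¹)]
      refine Finset.sum_congr rfl fun j _ => ?_
      by_cases hj : ω ∈ R j
      · rw [Set.indicator_of_mem (show j ∈ {i | ω ∈ R i} from hj),
          Set.indicator_of_mem (show ω ∈ R i ∩ R j from ⟨hi, hj⟩)]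
      · rw [Set.indicator_of_notMem (show j ∉ {i | ω ∈ R i} from hj),
          Set.indicator_of_notMem (show ω ∉ R i ∩ R j from fun h => hj h.2)]
    · rw [Set.indicator_of_notMem (show i ∉ {i | ω ∈ R i} from hi)]
      symm
      refine Finset.sum_eq_zero fun j _ => ?_
      rw [Set.indicator_of_notMem (show ω ∉ R i ∩ R j from fun h => hi h.1)]
  refine ⟨?_, k1 _, ?_⟩
  · unfold En
    rw [k2, k1]
  · rw [← k1 (fun _ => 1)]
    simp

end proc

/-! ### potentials -/

lemma adm_integrable {F : E → ℝ} (h : Adm F) : Integrable F := by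
  obtain ⟨b, hb⟩ := h.bdd
  obtain ⟨r, hr⟩ := h.supp
  have h1 : IntegrableOn F (cB 0 r) :=
    Measure.integrableOn_of_bounded (M := b) (isCompact_closedBall (0 : E) r).measure_lt_top.ne
      h.meas.aestronglyMeasurable (Eventually.of_forall fun x => by
        rw [Real.norm_eq_abs]; exact hb x)
  rwa [integrableOn_iff_integrable_of_support_subset] at h1
  intro x hx
  rw [mem_closedBall_zero_iff]
  by_contra hc
  exact hx (hr x (not_le.1 hc))

lemma adm_mul {F g : E → ℝ} (h : Adm F) (hg : Measurable g) {B : ℝ} (hB : ∀ x, |g x| ≤ B) :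
    Adm (fun x => F x * g x) := by
  obtain ⟨b, hb⟩ := h.bdd
  obtain ⟨r, hr⟩ := h.supp
  refine ⟨h.meas.mul hg, ⟨b * B, fun x => ?_⟩, ⟨r, fun x hx => by rw [hr x hx, zero_mul]⟩⟩
  rw [abs_mul]
  exact mul_le_mul (hb x) (hB x) (abs_nonneg _) ((abs_nonneg _).trans (hb x))

lemma adm_smul {F : E → ℝ} (h : Adm F) (c : ℝ) : Adm (fun x => c * F x) := by
  have := adm_mul h (measurable_const (a := c)) (B := |c|) (fun x => le_refl _)
  simpa [mul_comm] using this

lemma adm_add {F G : E → ℝ} (hF : Adm F) (hG : Adm G) : Adm (fun x => F x + G x) := by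
  obtain ⟨b, hb⟩ := hF.bdd
  obtain ⟨r, hr⟩ := hF.supp
  obtain ⟨b', hb'⟩ := hG.bdd
  obtain ⟨r', hr'⟩ := hG.supp
  refine ⟨hF.meas.add hG.meas, ⟨b + b', fun x => (abs_add_le _ _).trans
    (add_le_add (hb x) (hb' x))⟩, ⟨max r r', fun x hx => ?_⟩⟩
  rw [hr x ((le_max_left _ _).trans_lt hx), hr' x ((le_max_right _ _).trans_lt hx), add_zero]

lemma pot_smul (F : E → ℝ) (c : ℝ) (x : E) : pot (fun y => c * F y) x = c * pot F x := by
  unfold pot
  rw [← integral_const_mul]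
  refine integral_congr_ae (Eventually.of_forall fun y => ?_)
  simp only
  ring

lemma Dfm_smul_left (F G : E → ℝ) (c : ℝ) : Dfm (fun y => c * F y) G = c * Dfm F G := by
  unfold Dfm
  rw [← integral_const_mul]
  refine integral_congr_ae (Eventually.of_forall fun y => ?_)
  simp only
  ring

lemma Dfm_smul_right (F G : E → ℝ) (c : ℝ) : Dfm F (fun y => c * G y) = c * Dfm F G := by
  unfold Dfm
  rw [← integral_const_mul]
  refine integral_congr_ae (Eventually.of_forall fun y => ?_)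
  simp only [pot_smul]
  ring

/-- the quadratic form of `u κ + F` -/
lemma Dfm_quad (hPot : Stmt_Pot) {κ F : E → ℝ} (hκ : Adm κ) (hF : Adm F) (u : ℝ) :
    Dfm (fun x => u * κ x + F x) (fun x => u * κ x + F x) =
      u ^ 2 * Dfm κ κ + 2 * u * Dfm κ F + Dfm F F := by
  obtain ⟨-, -, -, -, hsym, -, hl, hr⟩ := hPot
  have hu := adm_smul hκ u
  have hs := adm_add hu hF
  rw [hl _ _ _ hu hF hs, hr _ _ _ hu hF hu, hr _ _ _ hu hF hF, hsym F _ hF hu,
    Dfm_smul_left, Dfm_smul_right, Dfm_smul_left]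
  ring

lemma lint_pot (hPot : Stmt_Pot) {κ : E → ℝ} (hκ : Adm κ) (hκ0 : ∀ x, 0 ≤ κ x) {b : ℝ}
    (hb : ∀ x, |pot κ x| ≤ b) :
    (∫⁻ x, ∫⁻ x', ENNReal.ofReal (κ x) * ENNReal.ofReal (κ x') * ENNReal.ofReal ‖x - x'‖⁻¹)
      = ENNReal.ofReal (Dfm κ κ) := by
  obtain ⟨hm, hi, -⟩ := hPot
  have hp0 : ∀ x, 0 ≤ pot κ x := fun x =>
    integral_nonneg fun y => mul_nonneg (hκ0 y) (by positivity)
  have e1 : ∀ x, ∫⁻ x', ENNReal.ofReal (κ x) * ENNReal.ofReal (κ x') * ENNReal.ofReal ‖x - x'‖⁻¹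
      = ENNReal.ofReal (κ x * pot κ x) := by
    intro x
    have : ∀ x', ENNReal.ofReal (κ x) * ENNReal.ofReal (κ x') * ENNReal.ofReal ‖x - x'‖⁻¹ =
        ENNReal.ofReal (κ x) * ENNReal.ofReal (κ x' * ‖x - x'‖⁻¹) := by
      intro x'
      rw [ENNReal.ofReal_mul (hκ0 x'), mul_assoc]
    simp_rw [this]
    rw [lintegral_const_mul' _ _ ENNReal.ofReal_ne_top, ENNReal.ofReal_mul (hκ0 x)]
    congr 1
    exact (ofReal_integral_eq_lintegral_ofReal (hi κ hκ x)
      (Eventually.of_forall fun y => mul_nonneg (hκ0 y) (by positivity))).symm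
  simp_rw [e1]
  exact (ofReal_integral_eq_lintegral_ofReal
    (adm_integrable (adm_mul hκ (hm κ hκ) hb))
    (Eventually.of_forall fun y => mul_nonneg (hκ0 y) (hp0 y))).symm

lemma THyp.adm {ρ₁ bF : ℝ} {D : Set E} {κ F : E → ℝ} {N : ℕ} {b A₀ E₀ : ℝ}
    (h : THyp ρ₁ bF D κ F N b A₀ E₀) : Adm κ := by
  refine ⟨h.hκ, ⟨ρ₁, fun x => ?_⟩, ?_⟩
  · rw [abs_of_nonneg (h.hκb x).1]
    exact (h.hκb x).2
  · obtain ⟨r, hr⟩ := h.hD.2.subset_closedBall (0 : E)
    refine ⟨r, fun x hx => h.hκD x fun hxD => ?_⟩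
    have := hr hxD
    rw [mem_closedBall_zero_iff] at this
    exact absurd this (not_le.2 hx)

section main

variable {a D₀ v ρ₁ bF : ℝ} {D : Set E} {κ F : E → ℝ} {N : ℕ} {b A₀ E₀ η Cm : ℝ}
  {Ω : Type} [MeasurableSpace Ω] {P : Measure Ω}
  {I : Type} [Fintype I] [DecidableEq I] {y : I → Ω → E} {R : I → Set Ω}

/-- modified energy -/
noncomputable def Zf (y : I → Ω → E) (R : I → Set Ω) (F : E → ℝ) (c₀ : ℝ) (ω : Ω) : ℝ :=
  (1 / 2) * Pr y R ω + Wf y R (pot F) ω + (1 / 2) * Dfm F F + c₀ * Wf y R (fun _ => 1) ω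

lemma Zf_nonneg (hStab : Stmt_Stab) (ha : 0 < a) (hbF : 0 ≤ bF) (hF : Adm F)
    (hFb : ∀ x, |F x| ≤ bF) (h : IsProc a D₀ v D κ P y R) (ω : Ω) :
    0 ≤ Zf y R F (C0 a bF) ω := by
  obtain ⟨n, e, he, hS⟩ := exists_enum {i | ω ∈ R i}
  have hS' : ∀ i, ω ∈ R i ↔ i ∈ Set.range e := hS
  obtain ⟨h1, -, h3⟩ := En_enum F ω e he hS'
  have hHC : HC a (fun j => y (e j) ω) := by
    intro i j hij
    exact h.hc _ _ (fun h => hij (he h)) ω ((hS' _).2 ⟨i, rfl⟩) ((hS' _).2 ⟨j, rfl⟩)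
  have h4 := hStab.1 a bF F ha hbF hF hFb n _ hHC
  rw [h1, h3] at h4
  unfold Zf
  linarith

lemma Zf_int (hPot : Stmt_Pot) (hStab : Stmt_Stab) [IsProbabilityMeasure P]
    (hT : THyp ρ₁ bF D κ F N b A₀ E₀) (hη : 0 ≤ η) (hCm : 0 ≤ Cm) (c₀ : ℝ)
    (h : IsProc a D₀ v D (fun x => (1 + η) * κ x) P y R)
    (hm : ∫⁻ ω, ∑ i, ∑ j ∈ Finset.univ.erase i,
      (R i ∩ R j).indicator (fun ω => ENNReal.ofReal ‖y i ω - y j ω‖⁻¹) ω ∂P
      ≤ (∫⁻ x, ∫⁻ x', ENNReal.ofReal ((1 + η) * κ x) * ENNReal.ofReal ((1 + η) * κ x') *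
          ENNReal.ofReal ‖x - x'‖⁻¹)
        + ENNReal.ofReal Cm * ∫⁻ x, ENNReal.ofReal ((1 + η) * κ x)) :
    Integrable (Zf y R F c₀) P ∧ ∫ ω, Zf y R F c₀ ω ∂P ≤
      E₀ + η ^ 2 * (b * N) + (1 / 2) * (Cm * ((1 + η) * N)) + c₀ * ((1 + η) * N) := by
  have hκA := THyp.adm hT
  have hκi := adm_integrable hκA
  have hκ'A := adm_smul hκA (1 + η)
  have hκ'i := adm_integrable hκ'A
  have hκ'0 : ∀ x, 0 ≤ (1 + η) * κ x := fun x => mul_nonneg (by linarith) (hT.hκb x).1
  have hM : ∫ x, (1 + η) * κ x = (1 + η) * N := by rw [integral_const_mul, hT.hN]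
  have hpm : Measurable (pot F) := hPot.1 F hT.hF
  have hpb : ∀ x, |pot ((fun x => (1 + η) * κ x)) x| ≤ (1 + η) * b := by
    intro x
    rw [pot_smul, abs_mul, abs_of_nonneg (by linarith : 0 ≤ 1 + η)]
    exact mul_le_mul_of_nonneg_left (hT.hpκ x) (by linarith)
  -- pair statistic
  have hK2 : 0 ≤ Dfm (fun x => (1 + η) * κ x) (fun x => (1 + η) * κ x) := hStab.2 _ hκ'A
  have p1 : ∫⁻ ω, ENNReal.ofReal (Pr y R ω) ∂P ≤ ENNReal.ofReal
      (Dfm (fun x => (1 + η) * κ x) (fun x => (1 + η) * κ x) + Cm * ((1 + η) * N)) := by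
    simp_rw [Pr_ofReal]
    refine hm.trans (le_of_eq ?_)
    rw [lint_pot hPot hκ'A hκ'0 hpb, ENNReal.ofReal_add hK2 (by positivity),
      ENNReal.ofReal_mul hCm, ← hM, ofReal_integral_eq_lintegral_ofReal hκ'i
      (Eventually.of_forall hκ'0)]
  have p2 : Integrable (Pr y R) P := by
    rw [← lintegral_ofReal_ne_top_iff_integrable (Pr_meas h).aestronglyMeasurable
      (Eventually.of_forall Pr_nonneg)]
    exact ne_top_of_le_ne_top ENNReal.ofReal_ne_top p1
  have p3 : ∫ ω, Pr y R ω ∂P ≤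
      Dfm (fun x => (1 + η) * κ x) (fun x => (1 + η) * κ x) + Cm * ((1 + η) * N) := by
    rw [integral_eq_lintegral_of_nonneg_ae (Eventually.of_forall Pr_nonneg)
      (Pr_meas h).aestronglyMeasurable]
    exact ENNReal.toReal_le_of_le_ofReal (by positivity) p1
  -- linear statistics
  have q1 := Wf_int h (measurable_const (a := (1 : ℝ))) (fun _ => zero_le_one) hκ'0
    (by simpa using hκ'i)
  have hfb : ∀ x, 0 ≤ pot F x + b := fun x => by
    have := neg_le_of_abs_le (hT.hpF x); linarith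
  have hKF : Integrable (fun x => (1 + η) * κ x * pot F x) :=
    adm_integrable (adm_mul hκ'A hpm hT.hpF)
  have q2 := Wf_int h (hpm.add_const b) hfb hκ'0 (by
    have : (fun x => (1 + η) * κ x * (pot F x + b)) =
        fun x => (1 + η) * κ x * pot F x + (1 + η) * κ x * b := by
      funext x; ring
    rw [this]
    exact hKF.add (hκ'i.mul_const b))
  have q3 : ∀ ω, Wf y R (pot F) ω = Wf y R (fun x => pot F x + b) ω -
      b * Wf y R (fun _ => 1) ω := by
    intro ω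
    unfold Wf
    rw [Finset.mul_sum, ← Finset.sum_sub_distrib]
    refine Finset.sum_congr rfl fun i _ => ?_
    by_cases hi : ω ∈ R i
    · rw [Set.indicator_of_mem hi, Set.indicator_of_mem hi, Set.indicator_of_mem hi]
      ring
    · rw [Set.indicator_of_notMem hi, Set.indicator_of_notMem hi, Set.indicator_of_notMem hi]
      ring
  have q4 : Integrable (Wf y R (pot F)) P := by
    have : Wf y R (pot F) = fun ω => Wf y R (fun x => pot F x + b) ω -
      b * Wf y R (fun _ => 1) ω := funext q3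
    rw [this]
    exact q2.1.sub (q1.1.const_mul b)
  have q5 : ∫ ω, Wf y R (pot F) ω ∂P = (1 + η) * Dfm κ F := by
    simp_rw [q3]
    rw [integral_sub q2.1 (q1.1.const_mul b), integral_const_mul, q1.2, q2.2]
    have e1 : (∫ x, (1 + η) * κ x * (pot F x + b)) =
        (∫ x, (1 + η) * κ x * pot F x) + (∫ x, (1 + η) * κ x) * b := by
      rw [← integral_mul_const, ← integral_add hKF (hκ'i.mul_const b)]
      refine integral_congr_ae (Eventually.of_forall fun x => ?_)
      simp only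
      ring
    have e2 : (∫ x, (1 + η) * κ x * pot F x) = (1 + η) * Dfm κ F := by
      unfold Dfm
      rw [← integral_const_mul]
      refine integral_congr_ae (Eventually.of_forall fun x => ?_)
      simp only
      ring
    rw [e1, e2]
    simp only [mul_one]
    ring
  have q6 : ∫ ω, Wf y R (fun _ => (1 : ℝ)) ω ∂P = (1 + η) * N := by
    rw [q1.2, ← hM]
    simp
  have hZi : Integrable (Zf y R F c₀) P := by
    unfold Zf
    exact (((p2.const_mul _).add q4).add (integrable_const _)).add (q1.1.const_mul c₀)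
  refine ⟨hZi, ?_⟩
  have eZ : ∫ ω, Zf y R F c₀ ω ∂P = (1 / 2) * (∫ ω, Pr y R ω ∂P) + (1 + η) * Dfm κ F +
      (1 / 2) * Dfm F F + c₀ * ((1 + η) * N) := by
    unfold Zf
    have i1 : Integrable (fun ω => (1 / 2) * Pr y R ω + Wf y R (pot F) ω) P :=
      (p2.const_mul _).add q4
    have i2 : Integrable (fun ω => (1 / 2) * Pr y R ω + Wf y R (pot F) ω +
        (1 / 2) * Dfm F F) P := i1.add (integrable_const _)
    rw [integral_add i2 (q1.1.const_mul c₀), integral_add i1 (integrable_const _),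
      integral_add (p2.const_mul _) q4, integral_const_mul, integral_const_mul c₀, q5, q6,
      integral_const]
    simp
  have hD1 := Dfm_quad hPot hκA hT.hF (1 + η)
  have hD2 := Dfm_quad hPot hκA hT.hF 1
  have hD3 := Dfm_quad hPot hκA hT.hF (1 - η)
  have hE' : Dfm (fun x => 1 * κ x + F x) (fun x => 1 * κ x + F x) ≤ E₀ := by
    simpa using hT.hE
  have hpos : 0 ≤ Dfm (fun x => (1 - η) * κ x + F x) (fun x => (1 - η) * κ x + F x) :=
    hStab.2 _ (adm_add (adm_smul hκA (1 - η)) hT.hF)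
  have hK : Dfm κ κ ≤ b * N := by
    have : Dfm κ κ ≤ ∫ x, κ x * b := by
      unfold Dfm
      refine integral_mono (adm_integrable (adm_mul hκA (hPot.1 κ hκA) hT.hpκ))
        (hκi.mul_const b) fun x => ?_
      exact mul_le_mul_of_nonneg_left ((le_abs_self _).trans (hT.hpκ x)) (hT.hκb x).1
    rw [integral_mul_const, hT.hN] at this
    linarith
  have hK2' : Dfm (fun x => (1 + η) * κ x) (fun x => (1 + η) * κ x) =
      (1 + η) ^ 2 * Dfm κ κ := by
    rw [Dfm_smul_left, Dfm_smul_right]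
    ring
  rw [hK2'] at p3
  rw [eZ]
  rw [hD2] at hE'
  rw [hD3] at hpos
  have hη2 : η ^ 2 * Dfm κ κ ≤ η ^ 2 * (b * N) := mul_le_mul_of_nonneg_left hK (sq_nonneg _)
  have key : (1 + η) ^ 2 * Dfm κ κ + 2 * (1 + η) * Dfm κ F + Dfm F F =
      2 * (1 ^ 2 * Dfm κ κ + 2 * 1 * Dfm κ F + Dfm F F) + 2 * (η ^ 2 * Dfm κ κ) -
      ((1 - η) ^ 2 * Dfm κ κ + 2 * (1 - η) * Dfm κ F + Dfm F F) := by ring
  linarith

lemma Wf_shift (f : E → ℝ) (ω : Ω) (b : ℝ) : Wf y R (fun x => f x + b) ω =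
    Wf y R f ω + b * Wf y R (fun _ => 1) ω := by
  unfold Wf
  rw [Finset.mul_sum, ← Finset.sum_add_distrib]
  refine Finset.sum_congr rfl fun i _ => ?_
  by_cases hi : ω ∈ R i
  · rw [Set.indicator_of_mem hi, Set.indicator_of_mem hi, Set.indicator_of_mem hi]
    ring
  · rw [Set.indicator_of_notMem hi, Set.indicator_of_notMem hi, Set.indicator_of_notMem hi]
    ring

lemma goodC_meas (hMeas : Stmt_Meas) (hPot : Stmt_Pot) (hF : Adm F) (hD : MeasurableSet D)
    (n : ℕ) (E₁ A₁ : ℝ) : MeasurableSet (goodC a F D n E₁ A₁) := by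
  have h1 := hMeas.2.1 a D n hD
  have h2 := hMeas.1 F n hF
  have h3 : Measurable (fun X : Fin n → E => (∑ i, pot F (X i)) + Dfm F F) :=
    (Finset.measurable_sum _ fun i _ => (hPot.1 F hF).comp (measurable_pi_apply i)).add_const _
  exact h1.inter ((measurableSet_le h2 measurable_const).inter
    (measurableSet_le h3 measurable_const))

lemma goodC_fin (hD : BM D) (n : ℕ) (E₁ A₁ : ℝ) : volume (goodC a F D n E₁ A₁) ≠ ⊤ := by
  have h1 : goodC a F D n E₁ A₁ ⊆ Set.pi univ (fun _ => D) := fun X hX i _ => hX.1.2 i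
  refine ne_top_of_le_ne_top ?_ (measure_mono h1)
  rw [volume_pi_pi]
  exact ENNReal.prod_ne_top fun i _ => hD.2.measure_lt_top.ne

/-- the event of having exactly `n` points, in good position -/
def Bk (y : I → Ω → E) (R : I → Set Ω) (n : ℕ) (G : Set (Fin n → E)) : Set Ω :=
  {ω | ∃ e : Fin n → I, Function.Injective e ∧ (∀ i, ω ∈ R i ↔ i ∈ Set.range e) ∧
        (fun j => y (e j) ω) ∈ G}

lemma core (hMeas : Stmt_Meas) (hPot : Stmt_Pot) (hStab : Stmt_Stab) [IsProbabilityMeasure P]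
    (ha : 0 < a) (hbF : 0 ≤ bF) (hv : 1 ≤ v) (hT : THyp ρ₁ bF D κ F N b A₀ E₀) (hN : 1 ≤ N)
    (hCm : 1 ≤ Cm) {s : ℝ} (hs : 0 < s) (hs2 : s ^ 2 = 16 * (Cm * N)) (hsN : s ≤ N)
    (h : IsProc a D₀ v D (fun x => (1 + s / N) * κ x) P y R)
    (hm1 : ∀ (f : E → ℝ) (b : ℝ), Measurable f → (∀ x, 0 ≤ f x ∧ f x ≤ b) →
      ∫⁻ ω, (∑ i, (R i).indicator (fun ω => ENNReal.ofReal (f (y i ω))) ω) ^ 2 ∂P
      ≤ (∫⁻ x, ENNReal.ofReal ((1 + s / N) * κ x) * ENNReal.ofReal (f x)) ^ 2
        + ENNReal.ofReal (Cm * b ^ 2) * ∫⁻ x, ENNReal.ofReal ((1 + s / N) * κ x))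
    (hm2 : ∫⁻ ω, ∑ i, ∑ j ∈ Finset.univ.erase i,
      (R i ∩ R j).indicator (fun ω => ENNReal.ofReal ‖y i ω - y j ω‖⁻¹) ω ∂P
      ≤ (∫⁻ x, ∫⁻ x', ENNReal.ofReal ((1 + s / N) * κ x) *
          ENNReal.ofReal ((1 + s / N) * κ x') * ENNReal.ofReal ‖x - x'‖⁻¹)
        + ENNReal.ofReal Cm * ∫⁻ x, ENNReal.ofReal ((1 + s / N) * κ x))
    {E₁ A₁ : ℝ} (hE₁ : 8 * (E₀ + 16 * Cm * b + Cm * N + 2 * C0 a bF * N + 1) ≤ E₁)
    (hA₁ : A₀ + 4 * s * b ≤ A₁) :
    ∃ k : ℕ, (k : ℝ) ≤ 2 * s ∧ ((N + k).factorial : ℝ) ≤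
      v ^ (N + k) * (2 * (2 * s + 1)) * volume.real (goodC a F D (N + k) E₁ A₁) := by
  have hN0 : (0 : ℝ) < N := by exact_mod_cast hN
  have hCm0 : 0 < Cm := by linarith
  have hc₀ : 0 ≤ C0 a bF := by unfold C0; positivity
  set η : ℝ := s / N with hηdef
  have hη0 : 0 < η := by positivity
  have hηN : η * N = s := by rw [hηdef]; field_simp
  have hη1 : η ≤ 1 := by rw [hηdef, div_le_one hN0]; exact hsN
  have hMe : (1 + η) * N = N + s := by rw [add_mul, hηN, one_mul]
  have hη2 : η ^ 2 * N = 16 * Cm := by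
    have : η ^ 2 * N * N = 16 * Cm * N := by
      calc η ^ 2 * N * N = (η * N) ^ 2 := by ring
        _ = 16 * Cm * N := by rw [hηN, hs2]; ring
    exact mul_right_cancel₀ hN0.ne' this
  have hκA := THyp.adm hT
  have hκi := adm_integrable hκA
  have hκ'A := adm_smul hκA (1 + η)
  have hκ'i := adm_integrable hκ'A
  have hκ'0 : ∀ x, 0 ≤ (1 + η) * κ x := fun x => mul_nonneg (by linarith) (hT.hκb x).1
  have hM : ∫ x, (1 + η) * κ x = N + s := by rw [integral_const_mul, hT.hN, hMe]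
  have hpm : Measurable (pot F) := hPot.1 F hT.hF
  -- the number of points
  have hA1 : P.real {ω | s ≤ |Wf y R (fun _ => 1) ω - ∫ x, (1 + η) * κ x * 1|} ≤ 1 / 8 := by
    refine (Wf_dev h (measurable_const (a := (1 : ℝ))) (fun _ => zero_le_one) hκ'0 hκ'i hM
      (by simpa using hκ'i) hCm0.le hs (hm1 _ 1 measurable_const
        (fun x => ⟨zero_le_one, le_refl _⟩))).trans ?_
    rw [div_le_iff₀ (by positivity), hs2]
    nlinarith
  have hI1 : ∫ x, (1 + η) * κ x * 1 = N + s := by simpa using hM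
  rw [hI1] at hA1
  -- the linear statistic
  have hfb : ∀ x, 0 ≤ pot F x + b := fun x => by
    have := neg_le_of_abs_le (hT.hpF x); linarith
  have hfb2 : ∀ x, pot F x + b ≤ 2 * b := fun x => by
    have := le_of_abs_le (hT.hpF x); linarith
  have hKF : Integrable (fun x => (1 + η) * κ x * pot F x) :=
    adm_integrable (adm_mul hκ'A hpm hT.hpF)
  have hKFb : Integrable (fun x => (1 + η) * κ x * (pot F x + b)) := by
    have : (fun x => (1 + η) * κ x * (pot F x + b)) =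
        fun x => (1 + η) * κ x * pot F x + (1 + η) * κ x * b := by
      funext x; ring
    rw [this]
    exact hKF.add (hκ'i.mul_const b)
  have hI2 : ∫ x, (1 + η) * κ x * (pot F x + b) = (1 + η) * Dfm κ F + (N + s) * b := by
    have e1 : (∫ x, (1 + η) * κ x * (pot F x + b)) =
        (∫ x, (1 + η) * κ x * pot F x) + (∫ x, (1 + η) * κ x) * b := by
      rw [← integral_mul_const, ← integral_add hKF (hκ'i.mul_const b)]
      refine integral_congr_ae (Eventually.of_forall fun x => ?_)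
      simp only
      ring
    have e2 : (∫ x, (1 + η) * κ x * pot F x) = (1 + η) * Dfm κ F := by
      unfold Dfm
      rw [← integral_const_mul]
      refine integral_congr_ae (Eventually.of_forall fun x => ?_)
      simp only
      ring
    rw [e1, e2, hM]
  have hA2 : P.real {ω | 2 * s * b < |Wf y R (fun x => pot F x + b) ω -
      ((1 + η) * Dfm κ F + (N + s) * b)|} ≤ 1 / 8 := by
    rcases hT.hb.eq_or_lt with hb0 | hb0
    · have : {ω | 2 * s * b < |Wf y R (fun x => pot F x + b) ω -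
          ((1 + η) * Dfm κ F + (N + s) * b)|} = ∅ := by
        have hz : ∀ x, pot F x + b = 0 := fun x => le_antisymm
          ((hfb2 x).trans (by rw [← hb0]; simp)) (hfb x)
        have hI3 := hI2
        simp_rw [hz] at hI3
        simp only [mul_zero, integral_zero] at hI3
        rw [← hI3]
        have hW : ∀ ω, Wf y R (fun x => pot F x + b) ω = 0 := by
          intro ω
          unfold Wf
          refine Finset.sum_eq_zero fun i _ => ?_
          simp only [hz]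
          simp
        refine Set.eq_empty_iff_forall_notMem.2 fun ω hω => ?_
        simp only [mem_ofPred_eq] at hω
        rw [hW, sub_zero, abs_zero, ← hb0, mul_zero] at hω
        exact lt_irrefl _ hω
      rw [this]
      simp
    · have hb' : 0 < 2 * s * b := by positivity
      have := Wf_dev h (hpm.add_const b) hfb hκ'0 hκ'i hM hKFb hCm0.le hb'
        (hm1 _ (2 * b) (hpm.add_const b) (fun x => ⟨hfb x, hfb2 x⟩))
      rw [hI2] at this
      refine (measureReal_mono ?_).trans (this.trans ?_)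
      · intro ω hω
        simp only [mem_ofPred_eq] at hω ⊢
        exact hω.le
      · rw [div_le_iff₀ (by positivity)]
        have : (2 * s * b) ^ 2 = 64 * (Cm * N) * b ^ 2 := by
          rw [mul_pow, mul_pow, hs2]; ring
        rw [this]
        have hb2 : 0 < b ^ 2 := by positivity
        have : Cm * (2 * b) ^ 2 * (N + s) ≤ Cm * (2 * b) ^ 2 * (N + N) := by gcongr
        refine this.trans (le_of_eq ?_)
        ring
  -- the energy
  obtain ⟨hZi, hZ⟩ := Zf_int hPot hStab hT hη0.le hCm0.le (C0 a bF) h hm2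
  set z : ℝ := E₀ + η ^ 2 * (b * N) + (1 / 2) * (Cm * ((1 + η) * N)) +
    C0 a bF * ((1 + η) * N) + 1 with hz
  have hz0 : 0 < z := by
    have h1 := hT.hE0
    have h2 := hT.hb
    positivity
  have hA3 := markov P _ hZi (Zf_nonneg hStab ha hbF hT.hF hT.hFb h) z hz0
    (hZ.trans (by rw [hz]; linarith))
  have hzE : 8 * z ≤ E₁ := by
    refine le_trans ?_ hE₁
    have e1 : η ^ 2 * (b * N) = 16 * Cm * b := by
      calc η ^ 2 * (b * N) = η ^ 2 * N * b := by ring
        _ = _ := by rw [hη2]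
    have e2 : Cm * ((1 + η) * N) ≤ Cm * (2 * N) := by
      rw [hMe]; gcongr; linarith
    have e3 : C0 a bF * ((1 + η) * N) ≤ C0 a bF * (2 * N) := by
      rw [hMe]; gcongr; linarith
    rw [hz, e1]
    linarith
  -- covering
  set Kmax : ℕ := ⌊2 * s⌋₊ with hK
  have hcov : (univ : Set Ω) ⊆ (({ω | s ≤ |Wf y R (fun _ => 1) ω - (N + s)|} ∪
      {ω | 2 * s * b < |Wf y R (fun x => pot F x + b) ω -
      ((1 + η) * Dfm κ F + (N + s) * b)|}) ∪ {ω | 8 * z ≤ Zf y R F (C0 a bF) ω}) ∪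
      ⋃ k ∈ Finset.range (Kmax + 1), Bk y R (N + k) (goodC a F D (N + k) E₁ A₁) := by
    intro ω _
    by_cases h1 : s ≤ |Wf y R (fun _ => 1) ω - (N + s)|
    · exact Or.inl (Or.inl (Or.inl h1))
    by_cases h2 : 2 * s * b < |Wf y R (fun x => pot F x + b) ω -
      ((1 + η) * Dfm κ F + (N + s) * b)|
    · exact Or.inl (Or.inl (Or.inr h2))
    by_cases h3 : 8 * z ≤ Zf y R F (C0 a bF) ω
    · exact Or.inl (Or.inr h3)
    right
    obtain ⟨n, e, he, hS⟩ := exists_enum {i | ω ∈ R i}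
    have hS' : ∀ i, ω ∈ R i ↔ i ∈ Set.range e := hS
    obtain ⟨g1, g2, g3⟩ := En_enum F ω e he hS'
    rw [← g3] at h1
    rw [Wf_shift, ← g3] at h2
    have h1' := abs_lt.1 (not_le.1 h1)
    have h2' := abs_le.1 (not_lt.1 h2)
    have hnN : N ≤ n := by
      have : (N : ℝ) ≤ n := by linarith
      exact_mod_cast this
    obtain ⟨k, rfl⟩ := Nat.exists_eq_add_of_le hnN
    push_cast at h1' h2' g3
    have hk : k ≤ Kmax := by
      rw [hK]
      exact Nat.le_floor (by linarith)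
    simp only [mem_iUnion, Finset.mem_range]
    refine ⟨k, by omega, e, he, hS', ?_⟩
    have hHC : HC a (fun j => y (e j) ω) := by
      intro i j hij
      exact h.hc _ _ (fun h => hij (he h)) ω ((hS' _).2 ⟨i, rfl⟩) ((hS' _).2 ⟨j, rfl⟩)
    refine ⟨⟨hHC, fun i => h.supp _ ω ((hS' _).2 ⟨i, rfl⟩)⟩, ?_, ?_⟩
    · refine le_trans ?_ hzE
      rw [g1]
      have h3' := not_le.1 h3
      unfold Zf at h3'
      have hW1 : 0 ≤ C0 a bF * Wf y R (fun _ => 1) ω :=
        mul_nonneg hc₀ (Wf_nonneg (fun _ => zero_le_one) ω)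
      linarith
    · refine le_trans ?_ hA₁
      rw [g2]
      have hK1 : |Dfm κ F| ≤ b * N := by
        have : |Dfm κ F| ≤ ∫ x, κ x * b := by
          unfold Dfm
          refine (abs_integral_le_integral_abs).trans ?_
          refine integral_mono (adm_integrable (adm_mul hκA hpm hT.hpF)).abs
            (hκi.mul_const b) fun x => ?_
          simp only
          rw [abs_mul, abs_of_nonneg (hT.hκb x).1]
          exact mul_le_mul_of_nonneg_left (hT.hpF x) (hT.hκb x).1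
        rw [integral_mul_const, hT.hN] at this
        linarith
      have hAK : Dfm κ F + Dfm F F ≤ A₀ := by
        rw [← hPot.2.2.2.2.2.2.1 κ F F hκA hT.hF hT.hF]
        exact hT.hA
      have hηK : η * Dfm κ F ≤ s * b := by
        calc η * Dfm κ F ≤ η * (b * N) :=
              mul_le_mul_of_nonneg_left ((le_abs_self _).trans hK1) hη0.le
          _ = η * N * b := by ring
          _ = s * b := by rw [hηN]
      have hbk : b * (N + s - (N + k)) ≤ b * s :=
        mul_le_mul_of_nonneg_left (by linarith) hT.hb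
      nlinarith
  -- union bound
  have hsum : (5 : ℝ) / 8 ≤ ∑ k ∈ Finset.range (Kmax + 1),
      P.real (Bk y R (N + k) (goodC a F D (N + k) E₁ A₁)) := by
    have u1 := measureReal_mono (μ := P) hcov
    have u2 := u1.trans (measureReal_union_le _ _)
    have u3 := u2.trans (add_le_add (measureReal_union_le _ _) (measureReal_biUnion_finset_le _ _))
    have u4 := measureReal_union_le (μ := P) {ω | s ≤ |Wf y R (fun _ => 1) ω - (N + s)|}
      {ω | 2 * s * b < |Wf y R (fun x => pot F x + b) ω -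
      ((1 + η) * Dfm κ F + (N + s) * b)|}
    rw [probReal_univ] at u3
    linarith
  have hex : ∃ k ∈ Finset.range (Kmax + 1), 1 / (2 * ((Kmax : ℝ) + 1)) ≤
      P.real (Bk y R (N + k) (goodC a F D (N + k) E₁ A₁)) := by
    by_contra hc
    push Not at hc
    have := Finset.sum_le_card_nsmul (Finset.range (Kmax + 1)) _ _ (fun k hk => (hc k hk).le)
    rw [Finset.card_range, nsmul_eq_mul] at this
    push_cast at this
    have e : ((Kmax : ℝ) + 1) * (1 / (2 * ((Kmax : ℝ) + 1))) = 1 / 2 := by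
      field_simp
    rw [e] at this
    linarith
  obtain ⟨k, hk, hkP⟩ := hex
  have hKs : (Kmax : ℝ) ≤ 2 * s := Nat.floor_le (by positivity)
  have hkK : (k : ℝ) ≤ Kmax := by
    have := Finset.mem_range.1 hk
    exact_mod_cast Nat.lt_succ_iff.1 this
  refine ⟨k, hkK.trans hKs, ?_⟩
  have hd := h.dens (N + k) (goodC a F D (N + k) E₁ A₁)
    (goodC_meas hMeas hPot hT.hF hT.hD.1 _ _ _)
    (fun σ X hX => goodC_perm a F D _ E₁ A₁ σ X hX)
  have hd' : P.real (Bk y R (N + k) (goodC a F D (N + k) E₁ A₁)) ≤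
      v ^ (N + k) / ((N + k).factorial : ℝ) * volume.real (goodC a F D (N + k) E₁ A₁) := by
    have hfin : ENNReal.ofReal (v ^ (N + k) / ((N + k).factorial : ℝ)) *
        volume (goodC a F D (N + k) E₁ A₁) ≠ ⊤ :=
      ENNReal.mul_ne_top ENNReal.ofReal_ne_top (goodC_fin hT.hD _ _ _)
    have := ENNReal.toReal_mono hfin hd
    rw [ENNReal.toReal_mul, ENNReal.toReal_ofReal (by positivity)] at this
    exact this
  have hfac : (0 : ℝ) < ((N + k).factorial : ℝ) := by exact_mod_cast Nat.factorial_pos _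
  have h1 : 1 / (2 * (2 * s + 1)) ≤
      v ^ (N + k) / ((N + k).factorial : ℝ) * volume.real (goodC a F D (N + k) E₁ A₁) := by
    refine le_trans ?_ (hkP.trans hd')
    apply one_div_le_one_div_of_le (by positivity)
    linarith
  rw [div_le_iff₀ (by positivity)] at h1
  have h2 := mul_le_mul_of_nonneg_right h1 hfac.le
  rw [one_mul] at h2
  refine h2.trans (le_of_eq ?_)
  field_simp

end main

end Vol_

/-- many good configurations with slightly more than `N` points -/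
theorem Vol_proof (hProc : Stmt_Proc) (hMom : Stmt_Mom) (hPot : Stmt_Pot) (hStab : Stmt_Stab)
    (hMeas : Stmt_Meas) : Stmt_Vol := by
  intro a ρ₁ bF ha hρ₁ hρ₁' hbF
  obtain ⟨D₀, v, hD₀, hv, hP⟩ := hProc a ((ρ₁ + Real.sqrt 2 / a ^ 3) / 2) ha (by positivity)
    (by linarith)
  obtain ⟨Cm, hCm1, hMo⟩ := hMom a D₀ ha hD₀
  set ρ₂ : ℝ := (ρ₁ + Real.sqrt 2 / a ^ 3) / 2 with hρ₂
  have hρ₂1 : ρ₁ < ρ₂ := by rw [hρ₂]; linarith
  have hc₀ : 0 ≤ C0 a bF := by unfold C0; positivity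
  set η₀ : ℝ := min 1 ((ρ₂ - ρ₁) / ρ₁) with hη₀
  have hη₀0 : 0 < η₀ := lt_min one_pos (div_pos (by linarith) hρ₁)
  have hlv : 0 ≤ Real.log v := Real.log_nonneg hv
  have hCm0 : 0 < Cm := by linarith
  have hq0 : 0 ≤ Real.sqrt Cm := Real.sqrt_nonneg _
  set C : ℝ := 8 + 128 * Cm + 8 * (Cm + 2 * C0 a bF + 1) + 16 * Real.sqrt Cm +
    (1 + 8 * Real.sqrt Cm) * (1 + Real.log v) + 16 * Cm / η₀ ^ 2 + 1 with hC
  have t1 : 0 ≤ (1 + 8 * Real.sqrt Cm) * (1 + Real.log v) := by positivity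
  have t2 : 0 ≤ 16 * Cm / η₀ ^ 2 := by positivity
  refine ⟨C, by rw [hC]; linarith, ?_⟩
  intro D κ F N b A₀ E₀ hT hCN
  have hN1 : (1 : ℝ) ≤ N := le_trans (by rw [hC]; linarith) hCN
  have hN : 1 ≤ N := by exact_mod_cast hN1
  have hN0 : (0 : ℝ) < N := by linarith
  have hsqN : 0 < Real.sqrt N := Real.sqrt_pos.2 hN0
  have hsqN1 : 1 ≤ Real.sqrt N := by
    rw [Real.one_le_sqrt]; exact hN1
  have hsqNN : Real.sqrt N * Real.sqrt N = N := Real.mul_self_sqrt hN0.le
  have hsqNle : Real.sqrt N ≤ N := by nlinarith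
  set s : ℝ := 4 * (Real.sqrt Cm * Real.sqrt N) with hs
  have hs0 : 0 < s := by
    rw [hs]
    have := Real.sqrt_pos.2 hCm0
    positivity
  have hs2 : s ^ 2 = 16 * (Cm * N) := by
    rw [hs, mul_pow, mul_pow, Real.sq_sqrt hCm0.le, Real.sq_sqrt hN0.le]
    ring
  have hsη : s ≤ η₀ * N := by
    have h1 : 16 * Cm / η₀ ^ 2 ≤ N := le_trans (by rw [hC]; nlinarith) hCN
    rw [div_le_iff₀ (by positivity)] at h1
    refine abs_le_of_sq_le_sq' ?_ (by positivity) |>.2
    rw [hs2, mul_pow]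
    nlinarith
  have hsN : s ≤ N := hsη.trans (by
    have : η₀ ≤ 1 := min_le_left _ _
    nlinarith)
  have hη : s / N ≤ η₀ := by rw [div_le_iff₀ hN0]; exact hsη
  have hηρ : (1 + s / N) * ρ₁ ≤ ρ₂ := by
    have : s / N ≤ (ρ₂ - ρ₁) / ρ₁ := hη.trans (min_le_right _ _)
    rw [le_div_iff₀ hρ₁] at this
    linarith
  have hsN0 : 0 ≤ s / N := by positivity
  obtain ⟨Ω, mΩ, P, hPr, I, fI, dI, y, R, hpr⟩ := hP D (fun x => (1 + s / N) * κ x) hT.hD
    (measurable_const.mul hT.hκ) (fun x => ⟨mul_nonneg (by linarith) (hT.hκb x).1,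
      (mul_le_mul_of_nonneg_left (hT.hκb x).2 (by linarith)).trans hηρ⟩)
    (fun x hx => by rw [hT.hκD x hx, mul_zero])
  obtain ⟨hm1, hm2⟩ := hMo v D (fun x => (1 + s / N) * κ x) Ω P I y R
    (measurable_const.mul hT.hκ) hpr
  have hb := hT.hb
  have hE0 := hT.hE0
  have hE₁ : 8 * (E₀ + 16 * Cm * b + Cm * N + 2 * C0 a bF * N + 1) ≤ C * (N + E₀ + b) := by
    have w1 : 8 * E₀ ≤ C * E₀ := mul_le_mul_of_nonneg_right (by rw [hC]; linarith) hE0
    have w2 : 128 * Cm * b ≤ C * b := mul_le_mul_of_nonneg_right (by rw [hC]; linarith) hb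
    have w3 : 8 * (Cm + 2 * C0 a bF + 1) * N ≤ C * N :=
      mul_le_mul_of_nonneg_right (by rw [hC]; linarith) hN0.le
    nlinarith
  have hA₁ : A₀ + 4 * s * b ≤ A₀ + C * Real.sqrt N * b := by
    have : 4 * s ≤ C * Real.sqrt N := by
      rw [hs]
      have : 16 * Real.sqrt Cm * Real.sqrt N ≤ C * Real.sqrt N :=
        mul_le_mul_of_nonneg_right (by rw [hC]; linarith) hsqN.le
      linarith
    have := mul_le_mul_of_nonneg_right this hb
    linarith
  obtain ⟨k, hk, hkv⟩ := Vol_.core hMeas hPot hStab ha hbF hv hT hN hCm1 hs0 hs2 hsN hpr hm1 hm2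
    hE₁ hA₁
  refine ⟨k, ?_, ?_⟩
  · refine hk.trans ?_
    rw [hs]
    have : 8 * Real.sqrt Cm * Real.sqrt N ≤ C * Real.sqrt N :=
      mul_le_mul_of_nonneg_right (by rw [hC]; nlinarith) hsqN.le
    linarith
  · set W : ℝ := volume.real (goodC a F D (N + k) (C * (N + E₀ + b))
      (A₀ + C * Real.sqrt N * b)) with hW
    have hW0 : 0 ≤ W := measureReal_nonneg
    have hsC : 2 * s ≤ 8 * Real.sqrt Cm * N := by
      rw [hs]
      nlinarith
    have hvn : v ^ (N + k) = Real.exp (((N : ℝ) + k) * Real.log v) := by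
      rw [← Real.rpow_natCast, Real.rpow_def_of_pos (by linarith)]
      push_cast
      ring_nf
    have h2s : 2 * (2 * s + 1) ≤ Real.exp (2 * (2 * s + 1) - 1) := by
      have := Real.add_one_le_exp (2 * (2 * s + 1) - 1)
      linarith
    have hle : v ^ (N + k) * (2 * (2 * s + 1)) ≤ Real.exp (C * N) := by
      rw [hvn]
      calc Real.exp (((N : ℝ) + k) * Real.log v) * (2 * (2 * s + 1))
          ≤ Real.exp (((N : ℝ) + k) * Real.log v) * Real.exp (2 * (2 * s + 1) - 1) := by gcongr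
        _ = Real.exp (((N : ℝ) + k) * Real.log v + (2 * (2 * s + 1) - 1)) := by
            rw [Real.exp_add]
        _ ≤ Real.exp (C * N) := by
            apply Real.exp_le_exp.2
            have w1 : ((N : ℝ) + k) * Real.log v ≤
                (1 + 8 * Real.sqrt Cm) * N * Real.log v := by
              apply mul_le_mul_of_nonneg_right _ hlv
              linarith
            have w2 : 2 * (2 * s + 1) - 1 ≤ (16 * Real.sqrt Cm + 1) * N := by nlinarith
            have w3 : (1 + 8 * Real.sqrt Cm) * N * Real.log v + (16 * Real.sqrt Cm + 1) * N =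
                ((1 + 8 * Real.sqrt Cm) * Real.log v + (16 * Real.sqrt Cm + 1)) * N := by ring
            have w4 : (1 + 8 * Real.sqrt Cm) * Real.log v + (16 * Real.sqrt Cm + 1) ≤ C := by
              rw [hC]; nlinarith
            have w5 := mul_le_mul_of_nonneg_right w4 hN0.le
            linarith
    have h3 : ((N + k).factorial : ℝ) ≤ Real.exp (C * N) * W :=
      hkv.trans (mul_le_mul_of_nonneg_right hle hW0)
    have h4 := mul_le_mul_of_nonneg_left h3 (Real.exp_pos (-C * N)).le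
    refine h4.trans (le_of_eq ?_)
    rw [← mul_assoc, ← Real.exp_add]
    have : -C * N + C * N = 0 := by ring
    rw [this, Real.exp_zero, one_mul]

end Pool.Agent.JEL
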