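import Pool.Agent.JEL.Bridge
import Pool.Agent.JEL.Axi
import Pool.Agent.JEL.Iso
import Pool.Agent.JEL.Lens
import Pool.Agent.JEL.Newt
import Pool.Agent.JEL.Pot
import Pool.Agent.JEL.Ker1
import Pool.Agent.JEL.Ker2
import Pool.Agent.JEL.Ch
import Pool.Agent.JEL.Pd
import Pool.Agent.JEL.LocP
import Pool.Agent.JEL.Loc
import Pool.Agent.JEL.StabT
import Pool.Agent.JEL.Meas
import Pool.Agent.JEL.Binom
import Pool.Agent.JEL.Sup
import Pool.Agent.JEL.GMeas
import Pool.Agent.JEL.PackF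
import Pool.Agent.JEL.UpJ
import Pool.Agent.JEL.Cells
import Pool.Agent.JEL.Up
import Pool.Agent.JEL.Chg
import Pool.Agent.JEL.Fcc
import Pool.Agent.JEL.PrHc
import Pool.Agent.JEL.PrCov
import Pool.Agent.JEL.Unf
import Pool.Agent.JEL.PrInt
import Pool.Agent.JEL.PrInd
import Pool.Agent.JEL.PrFar
import Pool.Agent.JEL.Marg
import Pool.Agent.JEL.PrDen
import Pool.Agent.JEL.Proc
import Pool.Agent.JEL.Pkb
import Pool.Agent.JEL.Mom
import Pool.Agent.JEL.Vol
import Pool.Agent.JEL.Del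
import Pool.Agent.JEL.T
import Pool.Agent.JEL.Ball
import Pool.Agent.JEL.Rotm
import Pool.Agent.JEL.Rot
import Pool.Agent.JEL.Sh
import Pool.Agent.JEL.Ins
import Pool.Agent.JEL.InsIt
import Pool.Agent.JEL.Rad
import Pool.Agent.JEL.LowB
import Pool.Agent.JEL.Low
import Pool.Agent.JEL.Pack
import Pool.Agent.JEL.Fin
import Pool.Agent.JEL.Grif
import Pool.Agent.JEL.DerZ

/-!
# JEL: assembly
-/

namespace Pool.Agent.JEL

theorem cAxi : Stmt_Axi := Axi_proof
theorem cIso : Stmt_Iso := Iso_proof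
theorem cLens : Stmt_Lens := Lens_proof cAxi cIso
theorem cNewt : Stmt_Newt := Newt_proof cAxi cIso cLens
theorem cPot : Stmt_Pot := Pot_proof cNewt cLens
theorem cKer1 : Stmt_Ker1 := Ker1_proof
theorem cKer2 : Stmt_Ker2 := Ker2_proof
theorem cCh : Stmt_Ch := Ch_proof cKer2
theorem cPd : Stmt_Pd := pd_proof cLens
theorem cLocP : Stmt_LocP := LocP_proof
theorem cLoc : Stmt_Loc := loc_proof cLens cPot cKer1 cCh cPd cLocP
theorem cStab : Stmt_Stab := Stab_proof cKer1 cPd
theorem cMeas : Stmt_Meas := Meas_proof cPot cStab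
theorem cBinom : Stmt_Binom := Binom_proof
theorem cSup : Stmt_Sup := Sup_proof cMeas cBinom
theorem cGMeas : Stmt_GMeas := GMeas_proof cPot cStab
theorem cPackF : Stmt_PackF := PackF_proof cLens
theorem cUpJ : Stmt_UpJ := UpJ_proof cLoc cSup cGMeas cMeas cPackF
theorem cCells : Stmt_Cells := Cells_proof
theorem cUp : Stmt_Up := Up_proof cUpJ cMeas cPackF cCells cLens
theorem cChg : Stmt_Chg := Chg_proof cLens cPot cKer1 cPd
theorem cFcc : Stmt_Fcc := Fcc_proof
theorem cPrHc : Stmt_PrHc := PrHc_proof cFcc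
theorem cPrCov : Stmt_PrCov := PrCov_proof
theorem cUnf : Stmt_Unf := Unf_proof cFcc
theorem cPrInt : Stmt_PrInt := PrInt_proof cUnf cPrHc
theorem cPrInd : Stmt_PrInd := PrInd_proof
theorem cPrFar : Stmt_PrFar := PrFar_proof cUnf cPrHc cPrInd
theorem cMarg : Stmt_Marg := Marg_proof
theorem cPrDen : Stmt_PrDen := PrDen_proof cMarg cPrHc cFcc
theorem cProc : Stmt_Proc := Proc_proof cFcc cPrHc cPrCov cPrInt cPrFar cPrDen
theorem cPkb : Stmt_Pkb := Pkb_proof cLens
theorem cMom : Stmt_Mom := Mom_proof cPkb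
theorem cVol : Stmt_Vol := Vol_proof cProc cMom cPot cStab cMeas
theorem cDel : Stmt_Del := Del_proof cMeas cStab cPot
theorem cT : Stmt_T := T_proof cVol cDel cMeas
theorem cBall : Stmt_Ball := Ball_proof cChg cMeas cT cNewt cLens
theorem cRotm : Stmt_Rotm := Rotm_proof cNewt cIso
theorem cRot : Stmt_Rot := Rot_proof cRotm cMeas
theorem cSh : Stmt_Sh := Sh_proof cNewt cLens
theorem cIns : Stmt_Ins := Ins_proof cPot cRot cMeas cBinom cSh cNewt
theorem cInsIt : Stmt_InsIt := InsIt_proof cIns cSh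
theorem cRad : Stmt_Rad := Rad_proof cNewt cSh cPot cLens
theorem cLowB : Stmt_LowB := LowB_proof cInsIt cT cRad cPot cSh cMeas cLens
theorem cLow : Stmt_Low := Low_proof cBall cLowB cPackF cCells cMeas cLens
theorem cPack : Stmt_Pack := Pack_proof cLens
theorem cFin : Stmt_Fin := Fin_proof cUp cLow cPack cMeas cLens
theorem cGrif : Stmt_Grif := grif_proof
theorem cDerZ : Stmt_DerZ := DerZ_proof cMeas

end Pool.Agent.JEL
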