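import Pool.Agent.JEL.Stmts

set_option autoImplicit false
set_option linter.unusedSimpArgs false

open MeasureTheory Set Filter Topology

namespace Pool.Agent.JEL

namespace PackF_

lemma coord_le (x y : E) (j : Fin 3) : |x j - y j| ≤ ‖x - y‖ := by
  have := PiLp.norm_apply_le (x - y) j
  simpa [Real.norm_eq_abs] using this

lemma vb_lt {r s : ℝ} (hr : 0 ≤ r) (h : r < s) : vb r < vb s := by
  unfold vb
  have h1 : r ^ 3 < s ^ 3 := pow_lt_pow_left₀ h hr (by norm_num)
  have h2 : 0 < 4 * Real.pi / 3 := by positivity
  exact mul_lt_mul_of_pos_left h1 h2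

lemma ctr_apply {m : ℕ} (c : Fin m → E) (l : ℝ) (θ : Fin 3 → ℝ) (k : Fin 3 → ℤ) (i : Fin m)
    (j : Fin 3) : ctr c l θ k i j = l * ((k j : ℝ) + θ j + c i j) := by
  simp only [ctr, toE, PiLp.smul_apply, PiLp.add_apply, smul_eq_mul]

/-- volume of a box -/
lemma vol_box (a b : Fin 3 → ℝ) (h : ∀ j, a j ≤ b j) :
    volume {x : E | ∀ j, a j ≤ x j ∧ x j < b j} = ENNReal.ofReal (∏ j, (b j - a j)) := by
  have h1 : {x : E | ∀ j, a j ≤ x j ∧ x j < b j}
      = (fun x : E => (WithLp.ofLp x : Fin 3 → ℝ)) ⁻¹' (Set.pi univ (fun j => Ico (a j) (b j))) := by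
    ext x; simp [Set.mem_pi]
  rw [h1]
  have h2 := EuclideanSpace.volume_preserving_symm_measurableEquiv_toLp (Fin 3)
  have h3 : MeasurableSet (Set.pi univ (fun j => Ico (a j) (b j)) : Set (Fin 3 → ℝ)) :=
    MeasurableSet.univ_pi (fun j => measurableSet_Ico)
  have h4 := h2.measure_preimage h3.nullMeasurableSet
  have h5 : volume (Set.pi univ (fun j => Ico (a j) (b j)) : Set (Fin 3 → ℝ))
      = ENNReal.ofReal (∏ j, (b j - a j)) := by
    rw [Real.volume_pi_Ico, ENNReal.ofReal_prod_of_nonneg (fun j _ => sub_nonneg.2 (h j))]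
  rw [← h5, ← h4]
  rfl

end PackF_

open PackF_

theorem PackF_proof (hLens : Stmt_Lens) : Stmt_PackF := by
  intro m c q γ hP
  have hγ := hP.hγ
  have hq := hP.hq
  have hS : ∑ i, vb (q i + γ) ≤ 1 := by
    -- open balls
    have hdisj : Pairwise (Function.onFun Disjoint (fun i => Metric.ball (c i) (q i + γ))) := by
      intro i i' hii
      apply Metric.ball_disjoint_ball
      have := hP.sep i i' hii
      rw [dist_eq_norm]; linarith
    have hsub : (⋃ i, Metric.ball (c i) (q i + γ)) ⊆ {x : E | ∀ j, (fun _ => (0:ℝ)) j ≤ x j ∧ x j < (fun _ => (1:ℝ)) j} := by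
      intro x hx
      obtain ⟨i, hi⟩ := mem_iUnion.1 hx
      rw [Metric.mem_ball, dist_eq_norm] at hi
      intro j
      have h1 := coord_le x (c i) j
      have h2 := hP.inside i j
      rw [abs_le] at h1
      constructor
      · have := h1.1; simp only; linarith
      · have := h1.2; simp only; linarith
    have hv := measure_mono (μ := volume) hsub
    rw [vol_box _ _ (fun _ => zero_le_one)] at hv
    rw [measure_iUnion hdisj (fun i => measurableSet_ball), tsum_fintype] at hv
    have hb : ∀ i, volume (Metric.ball (c i) (q i + γ)) = ENNReal.ofReal (vb (q i + γ)) := by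
      intro i
      have h1 := hLens.1 (c i) (q i + γ) (by have := hq i; linarith)
      rw [← Measure.addHaar_closedBall_eq_addHaar_ball, ← h1]
      exact (ENNReal.ofReal_toReal (measure_closedBall_lt_top).ne).symm
    simp only [hb] at hv
    rw [← ENNReal.ofReal_sum_of_nonneg] at hv
    · have h2 := (ENNReal.ofReal_le_ofReal_iff (by simp)).1 hv
      simpa using h2
    · intro i _
      unfold vb
      have := hq i
      positivity
  refine ⟨hS, ?_, ?_⟩
  · refine lt_of_lt_of_le ?_ hS
    unfold frac
    have hm := hP.hm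
    refine Finset.sum_lt_sum_of_nonempty ⟨⟨0, hm⟩, Finset.mem_univ _⟩ ?_
    intro i _
    exact vb_lt (hq i).le (by linarith)
  · intro l θ hl
    refine ⟨?_, ?_, ?_⟩
    · intro k i t ht x hx
      rw [Metric.mem_closedBall, dist_eq_norm] at hx
      intro j
      have h1 := coord_le x (ctr c l θ k i) j
      rw [ctr_apply, abs_le] at h1
      have h2 := hP.inside i j
      have h3 : l * t < l * (q i + γ) := mul_lt_mul_of_pos_left ht hl
      have h4 : l * (q i + γ) ≤ l * c i j := mul_le_mul_of_nonneg_left h2.1 hl.le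
      have h5 : l * c i j ≤ l * (1 - (q i + γ)) := mul_le_mul_of_nonneg_left h2.2 hl.le
      constructor
      · nlinarith [h1.1]
      · nlinarith [h1.2]
    · intro k i k' i' hne
      by_cases hk : k = k'
      · subst hk
        have hi : i ≠ i' := by
          rintro rfl; exact hne rfl
        have h1 : ctr c l θ k i - ctr c l θ k i' = l • (c i - c i') := by
          unfold ctr
          rw [← smul_sub]; congr 1; abel
        rw [h1, norm_smul, Real.norm_eq_abs, abs_of_pos hl]
        have h2 := mul_le_mul_of_nonneg_left (hP.sep i i' hi) hl.le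
        linarith
      · have hj : ∃ j, k j ≠ k' j := by
          by_contra hcon
          push Not at hcon
          exact hk (funext hcon)
        obtain ⟨j, hj⟩ := hj
        have h1 := coord_le (ctr c l θ k i) (ctr c l θ k' i') j
        rw [ctr_apply, ctr_apply] at h1
        refine le_trans ?_ h1
        have h2 := hP.inside i j
        have h3 := hP.inside i' j
        rcases lt_or_gt_of_ne hj with h | h
        · have h4 : (k j : ℝ) + 1 ≤ k' j := by exact_mod_cast h
          have h5 : l * (q i + q i' + 2 * γ) ≤ l * ((k' j : ℝ) - k j + c i' j - c i j) :=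
            mul_le_mul_of_nonneg_left (by linarith [h2.1, h2.2, h3.1, h3.2]) hl.le
          rw [abs_sub_comm]
          refine le_trans ?_ (le_abs_self _)
          nlinarith
        · have h4 : (k' j : ℝ) + 1 ≤ k j := by exact_mod_cast h
          have h5 : l * (q i + q i' + 2 * γ) ≤ l * ((k j : ℝ) - k' j + c i j - c i' j) :=
            mul_le_mul_of_nonneg_left (by linarith [h2.1, h2.2, h3.1, h3.2]) hl.le
          refine le_trans ?_ (le_abs_self _)
          nlinarith
    · intro k
      have h1 := vol_box (fun j => l * ((k j : ℝ) + θ j)) (fun j => l * ((k j : ℝ) + θ j + 1))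
        (fun j => by nlinarith)
      have h2 : cell l θ k = {x : E | ∀ j, (fun j => l * ((k j : ℝ) + θ j)) j ≤ x j ∧
          x j < (fun j => l * ((k j : ℝ) + θ j + 1)) j} := rfl
      rw [Measure.real, h2, h1, ENNReal.toReal_ofReal]
      · have h3 : ∀ j : Fin 3, l * ((k j : ℝ) + θ j + 1) - l * ((k j : ℝ) + θ j) = l := by
          intro j; ring
        simp [h3]
      · refine Finset.prod_nonneg (fun j _ => ?_)
        nlinarith

end Pool.Agent.JEL
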