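import Pool.Agent.JEL.Defs

open MeasureTheory Set Filter Topology

namespace Pool.Agent.JEL

open scoped Real

/-! ## Part A: geometry and kernels -/

/-- integration in cylindrical coordinates, `u` = square of the distance from the axis -/
def Stmt_Axi : Prop := ∀ f : ℝ → ℝ → ENNReal, Measurable (Function.uncurry f) →
  ∫⁻ x : E, f (x 2) (x 0 ^ 2 + x 1 ^ 2)
    = ∫⁻ z : ℝ, ∫⁻ u in Ioi (0:ℝ), ENNReal.ofReal π * f z u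

/-- a linear isometry moving `x` to the third axis -/
def Stmt_Iso : Prop := ∀ x : E, ∃ g : E ≃ₗᵢ[ℝ] E, g x = toE ![0, 0, ‖x‖]

/-- volume of a ball and of the intersection of two balls -/
def Stmt_Lens : Prop :=
  (∀ (z : E) (r : ℝ), 0 ≤ r → volume.real (cB z r) = vb r) ∧
  ∀ (x y : E) (s : ℝ), 0 < s → volume.real (cB x s ∩ cB y s) = lens s ‖x - y‖

/-- Newton: potential of a ball of unit density -/
def Stmt_Newt : Prop :=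
  (∀ (R : ℝ) (z x : E), 0 < R → ∫ y in cB z R, ‖x - y‖⁻¹ = nt R ‖x - z‖) ∧
  ∀ (R t : ℝ), 0 < R → 0 ≤ t → ∫ y in cB (0:E) R, (max t ‖y‖)⁻¹ = nt R t

/-- basic facts on potentials -/
def Stmt_Pot : Prop :=
  (∀ F, Adm F → Measurable (pot F)) ∧
  (∀ F, Adm F → ∀ x, Integrable (fun y => F y * ‖x - y‖⁻¹)) ∧
  (∀ (F : E → ℝ) (b t : ℝ) (S : Set E), Adm F → (∀ x, |F x| ≤ b) → MeasurableSet S →
    volume S < ⊤ → (∀ x, x ∉ S → F x = 0) → 0 < t →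
    ∀ x, |pot F x| ≤ b * (2 * π * t ^ 2 + volume.real S / t)) ∧
  (∀ F G, Adm F → Adm G → Integrable (fun p : E × E => F p.1 * G p.2 * ‖p.1 - p.2‖⁻¹)) ∧
  (∀ F G, Adm F → Adm G → Dfm F G = Dfm G F) ∧
  (∀ F G, Adm F → Adm G → (∀ x, pot (fun y => F y + G y) x = pot F x + pot G x)) ∧
  (∀ F G H, Adm F → Adm G → Adm H → Dfm (fun y => F y + G y) H = Dfm F H + Dfm G H) ∧
  (∀ F G H, Adm F → Adm G → Adm H → Dfm H (fun y => F y + G y) = Dfm H F + Dfm H G)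

/-- the Coulomb kernel as a superposition of balls -/
def Stmt_Ker1 : Prop := ∀ t : ℝ, 0 < t →
  IntegrableOn (fun s => (π * s ^ 5)⁻¹ * lens s t) (Ioi 0) ∧ Rk (fun _ => 1) t = t⁻¹

/-- the local Coulomb kernel of a sliding ball as a superposition of balls -/
def Stmt_Ker2 : Prop := ∀ r t : ℝ, 0 < r → 0 < t →
  IntegrableOn (fun s => ((π * s ^ 5)⁻¹ + (8 * π * r ^ 3 * s ^ 2)⁻¹) * lens s t) (Ioc 0 r) ∧
  hb r t = (∫ s in Ioc 0 r, ((π * s ^ 5)⁻¹ + (8 * π * r ^ 3 * s ^ 2)⁻¹) * lens s t)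
    + 3 / (8 * π * r ^ 4) * lens r t

/-- the averaged local kernel of a dilated packing -/
def Stmt_Ch : Prop := ∀ (m : ℕ) (q : Fin m → ℝ), (∀ i, 0 < q i) →
  ∀ lam0 lam1 ε : ℝ, 0 < lam0 → lam0 < lam1 → 1 - ε ≤ frac q →
  frac q * (1 + 5 / (12 * Real.log (lam1 / lam0))) ≤ 1 →
  ∃ c : ℝ → ℝ, Measurable c ∧ (∀ s, 0 ≤ c s ∧ c s ≤ 1) ∧
    (∀ s, 0 < s → (∀ i, s ≤ lam0 * q i) → 1 - ε ≤ c s) ∧
    ∀ t, 0 < t → ∫ l in Icc lam0 lam1, (Real.log (lam1 / lam0) * l)⁻¹ *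
      ∑ i, vb (q i) * hb (l * q i) t = Rk c t

/-- positivity with a cut-off coefficient -/
def Stmt_Pd : Prop := ∀ c : ℝ → ℝ, Measurable c → (∀ s, 0 ≤ c s ∧ c s ≤ 1) →
  ∀ (a b : ℝ) (F : E → ℝ), 0 < a → 0 ≤ b → Adm F → (∀ x, |F x| ≤ b) →
  ∀ (n : ℕ) (X : Fin n → E), HC a X →
    -(n : ℝ) * (2 / 3 * (∫ s in Ioi (a / 2), c s * (s ^ 2)⁻¹)
      + b * (16 * π / 9) * ∫ s in Ioc 0 (a / 2), c s * s) ≤ EnK (Rk c) F X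

/-- constant of stability -/
noncomputable def C0 (a b : ℝ) : ℝ := 4 / (3 * a) + 2 * π / 9 * b * a ^ 2

/-- stability -/
def Stmt_Stab : Prop :=
  (∀ (a b : ℝ) (F : E → ℝ), 0 < a → 0 ≤ b → Adm F → (∀ x, |F x| ≤ b) →
    ∀ (n : ℕ) (X : Fin n → E), HC a X → -(n : ℝ) * C0 a b ≤ En F X) ∧
  (∀ F, Adm F → 0 ≤ Dfm F F)

/-- charged balls have a large energy -/
def Stmt_Chg : Prop := ∀ a ρ r : ℝ, 0 < a → 0 < ρ → a ≤ r → ∀ (z : E) (n : ℕ) (X : Fin n → E),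
  X ∈ conf a (cB z r) n →
  ((n : ℝ) - ρ * vb r) ^ 2 / (24 * r) - n * (C0 a ρ + 1 / (3 * a)) ≤ En (bg ρ (cB z r)) X

/-- potential of a rotation invariant mass distribution, seen from outside -/
def Stmt_Rotm : Prop := ∀ (m : Measure E) [IsFiniteMeasure m] (r : ℝ), 0 < r →
  m (cB 0 r)ᶜ = 0 → (∀ g : E ≃ₗᵢ[ℝ] E, m.map g = m) →
  ∀ y : E, r < ‖y‖ → ∫ x, ‖x - y‖⁻¹ ∂m = m.real univ * ‖y‖⁻¹

/-- mean potential of the Gibbs state of a ball, seen from outside -/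
def Stmt_Rot : Prop := ∀ (a β ρ r : ℝ) (z y : E) (n : ℕ), 0 < a → 0 < β → 0 < ρ → 0 < r →
  r < ‖y - z‖ →
  ∫ X in conf a (cB z r) n, Real.exp (-β * En (bg ρ (cB z r)) X) * ∑ i, ‖X i - y‖⁻¹
    = n * ‖y - z‖⁻¹ * ∫ X in conf a (cB z r) n, Real.exp (-β * En (bg ρ (cB z r)) X)

/-! ## Part B: partition functions -/

/-- measurability, integrability, translation, a priori bounds -/
def Stmt_Meas : Prop :=
  (∀ (F : E → ℝ) (n : ℕ), Adm F → Measurable (fun X : Fin n → E => En F X)) ∧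
  (∀ (a : ℝ) (D : Set E) (n : ℕ), MeasurableSet D → MeasurableSet (conf a D n)) ∧
  (∀ (a β : ℝ) (F : E → ℝ) (D : Set E) (n : ℕ), 0 < a → 0 < β → Adm F → BM D →
    IntegrableOn (fun X => Real.exp (-β * En F X)) (conf a D n)) ∧
  (∀ (a β b : ℝ) (F : E → ℝ) (D : Set E) (n : ℕ), 0 < a → 0 < β → 0 ≤ b → Adm F →
    (∀ x, |F x| ≤ b) → BM D →
    0 ≤ ZF a β F D n ∧
    ZF a β F D n ≤ Real.exp (β * C0 a b * n) * volume.real D ^ n / n.factorial) ∧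
  (∀ (a β ρ r : ℝ) (z : E) (n : ℕ), Z a β ρ (cB z r) n = Z a β ρ (cB 0 r) n) ∧
  (∀ (a β ρ : ℝ) (D : Set E), 0 < a → 0 < β → 0 < ρ → BM D →
    Summable (fun n => Z a β ρ D n) ∧ 0 < Xi a β ρ D ∧
    Xi a β ρ D ≤ Real.exp (Real.exp (β * C0 a ρ) * volume.real D))

/-- binomial splitting of symmetric integrals -/
def Stmt_Binom : Prop := ∀ A B : Set E, MeasurableSet A → MeasurableSet B → Disjoint A B →
  ∀ (f : ∀ n : ℕ, (Fin n → E) → ENNReal), (∀ n, Measurable (f n)) →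
  (∀ n (σ : Equiv.Perm (Fin n)) (X : Fin n → E), f n (X ∘ σ) = f n X) → ∀ N : ℕ,
  ∫⁻ X in {X : Fin N → E | ∀ i, X i ∈ A ∪ B}, f N X
    = ∑ p ∈ Finset.HasAntidiagonal.antidiagonal N, (N.choose p.1 : ENNReal) *
      ∫⁻ x in {x : Fin p.1 → E | ∀ i, x i ∈ A}, ∫⁻ y in {y : Fin p.2 → E | ∀ i, y i ∈ B},
        f (p.1 + p.2) (Fin.append x y)

/-- facts on the uniform shell density -/
def Stmt_Sh : Prop := ∀ (z : E) (r : ℝ), 2 ≤ r →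
  Adm (sh z r) ∧ (∀ x, r < ‖x - z‖ → sh z r x = 0) ∧ (∀ x, 0 ≤ sh z r x ∧ sh z r x ≤ (r ^ 2)⁻¹) ∧
  (∫ x, sh z r x = 1) ∧ (∀ y, r ≤ ‖y - z‖ → pot (sh z r) y = ‖y - z‖⁻¹)

/-- insertion of one ball in its Gibbs state -/
def Stmt_Ins : Prop := ∀ (a β ρ r : ℝ) (z : E) (n N : ℕ) (F : E → ℝ) (D : Set E), 0 < a →
  0 < β → 0 < ρ → 2 ≤ r → Adm F → (∀ x ∈ cB z r, F x = -ρ) → BM D →
  (∀ x ∈ D, r + a ≤ ‖x - z‖) →
  Z a β ρ (cB z r) n *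
      ZF a β (fun x => F x + (ρ * (cB z r).indicator (1 : E → ℝ) x
        + ((n : ℝ) - ρ * vb r) * sh z r x)) D N
    ≤ ZF a β F (D ∪ cB z r) (N + n)

/-- insertion of finitely many balls -/
def Stmt_InsIt : Prop := ∀ (a β ρ : ℝ), 0 < a → 0 < β → 0 < ρ →
  ∀ (K : Type) [Fintype K] [DecidableEq K] (z : K → E) (r : K → ℝ) (n : K → ℕ) (N : ℕ)
    (F : E → ℝ) (D : Set E),
  (∀ k, 2 ≤ r k) → Adm F → (∀ k, ∀ x ∈ cB (z k) (r k), F x = -ρ) → BM D →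
  (∀ k, ∀ x ∈ D, r k + a ≤ ‖x - z k‖) → (∀ k k', k ≠ k' → r k + r k' + a ≤ ‖z k - z k'‖) →
  (∏ k, Z a β ρ (cB (z k) (r k)) (n k)) *
      ZF a β (fun x => F x + ∑ k, (ρ * (cB (z k) (r k)).indicator (1 : E → ℝ) x
        + ((n k : ℝ) - ρ * vb (r k)) * sh (z k) (r k) x)) D N
    ≤ ZF a β F (D ∪ ⋃ k, cB (z k) (r k)) (N + ∑ k, n k)

/-- superposition bound -/
def Stmt_Sup : Prop := ∀ (a β ρ : ℝ) (Λ : Set E), 0 < a → 0 < β → 0 < ρ → BM Λ →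
  ∀ (K : Type) [Fintype K] (B : K → Set E), (∀ k, BM (B k)) →
  (∀ k k', k ≠ k' → Disjoint (B k) (B k')) → ∀ N : ℕ,
  (N.factorial : ℝ)⁻¹ * ∫ X in conf a Λ N, Real.exp (-β * ∑ k, Uloc ρ Λ (B k) X)
    ≤ (∏ k, Xi a β ρ (Λ ∩ B k)) * Real.exp (volume.real (Λ \ ⋃ k, B k))

/-! ## Part C: upper bound -/

/-- average of the product of indicators over the offset of the packing -/
def Stmt_LocP : Prop := ∀ (l q R : ℝ) (c : E) (n₀ : ℕ), 0 < l → 0 < q → 0 ≤ R →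
  R / l + q + ‖c‖ + 1 ≤ n₀ → ∀ x y : E, ‖x‖ ≤ R →
  ∫ θ in cube, ∑ k ∈ kbox n₀,
      (cB (l • (toE (fun j => (k j : ℝ) + θ j) + c)) (l * q)).indicator (1 : E → ℝ) x *
      (cB (l • (toE (fun j => (k j : ℝ) + θ j) + c)) (l * q)).indicator (1 : E → ℝ) y
    = (l ^ 3)⁻¹ * volume.real (cB x (l * q) ∩ cB y (l * q))

/-- measurability and boundedness of the sum of the local energies -/
def Stmt_GMeas : Prop := ∀ (ρ : ℝ) (Λ : Set E) (m : ℕ) (c : Fin m → E) (q : Fin m → ℝ) (n₀ N : ℕ),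
  0 < ρ → BM Λ →
  Measurable (fun p : (ℝ × (Fin 3 → ℝ)) × (Fin N → E) => Gsum ρ Λ c q n₀ p.1.1 p.1.2 p.2) ∧
  ∀ a : ℝ, 0 < a → ∃ B : ℝ, ∀ (l : ℝ) (θ : Fin 3 → ℝ) (X : Fin N → E), HC a X →
    |Gsum ρ Λ c q n₀ l θ X| ≤ B

/-- error per particle of the localization -/
noncomputable def errL (a ρ ε x : ℝ) : ℝ :=
  2 / 3 * (2 * ε / a + x) + 2 * π / 9 * ρ * ε * a ^ 2

/-- localization of the Coulomb energy in randomly dilated packings -/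
def Stmt_Loc : Prop := ∀ (a ρ : ℝ) (m : ℕ) (c : Fin m → E) (q : Fin m → ℝ)
  (γ ε lam0 lam1 qm R : ℝ) (Λ : Set E) (n₀ N : ℕ) (X : Fin N → E),
  0 < a → 0 < ρ → Pack m c q γ → 0 < lam0 → lam0 < lam1 → 0 ≤ ε → 1 - ε ≤ frac q →
  frac q * (1 + 5 / (12 * Real.log (lam1 / lam0))) ≤ 1 → 0 < qm → (∀ i, qm ≤ q i) →
  a / 2 ≤ lam0 * qm → 0 ≤ R → BM Λ → Λ ⊆ cB 0 R → (∀ i, R / lam0 + q i + ‖c i‖ + 1 ≤ n₀) →
  X ∈ conf a Λ N →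
  (∫ l in Icc lam0 lam1, (Real.log (lam1 / lam0) * l)⁻¹ * ∫ θ in cube, Gsum ρ Λ c q n₀ l θ X)
    - N * errL a ρ ε (1 / (lam0 * qm)) ≤ En (bg ρ Λ) X

/-- consequence for the partition function -/
def Stmt_UpJ : Prop := ∀ (a β ρ : ℝ) (m : ℕ) (c : Fin m → E) (q : Fin m → ℝ)
  (γ ε lam0 lam1 qm R S : ℝ) (Λ : Set E) (n₀ N : ℕ),
  0 < a → 0 < β → 0 < ρ → Pack m c q γ → 0 < lam0 → lam0 < lam1 → 0 ≤ ε → 1 - ε ≤ frac q →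
  frac q * (1 + 5 / (12 * Real.log (lam1 / lam0))) ≤ 1 → 0 < qm → (∀ i, qm ≤ q i) →
  a / 2 ≤ lam0 * qm → 0 ≤ R → BM Λ → Λ ⊆ cB 0 R → (∀ i, R / lam0 + q i + ‖c i‖ + 1 ≤ n₀) →
  (∀ l ∈ Icc lam0 lam1, ∀ θ ∈ cube,
    (∏ k ∈ kbox n₀, ∏ i, Xi a β ρ (Λ ∩ cB (ctr c l θ k i) (l * q i))) *
      Real.exp (volume.real (Λ \ ⋃ k ∈ kbox n₀, ⋃ i, cB (ctr c l θ k i) (l * q i))) ≤ S) →
  Z a β ρ Λ N ≤ Real.exp (β * N * errL a ρ ε (1 / (lam0 * qm))) * S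

/-- the balls of a packing are disjoint, in their cells, and do not fill them -/
def Stmt_PackF : Prop := ∀ (m : ℕ) (c : Fin m → E) (q : Fin m → ℝ) (γ : ℝ), Pack m c q γ →
  (∑ i, vb (q i + γ) ≤ 1) ∧ frac q < 1 ∧
  ∀ (l : ℝ) (θ : Fin 3 → ℝ), 0 < l → 
    (∀ k i t, t < q i + γ → cB (ctr c l θ k i) (l * t) ⊆ cell l θ k) ∧
    (∀ k i k' i', (k, i) ≠ (k', i') →
      l * q i + l * q i' + 2 * (l * γ) ≤ ‖ctr c l θ k i - ctr c l θ k' i'‖) ∧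
    (∀ k, volume.real (cell l θ k) = l ^ 3)

/-- interior and boundary cells of a domain -/
def Stmt_Cells : Prop := ∀ (l R : ℝ) (θ : Fin 3 → ℝ) (Λ : Set E) (n₀ : ℕ), 0 < l →
  θ ∈ cube → 0 ≤ R → BM Λ → Λ ⊆ cB 0 R → R / l + 2 ≤ n₀ →
  ∃ A Bd : Finset (Fin 3 → ℤ), A ⊆ kbox n₀ ∧ Bd ⊆ kbox n₀ ∧ Disjoint A Bd ∧
    (∀ k ∈ A, cell l θ k ⊆ Λ) ∧ (∀ k, k ∉ A → k ∉ Bd → Disjoint (cell l θ k) Λ) ∧
    (A.card : ℝ) * l ^ 3 ≤ volume.real Λ ∧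
    volume.real Λ ≤ A.card * l ^ 3 + zone (2 * l) Λ ∧
    (Bd.card : ℝ) * l ^ 3 ≤ zone (2 * l) Λ ∧
    volume.real (Λ \ ⋃ k ∈ A, cell l θ k) ≤ zone (2 * l) Λ

/-- upper bound for all domains -/
def Stmt_Up : Prop := ∀ a β ρ : ℝ, 0 < a → 0 < β → 0 < ρ → ∃ CU : ℝ, 0 < CU ∧
  ∀ (m : ℕ) (c : Fin m → E) (q : Fin m → ℝ) (γ ε qm lam0 : ℝ), Pack m c q γ → 0 < ε →
  ε < 1 → 1 - ε ≤ frac q → 0 < qm → (∀ i, qm ≤ q i) → 0 < lam0 → a / 2 ≤ lam0 * qm →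
  ∃ lam1 : ℝ, lam0 < lam1 ∧ ∀ s : ℝ, (∀ l ∈ Icc lam0 lam1, Sl a β ρ q l ≤ s) →
    ∃ C₁ R₁ : ℝ, 0 ≤ C₁ ∧ 0 < R₁ ∧ ∀ (Λ : Set E), BM Λ → ∀ N : ℕ,
      Z a β ρ Λ N ≤ Real.exp (s * volume.real Λ
        + CU * (ε + 1 / (lam0 * qm)) * (N + volume.real Λ) + C₁ * zone R₁ Λ)

/-! ## Part D: packings -/

/-- dense packings of the unit cube by finitely many balls -/
def Stmt_Pack : Prop := ∀ ε : ℝ, 0 < ε → ∃ (m : ℕ) (c : Fin m → E) (q : Fin m → ℝ) (γ : ℝ),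
  Pack m c q γ ∧ 1 - ε ≤ frac q

/-! ## Part E: the random point process -/

/-- the face centered cubic lattice -/
def Stmt_Fcc : Prop := ∀ a' : ℝ, 0 < a' →
  (∀ z : Fin 3 → ℤ, z ≠ 0 → a' ≤ ‖fcc a' (fun j => (z j : ℝ))‖) ∧
  (∀ x y : Fin 3 → ℝ, fcc a' (x + y) = fcc a' x + fcc a' y) ∧
  (∀ f : E → ENNReal, Measurable f →
    ∫⁻ z : Fin 3 → ℝ, f (fcc a' z) = ENNReal.ofReal (Real.sqrt 2 / a' ^ 3) * ∫⁻ x, f x) ∧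
  (∀ B : ℝ, ∃ n₁ : ℕ, ∀ x : E, ‖x‖ ≤ B →
    ∃ z ∈ kbox n₁, ∃ u ∈ cube, x = fcc a' (fun j => u j + (z j : ℝ)))

/-- hard core property and measurability of the concrete process -/
def Stmt_PrHc : Prop := ∀ (L a a' : ℝ) (V J : Finset (Fin 3 → ℤ)) (D : Set E) (κ : E → ℝ),
  0 < a → a < a' → a ≤ L → MeasurableSet D → Measurable κ →
  Measurable (pint L a a' V) ∧
  (∀ i : V × J, Measurable (pY L a' i)) ∧
  (∀ i : V × J, MeasurableSet (pR L a a' D κ i)) ∧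
  (∀ i j : V × J, i ≠ j → ∀ ω : Sam V J,
    ω ∈ pR L a a' D κ i → ω ∈ pR L a a' D κ j → a ≤ ‖pY L a' i ω - pY L a' j ω‖)

/-- every point is covered with large probability -/
def Stmt_PrCov : Prop := ∀ (L a : ℝ) (V : Finset (Fin 3 → ℤ)) (x : E), 0 < a → a ≤ L →
  (∀ u : Fin 3 → ℤ, ‖x - gc L u‖ ≤ 3 * L → u ∈ V) →
  1 - 343 * a / L ≤ ∑ v : V, (lawS L V).real {s | good L a V v s x}

/-- independence at distance larger than `6L` -/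
def Stmt_PrInd : Prop := ∀ (L a : ℝ) (V : Finset (Fin 3 → ℤ)) (x y : E) (v v' : V), 0 < a →
  a ≤ L → 6 * L < ‖x - y‖ →
  (lawS L V).real {s | good L a V v s x ∧ good L a V v' s y}
    = (lawS L V).real {s | good L a V v s x} * (lawS L V).real {s | good L a V v' s y}

/-- hypotheses on the parameters of the concrete process -/
structure PrHyp (L a a' ρ₂ : ℝ) (V J : Finset (Fin 3 → ℤ)) (D : Set E) (κ : E → ℝ) : Prop where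
  ha : 0 < a
  haa : a < a'
  hL : a ≤ L
  hD : BM D
  hκ : Measurable κ
  hκ0 : ∀ x, 0 ≤ κ x
  hκD : ∀ x, x ∉ D → κ x = 0
  hρ : 0 < ρ₂
  hκρ : ∀ x ∈ D, κ x ≤ ρ₂
  hp : ∀ x ∈ D, ρ₂ ≤ pint L a a' V x
  hJ : ∀ x : E, ‖x‖ ≤ 2 * L + (a' - a) / 2 →
    ∃ z ∈ J, ∃ u ∈ cube, x = fcc a' (fun j => u j + (z j : ℝ))

/-- unfolding of a lattice sum -/
def Stmt_Unf : Prop := ∀ (a' B : ℝ) (J : Finset (Fin 3 → ℤ)), 0 < a' →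
  (∀ x : E, ‖x‖ ≤ B → ∃ z ∈ J, ∃ u ∈ cube, x = fcc a' (fun j => u j + (z j : ℝ))) →
  ∀ g : E → ENNReal, Measurable g → (∀ x, B < ‖x‖ → g x = 0) →
  ∫⁻ u in cube, ∑ z ∈ J, g (fcc a' (fun j => u j + (z j : ℝ)))
    = ENNReal.ofReal (Real.sqrt 2 / a' ^ 3) * ∫⁻ x, g x

/-- marginals of product measures -/
def Stmt_Marg : Prop := ∀ (ι : Type) [Fintype ι] (α : Type) [MeasurableSpace α]
  (μ : ι → Measure α) [∀ i, IsProbabilityMeasure (μ i)] (n : ℕ) (e : Fin n → ι),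
  Function.Injective e →
  (Measure.pi μ).map (fun x j => x (e j)) = Measure.pi (fun j => μ (e j))

/-- intensity of the concrete process -/
def Stmt_PrInt : Prop := ∀ (L a a' ρ₂ : ℝ) (V J : Finset (Fin 3 → ℤ)) (D : Set E) (κ : E → ℝ),
  PrHyp L a a' ρ₂ V J D κ → IsProbabilityMeasure (lawP L ((a' - a) / 2) V J) ∧
  ∀ f : E → ENNReal, Measurable f →
    ∑ i : V × J, ∫⁻ ω in pR L a a' D κ i, f (pY L a' i ω) ∂(lawP L ((a' - a) / 2) V J)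
      = ∫⁻ x, ENNReal.ofReal (κ x) * f x

/-- far pairs of the concrete process -/
def Stmt_PrFar : Prop := ∀ (L a a' ρ₂ : ℝ) (V J : Finset (Fin 3 → ℤ)) (D : Set E) (κ : E → ℝ),
  PrHyp L a a' ρ₂ V J D κ →
  ∀ f : E → E → ENNReal, Measurable (Function.uncurry f) →
    ∑ i : V × J, ∑ j ∈ Finset.univ.erase i,
        ∫⁻ ω in pR L a a' D κ i ∩ pR L a a' D κ j ∩
          {ω | 6 * L < ‖pY L a' i ω - pY L a' j ω‖}, f (pY L a' i ω) (pY L a' j ω)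
          ∂(lawP L ((a' - a) / 2) V J)
      ≤ ∫⁻ x, ∫⁻ x', ENNReal.ofReal (κ x) * ENNReal.ofReal (κ x') * f x x'

/-- density bound for the concrete process -/
def Stmt_PrDen : Prop := ∀ (L a a' ρ₂ : ℝ) (V J : Finset (Fin 3 → ℤ)) (D : Set E) (κ : E → ℝ),
  PrHyp L a a' ρ₂ V J D κ →
  ∀ (n : ℕ) (G : Set (Fin n → E)), MeasurableSet G →
    (∀ (σ : Equiv.Perm (Fin n)) (X : Fin n → E), X ∈ G → X ∘ σ ∈ G) →
    (lawP L ((a' - a) / 2) V J) {ω | ∃ e : Fin n → V × J, Function.Injective e ∧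
        (∀ i, ω ∈ pR L a a' D κ i ↔ i ∈ Set.range e) ∧ (fun j => pY L a' (e j) ω) ∈ G}
      ≤ ENNReal.ofReal (((vb ((a' - a) / 2))⁻¹) ^ n / (n.factorial : ℝ)) * volume G

/-- existence of hard core processes with prescribed intensity below the close packing density -/
def Stmt_Proc : Prop := ∀ a ρ₂ : ℝ, 0 < a → 0 < ρ₂ → ρ₂ < Real.sqrt 2 / a ^ 3 →
  ∃ D₀ v : ℝ, 0 < D₀ ∧ 1 ≤ v ∧ ∀ (D : Set E) (κ : E → ℝ), BM D → Measurable κ →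
    (∀ x, 0 ≤ κ x ∧ κ x ≤ ρ₂) → (∀ x, x ∉ D → κ x = 0) →
    ∃ (Ω : Type) (_ : MeasurableSpace Ω) (P : Measure Ω) (_ : IsProbabilityMeasure P)
      (I : Type) (_ : Fintype I) (_ : DecidableEq I) (y : I → Ω → E) (R : I → Set Ω),
      IsProc a D₀ v D κ P y R

/-! ## Part F: trial states -/

/-- packing bound -/
def Stmt_Pkb : Prop := ∀ a D₀ : ℝ, 0 < a → 0 < D₀ → ∃ C : ℕ, ∀ (ι : Type) [Fintype ι]
  [DecidableEq ι] (X : ι → E) (T : Finset ι), (∀ i ∈ T, ∀ j ∈ T, i ≠ j → a ≤ ‖X i - X j‖) →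
  ∀ x : E, (T.filter (fun j => ‖X j - x‖ ≤ D₀)).card ≤ C

/-- second moments of linear statistics and mean pair energy -/
def Stmt_Mom : Prop := ∀ a D₀ : ℝ, 0 < a → 0 < D₀ → ∃ C : ℝ, 1 ≤ C ∧
  ∀ (v : ℝ) (D : Set E) (κ : E → ℝ) (Ω : Type) [MeasurableSpace Ω] (P : Measure Ω)
    [IsProbabilityMeasure P] (I : Type) [Fintype I] [DecidableEq I] (y : I → Ω → E)
    (R : I → Set Ω), Measurable κ → IsProc a D₀ v D κ P y R →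
  (∀ (f : E → ℝ) (b : ℝ), Measurable f → (∀ x, 0 ≤ f x ∧ f x ≤ b) →
    ∫⁻ ω, (∑ i, (R i).indicator (fun ω => ENNReal.ofReal (f (y i ω))) ω) ^ 2 ∂P
      ≤ (∫⁻ x, ENNReal.ofReal (κ x) * ENNReal.ofReal (f x)) ^ 2
        + ENNReal.ofReal (C * b ^ 2) * ∫⁻ x, ENNReal.ofReal (κ x)) ∧
  ∫⁻ ω, ∑ i, ∑ j ∈ Finset.univ.erase i,
      (R i ∩ R j).indicator (fun ω => ENNReal.ofReal ‖y i ω - y j ω‖⁻¹) ω ∂P
    ≤ (∫⁻ x, ∫⁻ x', ENNReal.ofReal (κ x) * ENNReal.ofReal (κ x') * ENNReal.ofReal ‖x - x'‖⁻¹)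
      + ENNReal.ofReal C * ∫⁻ x, ENNReal.ofReal (κ x)

/-- standing hypotheses for trial states: region `D`, mean density `κ` of total mass `N`,
fixed charges `F` -/
structure THyp (ρ₁ bF : ℝ) (D : Set E) (κ F : E → ℝ) (N : ℕ) (b A₀ E₀ : ℝ) : Prop where
  hD : BM D
  hκ : Measurable κ
  hκb : ∀ x, 0 ≤ κ x ∧ κ x ≤ ρ₁
  hκD : ∀ x, x ∉ D → κ x = 0
  hF : Adm F
  hFb : ∀ x, |F x| ≤ bF
  hN : ∫ x, κ x = N
  hb : 0 ≤ b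
  hpF : ∀ x, |pot F x| ≤ b
  hpκ : ∀ x, |pot κ x| ≤ b
  hE : Dfm (fun x => κ x + F x) (fun x => κ x + F x) ≤ E₀
  hA : Dfm (fun x => κ x + F x) F ≤ A₀
  hA0 : 0 ≤ A₀
  hE0 : 0 ≤ E₀

/-- good configurations with `n` points -/
def goodC (a : ℝ) (F : E → ℝ) (D : Set E) (n : ℕ) (E₁ A₁ : ℝ) : Set (Fin n → E) :=
  {X | X ∈ conf a D n ∧ En F X ≤ E₁ ∧ (∑ i, pot F (X i)) + Dfm F F ≤ A₁}

/-- many good configurations with slightly more than `N` points -/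
def Stmt_Vol : Prop := ∀ a ρ₁ bF : ℝ, 0 < a → 0 < ρ₁ → ρ₁ < Real.sqrt 2 / a ^ 3 → 0 ≤ bF →
  ∃ C : ℝ, 1 ≤ C ∧ ∀ (D : Set E) (κ F : E → ℝ) (N : ℕ) (b A₀ E₀ : ℝ),
    THyp ρ₁ bF D κ F N b A₀ E₀ → C ≤ N →
    ∃ k : ℕ, (k : ℝ) ≤ C * Real.sqrt N ∧
      Real.exp (-C * N) * ((N + k).factorial : ℝ)
        ≤ volume.real (goodC a F D (N + k) (C * (N + E₀ + b)) (A₀ + C * Real.sqrt N * b))

/-- random deletion of `k` points -/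
def Stmt_Del : Prop := ∀ (a β E₁ A₁ : ℝ) (F : E → ℝ) (D : Set E) (N k : ℕ), 0 < a → 0 < β →
  Adm F → BM D → 0 < N → 0 ≤ E₁ → 0 ≤ A₁ →
  Real.exp (-β * (E₁ + (k : ℝ) / N * A₁ + ((k : ℝ) / N) ^ 2 * (Dfm F F / 2))) *
      volume.real (goodC a F D (N + k) E₁ A₁)
    ≤ ZF a β F D N * (N.factorial : ℝ) * volume.real D ^ k

/-- lower bound by trial states -/
def Stmt_T : Prop := ∀ a β ρ₁ bF : ℝ, 0 < a → 0 < β → 0 < ρ₁ → ρ₁ < Real.sqrt 2 / a ^ 3 →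
  0 ≤ bF → ∃ C : ℝ, 1 ≤ C ∧ ∀ (D : Set E) (κ F : E → ℝ) (N : ℕ) (b A₀ E₀ m₁ : ℝ),
    THyp ρ₁ bF D κ F N b A₀ E₀ → C ≤ N → ∫ x, |F x| ≤ m₁ →
    Real.exp (-C * (N + E₀ + A₀ / Real.sqrt N + b + b * m₁ / N
      + Real.sqrt N * Real.log (2 + volume.real D))) ≤ ZF a β F D N

/-- in a ball the optimal particle number is nearly neutral -/
def Stmt_Ball : Prop := ∀ a β ρ : ℝ, 0 < a → 0 < β → 0 < ρ → ρ < Real.sqrt 2 / a ^ 3 →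
  ∃ K₀ : ℝ, 0 < K₀ ∧ ∀ ε : ℝ, 0 < ε → ∃ r₀ : ℝ, ∀ r : ℝ, r₀ ≤ r → ∃ n : ℕ,
    |(n : ℝ) - ρ * vb r| ≤ K₀ * r ^ 2 ∧ 0 < Z a β ρ (cB 0 r) n ∧
    Real.log (Xi a β ρ (cB 0 r)) ≤ Real.log (Z a β ρ (cB 0 r) n) + ε * r ^ 3

/-- radial neutral charges -/
def Stmt_Rad : Prop := ∀ K₀ ρ ρ₁ a w : ℝ, 0 < K₀ → 0 < ρ → 0 < ρ₁ → 0 < a → a < w →
  ∃ C : ℝ, 0 < C ∧ ∀ (r κ Q : ℝ) (z : E), 2 ≤ r → |Q| ≤ K₀ * r ^ 2 → 0 ≤ κ → κ ≤ ρ₁ →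
    Q - ρ * (vb (r + w) - vb r) + κ * (vb (r + w) - vb (r + a)) = 0 →
    Adm (nuk ρ κ Q z r a w) ∧ (∀ x, |nuk ρ κ Q z r a w x| ≤ C) ∧
    (∀ x, r + w < ‖x - z‖ → nuk ρ κ Q z r a w x = 0) ∧
    (∀ x, ‖x - z‖ < r - 1 → nuk ρ κ Q z r a w x = 0) ∧
    (∀ x, r + w ≤ ‖x - z‖ → pot (nuk ρ κ Q z r a w) x = 0) ∧
    (∀ x, |pot (nuk ρ κ Q z r a w) x| ≤ C) ∧
    Dfm (nuk ρ κ Q z r a w) (nuk ρ κ Q z r a w) ≤ C * r ^ 2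

/-- lower bound by balls surrounded by compensating shells -/
def Stmt_LowB : Prop := ∀ a β ρ K₀ : ℝ, 0 < a → 0 < β → 0 < ρ → ρ < Real.sqrt 2 / a ^ 3 →
  0 < K₀ → ∃ w CT Cw r₀ : ℝ, a < w ∧ 0 < CT ∧ 0 < Cw ∧ 2 ≤ r₀ ∧ ∀ p δ : ℝ, 0 < p → 0 < δ →
  ∃ V₀ : ℝ, 0 < V₀ ∧ ∀ (Λ : Set E) (K : Type) [Fintype K] [DecidableEq K] (z : K → E)
    (r : K → ℝ) (n : K → ℕ) (N : ℕ), BM Λ → (∀ k, r₀ ≤ r k) →
    (∀ k, |(n k : ℝ) - ρ * vb (r k)| ≤ K₀ * r k ^ 2) →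
    (∀ k k', k ≠ k' → r k + r k' + 2 * w ≤ ‖z k - z k'‖) → (∀ k, cB (z k) (r k + w) ⊆ Λ) →
    p * volume.real Λ ≤ volume.real (Λ \ ⋃ k, cB (z k) (r k + w)) → V₀ ≤ volume.real Λ →
    ρ * volume.real Λ = N →
    Real.exp (-(CT * volume.real (Λ \ ⋃ k, cB (z k) (r k)) + Cw * ∑ k, r k ^ 2
        + δ * volume.real Λ)) * ∏ k, Z a β ρ (cB 0 (r k)) (n k) ≤ Z a β ρ Λ N

/-- lower bound for all domains -/
def Stmt_Low : Prop := ∀ a β ρ : ℝ, 0 < a → 0 < β → 0 < ρ → ρ < Real.sqrt 2 / a ^ 3 →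
  ∃ CL : ℝ, 0 < CL ∧ ∀ (m : ℕ) (c : Fin m → E) (q : Fin m → ℝ) (γ ε : ℝ), Pack m c q γ →
  0 < ε → ε < 1 → 1 - ε ≤ frac q → ∃ lam2 : ℝ, 0 < lam2 ∧ ∀ l : ℝ, lam2 ≤ l →
  ∃ C₁ R₁ V₀ : ℝ, 0 ≤ C₁ ∧ 0 < R₁ ∧ ∀ Λ : Set E, BM Λ → V₀ ≤ volume.real Λ → ∀ N : ℕ,
    ρ * volume.real Λ = N →
    Real.exp (Sl a β ρ q l * volume.real Λ - CL * ε * volume.real Λ - C₁ * zone R₁ Λ)
      ≤ Z a β ρ Λ N

/-! ## Part G: conclusion -/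

/-- the thermodynamic limit -/
def Stmt_Fin : Prop := ∀ a β ρ : ℝ, 0 < a → 0 < β → 0 < ρ → ρ < Real.sqrt 2 / a ^ 3 →
  ∃ g : ℝ, ∀ (Λ : ℕ → Set E) (N : ℕ → ℕ), (∀ j, BM (Λ j)) →
    (∀ j, ρ * volume.real (Λ j) = N j) →
    (∀ R : ℝ, 0 < R → Tendsto (fun j => zone R (Λ j) / volume.real (Λ j)) atTop (𝓝 0)) →
    Tendsto (fun j => volume.real (Λ j)) atTop atTop →
    Tendsto (fun j => Real.log (Z a β ρ (Λ j) (N j)) / volume.real (Λ j)) atTop (𝓝 g)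

/-- derivatives of convex functions converge (Griffiths) -/
def Stmt_Grif : Prop := ∀ (f : ℕ → ℝ → ℝ) (g : ℝ → ℝ), (∀ j, ConvexOn ℝ (Ioi 0) (f j)) →
  (∀ y, 0 < y → Tendsto (fun j => f j y) atTop (𝓝 (g y))) →
  ConvexOn ℝ (Ioi 0) g ∧ ∀ (x d : ℝ) (d' : ℕ → ℝ), 0 < x → (∀ j, HasDerivAt (f j) (d' j) x) →
    HasDerivAt g d x → Tendsto d' atTop (𝓝 d)

/-- the logarithm of the partition function is convex in `β`, its derivative is minus the mean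
energy -/
def Stmt_DerZ : Prop := ∀ (a ρ : ℝ) (Λ : Set E) (N : ℕ), 0 < a → 0 < ρ → BM Λ →
  (∃ β, 0 < β ∧ 0 < Z a β ρ Λ N) →
  (∀ β, 0 < β → 0 < Z a β ρ Λ N) ∧ ConvexOn ℝ (Ioi 0) (fun β => Real.log (Z a β ρ Λ N)) ∧
  ∀ β, 0 < β → HasDerivAt (fun β => Real.log (Z a β ρ Λ N))
    (-((∫ X in conf a Λ N, En (bg ρ Λ) X * Real.exp (-β * En (bg ρ Λ) X)) /
      ∫ X in conf a Λ N, Real.exp (-β * En (bg ρ Λ) X))) β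

end Pool.Agent.JEL
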